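import Pool.Agent.Run7.h201.CTR.T3d

set_option autoImplicit false

/-!
# Ball systems: coding by trees
-/

namespace Pool.Agent.Run7.h201.CTR.BALL

open Set MeasureTheory
open Pool.Agent.H533R2.VO (RS lift RIso Dich)
open Pool.Agent.H566P (ar R2 lt ac co mk)
open Pool.Agent.Y560.TG (lt_mk ac_mk co_mk riso_iff meas_lt meas_ac meas_co meas_into)
open Pool.Agent.Run7.h201.CS.FC (riso_symm riso_trans m_lt m_ac m_co)
open Pool.Agent.Run7.h201.CTR
open Pool.Agent.Run7.h201.CTR.T1 (STO dnc Nz)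
open Pool.Agent.Run7.h201.CTR.T3 (cz FW)

/-- Structures: `x.1 a b c` means that `a` is in the ball spanned by `b` and `c`; binary relations;
unary predicates. -/
abbrev Q3 : Type := (ℕ → ℕ → ℕ → Bool) × (ℕ → ℕ → ℕ → Bool) × (ℕ → ℕ → Bool)

/-- `σ` is an isomorphism -/
def IsoQ (σ : Equiv.Perm ℕ) (x y : Q3) : Prop :=
  (∀ a b c, y.1 (σ a) (σ b) (σ c) = x.1 a b c) ∧ (∀ k a b, y.2.1 k (σ a) (σ b) = x.2.1 k a b) ∧
    ∀ k a, y.2.2 k (σ a) = x.2.2 k a

theorem isoQ_symm {σ : Equiv.Perm ℕ} {x y : Q3} (h : IsoQ σ x y) : IsoQ σ.symm y x := by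
  refine ⟨fun a b c => ?_, fun k a b => ?_, fun k a => ?_⟩
  · rw [← h.1, Equiv.apply_symm_apply, Equiv.apply_symm_apply, Equiv.apply_symm_apply]
  · rw [← h.2.1, Equiv.apply_symm_apply, Equiv.apply_symm_apply]
  · rw [← h.2.2, Equiv.apply_symm_apply]

theorem isoQ_trans {σ τ : Equiv.Perm ℕ} {x y z : Q3} (h : IsoQ σ x y) (h' : IsoQ τ y z) :
    IsoQ (σ.trans τ) x z := by
  refine ⟨fun a b c => ?_, fun k a b => ?_, fun k a => ?_⟩
  · rw [← h.1, ← h'.1]; rfl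
  · rw [← h.2.1, ← h'.2.1]; rfl
  · rw [← h.2.2, ← h'.2.2]; rfl

/-- ball systems -/
structure BS (D : ℕ → ℕ → ℕ → Prop) : Prop where
  left : ∀ b c, D b b c
  symm : ∀ a b c, D a b c → D a c b
  incl : ∀ b c d e, D d b c → D e b c → ∀ a, D a d e → D a b c
  lam : ∀ b c d e, (∃ a, D a b c ∧ D a d e) →
    (∀ a, D a b c → D a d e) ∨ (∀ a, D a d e → D a b c)

/-- intersections of balls -/
def Reg (D : ℕ → ℕ → ℕ → Prop) (S : Set ℕ) : Prop :=
  ∃ F : Set (ℕ × ℕ), S = {a | ∀ p ∈ F, D a p.1 p.2}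

/-- finite width -/
def BW (D : ℕ → ℕ → ℕ → Prop) (E : ℕ → ℕ → ℕ → Prop) : Prop :=
  ∀ S : Set ℕ, Reg D S → ∃ (n : ℕ) (l : ℕ → Fin n),
    (∀ a ∈ S, ∀ b ∈ S, l a = l b → ∀ c, c ∉ S → ∀ k, (E k a c ↔ E k b c) ∧ (E k c a ↔ E k c b)) ∧
    ∀ a a' b b', a ≠ a' → b ≠ b' → S = {x | D x a a'} → S = {x | D x b b'} →
      l a = l b → l a' = l b' → ∀ k, (E k a a' ↔ E k b b')

/-! ### Coded trees -/

/-- leaves -/
def Lf (w : R2) (x : ℕ) : Prop := co w 0 x

/-- `x` is the greatest inner node below `y` and `z` -/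
def sp (w : R2) (x y z : ℕ) : Prop :=
  ¬ Lf w x ∧ lt w x y ∧ lt w x z ∧ ∀ v, ¬ Lf w v → lt w v y → lt w v z → v = x ∨ lt w v x

/-- coded trees -/
structure AxT (w : R2) : Prop where
  irr : ∀ x, ¬ lt w x x
  tr : ∀ x y z, lt w x y → lt w y z → lt w x z
  lin : ∀ x y z, lt w x z → lt w y z → lt w x y ∨ x = y ∨ lt w y x
  top : ∀ x y, Lf w x → ¬ lt w x y
  inf : ∀ n, ∃ m, n < m ∧ Lf w m
  acd : ∀ k x y, ac w k x y → Lf w x ∧ Lf w y
  cod : ∀ k x, co w (k + 1) x → Lf w x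
  spn : ∀ x, Lf w x ∨ ∃ y z, Lf w y ∧ Lf w z ∧ sp w x y z
  ex : ∀ y z, Lf w y → Lf w z → ∃ x, sp w x y z

theorem AxT.sto {w : R2} (h : AxT w) : STO w := ⟨h.irr, h.tr, h.lin⟩

theorem AxT.infl {w : R2} (h : AxT w) : (Set.ofPred (Lf w)).Infinite := by
  refine Set.infinite_of_not_bddAbove ?_
  rintro ⟨b, hb⟩
  obtain ⟨m, h1, h2⟩ := h.inf b
  exact absurd (hb h2) (not_le.2 h1)

/-- the `i`-th leaf -/
noncomputable def lf (w : R2) (i : ℕ) : ℕ := Nat.nth (Lf w) i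

open Classical in
/-- the number of a leaf -/
noncomputable def nu (w : R2) (x : ℕ) : ℕ := Nat.count (Lf w) x

section

variable {w w' : R2}

theorem lf_lf (h : AxT w) (i : ℕ) : Lf w (lf w i) := Nat.nth_mem_of_infinite h.infl i
theorem nu_lf (h : AxT w) (i : ℕ) : nu w (lf w i) = i := by
  classical
  exact Nat.count_nth_of_infinite h.infl i
theorem lf_nu {x : ℕ} (hx : Lf w x) : lf w (nu w x) = x := by
  classical
  exact Nat.nth_count hx
theorem lf_inj (h : AxT w) {i j : ℕ} : lf w i = lf w j ↔ i = j :=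
  ⟨fun e => Nat.nth_injective h.infl e, fun e => by rw [e]⟩

open Classical in
/-- the decoded structure -/
noncomputable def dec (w : R2) : Q3 :=
  (fun i j k => decide (∀ v, ¬ Lf w v → lt w v (lf w j) → lt w v (lf w k) → lt w v (lf w i)),
    fun k i j => decide (ac w k (lf w i) (lf w j)), fun k i => decide (co w (k + 1) (lf w i)))

theorem dec1 {i j k : ℕ} : (dec w).1 i j k = true ↔
    ∀ v, ¬ Lf w v → lt w v (lf w j) → lt w v (lf w k) → lt w v (lf w i) := by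
  classical
  exact decide_eq_true_iff
theorem dec2 {k i j : ℕ} : (dec w).2.1 k i j = true ↔ ac w k (lf w i) (lf w j) := by
  classical
  exact decide_eq_true_iff
theorem dec3 {k i : ℕ} : (dec w).2.2 k i = true ↔ co w (k + 1) (lf w i) := by
  classical
  exact decide_eq_true_iff

/-- the ball of a node -/
theorem dec1_sp (h : AxT w) {x i j k : ℕ} (hx : sp w x (lf w j) (lf w k)) :
    (dec w).1 i j k = true ↔ lt w x (lf w i) := by
  rw [dec1]
  constructor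
  · exact fun h1 => h1 x hx.1 hx.2.1 hx.2.2.1
  · intro h1 v h2 h3 h4
    rcases hx.2.2.2 v h2 h3 h4 with rfl | h5
    · exact h1
    · exact h.tr _ _ _ h5 h1

/-- nodes with the same leaves are equal -/
theorem node_eq (h : AxT w) {x y : ℕ} (hx : ¬ Lf w x) (hy : ¬ Lf w y)
    (he : ∀ i, lt w x (lf w i) ↔ lt w y (lf w i)) : x = y := by
  obtain ⟨a, b, ha, hb, h1⟩ := (h.spn x).resolve_left hx
  obtain ⟨c, d, hc, hd, h2⟩ := (h.spn y).resolve_left hy
  have e : ∀ {a}, Lf w a → (lt w x a ↔ lt w y a) := by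
    intro a ha
    have := he (nu w a)
    rwa [lf_nu ha] at this
  rcases h1.2.2.2 y hy ((e ha).1 h1.2.1) ((e hb).1 h1.2.2.1) with h3 | h3
  · exact h3.symm
  · rcases h2.2.2.2 x hx ((e hc).2 h2.2.1) ((e hd).2 h2.2.2.1) with h4 | h4
    · exact h4
    · exact absurd (h.tr _ _ _ h3 h4) (h.irr _)

theorem node_lt (h : AxT w) {x y : ℕ} (hx : ¬ Lf w x) (hy : ¬ Lf w y) :
    lt w x y ↔ (∀ i, lt w y (lf w i) → lt w x (lf w i)) ∧ ¬ ∀ i, lt w x (lf w i) → lt w y (lf w i) := by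
  constructor
  · intro h1
    refine ⟨fun i h2 => h.tr _ _ _ h1 h2, fun h2 => ?_⟩
    rw [node_eq h hx hy fun i => ⟨h2 i, fun h3 => h.tr _ _ _ h1 h3⟩] at h1
    exact h.irr _ h1
  · rintro ⟨h1, h2⟩
    obtain ⟨c, d, hc, hd, h3⟩ := (h.spn y).resolve_left hy
    have h4 : lt w x c := by
      have := h1 (nu w c)
      rw [lf_nu hc] at this
      exact this h3.2.1
    rcases h.lin _ _ _ h4 h3.2.1 with h5 | h5 | h5
    · exact h5
    · rw [h5] at h2
      exact absurd (fun i h => h) h2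
    · exact absurd (fun i h6 => h.tr _ _ _ h5 h6) h2

/-! ### Isomorphisms -/

theorem iso_down (h : AxT w) (h' : AxT w') (hi : RIso w w') : ∃ σ, IsoQ σ (dec w) (dec w') := by
  obtain ⟨σ, h1, h2, h3⟩ := riso_iff.1 hi
  have hL : ∀ x, Lf w' (σ x) ↔ Lf w x := fun x => h3 0 x
  have hL' : ∀ x, Lf w (σ.symm x) ↔ Lf w' x := fun x => by
    rw [← hL, Equiv.apply_symm_apply]
  let τ : Equiv.Perm ℕ :=
    { toFun := fun i => nu w' (σ (lf w i))
      invFun := fun j => nu w (σ.symm (lf w' j))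
      left_inv := fun i => by
        show nu w (σ.symm (lf w' (nu w' (σ (lf w i))))) = i
        rw [lf_nu ((hL _).2 (lf_lf h i)), Equiv.symm_apply_apply, nu_lf h]
      right_inv := fun j => by
        show nu w' (σ (lf w (nu w (σ.symm (lf w' j))))) = j
        rw [lf_nu ((hL' _).2 (lf_lf h' j)), Equiv.apply_symm_apply, nu_lf h'] }
  have hτ : ∀ i, lf w' (τ i) = σ (lf w i) := fun i => lf_nu ((hL _).2 (lf_lf h i))
  refine ⟨τ, fun a b c => ?_, fun k a b => ?_, fun k a => ?_⟩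
  · rw [Bool.eq_iff_iff, dec1, dec1, hτ, hτ, hτ]
    constructor
    · intro h4 v h5 h6 h7
      have := h4 (σ v) (fun h8 => h5 ((hL v).1 h8)) ((h1 _ _).2 h6) ((h1 _ _).2 h7)
      exact (h1 _ _).1 this
    · intro h4 v h5 h6 h7
      obtain ⟨v, rfl⟩ := σ.surjective v
      exact (h1 _ _).2 (h4 v (fun h8 => h5 ((hL v).2 h8)) ((h1 _ _).1 h6) ((h1 _ _).1 h7))
  · rw [Bool.eq_iff_iff, dec2, dec2, hτ, hτ]
    exact h2 _ _ _
  · rw [Bool.eq_iff_iff, dec3, dec3, hτ]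
    exact h3 _ _

/-- corresponding nodes -/
def Cor (w w' : R2) (τ : Equiv.Perm ℕ) (x x' : ℕ) : Prop :=
  (∃ i, x = lf w i ∧ x' = lf w' (τ i)) ∨
    (¬ Lf w x ∧ ¬ Lf w' x' ∧ ∀ i, lt w x (lf w i) ↔ lt w' x' (lf w' (τ i)))

theorem cor_symm {τ : Equiv.Perm ℕ} {x x' : ℕ} (h : Cor w w' τ x x') : Cor w' w τ.symm x' x := by
  rcases h with ⟨i, rfl, rfl⟩ | ⟨h1, h2, h3⟩
  · exact Or.inl ⟨τ i, rfl, by rw [Equiv.symm_apply_apply]⟩
  · refine Or.inr ⟨h2, h1, fun i => ?_⟩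
    rw [h3, Equiv.apply_symm_apply]

theorem cor_ex {τ : Equiv.Perm ℕ} (h : AxT w) (h' : AxT w') (hτ : IsoQ τ (dec w) (dec w'))
    (x : ℕ) : ∃ x', Cor w w' τ x x' := by
  by_cases hx : Lf w x
  · exact ⟨lf w' (τ (nu w x)), Or.inl ⟨nu w x, (lf_nu hx).symm, rfl⟩⟩
  · obtain ⟨a, b, ha, hb, h1⟩ := (h.spn x).resolve_left hx
    rw [← lf_nu ha, ← lf_nu hb] at h1
    obtain ⟨x', hx'⟩ := h'.ex (lf w' (τ (nu w a))) (lf w' (τ (nu w b))) (lf_lf h' _) (lf_lf h' _)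
    refine ⟨x', Or.inr ⟨hx, hx'.1, fun i => ?_⟩⟩
    rw [← dec1_sp h h1, ← dec1_sp h' hx', hτ.1]

theorem cor_uniq {τ : Equiv.Perm ℕ} (h' : AxT w') {x x' x'' : ℕ}
    (h1 : Cor w w' τ x x') (h2 : Cor w w' τ x x'') (h : AxT w) : x' = x'' := by
  rcases h1 with ⟨i, rfl, rfl⟩ | ⟨a1, a2, a3⟩
  · rcases h2 with ⟨j, e, rfl⟩ | ⟨b1, -, -⟩
    · rw [(lf_inj h).1 e]
    · exact absurd (lf_lf h i) b1
  · rcases h2 with ⟨j, rfl, rfl⟩ | ⟨b1, b2, b3⟩
    · exact absurd (lf_lf h j) a1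
    · refine node_eq h' a2 b2 fun i => ?_
      have c1 := a3 (τ.symm i)
      have c2 := b3 (τ.symm i)
      rw [Equiv.apply_symm_apply] at c1 c2
      exact c1.symm.trans c2

theorem iso_up (h : AxT w) (h' : AxT w') (hi : ∃ σ, IsoQ σ (dec w) (dec w')) : RIso w w' := by
  obtain ⟨τ, hτ⟩ := hi
  choose f hf using cor_ex h h' hτ
  have hb : Function.Bijective f := by
    constructor
    · intro x y hxy
      have h1 := cor_symm (hf x)
      have h2 := cor_symm (hf y)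
      rw [← hxy] at h2
      exact cor_uniq h h1 h2 h'
    · intro y
      obtain ⟨x, hx⟩ := cor_ex h' h (isoQ_symm hτ) y
      have h1 := cor_symm hx
      rw [Equiv.symm_symm] at h1
      exact ⟨x, cor_uniq h' (hf x) h1 h⟩
  let σ : Equiv.Perm ℕ := Equiv.ofBijective f hb
  have hσ : ∀ x, σ x = f x := fun x => rfl
  have hL : ∀ x, Lf w' (f x) ↔ Lf w x := by
    intro x
    rcases hf x with ⟨i, h1, h2⟩ | ⟨h1, h2, -⟩
    · rw [h1] at h2 ⊢
      rw [h2]
      exact iff_of_true (lf_lf h' _) (lf_lf h _)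
    · exact iff_of_false h2 h1
  have hfl : ∀ i, f (lf w i) = lf w' (τ i) := fun i =>
    cor_uniq h' (hf (lf w i)) (Or.inl ⟨i, rfl, rfl⟩) h
  refine riso_iff.2 ⟨σ, fun x y => ?_, fun n x y => ?_, fun n x => ?_⟩
  · rw [hσ, hσ]
    by_cases hx : Lf w x
    · exact iff_of_false (h'.top _ _ ((hL x).2 hx)) (h.top _ _ hx)
    · have hx' : ¬ Lf w' (f x) := fun h1 => hx ((hL x).1 h1)
      have cx : ∀ i, lt w x (lf w i) ↔ lt w' (f x) (lf w' (τ i)) := by
        rcases hf x with ⟨i, h1, -⟩ | ⟨-, -, h1⟩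
        · rw [h1] at hx
          exact absurd (lf_lf h i) hx
        · exact h1
      by_cases hy : Lf w y
      · rw [← lf_nu hy, hfl, cx]
      · have hy' : ¬ Lf w' (f y) := fun h1 => hy ((hL y).1 h1)
        have cy : ∀ i, lt w y (lf w i) ↔ lt w' (f y) (lf w' (τ i)) := by
          rcases hf y with ⟨i, h1, -⟩ | ⟨-, -, h1⟩
          · rw [h1] at hy
            exact absurd (lf_lf h i) hy
          · exact h1
        rw [node_lt h' hx' hy', node_lt h hx hy]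
        refine and_congr ⟨fun h1 i => ?_, fun h1 i => ?_⟩ (not_congr ⟨fun h1 i => ?_, fun h1 i => ?_⟩)
        · rw [cx, cy]; exact h1 _
        · have := h1 (τ.symm i)
          rwa [cx, cy, Equiv.apply_symm_apply] at this
        · rw [cx, cy]; exact h1 _
        · have := h1 (τ.symm i)
          rwa [cx, cy, Equiv.apply_symm_apply] at this
  · rw [hσ, hσ]
    by_cases hxy : Lf w x ∧ Lf w y
    · obtain ⟨hx, hy⟩ := hxy
      rw [← lf_nu hx, ← lf_nu hy, hfl, hfl, ← dec2, ← dec2, hτ.2.1]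
    · refine iff_of_false (fun h1 => hxy ?_) (fun h1 => hxy (h.acd _ _ _ h1))
      have := h'.acd _ _ _ h1
      exact ⟨(hL _).1 this.1, (hL _).1 this.2⟩
  · rw [hσ]
    rcases n with _ | n
    · exact hL x
    · by_cases hx : Lf w x
      · rw [← lf_nu hx, hfl, ← dec3, ← dec3, hτ.2.2]
      · exact iff_of_false (fun h1 => hx ((hL _).1 (h'.cod _ _ h1))) fun h1 => hx (h.cod _ _ h1)

theorem AxT.iso (hi : RIso w w') (h : AxT w) : AxT w' := by
  obtain ⟨σ, h1, h2, h3⟩ := riso_iff.1 hi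
  have hL : ∀ x, Lf w' (σ x) ↔ Lf w x := fun x => h3 0 x
  have hsp : ∀ x y z, sp w' (σ x) (σ y) (σ z) ↔ sp w x y z := by
    intro x y z
    unfold sp
    rw [hL, h1, h1]
    refine and_congr_right fun _ => and_congr_right fun _ => and_congr_right fun _ => ?_
    constructor
    · intro h4 v h5 h6 h7
      have := h4 (σ v) (fun h8 => h5 ((hL v).1 h8)) ((h1 _ _).2 h6) ((h1 _ _).2 h7)
      rwa [h1, σ.injective.eq_iff] at this
    · intro h4 v h5 h6 h7
      obtain ⟨v, rfl⟩ := σ.surjective v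
      rw [h1, σ.injective.eq_iff]
      exact h4 v (fun h8 => h5 ((hL v).2 h8)) ((h1 _ _).1 h6) ((h1 _ _).1 h7)
  refine ⟨fun x => ?_, fun x y z => ?_, fun x y z => ?_, fun x y => ?_, fun n => ?_,
    fun k x y => ?_, fun k x => ?_, fun x => ?_, fun y z => ?_⟩
  · obtain ⟨x, rfl⟩ := σ.surjective x
    rw [h1]; exact h.irr x
  · obtain ⟨x, rfl⟩ := σ.surjective x
    obtain ⟨y, rfl⟩ := σ.surjective y
    obtain ⟨z, rfl⟩ := σ.surjective z
    rw [h1, h1, h1]; exact h.tr x y z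
  · obtain ⟨x, rfl⟩ := σ.surjective x
    obtain ⟨y, rfl⟩ := σ.surjective y
    obtain ⟨z, rfl⟩ := σ.surjective z
    rw [h1, h1, h1, h1, σ.injective.eq_iff]; exact h.lin x y z
  · obtain ⟨x, rfl⟩ := σ.surjective x
    obtain ⟨y, rfl⟩ := σ.surjective y
    rw [hL, h1]; exact h.top x y
  · by_contra hcon
    push Not at hcon
    have hf : (Set.ofPred (Lf w)).Finite := by
      refine ((Set.finite_Iic n).preimage (σ.injective.injOn)).subset ?_
      intro x hx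
      by_contra h4
      exact hcon (σ x) (not_le.1 h4) ((hL x).2 hx)
    exact h.infl hf
  · obtain ⟨x, rfl⟩ := σ.surjective x
    obtain ⟨y, rfl⟩ := σ.surjective y
    rw [h2, hL, hL]; exact h.acd k x y
  · obtain ⟨x, rfl⟩ := σ.surjective x
    rw [h3, hL]; exact h.cod k x
  · obtain ⟨x, rfl⟩ := σ.surjective x
    rcases h.spn x with h4 | ⟨y, z, h4, h5, h6⟩
    · exact Or.inl ((hL x).2 h4)
    · exact Or.inr ⟨σ y, σ z, (hL y).2 h4, (hL z).2 h5, (hsp _ _ _).2 h6⟩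
  · obtain ⟨y, rfl⟩ := σ.surjective y
    obtain ⟨z, rfl⟩ := σ.surjective z
    rw [hL, hL]
    intro h4 h5
    obtain ⟨x, hx⟩ := h.ex y z h4 h5
    exact ⟨σ x, (hsp _ _ _).2 hx⟩

end

end Pool.Agent.Run7.h201.CTR.BALL
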