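import Pool.Agent.Run7.h201.CTR.Ball

set_option autoImplicit false

/-!
# Ball systems: every ball structure is coded; finite width; the theorem
-/

namespace Pool.Agent.Run7.h201.CTR.BALL

open Set MeasureTheory
open Pool.Agent.H533R2.VO (RS lift RIso Dich)
open Pool.Agent.H566P (ar R2 lt ac co mk)
open Pool.Agent.Y560.TG (lt_mk ac_mk co_mk riso_iff meas_lt meas_ac meas_co meas_into)
open Pool.Agent.Run7.h201.CS.FC (riso_symm riso_trans m_lt m_ac m_co)
open Pool.Agent.Run7.h201.CTR
open Pool.Agent.Run7.h201.CTR.T1 (STO dnc Nz)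
open Pool.Agent.Run7.h201.CTR.T3 (cz FW)

section enc

variable (D : ℕ → ℕ → ℕ → Prop)

/-- points and balls -/
abbrev Nd : Type := ℕ ⊕ {S : Set ℕ // ∃ b c, S = {a | D a b c}}

/-- the tree order: a ball is below its points and below the smaller balls -/
def nlt : Nd D → Nd D → Prop
  | Sum.inr S, Sum.inr S' => S'.1 ⊂ S.1
  | Sum.inr S, Sum.inl a => a ∈ S.1
  | Sum.inl _, _ => False

variable {D}

theorem nlt_irr (x : Nd D) : ¬ nlt D x x := by
  rcases x with a | S
  · exact fun h => h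
  · exact fun h => (h : S.1 ⊂ S.1).ne rfl

theorem nlt_tr (x y z : Nd D) (h : nlt D x y) (h' : nlt D y z) : nlt D x z := by
  rcases x with a | S
  · exact h
  · rcases y with b | S'
    · exact absurd h' (fun h => h)
    · rcases z with c | S''
      · exact (h : S'.1 ⊂ S.1).1 h'
      · exact (show S''.1 ⊂ S'.1 from h').trans (h : S'.1 ⊂ S.1)

variable (hD : BS D)

include hD

theorem ball_cmp {S S' : {S : Set ℕ // ∃ b c, S = {a | D a b c}}} (h : ∃ a, a ∈ S.1 ∧ a ∈ S'.1) :
    S.1 ⊂ S'.1 ∨ S = S' ∨ S'.1 ⊂ S.1 := by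
  obtain ⟨S, b, c, rfl⟩ := S
  obtain ⟨S', d, e, rfl⟩ := S'
  rcases hD.lam b c d e h with h1 | h1
  · have h2 : {a | D a b c} ⊆ {a | D a d e} := h1
    rcases h2.eq_or_ssubset with h3 | h3
    · exact Or.inr (Or.inl (Subtype.ext h3))
    · exact Or.inl h3
  · have h2 : {a | D a d e} ⊆ {a | D a b c} := h1
    rcases h2.eq_or_ssubset with h3 | h3
    · exact Or.inr (Or.inl (Subtype.ext h3.symm))
    · exact Or.inr (Or.inr h3)

theorem nlt_lin (x y z : Nd D) (h : nlt D x z) (h' : nlt D y z) : nlt D x y ∨ x = y ∨ nlt D y x := by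
  rcases x with a | S
  · exact absurd h (fun h => h)
  rcases y with b | S'
  · exact absurd h' (fun h => h)
  have hc : ∃ a, a ∈ S.1 ∧ a ∈ S'.1 := by
    rcases z with c | S''
    · exact ⟨c, h, h'⟩
    · obtain ⟨T, b, c, rfl⟩ := S''
      exact ⟨b, (show {a | D a b c} ⊂ S.1 from h).1 (hD.left b c),
        (show {a | D a b c} ⊂ S'.1 from h').1 (hD.left b c)⟩
  rcases ball_cmp hD hc with h1 | h1 | h1
  · exact Or.inr (Or.inr h1)
  · exact Or.inr (Or.inl (by rw [h1]))
  · exact Or.inl h1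

/-- the ball spanned by two points -/
theorem ball_max (a b : ℕ) (v : {S : Set ℕ // ∃ b c, S = {a | D a b c}}) (ha : a ∈ v.1)
    (hb : b ∈ v.1) : {x | D x a b} ⊆ v.1 := by
  obtain ⟨T, c, d, rfl⟩ := v
  exact hD.incl c d a b ha hb

/-- Every ball structure is coded. -/
theorem enc_ex (E : ℕ → ℕ → ℕ → Prop) (U : ℕ → ℕ → Prop) : ∃ w : R2, AxT w ∧
    ∃ τ : Equiv.Perm ℕ, (∀ a b c, D (τ a) (τ b) (τ c) ↔ (dec w).1 a b c = true) ∧
      (∀ k a b, E k (τ a) (τ b) ↔ (dec w).2.1 k a b = true) ∧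
      ∀ k a, U k (τ a) ↔ (dec w).2.2 k a = true := by
  classical
  have hcB : Countable {S : Set ℕ // ∃ b c, S = {a | D a b c}} := by
    have hsur : Function.Surjective (fun p : ℕ × ℕ =>
        (⟨{a | D a p.1 p.2}, p.1, p.2, rfl⟩ : {S : Set ℕ // ∃ b c, S = {a | D a b c}})) := by
      rintro ⟨S, b, c, rfl⟩
      exact ⟨(b, c), rfl⟩
    exact hsur.countable
  obtain ⟨e⟩ : Nonempty (Nd D ≃ ℕ) := nonempty_equiv_of_countable
  let w : R2 := mk (fun m n => nlt D (e.symm m) (e.symm n))
    (fun k m n => ∃ a b, e.symm m = Sum.inl a ∧ e.symm n = Sum.inl b ∧ E k a b)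
    (fun k m => (k = 0 ∧ ∃ a, e.symm m = Sum.inl a) ∨
      ∃ k' a, k = k' + 1 ∧ e.symm m = Sum.inl a ∧ U k' a)
  have hlt : ∀ m n, lt w m n ↔ nlt D (e.symm m) (e.symm n) := fun m n => lt_mk _ _ _ _ _
  have hac : ∀ k m n, ac w k m n ↔ ∃ a b, e.symm m = Sum.inl a ∧ e.symm n = Sum.inl b ∧ E k a b :=
    fun k m n => ac_mk _ _ _ _ _ _
  have hLf : ∀ m, Lf w m ↔ ∃ a, e.symm m = Sum.inl a := by
    intro m
    show co w 0 m ↔ _
    rw [co_mk]
    constructor
    · rintro (⟨-, h⟩ | ⟨k', a, h, -⟩)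
      · exact h
      · exact absurd h (by omega)
    · exact fun h => Or.inl ⟨rfl, h⟩
  have hco : ∀ k m, co w (k + 1) m ↔ ∃ a, e.symm m = Sum.inl a ∧ U k a := by
    intro k m
    rw [co_mk]
    constructor
    · rintro (⟨h, -⟩ | ⟨k', a, h, h1, h2⟩)
      · exact absurd h (by omega)
      · have : k = k' := by omega
        subst this
        exact ⟨a, h1, h2⟩
    · rintro ⟨a, h1, h2⟩
      exact Or.inr ⟨k, a, rfl, h1, h2⟩
  have hnode : ∀ m, ¬ Lf w m → ∃ S, e.symm m = Sum.inr S := by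
    intro m hm
    rw [hLf] at hm
    rcases hs : e.symm m with a | S
    · exact absurd ⟨a, hs⟩ hm
    · exact ⟨S, rfl⟩
  have hsp : ∀ a b, sp w (e (Sum.inr ⟨{x | D x a b}, a, b, rfl⟩)) (e (Sum.inl a)) (e (Sum.inl b)) := by
    intro a b
    refine ⟨?_, ?_, ?_, ?_⟩
    · rw [hLf, Equiv.symm_apply_apply]
      rintro ⟨a, h⟩
      exact absurd h (by simp)
    · rw [hlt, Equiv.symm_apply_apply, Equiv.symm_apply_apply]
      exact hD.left a b
    · rw [hlt, Equiv.symm_apply_apply, Equiv.symm_apply_apply]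
      exact hD.symm _ _ _ (hD.left b a)
    · intro v hv h1 h2
      obtain ⟨S, hS⟩ := hnode v hv
      rw [hlt, hS, Equiv.symm_apply_apply] at h1 h2
      have h3 := ball_max hD a b S h1 h2
      rcases h3.eq_or_ssubset with h4 | h4
      · left
        exact (e.symm_apply_eq.1 hS).trans (congrArg e (congrArg Sum.inr (Subtype.ext h4.symm)))
      · right
        rw [hlt, hS, Equiv.symm_apply_apply]
        exact h4
  have hleaf : ∀ m, Lf w m → ∃ a, m = e (Sum.inl a) := by
    intro m hm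
    obtain ⟨a, ha⟩ := (hLf m).1 hm
    exact ⟨a, e.symm_apply_eq.1 ha⟩
  have hLe : ∀ a, Lf w (e (Sum.inl a)) := fun a => (hLf _).2 ⟨a, e.symm_apply_apply _⟩
  have hAx : AxT w := by
    refine ⟨fun x => ?_, fun x y z => ?_, fun x y z => ?_, fun x y => ?_, fun n => ?_,
      fun k x y => ?_, fun k x => ?_, fun x => ?_, fun y z => ?_⟩
    · rw [hlt]; exact nlt_irr _
    · rw [hlt, hlt, hlt]; exact nlt_tr _ _ _
    · rw [hlt, hlt, hlt, hlt]
      intro h1 h2
      rcases nlt_lin hD _ _ _ h1 h2 with h3 | h3 | h3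
      · exact Or.inl h3
      · exact Or.inr (Or.inl (e.symm.injective h3))
      · exact Or.inr (Or.inr h3)
    · intro hx h1
      obtain ⟨a, rfl⟩ := hleaf x hx
      rw [hlt, Equiv.symm_apply_apply] at h1
      exact h1
    · have hinj : Function.Injective fun a : ℕ => e (Sum.inl a) := fun a b h =>
        Sum.inl_injective (e.injective h)
      obtain ⟨m, ⟨a, rfl⟩, hm⟩ := (Set.infinite_range_of_injective hinj).exists_gt n
      exact ⟨_, hm, hLe a⟩
    · rw [hac]
      rintro ⟨a, b, h1, h2, -⟩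
      exact ⟨(hLf _).2 ⟨a, h1⟩, (hLf _).2 ⟨b, h2⟩⟩
    · rw [hco]
      rintro ⟨a, h1, -⟩
      exact (hLf _).2 ⟨a, h1⟩
    · by_cases hx : Lf w x
      · exact Or.inl hx
      · obtain ⟨⟨_, b, c, rfl⟩, hS⟩ := hnode x hx
        obtain rfl := e.symm_apply_eq.1 hS
        exact Or.inr ⟨_, _, hLe b, hLe c, hsp b c⟩
    · intro hy hz
      obtain ⟨a, rfl⟩ := hleaf y hy
      obtain ⟨b, rfl⟩ := hleaf z hz
      exact ⟨_, hsp a b⟩
  choose t ht using fun i => hleaf (lf w i) (lf_lf hAx i)
  let τ : Equiv.Perm ℕ :=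
    { toFun := t
      invFun := fun a => nu w (e (Sum.inl a))
      left_inv := fun i => by
        show nu w (e (Sum.inl (t i))) = i
        rw [← ht, nu_lf hAx]
      right_inv := fun a => by
        show t (nu w (e (Sum.inl a))) = a
        have h1 := ht (nu w (e (Sum.inl a)))
        rw [lf_nu (hLe a)] at h1
        exact (Sum.inl_injective (e.injective h1)).symm }
  have hτ : ∀ i, lf w i = e (Sum.inl (τ i)) := ht
  refine ⟨w, hAx, τ, fun a b c => ?_, fun k a b => ?_, fun k a => ?_⟩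
  · have h1 := hsp (τ b) (τ c)
    rw [← hτ, ← hτ] at h1
    rw [dec1_sp hAx h1, hlt, Equiv.symm_apply_apply, hτ, Equiv.symm_apply_apply]
    exact Iff.rfl
  · rw [dec2, hac, hτ, hτ, Equiv.symm_apply_apply, Equiv.symm_apply_apply]
    constructor
    · exact fun h => ⟨_, _, rfl, rfl, h⟩
    · rintro ⟨a', b', h1, h2, h3⟩
      rwa [Sum.inl_injective h1, Sum.inl_injective h2]
  · rw [dec3, hco, hτ, Equiv.symm_apply_apply]
    constructor
    · exact fun h => ⟨_, rfl, h⟩
    · rintro ⟨a', h1, h3⟩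
      rwa [Sum.inl_injective h1]

end enc

/-! ### Finite width -/

theorem fw_of {w : R2} (h : AxT w)
    (hB : BW (fun a b c => (dec w).1 a b c = true) (fun k a b => (dec w).2.1 k a b = true)) :
    FW w := by
  classical
  intro A hA
  by_cases hleaf : ∃ a ∈ A, Lf w a
  · obtain ⟨a, ha, hLa⟩ := hleaf
    have hno : ∀ s, s ∉ Nz w A := fun s hs => h.top _ _ hLa (hs a ha)
    exact ⟨1, fun _ => 0, fun s s' hs => absurd hs (hno s), fun s s' u u' hs => absurd hs (hno s)⟩
  · push Not at hleaf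
    -- the intersection of balls
    let S : Set ℕ := {i | lf w i ∈ Nz w A}
    have hReg : Reg (fun a b c => (dec w).1 a b c = true) S := by
      refine ⟨{p | ∃ x ∈ A, sp w x (lf w p.1) (lf w p.2)}, ?_⟩
      ext i
      constructor
      · rintro hi p ⟨x, hx, hxs⟩
        exact (dec1_sp h hxs).2 (hi x hx)
      · intro hi x hx
        obtain ⟨y, z, hy, hz, hs⟩ := (h.spn x).resolve_left (hleaf x hx)
        rw [← lf_nu hy, ← lf_nu hz] at hs
        exact (dec1_sp h hs).1 (hi (nu w y, nu w z) ⟨x, hx, hs⟩)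
    obtain ⟨n, l, hl1, hl2⟩ := hB S hReg
    let l' : ℕ → Fin (n + 1) := fun x => if Lf w x then (l (nu w x)).castSucc else Fin.last n
    have hl'1 : ∀ x, Lf w x → l' x = (l (nu w x)).castSucc := fun x hx => if_pos hx
    have hl'2 : ∀ x, ¬ Lf w x → l' x = Fin.last n := fun x hx => if_neg hx
    have hsame : ∀ x y, l' x = l' y → (Lf w x ↔ Lf w y) := by
      intro x y hxy
      by_cases hx : Lf w x
      · by_cases hy : Lf w y
        · exact iff_of_true hx hy
        · rw [hl'1 x hx, hl'2 y hy] at hxy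
          exact absurd hxy (Fin.castSucc_lt_last _).ne
      · by_cases hy : Lf w y
        · rw [hl'2 x hx, hl'1 y hy] at hxy
          exact absurd hxy (Fin.castSucc_lt_last _).ne'
        · exact iff_of_false hx hy
    have hlab : ∀ x y, Lf w x → Lf w y → l' x = l' y → l (nu w x) = l (nu w y) := by
      intro x y hx hy hxy
      rw [hl'1 x hx, hl'1 y hy] at hxy
      exact Fin.castSucc_injective _ hxy
    refine ⟨n + 1, l', ?_, ?_⟩
    · intro s s' hs hs' he y hy k
      by_cases hL : Lf w s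
      · have hL' := (hsame _ _ he).1 hL
        by_cases hLy : Lf w y
        · have hS : nu w s ∈ S := by
            show lf w (nu w s) ∈ Nz w A
            rw [lf_nu hL]; exact hs
          have hS' : nu w s' ∈ S := by
            show lf w (nu w s') ∈ Nz w A
            rw [lf_nu hL']; exact hs'
          have hy' : nu w y ∉ S := by
            show ¬ lf w (nu w y) ∈ Nz w A
            rw [lf_nu hLy]; exact hy
          have h1 := hl1 _ hS _ hS' (hlab _ _ hL hL' he) _ hy' k
          simp only [dec2, lf_nu hL, lf_nu hL', lf_nu hLy] at h1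
          exact h1
        · exact ⟨iff_of_false (fun h1 => hLy (h.acd _ _ _ h1).2) fun h1 => hLy (h.acd _ _ _ h1).2,
            iff_of_false (fun h1 => hLy (h.acd _ _ _ h1).1) fun h1 => hLy (h.acd _ _ _ h1).1⟩
      · have hL' : ¬ Lf w s' := fun h1 => hL ((hsame _ _ he).2 h1)
        exact ⟨iff_of_false (fun h1 => hL (h.acd _ _ _ h1).1) fun h1 => hL' (h.acd _ _ _ h1).1,
          iff_of_false (fun h1 => hL (h.acd _ _ _ h1).2) fun h1 => hL' (h.acd _ _ _ h1).2⟩
    · intro s s' u u' hs hs' hu hu' h1 h2 e1 e2 k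
      by_cases hL : Lf w s ∧ Lf w s'
      · obtain ⟨Ls, Ls'⟩ := hL
        have Lu := (hsame _ _ e1).1 Ls
        have Lu' := (hsame _ _ e2).1 Ls'
        have key : ∀ s s', s ∈ Nz w A → s' ∈ Nz w A → Lf w s → Lf w s' → ¬ cz w A s s' →
            nu w s ≠ nu w s' ∧ S = {x | (dec w).1 x (nu w s) (nu w s') = true} := by
          intro s s' hs hs' Ls Ls' hn
          constructor
          · intro he
            have : s = s' := by rw [← lf_nu Ls, he, lf_nu Ls']
            exact hn ⟨s, hs, Or.inl rfl, Or.inl this⟩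
          · obtain ⟨v, hv⟩ := h.ex s s' Ls Ls'
            have hA1 : ∀ a ∈ A, a = v ∨ lt w a v := fun a ha =>
              hv.2.2.2 a (hleaf a ha) (hs a ha) (hs' a ha)
            have hv' : ∃ a ∈ A, ¬ lt w a v := by
              by_contra hcon
              push Not at hcon
              exact hn ⟨v, hcon, Or.inr hv.2.1, Or.inr hv.2.2.1⟩
            obtain ⟨a, ha, hav⟩ := hv'
            have hvA : v ∈ A := by
              rcases hA1 a ha with h3 | h3
              · rw [← h3]; exact ha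
              · exact absurd h3 hav
            have hv2 : sp w v (lf w (nu w s)) (lf w (nu w s')) := by
              rw [lf_nu Ls, lf_nu Ls']; exact hv
            ext i
            show lf w i ∈ Nz w A ↔ (dec w).1 i (nu w s) (nu w s') = true
            rw [dec1_sp h hv2]
            constructor
            · exact fun h3 => h3 v hvA
            · intro h3 b hb
              rcases hA1 b hb with h4 | h4
              · rw [h4]; exact h3
              · exact h.tr _ _ _ h4 h3
        obtain ⟨n1, s1⟩ := key s s' hs hs' Ls Ls' h1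
        obtain ⟨n2, s2⟩ := key u u' hu hu' Lu Lu' h2
        have h3 := hl2 _ _ _ _ n1 n2 s1 s2 (hlab _ _ Ls Lu e1) (hlab _ _ Ls' Lu' e2) k
        simp only [dec2, lf_nu Ls, lf_nu Ls', lf_nu Lu, lf_nu Lu'] at h3
        exact h3
      · refine iff_of_false (fun h3 => hL (h.acd _ _ _ h3)) fun h3 => hL ?_
        have := h.acd _ _ _ h3
        exact ⟨(hsame _ _ e1).2 this.1, (hsame _ _ e2).2 this.2⟩

/-! ### Measurability -/

theorem m_Lf (x : ℕ) : Measurable fun w : R2 => Lf w x := m_co 0 x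
theorem m_sp (x y z : ℕ) : Measurable fun w : R2 => sp w x y z := by
  unfold sp
  exact (m_Lf _).not.and ((m_lt _ _).and ((m_lt _ _).and (Measurable.forall fun v =>
    (m_Lf _).not.imp ((m_lt _ _).imp ((m_lt _ _).imp (measurable_const.or (m_lt _ _)))))))

theorem meas_AxT : MeasurableSet {w : R2 | AxT w} := by
  have e : ∀ w : R2, AxT w ↔ (∀ x, ¬ lt w x x) ∧ (∀ x y z, lt w x y → lt w y z → lt w x z) ∧
      (∀ x y z, lt w x z → lt w y z → lt w x y ∨ x = y ∨ lt w y x) ∧
      (∀ x y, Lf w x → ¬ lt w x y) ∧ (∀ n, ∃ m, n < m ∧ Lf w m) ∧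
      (∀ k x y, ac w k x y → Lf w x ∧ Lf w y) ∧ (∀ k x, co w (k + 1) x → Lf w x) ∧
      (∀ x, Lf w x ∨ ∃ y z, Lf w y ∧ Lf w z ∧ sp w x y z) ∧
      (∀ y z, Lf w y → Lf w z → ∃ x, sp w x y z) := fun w =>
    ⟨fun h => ⟨h.irr, h.tr, h.lin, h.top, h.inf, h.acd, h.cod, h.spn, h.ex⟩,
      fun ⟨a1, a2, a3, a4, a5, a6, a7, a8, a9⟩ => ⟨a1, a2, a3, a4, a5, a6, a7, a8, a9⟩⟩
  rw [show {w : R2 | AxT w} = {w : R2 | _} from Set.ext fun w => e w]
  refine measurableSet_setOfPred.2 ?_
  refine (Measurable.forall fun x => (m_lt _ _).not).and ?_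
  refine (Measurable.forall fun x => Measurable.forall fun y => Measurable.forall fun z =>
    (m_lt _ _).imp ((m_lt _ _).imp (m_lt _ _))).and ?_
  refine (Measurable.forall fun x => Measurable.forall fun y => Measurable.forall fun z =>
    (m_lt _ _).imp ((m_lt _ _).imp ((m_lt _ _).or (measurable_const.or (m_lt _ _))))).and ?_
  refine (Measurable.forall fun x => Measurable.forall fun y =>
    (m_Lf _).imp (m_lt _ _).not).and ?_
  refine (Measurable.forall fun n => Measurable.exists fun m =>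
    measurable_const.and (m_Lf _)).and ?_
  refine (Measurable.forall fun k => Measurable.forall fun x => Measurable.forall fun y =>
    (m_ac _ _ _).imp ((m_Lf _).and (m_Lf _))).and ?_
  refine (Measurable.forall fun k => Measurable.forall fun x =>
    (m_co _ _).imp (m_Lf _)).and ?_
  refine (Measurable.forall fun x => (m_Lf _).or (Measurable.exists fun y =>
    Measurable.exists fun z => (m_Lf _).and ((m_Lf _).and (m_sp _ _ _)))).and ?_
  exact Measurable.forall fun y => Measurable.forall fun z => (m_Lf _).imp ((m_Lf _).imp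
    (Measurable.exists fun x => m_sp _ _ _))

theorem m_lf (i a : ℕ) : Measurable fun w : R2 => lf w i = a :=
  Pool.Agent.Y560.TG.PL.meas_nth (fun w : R2 => Lf w) m_Lf i a

theorem meas_dec : Measurable dec := by
  classical
  refine Measurable.prodMk ?_ (Measurable.prodMk ?_ ?_)
  · refine measurable_pi_lambda _ fun i => measurable_pi_lambda _ fun j =>
      measurable_pi_lambda _ fun k => measurable_to_bool ?_
    have e : (fun w : R2 => (dec w).1 i j k) ⁻¹' {true} = {w | ∃ a b c, lf w i = a ∧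
        lf w j = b ∧ lf w k = c ∧ ∀ v, ¬ Lf w v → lt w v b → lt w v c → lt w v a} := by
      ext w
      constructor
      · intro h
        exact ⟨_, _, _, rfl, rfl, rfl, dec1.1 h⟩
      · rintro ⟨a, b, c, rfl, rfl, rfl, h⟩
        exact dec1.2 h
    show MeasurableSet ((fun w : R2 => (dec w).1 i j k) ⁻¹' {true})
    rw [e]
    exact measurableSet_setOfPred.2 (Measurable.exists fun a => Measurable.exists fun b =>
      Measurable.exists fun c => (m_lf _ _).and ((m_lf _ _).and ((m_lf _ _).and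
        (Measurable.forall fun v => (m_Lf _).not.imp ((m_lt _ _).imp ((m_lt _ _).imp
          (m_lt _ _)))))))
  · refine measurable_pi_lambda _ fun k => measurable_pi_lambda _ fun i =>
      measurable_pi_lambda _ fun j => measurable_to_bool ?_
    have e : (fun w : R2 => (dec w).2.1 k i j) ⁻¹' {true} = {w | ∃ a b, lf w i = a ∧
        lf w j = b ∧ ac w k a b} := by
      ext w
      constructor
      · intro h
        exact ⟨_, _, rfl, rfl, dec2.1 h⟩
      · rintro ⟨a, b, rfl, rfl, h⟩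
        exact dec2.2 h
    show MeasurableSet ((fun w : R2 => (dec w).2.1 k i j) ⁻¹' {true})
    rw [e]
    exact measurableSet_setOfPred.2 (Measurable.exists fun a => Measurable.exists fun b =>
      (m_lf _ _).and ((m_lf _ _).and (m_ac _ _ _)))
  · refine measurable_pi_lambda _ fun k => measurable_pi_lambda _ fun i =>
      measurable_to_bool ?_
    have e : (fun w : R2 => (dec w).2.2 k i) ⁻¹' {true} = {w | ∃ a, lf w i = a ∧
        co w (k + 1) a} := by
      ext w
      constructor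
      · intro h
        exact ⟨_, rfl, dec3.1 h⟩
      · rintro ⟨a, rfl, h⟩
        exact dec3.2 h
    show MeasurableSet ((fun w : R2 => (dec w).2.2 k i) ⁻¹' {true})
    rw [e]
    exact measurableSet_setOfPred.2 (Measurable.exists fun a =>
      (m_lf _ _).and (m_co _ _))

/-- Borel families can be made continuous (as in `Pool.Agent.W875.TS.cont_of_meas`). -/
theorem cont_of_meas {X : Type} [TopologicalSpace X] [SecondCountableTopology X]
    [MeasurableSpace X] [OpensMeasurableSpace X] {F : (ℕ → Bool) → X} (hF : Measurable F) :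
    ∃ h : (ℕ → Bool) → (ℕ → Bool), Function.Injective h ∧ Continuous (F ∘ h) := by
  have hp1 : SecondCountableTopology (ℕ → Bool) := inferInstance
  have hp3 : TopologicalSpace.IsCompletelyMetrizableSpace (ℕ → Bool) := inferInstance
  have hp0 : PolishSpace (ℕ → Bool) := inferInstance
  obtain ⟨t', hle, hc, hp⟩ := hF.exists_continuous
  have hunc : ¬ (univ : Set (ℕ → Bool)).Countable := by
    rw [countable_univ_iff]
    exact Pool.Agent.H899R2.VP.not_countable_cantor
  obtain ⟨h, -, h2, h3⟩ := @IsClosed.exists_nat_bool_injection_of_not_countable (ℕ → Bool) t' hp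
    univ (@isClosed_univ _ t') hunc
  refine ⟨h, h3, ?_⟩
  exact @Continuous.comp _ _ _ Pi.topologicalSpace t' _ h F hc h2

/-- **Theorem.** The dichotomy for ball systems with relations of finite width. -/
theorem t4 (B : Set Q3) (hB : MeasurableSet B) (hinv : ∀ x ∈ B, ∀ y σ, IsoQ σ x y → y ∈ B)
    (hBS : ∀ x ∈ B, BS fun a b c => x.1 a b c = true)
    (hBW : ∀ x ∈ B, BW (fun a b c => x.1 a b c = true) fun k a b => x.2.1 k a b = true) :
    (∃ f : ℕ → Q3, (∀ n, f n ∈ B ∨ B = ∅) ∧ ∀ x ∈ B, ∃ n σ, IsoQ σ (f n) x) ∨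
    ∃ c : (ℕ → Bool) → Q3, Continuous c ∧ (∀ s, c s ∈ B) ∧
      ∀ s t, (∃ σ, IsoQ σ (c s) (c t)) → s = t := by
  have hKi : ∀ x y, RIso x y → x ∈ {w : R2 | AxT w} ∩ dec ⁻¹' B →
      y ∈ {w : R2 | AxT w} ∩ dec ⁻¹' B := by
    rintro w w' hi ⟨hw, hd⟩
    have hw' : AxT w' := AxT.iso hi hw
    obtain ⟨σ, hσ⟩ := iso_down hw hw' hi
    exact ⟨hw', hinv _ hd _ _ hσ⟩
  rcases T3.t3 ({w : R2 | AxT w} ∩ dec ⁻¹' B) (meas_AxT.inter (meas_dec hB)) hKi
    (fun w hw => hw.1.sto) (fun w hw => fw_of hw.1 (hBW _ hw.2)) with ⟨f, hf⟩ | ⟨c, hc1, hc2, hc3⟩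
  · left
    have hx : ∀ x ∈ B, ∃ n σ, IsoQ σ (dec (f n)) x ∧ f n ∈ {w : R2 | AxT w} ∩ dec ⁻¹' B := by
      intro x hx
      obtain ⟨w, hw, τ, h1, h2, h3⟩ := enc_ex (hBS x hx) (fun k a b => x.2.1 k a b = true)
        (fun k a => x.2.2 k a = true)
      have hτ : IsoQ τ (dec w) x := ⟨fun a b c => by rw [Bool.eq_iff_iff]; exact h1 a b c,
        fun k a b => by rw [Bool.eq_iff_iff]; exact h2 k a b,
        fun k a => by rw [Bool.eq_iff_iff]; exact h3 k a⟩
      have hwK : w ∈ {w : R2 | AxT w} ∩ dec ⁻¹' B := ⟨hw, hinv _ hx _ _ (isoQ_symm hτ)⟩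
      obtain ⟨n, hn⟩ := hf w hwK
      have hfn := hKi _ _ (riso_symm hn) hwK
      obtain ⟨σ, hσ⟩ := iso_down hfn.1 hw hn
      exact ⟨n, σ.trans τ, isoQ_trans hσ hτ, hfn⟩
    classical
    by_cases hne : B.Nonempty
    · obtain ⟨x0, hx0⟩ := hne
      refine ⟨fun n => if dec (f n) ∈ B then dec (f n) else x0, fun n => Or.inl ?_, fun x hxB => ?_⟩
      · by_cases h : dec (f n) ∈ B
        · simp only [if_pos h]; exact h
        · simp only [if_neg h]; exact hx0
      · obtain ⟨n, σ, h1, h2⟩ := hx x hxB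
        refine ⟨n, σ, ?_⟩
        have h3 : dec (f n) ∈ B := h2.2
        simp only [if_pos h3]
        exact h1
    · rw [not_nonempty_iff_eq_empty] at hne
      exact ⟨fun n => dec (f n), fun n => Or.inr hne, fun x hxB => by rw [hne] at hxB; exact hxB.elim⟩
  · right
    have hm : Measurable fun s => dec (c s) := meas_dec.comp hc1.measurable
    have b0 : BorelSpace (ℕ → Bool) := Pi.borelSpace
    have b2 : BorelSpace (ℕ → ℕ → Bool) := Pi.borelSpace
    have b3 : BorelSpace (ℕ → ℕ → ℕ → Bool) := Pi.borelSpace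
    have b4 : BorelSpace ((ℕ → ℕ → ℕ → Bool) × (ℕ → ℕ → Bool)) := Prod.borelSpace
    have b5 : BorelSpace Q3 := Prod.borelSpace
    obtain ⟨h, h1, h2⟩ := cont_of_meas hm
    refine ⟨fun s => dec (c (h s)), h2, fun s => (hc2 _).2, fun s t hst => ?_⟩
    exact h1 (hc3 _ _ (iso_up (hc2 _).1 (hc2 _).1 hst))

end Pool.Agent.Run7.h201.CTR.BALL
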