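import Mathlib

set_option autoImplicit false

/-!
# Monadic second-order logic over trees: definable relations have finite width
-/

namespace Pool.Agent.Run7.h201.CTR.MSO

open Set

/-- Formulas of monadic second-order logic with `N` element variables and `N` set variables. -/
inductive Fo (N : ℕ) : Type
  | lt (i j : Fin N) : Fo N
  | eq (i j : Fin N) : Fo N
  | mem (i k : Fin N) : Fo N
  | not (φ : Fo N) : Fo N
  | and (φ ψ : Fo N) : Fo N
  | exElt (i : Fin N) (φ : Fo N) : Fo N
  | exSet (k : Fin N) (φ : Fo N) : Fo N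

/-- Satisfaction in `(α, r)`; `v` interprets the element variables, `P` the set variables. -/
def Sat {α : Type} (r : α → α → Prop) {N : ℕ} : Fo N → (Fin N → α) → (Fin N → Set α) → Prop
  | .lt i j, v, _ => r (v i) (v j)
  | .eq i j, v, _ => v i = v j
  | .mem i k, v, P => v i ∈ P k
  | .not φ, v, P => ¬ Sat r φ v P
  | .and φ ψ, v, P => Sat r φ v P ∧ Sat r ψ v P
  | .exElt i φ, v, P => ∃ x : α, Sat r φ (Function.update v i x) P
  | .exSet k φ, v, P => ∃ X : Set α, Sat r φ v (Function.update P k X)

/-- quantifier rank -/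
def rk {N : ℕ} : Fo N → ℕ
  | .lt _ _ => 0
  | .eq _ _ => 0
  | .mem _ _ => 0
  | .not φ => rk φ
  | .and φ ψ => max (rk φ) (rk ψ)
  | .exElt _ φ => rk φ + 1
  | .exSet _ φ => rk φ + 1

/-- The finite type of atomic informations. -/
abbrev T0 (N : ℕ) : Type :=
  (Fin N → Prop) × (Fin N → Fin N → Prop) × (Fin N → Fin N → Prop) × (Fin N → Fin N → Prop)

/-- The finite type of rank `n` types. -/
def T (N : ℕ) : ℕ → Type
  | 0 => T0 N
  | n + 1 => T N n × (Fin N → Set (T N n)) × (Fin N → T N n) × (Fin N → Set (T N n))

instance T_fin (N n : ℕ) : Finite (T N n) := by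
  induction n with
  | zero => exact inferInstanceAs (Finite (T0 N))
  | succ n ih =>
    have : Finite (T N n) := ih
    exact inferInstanceAs
      (Finite (T N n × (Fin N → Set (T N n)) × (Fin N → T N n) × (Fin N → Set (T N n))))

section types

variable {α : Type} (r : α → α → Prop) {N : ℕ}

/-- The type of rank `n` of the part `D`, with some element variables in `D`. -/
def ty : (n : ℕ) → Set α → (Fin N → Option α) → (Fin N → Set α) → T N n
  | 0, D, v, P => ((fun i => ∃ x ∈ D, v i = some x),
      (fun i j => ∃ x ∈ D, ∃ y ∈ D, v i = some x ∧ v j = some y ∧ r x y),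
      (fun i j => ∃ x ∈ D, v i = some x ∧ v j = some x),
      (fun i k => ∃ x ∈ D, v i = some x ∧ x ∈ P k))
  | n + 1, D, v, P => (ty n D v P, (fun i => {t | ∃ x ∈ D, ty n D (Function.update v i (some x)) P = t}),
      (fun i => ty n D (Function.update v i none) P),
      (fun k => {t | ∃ X : Set α, ty n D v (Function.update P k X) = t}))

variable {r}

theorem ty_succ {n : ℕ} {D D' : Set α} {v v' : Fin N → Option α} {P P' : Fin N → Set α}
    (h : ty r (n + 1) D v P = ty r (n + 1) D' v' P') :
    ty r n D v P = ty r n D' v' P' ∧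
    (∀ i, ∀ x ∈ D, ∃ x' ∈ D', ty r n D (Function.update v i (some x)) P =
      ty r n D' (Function.update v' i (some x')) P') ∧
    (∀ i, ty r n D (Function.update v i none) P = ty r n D' (Function.update v' i none) P') ∧
    ∀ k X, ∃ X' : Set α, ty r n D v (Function.update P k X) =
      ty r n D' v' (Function.update P' k X') := by
  have h1 := congrArg (fun t : T N (n + 1) => t.1) h
  have h2 := congrArg (fun t : T N (n + 1) => t.2.1) h
  have h3 := congrArg (fun t : T N (n + 1) => t.2.2.1) h
  have h4 := congrArg (fun t : T N (n + 1) => t.2.2.2) h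
  refine ⟨h1, fun i x hx => ?_, fun i => congrFun h3 i, fun k X => ?_⟩
  · have h5 := congrFun h2 i
    have h6 : ty r n D (Function.update v i (some x)) P ∈
        {t | ∃ x' ∈ D', ty r n D' (Function.update v' i (some x')) P' = t} := by
      have h7 : {t | ∃ x ∈ D, ty r n D (Function.update v i (some x)) P = t} =
        {t | ∃ x' ∈ D', ty r n D' (Function.update v' i (some x')) P' = t} := h5
      rw [← h7]
      exact ⟨x, hx, rfl⟩
    obtain ⟨x', hx', he⟩ := h6
    exact ⟨x', hx', he.symm⟩
  · have h5 := congrFun h4 k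
    have h6 : ty r n D v (Function.update P k X) ∈
        {t | ∃ X' : Set α, ty r n D' v' (Function.update P' k X') = t} := by
      have h7 : {t | ∃ X : Set α, ty r n D v (Function.update P k X) = t} =
        {t | ∃ X' : Set α, ty r n D' v' (Function.update P' k X') = t} := h5
      rw [← h7]
      exact ⟨X, rfl⟩
    obtain ⟨X', he⟩ := h6
    exact ⟨X', he.symm⟩

theorem ty_zero {n : ℕ} {D D' : Set α} {v v' : Fin N → Option α} {P P' : Fin N → Set α}
    (h : ty r n D v P = ty r n D' v' P') : ty r 0 D v P = ty r 0 D' v' P' := by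
  induction n with
  | zero => exact h
  | succ n ih => exact ih (ty_succ h).1

/-- the type depends on the sets inside `D` only -/
theorem ty_loc {n : ℕ} {D : Set α} : ∀ {v : Fin N → Option α} {P P' : Fin N → Set α},
    (∀ k, ∀ x ∈ D, x ∈ P k ↔ x ∈ P' k) → ty r n D v P = ty r n D v P' := by
  induction n with
  | zero =>
    intro v P P' h
    refine Prod.ext rfl (Prod.ext rfl (Prod.ext rfl ?_))
    funext i k
    refine propext ⟨?_, ?_⟩
    · rintro ⟨x, hx, h1, h2⟩
      exact ⟨x, hx, h1, (h k x hx).1 h2⟩
    · rintro ⟨x, hx, h1, h2⟩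
      exact ⟨x, hx, h1, (h k x hx).2 h2⟩
  | succ n ih =>
    intro v P P' h
    refine Prod.ext (ih h) (Prod.ext ?_ (Prod.ext ?_ ?_))
    · funext i
      have : ∀ x, ty r n D (Function.update v i (some x)) P =
        ty r n D (Function.update v i (some x)) P' := fun x => ih h
      show {t | ∃ x ∈ D, ty r n D (Function.update v i (some x)) P = t} =
        {t | ∃ x ∈ D, ty r n D (Function.update v i (some x)) P' = t}
      simp only [this]
    · funext i
      exact ih h
    · funext k
      have : ∀ X, ty r n D v (Function.update P k X) = ty r n D v (Function.update P' k X) := by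
        intro X
        refine ih fun k' x hx => ?_
        by_cases hk : k' = k
        · subst hk
          rw [Function.update_self, Function.update_self]
        · rw [Function.update_of_ne hk, Function.update_of_ne hk]
          exact h k' x hx
      show {t | ∃ X : Set α, ty r n D v (Function.update P k X) = t} =
        {t | ∃ X : Set α, ty r n D v (Function.update P' k X) = t}
      simp only [this]

end types

section sum

variable {α : Type} {r : α → α → Prop} {N : ℕ} {ι : Type}

open Classical in
/-- the part of the valuation in the piece `j` -/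
noncomputable def rs (κ : α → Option ι) (j : ι) (v : Fin N → α) : Fin N → Option α :=
  fun i => if κ (v i) = some j then some (v i) else none

/-- the piece `j` -/
def pc (κ : α → Option ι) (j : ι) : Set α := {x | κ x = some j}

/-- `r` is a sum of the pieces: there are no relations between different pieces, and an element
outside of all pieces is related to all elements of all pieces or to none. -/
structure Sm (r : α → α → Prop) (κ : α → Option ι) (A : Set α) : Prop where
  pp : ∀ x y i j, κ x = some i → κ y = some j → i ≠ j → ¬ r x y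
  po : ∀ x y i, κ x = some i → κ y = none → ¬ r x y
  op : ∀ x y i, κ x = none → κ y = some i → (r x y ↔ x ∈ A)

/-- corresponding valuations -/
structure Gm (r : α → α → Prop) (κ : α → Option ι) (π : Equiv.Perm ι) (n : ℕ)
    (v v' : Fin N → α) (P P' : Fin N → Set α) : Prop where
  vo : ∀ i, κ (v i) = none → v' i = v i
  vi : ∀ i j, κ (v i) = some j → κ (v' i) = some (π j)
  so : ∀ k x, κ x = none → (x ∈ P k ↔ x ∈ P' k)
  tp : ∀ j, ty r n (pc κ j) (rs κ j v) P = ty r n (pc κ (π j)) (rs κ (π j) v') P'

theorem rs_none {κ : α → Option ι} {v : Fin N → α} {i : Fin N} {x : α} {j : ι}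
    (h : κ x ≠ some j) : rs κ j (Function.update v i x) = Function.update (rs κ j v) i none := by
  funext i'
  unfold rs
  by_cases hi : i' = i
  · subst hi
    rw [Function.update_self, Function.update_self, if_neg h]
  · rw [Function.update_of_ne hi, Function.update_of_ne hi]

theorem rs_some {κ : α → Option ι} {v : Fin N → α} {i : Fin N} {x : α} {j : ι}
    (h : κ x = some j) : rs κ j (Function.update v i x) =
      Function.update (rs κ j v) i (some x) := by
  funext i'
  unfold rs
  by_cases hi : i' = i
  · subst hi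
    rw [Function.update_self, Function.update_self, if_pos h]
  · rw [Function.update_of_ne hi, Function.update_of_ne hi]

variable {κ : α → Option ι} {A : Set α} {π : Equiv.Perm ι} {n : ℕ} {v v' : Fin N → α}
  {P P' : Fin N → Set α}

/-- the position of the values is the same -/
theorem Gm.pos (h : Gm r κ π n v v' P P') (i : Fin N) :
    (κ (v i) = none ∧ κ (v' i) = none ∧ v' i = v i) ∨
      ∃ j, κ (v i) = some j ∧ κ (v' i) = some (π j) := by
  rcases hk : κ (v i) with _ | j
  · exact Or.inl ⟨rfl, by rw [h.vo i hk, hk], h.vo i hk⟩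
  · exact Or.inr ⟨j, rfl, h.vi i j hk⟩

theorem rs_val {κ : α → Option ι} {v : Fin N → α} {i : Fin N} {j : ι} {x : α} :
    rs κ j v i = some x ↔ κ (v i) = some j ∧ x = v i := by
  unfold rs
  split
  · rename_i h
    constructor
    · intro h1
      exact ⟨h, (Option.some.inj h1).symm⟩
    · rintro ⟨-, rfl⟩
      rfl
  · rename_i h
    constructor
    · intro h1
      exact absurd h1 (by simp)
    · exact fun h1 => absurd h1.1 h

/-- atomic formulas -/
theorem Gm.atom (hs : Sm r κ A) (h : Gm r κ π n v v' P P') (i i' : Fin N) :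
    (r (v i) (v i') ↔ r (v' i) (v' i')) ∧ (v i = v i' ↔ v' i = v' i') ∧
      (v i ∈ P i' ↔ v' i ∈ P' i') := by
  have key : ∀ j, κ (v i) = some j → κ (v' i) = some (π j) →
      (κ (v i') = some j → κ (v' i') = some (π j) →
        (r (v i) (v i') ↔ r (v' i) (v' i')) ∧ (v i = v i' ↔ v' i = v' i')) ∧
      (v i ∈ P i' ↔ v' i ∈ P' i') := by
    intro j h1 h2
    have h0 := ty_zero (h.tp j)
    have e2 := congrArg (fun t : T0 N => t.2.1) h0
    have e3 := congrArg (fun t : T0 N => t.2.2.1) h0
    have e4 := congrArg (fun t : T0 N => t.2.2.2) h0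
    refine ⟨fun h3 h4 => ⟨?_, ?_⟩, ?_⟩
    · have e := congrFun (congrFun e2 i) i'
      have e' : (∃ x ∈ pc κ j, ∃ y ∈ pc κ j, rs κ j v i = some x ∧ rs κ j v i' = some y ∧ r x y) =
        (∃ x ∈ pc κ (π j), ∃ y ∈ pc κ (π j), rs κ (π j) v' i = some x ∧
          rs κ (π j) v' i' = some y ∧ r x y) := e
      simp only [rs_val] at e'
      have f1 : (∃ x ∈ pc κ j, ∃ y ∈ pc κ j, (κ (v i) = some j ∧ x = v i) ∧
          (κ (v i') = some j ∧ y = v i') ∧ r x y) ↔ r (v i) (v i') := by
        constructor
        · rintro ⟨x, -, y, -, ⟨-, rfl⟩, ⟨-, rfl⟩, h5⟩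
          exact h5
        · exact fun h5 => ⟨_, h1, _, h3, ⟨h1, rfl⟩, ⟨h3, rfl⟩, h5⟩
      have f2 : (∃ x ∈ pc κ (π j), ∃ y ∈ pc κ (π j), (κ (v' i) = some (π j) ∧ x = v' i) ∧
          (κ (v' i') = some (π j) ∧ y = v' i') ∧ r x y) ↔ r (v' i) (v' i') := by
        constructor
        · rintro ⟨x, -, y, -, ⟨-, rfl⟩, ⟨-, rfl⟩, h5⟩
          exact h5
        · exact fun h5 => ⟨_, h2, _, h4, ⟨h2, rfl⟩, ⟨h4, rfl⟩, h5⟩
      rw [← f1, ← f2, e']
    · have e := congrFun (congrFun e3 i) i'
      have e' : (∃ x ∈ pc κ j, rs κ j v i = some x ∧ rs κ j v i' = some x) =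
        (∃ x ∈ pc κ (π j), rs κ (π j) v' i = some x ∧ rs κ (π j) v' i' = some x) := e
      simp only [rs_val] at e'
      have f1 : (∃ x ∈ pc κ j, (κ (v i) = some j ∧ x = v i) ∧
          (κ (v i') = some j ∧ x = v i')) ↔ v i = v i' := by
        constructor
        · rintro ⟨x, -, ⟨-, rfl⟩, ⟨-, h5⟩⟩
          exact h5
        · exact fun h5 => ⟨_, h1, ⟨h1, rfl⟩, ⟨h3, h5⟩⟩
      have f2 : (∃ x ∈ pc κ (π j), (κ (v' i) = some (π j) ∧ x = v' i) ∧
          (κ (v' i') = some (π j) ∧ x = v' i')) ↔ v' i = v' i' := by
        constructor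
        · rintro ⟨x, -, ⟨-, rfl⟩, ⟨-, h5⟩⟩
          exact h5
        · exact fun h5 => ⟨_, h2, ⟨h2, rfl⟩, ⟨h4, h5⟩⟩
      rw [← f1, ← f2, e']
    · have e := congrFun (congrFun e4 i) i'
      have e' : (∃ x ∈ pc κ j, rs κ j v i = some x ∧ x ∈ P i') =
        (∃ x ∈ pc κ (π j), rs κ (π j) v' i = some x ∧ x ∈ P' i') := e
      simp only [rs_val] at e'
      have f1 : (∃ x ∈ pc κ j, (κ (v i) = some j ∧ x = v i) ∧ x ∈ P i') ↔ v i ∈ P i' := by
        constructor
        · rintro ⟨x, -, ⟨-, rfl⟩, h5⟩
          exact h5
        · exact fun h5 => ⟨_, h1, ⟨h1, rfl⟩, h5⟩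
      have f2 : (∃ x ∈ pc κ (π j), (κ (v' i) = some (π j) ∧ x = v' i) ∧ x ∈ P' i') ↔
          v' i ∈ P' i' := by
        constructor
        · rintro ⟨x, -, ⟨-, rfl⟩, h5⟩
          exact h5
        · exact fun h5 => ⟨_, h2, ⟨h2, rfl⟩, h5⟩
      rw [← f1, ← f2, e']
  rcases h.pos i with ⟨a1, a2, a3⟩ | ⟨j, a1, a2⟩
  · rcases h.pos i' with ⟨b1, b2, b3⟩ | ⟨j', b1, b2⟩
    · rw [a3, b3]
      exact ⟨Iff.rfl, Iff.rfl, h.so i' (v i) a1⟩
    · refine ⟨?_, ?_, ?_⟩
      · rw [hs.op _ _ _ a1 b1, hs.op _ _ _ a2 b2, a3]
      · refine iff_of_false (fun e => ?_) (fun e => ?_)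
        · rw [e, b1] at a1; exact absurd a1 (by simp)
        · rw [e, b2] at a2; exact absurd a2 (by simp)
      · rw [a3]; exact h.so i' (v i) a1
  · obtain ⟨k1, k2⟩ := key j a1 a2
    rcases h.pos i' with ⟨b1, b2, b3⟩ | ⟨j', b1, b2⟩
    · refine ⟨iff_of_false (hs.po _ _ _ a1 b1) (hs.po _ _ _ a2 b2),
        iff_of_false (fun e => ?_) (fun e => ?_), k2⟩
      · rw [e, b1] at a1; exact absurd a1 (by simp)
      · rw [e, b2] at a2; exact absurd a2 (by simp)
    · by_cases hj : j = j'
      · subst hj
        exact ⟨(k1 b1 b2).1, (k1 b1 b2).2, k2⟩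
      · have hj' : π j ≠ π j' := fun e => hj (π.injective e)
        refine ⟨iff_of_false (hs.pp _ _ _ _ a1 b1 hj) (hs.pp _ _ _ _ a2 b2 hj'),
          iff_of_false (fun e => ?_) (fun e => ?_), k2⟩
        · rw [e, b1] at a1; exact hj (Option.some.inj a1).symm
        · rw [e, b2] at a2; exact hj' (Option.some.inj a2).symm

/-- inverse -/
theorem Gm.symm (h : Gm r κ π n v v' P P') : Gm r κ π.symm n v' v P' P := by
  refine ⟨fun i hi => ?_, fun i j hi => ?_, fun k x hx => (h.so k x hx).symm, fun j => ?_⟩
  · rcases h.pos i with ⟨a1, a2, a3⟩ | ⟨j, a1, a2⟩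
    · exact a3.symm
    · rw [a2] at hi; exact absurd hi (by simp)
  · rcases h.pos i with ⟨a1, a2, a3⟩ | ⟨j', a1, a2⟩
    · rw [a2] at hi; exact absurd hi (by simp)
    · rw [a2] at hi
      rw [a1, ← Option.some.inj hi, Equiv.symm_apply_apply]
  · have := h.tp (π.symm j)
    rw [Equiv.apply_symm_apply] at this
    exact this.symm

theorem Gm.down (h : Gm r κ π (n + 1) v v' P P') : Gm r κ π n v v' P P' :=
  ⟨h.vo, h.vi, h.so, fun j => (ty_succ (h.tp j)).1⟩

theorem Gm.mono {m : ℕ} (hm : m ≤ n) (h : Gm r κ π n v v' P P') : Gm r κ π m v v' P P' := by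
  induction hm with
  | refl => exact h
  | step _ ih => exact ih h.down

/-- element moves -/
theorem Gm.elt (h : Gm r κ π (n + 1) v v' P P') (i : Fin N) (x : α) :
    ∃ x', Gm r κ π n (Function.update v i x) (Function.update v' i x') P P' := by
  rcases hx : κ x with _ | j
  · refine ⟨x, ?_, ?_, h.so, ?_⟩
    · intro i'
      by_cases hi : i' = i
      · subst hi
        rw [Function.update_self, Function.update_self]
        exact fun _ => rfl
      · rw [Function.update_of_ne hi, Function.update_of_ne hi]
        exact h.vo i'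
    · intro i' j
      by_cases hi : i' = i
      · subst hi
        rw [Function.update_self, hx]
        exact fun e => absurd e (by simp)
      · rw [Function.update_of_ne hi, Function.update_of_ne hi]
        exact h.vi i' j
    · intro j
      rw [rs_none (by rw [hx]; simp), rs_none (by rw [hx]; simp)]
      exact (ty_succ (h.tp j)).2.2.1 i
  · obtain ⟨x', hx', he⟩ := (ty_succ (h.tp j)).2.1 i x hx
    refine ⟨x', ?_, ?_, h.so, ?_⟩
    · intro i'
      by_cases hi : i' = i
      · subst hi
        rw [Function.update_self, hx]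
        exact fun e => absurd e (by simp)
      · rw [Function.update_of_ne hi, Function.update_of_ne hi]
        exact h.vo i'
    · intro i' j'
      by_cases hi : i' = i
      · subst hi
        rw [Function.update_self, Function.update_self, hx]
        intro e
        rw [← Option.some.inj e]
        exact hx'
      · rw [Function.update_of_ne hi, Function.update_of_ne hi]
        exact h.vi i' j'
    · intro j'
      by_cases hj : j' = j
      · subst hj
        rw [rs_some hx, rs_some hx']
        exact he
      · have hj1 : κ x ≠ some j' := by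
          rw [hx]
          exact fun e => hj (Option.some.inj e).symm
        have hj2 : κ x' ≠ some (π j') := by
          rw [show κ x' = some (π j) from hx']
          exact fun e => hj (π.injective (Option.some.inj e)).symm
        rw [rs_none hj1, rs_none hj2]
        exact (ty_succ (h.tp j')).2.2.1 i

/-- set moves -/
theorem Gm.set (h : Gm r κ π (n + 1) v v' P P') (k : Fin N) (X : Set α) :
    ∃ X', Gm r κ π n v v' (Function.update P k X) (Function.update P' k X') := by
  have hch : ∀ j, ∃ X' : Set α, ty r n (pc κ j) (rs κ j v) (Function.update P k X) =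
      ty r n (pc κ (π j)) (rs κ (π j) v') (Function.update P' k X') := fun j =>
    (ty_succ (h.tp j)).2.2.2 k X
  choose Y hY using hch
  refine ⟨{x | (κ x = none ∧ x ∈ X) ∨ ∃ j, κ x = some (π j) ∧ x ∈ Y j}, h.vo, h.vi, ?_, ?_⟩
  · intro k' x hx
    by_cases hk : k' = k
    · subst hk
      rw [Function.update_self, Function.update_self]
      constructor
      · exact fun h1 => Or.inl ⟨hx, h1⟩
      · rintro (⟨-, h1⟩ | ⟨j, h1, -⟩)
        · exact h1
        · rw [hx] at h1; exact absurd h1 (by simp)
    · rw [Function.update_of_ne hk, Function.update_of_ne hk]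
      exact h.so k' x hx
  · intro j
    rw [hY j]
    refine ty_loc fun k' x hx => ?_
    by_cases hk : k' = k
    · subst hk
      rw [Function.update_self, Function.update_self]
      have hx' : κ x = some (π j) := hx
      constructor
      · exact fun h1 => Or.inr ⟨j, hx', h1⟩
      · rintro (⟨h1, -⟩ | ⟨j', h1, h2⟩)
        · rw [hx'] at h1; exact absurd h1 (by simp)
        · rw [hx'] at h1
          rw [π.injective (Option.some.inj h1)]
          exact h2
    · rw [Function.update_of_ne hk, Function.update_of_ne hk]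

/-- Corresponding valuations satisfy the same formulas. -/
theorem Gm.sat (hs : Sm r κ A) (φ : Fo N) : ∀ {π : Equiv.Perm ι} {n : ℕ} {v v' : Fin N → α}
    {P P' : Fin N → Set α}, rk φ ≤ n → Gm r κ π n v v' P P' →
    (Sat r φ v P ↔ Sat r φ v' P') := by
  induction φ with
  | lt i j => exact fun _ h => (h.atom hs i j).1
  | eq i j => exact fun _ h => (h.atom hs i j).2.1
  | mem i k => exact fun _ h => (h.atom hs i k).2.2
  | not φ ih => exact fun hn h => not_congr (ih hn h)
  | and φ ψ ih1 ih2 =>
    exact fun hn h => and_congr (ih1 ((le_max_left _ _).trans hn) h)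
      (ih2 ((le_max_right _ _).trans hn) h)
  | exElt i φ ih =>
    intro π n v v' P P' hn h
    have h' := h.mono hn
    constructor
    · rintro ⟨x, hx⟩
      obtain ⟨x', hx'⟩ := h'.elt i x
      exact ⟨x', (ih le_rfl hx').1 hx⟩
    · rintro ⟨x, hx⟩
      obtain ⟨x', hx'⟩ := h'.symm.elt i x
      exact ⟨x', (ih le_rfl hx').1 hx⟩
  | exSet k φ ih =>
    intro π n v v' P P' hn h
    have h' := h.mono hn
    constructor
    · rintro ⟨x, hx⟩
      obtain ⟨x', hx'⟩ := h'.set k x
      exact ⟨x', (ih le_rfl hx').1 hx⟩
    · rintro ⟨x, hx⟩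
      obtain ⟨x', hx'⟩ := h'.symm.set k x
      exact ⟨x', (ih le_rfl hx').1 hx⟩

/-- a way to get corresponding valuations -/
theorem Gm.mk' (h1 : ∀ i, κ (v i) = none → v' i = v i)
    (h2 : ∀ i j, κ (v i) = some j → κ (v' i) = some (π j))
    (h3 : ∀ j, ty r n (pc κ j) (fun _ => none) P = ty r n (pc κ (π j)) (fun _ => none) P)
    (h4 : ∀ j, (∃ i, κ (v i) = some j) →
      ty r n (pc κ j) (rs κ j v) P = ty r n (pc κ (π j)) (rs κ (π j) v') P) :
    Gm r κ π n v v' P P := by
  refine ⟨h1, h2, fun _ _ _ => Iff.rfl, fun j => ?_⟩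
  by_cases hj : ∃ i, κ (v i) = some j
  · exact h4 j hj
  · have e1 : rs κ j v = fun _ => none := by
      funext i
      unfold rs
      rw [if_neg fun h => hj ⟨i, h⟩]
    have e2 : rs κ (π j) v' = fun _ => none := by
      funext i
      unfold rs
      rw [if_neg fun h => ?_]
      rcases hk : κ (v i) with _ | j'
      · rw [h1 i hk, hk] at h
        exact absurd h (by simp)
      · rw [h2 i j' hk] at h
        exact hj ⟨i, by rw [hk, π.injective (Option.some.inj h)]⟩
    rw [e1, e2]
    exact h3 j

end sum

/-! ### Trees -/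

section tree

variable {α : Type} (r : α → α → Prop)

/-- the elements above `A` -/
def Ab (A : Set α) : Set α := {b | ∀ a ∈ A, r a b}

/-- the same cone -/
def SC (A : Set α) (a b : α) : Prop := ∃ c ∈ Ab r A, (c = a ∨ r c a) ∧ (c = b ∨ r c b)

/-- the cone -/
def cn (A : Set α) (a : α) : Set α := {b | SC r A a b}

open Classical in
/-- the piece of an element -/
noncomputable def kp (A : Set α) (x : α) : Option (Set α) :=
  if x ∈ Ab r A then some (cn r A x) else none

/-- the valuation given by two elements -/
def vv {N : ℕ} (a b : α) : Fin N → α := fun i => if i.val = 0 then a else b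

variable {r}

theorem kp_in {A : Set α} {x : α} (h : x ∈ Ab r A) : kp r A x = some (cn r A x) := if_pos h
theorem kp_out {A : Set α} {x : α} (h : x ∉ Ab r A) : kp r A x = none := if_neg h

theorem sc_symm {A : Set α} {a b : α} (h : SC r A a b) : SC r A b a := by
  obtain ⟨c, h1, h2, h3⟩ := h
  exact ⟨c, h1, h3, h2⟩

theorem sc_self {A : Set α} {a : α} (h : a ∈ Ab r A) : SC r A a a :=
  ⟨a, h, Or.inl rfl, Or.inl rfl⟩

variable (htr : ∀ a b c, r a b → r b c → r a c)
  (hlin : ∀ a b c, r a c → r b c → r a b ∨ a = b ∨ r b a)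

include htr hlin

theorem sc_trans {A : Set α} {a b c : α} (h : SC r A a b) (h' : SC r A b c) : SC r A a c := by
  obtain ⟨w, h3, h4, h5⟩ := h
  obtain ⟨w', h7, h8, h9⟩ := h'
  have tr : ∀ {a b c}, (a = b ∨ r a b) → (b = c ∨ r b c) → (a = c ∨ r a c) := by
    intro a b c g1 g2
    rcases g1 with rfl | g1
    · exact g2
    · rcases g2 with rfl | g2
      · exact Or.inr g1
      · exact Or.inr (htr _ _ _ g1 g2)
  have hc : (w = w' ∨ r w w') ∨ r w' w := by
    rcases h5 with rfl | h5
    · rcases h8 with h8 | h8
      · exact Or.inl (Or.inl h8.symm)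
      · exact Or.inr h8
    · rcases h8 with rfl | h8
      · exact Or.inl (Or.inr h5)
      · rcases hlin _ _ _ h5 h8 with g | g | g
        · exact Or.inl (Or.inr g)
        · exact Or.inl (Or.inl g)
        · exact Or.inr g
  rcases hc with h10 | h10
  · exact ⟨w, h3, h4, tr h10 h9⟩
  · exact ⟨w', h7, tr (Or.inr h10) h4, h9⟩

theorem cn_eq {A : Set α} {a b : α} (h : SC r A a b) : cn r A a = cn r A b := by
  ext c
  exact ⟨fun h1 => sc_trans htr hlin (sc_symm h) h1, fun h1 => sc_trans htr hlin h h1⟩

theorem sm_tree {A : Set α} (hA : ∀ a ∈ A, ∀ b, r b a → b ∈ A) : Sm r (kp r A) A := by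
  constructor
  · intro x y i j h1 h2 h3 h4
    have hx : x ∈ Ab r A := by
      by_contra hcon
      rw [kp_out hcon] at h1
      exact absurd h1 (by simp)
    have hy : y ∈ Ab r A := by
      by_contra hcon
      rw [kp_out hcon] at h2
      exact absurd h2 (by simp)
    rw [kp_in hx] at h1
    rw [kp_in hy] at h2
    refine h3 (Option.some.inj (h1.symm.trans ?_))
    rw [← h2, cn_eq htr hlin (⟨x, hx, Or.inl rfl, Or.inr h4⟩ : SC r A x y)]
  · intro x y i h1 h2 h3
    have hx : x ∈ Ab r A := by
      by_contra hcon
      rw [kp_out hcon] at h1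
      exact absurd h1 (by simp)
    rw [kp_in (fun a ha => htr _ _ _ (hx a ha) h3)] at h2
    exact absurd h2 (by simp)
  · intro x y i h1 h2
    have hx : x ∉ Ab r A := by
      intro hx
      rw [kp_in hx] at h1
      exact absurd h1 (by simp)
    have hy : y ∈ Ab r A := by
      by_contra hcon
      rw [kp_out hcon] at h2
      exact absurd h2 (by simp)
    constructor
    · intro h3
      by_contra hcon
      refine hx fun a ha => ?_
      rcases hlin _ _ _ (hy a ha) h3 with h4 | h4 | h4
      · exact h4
      · rw [h4] at ha; exact absurd ha hcon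
      · exact absurd (hA a ha x h4) hcon
    · exact fun h3 => hy x h3

/-- **Finite width.** -/
theorem width {N : ℕ} (P : Fin N → Set α) (Φ : List (Fo N)) {A : Set α}
    (hA : ∀ a ∈ A, ∀ b, r b a → b ∈ A) : ∃ (m : ℕ) (l : α → Fin m),
    (∀ a ∈ Ab r A, ∀ b ∈ Ab r A, l a = l b → ∀ c, c ∉ Ab r A → ∀ φ ∈ Φ,
      (Sat r φ (vv a c) P ↔ Sat r φ (vv b c) P) ∧ (Sat r φ (vv c a) P ↔ Sat r φ (vv c b) P)) ∧
    (∀ a ∈ Ab r A, ∀ a' ∈ Ab r A, ∀ b ∈ Ab r A, ∀ b' ∈ Ab r A, ¬ SC r A a a' → ¬ SC r A b b' →
      l a = l b → l a' = l b' → ∀ φ ∈ Φ, (Sat r φ (vv a a') P ↔ Sat r φ (vv b b') P)) := by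
  classical
  obtain ⟨n, hn⟩ : ∃ n, ∀ φ ∈ Φ, rk φ ≤ n := by
    refine ⟨(Φ.map rk).sum, fun φ hφ => ?_⟩
    exact List.single_le_sum (fun _ _ => Nat.zero_le _) _ (List.mem_map.2 ⟨φ, hφ, rfl⟩)
  have hs := sm_tree htr hlin hA
  let κ := kp r A
  let s1 : α → Fin N → Option α := fun a i => if i.val = 0 then some a else none
  let s2 : α → Fin N → Option α := fun a i => if i.val = 0 then none else some a
  let L : α → T N n × T N n × T N n := fun a => (ty r n (pc κ (cn r A a)) (s1 a) P,
    ty r n (pc κ (cn r A a)) (s2 a) P, ty r n (pc κ (cn r A a)) (fun _ => none) P)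
  obtain ⟨m, ⟨e⟩⟩ := Finite.exists_equiv_fin (T N n × T N n × T N n)
  have L1 : ∀ {a b}, e (L a) = e (L b) → ty r n (pc κ (cn r A a)) (s1 a) P =
      ty r n (pc κ (cn r A b)) (s1 b) P := fun h => congrArg (fun t => t.1) (e.injective h)
  have L2 : ∀ {a b}, e (L a) = e (L b) → ty r n (pc κ (cn r A a)) (s2 a) P =
      ty r n (pc κ (cn r A b)) (s2 b) P := fun h => congrArg (fun t => t.2.1) (e.injective h)
  have L3 : ∀ {a b}, e (L a) = e (L b) → ty r n (pc κ (cn r A a)) (fun _ => none) P =
      ty r n (pc κ (cn r A b)) (fun _ => none) P := fun h =>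
    congrArg (fun t => t.2.2) (e.injective h)
  have kin : ∀ {a}, a ∈ Ab r A → κ a = some (cn r A a) := fun h => kp_in h
  have kout : ∀ {a}, a ∉ Ab r A → κ a = none := fun h => kp_out h
  have cne : ∀ {a b}, a ∈ Ab r A → ¬ SC r A b a → cn r A a ≠ cn r A b := by
    intro a b ha h1 h2
    have : a ∈ cn r A a := sc_self ha
    rw [h2] at this
    exact h1 this
  have r1 : ∀ {a c : α}, a ∈ Ab r A → κ c ≠ some (cn r A a) →
      rs κ (cn r A a) (vv (N := N) a c) = s1 a := by
    intro a c ha hc
    funext i
    show (if κ (vv a c i) = some (cn r A a) then some (vv a c i) else none) =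
      if i.val = 0 then some a else none
    unfold vv
    by_cases hi : i.val = 0
    · simp only [if_pos hi, if_pos (kin ha)]
    · simp only [if_neg hi, if_neg hc]
  have r2 : ∀ {a c : α}, a ∈ Ab r A → κ c ≠ some (cn r A a) →
      rs κ (cn r A a) (vv (N := N) c a) = s2 a := by
    intro a c ha hc
    funext i
    show (if κ (vv c a i) = some (cn r A a) then some (vv c a i) else none) =
      if i.val = 0 then none else some a
    unfold vv
    by_cases hi : i.val = 0
    · simp only [if_pos hi, if_neg hc]
    · simp only [if_neg hi, if_pos (kin ha)]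
  -- swaps preserve the plain types
  have hsw : ∀ {X Y : Set α}, ty r n (pc κ X) (fun _ => none) P = ty r n (pc κ Y) (fun _ => none) P →
      ∀ Z, ty r n (pc κ Z) (fun _ => none) P =
        ty r n (pc κ (Equiv.swap X Y Z)) (fun _ => none) P := by
    intro X Y h Z
    by_cases h1 : Z = X
    · rw [h1, Equiv.swap_apply_left, h]
    · by_cases h2 : Z = Y
      · rw [h2, Equiv.swap_apply_right, h]
      · rw [Equiv.swap_apply_of_ne_of_ne h1 h2]
  refine ⟨m, fun a => e (L a), ?_, ?_⟩
  · intro a ha b hb hl c hc φ hφ
    have hca : ∀ {a}, κ c ≠ some (cn r A a) := by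
      intro a
      rw [kout hc]
      exact fun h => absurd h (by simp)
    constructor
    · refine Gm.sat hs φ (π := Equiv.swap (cn r A a) (cn r A b)) (hn φ hφ) (Gm.mk' ?_ ?_
        (hsw (L3 hl)) ?_)
      · intro i
        unfold vv
        by_cases hi : i.val = 0
        · simp only [if_pos hi]
          intro h
          rw [show kp r A a = _ from kin ha] at h
          exact absurd h (by simp)
        · simp only [if_neg hi]
          exact fun _ => trivial
      · intro i j
        unfold vv
        by_cases hi : i.val = 0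
        · simp only [if_pos hi]
          intro h
          rw [show kp r A a = _ from kin ha] at h
          rw [show kp r A b = _ from kin hb, ← Option.some.inj h, Equiv.swap_apply_left]
        · simp only [if_neg hi]
          intro h
          rw [show kp r A c = _ from kout hc] at h
          exact absurd h (by simp)
      · rintro j ⟨i, hi⟩
        unfold vv at hi
        by_cases h0 : i.val = 0
        · simp only [if_pos h0] at hi
          rw [show kp r A a = _ from kin ha] at hi
          rw [← Option.some.inj hi, Equiv.swap_apply_left]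
          show ty r n (pc κ (cn r A a)) (rs κ (cn r A a) (vv a c)) P =
            ty r n (pc κ (cn r A b)) (rs κ (cn r A b) (vv b c)) P
          rw [r1 ha hca, r1 hb hca]
          exact L1 hl
        · simp only [if_neg h0] at hi
          rw [show kp r A c = _ from kout hc] at hi
          exact absurd hi (by simp)
    · refine Gm.sat hs φ (π := Equiv.swap (cn r A a) (cn r A b)) (hn φ hφ) (Gm.mk' ?_ ?_
        (hsw (L3 hl)) ?_)
      · intro i
        unfold vv
        by_cases hi : i.val = 0
        · simp only [if_pos hi]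
          exact fun _ => trivial
        · simp only [if_neg hi]
          intro h
          rw [show kp r A a = _ from kin ha] at h
          exact absurd h (by simp)
      · intro i j
        unfold vv
        by_cases hi : i.val = 0
        · simp only [if_pos hi]
          intro h
          rw [show kp r A c = _ from kout hc] at h
          exact absurd h (by simp)
        · simp only [if_neg hi]
          intro h
          rw [show kp r A a = _ from kin ha] at h
          rw [show kp r A b = _ from kin hb, ← Option.some.inj h, Equiv.swap_apply_left]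
      · rintro j ⟨i, hi⟩
        unfold vv at hi
        by_cases h0 : i.val = 0
        · simp only [if_pos h0] at hi
          rw [show kp r A c = _ from kout hc] at hi
          exact absurd hi (by simp)
        · simp only [if_neg h0] at hi
          rw [show kp r A a = _ from kin ha] at hi
          rw [← Option.some.inj hi, Equiv.swap_apply_left]
          show ty r n (pc κ (cn r A a)) (rs κ (cn r A a) (vv c a)) P =
            ty r n (pc κ (cn r A b)) (rs κ (cn r A b) (vv c b)) P
          rw [r2 ha hca, r2 hb hca]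
          exact L2 hl
  · intro a ha a' ha' b hb b' hb' h1 h2 hl hl' φ hφ
    have d1 : cn r A a' ≠ cn r A a := cne ha' h1
    have d2 : cn r A b' ≠ cn r A b := cne hb' h2
    set D := cn r A a with hD
    set D' := cn r A a' with hD'
    set F := cn r A b with hF
    set F' := cn r A b' with hF'
    set σ : Equiv.Perm (Set α) := Equiv.swap D F with hσ
    have s0 : σ D = F := Equiv.swap_apply_left _ _
    have s3 : σ D' ≠ F := fun h => d1 (σ.injective (h.trans s0.symm))
    set π : Equiv.Perm (Set α) := σ.trans (Equiv.swap (σ D') F') with hπ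
    have p1 : π D = F := by
      show Equiv.swap (σ D') F' (σ D) = F
      rw [s0, Equiv.swap_apply_of_ne_of_ne s3.symm d2.symm]
    have p2 : π D' = F' := by
      show Equiv.swap (σ D') F' (σ D') = F'
      rw [Equiv.swap_apply_left]
    have t1 : ty r n (pc κ D) (fun _ => none) P = ty r n (pc κ F) (fun _ => none) P := L3 hl
    have t2 : ty r n (pc κ D') (fun _ => none) P = ty r n (pc κ F') (fun _ => none) P := L3 hl'
    have t3 : ∀ j, ty r n (pc κ j) (fun _ => none) P = ty r n (pc κ (π j)) (fun _ => none) P := by
      intro j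
      refine (hsw t1 j).trans (hsw ?_ (σ j))
      rw [← t2]
      exact (hsw t1 D').symm
    refine Gm.sat hs φ (π := π) (hn φ hφ) (Gm.mk' ?_ ?_ t3 ?_)
    · intro i
      unfold vv
      by_cases hi : i.val = 0
      · simp only [if_pos hi]
        intro h
        rw [show kp r A a = _ from kin ha] at h
        exact absurd h (by simp)
      · simp only [if_neg hi]
        intro h
        rw [show kp r A a' = _ from kin ha'] at h
        exact absurd h (by simp)
    · intro i j
      unfold vv
      by_cases hi : i.val = 0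
      · simp only [if_pos hi]
        intro h
        rw [show kp r A a = _ from kin ha] at h
        rw [show kp r A b = _ from kin hb, ← Option.some.inj h]
        exact congrArg some p1.symm
      · simp only [if_neg hi]
        intro h
        rw [show kp r A a' = _ from kin ha'] at h
        rw [show kp r A b' = _ from kin hb', ← Option.some.inj h]
        exact congrArg some p2.symm
    · rintro j ⟨i, hi⟩
      have ka : κ a ≠ some D' := by
        rw [kin ha]
        exact fun h => d1 (Option.some.inj h).symm
      have ka' : κ a' ≠ some D := by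
        rw [kin ha']
        exact fun h => d1 (Option.some.inj h)
      have kb : κ b ≠ some F' := by
        rw [kin hb]
        exact fun h => d2 (Option.some.inj h).symm
      have kb' : κ b' ≠ some F := by
        rw [kin hb']
        exact fun h => d2 (Option.some.inj h)
      unfold vv at hi
      by_cases h0 : i.val = 0
      · simp only [if_pos h0] at hi
        rw [show kp r A a = _ from kin ha] at hi
        rw [← Option.some.inj hi]
        show ty r n (pc κ D) (rs κ D (vv a a')) P =
          ty r n (pc κ (π D)) (rs κ (π D) (vv b b')) P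
        rw [p1, r1 ha ka', r1 hb kb']
        exact L1 hl
      · simp only [if_neg h0] at hi
        rw [show kp r A a' = _ from kin ha'] at hi
        rw [← Option.some.inj hi]
        show ty r n (pc κ D') (rs κ D' (vv a a')) P =
          ty r n (pc κ (π D')) (rs κ (π D') (vv b b')) P
        rw [p2, r2 ha' ka, r2 hb' kb]
        exact L2 hl'

end tree

end Pool.Agent.Run7.h201.CTR.MSO
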