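import Pool.Agent.Run7.h201.CS.Tr
import Pool.Agent.Run7.h201.CTR.Ball2
import Pool.Agent.Run7.h201.CTR.Mso

set_option autoImplicit false

/-!
# Ball systems: first-order theories; trees; monadic second-order definable relations
-/

namespace Pool.Agent.Run7.h201.CTR.BALL

open Set MeasureTheory FirstOrder FirstOrder.Language
open Pool.Agent.Run7.h201.CS.TR (Ix XL cnt_ix toS cd toS_cd BT meas_BT IsI meas_realize meas_fun
  meas_rel real_equiv FDich)

section fo

variable {L : FirstOrder.Language.{0, 0}}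

open Classical in
/-- the reduct to the relations defined by the formulas -/
noncomputable def redQ (β : L.Formula (Fin 3)) (ψ : ℕ → L.Formula (Fin 2))
    (θ : ℕ → L.Formula (Fin 1)) (S : L.Structure ℕ) : Q3 :=
  (fun a b c => decide (@Formula.Realize L ℕ S _ β ![a, b, c]),
    fun k a b => decide (@Formula.Realize L ℕ S _ (ψ k) ![a, b]),
    fun k a => decide (@Formula.Realize L ℕ S _ (θ k) ![a]))

theorem redQ_iso (β : L.Formula (Fin 3)) (ψ : ℕ → L.Formula (Fin 2)) (θ : ℕ → L.Formula (Fin 1))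
    {S S' : L.Structure ℕ} (τ : @FirstOrder.Language.Equiv L ℕ ℕ S S') {σ : Equiv.Perm ℕ}
    (hτ : ∀ a, τ a = σ a) : IsoQ σ (redQ β ψ θ S) (redQ β ψ θ S') := by
  classical
  have e3 : ∀ x y z, (![σ x, σ y, σ z] : Fin 3 → ℕ) = fun i => τ (![x, y, z] i) := by
    intro x y z
    funext i
    fin_cases i <;> exact (hτ _).symm
  have e2 : ∀ x y, (![σ x, σ y] : Fin 2 → ℕ) = fun i => τ (![x, y] i) := by
    intro x y
    funext i
    fin_cases i <;> exact (hτ _).symm
  have e1 : ∀ x, (![σ x] : Fin 1 → ℕ) = fun i => τ (![x] i) := by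
    intro x
    funext i
    fin_cases i
    exact (hτ _).symm
  refine ⟨fun a b c => ?_, fun k a b => ?_, fun k a => ?_⟩
  · show decide (@Formula.Realize L ℕ S' _ β ![σ a, σ b, σ c]) = decide _
    rw [e3]
    exact decide_eq_decide.2 (real_equiv τ _ _)
  · show decide (@Formula.Realize L ℕ S' _ (ψ k) ![σ a, σ b]) = decide _
    rw [e2]
    exact decide_eq_decide.2 (real_equiv τ _ _)
  · show decide (@Formula.Realize L ℕ S' _ (θ k) ![σ a]) = decide _
    rw [e1]
    exact decide_eq_decide.2 (real_equiv τ _ _)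

theorem meas_redQ (β : L.Formula (Fin 3)) (ψ : ℕ → L.Formula (Fin 2))
    (θ : ℕ → L.Formula (Fin 1)) : Measurable fun x : XL L => redQ β ψ θ (toS x) := by
  classical
  refine Measurable.prodMk ?_ (Measurable.prodMk ?_ ?_)
  · refine measurable_pi_lambda _ fun a => measurable_pi_lambda _ fun b =>
      measurable_pi_lambda _ fun c => measurable_to_bool ?_
    have e : (fun x : XL L => decide (@Formula.Realize L ℕ (toS x) _ β ![a, b, c])) ⁻¹' {true} =
        {x | @Formula.Realize L ℕ (toS x) _ β ![a, b, c]} := by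
      ext x
      exact decide_eq_true_iff
    rw [e]
    exact meas_realize (f := toS) meas_fun meas_rel _ _ _
  · refine measurable_pi_lambda _ fun k => measurable_pi_lambda _ fun a =>
      measurable_pi_lambda _ fun b => measurable_to_bool ?_
    have e : (fun x : XL L => decide (@Formula.Realize L ℕ (toS x) _ (ψ k) ![a, b])) ⁻¹' {true} =
        {x | @Formula.Realize L ℕ (toS x) _ (ψ k) ![a, b]} := by
      ext x
      exact decide_eq_true_iff
    rw [e]
    exact meas_realize (f := toS) meas_fun meas_rel _ _ _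
  · refine measurable_pi_lambda _ fun k => measurable_pi_lambda _ fun a =>
      measurable_to_bool ?_
    have e : (fun x : XL L => decide (@Formula.Realize L ℕ (toS x) _ (θ k) ![a])) ⁻¹' {true} =
        {x | @Formula.Realize L ℕ (toS x) _ (θ k) ![a]} := by
      ext x
      exact decide_eq_true_iff
    rw [e]
    exact meas_realize (f := toS) meas_fun meas_rel _ _ _

theorem polQ : PolishSpace Q3 := by
  have a1 : SecondCountableTopology Q3 := inferInstance
  have c0 : TopologicalSpace.IsCompletelyMetrizableSpace (ℕ → Bool) := inferInstance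
  have c1 : TopologicalSpace.IsCompletelyMetrizableSpace (ℕ → ℕ → Bool) := inferInstance
  have c2 : TopologicalSpace.IsCompletelyMetrizableSpace (ℕ → ℕ → ℕ → Bool) := inferInstance
  have c3 : TopologicalSpace.IsCompletelyMetrizableSpace Q3 := inferInstance
  exact ⟨⟩

/-- Transfer from classes of ball structures to theories. -/
theorem transferQ (hL : Countable L.Symbols) (T : L.Theory) (β : L.Formula (Fin 3))
    (ψ : ℕ → L.Formula (Fin 2)) (θ : ℕ → L.Formula (Fin 1))
    (hdet : ∀ S S' : L.Structure ℕ, @Theory.Model L ℕ S T → @Theory.Model L ℕ S' T →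
      ∀ σ : Equiv.Perm ℕ, IsoQ σ (redQ β ψ θ S) (redQ β ψ θ S') → IsI S S' σ)
    (V : Q3 → Prop) (hV : ∀ B : Set Q3, MeasurableSet B →
      (∀ x ∈ B, ∀ y σ, IsoQ σ x y → y ∈ B) → (∀ z ∈ B, V z) →
      (∃ f : ℕ → Q3, ∀ x ∈ B, ∃ n σ, IsoQ σ (f n) x) ∨
      ∃ c : (ℕ → Bool) → Q3, Continuous c ∧ (∀ s, c s ∈ B) ∧
        ∀ s t, (∃ σ, IsoQ σ (c s) (c t)) → s = t)
    (hT : ∀ S : L.Structure ℕ, @Theory.Model L ℕ S T → V (redQ β ψ θ S)) : FDich T := by
  have hix := cnt_ix hL
  set c : XL L → Q3 := fun x => redQ β ψ θ (toS x) with hc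
  have hcm : Measurable c := meas_redQ β ψ θ
  have hBT := meas_BT hL T
  have hinj : InjOn c (BT T) := by
    intro x hx y hy hxy
    have h1 : IsI (toS x) (toS y) (Equiv.refl ℕ) := by
      refine hdet _ _ hx.2 hy.2 _ ?_
      have : redQ β ψ θ (toS y) = redQ β ψ θ (toS x) := hxy.symm
      rw [this]
      exact ⟨fun _ _ _ => rfl, fun _ _ _ => rfl, fun _ _ => rfl⟩
    rw [← hx.1, ← hy.1, h1.eq]
  have hsB : StandardBorelSpace (XL L) := inferInstance
  have p4 : PolishSpace Q3 := polQ
  have sR : SecondCountableTopology Q3 := inferInstance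
  have tR : T2Space Q3 := inferInstance
  have b0 : BorelSpace (ℕ → Bool) := Pi.borelSpace
  have b2 : BorelSpace (ℕ → ℕ → Bool) := Pi.borelSpace
  have b3 : BorelSpace (ℕ → ℕ → ℕ → Bool) := Pi.borelSpace
  have b4 : BorelSpace ((ℕ → ℕ → ℕ → Bool) × (ℕ → ℕ → Bool)) := Prod.borelSpace
  have bR : BorelSpace Q3 := Prod.borelSpace
  have sQ : StandardBorelSpace Q3 := standardBorel_of_polish
  have cQ : MeasurableSpace.CountablySeparated Q3 :=
    MeasurableSpace.countablySeparated_of_separatesPoints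
  have hB : MeasurableSet (c '' BT T) := hBT.image_of_measurable_injOn hcm hinj
  have hinv : ∀ z ∈ c '' BT T, ∀ z' σ, IsoQ σ z z' → z' ∈ c '' BT T := by
    rintro _ ⟨x, hx, rfl⟩ z' σ hz
    let S' : L.Structure ℕ := @Equiv.inducedStructure L ℕ ℕ (toS x) σ
    let τ : @FirstOrder.Language.Equiv L ℕ ℕ (toS x) S' :=
      @Equiv.inducedStructureEquiv L ℕ ℕ (toS x) σ
    have hτ : ∀ a, τ a = σ a := fun a => rfl
    have k1 := redQ_iso β ψ θ τ hτ
    refine ⟨cd S', ⟨by rw [toS_cd], ?_⟩, ?_⟩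
    · rw [toS_cd]
      exact @StrongHomClass.theory_model L ℕ ℕ (toS x) S' T _ _ _ τ hx.2
    · show redQ β ψ θ (toS (cd S')) = z'
      rw [toS_cd]
      refine Prod.ext ?_ (Prod.ext ?_ ?_)
      · funext a b c
        obtain ⟨a, rfl⟩ := σ.surjective a
        obtain ⟨b, rfl⟩ := σ.surjective b
        obtain ⟨c, rfl⟩ := σ.surjective c
        rw [k1.1, hz.1]
      · funext n a b
        obtain ⟨a, rfl⟩ := σ.surjective a
        obtain ⟨b, rfl⟩ := σ.surjective b
        rw [k1.2.1, hz.2.1]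
      · funext n a
        obtain ⟨a, rfl⟩ := σ.surjective a
        rw [k1.2.2, hz.2.2]
  rcases hV _ hB hinv (by
    rintro _ ⟨x, hx, rfl⟩
    exact hT _ hx.2) with ⟨f, hf⟩ | ⟨g, hg1, hg2, hg3⟩
  · left
    have hch : ∀ n, ∃ x : XL L, f n ∈ c '' BT T → x ∈ BT T ∧ c x = f n := by
      intro n
      by_cases h : f n ∈ c '' BT T
      · obtain ⟨x, hx⟩ := h
        exact ⟨x, fun _ => hx⟩
      · exact ⟨fun _ => 0, fun h1 => absurd h1 h⟩
    choose x hx using hch
    refine ⟨fun n => toS (x n), fun S hS => ?_⟩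
    have hmem : c (cd S) ∈ c '' BT T := ⟨cd S, ⟨by rw [toS_cd], by rw [toS_cd]; exact hS⟩, rfl⟩
    obtain ⟨n, σ, hn⟩ := hf _ hmem
    have hfn : f n ∈ c '' BT T := hinv _ hmem _ _ (isoQ_symm hn)
    obtain ⟨h1, h2⟩ := hx n hfn
    refine ⟨n, ?_⟩
    have h3 : IsoQ σ.symm (c (cd S)) (c (x n)) := by rw [h2]; exact isoQ_symm hn
    have h4 := hdet (toS (cd S)) (toS (x n)) (by rw [toS_cd]; exact hS) h1.2 _ h3
    rw [toS_cd] at h4
    exact h4.equiv
  · right
    -- the Borel inverse
    have hs : StandardBorelSpace (BT T) := hBT.standardBorel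
    have hce : MeasurableEmbedding fun x : BT T => c x.1 := by
      refine Measurable.measurableEmbedding (hcm.comp measurable_subtype_coe) ?_
      intro x y hxy
      exact Subtype.ext (hinj x.2 y.2 hxy)
    have hr : ∀ A, g A ∈ range fun x : BT T => c x.1 := by
      intro A
      obtain ⟨x, hx, hxg⟩ := hg2 A
      exact ⟨⟨x, hx⟩, hxg⟩
    let G : (ℕ → Bool) → BT T := fun A => hce.equivRange.symm ⟨g A, hr A⟩
    have hG : Measurable G :=
      hce.equivRange.symm.measurable.comp (hg1.measurable.subtype_mk)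
    have hcG : ∀ A, c (G A).1 = g A := by
      intro A
      have h1 := congrArg Subtype.val (hce.equivRange.apply_symm_apply ⟨g A, hr A⟩)
      have h2 : ∀ x : BT T, (hce.equivRange x).1 = c x.1 := fun x => by
        rw [MeasurableEmbedding.equivRange_apply]
      rw [h2] at h1
      exact h1
    obtain ⟨f, hf1, hf2⟩ := Pool.Agent.Y117.TG.cantor_of_unc (Ω := ℕ → Bool) (X := XL L)
      Pool.Agent.H899R2.VP.not_countable_cantor (fun A => (G A).1)
      (measurable_subtype_coe.comp hG)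
    refine ⟨fun A => toS (G (f A)).1, fun A => (G (f A)).2.2, ?_, ?_, ?_⟩
    · rintro A A' ⟨τ⟩
      apply hf1
      apply hg3
      rw [← hcG, ← hcG]
      exact ⟨@FirstOrder.Language.Equiv.toEquiv L ℕ ℕ (toS (G (f A)).1)
        (toS (G (f A')).1) τ, redQ_iso β ψ θ τ fun a => rfl⟩
    · intro n R a
      have h1 : Continuous fun A => (G (f A)).1 (Sum.inr ⟨n, R, a⟩) :=
        (continuous_apply _).comp hf2
      exact (isClopen_discrete {1}).preimage h1
    · intro n F a b
      have h1 : Continuous fun A => (G (f A)).1 (Sum.inl ⟨n, F, a⟩) :=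
        (continuous_apply _).comp hf2
      exact ((isClopen_discrete {b}).preimage h1).isOpen

end fo

/-! ### Trees -/

section tree

variable {r : ℕ → ℕ → Prop} (hirr : ∀ a, ¬ r a a) (htr : ∀ a b c, r a b → r b c → r a c)
  (hlin : ∀ a b c, r a c → r b c → r a b ∨ a = b ∨ r b a)

/-- the balls of a tree order: the elements above all common lower bounds -/
def DT (r : ℕ → ℕ → Prop) (a b c : ℕ) : Prop :=
  ∀ d, (d = b ∨ r d b) → (d = c ∨ r d c) → (d = a ∨ r d a)

include hirr htr hlin

omit hirr in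
theorem bs_tree : BS (DT r) := by
  have tr' : ∀ {a b c}, (a = b ∨ r a b) → (b = c ∨ r b c) → (a = c ∨ r a c) := by
    intro a b c g1 g2
    rcases g1 with rfl | g1
    · exact g2
    · rcases g2 with rfl | g2
      · exact Or.inr g1
      · exact Or.inr (htr _ _ _ g1 g2)
  have lin' : ∀ {a b c}, (a = c ∨ r a c) → (b = c ∨ r b c) → (a = b ∨ r a b) ∨ (b = a ∨ r b a) := by
    intro a b c g1 g2
    rcases g1 with rfl | g1
    · exact Or.inr g2
    · rcases g2 with rfl | g2
      · exact Or.inl (Or.inr g1)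
      · rcases hlin _ _ _ g1 g2 with g | g | g
        · exact Or.inl (Or.inr g)
        · exact Or.inl (Or.inl g)
        · exact Or.inr (Or.inr g)
  refine ⟨fun b c d h1 _ => h1, fun a b c h d h1 h2 => h d h2 h1,
    fun b c d e h1 h2 a h3 f h4 h5 => h3 f (h1 f h4 h5) (h2 f h4 h5), ?_⟩
  rintro b c d e ⟨a, h1, h2⟩
  by_cases hc : ∀ f, (f = b ∨ r f b) → (f = c ∨ r f c) → (f = d ∨ r f d) ∧ (f = e ∨ r f e)
  · right
    intro x hx f h3 h4
    exact hx f (hc f h3 h4).1 (hc f h3 h4).2
  · left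
    push Not at hc
    obtain ⟨f, hf1, hf2, hf3⟩ := hc
    intro x hx g g1 g2
    -- `g` and `f` are below `a`
    have e1 := h1 f hf1 hf2
    have e2 := h2 g g1 g2
    have e3 : g = f ∨ r g f := by
      rcases lin' e2 e1 with h | h
      · exact h
      · exact absurd (tr' h g2) (not_or.2 (hf3 (tr' h g1)))
    exact tr' e3 (hx f hf1 hf2)

/-- finite width for a tree order gives finite width for its balls -/
theorem bw_tree {E : ℕ → ℕ → ℕ → Prop}
    (hE : ∀ A : Set ℕ, (∀ a ∈ A, ∀ b, r b a → b ∈ A) → (∀ a ∈ A, ∀ b ∈ A, a = b ∨ r a b ∨ r b a) →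
      ∃ (n : ℕ) (l : ℕ → Fin n),
        (∀ a ∈ MSO.Ab r A, ∀ b ∈ MSO.Ab r A, l a = l b → ∀ c, c ∉ MSO.Ab r A →
          ∀ k, (E k a c ↔ E k b c) ∧ (E k c a ↔ E k c b)) ∧
        ∀ a ∈ MSO.Ab r A, ∀ a' ∈ MSO.Ab r A, ∀ b ∈ MSO.Ab r A, ∀ b' ∈ MSO.Ab r A,
          ¬ MSO.SC r A a a' → ¬ MSO.SC r A b b' → l a = l b → l a' = l b' →
            ∀ k, (E k a a' ↔ E k b b')) : BW (DT r) E := by
  classical
  have tr' : ∀ {a b c}, (a = b ∨ r a b) → (b = c ∨ r b c) → (a = c ∨ r a c) := by
    intro a b c g1 g2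
    rcases g1 with rfl | g1
    · exact g2
    · rcases g2 with rfl | g2
      · exact Or.inr g1
      · exact Or.inr (htr _ _ _ g1 g2)
  have lin' : ∀ {a b c}, (a = c ∨ r a c) → (b = c ∨ r b c) → (a = b ∨ r a b) ∨ (b = a ∨ r b a) := by
    intro a b c g1 g2
    rcases g1 with rfl | g1
    · exact Or.inr g2
    · rcases g2 with rfl | g2
      · exact Or.inl (Or.inr g1)
      · rcases hlin _ _ _ g1 g2 with g | g | g
        · exact Or.inl (Or.inr g)
        · exact Or.inl (Or.inl g)
        · exact Or.inr (Or.inr g)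
  have asy : ∀ {a b}, (a = b ∨ r a b) → (b = a ∨ r b a) → a = b := by
    intro a b g1 g2
    rcases g1 with g1 | g1
    · exact g1
    · rcases g2 with g2 | g2
      · exact g2.symm
      · exact absurd (htr _ _ _ g1 g2) (hirr a)
  rintro S ⟨F, hF⟩
  by_cases hne : S.Nonempty
  swap
  · have hno : ∀ a, a ∉ S := fun a ha => hne ⟨a, ha⟩
    refine ⟨1, fun _ => 0, fun a ha => absurd ha (hno a), fun a a' b b' _ _ h1 => ?_⟩
    have : a ∈ S := by
      rw [h1]
      exact (bs_tree htr hlin).left a a'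
    exact absurd this (hno a)
  obtain ⟨x0, hx0⟩ := hne
  -- the lower bounds of `S`
  set A : Set ℕ := {c | ∀ x ∈ S, c = x ∨ r c x} with hAd
  have hA1 : ∀ a ∈ A, ∀ b, r b a → b ∈ A := fun a ha b hb x hx => tr' (Or.inr hb) (ha x hx)
  have hA2 : ∀ a ∈ A, ∀ b ∈ A, a = b ∨ r a b ∨ r b a := by
    intro a ha b hb
    rcases lin' (ha x0 hx0) (hb x0 hx0) with (h | h) | (h | h)
    · exact Or.inl h
    · exact Or.inr (Or.inl h)
    · exact Or.inl h.symm
    · exact Or.inr (Or.inr h)
  obtain ⟨n, l, hl1, hl2⟩ := hE A hA1 hA2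
  -- common lower bounds of two points of a ball are lower bounds
  have hcom : ∀ a a', S = {x | DT r x a a'} → ∀ d, (d = a ∨ r d a) → (d = a' ∨ r d a') →
      d ∈ A := by
    intro a a' hS d h1 h2 x hx
    rw [hS] at hx
    exact hx d h1 h2
  have hSA : ∀ x, (∀ c ∈ A, c = x ∨ r c x) → x ∈ S := by
    intro x hx
    rw [hF]
    intro p hp d h1 h2
    refine hx d fun y hy => ?_
    rw [hF] at hy
    exact hy p hp d h1 h2
  by_cases hm : ∃ m ∈ S, m ∈ A
  · -- the ball has a least point
    obtain ⟨m, hmS, hmA⟩ := hm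
    have hAb : ∀ x, x ∈ S → x ≠ m → x ∈ MSO.Ab r A := by
      intro x hx hxm c hc
      rcases hmA x hx with h1 | h1
      · exact absurd h1.symm hxm
      · rcases hc m hmS with h2 | h2
        · rw [h2]; exact h1
        · exact htr _ _ _ h2 h1
    have hAb' : ∀ x, x ∈ MSO.Ab r A → x ∈ S ∧ x ≠ m := by
      intro x hx
      refine ⟨hSA x fun c hc => Or.inr (hx c hc), fun h => ?_⟩
      have := hx m hmA
      rw [h] at this
      exact hirr _ this
    have hmn : m ∉ MSO.Ab r A := fun h => (hAb' m h).2 rfl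
    have hdif : ∀ a a', a ≠ a' → S = {x | DT r x a a'} → a ∈ S → a' ∈ S → a ≠ m → a' ≠ m →
        ¬ MSO.SC r A a a' := by
      rintro a a' h0 hS h1 h2 h3 h4 ⟨c, hc, hca, hca'⟩
      exact (hAb' c hc).2 (asy (hcom a a' hS c hca hca' m hmS) (hmA c (hAb' c hc).1))
    let l' : ℕ → Fin (n + 1) := fun x => if x = m then Fin.last n else (l x).castSucc
    have e1 : ∀ x, x = m → l' x = Fin.last n := fun x hx => if_pos hx
    have e2 : ∀ x, x ≠ m → l' x = (l x).castSucc := fun x hx => if_neg hx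
    have hsm : ∀ a b, l' a = l' b → (a = m ↔ b = m) := by
      intro a b hab
      by_cases ha : a = m
      · by_cases hb : b = m
        · exact iff_of_true ha hb
        · rw [e1 a ha, e2 b hb] at hab
          exact absurd hab (Fin.castSucc_lt_last _).ne'
      · by_cases hb : b = m
        · rw [e2 a ha, e1 b hb] at hab
          exact absurd hab (Fin.castSucc_lt_last _).ne
        · exact iff_of_false ha hb
    have hla : ∀ a b, a ≠ m → b ≠ m → l' a = l' b → l a = l b := by
      intro a b ha hb hab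
      rw [e2 a ha, e2 b hb] at hab
      exact Fin.castSucc_injective _ hab
    refine ⟨n + 1, l', ?_, ?_⟩
    · intro a ha b hb hab c hc k
      have hcA : c ∉ MSO.Ab r A := fun h => hc (hAb' c h).1
      by_cases ham : a = m
      · have hbm := (hsm _ _ hab).1 ham
        rw [ham, hbm]
        exact ⟨Iff.rfl, Iff.rfl⟩
      · have hbm : b ≠ m := fun h => ham ((hsm _ _ hab).2 h)
        exact hl1 a (hAb a ha ham) b (hAb b hb hbm) (hla a b ham hbm hab) c hcA k
    · intro a a' b b' h1 h2 hS hS' e3 e4 k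
      have ha : a ∈ S := by rw [hS]; exact (bs_tree htr hlin).left a a'
      have ha' : a' ∈ S := by
        rw [hS]; exact (bs_tree htr hlin).symm _ _ _ ((bs_tree htr hlin).left a' a)
      have hb : b ∈ S := by rw [hS']; exact (bs_tree htr hlin).left b b'
      have hb' : b' ∈ S := by
        rw [hS']; exact (bs_tree htr hlin).symm _ _ _ ((bs_tree htr hlin).left b' b)
      by_cases ham : a = m
      · have hbm := (hsm _ _ e3).1 ham
        have ham' : a' ≠ m := fun h => h1 (ham.trans h.symm)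
        have hbm' : b' ≠ m := fun h => h2 (hbm.trans h.symm)
        rw [ham, hbm]
        exact (hl1 a' (hAb a' ha' ham') b' (hAb b' hb' hbm') (hla _ _ ham' hbm' e4) m hmn k).2
      · have hbm : b ≠ m := fun h => ham ((hsm _ _ e3).2 h)
        by_cases ham' : a' = m
        · have hbm' := (hsm _ _ e4).1 ham'
          rw [ham', hbm']
          exact (hl1 a (hAb a ha ham) b (hAb b hb hbm) (hla _ _ ham hbm e3) m hmn k).1
        · have hbm' : b' ≠ m := fun h => ham' ((hsm _ _ e4).2 h)
          exact hl2 a (hAb a ha ham) a' (hAb a' ha' ham') b (hAb b hb hbm) b' (hAb b' hb' hbm')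
            (hdif a a' h1 hS ha ha' ham ham') (hdif b b' h2 hS' hb hb' hbm hbm')
            (hla _ _ ham hbm e3) (hla _ _ ham' hbm' e4) k
  · push Not at hm
    have hAb : ∀ x, x ∈ S ↔ x ∈ MSO.Ab r A := by
      intro x
      constructor
      · intro hx c hc
        rcases hc x hx with h1 | h1
        · rw [h1] at hc; exact absurd hc (hm x hx)
        · exact h1
      · exact fun hx => hSA x fun c hc => Or.inr (hx c hc)
    have hdif : ∀ a a', S = {x | DT r x a a'} → ¬ MSO.SC r A a a' := by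
      rintro a a' hS ⟨c, hc, hca, hca'⟩
      exact hm c ((hAb c).2 hc) (hcom a a' hS c hca hca')
    refine ⟨n, l, ?_, ?_⟩
    · intro a ha b hb hab c hc k
      exact hl1 a ((hAb a).1 ha) b ((hAb b).1 hb) hab c (fun h => hc ((hAb c).2 h)) k
    · intro a a' b b' h1 h2 hS hS' e3 e4 k
      have ha : a ∈ S := by rw [hS]; exact (bs_tree htr hlin).left a a'
      have ha' : a' ∈ S := by
        rw [hS]; exact (bs_tree htr hlin).symm _ _ _ ((bs_tree htr hlin).left a' a)
      have hb : b ∈ S := by rw [hS']; exact (bs_tree htr hlin).left b b'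
      have hb' : b' ∈ S := by
        rw [hS']; exact (bs_tree htr hlin).symm _ _ _ ((bs_tree htr hlin).left b' b)
      exact hl2 a ((hAb a).1 ha) a' ((hAb a').1 ha') b ((hAb b).1 hb) b' ((hAb b').1 hb')
        (hdif a a' hS) (hdif b b' hS') e3 e4 k

end tree

/-! ### Monadic second-order definable relations -/

/-- Relations which are definable in the tree of points and balls have finite width. -/
theorem bw_mso {D : ℕ → ℕ → ℕ → Prop} (hD : BS D) {N : ℕ} (P : Fin N → Set (Nd D))
    (Φ : List (MSO.Fo N)) {E : ℕ → ℕ → ℕ → Prop}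
    (hE : ∀ k, ∃ φ ∈ Φ, ∀ a b, E k a b ↔
      MSO.Sat (nlt D) φ (MSO.vv (Sum.inl a) (Sum.inl b)) P) : BW D E := by
  rintro S ⟨F, hF⟩
  -- the balls which contain `S`
  let A : Set (Nd D) := {x | ∃ T : {S : Set ℕ // ∃ b c, S = {a | D a b c}}, x = Sum.inr T ∧
    S ⊆ T.1}
  by_cases hne : S.Nonempty
  swap
  · have hno : ∀ a, a ∉ S := fun a ha => hne ⟨a, ha⟩
    refine ⟨1, fun _ => 0, fun a ha => absurd ha (hno a), fun a a' b b' _ _ h1 => ?_⟩
    have : a ∈ S := by
      rw [h1]
      exact hD.left a a'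
    exact absurd this (hno a)
  have hA : ∀ a ∈ A, ∀ b, nlt D b a → b ∈ A := by
    rintro _ ⟨T, rfl, hT⟩ b hb
    rcases b with b | T'
    · exact absurd hb (fun h => h)
    · exact ⟨T', rfl, hT.trans (show T.1 ⊂ T'.1 from hb).1⟩
  obtain ⟨n, l, hl1, hl2⟩ := MSO.width (r := nlt D) (nlt_tr (D := D)) (nlt_lin hD) P Φ hA
  have hAb : ∀ a : ℕ, (Sum.inl a : Nd D) ∈ MSO.Ab (nlt D) A ↔ a ∈ S := by
    intro a
    constructor
    · intro h
      rw [hF]
      intro p hp
      have h1 := h (Sum.inr ⟨{x | D x p.1 p.2}, p.1, p.2, rfl⟩) ⟨_, rfl, fun x hx => by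
        rw [hF] at hx
        exact hx p hp⟩
      exact h1
    · rintro ha _ ⟨T, rfl, hT⟩
      exact hT ha
  have hdif : ∀ a a', a ≠ a' → S = {x | D x a a'} →
      ¬ MSO.SC (nlt D) A (Sum.inl a) (Sum.inl a') := by
    rintro a a' h0 hS ⟨c, hc, hca, hca'⟩
    rcases c with c | T
    · rcases hca with h1 | h1
      · rcases hca' with h2 | h2
        · exact h0 ((Sum.inl_injective h1).symm.trans (Sum.inl_injective h2))
        · exact h2
      · exact h1
    · have h1 : a ∈ T.1 := by
        rcases hca with h | h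
        · exact absurd h (by simp)
        · exact h
      have h2 : a' ∈ T.1 := by
        rcases hca' with h | h
        · exact absurd h (by simp)
        · exact h
      have h3 := ball_max hD a a' T h1 h2
      rw [← hS] at h3
      exact nlt_irr _ (hc (Sum.inr T) ⟨T, rfl, h3⟩)
  refine ⟨n, fun a => l (Sum.inl a), ?_, ?_⟩
  · intro a ha b hb hab c hc k
    obtain ⟨φ, hφ, he⟩ := hE k
    rw [he, he, he, he]
    exact hl1 _ ((hAb a).2 ha) _ ((hAb b).2 hb) hab _ (fun h => hc ((hAb c).1 h)) φ hφ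
  · intro a a' b b' h1 h2 hS hS' e3 e4 k
    obtain ⟨φ, hφ, he⟩ := hE k
    rw [he, he]
    have ha : a ∈ S := by rw [hS]; exact hD.left a a'
    have ha' : a' ∈ S := by rw [hS]; exact hD.symm _ _ _ (hD.left a' a)
    have hb : b ∈ S := by rw [hS']; exact hD.left b b'
    have hb' : b' ∈ S := by rw [hS']; exact hD.symm _ _ _ (hD.left b' b)
    exact hl2 _ ((hAb a).2 ha) _ ((hAb a').2 ha') _ ((hAb b).2 hb) _ ((hAb b').2 hb')
      (hdif a a' h1 hS) (hdif b b' h2 hS') e3 e4 φ hφ

end Pool.Agent.Run7.h201.CTR.BALL
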