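import Pool.Agent.Run7.h201.CTR.Ball3
import Pool.Agent.H533R2.VS.Spec4

set_option autoImplicit false

/-!
# Ball systems as relational structures: the class is coanalytic and invariant
-/

namespace Pool.Agent.Run7.h201.CTR.BALL

open Set MeasureTheory
open Pool.Agent.H533R2.VO (RS RIso)
open Pool.Agent.H533R2.VS (US UIso UDich VCu Coan Inv)

/-- arities: one ternary relation, the others binary -/
def b3 : ℕ → ℕ := fun i => if i = 0 then 3 else 2

/-- The tuple `(a, b, c)`. -/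
def tr3 {n : ℕ} (a b c : ℕ) : Fin n → ℕ :=
  fun j => if j.val = 0 then a else if j.val = 1 then b else c

/-- The tuple `(a, b)`. -/
def tr2 {n : ℕ} (a b : ℕ) : Fin n → ℕ := fun j => if j.val = 0 then a else b

/-- an entry of a tuple -/
def gt {n : ℕ} (v : Fin n → ℕ) (j : ℕ) : ℕ := if h : j < n then v ⟨j, h⟩ else 0

theorem b3_zero : b3 0 = 3 := rfl
theorem b3_succ (k : ℕ) : b3 (k + 1) = 2 := rfl

theorem gt_of {n : ℕ} (v : Fin n → ℕ) {j : ℕ} (h : j < n) : gt v j = v ⟨j, h⟩ := dif_pos h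

theorem gt_comp {n : ℕ} (σ : ℕ → ℕ) (v : Fin n → ℕ) {j : ℕ} (h : j < n) :
    gt (σ ∘ v) j = σ (gt v j) := by
  rw [gt_of _ h, gt_of _ h]
  rfl

theorem tr3_comp {n : ℕ} (σ : ℕ → ℕ) (a b c : ℕ) :
    σ ∘ (tr3 a b c : Fin n → ℕ) = tr3 (σ a) (σ b) (σ c) := by
  funext j
  unfold tr3
  simp only [Function.comp]
  split_ifs <;> rfl

theorem tr2_comp {n : ℕ} (σ : ℕ → ℕ) (a b : ℕ) :
    σ ∘ (tr2 a b : Fin n → ℕ) = tr2 (σ a) (σ b) := by
  funext j
  unfold tr2
  simp only [Function.comp]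
  split_ifs <;> rfl

theorem tr3_gt {n : ℕ} (hn : n = 3) (v : Fin n → ℕ) : tr3 (gt v 0) (gt v 1) (gt v 2) = v := by
  subst hn
  funext j
  rw [gt_of _ (by omega), gt_of _ (by omega), gt_of _ (by omega)]
  fin_cases j <;> rfl

theorem tr2_gt {n : ℕ} (hn : n = 2) (v : Fin n → ℕ) : tr2 (gt v 0) (gt v 1) = v := by
  subst hn
  funext j
  rw [gt_of _ (by omega), gt_of _ (by omega)]
  fin_cases j <;> rfl

theorem gt_tr3 {n : ℕ} (hn : n = 3) (a b c : ℕ) :
    gt (tr3 a b c : Fin n → ℕ) 0 = a ∧ gt (tr3 a b c : Fin n → ℕ) 1 = b ∧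
      gt (tr3 a b c : Fin n → ℕ) 2 = c := by
  subst hn
  exact ⟨rfl, rfl, rfl⟩

theorem gt_tr2 {n : ℕ} (hn : n = 2) (a b : ℕ) :
    gt (tr2 a b : Fin n → ℕ) 0 = a ∧ gt (tr2 a b : Fin n → ℕ) 1 = b := by
  subst hn
  exact ⟨rfl, rfl⟩

/-- the ternary relation -/
def Dx (x : RS b3) (a b c : ℕ) : Prop := x 0 (tr3 a b c) = true

/-- the binary relations -/
def Ex (x : RS b3) (k a b : ℕ) : Prop := x (k + 1) (tr2 a b) = true

/-- the class -/
def VB (x : RS b3) : Prop := BS (Dx x) ∧ BW (Dx x) (Ex x)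

/-- from `US b3` to `Q3` -/
def toQ (w : US b3) : Q3 :=
  (fun a b c => w.1 0 (tr3 a b c), fun k a b => w.1 (k + 1) (tr2 a b), w.2)

/-- from `Q3` to `US b3` -/
def ofQ (z : Q3) : US b3 :=
  (fun i v => if i = 0 then z.1 (gt v 0) (gt v 1) (gt v 2) else z.2.1 (i - 1) (gt v 0) (gt v 1),
    z.2.2)

theorem toQ_ofQ (z : Q3) : toQ (ofQ z) = z := by
  refine Prod.ext ?_ (Prod.ext ?_ rfl)
  · funext a b c
    show z.1 (gt (tr3 a b c : Fin (b3 0) → ℕ) 0) (gt (tr3 a b c : Fin (b3 0) → ℕ) 1)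
      (gt (tr3 a b c : Fin (b3 0) → ℕ) 2) = _
    obtain ⟨h1, h2, h3⟩ := gt_tr3 (n := b3 0) rfl a b c
    rw [h1, h2, h3]
  · funext k a b
    show z.2.1 (k + 1 - 1) (gt (tr2 a b : Fin (b3 (k + 1)) → ℕ) 0)
      (gt (tr2 a b : Fin (b3 (k + 1)) → ℕ) 1) = _
    obtain ⟨h1, h2⟩ := gt_tr2 (n := b3 (k + 1)) rfl a b
    rw [h1, h2]
    rfl

theorem ofQ_toQ (w : US b3) : ofQ (toQ w) = w := by
  refine Prod.ext ?_ rfl
  funext i v
  rcases i with _ | k
  · show w.1 0 (tr3 (gt v 0) (gt v 1) (gt v 2)) = _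
    rw [tr3_gt (n := b3 0) rfl v]
  · show w.1 (k + 1) (tr2 (gt v 0) (gt v 1)) = _
    rw [tr2_gt (n := b3 (k + 1)) rfl v]

theorem ofQ_cont : Continuous ofQ := by
  refine Continuous.prodMk (continuous_pi fun i => continuous_pi fun v => ?_)
    (continuous_snd.comp continuous_snd)
  rcases i with _ | k
  · show Continuous fun z : Q3 => z.1 (gt v 0) (gt v 1) (gt v 2)
    exact (continuous_apply _).comp ((continuous_apply _).comp ((continuous_apply _).comp
      continuous_fst))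
  · show Continuous fun z : Q3 => z.2.1 (k + 1 - 1) (gt v 0) (gt v 1)
    exact (continuous_apply _).comp ((continuous_apply _).comp ((continuous_apply _).comp
      (continuous_fst.comp continuous_snd)))

/-- isomorphisms -/
theorem iso_toQ {σ : Equiv.Perm ℕ} {w w' : US b3} (h : IsoQ σ (toQ w) (toQ w')) : UIso w w' := by
  refine ⟨σ, fun i v => ?_, h.2.2⟩
  rcases i with _ | k
  · have h1 := h.1 (gt v 0) (gt v 1) (gt v 2)
    have h2 : w'.1 0 (tr3 (σ (gt v 0)) (σ (gt v 1)) (σ (gt v 2))) =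
      w.1 0 (tr3 (gt v 0) (gt v 1) (gt v 2)) := h1
    rw [← tr3_comp, tr3_gt (n := b3 0) rfl v] at h2
    exact h2
  · have h1 := h.2.1 k (gt v 0) (gt v 1)
    have h2 : w'.1 (k + 1) (tr2 (σ (gt v 0)) (σ (gt v 1))) =
      w.1 (k + 1) (tr2 (gt v 0) (gt v 1)) := h1
    rw [← tr2_comp, tr2_gt (n := b3 (k + 1)) rfl v] at h2
    exact h2

theorem toQ_iso {w w' : US b3} (h : UIso w w') : ∃ σ, IsoQ σ (toQ w) (toQ w') := by
  obtain ⟨σ, h1, h2⟩ := h
  refine ⟨σ, fun a b c => ?_, fun k a b => ?_, h2⟩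
  · have h3 := h1 0 (tr3 a b c)
    rw [tr3_comp] at h3
    exact h3
  · have h3 := h1 (k + 1) (tr2 a b)
    rw [tr2_comp] at h3
    exact h3

theorem vcu_VB : VCu VB := by
  intro B hB hinv hV
  have b0 : BorelSpace (ℕ → Bool) := Pi.borelSpace
  have b2 : BorelSpace (ℕ → ℕ → Bool) := Pi.borelSpace
  have b3' : BorelSpace (ℕ → ℕ → ℕ → Bool) := Pi.borelSpace
  have b4 : BorelSpace ((ℕ → ℕ → ℕ → Bool) × (ℕ → ℕ → Bool)) := Prod.borelSpace
  have bR : BorelSpace Q3 := Prod.borelSpace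
  have c1 : BorelSpace (RS b3) := inferInstance
  have s1 : SecondCountableTopology (US b3) := inferInstance
  have c3 : BorelSpace (US b3) := inferInstance
  have hm : Measurable ofQ := ofQ_cont.measurable
  have key : ∀ z, z ∈ ofQ ⁻¹' B → BS (fun a b c => z.1 a b c = true) ∧
      BW (fun a b c => z.1 a b c = true) fun k a b => z.2.1 k a b = true := by
    intro z hz
    have h1 := hV _ hz
    have h2 := toQ_ofQ z
    have e1 : Dx (ofQ z).1 = fun a b c => z.1 a b c = true := by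
      funext a b c
      have : (toQ (ofQ z)).1 a b c = z.1 a b c := by rw [h2]
      exact congrArg (fun t => t = true) this
    have e2 : Ex (ofQ z).1 = fun k a b => z.2.1 k a b = true := by
      funext k a b
      have : (toQ (ofQ z)).2.1 k a b = z.2.1 k a b := by rw [h2]
      exact congrArg (fun t => t = true) this
    rw [← e1, ← e2]
    exact h1
  rcases t4 (ofQ ⁻¹' B) (hm hB) (fun x hx y σ hxy => by
      have h1 : UIso (ofQ x) (ofQ y) := iso_toQ (σ := σ) (by rw [toQ_ofQ, toQ_ofQ]; exact hxy)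
      exact (hinv _ _ h1).1 hx) (fun z hz => (key z hz).1) (fun z hz => (key z hz).2) with
      ⟨f, -, hf⟩ | ⟨g, hg1, hg2, hg3⟩
  · left
    refine ⟨fun n => ofQ (f n), fun w hw => ?_⟩
    obtain ⟨n, σ, h⟩ := hf (toQ w) (by
      show ofQ (toQ w) ∈ B
      rw [ofQ_toQ]
      exact hw)
    refine ⟨n, iso_toQ (σ := σ) ?_⟩
    rw [toQ_ofQ]
    exact h
  · right
    refine ⟨fun s => ofQ (g s), ofQ_cont.comp hg1, hg2, fun s t h => hg3 s t ?_⟩
    obtain ⟨σ, h1⟩ := toQ_iso h
    rw [toQ_ofQ, toQ_ofQ] at h1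
    exact ⟨σ, h1⟩

/-! ### Invariance -/

theorem inv_VB : Inv VB := by
  rintro x y ⟨σ, h⟩ ⟨h1, h2⟩
  have eD : ∀ a b c, Dx y (σ a) (σ b) (σ c) ↔ Dx x a b c := by
    intro a b c
    have h3 := h 0 (tr3 a b c)
    rw [tr3_comp] at h3
    show y 0 (tr3 (σ a) (σ b) (σ c)) = true ↔ _
    rw [h3]
    rfl
  have eE : ∀ k a b, Ex y k (σ a) (σ b) ↔ Ex x k a b := by
    intro k a b
    have h3 := h (k + 1) (tr2 a b)
    rw [tr2_comp] at h3
    show y (k + 1) (tr2 (σ a) (σ b)) = true ↔ _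
    rw [h3]
    rfl
  have hsu := σ.surjective
  refine ⟨⟨?_, ?_, ?_, ?_⟩, ?_⟩
  · intro b c
    obtain ⟨b, rfl⟩ := hsu b
    obtain ⟨c, rfl⟩ := hsu c
    exact (eD _ _ _).2 (h1.left b c)
  · intro a b c
    obtain ⟨a, rfl⟩ := hsu a
    obtain ⟨b, rfl⟩ := hsu b
    obtain ⟨c, rfl⟩ := hsu c
    rw [eD, eD]
    exact h1.symm a b c
  · intro b c d e
    obtain ⟨b, rfl⟩ := hsu b
    obtain ⟨c, rfl⟩ := hsu c
    obtain ⟨d, rfl⟩ := hsu d
    obtain ⟨e, rfl⟩ := hsu e
    rw [eD, eD]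
    intro k1 k2 a
    obtain ⟨a, rfl⟩ := hsu a
    rw [eD, eD]
    exact h1.incl b c d e k1 k2 a
  · intro b c d e
    obtain ⟨b, rfl⟩ := hsu b
    obtain ⟨c, rfl⟩ := hsu c
    obtain ⟨d, rfl⟩ := hsu d
    obtain ⟨e, rfl⟩ := hsu e
    rintro ⟨a, k1, k2⟩
    obtain ⟨a, rfl⟩ := hsu a
    rw [eD] at k1 k2
    rcases h1.lam b c d e ⟨a, k1, k2⟩ with k | k
    · left
      intro a
      obtain ⟨a, rfl⟩ := hsu a
      rw [eD, eD]
      exact k a
    · right
      intro a
      obtain ⟨a, rfl⟩ := hsu a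
      rw [eD, eD]
      exact k a
  · rintro S ⟨F, hF⟩
    have hS : ∀ a, σ a ∈ S ↔ a ∈ σ ⁻¹' S := fun a => Iff.rfl
    obtain ⟨n, l, k1, k2⟩ := h2 (σ ⁻¹' S) ⟨(fun p : ℕ × ℕ => (σ.symm p.1, σ.symm p.2)) '' F, by
      ext a
      show σ a ∈ S ↔ _
      rw [hF]
      constructor
      · rintro k _ ⟨p, hp, rfl⟩
        have := k p hp
        rw [← eD, σ.apply_symm_apply, σ.apply_symm_apply]
        exact this
      · intro k p hp
        have := k _ ⟨p, hp, rfl⟩
        rw [← eD, σ.apply_symm_apply, σ.apply_symm_apply] at this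
        exact this⟩
    have hb : ∀ a a', S = {x | Dx y x (σ a) (σ a')} → σ ⁻¹' S = {z | Dx x z a a'} := by
      intro a a' k
      ext z
      show σ z ∈ S ↔ _
      rw [k]
      exact eD _ _ _
    refine ⟨n, fun a => l (σ.symm a), ?_, ?_⟩
    · intro a ha b hb' hab c hc k
      obtain ⟨a, rfl⟩ := hsu a
      obtain ⟨b, rfl⟩ := hsu b
      obtain ⟨c, rfl⟩ := hsu c
      simp only [σ.symm_apply_apply] at hab
      rw [eE, eE, eE, eE]
      exact k1 a ha b hb' hab c hc k
    · intro a a' b b' n1 n2 s1 s2 l1 l2 k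
      obtain ⟨a, rfl⟩ := hsu a
      obtain ⟨a', rfl⟩ := hsu a'
      obtain ⟨b, rfl⟩ := hsu b
      obtain ⟨b', rfl⟩ := hsu b'
      simp only [σ.symm_apply_apply] at l1 l2
      rw [eE, eE]
      exact k2 a a' b b' (fun e => n1 (by rw [e])) (fun e => n2 (by rw [e])) (hb a a' s1)
        (hb b b' s2) l1 l2 k

/-! ### The class is coanalytic -/

/-- the region given by a code -/
def SF (x : RS b3) (F : ℕ → ℕ → Bool) (a : ℕ) : Prop := ∀ p q, F p q = true → Dx x a p q

/-- the conditions on a labelling of an initial segment -/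
def Pm (n m : ℕ) (x : RS b3) (F : ℕ → ℕ → Bool) (l : Fin m → Fin n) : Prop :=
  (∀ a b : Fin m, l a = l b → SF x F a → SF x F b → ∀ c, ¬ SF x F c → ∀ k,
    (Ex x k a c ↔ Ex x k b c) ∧ (Ex x k c a ↔ Ex x k c b)) ∧
  ∀ a a' b b' : Fin m, a ≠ a' → b ≠ b' → l a = l b → l a' = l b' →
    (∀ z, SF x F z ↔ Dx x z a a') → (∀ z, SF x F z ↔ Dx x z b b') →
      ∀ k, (Ex x k a a' ↔ Ex x k b b')

/-- the conditions on a labelling -/
def Pl (n : ℕ) (x : RS b3) (F : ℕ → ℕ → Bool) (l : ℕ → Fin n) : Prop :=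
  (∀ a, SF x F a → ∀ b, SF x F b → l a = l b → ∀ c, ¬ SF x F c → ∀ k,
    (Ex x k a c ↔ Ex x k b c) ∧ (Ex x k c a ↔ Ex x k c b)) ∧
  ∀ a a' b b' : ℕ, a ≠ a' → b ≠ b' → (∀ z, SF x F z ↔ Dx x z a a') →
    (∀ z, SF x F z ↔ Dx x z b b') → l a = l b → l a' = l b' →
      ∀ k, (Ex x k a a' ↔ Ex x k b b')

theorem pl_iff {n : ℕ} {x : RS b3} {F : ℕ → ℕ → Bool} :
    (∃ l : ℕ → Fin n, Pl n x F l) ↔ ∀ m, ∃ l : Fin m → Fin n, Pm n m x F l := by
  constructor
  · rintro ⟨l, h1, h2⟩ m
    refine ⟨fun a => l a, fun a b e ha hb c hc k => h1 a ha b hb e c hc k, ?_⟩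
    intro a a' b b' n1 n2 e1 e2 s1 s2 k
    exact h2 a a' b b' (fun e => n1 (Fin.ext e)) (fun e => n2 (Fin.ext e)) s1 s2 e1 e2 k
  · intro h
    have hn : 0 < n := by
      obtain ⟨l, -⟩ := h 1
      exact lt_of_le_of_lt (Nat.zero_le _) (l 0).2
    let C : ℕ → Set (ℕ → Fin n) := fun m => {l | Pm n m x F fun a => l a}
    have hC : (⋂ m, C m).Nonempty := by
      refine IsCompact.nonempty_iInter_of_sequence_nonempty_isCompact_isClosed C ?_ ?_ ?_ ?_
      · rintro m l ⟨h1, h2⟩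
        refine ⟨fun a b e ha hb c hc k => h1 a.castSucc b.castSucc e ha hb c hc k, ?_⟩
        intro a a' b b' n1 n2 e1 e2 s1 s2 k
        exact h2 a.castSucc a'.castSucc b.castSucc b'.castSucc
          (fun e => n1 (Fin.castSucc_injective _ e)) (fun e => n2 (Fin.castSucc_injective _ e))
          e1 e2 s1 s2 k
      · intro m
        obtain ⟨l, hl⟩ := h m
        refine ⟨fun a => if h : a < m then l ⟨a, h⟩ else ⟨0, hn⟩, ?_⟩
        have e : (fun a : Fin m => if h : a.val < m then l ⟨a.val, h⟩ else (⟨0, hn⟩ : Fin n)) =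
            l := by
          funext a
          rw [dif_pos a.2]
        show Pm n m x F fun a : Fin m => if h : a.val < m then l ⟨a.val, h⟩ else ⟨0, hn⟩
        rw [e]
        exact hl
      · have h1 : IsClosed (C 0) := by
          have : C 0 = univ := by
            ext l
            refine ⟨fun _ => trivial, fun _ => ⟨fun a => a.elim0, fun a => a.elim0⟩⟩
          rw [this]
          exact isClosed_univ
        exact h1.isCompact
      · intro m
        have h1 : C m = (fun l : ℕ → Fin n => fun a : Fin m => l a) ⁻¹' {l | Pm n m x F l} := rfl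
        rw [h1]
        exact (isClosed_discrete _).preimage (continuous_pi fun a => continuous_apply _)
    obtain ⟨l, hl⟩ := hC
    rw [mem_iInter] at hl
    refine ⟨l, ?_, ?_⟩
    · intro a ha b hb e c hc k
      have := (hl (max a b + 1)).1 ⟨a, by omega⟩ ⟨b, by omega⟩ e ha hb c hc k
      exact this
    · intro a a' b b' n1 n2 s1 s2 e1 e2 k
      have := (hl (a + a' + b + b' + 1)).2 ⟨a, by omega⟩ ⟨a', by omega⟩ ⟨b, by omega⟩
        ⟨b', by omega⟩ (fun e => n1 (congrArg Fin.val e)) (fun e => n2 (congrArg Fin.val e))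
        e1 e2 s1 s2 k
      exact this

theorem bw_iff {x : RS b3} : BW (Dx x) (Ex x) ↔
    ∀ F : ℕ → ℕ → Bool, ∃ n, ∃ l : ℕ → Fin n, Pl n x F l := by
  constructor
  · intro h F
    obtain ⟨n, l, h1, h2⟩ := h {a | SF x F a} ⟨{p | F p.1 p.2 = true}, by
      ext a
      exact ⟨fun h p hp => h p.1 p.2 hp, fun h p q hp => h (p, q) hp⟩⟩
    refine ⟨n, l, fun a ha b hb e c hc k => h1 a ha b hb e c hc k, ?_⟩
    intro a a' b b' n1 n2 s1 s2 e1 e2 k
    exact h2 a a' b b' n1 n2 (by ext z; exact s1 z) (by ext z; exact s2 z) e1 e2 k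
  · rintro h S ⟨F, hF⟩
    classical
    obtain ⟨n, l, h1, h2⟩ := h fun p q => decide ((p, q) ∈ F)
    have hS : ∀ a, SF x (fun p q => decide ((p, q) ∈ F)) a ↔ a ∈ S := by
      intro a
      rw [hF]
      constructor
      · intro h p hp
        exact h p.1 p.2 (decide_eq_true hp)
      · intro h p q hp
        exact h (p, q) (of_decide_eq_true hp)
    refine ⟨n, l, ?_, ?_⟩
    · intro a ha b hb e c hc k
      exact h1 a ((hS a).2 ha) b ((hS b).2 hb) e c (fun h => hc ((hS c).1 h)) k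
    · intro a a' b b' n1 n2 s1 s2 e1 e2 k
      refine h2 a a' b b' n1 n2 (fun z => ?_) (fun z => ?_) e1 e2 k
      · rw [hS, s1]
        exact Iff.rfl
      · rw [hS, s2]
        exact Iff.rfl

section meas

theorem mDx (a b c : ℕ) : Measurable fun w : RS b3 × (ℕ → ℕ → Bool) => Dx w.1 a b c := by
  have h : Measurable fun w : RS b3 × (ℕ → ℕ → Bool) => w.1 0 (tr3 a b c) :=
    (measurable_pi_apply _).comp ((measurable_pi_apply _).comp measurable_fst)
  exact measurableSet_setOfPred.1 (h (measurableSet_singleton true))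

theorem mEx (k a b : ℕ) : Measurable fun w : RS b3 × (ℕ → ℕ → Bool) => Ex w.1 k a b := by
  have h : Measurable fun w : RS b3 × (ℕ → ℕ → Bool) => w.1 (k + 1) (tr2 a b) :=
    (measurable_pi_apply _).comp ((measurable_pi_apply _).comp measurable_fst)
  exact measurableSet_setOfPred.1 (h (measurableSet_singleton true))

theorem mF (p q : ℕ) : Measurable fun w : RS b3 × (ℕ → ℕ → Bool) => w.2 p q = true := by
  have h : Measurable fun w : RS b3 × (ℕ → ℕ → Bool) => w.2 p q :=
    (measurable_pi_apply _).comp ((measurable_pi_apply _).comp measurable_snd)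
  exact measurableSet_setOfPred.1 (h (measurableSet_singleton true))

theorem mSF (a : ℕ) : Measurable fun w : RS b3 × (ℕ → ℕ → Bool) => SF w.1 w.2 a :=
  Measurable.forall fun p => Measurable.forall fun q => (mF p q).imp (mDx _ _ _)

theorem mPm (n m : ℕ) (l : Fin m → Fin n) :
    Measurable fun w : RS b3 × (ℕ → ℕ → Bool) => Pm n m w.1 w.2 l := by
  refine Measurable.and ?_ ?_
  · exact Measurable.forall fun a => Measurable.forall fun b => measurable_const.imp
      ((mSF _).imp ((mSF _).imp (Measurable.forall fun c => (mSF _).not.imp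
        (Measurable.forall fun k => ((mEx _ _ _).iff (mEx _ _ _)).and
          ((mEx _ _ _).iff (mEx _ _ _))))))
  · exact Measurable.forall fun a => Measurable.forall fun a' => Measurable.forall fun b =>
      Measurable.forall fun b' => measurable_const.imp (measurable_const.imp
        (measurable_const.imp (measurable_const.imp
          ((Measurable.forall fun z => (mSF _).iff (mDx _ _ _)).imp
            ((Measurable.forall fun z => (mSF _).iff (mDx _ _ _)).imp
              (Measurable.forall fun k => (mEx _ _ _).iff (mEx _ _ _)))))))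

end meas

theorem coan_VB : Coan VB := by
  unfold Coan
  have p1 : SecondCountableTopology (RS b3) := inferInstance
  have p2 : TopologicalSpace.IsCompletelyMetrizableSpace (RS b3) := inferInstance
  have p3 : PolishSpace (RS b3) := { p1, p2 with }
  have c1 : BorelSpace (RS b3) := inferInstance
  have q1 : SecondCountableTopology (ℕ → ℕ → Bool) := inferInstance
  have q0 : TopologicalSpace.IsCompletelyMetrizableSpace (ℕ → Bool) := inferInstance
  have q2 : TopologicalSpace.IsCompletelyMetrizableSpace (ℕ → ℕ → Bool) := inferInstance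
  have q3 : PolishSpace (ℕ → ℕ → Bool) := { q1, q2 with }
  have c2 : BorelSpace (ℕ → ℕ → Bool) := inferInstance
  have c3 : BorelSpace (RS b3 × (ℕ → ℕ → Bool)) := Prod.borelSpace
  have r1 : PolishSpace (RS b3 × (ℕ → ℕ → Bool)) := inferInstance
  have mD' : ∀ a b c, Measurable fun x : RS b3 => Dx x a b c := by
    intro a b c
    have h : Measurable fun x : RS b3 => x 0 (tr3 a b c) :=
      (measurable_pi_apply _).comp (measurable_pi_apply _)
    exact measurableSet_setOfPred.1 (h (measurableSet_singleton true))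
  have hBS : MeasurableSet {x : RS b3 | BS (Dx x)} := by
    have e : {x : RS b3 | BS (Dx x)} = {x | (∀ b c, Dx x b b c) ∧
        (∀ a b c, Dx x a b c → Dx x a c b) ∧
        (∀ b c d e, Dx x d b c → Dx x e b c → ∀ a, Dx x a d e → Dx x a b c) ∧
        ∀ b c d e, (∃ a, Dx x a b c ∧ Dx x a d e) →
          (∀ a, Dx x a b c → Dx x a d e) ∨ (∀ a, Dx x a d e → Dx x a b c)} := by
      ext x
      exact ⟨fun h => ⟨h.left, h.symm, h.incl, h.lam⟩, fun h => ⟨h.1, h.2.1, h.2.2.1, h.2.2.2⟩⟩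
    rw [e]
    refine measurableSet_setOfPred.2 ?_
    refine (Measurable.forall fun b => Measurable.forall fun c => mD' _ _ _).and ?_
    refine (Measurable.forall fun a => Measurable.forall fun b => Measurable.forall fun c =>
      (mD' _ _ _).imp (mD' _ _ _)).and ?_
    refine (Measurable.forall fun b => Measurable.forall fun c => Measurable.forall fun d =>
      Measurable.forall fun e => (mD' _ _ _).imp ((mD' _ _ _).imp (Measurable.forall fun a =>
        (mD' _ _ _).imp (mD' _ _ _)))).and ?_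
    exact Measurable.forall fun b => Measurable.forall fun c => Measurable.forall fun d =>
      Measurable.forall fun e => (Measurable.exists fun a => (mD' _ _ _).and (mD' _ _ _)).imp
        ((Measurable.forall fun a => (mD' _ _ _).imp (mD' _ _ _)).or
          (Measurable.forall fun a => (mD' _ _ _).imp (mD' _ _ _)))
  have hP : MeasurableSet {w : RS b3 × (ℕ → ℕ → Bool) |
      ¬ ∃ n, ∀ m, ∃ l : Fin m → Fin n, Pm n m w.1 w.2 l} := by
    refine measurableSet_setOfPred.2 ?_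
    exact (Measurable.exists fun n => Measurable.forall fun m => Measurable.exists fun l =>
      mPm n m l).not
  have e : {x : RS b3 | ¬ VB x} = {x | ¬ BS (Dx x)} ∪ Prod.fst '' {w : RS b3 × (ℕ → ℕ → Bool) |
      ¬ ∃ n, ∀ m, ∃ l : Fin m → Fin n, Pm n m w.1 w.2 l} := by
    ext x
    constructor
    · intro h
      by_cases h1 : BS (Dx x)
      · right
        have h2 : ¬ BW (Dx x) (Ex x) := fun h3 => h ⟨h1, h3⟩
        rw [bw_iff] at h2
        push Not at h2
        obtain ⟨F, hF⟩ := h2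
        refine ⟨(x, F), ?_, rfl⟩
        rintro ⟨n, hn⟩
        obtain ⟨l, hl⟩ := pl_iff.2 hn
        exact hF n l hl
      · exact Or.inl h1
    · rintro (h | ⟨⟨x', F⟩, h, rfl⟩) ⟨h1, h2⟩
      · exact h h1
      · obtain ⟨n, l, hl⟩ := bw_iff.1 h2 F
        exact h ⟨n, pl_iff.1 ⟨l, hl⟩⟩
  rw [e, Set.union_eq_iUnion]
  refine AnalyticSet.iUnion fun k => ?_
  cases k
  · exact hP.analyticSet.image_of_continuous continuous_fst
  · exact hBS.compl.analyticSet

end Pool.Agent.Run7.h201.CTR.BALL
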