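import Pool.Agent.Run7.h201.CTR.Ball4
import Pool.Agent.TH425.FF.Cun

set_option autoImplicit false

/-!
# First-order theories whose models are ball structures over finitely many parameters
-/

namespace Pool.Agent.Run7.h201.CTR.BALL

open Set MeasureTheory FirstOrder FirstOrder.Language
open Pool.Agent.H533R2.VO (RS RIso VC Dich)
open Pool.Agent.H533R2.VS (US UIso UDich VCu Coan Inv act)
open Pool.Agent.TH425.FF (PCanon PExp)
open Pool.Agent.Run7.h201.CS.TR (XL cnt_ix toS cd toS_cd BT meas_BT IsI meas_realize meas_fun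
  meas_rel real_equiv FDich)

variable {L : FirstOrder.Language.{0, 0}}

/-! ### Codes of structures -/

/-- arity of the graph of a symbol -/
def ari (s : L.Symbols) : ℕ :=
  match s with
  | Sum.inl F => F.1 + 1
  | Sum.inr R => R.1

/-- the tuple satisfies the graph of the symbol -/
def Hld (S : L.Structure ℕ) (s : L.Symbols) (w : ℕ → ℕ) : Prop :=
  match s with
  | Sum.inl F => @Structure.funMap L ℕ S F.1 F.2 (fun j => w j) = w F.1
  | Sum.inr R => @Structure.RelMap L ℕ S R.1 R.2 (fun j => w j)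

theorem Hld_congr {S : L.Structure ℕ} {s : L.Symbols} {w w' : ℕ → ℕ}
    (h : ∀ j < ari s, w j = w' j) : Hld S s w ↔ Hld S s w' := by
  rcases s with ⟨n, F⟩ | ⟨n, R⟩
  · have h1 : (fun j : Fin n => w j) = fun j : Fin n => w' j :=
      funext fun j => h j (Nat.lt_succ_of_lt j.2)
    show @Structure.funMap L ℕ S n F (fun j => w j) = w n ↔
      @Structure.funMap L ℕ S n F (fun j => w' j) = w' n
    rw [h1, h n (Nat.lt_succ_self n)]
  · have h1 : (fun j : Fin n => w j) = fun j : Fin n => w' j :=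
      funext fun j => h j j.2
    show @Structure.RelMap L ℕ S n R (fun j => w j) ↔ @Structure.RelMap L ℕ S n R (fun j => w' j)
    rw [h1]

theorem Hld_iso {S S' : L.Structure ℕ} {σ : Equiv.Perm ℕ} (h : IsI S S' σ) (s : L.Symbols)
    (w : ℕ → ℕ) : Hld S' s (σ ∘ w) ↔ Hld S s w := by
  rcases s with ⟨n, F⟩ | ⟨n, R⟩
  · show @Structure.funMap L ℕ S' n F (⇑σ ∘ fun j : Fin n => w j) = σ (w n) ↔ _
    rw [h.1 n F]
    exact σ.injective.eq_iff
  · exact h.2 n R _

section cod

variable (dec : ℕ → Option L.Symbols)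

/-- the arities -/
def aS (i : ℕ) : ℕ := (dec i).elim 0 ari

open Classical in
/-- the code of a structure -/
noncomputable def codS (S : L.Structure ℕ) : RS (aS dec) :=
  fun i v => (dec i).elim false fun s => decide (Hld S s (gt v))

variable {dec}

theorem aS_some {i : ℕ} {s : L.Symbols} (h : dec i = some s) : aS dec i = ari s := by
  unfold aS
  rw [h]
  rfl

theorem codS_some {i : ℕ} {s : L.Symbols} (h : dec i = some s) {S : L.Structure ℕ}
    {v : Fin (aS dec i) → ℕ} : codS dec S i v = true ↔ Hld S s (gt v) := by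
  classical
  unfold codS
  rw [h]
  show decide _ = true ↔ _
  exact decide_eq_true_iff

theorem codS_none {i : ℕ} (h : dec i = none) {S : L.Structure ℕ}
    {v : Fin (aS dec i) → ℕ} : codS dec S i v = false := by
  unfold codS
  rw [h]
  rfl

theorem gt_lt {n : ℕ} {w : ℕ → ℕ} {j : ℕ} (h : j < n) : gt (fun i : Fin n => w i) j = w j :=
  gt_of _ h

theorem codS_iso {S S' : L.Structure ℕ} {σ : Equiv.Perm ℕ} (h : IsI S S' σ) (i : ℕ)
    (v : Fin (aS dec i) → ℕ) : codS dec S' i (⇑σ ∘ v) = codS dec S i v := by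
  cases hd : dec i with
  | none => rw [codS_none hd, codS_none hd]
  | some s =>
    rw [Bool.eq_iff_iff, codS_some hd, codS_some hd, ← Hld_iso h]
    refine Hld_congr fun j hj => ?_
    rw [gt_comp _ _ (by rw [aS_some hd]; exact hj)]
    rfl

theorem iso_cod (hdec : Function.Surjective dec) {S S' : L.Structure ℕ} {σ : Equiv.Perm ℕ}
    (h : ∀ i (v : Fin (aS dec i) → ℕ), codS dec S' i (⇑σ ∘ v) = codS dec S i v) :
    IsI S S' σ := by
  have key : ∀ (s : L.Symbols) (w : ℕ → ℕ), Hld S' s (σ ∘ w) ↔ Hld S s w := by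
    intro s w
    obtain ⟨i, hi⟩ := hdec (some s)
    have h1 := h i fun j => w j
    rw [Bool.eq_iff_iff, codS_some hi, codS_some hi] at h1
    have e1 : Hld S' s (gt (⇑σ ∘ fun j : Fin (aS dec i) => w j)) ↔ Hld S' s (σ ∘ w) :=
      Hld_congr fun j hj => by
        rw [gt_comp _ _ (by rw [aS_some hi]; exact hj), gt_lt (by rw [aS_some hi]; exact hj)]
        rfl
    have e2 : Hld S s (gt (fun j : Fin (aS dec i) => w j)) ↔ Hld S s w :=
      Hld_congr fun j hj => gt_lt (by rw [aS_some hi]; exact hj)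
    rw [← e1, ← e2]
    exact h1
  refine ⟨fun n F v => ?_, fun n R v => ?_⟩
  · let w : ℕ → ℕ := fun j => if hj : j < n then v ⟨j, hj⟩ else @Structure.funMap L ℕ S n F v
    have hw : (fun j : Fin n => w j) = v := by
      funext j
      exact dif_pos j.2
    have hwn : w n = @Structure.funMap L ℕ S n F v := dif_neg (lt_irrefl n)
    have h1 : Hld S (Sum.inl ⟨n, F⟩) w := by
      show @Structure.funMap L ℕ S n F (fun j => w j) = w n
      rw [hw, hwn]
    have h2 := (key (Sum.inl ⟨n, F⟩) w).2 h1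
    have h3 : @Structure.funMap L ℕ S' n F (⇑σ ∘ fun j : Fin n => w j) = σ (w n) := h2
    rw [hw, hwn] at h3
    exact h3
  · let w : ℕ → ℕ := fun j => if hj : j < n then v ⟨j, hj⟩ else 0
    have hw : (fun j : Fin n => w j) = v := by
      funext j
      exact dif_pos j.2
    have h1 := key (Sum.inr ⟨n, R⟩) w
    have h2 : @Structure.RelMap L ℕ S' n R (⇑σ ∘ fun j : Fin n => w j) ↔
      @Structure.RelMap L ℕ S n R (fun j => w j) := h1
    rw [hw] at h2
    exact h2

theorem codS_inj (hdec : Function.Surjective dec) {S S' : L.Structure ℕ}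
    (h : codS dec S = codS dec S') : S = S' := by
  refine IsI.eq (iso_cod hdec (σ := Equiv.refl ℕ) fun i v => ?_)
  rw [h]
  rfl

theorem act_cod {S S' : L.Structure ℕ} {σ : Equiv.Perm ℕ} (h : IsI S S' σ) :
    codS dec S' = act σ (codS dec S) := by
  funext i v
  show _ = codS dec S i (⇑σ.symm ∘ v)
  rw [← codS_iso h i (⇑σ.symm ∘ v)]
  have e : ⇑σ ∘ ⇑σ.symm ∘ v = v := by
    funext j
    exact σ.apply_symm_apply _
  rw [e]

theorem meas_codS : Measurable fun y : XL L => codS dec (toS y) := by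
  classical
  refine measurable_pi_lambda _ fun i => measurable_pi_lambda _ fun v => measurable_to_bool ?_
  cases hd : dec i with
  | none =>
    have e : (fun y : XL L => codS dec (toS y) i v) ⁻¹' {true} = ∅ := by
      ext y
      simp only [mem_preimage, mem_singleton_iff, mem_empty_iff_false, iff_false]
      rw [codS_none hd]
      simp
    rw [e]
    exact MeasurableSet.empty
  | some s =>
    have e : (fun y : XL L => codS dec (toS y) i v) ⁻¹' {true} = {y | Hld (toS y) s (gt v)} := by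
      ext y
      exact codS_some hd
    rw [e]
    rcases s with ⟨n, F⟩ | ⟨n, R⟩
    · exact meas_fun n F _ _
    · exact meas_rel n R _

end cod

/-- the transported structure -/
theorem exists_act (S : L.Structure ℕ) (σ : Equiv.Perm ℕ) : ∃ S' : L.Structure ℕ, IsI S S' σ ∧
    ∀ T : L.Theory, @Theory.Model L ℕ S T → @Theory.Model L ℕ S' T := by
  let S' : L.Structure ℕ := @Equiv.inducedStructure L ℕ ℕ S σ
  let τ : @FirstOrder.Language.Equiv L ℕ ℕ S S' := @Equiv.inducedStructureEquiv L ℕ ℕ S σ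
  refine ⟨S', ⟨fun n F v => ?_, fun n R v => ?_⟩, fun T hT => ?_⟩
  · exact (@FirstOrder.Language.Equiv.map_fun' L ℕ ℕ S S' τ n F v).symm
  · exact @FirstOrder.Language.Equiv.map_rel' L ℕ ℕ S S' τ n R v
  · exact @StrongHomClass.theory_model L ℕ ℕ S S' T _ _ _ τ hT

/-! ### The reducts -/

section red

variable {m : ℕ} (β : L.Formula (Fin m ⊕ Fin 3)) (ψ : ℕ → L.Formula (Fin m ⊕ Fin 2))
  (θ : ℕ → L.Formula (Fin m ⊕ Fin 1))

/-- ternary relation defined with parameters -/
def P3 (S : L.Structure ℕ) (φ : L.Formula (Fin m ⊕ Fin 3)) (p : Fin m → ℕ) (a b c : ℕ) : Prop :=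
  @Formula.Realize L ℕ S _ φ (Sum.elim p ![a, b, c])

/-- binary relation defined with parameters -/
def P2 (S : L.Structure ℕ) (φ : L.Formula (Fin m ⊕ Fin 2)) (p : Fin m → ℕ) (a b : ℕ) : Prop :=
  @Formula.Realize L ℕ S _ φ (Sum.elim p ![a, b])

/-- unary relation defined with parameters -/
def P1 (S : L.Structure ℕ) (φ : L.Formula (Fin m ⊕ Fin 1)) (p : Fin m → ℕ) (a : ℕ) : Prop :=
  @Formula.Realize L ℕ S _ φ (Sum.elim p ![a])

theorem p_iso {S S' : L.Structure ℕ} {σ : Equiv.Perm ℕ} (h : IsI S S' σ) {γ : Type}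
    (φ : L.Formula γ) (v : γ → ℕ) : @Formula.Realize L ℕ S' _ φ (fun i => σ (v i)) ↔
      @Formula.Realize L ℕ S _ φ v :=
  real_equiv (@FirstOrder.Language.Equiv.mk L ℕ ℕ S S' σ (fun F v => (h.1 _ F v).symm)
    (fun R v => h.2 _ R v)) φ v

theorem p3_iso {S S' : L.Structure ℕ} {σ : Equiv.Perm ℕ} (h : IsI S S' σ)
    (φ : L.Formula (Fin m ⊕ Fin 3)) (p : Fin m → ℕ) (a b c : ℕ) :
    P3 S' φ (⇑σ ∘ p) (σ a) (σ b) (σ c) ↔ P3 S φ p a b c := by
  have e : Sum.elim (⇑σ ∘ p) ![σ a, σ b, σ c] = fun i => σ (Sum.elim p ![a, b, c] i) := by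
    funext i
    rcases i with i | i
    · rfl
    · fin_cases i <;> rfl
  unfold P3
  rw [e]
  exact p_iso h _ _

theorem p2_iso {S S' : L.Structure ℕ} {σ : Equiv.Perm ℕ} (h : IsI S S' σ)
    (φ : L.Formula (Fin m ⊕ Fin 2)) (p : Fin m → ℕ) (a b : ℕ) :
    P2 S' φ (⇑σ ∘ p) (σ a) (σ b) ↔ P2 S φ p a b := by
  have e : Sum.elim (⇑σ ∘ p) ![σ a, σ b] = fun i => σ (Sum.elim p ![a, b] i) := by
    funext i
    rcases i with i | i
    · rfl
    · fin_cases i <;> rfl
  unfold P2
  rw [e]
  exact p_iso h _ _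

theorem p1_iso {S S' : L.Structure ℕ} {σ : Equiv.Perm ℕ} (h : IsI S S' σ)
    (φ : L.Formula (Fin m ⊕ Fin 1)) (p : Fin m → ℕ) (a : ℕ) :
    P1 S' φ (⇑σ ∘ p) (σ a) ↔ P1 S φ p a := by
  have e : Sum.elim (⇑σ ∘ p) ![σ a] = fun i => σ (Sum.elim p ![a] i) := by
    funext i
    rcases i with i | i
    · rfl
    · fin_cases i
      rfl
  unfold P1
  rw [e]
  exact p_iso h _ _

open Classical in
/-- the reduct; unary relations are turned into parts of the diagonal -/
noncomputable def zz (p : Fin m → ℕ) (S : L.Structure ℕ) : Q3 :=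
  (fun a b c => decide (P3 S β p a b c),
    fun k a b => if k % 2 = 0 then decide (P2 S (ψ (k / 2)) p a b) else
      decide (a = b ∧ P1 S (θ (k / 2)) p a), fun _ _ => false)

/-- the reduct as a relational structure -/
noncomputable def GG (p : Fin m → ℕ) (S : L.Structure ℕ) : RS b3 := (ofQ (zz β ψ θ p S)).1

variable {β ψ θ}

theorem act_ofQ {σ : Equiv.Perm ℕ} {z z' : Q3} (h : IsoQ σ z z') :
    (ofQ z').1 = act σ (ofQ z).1 := by
  funext i v
  show _ = (ofQ z).1 i (⇑σ.symm ∘ v)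
  rcases i with _ | k
  · show z'.1 (gt v 0) (gt v 1) (gt v 2) = z.1 (gt (⇑σ.symm ∘ v) 0) (gt (⇑σ.symm ∘ v) 1)
      (gt (⇑σ.symm ∘ v) 2)
    rw [gt_comp _ _ (by decide), gt_comp _ _ (by decide), gt_comp _ _ (by decide), ← h.1,
      σ.apply_symm_apply, σ.apply_symm_apply, σ.apply_symm_apply]
  · show z'.2.1 k (gt v 0) (gt v 1) = z.2.1 k (gt (⇑σ.symm ∘ v) 0) (gt (⇑σ.symm ∘ v) 1)
    rw [gt_comp _ _ (by rw [b3_succ]; omega), gt_comp _ _ (by rw [b3_succ]; omega), ← h.2.1,
      σ.apply_symm_apply, σ.apply_symm_apply]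

theorem GG_iso {S S' : L.Structure ℕ} {σ : Equiv.Perm ℕ} (h : IsI S S' σ) (p : Fin m → ℕ) :
    GG β ψ θ (⇑σ ∘ p) S' = act σ (GG β ψ θ p S) := by
  classical
  refine act_ofQ ⟨fun a b c => ?_, fun k a b => ?_, fun k a => rfl⟩
  · exact decide_eq_decide.2 (p3_iso h β p a b c)
  · show (if k % 2 = 0 then _ else _) = (if k % 2 = 0 then _ else _)
    split_ifs
    · exact decide_eq_decide.2 (p2_iso h _ p a b)
    · exact decide_eq_decide.2 (and_congr σ.injective.eq_iff (p1_iso h _ p a))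

theorem toQ_GG (p : Fin m → ℕ) (S : L.Structure ℕ) :
    (∀ a b c, (GG β ψ θ p S) 0 (tr3 a b c) = (zz β ψ θ p S).1 a b c) ∧
    ∀ k a b, (GG β ψ θ p S) (k + 1) (tr2 a b) = (zz β ψ θ p S).2.1 k a b := by
  have h := toQ_ofQ (zz β ψ θ p S)
  constructor
  · intro a b c
    exact congrFun (congrFun (congrFun (congrArg Prod.fst h) a) b) c
  · intro k a b
    exact congrFun (congrFun (congrFun (congrArg (fun z : Q3 => z.2.1) h) k) a) b

theorem GG_inj {p : Fin m → ℕ} {S S' : L.Structure ℕ} (h : GG β ψ θ p S = GG β ψ θ p S') :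
    (∀ a b c, P3 S β p a b c ↔ P3 S' β p a b c) ∧
    (∀ k a b, P2 S (ψ k) p a b ↔ P2 S' (ψ k) p a b) ∧
    ∀ k a, P1 S (θ k) p a ↔ P1 S' (θ k) p a := by
  classical
  obtain ⟨h1, h2⟩ := toQ_GG (β := β) (ψ := ψ) (θ := θ) p S
  obtain ⟨h3, h4⟩ := toQ_GG (β := β) (ψ := ψ) (θ := θ) p S'
  refine ⟨fun a b c => ?_, fun k a b => ?_, fun k a => ?_⟩
  · have e : (zz β ψ θ p S).1 a b c = (zz β ψ θ p S').1 a b c := by rw [← h1, ← h3, h]
    exact decide_eq_decide.1 e
  · have e : (zz β ψ θ p S).2.1 (2 * k) a b = (zz β ψ θ p S').2.1 (2 * k) a b := by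
      rw [← h2, ← h4, h]
    have e1 : (2 * k) % 2 = 0 := by omega
    have e2 : (2 * k) / 2 = k := by omega
    have e3 : (if (2 * k) % 2 = 0 then decide (P2 S (ψ ((2 * k) / 2)) p a b) else
      decide (a = b ∧ P1 S (θ ((2 * k) / 2)) p a)) = (if (2 * k) % 2 = 0 then
      decide (P2 S' (ψ ((2 * k) / 2)) p a b) else
      decide (a = b ∧ P1 S' (θ ((2 * k) / 2)) p a)) := e
    rw [if_pos e1, if_pos e1, e2] at e3
    exact decide_eq_decide.1 e3
  · have e : (zz β ψ θ p S).2.1 (2 * k + 1) a a = (zz β ψ θ p S').2.1 (2 * k + 1) a a := by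
      rw [← h2, ← h4, h]
    have e1 : ¬ (2 * k + 1) % 2 = 0 := by omega
    have e2 : (2 * k + 1) / 2 = k := by omega
    have e3 : (if (2 * k + 1) % 2 = 0 then decide (P2 S (ψ ((2 * k + 1) / 2)) p a a) else
      decide (a = a ∧ P1 S (θ ((2 * k + 1) / 2)) p a)) = (if (2 * k + 1) % 2 = 0 then
      decide (P2 S' (ψ ((2 * k + 1) / 2)) p a a) else
      decide (a = a ∧ P1 S' (θ ((2 * k + 1) / 2)) p a)) := e
    rw [if_neg e1, if_neg e1, e2] at e3
    have e4 := decide_eq_decide.1 e3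
    simpa using e4

theorem VB_GG {p : Fin m → ℕ} {S : L.Structure ℕ} (h1 : BS (P3 S β p))
    (h2 : BW (P3 S β p) fun k => P2 S (ψ k) p) : VB (GG β ψ θ p S) := by
  classical
  obtain ⟨k1, k2⟩ := toQ_GG (β := β) (ψ := ψ) (θ := θ) p S
  have eD : Dx (GG β ψ θ p S) = P3 S β p := by
    funext a b c
    show (GG β ψ θ p S 0 (tr3 a b c) = true) = _
    rw [k1]
    exact propext decide_eq_true_iff
  have eE : ∀ k a b, Ex (GG β ψ θ p S) k a b ↔ if k % 2 = 0 then P2 S (ψ (k / 2)) p a b else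
      (a = b ∧ P1 S (θ (k / 2)) p a) := by
    intro k a b
    show GG β ψ θ p S (k + 1) (tr2 a b) = true ↔ _
    rw [k2]
    show (if k % 2 = 0 then _ else _) = true ↔ _
    by_cases hk : k % 2 = 0
    · rw [if_pos hk, if_pos hk]
      exact decide_eq_true_iff
    · rw [if_neg hk, if_neg hk]
      exact decide_eq_true_iff
  refine ⟨by rw [eD]; exact h1, ?_⟩
  rw [eD]
  intro R hR
  obtain ⟨n, l, g1, g2⟩ := h2 R hR
  refine ⟨n, l, ?_, ?_⟩
  · intro a ha b hb hab c hc k
    rw [eE, eE, eE, eE]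
    by_cases hk : k % 2 = 0
    · simp only [if_pos hk]
      exact g1 a ha b hb hab c hc (k / 2)
    · simp only [if_neg hk]
      have n1 : a ≠ c := fun h => hc (h ▸ ha)
      have n2 : b ≠ c := fun h => hc (h ▸ hb)
      exact ⟨iff_of_false (fun h => n1 h.1) (fun h => n2 h.1),
        iff_of_false (fun h => n1 h.1.symm) (fun h => n2 h.1.symm)⟩
  · intro a a' b b' n1 n2 s1 s2 e1 e2 k
    rw [eE, eE]
    by_cases hk : k % 2 = 0
    · simp only [if_pos hk]
      exact g2 a a' b b' n1 n2 s1 s2 e1 e2 (k / 2)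
    · simp only [if_neg hk]
      exact iff_of_false (fun h => n1 h.1) (fun h => n2 h.1)

theorem meas_GG (p : Fin m → ℕ) : Measurable fun y : XL L => GG β ψ θ p (toS y) := by
  classical
  have h : Measurable fun y : XL L => zz β ψ θ p (toS y) := by
    refine Measurable.prodMk ?_ (Measurable.prodMk ?_ ?_)
    · refine measurable_pi_lambda _ fun a => measurable_pi_lambda _ fun b =>
        measurable_pi_lambda _ fun c => measurable_to_bool ?_
      have e : (fun y : XL L => decide (P3 (toS y) β p a b c)) ⁻¹' {true} =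
          {y | @Formula.Realize L ℕ (toS y) _ β (Sum.elim p ![a, b, c])} := by
        ext x
        exact decide_eq_true_iff
      rw [e]
      exact meas_realize (f := toS) meas_fun meas_rel _ _ _
    · refine measurable_pi_lambda _ fun k => measurable_pi_lambda _ fun a =>
        measurable_pi_lambda _ fun b => measurable_to_bool ?_
      by_cases hk : k % 2 = 0
      · have e : (fun y : XL L => if k % 2 = 0 then decide (P2 (toS y) (ψ (k / 2)) p a b) else
            decide (a = b ∧ P1 (toS y) (θ (k / 2)) p a)) ⁻¹' {true} =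
            {y | @Formula.Realize L ℕ (toS y) _ (ψ (k / 2)) (Sum.elim p ![a, b])} := by
          ext x
          simp only [if_pos hk, mem_preimage, mem_singleton_iff]
          exact decide_eq_true_iff
        rw [e]
        exact meas_realize (f := toS) meas_fun meas_rel _ _ _
      · have e : (fun y : XL L => if k % 2 = 0 then decide (P2 (toS y) (ψ (k / 2)) p a b) else
            decide (a = b ∧ P1 (toS y) (θ (k / 2)) p a)) ⁻¹' {true} =
            {_y : XL L | a = b} ∩
            {y | @Formula.Realize L ℕ (toS y) _ (θ (k / 2)) (Sum.elim p ![a])} := by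
          ext x
          simp only [if_neg hk, mem_preimage, mem_singleton_iff]
          exact decide_eq_true_iff
        rw [e]
        exact (MeasurableSet.const _).inter (meas_realize (f := toS) meas_fun meas_rel _ _ _)
    · exact measurable_const
  have b0 : BorelSpace (ℕ → Bool) := Pi.borelSpace
  have b2 : BorelSpace (ℕ → ℕ → Bool) := Pi.borelSpace
  have b3' : BorelSpace (ℕ → ℕ → ℕ → Bool) := Pi.borelSpace
  have b4 : BorelSpace ((ℕ → ℕ → ℕ → Bool) × (ℕ → ℕ → Bool)) := Prod.borelSpace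
  have bR : BorelSpace Q3 := Prod.borelSpace
  have c1 : BorelSpace (RS b3) := inferInstance
  exact ((continuous_fst.comp ofQ_cont).measurable).comp h

end red

end Pool.Agent.Run7.h201.CTR.BALL
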