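import Pool.Agent.Run7.h201.CTR.Ball5

set_option autoImplicit false

/-!
# First-order theories whose models are ball structures over finitely many parameters: the theorem
-/

namespace Pool.Agent.Run7.h201.CTR.BALL

open Set MeasureTheory FirstOrder FirstOrder.Language
open Pool.Agent.H533R2.VO (RS RIso VC Dich)
open Pool.Agent.H533R2.VS (US UIso UDich VCu Coan Inv act exk_act exk_riso)
open Pool.Agent.TH425.FF (PCanon PExp)
open Pool.Agent.Run7.h201.CS.TR (XL cnt_ix toS cd toS_cd BT meas_BT IsI meas_realize meas_fun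
  meas_rel real_equiv FDich)

variable {L : FirstOrder.Language.{0, 0}}

theorem act_symm {a : ℕ → ℕ} (σ : Equiv.Perm ℕ) (x : RS a) : act σ.symm (act σ x) = x := by
  funext i v
  show x i (⇑σ.symm ∘ (⇑σ.symm.symm ∘ v)) = x i v
  have e : ⇑σ.symm ∘ (⇑σ.symm.symm ∘ v) = v := by
    funext j
    exact σ.symm_apply_apply _
  rw [e]

/-- the parameters of a list -/
def pl (m : ℕ) (l : List ℕ) : Fin m → ℕ := fun j => l.getD j 0

theorem pl_map {m : ℕ} {l : List ℕ} (h : l.length = m) (σ : ℕ → ℕ) :
    pl m (l.map σ) = σ ∘ pl m l := by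
  funext j
  have hj : j.val < l.length := by rw [h]; exact j.2
  show (l.map σ).getD j 0 = σ (l.getD j 0)
  rw [List.getD_eq_getElem _ _ (by rw [List.length_map]; exact hj), List.getD_eq_getElem _ _ hj,
    List.getElem_map]

theorem pl_ofFn {m : ℕ} (p : Fin m → ℕ) : pl m (List.ofFn p) = p := by
  funext j
  show (List.ofFn p).getD j 0 = p j
  rw [List.getD_eq_getElem _ _ (by rw [List.length_ofFn]; exact j.2), List.getElem_ofFn]

section one

variable {m : ℕ} (β : L.Formula (Fin m ⊕ Fin 3)) (ψ : ℕ → L.Formula (Fin m ⊕ Fin 2))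
  (θ : ℕ → L.Formula (Fin m ⊕ Fin 1))

/-- The Borel coding. -/
theorem exists_coding (hL : Countable L.Symbols) (T : L.Theory) {dec : ℕ → Option L.Symbols}
    (hdec : Function.Surjective dec)
    (hdet : ∀ (p : Fin m → ℕ) (S S' : L.Structure ℕ), @Theory.Model L ℕ S T →
      @Theory.Model L ℕ S' T → (∀ a b c, P3 S β p a b c ↔ P3 S' β p a b c) →
      (∀ k a b, P2 S (ψ k) p a b ↔ P2 S' (ψ k) p a b) →
      (∀ k a, P1 S (θ k) p a ↔ P1 S' (θ k) p a) → S = S') :
    ∃ (c : List ℕ → RS (aS dec) → RS b3) (d : List ℕ → RS b3 → RS (aS dec)), PCanon c d ∧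
      ∀ (S : L.Structure ℕ), @Theory.Model L ℕ S T → ∀ p : Fin m → ℕ,
        c (List.ofFn p) (codS dec S) = GG β ψ θ p S ∧
          d (List.ofFn p) (GG β ψ θ p S) = codS dec S := by
  classical
  have hix := cnt_ix hL
  have hBT := meas_BT hL T
  have hs : StandardBorelSpace (XL L) := inferInstance
  have hs' : StandardBorelSpace (BT T) := hBT.standardBorel
  have p1 : ∀ a : ℕ → ℕ, PolishSpace (RS a) := fun a => Pool.Agent.TH425.FF.polish_of'
  have b1 : ∀ a : ℕ → ℕ, BorelSpace (RS a) := fun a => inferInstance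
  have q1 : ∀ a : ℕ → ℕ, StandardBorelSpace (RS a) := fun a => by
    have := p1 a
    have := b1 a
    exact standardBorel_of_polish
  have q2 : ∀ a : ℕ → ℕ, MeasurableSpace.CountablySeparated (RS a) := fun a => by
    have := q1 a
    exact MeasurableSpace.countablySeparated_of_separatesPoints
  have := q2 (aS dec)
  have := q2 b3
  let φ : BT T → RS (aS dec) := fun y => codS dec (toS y.1)
  have hφm : Measurable φ := meas_codS.comp measurable_subtype_coe
  have hφi : Function.Injective φ := by
    intro y y' h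
    have h1 : toS y.1 = toS y'.1 := codS_inj hdec h
    refine Subtype.ext ?_
    rw [← y.2.1, ← y'.2.1, h1]
  have hφ : MeasurableEmbedding φ := hφm.measurableEmbedding hφi
  have hin : ∀ S : L.Structure ℕ, @Theory.Model L ℕ S T → ∃ y : BT T, toS y.1 = S := by
    intro S hS
    exact ⟨⟨cd S, by rw [toS_cd], by rw [toS_cd]; exact hS⟩, toS_cd S⟩
  let γ : (Fin m → ℕ) → BT T → RS b3 := fun p y => GG β ψ θ p (toS y.1)
  have hγm : ∀ p, Measurable (γ p) := fun p => (meas_GG p).comp measurable_subtype_coe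
  have hγi : ∀ p, Function.Injective (γ p) := by
    intro p y y' h
    obtain ⟨h1, h2, h3⟩ := GG_inj h
    have h4 : toS y.1 = toS y'.1 := hdet p _ _ y.2.2 y'.2.2 h1 h2 h3
    refine Subtype.ext ?_
    rw [← y.2.1, ← y'.2.1, h4]
  have hγ : ∀ p, MeasurableEmbedding (γ p) := fun p => (hγm p).measurableEmbedding (hγi p)
  have hwx : ∀ p, ∃ w : RS b3 → RS (aS dec), Measurable w ∧ w ∘ γ p = φ := fun p =>
    (hγ p).exists_measurable_extend hφm fun _ => ⟨fun _ _ => false⟩
  choose w hw1 hw2 using hwx
  have hux : ∀ p, ∃ u : RS (aS dec) → RS b3, Measurable u ∧ u ∘ φ = γ p := fun p =>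
    hφ.exists_measurable_extend (hγm p) fun _ => ⟨fun _ _ => false⟩
  choose u hu1 hu2 using hux
  let c : List ℕ → RS (aS dec) → RS b3 := fun l x =>
    if l.length = m ∧ x ∈ range φ then u (pl m l) x else fun _ _ => false
  let d : List ℕ → RS b3 → RS (aS dec) := fun l z =>
    if l.length = m ∧ z ∈ range (γ (pl m l)) then w (pl m l) z else fun _ _ => false
  -- transport
  have hmove : ∀ (y : BT T) (σ : Equiv.Perm ℕ), ∃ y' : BT T, φ y' = act σ (φ y) ∧
      ∀ p, γ (⇑σ ∘ p) y' = act σ (γ p y) := by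
    intro y σ
    obtain ⟨S', h1, h2⟩ := exists_act (toS y.1) σ
    obtain ⟨y', hy'⟩ := hin S' (h2 T y.2.2)
    refine ⟨y', ?_, fun p => ?_⟩
    · show codS dec (toS y'.1) = _
      rw [hy']
      exact act_cod h1
    · show GG β ψ θ _ (toS y'.1) = _
      rw [hy']
      exact GG_iso h1 p
  refine ⟨c, d, ⟨fun l => ?_, fun l => ?_, fun σ l x => ?_, fun σ l z => ?_⟩, fun S hS p => ?_⟩
  · refine Measurable.ite ?_ (hu1 _) measurable_const
    by_cases hl : l.length = m
    · have e : {x : RS (aS dec) | l.length = m ∧ x ∈ range φ} = range φ := by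
        ext x
        exact ⟨fun h => h.2, fun h => ⟨hl, h⟩⟩
      rw [e]
      exact hφ.measurableSet_range
    · have e : {x : RS (aS dec) | l.length = m ∧ x ∈ range φ} = ∅ := by
        ext x
        exact ⟨fun h => hl h.1, fun h => h.elim⟩
      rw [e]
      exact MeasurableSet.empty
  · refine Measurable.ite ?_ (hw1 _) measurable_const
    by_cases hl : l.length = m
    · have e : {x : RS b3 | l.length = m ∧ x ∈ range (γ (pl m l))} = range (γ (pl m l)) := by
        ext x
        exact ⟨fun h => h.2, fun h => ⟨hl, h⟩⟩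
      rw [e]
      exact (hγ _).measurableSet_range
    · have e : {x : RS b3 | l.length = m ∧ x ∈ range (γ (pl m l))} = ∅ := by
        ext x
        exact ⟨fun h => hl h.1, fun h => h.elim⟩
      rw [e]
      exact MeasurableSet.empty
  · by_cases h : l.length = m ∧ x ∈ range φ
    · obtain ⟨hl, y, rfl⟩ := h
      obtain ⟨y', h1, h2⟩ := hmove y σ
      have e1 : c l (φ y) = γ (pl m l) y := by
        show (if l.length = m ∧ φ y ∈ range φ then _ else _) = _
        rw [if_pos ⟨hl, y, rfl⟩]
        exact congrFun (hu2 _) y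
      have e2 : c (l.map σ) (act σ (φ y)) = γ (pl m (l.map σ)) y' := by
        rw [← h1]
        show (if (l.map σ).length = m ∧ φ y' ∈ range φ then _ else _) = _
        rw [if_pos ⟨by rw [List.length_map]; exact hl, y', rfl⟩]
        exact congrFun (hu2 _) y'
      rw [e1, e2, pl_map hl, h2]
    · have h' : ¬ ((l.map σ).length = m ∧ act σ x ∈ range φ) := by
        rintro ⟨hl, y, hy⟩
        rw [List.length_map] at hl
        obtain ⟨y', h1, -⟩ := hmove y σ.symm
        rw [hy, act_symm] at h1
        exact h ⟨hl, y', h1⟩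
      show (if (l.map σ).length = m ∧ act σ x ∈ range φ then _ else _) =
        act σ (if l.length = m ∧ x ∈ range φ then _ else _)
      rw [if_neg h, if_neg h']
      rfl
  · by_cases h : l.length = m ∧ z ∈ range (γ (pl m l))
    · obtain ⟨hl, y, rfl⟩ := h
      obtain ⟨y', h1, h2⟩ := hmove y σ
      have e1 : d l (γ (pl m l) y) = φ y := by
        show (if l.length = m ∧ γ (pl m l) y ∈ range (γ (pl m l)) then _ else _) = _
        rw [if_pos ⟨hl, y, rfl⟩]
        exact congrFun (hw2 _) y
      have e2 : d (l.map σ) (act σ (γ (pl m l) y)) = φ y' := by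
        have e3 : γ (pl m (l.map σ)) y' = act σ (γ (pl m l) y) := by rw [pl_map hl, h2]
        rw [← e3]
        show (if (l.map σ).length = m ∧ γ (pl m (l.map σ)) y' ∈ range (γ (pl m (l.map σ))) then _
          else _) = _
        rw [if_pos ⟨by rw [List.length_map]; exact hl, y', rfl⟩]
        exact congrFun (hw2 _) y'
      rw [e1, e2, h1]
    · have h' : ¬ ((l.map σ).length = m ∧ act σ z ∈ range (γ (pl m (l.map σ)))) := by
        rintro ⟨hl, y, hy⟩
        rw [List.length_map] at hl
        obtain ⟨y', -, h2⟩ := hmove y σ.symm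
        have h3 := h2 (pl m (l.map σ))
        rw [hy, act_symm, pl_map hl] at h3
        have e : ⇑σ.symm ∘ ⇑σ ∘ pl m l = pl m l := by
          funext j
          exact σ.symm_apply_apply _
        rw [e] at h3
        exact h ⟨hl, y', h3⟩
      show (if (l.map σ).length = m ∧ act σ z ∈ range (γ (pl m (l.map σ))) then _ else _) =
        act σ (if l.length = m ∧ z ∈ range (γ (pl m l)) then _ else _)
      rw [if_neg h, if_neg h']
      rfl
  · obtain ⟨y, rfl⟩ := hin S hS
    constructor
    · show (if (List.ofFn p).length = m ∧ φ y ∈ range φ then u (pl m (List.ofFn p)) (φ y)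
        else _) = _
      rw [if_pos ⟨List.length_ofFn, y, rfl⟩, pl_ofFn]
      exact congrFun (hu2 _) y
    · show (if (List.ofFn p).length = m ∧ γ p y ∈ range (γ (pl m (List.ofFn p))) then
        w (pl m (List.ofFn p)) (γ p y) else _) = _
      rw [if_pos ⟨List.length_ofFn, y, by rw [pl_ofFn]⟩, pl_ofFn]
      exact congrFun (hw2 _) y

end one

/-- **Theorem.** First-order theories all of whose models on `ℕ` are ball structures of finite
width over finitely many parameters, by one of countably many systems of formulas. -/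
theorem theories (hL : Countable L.Symbols) (T : L.Theory) (m : ℕ → ℕ)
    (β : ∀ i, L.Formula (Fin (m i) ⊕ Fin 3)) (ψ : ∀ i, ℕ → L.Formula (Fin (m i) ⊕ Fin 2))
    (θ : ∀ i, ℕ → L.Formula (Fin (m i) ⊕ Fin 1))
    (hdet : ∀ i (p : Fin (m i) → ℕ) (S S' : L.Structure ℕ), @Theory.Model L ℕ S T →
      @Theory.Model L ℕ S' T → (∀ a b c, P3 S (β i) p a b c ↔ P3 S' (β i) p a b c) →
      (∀ k a b, P2 S (ψ i k) p a b ↔ P2 S' (ψ i k) p a b) →
      (∀ k a, P1 S (θ i k) p a ↔ P1 S' (θ i k) p a) → S = S')
    (hT : ∀ S : L.Structure ℕ, @Theory.Model L ℕ S T → ∃ i, ∃ p : Fin (m i) → ℕ,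
      BS (P3 S (β i) p) ∧ BW (P3 S (β i) p) fun k => P2 S (ψ i k) p) : FDich T := by
  classical
  have hc : Countable L.Symbols := hL
  obtain ⟨dec, hdec⟩ := exists_surjective_nat (Option L.Symbols)
  have hex := fun i => exists_coding (β i) (ψ i) (θ i) hL T hdec (hdet i)
  choose c d hcd hval using hex
  let V : RS (aS dec) → Prop := fun x => ∃ i, PExp (c i) (d i) VB x
  have hV : VCu V := Pool.Agent.TH425.FF.cun_vcu (fun i => PExp (c i) (d i) VB)
    (fun i => Pool.Agent.TH425.FF.pexp_vcu (hcd i) vcu_VB coan_VB inv_VB)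
    (fun i => Pool.Agent.TH425.FF.pexp_coan (hcd i) coan_VB)
    (fun i => Pool.Agent.TH425.FF.pexp_inv (hcd i) inv_VB)
  have hV' : VC V := Pool.Agent.H533R2.VS.vs_plain _ V hV
  -- the class of the codes of models
  have hix := cnt_ix hL
  have hBT := meas_BT hL T
  have hs : StandardBorelSpace (XL L) := inferInstance
  have hs' : StandardBorelSpace (BT T) := hBT.standardBorel
  have p1 : PolishSpace (RS (aS dec)) := Pool.Agent.TH425.FF.polish_of'
  have b1 : BorelSpace (RS (aS dec)) := inferInstance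
  have q1 : StandardBorelSpace (RS (aS dec)) := standardBorel_of_polish
  have q2 : MeasurableSpace.CountablySeparated (RS (aS dec)) :=
    MeasurableSpace.countablySeparated_of_separatesPoints
  let φ : BT T → RS (aS dec) := fun y => codS dec (toS y.1)
  have hφm : Measurable φ := meas_codS.comp measurable_subtype_coe
  have hφi : Function.Injective φ := by
    intro y y' h
    have h1 : toS y.1 = toS y'.1 := codS_inj hdec h
    refine Subtype.ext ?_
    rw [← y.2.1, ← y'.2.1, h1]
  have hφ : MeasurableEmbedding φ := hφm.measurableEmbedding hφi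
  have hin : ∀ S : L.Structure ℕ, @Theory.Model L ℕ S T → ∃ y : BT T, toS y.1 = S := by
    intro S hS
    exact ⟨⟨cd S, by rw [toS_cd], by rw [toS_cd]; exact hS⟩, toS_cd S⟩
  have hmv : ∀ x y, RIso x y → x ∈ range φ → y ∈ range φ := by
    rintro _ y hxy ⟨x, rfl⟩
    obtain ⟨σ, rfl⟩ := exk_act hxy
    obtain ⟨S', h1, h2⟩ := exists_act (toS x.1) σ
    obtain ⟨y', hy'⟩ := hin S' (h2 T x.2.2)
    refine ⟨y', ?_⟩
    show codS dec (toS y'.1) = _
    rw [hy']
    exact act_cod h1
  have hmem : ∀ x ∈ range φ, V x := by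
    rintro _ ⟨y, rfl⟩
    obtain ⟨i, p, h1, h2⟩ := hT (toS y.1) y.2.2
    obtain ⟨h3, h4⟩ := hval i (toS y.1) y.2.2 p
    refine ⟨i, List.ofFn p, ?_, ?_⟩
    · show VB (c i (List.ofFn p) (codS dec (toS y.1)))
      rw [h3]
      exact VB_GG h1 h2
    · show d i (List.ofFn p) (c i (List.ofFn p) (codS dec (toS y.1))) = codS dec (toS y.1)
      rw [h3, h4]
  have hrs : ∀ {x y : RS (aS dec)}, RIso x y → RIso y x := fun h =>
    Pool.Agent.TH783.TR.riso_symm h
  rcases hV' (range φ) hφ.measurableSet_range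
    (fun x y h => ⟨hmv x y h, hmv y x (hrs h)⟩) hmem with ⟨f, hf⟩ | ⟨g, hg1, hg2, hg3⟩
  · left
    have hch : ∀ n, ∃ S : L.Structure ℕ, f n ∈ range φ → codS dec S = f n := by
      intro n
      by_cases h : f n ∈ range φ
      · obtain ⟨y, hy⟩ := h
        exact ⟨toS y.1, fun _ => hy⟩
      · exact ⟨toS fun _ => 0, fun h1 => absurd h1 h⟩
    choose S0 hS0 using hch
    refine ⟨S0, fun S hS => ?_⟩
    obtain ⟨y, rfl⟩ := hin S hS
    obtain ⟨n, hn⟩ := hf (φ y) ⟨y, rfl⟩
    refine ⟨n, ?_⟩
    have h1 : f n ∈ range φ := hmv _ _ (hrs hn) ⟨y, rfl⟩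
    have h2 := hS0 n h1
    obtain ⟨σ, h3⟩ := hrs hn
    have h4 : IsI (toS y.1) (S0 n) σ := iso_cod hdec (fun i v => by
      rw [h2]
      exact h3 i v)
    exact h4.equiv
  · right
    have hch : ∀ A, ∃ y : BT T, φ y = g A := hg2
    choose y hy using hch
    refine ⟨fun A => toS (y A).1, fun A => (y A).2.2, ?_, ?_, ?_⟩
    · rintro A A' ⟨τ⟩
      apply hg3
      let σ : Equiv.Perm ℕ := @FirstOrder.Language.Equiv.toEquiv L ℕ ℕ (toS (y A).1)
        (toS (y A').1) τ
      have h1 : IsI (toS (y A).1) (toS (y A').1) σ :=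
        ⟨fun n F v => (@FirstOrder.Language.Equiv.map_fun' L ℕ ℕ (toS (y A).1) (toS (y A').1) τ
          n F v).symm,
        fun n R v => @FirstOrder.Language.Equiv.map_rel' L ℕ ℕ (toS (y A).1) (toS (y A').1) τ
          n R v⟩
      refine ⟨σ, fun i v => ?_⟩
      rw [← hy, ← hy]
      exact codS_iso h1 i v
    · intro n R a
      obtain ⟨i, hi⟩ := hdec (some (Sum.inr ⟨n, R⟩))
      let w : ℕ → ℕ := fun j => if hj : j < n then a ⟨j, hj⟩ else 0
      have hw : (fun j : Fin n => w j) = a := by
        funext j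
        exact dif_pos j.2
      have e : {A : ℕ → Bool | @Structure.RelMap L ℕ (toS (y A).1) n R a} =
          {A | g A i (fun j => w j) = true} := by
        ext A
        show _ ↔ g A i (fun j => w j) = true
        rw [← hy]
        show _ ↔ codS dec (toS (y A).1) i (fun j => w j) = true
        rw [codS_some hi]
        have h1 : Hld (toS (y A).1) (Sum.inr ⟨n, R⟩) (gt fun j : Fin (aS dec i) => w j) ↔
            Hld (toS (y A).1) (Sum.inr ⟨n, R⟩) w :=
          Hld_congr fun j hj => gt_lt (by rw [aS_some hi]; exact hj)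
        rw [h1]
        show _ ↔ @Structure.RelMap L ℕ (toS (y A).1) n R (fun j => w j)
        rw [hw]
        exact Iff.rfl
      rw [e]
      have h1 : Continuous fun A => g A i (fun j : Fin (aS dec i) => w j) :=
        (continuous_apply _).comp ((continuous_apply i).comp hg1)
      exact (isClopen_discrete {true}).preimage h1
    · intro n F a b
      obtain ⟨i, hi⟩ := hdec (some (Sum.inl ⟨n, F⟩))
      let w : ℕ → ℕ := fun j => if hj : j < n then a ⟨j, hj⟩ else b
      have hw : (fun j : Fin n => w j) = a := by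
        funext j
        exact dif_pos j.2
      have hwn : w n = b := dif_neg (lt_irrefl n)
      have e : {A : ℕ → Bool | @Structure.funMap L ℕ (toS (y A).1) n F a = b} =
          {A | g A i (fun j => w j) = true} := by
        ext A
        show _ ↔ g A i (fun j => w j) = true
        rw [← hy]
        show _ ↔ codS dec (toS (y A).1) i (fun j => w j) = true
        rw [codS_some hi]
        have h1 : Hld (toS (y A).1) (Sum.inl ⟨n, F⟩) (gt fun j : Fin (aS dec i) => w j) ↔
            Hld (toS (y A).1) (Sum.inl ⟨n, F⟩) w :=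
          Hld_congr fun j hj => gt_lt (by rw [aS_some hi]; exact hj)
        rw [h1]
        show _ ↔ @Structure.funMap L ℕ (toS (y A).1) n F (fun j => w j) = w n
        rw [hw, hwn]
        exact Iff.rfl
      rw [e]
      have h1 : Continuous fun A => g A i (fun j : Fin (aS dec i) => w j) :=
        (continuous_apply _).comp ((continuous_apply i).comp hg1)
      exact ((isClopen_discrete {true}).preimage h1).isOpen

end Pool.Agent.Run7.h201.CTR.BALL
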