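import Pool.Agent.Run7.h201.CTR.Comb

set_option autoImplicit false

/-!
# Coherent trees: centre chains, types of side cones, labels
-/

namespace Pool.Agent.Run7.h201.CTR

open Set
open Pool.Agent.H899R2.VP (St Adj PIso BF IsoOn idOn inv comp zipSet mem_inv BF_iff zipSet_cons
  zipSet_nil_left labels idOn_mono)
open Pool.Agent.H533R2.VO (RS lift RIso Dich resBF resIso seq_rec)
open Pool.Agent.H566P (ar R2 lt ac co mk)
open Pool.Agent.Y560.TG (lt_mk ac_mk co_mk piso_iff ex lt_ex ac_ex co_ex_even co_ex_odd piso_ex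
  bf_trans0 bf_symm0 iso_trans0 iso_symm0 iso_refl0 Off riso_isoOn riso_iff piso_lt piso_co
  piso_eq msg meas_lt meas_ac meas_co)
open Pool.Agent.Run7.h201.CS (E E_iff At piso_E piso_pair lc Mod lift_meas lift_few zip1 zip2
  gCnt gIso g_code genf_code genf_cnt_iso genf_cnt_union genf_subset_iso genf_iso_iso R0 Lev
  lift_measurable E_ex)

/-- A centre chain of the piece: all cones away from it are in the family. -/
structure Cen (S : Set (R2 × Set ℕ)) (M : R2) (m x : ℕ) (C : Set ℕ) : Prop where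
  ms : m ∈ C
  sub : C ⊆ Dn M m x
  dn : ∀ z ∈ C, ∀ y ∈ Dn M m x, le M y z → y ∈ C
  ch : ∀ z ∈ C, ∀ y ∈ C, le M z y ∨ le M y z
  bs : ∀ q ∈ Dn M m x, ∃ c ∈ C, le M c q ∧ ∀ c' ∈ C, le M c' q → le M c' c
  th : ∀ u ∈ C, ∀ q ∈ Cn M m x, lt M u q → (∀ z ∈ Cn M u q, z ∉ C) → (M, Dn M u q) ∈ S

/-- The two kinds of centres. -/
def Cf (S : Set (R2 × Set ℕ)) (b : Bool) (M : R2) (m x y : ℕ) : Set ℕ :=
  match b with
  | false => {z | z ∈ Dn M m x ∧ le M z y}
  | true => {z | z ∈ Dn M m x ∧ ∃ q ∈ Cn M m x, big S M z q}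

section

variable {K : Set R2} {S : Set (R2 × Set ℕ)} {l : Ordinal.{0}} {M N : R2} {b : Bool}
  {q : Set (ℕ × ℕ)} {m x y m' x' y' z z' : ℕ}

theorem Cf_bf (hS : Fam K S) (hl : Lev S l) (hl2 : Ordinal.omega0 ≤ l)
    (h : BF (lift M) (lift N) univ univ (l + 1 + 1) q) (hm : (m, m') ∈ q) (hx : (x, x') ∈ q)
    (hy : (y, y') ∈ q) (hz : (z, z') ∈ q) : z ∈ Cf S b M m x y ↔ z' ∈ Cf S b N m' x' y' := by
  have h0 : (0 : Ordinal.{0}) < l + 1 + 1 := lt_of_le_of_lt zero_le (lt_add_one _)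
  have h1 := dn_bf h h0 hm hx hz
  cases b with
  | false => exact and_congr h1 (piso_le h.piso hz hy)
  | true =>
    refine and_congr h1 ?_
    constructor
    · rintro ⟨w, h2, h3⟩
      obtain ⟨w', -, hb⟩ := h.forth (lt_add_one _) (mem_univ w)
      have hw : (w, w') ∈ insert (w, w') q := mem_insert _ _
      exact ⟨w', (cn_bf hb (lt_of_le_of_lt zero_le (lt_add_one _)) (Or.inr hm) (Or.inr hx)
        hw).1 h2, (big_bf hS hl hl2 hb (Or.inr hz) hw).1 h3⟩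
    · rintro ⟨w', h2, h3⟩
      obtain ⟨w, -, hb⟩ := h.back (lt_add_one _) (mem_univ w')
      have hw : (w, w') ∈ insert (w, w') q := mem_insert _ _
      exact ⟨w, (cn_bf hb (lt_of_le_of_lt zero_le (lt_add_one _)) (Or.inr hm) (Or.inr hx)
        hw).2 h2, (big_bf hS hl hl2 hb (Or.inr hz) hw).2 h3⟩

end

/-- The piece with number `i` of the enumeration. -/
def Pc (f : ℕ → R2 × ℕ × ℕ) (i : ℕ) : Set ℕ := Dn (f i).1 (f i).2.1 (f i).2.2

/-- The cone of `q` above `u` has type `i`. -/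
def ty (f : ℕ → R2 × ℕ × ℕ) (i : ℕ) (M : R2) (u q : ℕ) : Prop :=
  IsoOn (lift (f i).1) (lift M) (Pc f i) (Dn M u q) {((f i).2.1, u)}

/-- The enumeration is complete. -/
def Cov (S : Set (R2 × Set ℕ)) (K : Set R2) (f : ℕ → R2 × ℕ × ℕ) : Prop :=
  ∀ M ∈ K, ∀ u q, lt M u q → (M, Dn M u q) ∈ S → ∃ i, ty f i M u q

theorem base_iso {M N : R2} (hM : TP M) (hN : TP N) {m x m' x' : ℕ}
    (h : IsoOn (lift M) (lift N) (Dn M m x) (Dn N m' x') ∅) :
    IsoOn (lift M) (lift N) (Dn M m x) (Dn N m' x') {(m, m')} := by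
  obtain ⟨q, -, h2, h3, h4, h5⟩ := h
  obtain ⟨m1, hm1⟩ := h4 m mem_Dn_base
  obtain ⟨m0, hm0⟩ := h5 m' mem_Dn_base
  have e : m1 = m' := by
    by_contra hne
    have h6 : m1 ∈ Cn N m' x' := by
      rcases (h2 hm1).2 with h6 | h6
      · exact absurd h6 hne
      · exact h6
    have h7 : m0 ≠ m := fun h => hne ((piso_eq h3 hm1 hm0).1 h.symm)
    have h8 : m0 ∈ Cn M m x := by
      rcases (h2 hm0).1 with h8 | h8
      · exact absurd h8 h7
      · exact h8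
    exact hN.asymm (cn_lt hN h6) ((piso_lt h3 hm1 hm0).1 (cn_lt hM h8))
  rw [e] at hm1
  exact ⟨q, singleton_subset_iff.2 hm1, h2, h3, h4, h5⟩

theorem cov_ex {K : Set R2} {S : Set (R2 × Set ℕ)} (hS : Fam K S) (htp : ∀ M ∈ K, TP M) :
    ∃ f, Cov S K f := by
  obtain ⟨g, hg⟩ := hS.cnt
  obtain ⟨f, hf⟩ := g_code (C := ℕ) {P : R2 × ℕ × ℕ | P.1 ∈ K ∧ (P.1, Dn P.1 P.2.1 P.2.2) ∈ S}
    (fun c P => IsoOn (lift (g c).1) (lift P.1) (g c).2 (Dn P.1 P.2.1 P.2.2) ∅)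
    (fun P Q => IsoOn (lift P.1) (lift Q.1) (Dn P.1 P.2.1 P.2.2) (Dn Q.1 Q.2.1 Q.2.2)
      {(P.2.1, Q.2.1)}) (R0, 0, 0)
    (fun P hP => hg _ _ hP.2)
    (fun c P hP Q hQ h1 h2 => base_iso (htp _ hP.1) (htp _ hQ.1)
      (iso_trans0 (iso_symm0 h1) h2))
  exact ⟨f, fun M hM u q _ hq => hf (M, u, q) ⟨hM, hq⟩⟩

/-- The type of a cone. -/
noncomputable def ta (f : ℕ → R2 × ℕ × ℕ) (M : R2) (u q : ℕ) : ℕ := sInf {i | ty f i M u q}

theorem ta_ty {f : ℕ → R2 × ℕ × ℕ} {M : R2} {u q : ℕ} (h : ∃ i, ty f i M u q) :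
    ty f (ta f M u q) M u q := Nat.sInf_mem h

theorem ta_congr {f : ℕ → R2 × ℕ × ℕ} {M N : R2} {u q u' q' : ℕ}
    (h : ∀ i, ty f i M u q ↔ ty f i N u' q') : ta f M u q = ta f N u' q' := by
  unfold ta
  congr 1
  ext i
  exact h i

/-- `r` is in a side cone of type `i` above `u`. -/
def Sd (S : Set (R2 × Set ℕ)) (f : ℕ → R2 × ℕ × ℕ) (M : R2) (m x : ℕ) (C : Set ℕ)
    (u i r : ℕ) : Prop :=
  r ∈ Cn M m x ∧ lt M u r ∧ (∀ z ∈ Cn M u r, z ∉ C) ∧ (M, Dn M u r) ∈ S ∧ ta f M u r = i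

/-- there are `n` different side cones of type `i` above `u` -/
def lbl (S : Set (R2 × Set ℕ)) (f : ℕ → R2 × ℕ × ℕ) (M : R2) (m x : ℕ) (C : Set ℕ)
    (u i n : ℕ) : Prop :=
  ∃ g : ℕ → ℕ, (∀ a < n, Sd S f M m x C u i (g a)) ∧
    ∀ a < n, ∀ b < n, a ≠ b → g b ∉ Cn M u (g a)

/-- the labelled structure -/
noncomputable def LL (S : Set (R2 × Set ℕ)) (f : ℕ → R2 × ℕ × ℕ) (M : R2) (m x : ℕ)
    (C : Set ℕ) : R2 :=
  ex (fun k u => lbl S f M m x C u k.unpair.1 k.unpair.2) M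

/-- The representatives of the side cones of type `i` above `u`. -/
def Xt (S : Set (R2 × Set ℕ)) (f : ℕ → R2 × ℕ × ℕ) (M : R2) (m x : ℕ) (C : Set ℕ)
    (u i : ℕ) : Set ℕ :=
  {r | Sd S f M m x C u i r ∧ ∀ z ∈ Cn M u r, r ≤ z}

/-- the representative of the cone -/
noncomputable def rp (M : R2) (u q : ℕ) : ℕ := sInf (Cn M u q)

section

variable {K : Set R2} {S : Set (R2 × Set ℕ)} {f : ℕ → R2 × ℕ × ℕ} {M N : R2} {C : Set ℕ}
  {m x u i r q : ℕ}

theorem rp_mem (hM : TP M) (h : lt M u q) : rp M u q ∈ Cn M u q :=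
  Nat.sInf_mem ⟨q, self_cn hM h⟩
theorem rp_cn (hM : TP M) (h : lt M u q) : Cn M u (rp M u q) = Cn M u q :=
  cn_eq hM (rp_mem hM h)
theorem rp_le (hM : TP M) (h : lt M u q) : ∀ z ∈ Cn M u (rp M u q), rp M u q ≤ z := by
  rw [rp_cn hM h]
  exact fun z hz => Nat.sInf_le hz
theorem rp_eq {q' : ℕ} (h : Cn M u q = Cn M u q') : rp M u q = rp M u q' := by
  unfold rp; rw [h]
theorem ta_eq {q' : ℕ} (h : Cn M u q = Cn M u q') : ta f M u q = ta f M u q' := by
  refine ta_congr fun i => ?_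
  unfold ty Dn
  rw [h]
theorem dn_eq {q' : ℕ} (h : Cn M u q = Cn M u q') : Dn M u q = Dn M u q' := by
  unfold Dn; rw [h]

/-- side cones do not depend on the representative -/
theorem sd_cn (hM : TP M) (hu : u ∈ Dn M m x) {q' : ℕ} (h : Sd S f M m x C u i q)
    (hq : q' ∈ Cn M u q) : Sd S f M m x C u i q' := by
  obtain ⟨h1, h2, h3, h4, h5⟩ := h
  have e := cn_eq hM hq
  refine ⟨?_, cn_lt hM hq, ?_, ?_, ?_⟩
  · rcases hu with hu | hu
    · rw [hu] at hq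
      exact cn_tr hM h1 hq
    · exact cn_sub hM hu hq
  · rw [e]; exact h3
  · rw [dn_eq e]; exact h4
  · rw [ta_eq e]; exact h5

theorem sd_rp (hM : TP M) (hu : u ∈ Dn M m x) (h : Sd S f M m x C u i q) :
    rp M u q ∈ Xt S f M m x C u i :=
  ⟨sd_cn hM hu h (rp_mem hM h.2.1), rp_le hM h.2.1⟩

theorem xt_rp (hM : TP M) (h : r ∈ Xt S f M m x C u i) : rp M u r = r :=
  le_antisymm (Nat.sInf_le (self_cn hM h.1.2.1)) (h.2 _ (rp_mem hM h.1.2.1))

open Classical in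
theorem lbl_iff (hM : TP M) (hu : u ∈ Dn M m x) (j : ℕ) :
    lbl S f M m x C u i (j + 1) ↔
      ∀ hf : (Xt S f M m x C u i).Finite, j < hf.toFinset.card := by
  constructor
  · rintro ⟨g, h1, h2⟩ hf
    have h3 : ((Finset.range (j + 1)).image fun a => rp M u (g a)) ⊆ hf.toFinset := by
      intro r hr
      obtain ⟨a, ha, rfl⟩ := Finset.mem_image.1 hr
      rw [hf.mem_toFinset]
      exact sd_rp hM hu (h1 a (Finset.mem_range.1 ha))
    have h4 : ((Finset.range (j + 1)).image fun a => rp M u (g a)).card = j + 1 := by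
      rw [Finset.card_image_of_injOn, Finset.card_range]
      intro a ha b hb hab
      have ha' := Finset.mem_range.1 (Finset.mem_coe.1 ha)
      have hb' := Finset.mem_range.1 (Finset.mem_coe.1 hb)
      by_contra hne
      refine h2 a ha' b hb' hne ?_
      have e : rp M u (g a) = rp M u (g b) := hab
      rw [← rp_cn hM (h1 a ha').2.1, e, rp_cn hM (h1 b hb').2.1]
      exact self_cn hM (h1 b hb').2.1
    have := Finset.card_le_card h3
    omega
  · intro h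
    have hb : ∀ a < j + 1, ∀ hf : (Xt S f M m x C u i).Finite, a < hf.toFinset.card := by
      intro a ha hf
      have := h hf
      omega
    refine ⟨fun a => Nat.nth (· ∈ Xt S f M m x C u i) a, fun a ha => ?_, fun a ha b hb' hab h2 => ?_⟩
    · exact (Nat.nth_mem a (hb a ha)).1
    · have ha1 := Nat.nth_mem (p := (· ∈ Xt S f M m x C u i)) a (hb a ha)
      have hb1 := Nat.nth_mem (p := (· ∈ Xt S f M m x C u i)) b (hb b hb')
      have e : Nat.nth (· ∈ Xt S f M m x C u i) a = Nat.nth (· ∈ Xt S f M m x C u i) b := by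
        rw [← xt_rp hM ha1, ← xt_rp hM hb1]
        exact rp_eq (cn_eq hM h2).symm
      have e1 := Nat.count_nth (p := (· ∈ Xt S f M m x C u i)) (hb a ha)
      have e2 := Nat.count_nth (p := (· ∈ Xt S f M m x C u i)) (hb b hb')
      rw [e, e2] at e1
      exact hab e1.symm

end

/-! ### Transfer of the labels -/

section

variable {K : Set R2} {S : Set (R2 × Set ℕ)} {f : ℕ → R2 × ℕ × ℕ} {l : Ordinal.{0}} {M N : R2}
  {b : Bool} {q : Set (ℕ × ℕ)} {m x y m' x' y' z z' u u' r r' : ℕ}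

theorem forthN {X Y : Set ℕ} {o : Ordinal.{0}} (n : ℕ) (g : ℕ → ℕ) (hg : ∀ a < n, g a ∈ X)
    (h : BF (lift M) (lift N) X Y (o + n) q) :
    ∃ g' : ℕ → ℕ, BF (lift M) (lift N) X Y o (q ∪ {w | ∃ a < n, w = (g a, g' a)}) := by
  induction n generalizing q with
  | zero =>
    refine ⟨g, (h.mono le_self_add).subset ?_⟩
    rintro w (hw | ⟨a, ha, -⟩)
    · exact hw
    · omega
  | succ n ih =>
    have hlt : o + (n : Ordinal.{0}) < o + ((n + 1 : ℕ) : Ordinal.{0}) := by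
      gcongr
      exact Nat.lt_succ_self n
    obtain ⟨y, -, hb⟩ := h.forth hlt (hg n (Nat.lt_succ_self n))
    obtain ⟨g', hg'⟩ := ih (fun a ha => hg a (by omega)) hb
    refine ⟨Function.update g' n y, hg'.subset ?_⟩
    rintro w (hw | ⟨a, ha, rfl⟩)
    · exact Or.inl (Or.inr hw)
    · rcases Nat.lt_succ_iff_lt_or_eq.1 ha with ha | ha
      · refine Or.inr ⟨a, ha, ?_⟩
        rw [Function.update_of_ne (by omega)]
      · subst ha
        refine Or.inl (Or.inl ?_)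
        rw [Function.update_self]

theorem ty_bf (hS : Fam K S) (hl : Lev S l) (hl2 : Ordinal.omega0 ≤ l)
    (h : BF (lift M) (lift N) univ univ l q) (hu : (u, u') ∈ q) (hr : (r, r') ∈ q)
    (hm : (M, Dn M u r) ∈ S) (i : ℕ) : ty f i M u r → ty f i N u' r' := by
  intro h1
  have h2 : BF (lift M) (lift N) (Dn M u r) (Dn N u' r') l {(u, u')} :=
    (resDn hl2 hu hr h).subset (singleton_subset_iff.2 hu)
  have h3 := hl _ _ _ _ {(u, u')} hm (finite_singleton _) (by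
    rw [singleton_subset_iff]
    exact ⟨mem_Dn_base, mem_Dn_base⟩) h2
  refine (h1.trans h3).mono ?_
  rintro w rfl
  exact ⟨u, rfl, rfl⟩

theorem sd_bf (hS : Fam K S) (hl : Lev S l) (hl2 : Ordinal.omega0 ≤ l)
    (h : BF (lift M) (lift N) univ univ (l + 1 + 1 + 1) q) (hm : (m, m') ∈ q)
    (hx : (x, x') ∈ q) (hy : (y, y') ∈ q) (hu : (u, u') ∈ q) (hr : (r, r') ∈ q) {i : ℕ}
    (h1 : Sd S f M m x (Cf S b M m x y) u i r) : Sd S f N m' x' (Cf S b N m' x' y') u' i r' := by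
  obtain ⟨a1, a2, a3, a4, a5⟩ := h1
  have h0 : ∀ o : Ordinal.{0}, (0 : Ordinal.{0}) < o + 1 := fun o =>
    lt_of_le_of_lt zero_le (lt_add_one _)
  have hbl : BF (lift M) (lift N) univ univ l q :=
    h.mono (((lt_add_one l).trans (lt_add_one _)).trans (lt_add_one _)).le
  have b4 := (mem_bf hS hl hl2 hbl hu hr).1 a4
  refine ⟨(cn_bf h (h0 _) hm hx hr).1 a1, (piso_lt h.piso hu hr).1 a2, ?_, b4, ?_⟩
  · intro z' hz' hc
    obtain ⟨z, -, hb⟩ := h.back (lt_add_one _) (mem_univ z')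
    have hz : (z, z') ∈ insert (z, z') q := mem_insert _ _
    exact a3 z ((cn_bf hb (h0 _) (Or.inr hu) (Or.inr hr) hz).2 hz')
      ((Cf_bf hS hl hl2 hb (Or.inr hm) (Or.inr hx) (Or.inr hy) hz).2 hc)
  · rw [← a5]
    refine ta_congr fun i => ⟨fun h2 => ?_, fun h2 => ty_bf hS hl hl2 hbl hu hr a4 i h2⟩
    exact ty_bf hS hl hl2 hbl.symm (show (u', u) ∈ inv q from hu) (show (r', r) ∈ inv q from hr)
      b4 i h2

theorem lbl_bf (hS : Fam K S) (hl : Lev S l) (hl2 : Ordinal.omega0 ≤ l)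
    (h : BF (lift M) (lift N) univ univ (l + 1 + 1 + 1 + Ordinal.omega0) q) (hm : (m, m') ∈ q)
    (hx : (x, x') ∈ q) (hy : (y, y') ∈ q) (hu : (u, u') ∈ q) (i n : ℕ)
    (h1 : lbl S f M m x (Cf S b M m x y) u i n) :
    lbl S f N m' x' (Cf S b N m' x' y') u' i n := by
  obtain ⟨g, g1, g2⟩ := h1
  have h2 : BF (lift M) (lift N) univ univ (l + 1 + 1 + 1 + n) q :=
    h.mono (by gcongr; exact (Ordinal.natCast_lt_omega0 n).le)
  obtain ⟨g', hb⟩ := forthN n g (fun a _ => mem_univ _) h2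
  have h0 : ∀ o : Ordinal.{0}, (0 : Ordinal.{0}) < o + 1 := fun o =>
    lt_of_le_of_lt zero_le (lt_add_one _)
  refine ⟨g', fun a ha => ?_, fun a ha c hc hac h3 => ?_⟩
  · exact sd_bf hS hl hl2 hb (Or.inl hm) (Or.inl hx) (Or.inl hy) (Or.inl hu)
      (Or.inr ⟨a, ha, rfl⟩) (g1 a ha)
  · exact g2 a ha c hc hac ((cn_bf hb (h0 _) (Or.inl hu) (Or.inr ⟨a, ha, rfl⟩)
      (Or.inr ⟨c, hc, rfl⟩)).2 h3)

/-- The rank needed for the labels. -/
noncomputable def rk (l : Ordinal.{0}) : Ordinal.{0} := l + 1 + 1 + 1 + Ordinal.omega0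

/-- The labelled chains of equivalent pieces are equivalent. -/
theorem LL_bf (hS : Fam K S) (hl : Lev S l) (hl2 : Ordinal.omega0 ≤ l) {β : Ordinal.{0}}
    (h : BF (lift M) (lift N) univ univ (rk l + β) q) (hm : (m, m') ∈ q)
    (hx : (x, x') ∈ q) (hy : (y, y') ∈ q) :
    BF (lift (LL S f M m x (Cf S b M m x y))) (lift (LL S f N m' x' (Cf S b N m' x' y')))
      (Cf S b M m x y) (Cf S b N m' x' y') β {w | w ∈ q ∧ w.1 ∈ Cf S b M m x y} := by
  have h1 := Pool.Agent.Y275.TG.t_EXT M N (LL S f M m x (Cf S b M m x y))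
    (LL S f N m' x' (Cf S b N m' x' y')) univ univ (Cf S b M m x y) (Cf S b N m' x' y') q ∅
    (rk l) (subset_univ _) (subset_univ _) (fun p hp hb => ?_) β h
  · rwa [union_empty] at h1
  · rw [union_empty]
    have hb2 : BF (lift M) (lift N) univ univ (l + 1 + 1) p := hb.mono (by
      unfold rk
      exact (lt_add_one _).le.trans le_self_add)
    refine ⟨?_, ?_⟩
    · unfold LL
      rw [piso_ex]
      refine ⟨hb.piso.mono fun w hw => hw.1, fun k w hw => ?_⟩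
      constructor
      · exact lbl_bf hS hl hl2 hb (hp hm) (hp hx) (hp hy)
          (show (w.1, w.2) ∈ p from hw.1) _ _
      · refine lbl_bf hS hl hl2 hb.symm (show (m', m) ∈ inv p from hp hm)
          (show (x', x) ∈ inv p from hp hx) (show (y', y) ∈ inv p from hp hy)
          (show (w.2, w.1) ∈ inv p from hw.1) _ _
    · rintro ⟨w, w'⟩ hw
      exact Cf_bf hS hl hl2 hb2 (hp hm) (hp hx) (hp hy) hw

end

end Pool.Agent.Run7.h201.CTR
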