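import Pool.Agent.Run7.h201.CTR.Tra

set_option autoImplicit false

/-!
# Coherent trees: a labelled chain which is equivalent to a centre is a centre
-/

namespace Pool.Agent.Run7.h201.CTR

open Set
open Pool.Agent.H899R2.VP (St Adj PIso BF IsoOn idOn inv comp zipSet mem_inv BF_iff zipSet_cons
  zipSet_nil_left labels idOn_mono BF_of_total)
open Pool.Agent.H533R2.VO (RS lift RIso Dich resBF resIso seq_rec)
open Pool.Agent.H566P (ar R2 lt ac co mk)
open Pool.Agent.Y560.TG (lt_mk ac_mk co_mk piso_iff ex lt_ex ac_ex co_ex_even co_ex_odd piso_ex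
  bf_trans0 bf_symm0 iso_trans0 iso_symm0 iso_refl0 Off riso_isoOn riso_iff piso_lt piso_co
  piso_eq msg meas_lt meas_ac meas_co)
open Pool.Agent.Run7.h201.CS (E E_iff At piso_E piso_pair lc Mod lift_meas lift_few zip1 zip2
  gCnt gIso g_code genf_code genf_cnt_iso genf_cnt_union genf_subset_iso genf_iso_iso R0 Lev
  lift_measurable E_ex off_E fill)

/-- The standing hypotheses. -/
structure TA (K : Set R2) (α l δ : Ordinal.{0}) (S : Set (R2 × Set ℕ)) (f : ℕ → R2 × ℕ × ℕ)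
    (R : R2) (m x y : ℕ) (b : Bool) : Prop where
  hK : G α K
  hS : Fam K S
  hl : Lev S l
  hl2 : Ordinal.omega0 ≤ l
  cov : Cov S K f
  hα : α ≤ δ
  hδ : rk l + 1 < δ
  hR : R ∈ K
  hm : lt R m x
  cen : Cen S R m x (Cf S b R m x y)
  hy : y ∈ Cf S b R m x y

/-- The labelled chains which are equivalent to the centre of `R`. -/
def WW (δ : Ordinal.{0}) (S : Set (R2 × Set ℕ)) (f : ℕ → R2 × ℕ × ℕ)
    (R : R2) (m x y : ℕ) (b : Bool) : Set R2 :=
  {W | BF (lift (LL S f R m x (Cf S b R m x y))) (lift W) (Cf S b R m x y) univ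
    (Ordinal.omega0 * δ + 1 + 1) ∅}

theorem le_om : (0 : Ordinal.{0}) + 1 + 1 + 1 ≤ Ordinal.omega0 := by
  have : ((3 : ℕ) : Ordinal.{0}) ≤ Ordinal.omega0 := (Ordinal.natCast_lt_omega0 3).le
  refine le_trans (le_of_eq ?_) this
  norm_num

theorem om_le {δ : Ordinal.{0}} (h : 0 < δ) : Ordinal.omega0 ≤ Ordinal.omega0 * δ := by
  have h1 : (1 : Ordinal.{0}) ≤ δ := Order.one_le_iff_pos.2 h
  calc Ordinal.omega0 = Ordinal.omega0 * 1 := (mul_one _).symm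
    _ ≤ Ordinal.omega0 * δ := by gcongr

section

variable {K : Set R2} {α l δ : Ordinal.{0}} {S : Set (R2 × Set ℕ)} {f : ℕ → R2 × ℕ × ℕ}
  {R : R2} {m x y : ℕ} {b : Bool} {W : R2}

theorem TA.pos (h : TA K α l δ S f R m x y b) : 0 < δ := lt_of_le_of_lt zero_le h.hδ

theorem TA.wit (h : TA K α l δ S f R m x y b) (hW : W ∈ WW δ S f R m x y b) :
    Wit f R W univ := by
  have hW' : BF _ _ _ _ _ _ := hW
  refine wit_of (h.hK.tp R h.hR) (h.cov R h.hR) (hW'.mono ?_)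
  exact le_om.trans ((om_le h.pos).trans ((lt_add_one _).trans (lt_add_one _)).le)

theorem TA.gh (h : TA K α l δ S f R m x y b) (hW : W ∈ WW δ S f R m x y b) :
    GH S f R R m x (Cf S b R m x y) W univ :=
  gh_of (h.wit hW) (h.hK.tp R h.hR) (h.hK.law R h.hR R h.hR) h.cen (h.cov R h.hR)

/-- The facts on the variation. -/
structure DV (K : Set R2) (S : Set (R2 × Set ℕ)) (f : ℕ → R2 × ℕ × ℕ) (δ : Ordinal.{0})
    (R : R2) (m x y : ℕ) (b : Bool) (W V : R2) (wm wy yV : ℕ) (ψ : Set (ℕ × ℕ)) : Prop where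
  hV : V ∈ K
  off : Off (Cn R m x) R V
  cn : ∀ z ∈ Cn R m x, Cn V m z = Cn R m x
  sub : ψ ⊆ Yw f W univ ×ˢ Dn R m x
  pi : PIso (lift (Nw R f W)) (lift V) ψ
  tl : ∀ n ∈ Yw f W univ, ∃ c, (n, c) ∈ ψ
  tr : ∀ c ∈ Dn R m x, ∃ n, (n, c) ∈ ψ
  pm : (k0 wm, m) ∈ ψ
  py : (k0 wy, yV) ∈ ψ
  bf : BF (lift (LL S f R m x (Cf S b R m x y))) (lift W) (Cf S b R m x y) univ
        (Ordinal.omega0 * δ) {(m, wm), (y, wy)}

theorem dec0 (h : TA K α l δ S f R m x y b) (hW : W ∈ WW δ S f R m x y b) :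
    ∃ (V : R2) (wm wy yV : ℕ) (ψ : Set (ℕ × ℕ)), DV K S f δ R m x y b W V wm wy yV ψ := by
  have hRt := h.hK.tp R h.hR
  have hg := h.gh hW
  have hW' : BF _ _ _ _ _ _ := hW
  obtain ⟨wm, -, b1⟩ := hW'.forth (lt_add_one _) h.cen.ms
  obtain ⟨wy, -, b2⟩ := b1.forth (lt_add_one _) h.hy
  have hP0 : ({(m, wm), (y, wy)} : Set (ℕ × ℕ)) ⊆ Cf S b R m x y ×ˢ univ := by
    rintro w (rfl | rfl)
    · exact ⟨h.cen.ms, mem_univ _⟩
    · exact ⟨h.hy, mem_univ _⟩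
  have b3 := b2.subset (p := {(m, wm), (y, wy)}) (by
    rintro w (rfl | rfl)
    · exact Or.inr (Or.inl rfl)
    · exact Or.inl rfl)
  have b4 := gp_bf hg δ _ hP0 b3
  have pm : (m, k0 wm) ∈ GP S f R m x (Cf S b R m x y) W univ {(m, wm), (y, wy)} :=
    Or.inl ⟨m, wm, Or.inl rfl, rfl⟩
  have b5 : BF (lift R) (lift (Nw R f W)) (Dn R m x) (Yw f W univ) δ {(m, k0 wm)} :=
    b4.subset (singleton_subset_iff.2 pm)
  have hmO : m ∉ Cn R m x := base_nCn hRt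
  have b6 : BF (lift R) (lift (Nw R f W)) (Cn R m x) (Yw f W univ \ {k0 wm}) δ
      {(m, k0 wm)} := by
    refine resBF cn_dn_sub sdiff_subset (fun z hz z' hz' hp => ?_) b5
    have h1 := piso_eq hp (mem_insert _ _) (mem_insert_of_mem _ (mem_singleton (m, k0 wm)))
    constructor
    · intro h2
      exact ⟨hz', fun e => hmO (h1.2 e ▸ h2)⟩
    · intro h2
      rcases hz with e | h3
      · exact absurd (h1.1 e) h2.2
      · exact h3
  have b7 := (bf_lab (b := fun _ => m) (b' := fun _ => k0 wm) (p := {(m, k0 wm)}) (fun _ => mem_singleton _) b6).subset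
    (empty_subset _)
  obtain ⟨V, hoff, hiso, hbV, hbfV⟩ := fill (mod_cn hRt (h.hK.law R h.hR R h.hR))
    (h.hK.om.trans h.hα) b7
  have hVK : V ∈ K := h.hK.closed R h.hR V ((hbfV.mono h.hα).subset (empty_subset _))
  have hcn := fun z hz => cone_fill (z := z) hRt (h.hK.om.trans h.hα) hbfV hz
  have hp : PIso (lift (Nw R f W)) (lift V) {(k0 wm, m)} := by
    refine (b5.piso.symm.comp hbfV.piso).mono ?_
    rintro u rfl
    exact ⟨m, rfl, rfl, hmO⟩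
  obtain ⟨ψ, g1, g2, g3, g4, g5⟩ := iso_base hiso (fun h => h.2 rfl) hmO hp
  have hkY : k0 wm ∈ Yw f W univ := Or.inl ⟨wm, mem_univ _, rfl⟩
  have e1 : insert (k0 wm) (Yw f W univ \ {k0 wm}) = Yw f W univ := by
    ext z
    simp only [mem_insert_iff, mem_sdiff, mem_singleton_iff]
    constructor
    · rintro (h | h)
      · rw [h]; exact hkY
      · exact h.1
    · intro h
      by_cases h1 : z = k0 wm
      · exact Or.inl h1
      · exact Or.inr ⟨h, h1⟩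
  rw [e1] at g2 g4
  obtain ⟨yV, hyV⟩ := g4 (k0 wy) (Or.inl ⟨wy, mem_univ _, rfl⟩)
  exact ⟨V, wm, wy, yV, ψ, hVK, hoff, hcn, g2, g3, g4, g5, g1 rfl, hyV, b3⟩

variable {V : R2} {wm wy yV : ℕ} {ψ P : Set (ℕ × ℕ)}

theorem dec1 (h : TA K α l δ S f R m x y b) (hW : W ∈ WW δ S f R m x y b)
    (hd : DV K S f δ R m x y b W V wm wy yV ψ) {ξ : Ordinal.{0}}
    (hP0 : {(m, wm), (y, wy)} ⊆ P) (hP : P ⊆ Cf S b R m x y ×ˢ univ)
    (hb : BF (lift (LL S f R m x (Cf S b R m x y))) (lift W) (Cf S b R m x y) univ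
      (Ordinal.omega0 * ξ) P) :
    BF (lift R) (lift V) univ univ ξ (idOn (Cn R m x)ᶜ ∪
      comp (GP S f R m x (Cf S b R m x y) W univ P) ψ) := by
  have hg := h.gh hW
  have b1 := gp_bf hg ξ P hP hb
  have b2 := b1.comp (BF_of_total (o := ξ) hd.sub hd.pi hd.tl hd.tr)
  refine extd (mod_cn hg.tp hg.law) hd.off ξ _ ?_ ?_ b2
  · exact ⟨k0 wm, Or.inl ⟨m, wm, hP0 (Or.inl rfl), rfl⟩, hd.pm⟩
  · rintro ⟨z, z'⟩ ⟨w, hw, hw'⟩
    refine ⟨?_, (hd.sub hw').2⟩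
    rcases hw with ⟨c, v, hcv, e⟩ | ⟨u, u', i, j, k, q, huu, hl, e, hs, hj, hk, hkm⟩
    · simp only at e
      obtain ⟨rfl, -⟩ := Prod.mk.inj e
      exact h.cen.sub (hP hcv).1
    · obtain ⟨rfl, -⟩ := Prod.mk.inj e
      exact Or.inr hs.1

theorem dec2 (h : TA K α l δ S f R m x y b) (hW : W ∈ WW δ S f R m x y b)
    (hd : DV K S f δ R m x y b W V wm wy yV ψ)
    (hP0 : {(m, wm), (y, wy)} ⊆ P) (hP : P ⊆ Cf S b R m x y ×ˢ univ)
    (hb : BF (lift (LL S f R m x (Cf S b R m x y))) (lift W) (Cf S b R m x y) univ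
      (Ordinal.omega0 * (rk l + 1)) P) :
    ∃ x', Cn V m x' = Cn V m x ∧ BF (lift R) (lift V) univ univ (rk l) (insert (x, x')
      (idOn (Cn R m x)ᶜ ∪ comp (GP S f R m x (Cf S b R m x y) W univ P) ψ)) := by
  have b1 := dec1 h hW hd hP0 hP hb
  have hRt := h.hK.tp R h.hR
  obtain ⟨x', -, b2⟩ := b1.forth (lt_add_one _) (mem_univ x)
  have hx : x ∈ Cn R m x := self_cn hRt h.hm
  have hx' := (off_mem b2.piso (subset_union_left.trans (subset_insert _ _))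
    (mem_insert _ _)).1 hx
  exact ⟨x', by rw [hd.cn x' hx', hd.cn x hx], b2⟩

theorem five_le : l + 1 + 1 + 1 + 1 + 1 ≤ rk l := by
  unfold rk
  have h1 : (1 : Ordinal.{0}) + 1 ≤ Ordinal.omega0 := by
    refine le_trans ?_ le_om
    rw [zero_add]
    exact (lt_add_one _).le
  calc l + 1 + 1 + 1 + 1 + 1 = l + 1 + 1 + 1 + (1 + 1) := by rw [add_assoc (l + 1 + 1 + 1)]
    _ ≤ l + 1 + 1 + 1 + Ordinal.omega0 := by gcongr

theorem two_le : l + 1 + 1 ≤ rk l := by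
  refine le_trans ?_ (five_le (l := l))
  exact (((lt_add_one _).trans (lt_add_one _)).trans (lt_add_one _)).le

theorem lbl_iff_bf {M N : R2} {q : Set (ℕ × ℕ)} {m x y m' x' y' u u' : ℕ} (hS : Fam K S)
    (hl : Lev S l) (hl2 : Ordinal.omega0 ≤ l)
    (h : BF (lift M) (lift N) univ univ (rk l) q) (hm : (m, m') ∈ q)
    (hx : (x, x') ∈ q) (hy : (y, y') ∈ q) (hu : (u, u') ∈ q) (i n : ℕ) :
    lbl S f M m x (Cf S b M m x y) u i n ↔ lbl S f N m' x' (Cf S b N m' x' y') u' i n := by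
  constructor
  · exact lbl_bf hS hl hl2 h hm hx hy hu i n
  · exact lbl_bf hS hl hl2 h.symm (show (m', m) ∈ inv q from hm)
      (show (x', x) ∈ inv q from hx) (show (y', y) ∈ inv q from hy)
      (show (u', u) ∈ inv q from hu) i n

/-- the decoded structure sits in a structure of the class -/
theorem dec (h : TA K α l δ S f R m x y b) (hW : W ∈ WW δ S f R m x y b) :
    ∃ (V : R2) (yV : ℕ), V ∈ K ∧ lt V m x ∧ Cen S V m x (Cf S b V m x yV) ∧
      yV ∈ Cf S b V m x yV ∧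
      IsoOn (lift W) (lift (LL S f V m x (Cf S b V m x yV))) univ (Cf S b V m x yV) ∅ := by
  obtain ⟨V, wm, wy, yV, ψ, hd⟩ := dec0 h hW
  have hRt := h.hK.tp R h.hR
  have hx : x ∈ Cn R m x := self_cn hRt h.hm
  have hmO : m ∉ Cn R m x := base_nCn hRt
  have hP0 : ({(m, wm), (y, wy)} : Set (ℕ × ℕ)) ⊆ Cf S b R m x y ×ˢ univ := by
    rintro w (rfl | rfl)
    · exact ⟨h.cen.ms, mem_univ _⟩
    · exact ⟨h.hy, mem_univ _⟩
  have hlt : Ordinal.omega0 * (rk l + 1) < Ordinal.omega0 * δ := by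
    gcongr
    · exact Ordinal.omega0_pos
    · exact h.hδ
  have hDV : Dn V m x = Dn R m x := by
    unfold Dn
    rw [hd.cn x hx]
  -- the membership of the images
  have memP : ∀ P : Set (ℕ × ℕ), {(m, wm), (y, wy)} ⊆ P → P ⊆ Cf S b R m x y ×ˢ univ →
      BF (lift (LL S f R m x (Cf S b R m x y))) (lift W) (Cf S b R m x y) univ
        (Ordinal.omega0 * (rk l + 1)) P → ∀ z n z', (z, n) ∈
          GP S f R m x (Cf S b R m x y) W univ P → (n, z') ∈ ψ →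
      (z ∈ Cf S b R m x y ↔ z' ∈ Cf S b V m x yV) ∧
      ∀ i k, (lbl S f R m x (Cf S b R m x y) z i k ↔
        lbl S f V m x (Cf S b V m x yV) z' i k) := by
    intro P h1 h2 h3 z n z' h4 h5
    obtain ⟨x', e1, b1⟩ := dec2 h hW hd h1 h2 h3
    have pm : (m, m) ∈ insert (x, x') (idOn (Cn R m x)ᶜ ∪
        comp (GP S f R m x (Cf S b R m x y) W univ P) ψ) := Or.inr (Or.inl ⟨rfl, hmO⟩)
    have px : (x, x') ∈ insert (x, x') (idOn (Cn R m x)ᶜ ∪
        comp (GP S f R m x (Cf S b R m x y) W univ P) ψ) := Or.inl rfl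
    have py : (y, yV) ∈ insert (x, x') (idOn (Cn R m x)ᶜ ∪
        comp (GP S f R m x (Cf S b R m x y) W univ P) ψ) :=
      Or.inr (Or.inr ⟨k0 wy, Or.inl ⟨y, wy, h1 (Or.inr rfl), rfl⟩, hd.py⟩)
    have pz : (z, z') ∈ insert (x, x') (idOn (Cn R m x)ᶜ ∪
        comp (GP S f R m x (Cf S b R m x y) W univ P) ψ) := Or.inr (Or.inr ⟨n, h4, h5⟩)
    rw [← Cf_cn (b := b) (S := S) (y := yV) e1]
    refine ⟨Cf_bf h.hS h.hl h.hl2 (b1.mono two_le) pm px py pz, fun i k => ?_⟩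
    rw [← lbl_cn e1]
    exact lbl_iff_bf h.hS h.hl h.hl2 b1 pm px py pz i k
  obtain ⟨x', e1, b1⟩ := dec2 h hW hd Subset.rfl hP0 (hd.bf.mono hlt.le)
  have pm : (m, m) ∈ insert (x, x') (idOn (Cn R m x)ᶜ ∪
      comp (GP S f R m x (Cf S b R m x y) W univ {(m, wm), (y, wy)}) ψ) :=
    Or.inr (Or.inl ⟨rfl, hmO⟩)
  have px : (x, x') ∈ insert (x, x') (idOn (Cn R m x)ᶜ ∪
      comp (GP S f R m x (Cf S b R m x y) W univ {(m, wm), (y, wy)}) ψ) := Or.inl rfl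
  have py : (y, yV) ∈ insert (x, x') (idOn (Cn R m x)ᶜ ∪
      comp (GP S f R m x (Cf S b R m x y) W univ {(m, wm), (y, wy)}) ψ) :=
    Or.inr (Or.inr ⟨k0 wy, Or.inl ⟨y, wy, Or.inr rfl, rfl⟩, hd.py⟩)
  have hcen : Cen S V m x (Cf S b V m x yV) := by
    have := Cen_bf h.hS h.hl h.hl2 (b1.mono five_le) pm px py h.cen
    rw [Cf_cn e1] at this
    exact Cen_cn e1 this
  have hyV : yV ∈ Cf S b V m x yV :=
    (memP _ Subset.rfl hP0 (hd.bf.mono hlt.le) y (k0 wy) yV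
      (Or.inl ⟨y, wy, Or.inr rfl, rfl⟩) hd.py).1.1 h.hy
  -- back for elements of `W`
  have bk : ∀ v', ∃ v ∈ Cf S b R m x y, BF (lift (LL S f R m x (Cf S b R m x y))) (lift W)
      (Cf S b R m x y) univ (Ordinal.omega0 * (rk l + 1))
        (insert (v, v') {(m, wm), (y, wy)}) := by
    intro v'
    obtain ⟨v, hv, b2⟩ := hd.bf.back hlt (mem_univ v')
    exact ⟨v, hv, b2⟩
  refine ⟨V, yV, hd.hV, (hd.off.1 m x fun h => hmO h.1).2 h.hm, hcen, hyV,
    {w | (k0 w.1, w.2) ∈ ψ}, empty_subset _, ?_, ?_, ?_, ?_⟩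
  · rintro ⟨v', c⟩ hc
    obtain ⟨v, hv, b2⟩ := bk v'
    refine ⟨mem_univ _, ?_⟩
    exact (memP _ (subset_insert _ _) (insert_subset ⟨hv, mem_univ _⟩ hP0) b2 v (k0 v') c
      (Or.inl ⟨v, v', Or.inl rfl, rfl⟩) hc).1.1 hv
  · rw [piso_E]
    refine ⟨?_, ?_, ?_⟩
    · rintro ⟨v', c⟩ hc ⟨w', d⟩ hd'
      have h1 := piso_eq hd.pi hc hd'
      rw [k0_inj] at h1
      exact h1
    · rintro ⟨v', c⟩ hc ⟨w', d⟩ hd'
      exact (E_LL.2 ((piso_pair hd.pi hc hd').symm.trans E00)).symm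
    · rintro n ⟨v', c⟩ hc
      obtain ⟨k, rfl | rfl⟩ : ∃ k, n = 2 * k ∨ n = 2 * k + 1 := ⟨n / 2, by omega⟩
      · have h1 := piso_co hd.pi (n := k) hc
        rw [co0] at h1
        simp only
        rw [h1]
        unfold LL
        rw [co_ex_even]
      · obtain ⟨v, hv, b2⟩ := bk v'
        have h1 := (memP _ (subset_insert _ _) (insert_subset ⟨hv, mem_univ _⟩ hP0) b2 v
          (k0 v') c (Or.inl ⟨v, v', Or.inl rfl, rfl⟩) hc).2 k.unpair.1 k.unpair.2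
        have h2 := piso_co b2.piso (n := 2 * k + 1) (mem_insert (v, v') _)
        simp only
        rw [← h2]
        unfold LL
        rw [co_ex_odd, co_ex_odd]
        exact h1
  · intro v' _
    obtain ⟨c, hc⟩ := hd.tl (k0 v') (Or.inl ⟨v', mem_univ _, rfl⟩)
    exact ⟨c, hc⟩
  · intro c hc
    have hcD : c ∈ Dn R m x := by
      rw [← hDV]
      exact Cf_sub hc
    obtain ⟨n, hn⟩ := hd.tr c hcD
    rcases (hd.sub hn).1 with ⟨v, -, e⟩ | ⟨u', i, j, k, e, hl, hco, hk, hkm⟩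
    · simp only at e
      subst e
      exact ⟨v, hn⟩
    · exfalso
      simp only at e
      subst e
      obtain ⟨u, hu, b2⟩ := bk u'
      have hPU : insert (u, u') {(m, wm), (y, wy)} ⊆ Cf S b R m x y ×ˢ univ :=
        insert_subset ⟨hu, mem_univ _⟩ hP0
      obtain ⟨q, hq, hgp⟩ := gp_right (h.gh hW) b2.piso hPU (mem_insert _ _) hl hco hk hkm
      have h1 := (memP _ (subset_insert _ _) hPU b2 q _ c hgp hn).1.2 hc
      rcases hgp with ⟨c', v, -, e⟩ | ⟨u2, u2', i2, j2, k2, q2, huu, hl2, e, hs, hj, hk2, hkm2⟩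
      · exact k01 (Prod.mk.inj e).2.symm
      · obtain ⟨rfl, -⟩ := Prod.mk.inj e
        exact sd_notMem hRt hs h1

end

end Pool.Agent.Run7.h201.CTR
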