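import Pool.Agent.Run7.h201.CTR.Cls

set_option autoImplicit false

/-!
# Coherent trees: the labelled chains form a coherent class; countably many centred pieces
-/

namespace Pool.Agent.Run7.h201.CTR

open Set
open Pool.Agent.H899R2.VP (St Adj PIso BF IsoOn idOn inv comp zipSet mem_inv BF_iff zipSet_cons
  zipSet_nil_left labels idOn_mono BF_of_total)
open Pool.Agent.H533R2.VO (RS lift RIso Dich resBF resIso seq_rec)
open Pool.Agent.H566P (ar R2 lt ac co mk)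
open Pool.Agent.Y560.TG (lt_mk ac_mk co_mk piso_iff ex lt_ex ac_ex co_ex_even co_ex_odd piso_ex
  bf_trans0 bf_symm0 iso_trans0 iso_symm0 iso_refl0 Off riso_isoOn riso_iff piso_lt piso_co
  piso_eq msg meas_lt meas_ac meas_co)
open Pool.Agent.Run7.h201.CS (E E_iff At piso_E piso_pair lc Mod lift_meas lift_few zip1 zip2
  gCnt gIso g_code genf_code genf_cnt_iso genf_cnt_union genf_subset_iso genf_iso_iso R0 Lev
  lift_measurable E_ex off_E fill pul_iso riso_symm)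

section

variable {K : Set R2} {S : Set (R2 × Set ℕ)} {f : ℕ → R2 × ℕ × ℕ} {V W V' W' : R2}
  {C C' : Set ℕ} {m x m' x' : ℕ} {q q' : Set (ℕ × ℕ)}

theorem qE (h3 : PIso (lift W) (lift (LL S f V m x C)) q) {w c w' c' : ℕ} (h : (w, c) ∈ q)
    (h' : (w', c') ∈ q) : E W V w w' c c' := (E_LL.1 (piso_pair h3 h h').symm).symm

theorem le_of_nlt (hV : TP V) {a b : ℕ} (h : le V a b ∨ le V b a) (h1 : ¬ lt V b a) :
    le V a b := by
  rcases h with h | h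
  · exact h
  · rcases hV.lt_or h with h2 | h2
    · exact absurd h2 h1
    · exact h2

theorem w_wo (hV : TP V) (hc : Cen S V m x C)
    (hi : IsoOn (lift W) (lift (LL S f V m x C)) univ C ∅) : CS.WO W := by
  obtain ⟨q, -, h2, h3, h4, h5⟩ := hi
  refine ⟨fun a ha => ?_, fun a b c hab hbc => ?_, fun a b c hac => ?_⟩
  · obtain ⟨a1, ha1⟩ := h4 a (mem_univ _)
    exact hV.irr a1 ((qE h3 ha1 ha1).l.1 ha)
  · obtain ⟨a1, ha1⟩ := h4 a (mem_univ _)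
    obtain ⟨b1, hb1⟩ := h4 b (mem_univ _)
    obtain ⟨c1, hc1⟩ := h4 c (mem_univ _)
    exact (qE h3 ha1 hc1).l.2 (hV.tr _ _ _ ((qE h3 ha1 hb1).l.1 hab) ((qE h3 hb1 hc1).l.1 hbc))
  · obtain ⟨a1, ha1⟩ := h4 a (mem_univ _)
    obtain ⟨b1, hb1⟩ := h4 b (mem_univ _)
    obtain ⟨c1, hc1⟩ := h4 c (mem_univ _)
    have h6 := (qE h3 ha1 hc1).l.1 hac
    rw [(qE h3 ha1 hb1).l, (qE h3 hb1 hc1).l]
    rcases hc.ch a1 (h2 ha1).2 b1 (h2 hb1).2 with h7 | h7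
    · rcases hV.lt_or h7 with h8 | h8
      · exact Or.inl h8
      · exact Or.inr (hV.le_lt h8 h6)
    · exact Or.inr (hV.le_lt h7 h6)

theorem w_law (hV : TP V) (hL : Law V V') (hc : Cen S V m x C)
    (hi : IsoOn (lift W) (lift (LL S f V m x C)) univ C ∅)
    (hi' : IsoOn (lift W') (lift (LL S f V' m' x' C')) univ C' ∅) : CS.Law W W' := by
  obtain ⟨q, -, h2, h3, h4, h5⟩ := hi
  obtain ⟨q', -, h2', h3', h4', h5'⟩ := hi'
  intro a c b a' c' b' g1 g2 g3 g4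
  obtain ⟨a1, ha1⟩ := h4 a (mem_univ _)
  obtain ⟨b1, hb1⟩ := h4 b (mem_univ _)
  obtain ⟨c1, hc1⟩ := h4 c (mem_univ _)
  obtain ⟨a1', ha1'⟩ := h4' a' (mem_univ _)
  obtain ⟨b1', hb1'⟩ := h4' b' (mem_univ _)
  obtain ⟨c1', hc1'⟩ := h4' c' (mem_univ _)
  rw [(qE h3 hc1 ha1).l] at g1
  rw [(qE h3 hb1 hc1).l] at g2
  have e1 := le_of_nlt hV (hc.ch a1 (h2 ha1).2 c1 (h2 hc1).2) g1
  have e2 := le_of_nlt hV (hc.ch c1 (h2 hc1).2 b1 (h2 hb1).2) g2
  have e3 := ((qE h3 ha1 hc1).symm.trans g3).trans (qE h3' ha1' hc1')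
  have e4 := ((qE h3 hc1 hb1).symm.trans g4).trans (qE h3' hc1' hb1')
  exact ((qE h3 ha1 hb1).trans (hL a1 c1 b1 a1' c1' b1' e1 e2 e3 e4)).trans
    (qE h3' ha1' hb1').symm

theorem w_pc (hV : TP V) (hL : Law V V) (hP : PC V) (hc : Cen S V m x C)
    (hi : IsoOn (lift W) (lift (LL S f V m x C)) univ C ∅) : CS.PC W := by
  obtain ⟨q, -, h2, h3, h4, h5⟩ := hi
  intro A hA hne hne'
  set A' : Set ℕ := {c | ∃ w ∈ A, (w, c) ∈ q} with hA'
  have mA : ∀ w c, (w, c) ∈ q → (c ∈ A' ↔ w ∈ A) := by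
    intro w c hwc
    constructor
    · rintro ⟨w', hw', hwc'⟩
      have : w = w' := (piso_eq h3 hwc hwc').2 rfl
      rw [this]; exact hw'
    · exact fun hw => ⟨w, hw, hwc⟩
  have hAC : A' ⊆ C := by
    rintro c ⟨w, -, hwc⟩
    exact (h2 hwc).2
  have hcut : ∀ a ∈ A', ∀ c ∈ C, c ∉ A' → lt V a c := by
    rintro a ⟨w, hw, hwa⟩ c hcC hcA
    obtain ⟨w', hw'⟩ := h5 c hcC
    exact (qE h3 hwa hw').l.1 (hA w hw w' fun h => hcA ((mA _ _ hw').2 h))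
  have hmle : ∀ c ∈ C, le V m c := fun c hcC => dn_le hV (hc.sub hcC)
  obtain ⟨w0, hw0⟩ := hne
  obtain ⟨a0, ha0⟩ := h4 w0 (mem_univ _)
  have ha0A : a0 ∈ A' := ⟨w0, hw0, ha0⟩
  have hmA : m ∈ A' := by
    by_contra hm
    exact hV.lt_not_le (hcut a0 ha0A m hc.ms hm) (hmle a0 (hAC ha0A))
  set Cc : Set ℕ := {z | ∃ c ∈ C, le V z c} with hCc
  set Ac : Set ℕ := {z | ∃ a ∈ A', le V z a} with hAc
  have hCcC : C ⊆ Cc := fun c h => ⟨c, h, hV.lr c⟩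
  have hAcA : A' ⊆ Ac := fun c h => ⟨c, h, hV.lr c⟩
  have hch : ∀ z ∈ Cc, ∀ y ∈ Cc, le V z y ∨ le V y z := by
    rintro z ⟨c, hcC, hz⟩ y ⟨d, hdC, hy⟩
    rcases hc.ch c hcC d hdC with h | h
    · exact hV.lin' (hV.le_trans hz h) hy
    · exact hV.lin' hz (hV.le_trans hy h)
  have hAcC : Ac ⊆ Cc := by
    rintro z ⟨a, ha, hz⟩
    exact ⟨a, hAC ha, hz⟩
  have hcut2 : ∀ z ∈ Ac, ∀ y ∈ Cc, y ∉ Ac → lt V z y := by
    rintro z ⟨a, ha, hz⟩ y hy hyA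
    have h6 : ¬ le V y a := fun h => hyA ⟨a, ha, h⟩
    rcases hch y hy a (hCcC (hAC ha)) with h7 | h7
    · exact absurd h7 h6
    · exact hV.le_lt hz (hV.lt_of h7 h6)
  have hCA : ∀ c ∈ C, c ∉ A' → c ∈ Cc \ Ac := by
    intro c hcC hcA
    refine ⟨hCcC hcC, ?_⟩
    rintro ⟨a, ha, hle⟩
    exact hV.lt_not_le (hcut a ha c hcC hcA) hle
  have hin : ∀ z ∈ Cc, lt V m z → z ∈ C := by
    rintro z ⟨c, hcC, hz⟩ hmz
    have h6 : lt V m c := hV.lt_le hmz hz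
    have h7 : c ∈ Cn V m x := by
      rcases hc.sub hcC with h8 | h8
      · rw [h8] at h6
        exact absurd h6 (hV.irr m)
      · exact h8
    exact hc.dn c hcC z (Or.inr (cn_dn hV h7 hmz hz)) hz
  obtain ⟨w1, hw1⟩ := hne'
  obtain ⟨c1, hc1⟩ := h4 w1 (mem_univ _)
  have hc1A : c1 ∉ A' := fun h => hw1 ((mA _ _ hc1).1 h)
  obtain ⟨⟨b, hb1, hb2⟩, a, ha1, ha2⟩ := hP Cc Ac (by
      rintro z ⟨c, hcC, hz⟩ y hy
      exact ⟨c, hcC, hV.le_trans hy hz⟩) hch hAcC hcut2 ⟨a0, hAcA ha0A⟩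
    ⟨c1, hCA c1 (h2 hc1).2 hc1A⟩
  constructor
  · have hmb : lt V m b := hcut2 m (hAcA hmA) b hb1.1 hb1.2
    have hbC : b ∈ C := hin b hb1.1 hmb
    obtain ⟨wb, hwb⟩ := h5 b hbC
    refine ⟨wb, fun h => hb1.2 (hAcA ((mA _ _ hwb).2 h)), fun z hz z' hz' hE w hw => ?_⟩
    obtain ⟨z1, hz1⟩ := h4 z (mem_univ _)
    obtain ⟨z1', hz1'⟩ := h4 z' (mem_univ _)
    obtain ⟨u1, hu1⟩ := h4 w (mem_univ _)
    have e1 := ((qE h3 hz1 hwb).symm.trans hE).trans (qE h3 hz1' hwb)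
    have e2 := hb2 z1 (hAcA ⟨z, hz, hz1⟩) z1' (hAcA ⟨z', hz', hz1'⟩) e1 u1
      (hCA u1 (h2 hu1).2 fun h => hw ((mA _ _ hu1).1 h))
    exact ((qE h3 hz1 hu1).trans e2).trans (qE h3 hz1' hu1).symm
  · -- a representative in `C`
    have key : ∃ a1 ∈ A', ∀ w ∈ C, w ∉ A' → ∀ w' ∈ C, w' ∉ A' → E V V a1 w a1 w' →
        ∀ z ∈ A', E V V z w z w' := by
      by_cases haC : a ∈ C
      · refine ⟨a, ?_, fun w hw hwA w' hw' hwA' hE z hz => ?_⟩
        · by_contra h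
          exact (hCA a haC h).2 ha1
        · exact ha2 w (hCA w hw hwA) w' (hCA w' hw' hwA') hE z (hAcA hz)
      · refine ⟨m, hmA, fun w hw hwA w' hw' hwA' hE z hz => ?_⟩
        have ham : le V a m := by
          rcases hch a (hAcC ha1) m (hCcC hc.ms) with h | h
          · exact h
          · rcases hV.lt_or h with h | h
            · exact absurd (hin a (hAcC ha1) h) haC
            · exact h
        exact ha2 w (hCA w hw hwA) w' (hCA w' hw' hwA')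
          (hL a m w a m w' ham (hmle w hw) E.rfl hE) z (hAcA hz)
    obtain ⟨a1, ha1, ha2⟩ := key
    obtain ⟨wa, hwa, hwa'⟩ := ha1
    refine ⟨wa, hwa, fun w hw w' hw' hE z hz => ?_⟩
    obtain ⟨z1, hz1⟩ := h4 z (mem_univ _)
    obtain ⟨w1, hw1⟩ := h4 w (mem_univ _)
    obtain ⟨w1', hw1'⟩ := h4 w' (mem_univ _)
    have e1 := ((qE h3 hwa' hw1).symm.trans hE).trans (qE h3 hwa' hw1')
    have e2 := ha2 w1 (h2 hw1).2 (fun h => hw ((mA _ _ hw1).1 h)) w1' (h2 hw1').2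
      (fun h => hw' ((mA _ _ hw1').1 h)) e1 z1 ⟨z, hz, hz1⟩
    exact ((qE h3 hz1 hw1).trans e2).trans (qE h3 hz1 hw1').symm

end

theorem card_lt {δ : Ordinal.{0}} : δ < Ordinal.omega 1 ↔ δ.card < Cardinal.aleph 1 := by
  rw [← Cardinal.ord_aleph, Cardinal.lt_ord]

theorem om_mul_lt {δ : Ordinal.{0}} (h : δ < Ordinal.omega 1) :
    Ordinal.omega0 * δ < Ordinal.omega 1 := by
  rw [card_lt] at h ⊢
  rw [Ordinal.card_mul]
  refine Cardinal.mul_lt_of_lt (Cardinal.aleph0_le_aleph 1) ?_ h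
  rw [Ordinal.card_omega0]
  exact Cardinal.aleph0_lt_aleph_one

theorem succ_lt1 {δ : Ordinal.{0}} (h : δ < Ordinal.omega 1) : δ + 1 < Ordinal.omega 1 :=
  (Cardinal.isSuccLimit_omega 1).add_one_lt h

theorem add_lt1 {δ ε : Ordinal.{0}} (h : δ < Ordinal.omega 1) (h' : ε < Ordinal.omega 1) :
    δ + ε < Ordinal.omega 1 := Ordinal.isPrincipal_add_omega 1 h h'

theorem rk_lt {l : Ordinal.{0}} (h : l < Ordinal.omega 1) : rk l < Ordinal.omega 1 :=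
  add_lt1 (succ_lt1 (succ_lt1 (succ_lt1 h))) Ordinal.omega0_lt_omega_one

theorem zip3 (x x' y y' z z' : ℕ) : zipSet [x, y, z] [x', y', z'] =
    {(x, x'), (y, y'), (z, z')} := by
  rw [zipSet_cons, zip2]

section

variable {K : Set R2} {α l δ : Ordinal.{0}} {S : Set (R2 × Set ℕ)} {f : ℕ → R2 × ℕ × ℕ}
  {R : R2} {m x y : ℕ} {b : Bool} {W : R2}

theorem ww_meas (hδ : δ < Ordinal.omega 1) : MeasurableSet (WW δ S f R m x y b) :=
  msg ar (lift (LL S f R m x (Cf S b R m x y))) (Cf S b R m x y) R2 lift (fun _ => univ)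
    lift_measurable (fun z => by simp) _ (succ_lt1 (succ_lt1 (om_mul_lt hδ))) ∅

theorem ww_inv {W W' : R2} (h : RIso W W') (hW : W ∈ WW δ S f R m x y b) :
    W' ∈ WW δ S f R m x y b := bf_trans0 hW ((riso_isoOn.1 h).bf _)

theorem ww_thin (h : TA K α l δ S f R m x y b) (hδ : δ < Ordinal.omega 1) :
    ∃ g : ℕ → R2, ∀ W ∈ WW δ S f R m x y b, ∃ n, RIso (g n) W := by
  have hdich : Dich (WW δ S f R m x y b) := by
    refine Pool.Agent.Run7.h201.CS.dich (WW δ S f R m x y b) (ww_meas hδ) (fun _ _ => ww_inv)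
      (fun W hW => ?_) (fun W hW W' hW' => ?_) (fun W hW => ?_)
    · obtain ⟨V, yV, a1, a2, a3, a4, a5⟩ := dec h hW
      exact w_wo (h.hK.tp V a1) a3 a5
    · obtain ⟨V, yV, a1, a2, a3, a4, a5⟩ := dec h hW
      obtain ⟨V', yV', b1, b2, b3, b4, b5⟩ := dec h hW'
      exact w_law (h.hK.tp V a1) (h.hK.law V a1 V' b1) a3 a5 b5
    · obtain ⟨V, yV, a1, a2, a3, a4, a5⟩ := dec h hW
      exact w_pc (h.hK.tp V a1) (h.hK.law V a1 V a1) (h.hK.pc V a1) a3 a5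
  rcases hdich with h1 | ⟨g, g1, g2, g3⟩
  · exact h1
  · exfalso
    refine few_sc (L := WW δ S f R m x y b) (fun β hβ => ?_) g g1 g2 g3
    obtain ⟨c, hc⟩ := lab h.hK (β := rk l + β) (by
      refine add_lt1 (lt_of_le_of_lt ?_ hδ) hβ
      exact (lt_add_one _).le.trans h.hδ.le)
    classical
    have hex : ∀ W : R2, ∃ P : R2 × ℕ, W ∈ WW δ S f R m x y b → P.1 ∈ K ∧
        lt P.1 m x ∧ Cen S P.1 m x (Cf S b P.1 m x P.2) ∧ P.2 ∈ Cf S b P.1 m x P.2 ∧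
        IsoOn (lift W) (lift (LL S f P.1 m x (Cf S b P.1 m x P.2))) univ
          (Cf S b P.1 m x P.2) ∅ := by
      intro W
      by_cases hW : W ∈ WW δ S f R m x y b
      · obtain ⟨V, yV, hh⟩ := dec h hW
        exact ⟨(V, yV), fun _ => hh⟩
      · exact ⟨(W, 0), fun h => absurd h hW⟩
    choose P hP using hex
    refine ⟨fun W => c (P W).1 [m, x, (P W).2], fun W hW W' hW' he => ?_⟩
    obtain ⟨a1, a2, a3, a4, a5⟩ := hP W hW
    obtain ⟨b1, b2, b3, b4, b5⟩ := hP W' hW'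
    have h2 := hc _ a1 _ b1 [m, x, (P W).2] [m, x, (P W').2] rfl he
    rw [zip3] at h2
    have h3 := LL_bf (f := f) (b := b) h.hS h.hl h.hl2 h2 (Or.inl rfl) (Or.inr (Or.inl rfl))
      (Or.inr (Or.inr rfl))
    exact bf_trans0 (bf_trans0 (a5.bf β) (h3.subset (empty_subset _))) (bf_symm0 (b5.bf β))

end

/-- Countably many types of centred pieces. -/
theorem cls0 {K : Set R2} {α : Ordinal.{0}} {S : Set (R2 × Set ℕ)} (hK : G α K)
    (hS : Fam K S) (b : Bool) : ∃ g : ℕ → R2 × Set ℕ, ∀ M ∈ K, ∀ m x y, lt M m x →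
      Cen S M m x (Cf S b M m x y) → y ∈ Cf S b M m x y →
      ∃ n, IsoOn (lift (g n).1) (lift M) (g n).2 (Dn M m x) ∅ := by
  classical
  obtain ⟨f, hf⟩ := cov_ex hS hK.tp
  obtain ⟨l, hl1, hl2, hl⟩ := lev hS
  set δ : Ordinal.{0} := max α (rk l + 1 + 1) with hδd
  have hδ1 : δ < Ordinal.omega 1 := max_lt hK.lt1 (succ_lt1 (succ_lt1 (rk_lt hl1)))
  set γ : Ordinal.{0} := Ordinal.omega0 * δ + 1 + 1 with hγd
  have hγ1 : γ < Ordinal.omega 1 := succ_lt1 (succ_lt1 (om_mul_lt hδ1))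
  obtain ⟨c, hc⟩ := lab hK (add_lt1 (rk_lt hl1) hγ1)
  have hδpos : 0 < δ := lt_of_lt_of_le (lt_of_le_of_lt zero_le (lt_add_one _)) (le_max_right _ _)
  have hγω : Ordinal.omega0 ≤ γ :=
    (om_le hδpos).trans ((lt_add_one _).trans (lt_add_one _)).le
  have hγ3 : (0 : Ordinal.{0}) + 1 + 1 + 1 ≤ γ := le_om.trans hγω
  have hTA : ∀ R ∈ K, ∀ m x y, lt R m x → Cen S R m x (Cf S b R m x y) →
      y ∈ Cf S b R m x y → TA K α l δ S f R m x y b := fun R hR m x y h1 h2 h3 =>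
    ⟨hK, hS, hl, hl2, hf, le_max_left _ _, lt_of_lt_of_le (lt_add_one _) (le_max_right _ _), hR,
      h1, h2, h3⟩
  have hg : ∀ κ : ℕ, ∃ g : ℕ → R2 × Set ℕ, ∀ M ∈ K, ∀ m x y, lt M m x →
      Cen S M m x (Cf S b M m x y) → y ∈ Cf S b M m x y → c M [m, x, y] = κ →
      ∃ n, IsoOn (lift (g n).1) (lift M) (g n).2 (Dn M m x) ∅ := by
    intro κ
    by_cases h : ∃ M ∈ K, ∃ m x y, lt M m x ∧ Cen S M m x (Cf S b M m x y) ∧
        y ∈ Cf S b M m x y ∧ c M [m, x, y] = κ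
    · obtain ⟨R, hR, m, x, y, h1, h2, h3, h4⟩ := h
      have hT := hTA R hR m x y h1 h2 h3
      obtain ⟨g, hg⟩ := ww_thin hT hδ1
      have hRt := hK.tp R hR
      refine ⟨fun n => if n = 0 then (Nw R f (LL S f R m x (Cf S b R m x y)),
        Yw f (LL S f R m x (Cf S b R m x y)) (Cf S b R m x y)) else
        (Nw R f (g (n - 1)), Yw f (g (n - 1)) univ), ?_⟩
      intro M hM m' x' y' h1' h2' h3' h4'
      have hMt := hK.tp M hM
      have hbf := hc R hR M hM [m, x, y] [m', x', y'] rfl (by rw [h4, h4'])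
      rw [zip3] at hbf
      have hLL := (LL_bf (f := f) (b := b) hS hl hl2 hbf (Or.inl rfl) (Or.inr (Or.inl rfl))
        (Or.inr (Or.inr rfl))).subset (empty_subset _)
      by_cases hfin : (Cf S b M m' x' y').Finite
      · refine ⟨0, ?_⟩
        simp only [if_true]
        have h5 := Pool.Agent.H533R2.VO.t_FIN ar _ _ _ _ hfin ((bf_symm0 hLL).mono hγω)
        have hw : Wit f R (LL S f R m x (Cf S b R m x y)) (Cf S b R m x y) :=
          wit_of hRt (hf R hR) (((BF.refl _ _ _).subset (empty_subset _)))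
        have hgh := gh_of hw hMt (hK.law R hR M hM) h2' (hf M hM)
        exact iso_symm0 ((gp_iso hgh h5).mono (empty_subset _))
      · obtain ⟨W, hW⟩ := pul_iso (LL S f M m' x' (Cf S b M m' x' y')) hfin
        have hWW : W ∈ WW δ S f R m x y b := bf_trans0 hLL ((iso_symm0 hW).bf γ)
        obtain ⟨n, hn⟩ := hg W hWW
        have hgn : g n ∈ WW δ S f R m x y b := ww_inv (riso_symm hn) hWW
        refine ⟨n + 1, ?_⟩
        simp only [Nat.succ_ne_zero, if_false, Nat.add_sub_cancel]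
        have hgh := gh_of (hT.wit hgn) hMt (hK.law R hR M hM) h2' (hf M hM)
        have h6 : IsoOn (lift (LL S f M m' x' (Cf S b M m' x' y'))) (lift (g n))
            (Cf S b M m' x' y') univ ∅ :=
          iso_trans0 (iso_symm0 hW) (iso_symm0 (riso_isoOn.1 hn))
        exact iso_symm0 ((gp_iso hgh h6).mono (empty_subset _))
    · exact ⟨fun _ => (R0, ∅), fun M hM m x y h1 h2 h3 h4 =>
        absurd ⟨M, hM, m, x, y, h1, h2, h3, h4⟩ h⟩
  choose g hg using hg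
  refine ⟨fun n => g n.unpair.1 n.unpair.2, fun M hM m x y h1 h2 h3 => ?_⟩
  obtain ⟨n, hn⟩ := hg (c M [m, x, y]) M hM m x y h1 h2 h3 rfl
  refine ⟨Nat.pair (c M [m, x, y]) n, ?_⟩
  simp only [Nat.unpair_pair]
  exact hn

/-- CLS -/
theorem cls {K : Set R2} {α : Ordinal.{0}} {S : Set (R2 × Set ℕ)} (hK : G α K)
    (hS : Fam K S) : ∃ S' : Set (R2 × Set ℕ), Fam K S' ∧ S ⊆ S' ∧ ∀ b, ∀ M ∈ K, ∀ m x y,
      lt M m x → Cen S M m x (Cf S b M m x y) → y ∈ Cf S b M m x y → (M, Dn M m x) ∈ S' := by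
  obtain ⟨g0, hg0⟩ := hS.cnt
  obtain ⟨g1, hg1⟩ := cls0 hK hS false
  obtain ⟨g2, hg2⟩ := cls0 hK hS true
  obtain ⟨S', hS', hf'⟩ := genf hK.tp (fun n => if n.unpair.1 = 0 then g0 n.unpair.2 else
    if n.unpair.1 = 1 then g1 n.unpair.2 else g2 n.unpair.2)
  have e0 : ∀ n, g0 n ∈ S' := fun n => by
    have := hf' (Nat.pair 0 n)
    simpa using this
  have e1 : ∀ n, g1 n ∈ S' := fun n => by
    have := hf' (Nat.pair 1 n)
    simpa using this
  have e2 : ∀ n, g2 n ∈ S' := fun n => by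
    have := hf' (Nat.pair 2 n)
    simpa using this
  refine ⟨S', hS', ?_, ?_⟩
  · rintro ⟨M, X⟩ h
    obtain ⟨n, hn⟩ := hg0 M X h
    exact hS'.iso _ _ _ _ (e0 n) hn
  · rintro (_ | _) M hM m x y h1 h2 h3
    · obtain ⟨n, hn⟩ := hg1 M hM m x y h1 h2 h3
      exact hS'.iso _ _ _ _ (e1 n) hn
    · obtain ⟨n, hn⟩ := hg2 M hM m x y h1 h2 h3
      exact hS'.iso _ _ _ _ (e2 n) hn

end Pool.Agent.Run7.h201.CTR
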