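import Pool.Agent.Run7.h201.CTR.Small

set_option autoImplicit false

/-!
# Coherent trees: combs contradict the hypothesis of few structures
-/

namespace Pool.Agent.Run7.h201.CTR

open Set
open Pool.Agent.H899R2.VP (St Adj PIso BF IsoOn idOn inv comp zipSet mem_inv BF_iff zipSet_cons
  zipSet_nil_left labels idOn_mono)
open Pool.Agent.H533R2.VO (RS lift RIso Dich resBF resIso seq_rec)
open Pool.Agent.H566P (ar R2 lt ac co mk)
open Pool.Agent.Y560.TG (lt_mk ac_mk co_mk piso_iff ex lt_ex ac_ex co_ex_even co_ex_odd piso_ex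
  bf_trans0 bf_symm0 iso_trans0 iso_symm0 iso_refl0 Off riso_isoOn riso_iff piso_lt piso_co
  piso_eq msg meas_lt meas_ac meas_co)
open Pool.Agent.Run7.h201.CS (E E_iff At piso_E piso_pair lc Mod lift_meas lift_few zip1 zip2
  gCnt gIso g_code genf_code genf_cnt_iso genf_cnt_union genf_subset_iso genf_iso_iso R0 Lev
  lift_measurable fill iso_add Glu Glu_in Glu_co Glu_out Glu_co_out Glu_cont glu_bf off_E
  iso_agree)

/-- The sets of the comb. -/
def Xc (M : R2) (a x : ℕ → ℕ) (k : ℕ) : Set ℕ := Cn M (a k) (x k)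

/-- Combs. -/
structure Cb (K : Set R2) (α : Ordinal.{0}) (M : R2) (a x j : ℕ → ℕ) : Prop where
  tp : TP M
  lt : ∀ k, Pool.Agent.H566P.lt M (a k) (x k)
  dj : ∀ k i, k ≠ i → Disjoint (Xc M a x k) (Xc M a x i)
  m1 : ∀ k, le M (j k) (x k)
  m2 : ∀ k, le M (j k) (x (k + 1))
  m3 : ∀ k z, le M z (x k) → le M z (x (k + 1)) → le M z (j k)
  ja : ∀ k, le M (j k) (a k)
  jj : ∀ k, le M (j k) (j (k + 1))
  xj : ∀ k, ∀ z ∈ Xc M a x k, ¬ le M (j (k + 1)) z
  ns : ∀ k, ¬ Small K α M (a k) (x k)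

section comb

variable {K : Set R2} {α : Ordinal.{0}} {M : R2} {a x j : ℕ → ℕ}

theorem Cb.jmono (h : Cb K α M a x j) {k i : ℕ} (hki : k ≤ i) : le M (j k) (j i) := by
  induction i, hki using Nat.le_induction with
  | base => exact h.tp.lr _
  | succ i _ ih => exact h.tp.le_trans ih (h.jj i)

theorem Cb.xin (h : Cb K α M a x j) {k i : ℕ} (hki : k ≤ i) {z : ℕ} (hz : z ∈ Xc M a x i) :
    le M (j k) z :=
  h.tp.le_trans (h.jmono hki) (h.tp.le_trans (h.ja i) (Or.inl (cn_lt h.tp hz)))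

theorem Cb.xout (h : Cb K α M a x j) {k i : ℕ} (hki : i < k) {z : ℕ} (hz : z ∈ Xc M a x i) :
    ¬ le M (j k) z := fun h1 => h.xj i z hz (h.tp.le_trans (h.jmono hki) h1)

theorem Cb.jn (h : Cb K α M a x j) (k i : ℕ) : j k ∉ Xc M a x i := by
  intro h1
  rcases Nat.lt_or_ge i k with h2 | h2
  · exact h.xout h2 h1 (h.tp.lr _)
  · exact h.tp.lt_not_le (cn_lt h.tp h1) (h.tp.le_trans (h.jmono h2) (h.ja i))

theorem Cb.xself (h : Cb K α M a x j) (k : ℕ) : x k ∈ Xc M a x k := self_cn h.tp (h.lt k)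

theorem Cb.an (h : Cb K α M a x j) (k i : ℕ) : a k ∉ Xc M a x i := by
  intro h1
  rcases Nat.lt_trichotomy i k with h2 | h2 | h2
  · exact h.xout h2 h1 (h.ja k)
  · subst h2
    exact base_nCn h.tp h1
  · have h3 : x k ∈ Xc M a x i := cn_up h.tp h1 (Or.inl (h.lt k))
    exact Set.disjoint_left.1 (h.dj _ _ (by omega)) (h.xself k) h3

end comb

/-- The structure obtained by filling the cones of the comb according to the bits of `σ`. -/
noncomputable def DS (M : R2) (a x : ℕ → ℕ) (t : ℕ → R2) (σ : ℕ → Bool) : R2 :=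
  Glu M (Xc M a x) (fun k => t (2 * k + (σ k).toNat))

/-- Truncation. -/
noncomputable def trunc (M : R2) (t : ℕ → R2) (s : ℕ) : ℕ → R2 :=
  fun r => if r < s then t r else M

/-- The countable set of pieces to be avoided at stage `s`. -/
def FF (M : R2) (a x : ℕ → ℕ) (t : ℕ → R2) (s : ℕ) : Set (R2 × Set ℕ) :=
  {P | ∃ r ≤ s, ∃ c u y : ℕ, P = (DS M a x (trunc M t r) (fun j => c.testBit j),
    Dn (DS M a x (trunc M t r) (fun j => c.testBit j)) u y)}

/-- What the recursion provides. -/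
def GoodS (K : Set R2) (α : Ordinal.{0}) (M : R2) (a x : ℕ → ℕ) (s : ℕ)
    (F : Set (R2 × Set ℕ)) (T : R2) : Prop :=
  Off (Xc M a x (s / 2)) M T ∧
    BF (lift (lc M fun _ => a (s / 2))) (lift (lc T fun _ => a (s / 2)))
      (Xc M a x (s / 2)) (Xc M a x (s / 2)) α ∅ ∧
    T ∈ K ∧ (∀ z ∈ Xc M a x (s / 2), Cn T (a (s / 2)) z = Xc M a x (s / 2)) ∧
    ∀ P ∈ F, ¬ IsoOn (lift P.1) (lift T) P.2 (insert (a (s / 2)) (Xc M a x (s / 2))) ∅

/-- Good fillings. -/
def GoodT (K : Set R2) (α : Ordinal.{0}) (M : R2) (a x : ℕ → ℕ) (t : ℕ → R2) : Prop :=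
  ∀ s, GoodS K α M a x s (FF M a x t s) (t s)

theorem seq_trunc {M : R2} {t t' : ℕ → R2} {s r : ℕ} (h : ∀ i < s, t i = t' i)
    (hr : r ≤ s) : trunc M t r = trunc M t' r := by
  funext i
  unfold trunc
  by_cases hi : i < r
  · simp only [hi, if_true]
    rw [h i (by omega)]
  · simp only [hi, if_false]

theorem seq_FF_congr {M : R2} {a x : ℕ → ℕ} {t t' : ℕ → R2} {s : ℕ}
    (h : ∀ i < s, t i = t' i) : FF M a x t s = FF M a x t' s := by
  ext P
  unfold FF
  simp only [Set.mem_ofPred_eq]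
  refine exists_congr fun r => and_congr_right fun hr => ?_
  rw [seq_trunc h hr]

theorem seq_FF_countable (M : R2) (a x : ℕ → ℕ) (t : ℕ → R2) (s : ℕ) :
    (FF M a x t s).Countable := by
  have h : FF M a x t s ⊆ Set.range (fun q : ℕ × ℕ × ℕ × ℕ =>
      ((DS M a x (trunc M t q.1) (fun j => q.2.1.testBit j),
        Dn (DS M a x (trunc M t q.1) (fun j => q.2.1.testBit j)) q.2.2.1 q.2.2.2) :
        R2 × Set ℕ)) := by
    rintro P ⟨r, _, c, u, y, rfl⟩
    exact ⟨(r, c, u, y), rfl⟩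
  exact (Set.countable_range _).mono h

theorem FF_mono {M : R2} {a x : ℕ → ℕ} {t : ℕ → R2} {s s' : ℕ} (h : s ≤ s')
    {P : R2 × Set ℕ} (hP : P ∈ FF M a x t s) : P ∈ FF M a x t s' := by
  obtain ⟨r, hr, c, u, y, e⟩ := hP
  exact ⟨r, hr.trans h, c, u, y, e⟩

section

variable {K : Set R2} {α : Ordinal.{0}} {M : R2} {a x j : ℕ → ℕ}

theorem seqT (hK : G α K) (hM : M ∈ K) (h : Cb K α M a x j) :
    ∃ t : ℕ → R2, GoodT K α M a x t := by
  have key : ∃ t : ℕ → R2, ∀ s, GoodS K α M a x s (FF M a x t s) (t s) := by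
    refine seq_rec (X := R2) M (fun s t σ => GoodS K α M a x s (FF M a x t s) σ) ?_ ?_
    · intro s t
      obtain ⟨T, h1, h2, h3, h4, h5⟩ := fillS hK hM (h.ns (s / 2)) (h.lt (s / 2))
        (FF M a x t s) (seq_FF_countable M a x t s)
      exact ⟨T, h1, h2, h3, h4, h5⟩
    · intro s t t' σ htt hσ
      rw [← seq_FF_congr htt]
      exact hσ
  exact key

theorem code_div (n : ℕ) (b : Bool) : (2 * n + b.toNat) / 2 = n := by
  cases b
  · simp
  · simp only [Bool.toNat_true]; omega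

/-- The standing assumptions of the decoding. -/
structure SU (K : Set R2) (α : Ordinal.{0}) (M : R2) (a x j : ℕ → ℕ) (t : ℕ → R2) : Prop where
  hK : G α K
  hM : M ∈ K
  cb : Cb K α M a x j
  gt : GoodT K α M a x t

variable {t : ℕ → R2}

theorem SU.good (h : SU K α M a x j t) (σ : ℕ → Bool) (k : ℕ) :
    Off (Xc M a x k) M (t (2 * k + (σ k).toNat)) ∧
    BF (lift (lc M fun _ => a k)) (lift (lc (t (2 * k + (σ k).toNat)) fun _ => a k))
      (Xc M a x k) (Xc M a x k) α ∅ ∧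
    t (2 * k + (σ k).toNat) ∈ K ∧
    (∀ z ∈ Xc M a x k, Cn (t (2 * k + (σ k).toNat)) (a k) z = Xc M a x k) ∧
    ∀ P ∈ FF M a x t (2 * k + (σ k).toNat), ¬ IsoOn (lift P.1)
      (lift (t (2 * k + (σ k).toNat))) P.2 (insert (a k) (Xc M a x k)) ∅ := by
  have := h.gt (2 * k + (σ k).toNat)
  unfold GoodS at this
  rwa [code_div] at this

theorem SU.mem (h : SU K α M a x j t) (σ : ℕ → Bool) : DS M a x t σ ∈ K := by
  refine h.hK.closed M h.hM _ ((glu_bf h.cb.dj (b := fun k _ => a k)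
    (fun k => mod_cn h.cb.tp (h.hK.law M h.hM M h.hM)) (fun k => (h.good σ k).1)
    (fun k => (h.good σ k).2.1)).subset (empty_subset _))

theorem SU.tp (h : SU K α M a x j t) (σ : ℕ → Bool) : TP (DS M a x t σ) := h.hK.tp _ (h.mem σ)

theorem SU.out (h : SU K α M a x j t) (σ : ℕ → Bool) {u v : ℕ}
    (huv : ∀ k, u ∈ Xc M a x k → v ∉ Xc M a x k) : E (DS M a x t σ) M u v u v := by
  have := h
  exact Glu_out huv

theorem SU.inn (h : SU K α M a x j t) (σ : ℕ → Bool) {k u v : ℕ} (hu : u ∈ Xc M a x k)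
    (hv : v ∈ Xc M a x k) : E (DS M a x t σ) (t (2 * k + (σ k).toNat)) u v u v :=
  Glu_in (V := fun k => t (2 * k + (σ k).toNat)) h.cb.dj hu hv

theorem SU.apart (h : SU K α M a x j t) {k u v : ℕ} (hu : u ∈ Xc M a x k)
    (hv : v ∉ Xc M a x k) : ∀ i, u ∈ Xc M a x i → v ∉ Xc M a x i := by
  intro i hi
  have : k = i := by
    by_contra hne
    exact Set.disjoint_left.1 (h.cb.dj _ _ hne) hu hi
  rwa [← this]

theorem SU.cone (h : SU K α M a x j t) (σ : ℕ → Bool) {k z : ℕ} (hz : z ∈ Xc M a x k) :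
    Cn (DS M a x t σ) (a k) z = Xc M a x k := by
  have hD := h.tp σ
  have hM := h.cb.tp
  have ha : ∀ v, E (DS M a x t σ) M (a k) v (a k) v := fun v =>
    h.out σ fun i hi => absurd hi (h.cb.an k i)
  ext u
  constructor
  · rintro ⟨w, h1, h2, h3⟩
    have hw : w ∈ Xc M a x k := by
      by_contra hw
      have h4 := h.out σ (h.apart hz hw)
      have h5 : z ∈ Cn M (a k) (x k) := hz
      have h6 : w ∈ Cn M (a k) (x k) := cn_dn hM h5 ((ha w).l.1 h1) ((E_ge h4).1 h3)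
      exact hw h6
    by_contra hu
    exact hu (cn_up hM hw ((E_le (h.out σ (h.apart hw hu))).1 h2))
  · intro hu
    obtain ⟨h1, h2, h3, h4, h5⟩ := h.good σ k
    have hT := h.hK.tp _ h3
    have hu' := hu
    rw [← h4 z hz] at hu'
    obtain ⟨w, h6, h7, h8⟩ := hu'
    have hw : w ∈ Xc M a x k := by
      rw [← h4 z hz]
      exact ⟨w, h6, hT.lr w, h8⟩
    refine ⟨w, (ha w).l.2 (cn_lt hM hw), (E_le (h.inn σ hw hu)).2 h7,
      (E_le (h.inn σ hw hz)).2 h8⟩

theorem SU.jle (h : SU K α M a x j t) (σ : ℕ → Bool) (k z : ℕ) :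
    (le (DS M a x t σ) (j k) z ↔ le M (j k) z) ∧ (le (DS M a x t σ) z (j k) ↔ le M z (j k)) := by
  have h1 : E (DS M a x t σ) M (j k) z (j k) z := h.out σ fun i hi => absurd hi (h.cb.jn k i)
  exact ⟨E_le h1, E_ge h1⟩

theorem SU.mt (h : SU K α M a x j t) (σ : ℕ → Bool) {k z : ℕ}
    (h1 : le (DS M a x t σ) z (x k)) (h2 : le (DS M a x t σ) z (x (k + 1))) :
    le (DS M a x t σ) z (j k) := by
  have hM := h.cb.tp
  have hd := h.cb.dj k (k + 1) (by omega)
  rw [(h.jle σ k z).2]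
  have hz1 : z ∉ Xc M a x k := by
    intro hz
    have h3 := h.out σ (h.apart hz fun h4 => Set.disjoint_left.1 hd h4 (h.cb.xself (k + 1)))
    exact Set.disjoint_left.1 hd (cn_up hM hz ((E_le h3).1 h2)) (h.cb.xself (k + 1))
  have h3 := (E_ge (h.out σ (h.apart (h.cb.xself k) hz1))).1 h1
  have hz2 : z ∉ Xc M a x (k + 1) := by
    intro hz
    exact Set.disjoint_left.1 hd (h.cb.xself k) (cn_up hM hz h3)
  have h4 := (E_ge (h.out σ (h.apart (h.cb.xself (k + 1)) hz2))).1 h2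
  exact h.cb.m3 k z h3 h4

theorem SU.fil (h : SU K α M a x j t) (σ : ℕ → Bool) (k : ℕ) :
    IsoOn (lift (t (2 * k + (σ k).toNat))) (lift (DS M a x t σ)) (insert (a k) (Xc M a x k))
      (insert (a k) (Xc M a x k)) ∅ := by
  obtain ⟨h1, -⟩ := h.good σ k
  have key : ∀ v, E (t (2 * k + (σ k).toNat)) (DS M a x t σ) (a k) v (a k) v := by
    intro v
    have e1 : E (DS M a x t σ) M (a k) v (a k) v := h.out σ fun i hi => absurd hi (h.cb.an k i)
    exact (off_E h1 fun h2 => h.cb.an k k h2.1).trans e1.symm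
  refine (iso_agree ?_ ?_).mono (empty_subset _)
  · rintro u (rfl | hu) v (rfl | hv)
    · exact key _
    · exact key _
    · exact (key _).swap
    · exact (h.inn σ hu hv).symm
  · rintro n u (rfl | hu)
    · rw [h1.2.2 n _ (h.cb.an k k)]
      exact (Glu_co_out fun i => h.cb.an k i).symm
    · exact (Glu_co (V := fun k => t (2 * k + (σ k).toNat)) h.cb.dj hu).symm

private theorem dec_bits (σ : ℕ → Bool) (e : ℕ) : ∃ c : ℕ, ∀ m < e, c.testBit m = σ m := by
  refine ⟨Nat.ofBits (fun i : Fin e => σ i), fun m hm => ?_⟩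
  rw [Nat.testBit_ofBits_lt _ _ hm]

/-- A piece disjoint from the node `n` is on the list. -/
theorem SU.stg (h : SU K α M a x j t) (σ : ℕ → Bool) (n s : ℕ)
    (hs : ∀ m < n, 2 * m + (σ m).toNat < s) (u y : ℕ)
    (huy : lt (DS M a x t σ) u y)
    (hd : ∀ z ∈ Cn (DS M a x t σ) u y, ¬ le M (j n) z) :
    ∃ P ∈ FF M a x t s, IsoOn (lift P.1) (lift (DS M a x t σ)) P.2 (Dn (DS M a x t σ) u y) ∅ := by
  obtain ⟨c, hc⟩ := dec_bits σ n
  have hTP := h.tp σ
  obtain ⟨D, hD⟩ : ∃ D, D = DS M a x t σ := ⟨_, rfl⟩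
  obtain ⟨D1, hD1⟩ : ∃ D1, D1 = DS M a x (trunc M t s) (fun j => c.testBit j) := ⟨_, rfl⟩
  have hT : ∀ k < n, trunc M t s (2 * k + (c.testBit k).toNat) =
      t (2 * k + (σ k).toNat) := by
    intro k hk
    rw [hc k hk]
    unfold trunc
    rw [if_pos (hs k hk)]
  have hlt : ∀ p, ¬ le M (j n) p → ∀ i, p ∈ Xc M a x i → i < n := by
    intro p hp i hi
    by_contra hni
    exact hp (h.cb.xin (not_lt.1 hni) hi)
  have hE : ∀ p q, ¬ le M (j n) p → E D1 D p q p q := by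
    intro p q hp
    rw [hD, hD1]
    by_cases hi : ∃ i, p ∈ Xc M a x i ∧ q ∈ Xc M a x i
    · obtain ⟨i, hpi, hqi⟩ := hi
      have h1 := Glu_in (M := M) (V := fun k => trunc M t s (2 * k + (c.testBit k).toNat))
        h.cb.dj hpi hqi
      have h2 := Glu_in (M := M) (V := fun k => t (2 * k + (σ k).toNat)) h.cb.dj hpi hqi
      rw [hT i (hlt p hp i hpi)] at h1
      exact h1.trans h2.symm
    · push Not at hi
      exact (Glu_out hi).trans (Glu_out hi).symm
  have hE' : ∀ p q, ¬ le M (j n) q → E D1 D p q p q := fun p q hq => (hE q p hq).swap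
  have hco : ∀ m p, ¬ le M (j n) p → (co D1 m p ↔ co D m p) := by
    intro m p hp
    rw [hD, hD1]
    by_cases hi : ∃ i, p ∈ Xc M a x i
    · obtain ⟨i, hpi⟩ := hi
      have h1 := Glu_co (M := M) (V := fun k => trunc M t s (2 * k + (c.testBit k).toNat))
        h.cb.dj hpi (n := m)
      have h2 := Glu_co (M := M) (V := fun k => t (2 * k + (σ k).toNat)) h.cb.dj hpi (n := m)
      rw [hT i (hlt p hp i hpi)] at h1
      exact h1.trans h2.symm
    · push Not at hi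
      exact (Glu_co_out hi).trans (Glu_co_out hi).symm
  have hjD : ∀ z, le D (j n) z ↔ le M (j n) z := fun z => by
    rw [hD]; exact (h.jle σ n z).1
  rw [← hD] at huy hd hTP ⊢
  have hyn : ¬ le M (j n) y := hd y (self_cn hTP huy)
  have hun : ¬ le M (j n) u := fun h1 => hyn ((hjD y).1 (Or.inl (hTP.le_lt ((hjD u).2 h1) huy)))
  have hwn : ∀ w, le D w y → ¬ le M (j n) w := fun w h1 h2 =>
    hyn ((hjD y).1 (hTP.le_trans ((hjD w).2 h2) h1))
  have hDn : Dn D1 u y = Dn D u y := by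
    ext z
    unfold Dn
    rw [mem_insert_iff, mem_insert_iff]
    refine or_congr_right ?_
    rw [mem_Cn, mem_Cn]
    refine exists_congr fun w => ?_
    rw [(hE u w hun).l]
    refine and_congr_right fun _ => ?_
    constructor
    · rintro ⟨h1, h2⟩
      have h3 := (E_le (hE' w y hyn)).1 h2
      exact ⟨(E_le (hE w z (hwn w h3))).1 h1, h3⟩
    · rintro ⟨h1, h2⟩
      exact ⟨(E_le (hE w z (hwn w h2))).2 h1, (E_le (hE' w y hyn)).2 h2⟩
  have hmem : ∀ z ∈ Dn D u y, ¬ le M (j n) z := by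
    rintro z (hz | hz)
    · rw [hz]; exact hun
    · exact hd z hz
  refine ⟨(D1, Dn D1 u y), ⟨s, le_rfl, c, u, y, by rw [hD1]⟩, ?_⟩
  simp only
  rw [hDn]
  exact (iso_agree (fun p hp q _ => hE p q (hmem p hp))
    (fun m p hp => hco m p (hmem p hp))).mono (empty_subset _)

/-- isomorphisms -/
structure Is (D D' : R2) (e : Equiv.Perm ℕ) : Prop where
  pr : ∀ u v, E D D' u v (e u) (e v)
  un : ∀ n u, co D n u ↔ co D' n (e u)

theorem Is.of {D D' : R2} (h : RIso D D') : ∃ e, Is D D' e := by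
  obtain ⟨e, h1, h2, h3⟩ := riso_iff.1 h
  exact ⟨e, fun u v => E_iff.2 ⟨(h1 _ _).symm, (h1 _ _).symm, fun n => ⟨(h2 _ _ _).symm,
    (h2 _ _ _).symm⟩⟩, fun n u => (h3 _ _).symm⟩

theorem Is.symm {D D' : R2} {e : Equiv.Perm ℕ} (h : Is D D' e) : Is D' D e.symm := by
  refine ⟨fun u v => ?_, fun n u => ?_⟩
  · have := (h.pr (e.symm u) (e.symm v)).symm
    simpa using this
  · have := (h.un n (e.symm u)).symm
    simpa using this

theorem Is.cn {D D' : R2} {e : Equiv.Perm ℕ} (h : Is D D' e) (m x z : ℕ) :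
    z ∈ Cn D m x ↔ e z ∈ Cn D' (e m) (e x) := by
  constructor
  · rintro ⟨w, h1, h2, h3⟩
    exact ⟨e w, (h.pr _ _).l.1 h1, (E_le (h.pr _ _)).1 h2, (E_le (h.pr _ _)).1 h3⟩
  · rintro ⟨w, h1, h2, h3⟩
    refine ⟨e.symm w, (h.pr _ _).l.2 ?_, (E_le (h.pr _ _)).2 ?_, (E_le (h.pr _ _)).2 ?_⟩
    · simpa using h1
    · simpa using h2
    · simpa using h3

theorem Is.iso {D D' : R2} {e : Equiv.Perm ℕ} (h : Is D D' e) {X Y : Set ℕ}
    (hXY : ∀ z, z ∈ X ↔ e z ∈ Y) : IsoOn (lift D) (lift D') X Y ∅ := by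
  refine ⟨{w | w.1 ∈ X ∧ w.2 = e w.1}, empty_subset _, ?_, ?_, fun z hz => ⟨e z, hz, rfl⟩,
    fun z hz => ⟨e.symm z, (hXY _).2 (by simpa using hz), by simp⟩⟩
  · rintro ⟨w, w'⟩ ⟨h1, h2⟩
    simp only at h1 h2
    rw [h2]
    exact ⟨h1, (hXY _).1 h1⟩
  · rw [piso_E]
    refine ⟨?_, ?_, ?_⟩
    · rintro ⟨w, w'⟩ ⟨-, h2⟩ ⟨v, v'⟩ ⟨-, h4⟩
      simp only at h2 h4
      rw [h2, h4]
      exact e.injective.eq_iff.symm
    · rintro ⟨w, w'⟩ ⟨-, h2⟩ ⟨v, v'⟩ ⟨-, h4⟩
      simp only at h2 h4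
      rw [h2, h4]
      exact h.pr _ _
    · rintro n ⟨w, w'⟩ ⟨-, h2⟩
      simp only at h2
      rw [h2]
      exact h.un _ _

theorem Is.dn {D D' : R2} {e : Equiv.Perm ℕ} (h : Is D D' e) (m x z : ℕ) :
    z ∈ Dn D m x ↔ e z ∈ Dn D' (e m) (e x) := by
  unfold Dn
  rw [mem_insert_iff, mem_insert_iff, ← h.cn, e.injective.eq_iff]

variable {σ τ : ℕ → Bool} {e : Equiv.Perm ℕ}

theorem SU.dnX (h : SU K α M a x j t) (σ : ℕ → Bool) (m : ℕ) :
    Dn (DS M a x t σ) (a m) (x m) = insert (a m) (Xc M a x m) := by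
  unfold Dn
  rw [h.cone σ (h.cb.xself m)]

theorem SU.alt (h : SU K α M a x j t) (σ : ℕ → Bool) (m : ℕ) :
    lt (DS M a x t σ) (a m) (x m) := by
  have h1 := h.cone σ (h.cb.xself m)
  have h2 : x m ∈ Cn (DS M a x t σ) (a m) (x m) := by rw [h1]; exact h.cb.xself m
  exact cn_lt (h.tp σ) h2

/-- the piece number `m` is new -/
theorem SU.new (h : SU K α M a x j t) (σ : ℕ → Bool) (m s : ℕ)
    (hs : s ≤ 2 * m + (σ m).toNat) {P : R2 × Set ℕ} (hP : P ∈ FF M a x t s)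
    (hi : IsoOn (lift P.1) (lift (DS M a x t σ)) P.2 (Dn (DS M a x t σ) (a m) (x m)) ∅) :
    False := by
  rw [h.dnX σ m] at hi
  exact (h.good σ m).2.2.2.2 P (FF_mono hs hP) (iso_trans0 hi (iso_symm0 (h.fil σ m)))

theorem SU.da (h : SU K α M a x j t) (he : Is (DS M a x t σ) (DS M a x t τ) e) (m : ℕ) :
    ∃ z ∈ Xc M a x m, le M (j m) (e z) := by
  by_contra hcon
  push Not at hcon
  have hlt := (he.pr (a m) (x m)).l.1 (h.alt σ m)
  obtain ⟨P, hP, hPi⟩ := h.stg τ m (2 * m) (fun k hk => by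
    have := Bool.toNat_le (τ k)
    omega) (e (a m)) (e (x m)) hlt (by
      intro z hz
      obtain ⟨z, rfl⟩ := e.surjective z
      rw [← he.cn, h.cone σ (h.cb.xself m)] at hz
      exact hcon z hz)
  refine h.new σ m (2 * m) (Nat.le_add_right _ _) hP (iso_trans0 hPi (iso_symm0 ?_))
  exact he.iso (he.dn _ _)

theorem SU.db (h : SU K α M a x j t) (he : Is (DS M a x t σ) (DS M a x t τ) e) (m : ℕ)
    (hsub : ∀ z, le M (j m) (e z) → z ∈ Xc M a x m) : False := by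
  have hes := he.symm
  have hX : ∀ z ∈ Xc M a x (m + 1), e.symm z ∈ Xc M a x m := by
    intro z hz
    apply hsub
    rw [Equiv.apply_symm_apply]
    exact h.cb.xin (Nat.le_succ m) hz
  have hlt := (hes.pr (a (m + 1)) (x (m + 1))).l.1 (h.alt τ (m + 1))
  obtain ⟨P, hP, hPi⟩ := h.stg σ (m + 1) (2 * (m + 1)) (fun k hk => by
    have := Bool.toNat_le (σ k)
    omega) (e.symm (a (m + 1))) (e.symm (x (m + 1))) hlt (by
      intro z hz
      obtain ⟨z, rfl⟩ := e.symm.surjective z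
      rw [← hes.cn, h.cone τ (h.cb.xself (m + 1))] at hz
      exact h.cb.xj m _ (hX z hz))
  refine h.new τ (m + 1) (2 * (m + 1)) (Nat.le_add_right _ _) hP (iso_trans0 hPi (iso_symm0 ?_))
  exact hes.iso (hes.dn _ _)

/-- the image of a tooth is in the node -/
theorem SU.dx (h : SU K α M a x j t) (he : Is (DS M a x t σ) (DS M a x t τ) e) (m : ℕ) :
    ∀ z ∈ Xc M a x m, le M (j m) (e z) := by
  have hT := h.tp τ
  obtain ⟨z0, hz0, hz1⟩ := h.da he m
  have hc : ∀ z, z ∈ Xc M a x m ↔ e z ∈ Cn (DS M a x t τ) (e (a m)) (e (x m)) := by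
    intro z
    rw [← he.cn, h.cone σ (h.cb.xself m)]
  have h1 := (hc z0).1 hz0
  have h2 : le (DS M a x t τ) (j m) (e (a m)) := by
    rcases hT.lin' (Or.inl (cn_lt hT h1)) ((h.jle τ m _).1.2 hz1) with h2 | h2
    · rcases hT.lt_or h2 with h3 | h3
      · exfalso
        refine h.db he m fun z hz => (hc z).2 ?_
        exact cn_up hT (cn_dn hT h1 h3 ((h.jle τ m _).1.2 hz1)) ((h.jle τ m _).1.2 hz)
      · exact h3
    · exact h2
  intro z hz
  exact (h.jle τ m _).1.1 (hT.le_trans h2 (Or.inl (cn_lt hT ((hc z).1 hz))))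

theorem SU.dc1 (h : SU K α M a x j t) (he : Is (DS M a x t σ) (DS M a x t τ) e) (m z : ℕ)
    (hz : le M (j m) z) : le M (j m) (e z) := by
  have hT := h.tp τ
  have h1 : le (DS M a x t τ) (j m) (e (x m)) := (h.jle τ m _).1.2 (h.dx he m _ (h.cb.xself m))
  have h2 : le (DS M a x t τ) (j m) (e (x (m + 1))) := (h.jle τ m _).1.2
    (h.cb.tp.le_trans (h.cb.jj m) (h.dx he (m + 1) _ (h.cb.xself (m + 1))))
  have hes := he.symm
  -- `j m` is below the image of the meet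
  have h3 : le (DS M a x t τ) (j m) (e (j m)) := by
    have h4 : le (DS M a x t σ) (e.symm (j m)) (x m) := by
      have := (E_le (hes.pr (j m) (e (x m)))).1 h1
      simpa using this
    have h5 : le (DS M a x t σ) (e.symm (j m)) (x (m + 1)) := by
      have := (E_le (hes.pr (j m) (e (x (m + 1))))).1 h2
      simpa using this
    have h6 := (E_le (he.pr (e.symm (j m)) (j m))).1 (h.mt σ h4 h5)
    simpa using h6
  exact (h.jle τ m _).1.1 (hT.le_trans h3 ((E_le (he.pr _ _)).1 ((h.jle σ m z).1.2 hz)))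

theorem SU.dc (h : SU K α M a x j t) (he : Is (DS M a x t σ) (DS M a x t τ) e) (m z : ℕ) :
    le M (j m) z ↔ le M (j m) (e z) := by
  refine ⟨h.dc1 he m z, fun h1 => ?_⟩
  have := h.dc1 he.symm m _ h1
  simpa using this

theorem SU.dd (h : SU K α M a x j t) (he : Is (DS M a x t σ) (DS M a x t τ) e) (k : ℕ)
    (hσ : σ k = false) (hτ : τ k = true) : False := by
  have hes := he.symm
  have hlt := (hes.pr (a k) (x k)).l.1 (h.alt τ k)
  obtain ⟨P, hP, hPi⟩ := h.stg σ (k + 1) (2 * k + 1) (fun i hi => by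
    rcases Nat.lt_succ_iff_lt_or_eq.1 hi with hi | hi
    · have := Bool.toNat_le (σ i)
      omega
    · subst hi
      rw [hσ]
      simp) (e.symm (a k)) (e.symm (x k)) hlt (by
      intro z hz
      obtain ⟨z, rfl⟩ := e.symm.surjective z
      rw [← hes.cn, h.cone τ (h.cb.xself k)] at hz
      intro h1
      have h2 := (h.dc he (k + 1) _).1 h1
      rw [Equiv.apply_symm_apply] at h2
      exact h.cb.xj k z hz h2)
  refine h.new τ k (2 * k + 1) ?_ hP (iso_trans0 hPi (iso_symm0 (hes.iso (hes.dn _ _))))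
  rw [hτ]
  simp

theorem SU.inj (h : SU K α M a x j t) (hi : RIso (DS M a x t σ) (DS M a x t τ)) : σ = τ := by
  obtain ⟨e, he⟩ := Is.of hi
  funext k
  cases hσ : σ k <;> cases hτ : τ k
  · rfl
  · exact (h.dd he k hσ hτ).elim
  · exact (h.dd he.symm k hτ hσ).elim
  · rfl

/-- CODE -/
theorem code (hK : G α K) (hM : M ∈ K) (h : Cb K α M a x j) : False := by
  obtain ⟨t, ht⟩ := seqT hK hM h
  have hSU : SU K α M a x j t := ⟨hK, hM, h, ht⟩
  refine hK.few ⟨fun σ => DS M a x t σ, ?_, fun σ => hSU.mem σ, fun c d hcd => hSU.inj hcd⟩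
  refine Glu_cont (Xc M a x) (fun (k : ℕ) (σ : ℕ → Bool) => t (2 * k + (σ k).toNat)) fun k => ?_
  exact (continuous_of_discreteTopology (f := fun b : Bool => t (2 * k + b.toNat))).comp
    (continuous_apply k)

end

end Pool.Agent.Run7.h201.CTR
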