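import Pool.Agent.Run7.h201.CTR.Red2

set_option autoImplicit false

/-!
# Coherent trees: relations between incomparable elements
-/

namespace Pool.Agent.Run7.h201.CTR.Coh

open Set MeasureTheory
open Pool.Agent.H899R2.VP (St PIso IsoOn)
open Pool.Agent.H533R2.VO (RS lift RIso Dich)
open Pool.Agent.H566P (ar R2 lt ac co mk)
open Pool.Agent.Y560.TG (lt_mk ac_mk co_mk piso_iff riso_iff riso_isoOn R2_ext meas_lt meas_ac
  meas_co meas_into)
open Pool.Agent.Run7.h201.CS (E E_iff)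
open Pool.Agent.Run7.h201.CS.FC (riso_symm riso_trans m_lt m_ac m_co)
open Pool.Agent.Run7.h201.CTR

/-- tree preorders with meets of pairs with a common lower bound -/
structure TN (M : R2) : Prop where
  irr : ∀ x, ¬ lt M x x
  tr : ∀ x y z, lt M x y → lt M y z → lt M x z
  er : ∀ x, eqv M x x
  es : ∀ x y, eqv M x y → eqv M y x
  et : ∀ x y z, eqv M x y → eqv M y z → eqv M x z
  ell : ∀ x y z, eqv M x y → lt M y z → lt M x z
  elr : ∀ x y z, lt M x y → eqv M y z → lt M x z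
  lin : ∀ x y z, lt M x z → lt M y z → lt M x y ∨ eqv M x y ∨ lt M y x
  meet : ∀ x y z, le M z x → le M z y → ∃ w, le M w x ∧ le M w y ∧
    ∀ z, le M z x → le M z y → le M z w

/-- `w` is a greatest common lower bound of `x` and `y` -/
def IsM (M : R2) (x y w : ℕ) : Prop :=
  le M w x ∧ le M w y ∧ ∀ z, le M z x → le M z y → le M z w

/-- the law for meets -/
def LawM (M N : R2) : Prop := ∀ x w y x' w' y', IsM M x y w → IsM N x' y' w' →
  E M N x w x' w' → E M N w y w' y' → E M N x y x' y'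

/-- the law for elements without a common lower bound -/
def LawN (M N : R2) : Prop := ∀ x y x' y', (¬ ∃ w, le M w x ∧ le M w y) →
  (¬ ∃ w, le N w x' ∧ le N w y') → E M N x x x' x' → E M N y y y' y' → E M N x y x' y'

/-- the relations between comparable elements -/
noncomputable def loc (M : R2) : R2 :=
  mk (lt M) (fun n x y => ac M n x y ∧ (le M x y ∨ le M y x)) (co M)

variable {M N : R2}

theorem lt_loc (x y : ℕ) : lt (loc M) x y ↔ lt M x y := by rw [loc, lt_mk]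
theorem ac_loc (n x y : ℕ) : ac (loc M) n x y ↔ ac M n x y ∧ (le M x y ∨ le M y x) := by
  rw [loc, ac_mk]
theorem co_loc (n x : ℕ) : co (loc M) n x ↔ co M n x := by rw [loc, co_mk]

theorem eqv_loc (x y : ℕ) : eqv (loc M) x y ↔ eqv M x y := by
  unfold eqv
  rw [ac_loc]
  exact ⟨fun h => h.1, fun h => ⟨h, Or.inl (Or.inr h)⟩⟩

theorem le_loc (x y : ℕ) : le (loc M) x y ↔ le M x y := or_congr (lt_loc _ _) (eqv_loc _ _)

/-- types of pairs, for comparable pairs -/
theorem E_loc {x y x' y' : ℕ} (h : le M x y ∨ le M y x) (h' : le N x' y' ∨ le N y' x') :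
    E (loc M) (loc N) x y x' y' ↔ E M N x y x' y' := by
  rw [E_iff, E_iff]
  simp only [lt_loc, ac_loc]
  refine and_congr Iff.rfl (and_congr Iff.rfl (forall_congr' fun n => ?_))
  simp only [h, h', h.symm, h'.symm, and_true]

/-- types of comparable pairs of `loc M` -/
theorem E_loc' {x y x' y' : ℕ} (h : le M x y ∨ le M y x) (hE : E (loc M) (loc N) x y x' y') :
    E M N x y x' y' := by
  refine (E_loc h ?_).1 hE
  rcases h with h | h
  · exact Or.inl ((le_loc _ _).1 ((E_le hE).1 ((le_loc _ _).2 h)))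
  · exact Or.inr ((le_loc _ _).1 ((E_ge hE).1 ((le_loc _ _).2 h)))

theorem TF_loc (h : TN M) : TF (loc M) := by
  refine ⟨fun x => ?_, fun x y z => ?_, fun x => ?_, fun x y => ?_, fun x y z => ?_,
    fun x y z => ?_, fun x y z => ?_, fun x y z => ?_, fun x y z => ?_, fun n x y => ?_⟩
  · rw [lt_loc]; exact h.irr x
  · rw [lt_loc, lt_loc, lt_loc]; exact h.tr x y z
  · rw [eqv_loc]; exact h.er x
  · rw [eqv_loc, eqv_loc]; exact h.es x y
  · rw [eqv_loc, eqv_loc, eqv_loc]; exact h.et x y z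
  · rw [eqv_loc, lt_loc, lt_loc]; exact h.ell x y z
  · rw [eqv_loc, lt_loc, lt_loc]; exact h.elr x y z
  · rw [eqv_loc, lt_loc, lt_loc, lt_loc, lt_loc]; exact h.lin x y z
  · intro h1 h2
    obtain ⟨w, w1, w2, w3⟩ := h.meet x y z ((le_loc _ _).1 h1) ((le_loc _ _).1 h2)
    refine ⟨w, (le_loc _ _).2 w1, (le_loc _ _).2 w2, fun z => ?_⟩
    rw [le_loc, le_loc, le_loc]
    exact w3 z
  · rw [ac_loc, le_loc, le_loc]
    exact fun h => h.2

theorem TN.le_trans {x y z : ℕ} (h : TN M) (h1 : le M x y) (h2 : le M y z) : le M x z := by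
  rcases h1 with h1 | h1
  · rcases h2 with h2 | h2
    · exact Or.inl (h.tr _ _ _ h1 h2)
    · exact Or.inl (h.elr _ _ _ h1 h2)
  · rcases h2 with h2 | h2
    · exact Or.inl (h.ell _ _ _ h1 h2)
    · exact Or.inr (h.et _ _ _ h1 h2)

theorem Law_loc (hM : TN M) (h : Law M N) : Law (loc M) (loc N) := by
  intro x c y x' c' y' h1 h2 h3 h4
  rw [le_loc] at h1 h2
  have e1 := E_loc' (Or.inl h1) h3
  have e2 := E_loc' (Or.inl h2) h4
  have e3 := h _ _ _ _ _ _ h1 h2 e1 e2
  have h5 := hM.le_trans h1 h2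
  exact (E_loc (Or.inl h5) (Or.inl ((E_le e3).1 h5))).2 e3

theorem PC_loc (h : PC M) : PC (loc M) := by
  intro C A hC1 hC2 hAC hcut hne hne'
  obtain ⟨⟨b, hb1, hb2⟩, a, ha1, ha2⟩ := h C A
    (fun x hx y hy => hC1 x hx y ((le_loc _ _).2 hy))
    (fun x hx y hy => by
      have := hC2 x hx y hy
      rwa [le_loc, le_loc] at this)
    hAC (fun x hx y hy hy' => (lt_loc _ _).1 (hcut x hx y hy hy')) hne hne'
  have hl : ∀ x ∈ A, ∀ y ∈ C \ A, le M x y := fun x hx y hy =>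
    Or.inl ((lt_loc _ _).1 (hcut x hx y hy.1 hy.2))
  refine ⟨⟨b, hb1, fun z hz z' hz' hE w hw => ?_⟩, a, ha1, fun w hw w' hw' hE z hz => ?_⟩
  · exact (E_loc (Or.inl (hl z hz w hw)) (Or.inl (hl z' hz' w hw))).2
      (hb2 z hz z' hz' (E_loc' (Or.inl (hl z hz b hb1)) hE) w hw)
  · exact (E_loc (Or.inl (hl z hz w hw)) (Or.inl (hl z hz w' hw'))).2
      (ha2 w hw w' hw' (E_loc' (Or.inl (hl a ha1 w hw)) hE) z hz)

/-- `loc` is injective on the class -/
theorem loc_inj (hM : TN M) (h1 : LawM M N) (h2 : LawN M N) (h : loc M = loc N) : M = N := by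
  have el : ∀ x y, lt M x y ↔ lt N x y := fun x y => by rw [← lt_loc, h, lt_loc]
  have ele : ∀ x y, le M x y ↔ le N x y := fun x y => by rw [← le_loc, h, le_loc]
  have eE : ∀ x y, le M x y ∨ le M y x → E M N x y x y := by
    intro x y hxy
    refine E_loc' hxy ?_
    rw [h]
    exact E.rfl
  have key : ∀ x y, E M N x y x y := by
    intro x y
    by_cases hz : ∃ z, le M z x ∧ le M z y
    · obtain ⟨z, hz1, hz2⟩ := hz
      obtain ⟨w, w1, w2, w3⟩ := hM.meet x y z hz1 hz2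
      refine h1 x w y x w y ⟨w1, w2, w3⟩ ⟨(ele _ _).1 w1, (ele _ _).1 w2, fun z => ?_⟩
        (eE _ _ (Or.inr w1)) (eE _ _ (Or.inl w2))
      rw [← ele, ← ele, ← ele]
      exact w3 z
    · refine h2 x y x y hz ?_ (eE _ _ (Or.inl (Or.inr (hM.er x))))
        (eE _ _ (Or.inl (Or.inr (hM.er y))))
      simp only [← ele]
      exact hz
  refine R2_ext (fun x y => el x y) (fun n x y => (key x y).a n) (fun n x => ?_)
  rw [← co_loc, h, co_loc]

theorem meas_loc : Measurable loc := by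
  refine meas_into ?_ ?_ ?_
  · intro i j
    simp only [lt_loc]
    exact meas_lt i j
  · intro n i j
    simp only [ac_loc]
    exact measurableSet_setOfPred.2 ((m_ac _ _ _).and (((m_lt _ _).or (m_ac _ _ _)).or
      ((m_lt _ _).or (m_ac _ _ _))))
  · intro n i
    simp only [co_loc]
    exact meas_co n i

/-- images of structures -/
noncomputable def img (σ : Equiv.Perm ℕ) (M : R2) : R2 :=
  mk (fun x y => lt M (σ.symm x) (σ.symm y)) (fun n x y => ac M n (σ.symm x) (σ.symm y))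
    (fun n x => co M n (σ.symm x))

theorem img_iso (σ : Equiv.Perm ℕ) (M : R2) : RIso M (img σ M) := by
  refine riso_iff.2 ⟨σ, ?_, ?_, ?_⟩
  · intro x y
    rw [img, lt_mk, Equiv.symm_apply_apply, Equiv.symm_apply_apply]
  · intro n x y
    rw [img, ac_mk, Equiv.symm_apply_apply, Equiv.symm_apply_apply]
  · intro n x
    rw [img, co_mk, Equiv.symm_apply_apply]

theorem loc_img {σ : Equiv.Perm ℕ} {W : R2} (h1 : ∀ x y, lt W (σ x) (σ y) ↔ lt (loc M) x y)
    (h2 : ∀ n x y, ac W n (σ x) (σ y) ↔ ac (loc M) n x y)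
    (h3 : ∀ n x, co W n (σ x) ↔ co (loc M) n x) : loc (img σ M) = W := by
  have e1 : ∀ x y, lt (img σ M) (σ x) (σ y) ↔ lt M x y := by
    intro x y
    rw [img, lt_mk, Equiv.symm_apply_apply, Equiv.symm_apply_apply]
  have e2 : ∀ n x y, ac (img σ M) n (σ x) (σ y) ↔ ac M n x y := by
    intro n x y
    rw [img, ac_mk, Equiv.symm_apply_apply, Equiv.symm_apply_apply]
  refine R2_ext (fun x y => ?_) (fun n x y => ?_) (fun n x => ?_)
  · obtain ⟨x, rfl⟩ := σ.surjective x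
    obtain ⟨y, rfl⟩ := σ.surjective y
    rw [lt_loc, h1, lt_loc, e1]
  · obtain ⟨x, rfl⟩ := σ.surjective x
    obtain ⟨y, rfl⟩ := σ.surjective y
    rw [ac_loc, h2, ac_loc, e2, le_s e1 e2, le_s e1 e2]
  · obtain ⟨x, rfl⟩ := σ.surjective x
    rw [co_loc, h3, co_loc, img, co_mk, Equiv.symm_apply_apply]

/-- The dichotomy for coherent tree preorders, with relations between incomparable elements. -/
theorem dich3 (B : Set R2) (hB : MeasurableSet B) (hinv : ∀ x y, RIso x y → x ∈ B → y ∈ B)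
    (htn : ∀ M ∈ B, TN M) (hlaw : ∀ M ∈ B, ∀ N ∈ B, Law M N)
    (hlm : ∀ M ∈ B, ∀ N ∈ B, LawM M N) (hln : ∀ M ∈ B, ∀ N ∈ B, LawN M N)
    (hpc : ∀ M ∈ B, PC M) : Dich B := by
  have hinj : Set.InjOn loc B := fun M hM N hN h =>
    loc_inj (htn M hM) (hlm M hM N hN) (hln M hM N hN) h
  have hsb : StandardBorelSpace B := hB.standardBorel
  have hemb : MeasurableEmbedding (fun M : B => loc M.1) :=
    (meas_loc.comp measurable_subtype_coe).measurableEmbedding fun M N h =>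
      Subtype.ext (hinj M.2 N.2 h)
  obtain ⟨g, hg, hg'⟩ := hemb.exists_measurable_extend (g := fun M : B => M.1)
    measurable_subtype_coe (fun _ => ⟨loc (mk (fun _ _ => False) (fun _ _ _ => False)
      fun _ _ => False)⟩)
  have hgl : ∀ M ∈ B, g (loc M) = M := fun M hM => congrFun hg' ⟨M, hM⟩
  have hK : MeasurableSet (loc '' B) := hB.image_of_measurable_injOn meas_loc hinj
  have hiso : ∀ M ∈ B, ∀ M' ∈ B, RIso (loc M) (loc M') → RIso M M' := by
    intro M hM M' hM' h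
    obtain ⟨σ, k1, k2, k3⟩ := riso_iff.1 h
    have h1 := loc_img k1 k2 k3
    have h2 := hinv _ _ (img_iso σ M) hM
    rw [← hinj h2 hM' h1]
    exact img_iso σ M
  have hKi : ∀ x y, RIso x y → x ∈ loc '' B → y ∈ loc '' B := by
    rintro _ y h ⟨M, hM, rfl⟩
    obtain ⟨σ, k1, k2, k3⟩ := riso_iff.1 h
    exact ⟨img σ M, hinv _ _ (img_iso σ M) hM, loc_img k1 k2 k3⟩
  refine red (K := loc '' B) (d := g) hB hg hKi ?_ ?_ ?_ ?_ ?_
  · rintro _ ⟨M, hM, rfl⟩
    rw [hgl M hM]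
    exact hM
  · rintro _ ⟨M, hM, rfl⟩ _ ⟨M', hM', rfl⟩ h
    rw [hgl M hM, hgl M' hM']
    exact hiso M hM M' hM' h
  · rintro _ ⟨M, hM, rfl⟩ _ ⟨M', hM', rfl⟩ h
    rw [hgl M hM, hgl M' hM'] at h
    obtain ⟨σ, k1, k2, k3⟩ := riso_iff.1 h
    refine riso_iff.2 ⟨σ, ?_, ?_, ?_⟩
    · intro x y
      rw [lt_loc, lt_loc, k1]
    · intro n x y
      rw [ac_loc, ac_loc, k2, le_s k1 k2, le_s k1 k2]
    · intro n x
      rw [co_loc, co_loc, k3]
  · intro z hz
    refine ⟨loc z, ⟨z, hz, rfl⟩, ?_⟩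
    rw [hgl z hz]
    exact riso_isoOn.2 (Pool.Agent.Y560.TG.iso_refl0 z univ)
  · refine dich2 _ hK hKi ?_ ?_ ?_
    · rintro _ ⟨M, hM, rfl⟩
      exact TF_loc (htn M hM)
    · rintro _ ⟨M, hM, rfl⟩ _ ⟨M', hM', rfl⟩
      exact Law_loc (htn M hM) (hlaw M hM M' hM')
    · rintro _ ⟨M, hM, rfl⟩
      exact PC_loc (hpc M hM)

end Pool.Agent.Run7.h201.CTR.Coh
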