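import Pool.Agent.Run7.h201.CTR.BL3

set_option autoImplicit false

/-!
# From the binary tree of cones to a comb
-/

namespace Pool.Agent.Run7.h201.CTR

open Set
open Pool.Agent.H566P (ar R2 lt ac co mk)

/-- Cones given by codes. -/
def Cc (M : R2) (p : ℕ) : Set ℕ := Cn M p.unpair.1 p.unpair.2

/-- The cone with code `p` is big. -/
def Bc (S : Set (R2 × Set ℕ)) (M : R2) (p : ℕ) : Prop := big S M p.unpair.1 p.unpair.2

/-- `q` and `r` are disjoint subcones of `p`. -/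
def Sc (M : R2) (p q r : ℕ) : Prop :=
  lt M q.unpair.1 q.unpair.2 ∧ lt M r.unpair.1 r.unpair.2 ∧ Cc M q ⊆ Cc M p ∧ Cc M r ⊆ Cc M p ∧
    Disjoint (Cc M q) (Cc M r)

/-- The spine. -/
def pk (P : List Bool → ℕ) (k : ℕ) : ℕ := P (List.replicate k true)

/-- The teeth. -/
def qk (P : List Bool → ℕ) (k : ℕ) : ℕ := P (List.replicate k true ++ [false])

section

variable {M : R2} {P : List Bool → ℕ}

theorem sc_k (hS : ∀ s, Sc M (P s) (P (s ++ [false])) (P (s ++ [true]))) (k : ℕ) :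
    Sc M (pk P k) (qk P k) (pk P (k + 1)) := by
  have h := hS (List.replicate k true)
  have e : List.replicate (k + 1) true = List.replicate k true ++ [true] := List.replicate_succ'
  unfold pk qk
  rw [e]
  exact h

theorem sc_mono (hS : ∀ s, Sc M (P s) (P (s ++ [false])) (P (s ++ [true]))) {j k : ℕ}
    (h : j ≤ k) : Cc M (pk P k) ⊆ Cc M (pk P j) := by
  induction k, h using Nat.le_induction with
  | base => exact Subset.rfl
  | succ n _ ih => exact (sc_k hS n).2.2.2.1.trans ih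

theorem comb {K : Set R2} {α : Ordinal.{0}} {S : Set (R2 × Set ℕ)} (hM : TP M)
    (hsm : ∀ m x, lt M m x → (M, Dn M m x) ∉ S → ¬ Small K α M m x)
    (hB : ∀ s, Bc S M (P s))
    (hS : ∀ s, Sc M (P s) (P (s ++ [false])) (P (s ++ [true]))) :
    ∃ a x j, Cb K α M a x j := by
  have hsc := sc_k hS
  let x : ℕ → ℕ := fun k => (qk P k).unpair.2
  have ha : ∀ k, ∃ u, eqv M (qk P k).unpair.1 u ∧ (M, Dn M u (x k)) ∉ S := fun k => (hB _).2
  choose a ha1 ha2 using ha
  have hj : ∀ k, ∃ w, le M w (x k) ∧ le M w (x (k + 1)) ∧ ∀ z, le M z (x k) →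
      le M z (x (k + 1)) → le M z w := fun k => hM.meet _ _
  choose j m1 m2 m3 using hj
  have hX : ∀ k, Xc M a x k = Cc M (qk P k) := fun k => (cn_eqv hM (ha1 k)).symm
  have halt : ∀ k, lt M (a k) (x k) := fun k => hM.ell _ _ _ (hM.es _ _ (ha1 k)) (hsc k).1
  have hXY : ∀ k, Xc M a x k ⊆ Cc M (pk P k) := fun k => by
    rw [hX]; exact (hsc k).2.2.1
  have hXY' : ∀ {i k : ℕ}, i ≤ k → Xc M a x k ⊆ Cc M (pk P i) := fun h =>
    (hXY _).trans (sc_mono hS h)
  have hdY : ∀ k, ∀ z ∈ Xc M a x k, z ∉ Cc M (pk P (k + 1)) := by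
    intro k z hz hz'
    rw [hX] at hz
    exact Set.disjoint_left.1 (hsc k).2.2.2.2 hz hz'
  have hxs : ∀ k, x k ∈ Xc M a x k := fun k => self_cn hM (halt k)
  have hjY : ∀ k, j (k + 1) ∈ Cc M (pk P (k + 1)) := by
    intro k
    have h1 : x (k + 1) ∈ Cc M (pk P (k + 1)) := hXY _ (hxs _)
    have h2 : x (k + 2) ∈ Cc M (pk P (k + 1)) := hXY' (Nat.le_succ (k + 1)) (hxs _)
    unfold Cc at h1 h2 ⊢
    rw [← cn_eq hM h1] at h2
    obtain ⟨w, h3, h4, h5⟩ := h2
    exact cn_dn hM h1 (hM.lt_le h3 (m3 (k + 1) w h5 h4)) (m1 (k + 1))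
  have hup : ∀ k z w, z ∈ Cc M (pk P k) → le M z w → w ∈ Cc M (pk P k) := fun k z w h1 h2 =>
    cn_up hM h1 h2
  refine ⟨a, x, j, hM, halt, ?_, m1, m2, m3, ?_, ?_, ?_, fun k => hsm _ _ (halt k) (ha2 k)⟩
  · have key : ∀ k i, k < i → Disjoint (Xc M a x k) (Xc M a x i) := fun k i h =>
      Set.disjoint_left.2 fun z hz hz' => hdY k z hz (hXY' h hz')
    intro k i hki
    rcases Nat.lt_or_gt_of_ne hki with h | h
    · exact key k i h
    · exact (key i k h).symm
  · intro k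
    rcases hM.lin' (m1 k) (Or.inl (halt k)) with h | h
    · exact h
    · rcases hM.lt_or h with h1 | h1
      · exfalso
        have h2 : j k ∈ Xc M a x k := cn_dn hM (hxs k) h1 (m1 k)
        exact hdY k _ (cn_up hM h2 (m2 k)) (hXY (k + 1) (hxs (k + 1)))
      · exact h1
  · intro k
    rcases hM.lin' (m2 k) (m1 (k + 1)) with h | h
    · exact h
    · exfalso
      exact hdY k _ (hxs k) (hup _ _ _ (hjY k) (hM.le_trans h (m1 k)))
  · intro k z hz h
    exact hdY k z hz (hup _ _ _ (hjY k) h)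

end

end Pool.Agent.Run7.h201.CTR
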