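import Pool.Agent.Run7.h201.CTR.Cen

set_option autoImplicit false

/-!
# Coherent trees: decoding a labelled chain
-/

namespace Pool.Agent.Run7.h201.CTR

open Set
open Pool.Agent.H899R2.VP (St Adj PIso BF IsoOn idOn inv comp zipSet mem_inv BF_iff zipSet_cons
  zipSet_nil_left labels idOn_mono)
open Pool.Agent.H533R2.VO (RS lift RIso Dich resBF resIso seq_rec)
open Pool.Agent.H566P (ar R2 lt ac co mk)
open Pool.Agent.Y560.TG (lt_mk ac_mk co_mk piso_iff ex lt_ex ac_ex co_ex_even co_ex_odd piso_ex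
  bf_trans0 bf_symm0 iso_trans0 iso_symm0 iso_refl0 Off riso_isoOn riso_iff piso_lt piso_co
  piso_eq msg meas_lt meas_ac meas_co)
open Pool.Agent.Run7.h201.CS (E E_iff At piso_E piso_pair lc Mod lift_meas lift_few zip1 zip2
  gCnt gIso g_code genf_code genf_cnt_iso genf_cnt_union genf_subset_iso genf_iso_iso R0 Lev
  lift_measurable E_ex)

/-- the code of an element of the chain -/
def k0 (v : ℕ) : ℕ := Nat.pair 0 v
/-- the code of the element `k` of the `j`-th side cone of type `i` above `u` -/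
def k1 (u i j k : ℕ) : ℕ := Nat.pair 1 (Nat.pair u (Nat.pair i (Nat.pair j k)))

theorem k0_inj {v w : ℕ} : k0 v = k0 w ↔ v = w := by
  unfold k0
  rw [Nat.pair_eq_pair]
  simp
theorem k1_inj {u i j k u' i' j' k' : ℕ} : k1 u i j k = k1 u' i' j' k' ↔
    u = u' ∧ i = i' ∧ j = j' ∧ k = k' := by
  unfold k1
  rw [Nat.pair_eq_pair, Nat.pair_eq_pair, Nat.pair_eq_pair, Nat.pair_eq_pair]
  simp
theorem k01 {v u i j k : ℕ} : k0 v ≠ k1 u i j k := by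
  unfold k0 k1
  rw [Ne, Nat.pair_eq_pair]
  simp

/-- The structure decoded from the labelled chain `W`. -/
noncomputable def Nw (R : R2) (f : ℕ → R2 × ℕ × ℕ) (W : R2) : R2 :=
  mk (fun a b => (∃ v w, a = k0 v ∧ b = k0 w ∧ lt W v w) ∨
      (∃ v u i j k, a = k0 v ∧ b = k1 u i j k ∧ le W v u) ∨
      (∃ u i j k k', a = k1 u i j k ∧ b = k1 u i j k' ∧ lt (f i).1 k k'))
    (fun n a b => (∃ v w, a = k0 v ∧ b = k0 w ∧ ac W n v w) ∨
      (∃ v u i j k, a = k0 v ∧ b = k1 u i j k ∧ le W v u ∧ ∃ x c y, E W R v u x c ∧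
        E (f i).1 R (f i).2.1 k c y ∧ ac R n x y) ∨
      (∃ v u i j k, a = k1 u i j k ∧ b = k0 v ∧ le W v u ∧ ∃ x c y, E W R v u x c ∧
        E (f i).1 R (f i).2.1 k c y ∧ ac R n y x) ∨
      (∃ u i j k k', a = k1 u i j k ∧ b = k1 u i j k' ∧ ac (f i).1 n k k'))
    (fun n a => (∃ v, a = k0 v ∧ co W (2 * n) v) ∨
      (∃ u i j k, a = k1 u i j k ∧ co (f i).1 n k))

section

variable {R M W : R2} {f : ℕ → R2 × ℕ × ℕ} {v w u i j k u' i' j' k' : ℕ}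

theorem lt00 : lt (Nw R f W) (k0 v) (k0 w) ↔ lt W v w := by
  rw [Nw, lt_mk]
  constructor
  · rintro (⟨v', w', h1, h2, h3⟩ | ⟨v', u, i, j, k, h1, h2, h3⟩ | ⟨u, i, j, k, k', h1, h2, h3⟩)
    · rw [k0_inj] at h1 h2
      rw [h1, h2]; exact h3
    · exact absurd h2 k01
    · exact absurd h1 k01
  · exact fun h => Or.inl ⟨v, w, rfl, rfl, h⟩

theorem ac00 (n : ℕ) : ac (Nw R f W) n (k0 v) (k0 w) ↔ ac W n v w := by
  rw [Nw, ac_mk]
  constructor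
  · rintro (⟨v', w', h1, h2, h3⟩ | ⟨v', u, i, j, k, h1, h2, h3⟩ | ⟨v', u, i, j, k, h1, h2, h3⟩ |
      ⟨u, i, j, k, k', h1, h2, h3⟩)
    · rw [k0_inj] at h1 h2
      rw [h1, h2]; exact h3
    · exact absurd h2 k01
    · exact absurd h1 k01
    · exact absurd h1 k01
  · exact fun h => Or.inl ⟨v, w, rfl, rfl, h⟩

theorem co0 (n : ℕ) : co (Nw R f W) n (k0 v) ↔ co W (2 * n) v := by
  rw [Nw, co_mk]
  constructor
  · rintro (⟨v', h1, h3⟩ | ⟨u, i, j, k, h1, h3⟩)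
    · rw [k0_inj] at h1
      rw [h1]; exact h3
    · exact absurd h1 k01
  · exact fun h => Or.inl ⟨v, rfl, h⟩

theorem co1 (n : ℕ) : co (Nw R f W) n (k1 u i j k) ↔ co (f i).1 n k := by
  rw [Nw, co_mk]
  constructor
  · rintro (⟨v', h1, h3⟩ | ⟨u', i', j', k', h1, h3⟩)
    · exact absurd h1.symm k01
    · rw [k1_inj] at h1
      obtain ⟨-, rfl, -, rfl⟩ := h1
      exact h3
  · exact fun h => Or.inr ⟨u, i, j, k, rfl, h⟩

theorem lt11 : lt (Nw R f W) (k1 u i j k) (k1 u' i' j' k') ↔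
    (u = u' ∧ i = i' ∧ j = j') ∧ lt (f i).1 k k' := by
  rw [Nw, lt_mk]
  constructor
  · rintro (⟨v', w', h1, h2, h3⟩ | ⟨v', u, i, j, k, h1, h2, h3⟩ | ⟨u, i, j, k, k', h1, h2, h3⟩)
    · exact absurd h1.symm k01
    · exact absurd h1.symm k01
    · rw [k1_inj] at h1 h2
      obtain ⟨rfl, rfl, rfl, rfl⟩ := h1
      obtain ⟨rfl, rfl, rfl, rfl⟩ := h2
      exact ⟨⟨rfl, rfl, rfl⟩, h3⟩
  · rintro ⟨⟨rfl, rfl, rfl⟩, h⟩
    exact Or.inr (Or.inr ⟨u, i, j, k, k', rfl, rfl, h⟩)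

theorem ac11 (n : ℕ) : ac (Nw R f W) n (k1 u i j k) (k1 u' i' j' k') ↔
    (u = u' ∧ i = i' ∧ j = j') ∧ ac (f i).1 n k k' := by
  rw [Nw, ac_mk]
  constructor
  · rintro (⟨v', w', h1, h2, h3⟩ | ⟨v', u, i, j, k, h1, h2, h3⟩ | ⟨v', u, i, j, k, h1, h2, h3⟩ |
      ⟨u, i, j, k, k', h1, h2, h3⟩)
    · exact absurd h1.symm k01
    · exact absurd h1.symm k01
    · exact absurd h2.symm k01
    · rw [k1_inj] at h1 h2
      obtain ⟨rfl, rfl, rfl, rfl⟩ := h1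
      obtain ⟨rfl, rfl, rfl, rfl⟩ := h2
      exact ⟨⟨rfl, rfl, rfl⟩, h3⟩
  · rintro ⟨⟨rfl, rfl, rfl⟩, h⟩
    exact Or.inr (Or.inr (Or.inr ⟨u, i, j, k, k', rfl, rfl, h⟩))

theorem lt01 : lt (Nw R f W) (k0 v) (k1 u i j k) ↔ le W v u := by
  rw [Nw, lt_mk]
  constructor
  · rintro (⟨v', w', h1, h2, h3⟩ | ⟨v', u, i, j, k, h1, h2, h3⟩ | ⟨u, i, j, k, k', h1, h2, h3⟩)
    · exact absurd h2.symm k01
    · rw [k0_inj] at h1
      rw [k1_inj] at h2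
      obtain ⟨rfl, -⟩ := h2
      rw [h1]; exact h3
    · exact absurd h1 k01
  · exact fun h => Or.inr (Or.inl ⟨v, u, i, j, k, rfl, rfl, h⟩)

theorem lt10 : ¬ lt (Nw R f W) (k1 u i j k) (k0 v) := by
  rw [Nw, lt_mk]
  rintro (⟨v', w', h1, h2, h3⟩ | ⟨v', u, i, j, k, h1, h2, h3⟩ | ⟨u, i, j, k, k', h1, h2, h3⟩)
  · exact absurd h1.symm k01
  · exact absurd h1.symm k01
  · exact absurd h2 k01

theorem ac01 (n : ℕ) : ac (Nw R f W) n (k0 v) (k1 u i j k) ↔ le W v u ∧ ∃ x c y,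
    E W R v u x c ∧ E (f i).1 R (f i).2.1 k c y ∧ ac R n x y := by
  rw [Nw, ac_mk]
  constructor
  · rintro (⟨v', w', h1, h2, h3⟩ | ⟨v', u, i, j, k, h1, h2, h3⟩ | ⟨v', u, i, j, k, h1, h2, h3⟩ |
      ⟨u, i, j, k, k', h1, h2, h3⟩)
    · exact absurd h2.symm k01
    · rw [k0_inj] at h1
      rw [k1_inj] at h2
      obtain ⟨rfl, rfl, -, rfl⟩ := h2
      rw [h1]; exact h3
    · exact absurd h1 k01
    · exact absurd h1 k01
  · exact fun h => Or.inr (Or.inl ⟨v, u, i, j, k, rfl, rfl, h⟩)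

theorem ac10 (n : ℕ) : ac (Nw R f W) n (k1 u i j k) (k0 v) ↔ le W v u ∧ ∃ x c y,
    E W R v u x c ∧ E (f i).1 R (f i).2.1 k c y ∧ ac R n y x := by
  rw [Nw, ac_mk]
  constructor
  · rintro (⟨v', w', h1, h2, h3⟩ | ⟨v', u, i, j, k, h1, h2, h3⟩ | ⟨v', u, i, j, k, h1, h2, h3⟩ |
      ⟨u, i, j, k, k', h1, h2, h3⟩)
    · exact absurd h1.symm k01
    · exact absurd h1.symm k01
    · rw [k0_inj] at h2
      rw [k1_inj] at h1
      obtain ⟨rfl, rfl, -, rfl⟩ := h1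
      rw [h2]; exact h3
    · exact absurd h2 k01
  · exact fun h => Or.inr (Or.inr (Or.inl ⟨v, u, i, j, k, rfl, rfl, h⟩))

theorem E00 : E (Nw R f W) W (k0 v) (k0 w) v w :=
  E_iff.2 ⟨lt00, lt00, fun n => ⟨ac00 n, ac00 n⟩⟩

theorem E11 : E (Nw R f W) (f i).1 (k1 u i j k) (k1 u i j k') k k' := by
  refine E_iff.2 ⟨lt11.trans ?_, lt11.trans ?_, fun n => ⟨(ac11 n).trans ?_, (ac11 n).trans ?_⟩⟩
  all_goals exact and_iff_right ⟨rfl, rfl, rfl⟩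

/-- unrelated elements of the decoded structure and incomparable elements -/
theorem E11n {q q' : ℕ} (hM : TP M) (h : ¬ (u = u' ∧ i = i' ∧ j = j')) (h1 : ¬ le M q q')
    (h2 : ¬ le M q' q) : E M (Nw R f W) q q' (k1 u i j k) (k1 u' i' j' k') := by
  have h' : ¬ (u' = u ∧ i' = i ∧ j' = j) := fun h3 => h ⟨h3.1.symm, h3.2.1.symm, h3.2.2.symm⟩
  have ha : ∀ n, ¬ ac M n q q' := fun n h3 => (hM.loc n q q' h3).elim h1 h2
  have hb : ∀ n, ¬ ac M n q' q := fun n h3 => (hM.loc n q' q h3).elim h2 h1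
  refine E_iff.2 ⟨iff_of_false (fun h => h1 (Or.inl h)) fun h3 => h (lt11.1 h3).1,
    iff_of_false (fun h => h2 (Or.inl h)) fun h3 => h' (lt11.1 h3).1, fun n =>
    ⟨iff_of_false (ha n) fun h3 => h ((ac11 n).1 h3).1,
      iff_of_false (hb n) fun h3 => h' ((ac11 n).1 h3).1⟩⟩

theorem E01n {c q : ℕ} (hM : TP M) (h : ¬ le W v u) (h1 : ¬ le M c q)
    (h2 : ¬ le M q c) : E M (Nw R f W) c q (k0 v) (k1 u i j k) := by
  have ha : ∀ n, ¬ ac M n c q := fun n h3 => (hM.loc n c q h3).elim h1 h2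
  have hb : ∀ n, ¬ ac M n q c := fun n h3 => (hM.loc n q c h3).elim h2 h1
  exact E_iff.2 ⟨iff_of_false (fun h => h1 (Or.inl h)) fun h3 => h (lt01.1 h3),
    iff_of_false (fun h => h2 (Or.inl h)) lt10, fun n =>
    ⟨iff_of_false (ha n) fun h3 => h ((ac01 n).1 h3).1,
      iff_of_false (hb n) fun h3 => h ((ac10 n).1 h3).1⟩⟩

theorem E01y {c u0 q : ℕ} (hM : TP M) (hL : Law R M) (h : le W v u) (hc : le M c u0)
    (hq : lt M u0 q) (h1 : E W M v u c u0) (h2 : E (f i).1 M (f i).2.1 k u0 q)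
    (hw : ∃ x c y, E W R v u x c ∧ E (f i).1 R (f i).2.1 k c y) :
    E M (Nw R f W) c q (k0 v) (k1 u i j k) := by
  have key : ∀ x c' y, E W R v u x c' → E (f i).1 R (f i).2.1 k c' y → E R M x y c q := by
    intro x c' y h3 h4
    refine hL x c' y c u0 q ((E_le h3).1 h) ?_ (h3.symm.trans h1) (h4.symm.trans h2)
    exact (E_le (h4.symm.trans h2)).2 (Or.inl hq)
  obtain ⟨x, c', y, h3, h4⟩ := hw
  have h5 := key x c' y h3 h4
  have hcq := hM.le_lt hc hq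
  refine E_iff.2 ⟨iff_of_true hcq (lt01.2 h), iff_of_false (hM.asymm hcq) lt10, fun n =>
    ⟨?_, ?_⟩⟩
  · rw [ac01]
    constructor
    · exact fun h6 => ⟨h, x, c', y, h3, h4, (h5.a n).2 h6⟩
    · rintro ⟨-, x1, c1, y1, h7, h8, h9⟩
      exact ((key x1 c1 y1 h7 h8).a n).1 h9
  · rw [ac10]
    constructor
    · exact fun h6 => ⟨h, x, c', y, h3, h4, (h5.swap.a n).2 h6⟩
    · rintro ⟨-, x1, c1, y1, h7, h8, h9⟩
      exact ((key x1 c1 y1 h7 h8).swap.a n).1 h9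

end

open Classical in
/-- the chosen isomorphism onto the cone -/
noncomputable def th (f : ℕ → R2 × ℕ × ℕ) (M : R2) (u r : ℕ) : Set (ℕ × ℕ) :=
  if h : ∃ i, ty f i M u r then Classical.choose (ta_ty h) else ∅

theorem th_spec {f : ℕ → R2 × ℕ × ℕ} {M : R2} {u r i : ℕ} (h : ∃ i, ty f i M u r)
    (hi : ta f M u r = i) :
    ((f i).2.1, u) ∈ th f M u r ∧ th f M u r ⊆ Pc f i ×ˢ Dn M u r ∧
    PIso (lift (f i).1) (lift M) (th f M u r) ∧
    (∀ k ∈ Pc f i, ∃ q, (k, q) ∈ th f M u r) ∧ ∀ q ∈ Dn M u r, ∃ k, (k, q) ∈ th f M u r := by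
  subst hi
  unfold th
  rw [dif_pos h]
  obtain ⟨h1, h2, h3, h4, h5⟩ := Classical.choose_spec (ta_ty h)
  exact ⟨h1 rfl, h2, h3, h4, h5⟩

open Classical in
/-- the number of the element `r` of `X` -/
noncomputable def cX (X : Set ℕ) (r : ℕ) : ℕ := Nat.count (· ∈ X) r
/-- the `j`-th element of `X` -/
noncomputable def nX (X : Set ℕ) (j : ℕ) : ℕ := Nat.nth (· ∈ X) j

open Classical in
theorem cX_lt {X : Set ℕ} {r : ℕ} (hf : X.Finite) (hr : r ∈ X) : cX X r < hf.toFinset.card := by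
  unfold cX
  exact Nat.count_lt_card (p := (· ∈ X)) hf hr
open Classical in
theorem nX_cX {X : Set ℕ} {r : ℕ} (hr : r ∈ X) : nX X (cX X r) = r := by
  unfold cX nX
  exact Nat.nth_count (p := (· ∈ X)) hr
open Classical in
theorem cX_nX {X : Set ℕ} {j : ℕ} (h : ∀ hf : X.Finite, j < hf.toFinset.card) :
    cX X (nX X j) = j := by
  unfold cX nX
  exact Nat.count_nth (p := (· ∈ X)) h
theorem nX_mem {X : Set ℕ} {j : ℕ} (h : ∀ hf : X.Finite, j < hf.toFinset.card) : nX X j ∈ X := by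
  unfold nX
  exact Nat.nth_mem (p := (· ∈ X)) j h

/-- least element of its block in `U` -/
def lbk (W : R2) (U : Set ℕ) (u : ℕ) : Prop := u ∈ U ∧ ∀ v ∈ U, eqv W u v → u ≤ v

/-- the universe of the decoded structure -/
def Yw (f : ℕ → R2 × ℕ × ℕ) (W : R2) (U : Set ℕ) : Set ℕ :=
  {n | (∃ v ∈ U, n = k0 v) ∨ ∃ u i j k, n = k1 u i j k ∧ lbk W U u ∧
    co W (2 * Nat.pair i (j + 1) + 1) u ∧ k ∈ Pc f i ∧ k ≠ (f i).2.1}

/-- the matching which extends a matching of the chains -/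
def GP (S : Set (R2 × Set ℕ)) (f : ℕ → R2 × ℕ × ℕ) (M : R2) (m x : ℕ)
    (C : Set ℕ) (W : R2) (U : Set ℕ) (P : Set (ℕ × ℕ)) : Set (ℕ × ℕ) :=
  {w | (∃ c v, (c, v) ∈ P ∧ w = (c, k0 v)) ∨ ∃ u u' i j k q, (u, u') ∈ P ∧ lbk W U u' ∧
    w = (q, k1 u' i j k) ∧ Sd S f M m x C u i q ∧
    j = cX (Xt S f M m x C u i) (rp M u q) ∧ (k, q) ∈ th f M u (rp M u q) ∧
    k ≠ (f i).2.1}

/-- The standing hypotheses. -/
structure GH (S : Set (R2 × Set ℕ)) (f : ℕ → R2 × ℕ × ℕ) (R M : R2) (m x : ℕ)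
    (C : Set ℕ) (W : R2) (U : Set ℕ) : Prop where
  tp : TP M
  law : Law R M
  cen : Cen S M m x C
  cov : ∀ u q, lt M u q → (M, Dn M u q) ∈ S → ∃ i, ty f i M u q
  eqr : ∀ u ∈ U, eqv W u u
  eqs : ∀ u ∈ U, ∀ v ∈ U, eqv W u v → eqv W v u
  eqt : ∀ a ∈ U, ∀ b ∈ U, ∀ c ∈ U, eqv W a b → eqv W b c → eqv W a c
  wit : ∀ v ∈ U, ∀ u ∈ U, le W v u → ∀ i j, co W (2 * Nat.pair i (j + 1) + 1) u →
    ∃ x c, E W R v u x c ∧ ∀ k ∈ Pc f i, k ≠ (f i).2.1 → ∃ y, E (f i).1 R (f i).2.1 k c y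

section

variable {S : Set (R2 × Set ℕ)} {f : ℕ → R2 × ℕ × ℕ} {R M : R2} {m x : ℕ} {C : Set ℕ}
  {W : R2} {U : Set ℕ} {P : Set (ℕ × ℕ)}

theorem sd_notMem (hM : TP M) {u i q : ℕ} (h : Sd S f M m x C u i q) : q ∉ C :=
  h.2.2.1 q (self_cn hM h.2.1)

theorem sd_ex (h : GH S f R M m x C W U) {q : ℕ} (hq : q ∈ Dn M m x) (hqC : q ∉ C) :
    ∃ u0 ∈ C, ∀ u ∈ C, eqv M u0 u → ∃ i, Sd S f M m x C u i q := by
  have hM := h.tp
  obtain ⟨u0, hu0, h1, h2⟩ := h.cen.bs q hq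
  have hqm : q ≠ m := fun e => hqC (e ▸ h.cen.ms)
  have hq' : q ∈ Cn M m x := by
    rcases hq with hq | hq
    · exact absurd hq hqm
    · exact hq
  have h3 : ¬ le M q u0 := fun h4 => hqC (h.cen.dn u0 hu0 q hq h4)
  have h4 : lt M u0 q := hM.lt_of h1 h3
  refine ⟨u0, hu0, fun u hu he => ⟨ta f M u q, ?_⟩⟩
  have h5 : lt M u q := hM.ell _ _ _ (hM.es _ _ he) h4
  have h6 : ∀ z ∈ Cn M u q, z ∉ C := by
    rintro z ⟨w, h7, h8, h9⟩ hz
    have hw : w ∈ Cn M m x := cn_dn hM hq' (hM.le_lt (dn_le hM (h.cen.sub hu)) h7) h9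
    have hwC := h.cen.dn z hz w (Or.inr hw) h8
    exact hM.lt_not_le (hM.ell _ _ _ he h7) (h2 w hwC h9)
  exact ⟨hq', h5, h6, h.cen.th u hu q hq' h5 h6, rfl⟩

theorem GH.tye (h : GH S f R M m x C W U) {u i q : ℕ} (hs : Sd S f M m x C u i q) :
    ∃ i, ty f i M u (rp M u q) := by
  have h1 := rp_mem h.tp hs.2.1
  refine h.cov u _ (cn_lt h.tp h1) ?_
  rw [dn_eq (rp_cn h.tp hs.2.1)]
  exact hs.2.2.2.1

theorem GH.ths (h : GH S f R M m x C W U) {u i q : ℕ} (hs : Sd S f M m x C u i q) :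
    ((f i).2.1, u) ∈ th f M u (rp M u q) ∧ th f M u (rp M u q) ⊆ Pc f i ×ˢ Dn M u q ∧
    PIso (lift (f i).1) (lift M) (th f M u (rp M u q)) ∧
    (∀ k ∈ Pc f i, ∃ q', (k, q') ∈ th f M u (rp M u q)) ∧
    ∀ q' ∈ Dn M u q, ∃ k, (k, q') ∈ th f M u (rp M u q) := by
  have e := rp_cn h.tp hs.2.1
  have h1 := th_spec (h.tye hs) (i := i) (by rw [ta_eq e]; exact hs.2.2.2.2)
  rwa [dn_eq e] at h1

/-- comparable elements of side cones -/
theorem side_cmp (h : GH S f R M m x C W U) (hP : PIso (lift (LL S f M m x C)) (lift W) P)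
    (hPU : P ⊆ C ×ˢ U) {u1 u1' i1 q1 u2 u2' i2 q2 : ℕ} (h1 : (u1, u1') ∈ P)
    (h2 : (u2, u2') ∈ P) (l1 : lbk W U u1') (l2 : lbk W U u2')
    (s1 : Sd S f M m x C u1 i1 q1) (s2 : Sd S f M m x C u2 i2 q2) (hle : le M q1 q2) :
    u1' = u2' ∧ u1 = u2 ∧ i1 = i2 ∧ rp M u1 q1 = rp M u2 q2 := by
  have hM := h.tp
  have c1 : u1 ∈ C := (hPU h1).1
  have c2 : u2 ∈ C := (hPU h2).1
  have hq1 : lt M u1 q2 := hM.lt_le s1.2.1 hle
  have key : eqv M u1 u2 := by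
    rcases hM.lin _ _ _ hq1 s2.2.1 with h3 | h3 | h3
    · exfalso
      rcases hM.lin' (Or.inl s2.2.1) hle with h4 | h4
      · exact s1.2.2.1 u2 ⟨u2, h3, hM.lr _, h4⟩ c2
      · exact sd_notMem hM s1 (h.cen.dn u2 c2 q1 (Or.inr s1.1) h4)
    · exact h3
    · exfalso
      exact s2.2.2.1 u1 ⟨u1, h3, hM.lr _, Or.inl hq1⟩ c1
  have e1 : E M W u1 u2 u1' u2' := by
    have := piso_pair hP h1 h2
    unfold LL at this
    have h5 : E (ex (fun k u => lbl S f M m x C u k.unpair.1 k.unpair.2) M) M u1 u2 u1 u2 := by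
      rw [E_iff]
      simp only [lt_ex, ac_ex]
      exact ⟨trivial, trivial, fun _ => ⟨trivial, trivial⟩⟩
    exact h5.symm.trans this
  have key' : eqv W u1' u2' := (E_eqv e1).1 key
  have e2 : u1' = u2' := le_antisymm (l1.2 _ l2.1 key') (l2.2 _ l1.1 (h.eqs _ l1.1 _ l2.1 key'))
  have e3 : u1 = u2 := (piso_eq hP h1 h2).2 e2
  subst e3
  have e4 : Cn M u1 q1 = Cn M u1 q2 := cn_eq hM ⟨q1, s1.2.1, hM.lr _, hle⟩
  refine ⟨e2, rfl, ?_, rp_eq e4⟩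
  rw [← s1.2.2.2.2, ← s2.2.2.2.2]
  exact ta_eq e4

theorem E_LL {u v u' v' : ℕ} : E (LL S f M m x C) W u v u' v' ↔ E M W u v u' v' := by
  have h5 : E (LL S f M m x C) M u v u v := by
    unfold LL
    rw [E_iff]
    simp only [lt_ex, ac_ex]
    exact ⟨trivial, trivial, fun _ => ⟨trivial, trivial⟩⟩
  exact ⟨fun h => h5.symm.trans h, fun h => h5.trans h⟩

theorem gp_piso (h : GH S f R M m x C W U) (hP : PIso (lift (LL S f M m x C)) (lift W) P)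
    (hPU : P ⊆ C ×ˢ U) : PIso (lift M) (lift (Nw R f W)) (GP S f M m x C W U P) := by
  have hM := h.tp
  have hPE : ∀ {u u' v v'}, (u, u') ∈ P → (v, v') ∈ P → E M W u v u' v' :=
    fun h1 h2 => E_LL.1 (piso_pair hP h1 h2)
  -- mixed pairs
  have mixed : ∀ c v, (c, v) ∈ P → ∀ u u' i j k q, (u, u') ∈ P → lbk W U u' →
      Sd S f M m x C u i q → (k, q) ∈ th f M u (rp M u q) →
      j = cX (Xt S f M m x C u i) (rp M u q) → k ≠ (f i).2.1 →
      E M (Nw R f W) c q (k0 v) (k1 u' i j k) := by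
    intro c v hcv u u' i j k q huu hl hs hk hj hkm
    have hcC : c ∈ C := (hPU hcv).1
    have huC : u ∈ C := (hPU huu).1
    have hE := hPE hcv huu
    obtain ⟨t1, t2, t3, t4, t5⟩ := h.ths hs
    by_cases hcu : le M c u
    · have hvu := (E_le hE).1 hcu
      have hlab : co W (2 * Nat.pair i (j + 1) + 1) u' := by
        have h1 := piso_co hP (n := 2 * Nat.pair i (j + 1) + 1) huu
        rw [← h1]
        unfold LL
        rw [co_ex_odd, Nat.unpair_pair]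
        simp only
        rw [lbl_iff hM (h.cen.sub huC)]
        intro hf
        rw [hj]
        exact cX_lt hf (sd_rp hM (h.cen.sub huC) hs)
      obtain ⟨x1, c1, e1, e2⟩ := h.wit v (hPU hcv).2 u' (hPU huu).2 hvu i j hlab
      obtain ⟨y1, e3⟩ := e2 k (t2 hk).1 hkm
      exact E01y hM h.law hvu hcu hs.2.1 hE.symm (piso_pair t3 t1 hk) ⟨x1, c1, y1, e1, e3⟩
    · have hvu : ¬ le W v u' := fun h1 => hcu ((E_le hE).2 h1)
      refine E01n hM hvu (fun h1 => ?_) (fun h1 => ?_)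
      · have h2 : lt M u c := by
          rcases h.cen.ch c hcC u huC with h3 | h3
          · exact absurd h3 hcu
          · exact hM.lt_of h3 hcu
        exact hs.2.2.1 c ⟨c, h2, hM.lr _, h1⟩ hcC
      · exact sd_notMem hM hs (h.cen.dn c hcC q (Or.inr hs.1) h1)
  -- side pairs
  have side : ∀ u1 u1' i1 j1 k1' q1 u2 u2' i2 j2 k2' q2, (u1, u1') ∈ P → (u2, u2') ∈ P →
      lbk W U u1' → lbk W U u2' → Sd S f M m x C u1 i1 q1 → Sd S f M m x C u2 i2 q2 →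
      j1 = cX (Xt S f M m x C u1 i1) (rp M u1 q1) →
      j2 = cX (Xt S f M m x C u2 i2) (rp M u2 q2) →
      (k1', q1) ∈ th f M u1 (rp M u1 q1) → (k2', q2) ∈ th f M u2 (rp M u2 q2) →
      E M (Nw R f W) q1 q2 (k1 u1' i1 j1 k1') (k1 u2' i2 j2 k2') ∧
      (q1 = q2 ↔ k1 u1' i1 j1 k1' = k1 u2' i2 j2 k2') := by
    intro u1 u1' i1 j1 k1' q1 u2 u2' i2 j2 k2' q2 h1 h2 l1 l2 s1 s2 hj1 hj2 t1 t2
    by_cases he : u1' = u2' ∧ i1 = i2 ∧ j1 = j2
    · obtain ⟨rfl, rfl, e3⟩ := he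
      have e4 : u1 = u2 := (piso_eq hP h1 h2).2 rfl
      subst e4
      have e5 : rp M u1 q1 = rp M u1 q2 := by
        have a1 := nX_cX (sd_rp hM (h.cen.sub (hPU h1).1) s1)
        have a2 := nX_cX (sd_rp hM (h.cen.sub (hPU h1).1) s2)
        rw [← hj1] at a1
        rw [← hj2, ← e3, a1] at a2
        exact a2
      have hp := (h.ths s1).2.2.1
      rw [← e5] at t2
      refine ⟨?_, ?_⟩
      · rw [e3]
        exact ((piso_pair hp t1 t2).symm).trans E11.symm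
      · rw [k1_inj, ← piso_eq hp t1 t2]
        simp [e3]
    · have n1 : ¬ le M q1 q2 := by
        intro hle
        obtain ⟨a1, a2, a3, a4⟩ := side_cmp h hP hPU h1 h2 l1 l2 s1 s2 hle
        subst a2 a3
        exact he ⟨a1, rfl, by rw [hj1, hj2, a4]⟩
      have n2 : ¬ le M q2 q1 := by
        intro hle
        obtain ⟨a1, a2, a3, a4⟩ := side_cmp h hP hPU h2 h1 l2 l1 s2 s1 hle
        subst a2 a3
        exact he ⟨a1.symm, rfl, by rw [hj1, hj2, a4]⟩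
      refine ⟨E11n hM he n1 n2, iff_of_false (fun e => n1 (by rw [e]; exact hM.lr _)) ?_⟩
      rw [k1_inj]
      exact fun e => he ⟨e.1, e.2.1, e.2.2.1⟩
  rw [piso_E]
  refine ⟨?_, ?_, ?_⟩
  · rintro _ (⟨c, v, hcv, rfl⟩ | ⟨u, u', i, j, k, q, huu, hl, rfl, hs, hj, hk, hkm⟩) _
      (⟨c', v', hcv', rfl⟩ | ⟨u2, u2', i2, j2, k2, q2, huu2, hl2, rfl, hs2, hj2, hk2, hkm2⟩)
    · simp only
      rw [k0_inj]
      exact piso_eq hP hcv hcv'
    · refine iff_of_false (fun e => ?_) k01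
      have e' : c = q2 := e
      subst e'
      exact sd_notMem hM hs2 (hPU hcv).1
    · refine iff_of_false (fun e => ?_) (fun e => k01 e.symm)
      have e' : q = c' := e
      subst e'
      exact sd_notMem hM hs (hPU hcv').1
    · exact (side _ _ _ _ _ _ _ _ _ _ _ _ huu huu2 hl hl2 hs hs2 hj hj2 hk hk2).2
  · rintro _ (⟨c, v, hcv, rfl⟩ | ⟨u, u', i, j, k, q, huu, hl, rfl, hs, hj, hk, hkm⟩) _
      (⟨c', v', hcv', rfl⟩ | ⟨u2, u2', i2, j2, k2, q2, huu2, hl2, rfl, hs2, hj2, hk2, hkm2⟩)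
    · exact (hPE hcv hcv').trans E00.symm
    · exact mixed _ _ hcv _ _ _ _ _ _ huu2 hl2 hs2 hk2 hj2 hkm2
    · exact (mixed _ _ hcv' _ _ _ _ _ _ huu hl hs hk hj hkm).swap
    · exact (side _ _ _ _ _ _ _ _ _ _ _ _ huu huu2 hl hl2 hs hs2 hj hj2 hk hk2).1
  · rintro n _ (⟨c, v, hcv, rfl⟩ | ⟨u, u', i, j, k, q, huu, hl, rfl, hs, hj, hk, hkm⟩)
    · simp only
      rw [co0]
      have := piso_co hP (n := 2 * n) hcv
      unfold LL at this
      rwa [co_ex_even] at this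
    · simp only
      rw [co1]
      exact (piso_co (h.ths hs).2.2.1 hk).symm

theorem GP_mono {P' : Set (ℕ × ℕ)} (h : P ⊆ P') :
    GP S f M m x C W U P ⊆ GP S f M m x C W U P' := by
  rintro w (⟨c, v, h1, h2⟩ | ⟨u, u', i, j, k, q, h1, h2⟩)
  · exact Or.inl ⟨c, v, h h1, h2⟩
  · exact Or.inr ⟨u, u', i, j, k, q, h h1, h2⟩

/-- a side element is matched if the block is -/
theorem gp_left (h : GH S f R M m x C W U) (hP : PIso (lift (LL S f M m x C)) (lift W) P)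
    (hPU : P ⊆ C ×ˢ U) {u u' i q : ℕ} (huu : (u, u') ∈ P) (hl : lbk W U u')
    (hs : Sd S f M m x C u i q) :
    ∃ n ∈ Yw f W U, (q, n) ∈ GP S f M m x C W U P := by
  have hM := h.tp
  obtain ⟨t1, t2, t3, t4, t5⟩ := h.ths hs
  obtain ⟨k, hk⟩ := t5 q (Or.inr (self_cn hM hs.2.1))
  have hkm : k ≠ (f i).2.1 := by
    intro e
    subst e
    have := (piso_eq t3 t1 hk).1 rfl
    exact hM.irr u (this ▸ hs.2.1)
  refine ⟨k1 u' i (cX (Xt S f M m x C u i) (rp M u q)) k, ?_, ?_⟩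
  · refine Or.inr ⟨u', i, _, k, rfl, hl, ?_, (t2 hk).1, hkm⟩
    have h1 := piso_co hP (n := 2 * Nat.pair i (cX (Xt S f M m x C u i) (rp M u q) + 1) + 1) huu
    rw [← h1]
    unfold LL
    rw [co_ex_odd, Nat.unpair_pair]
    simp only
    rw [lbl_iff hM (h.cen.sub (hPU huu).1)]
    intro hf
    exact cX_lt hf (sd_rp hM (h.cen.sub (hPU huu).1) hs)
  · exact Or.inr ⟨u, u', i, _, k, q, huu, hl, rfl, hs, rfl, hk, hkm⟩

theorem gp_right (h : GH S f R M m x C W U) (hP : PIso (lift (LL S f M m x C)) (lift W) P)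
    (hPU : P ⊆ C ×ˢ U) {u u' i j k : ℕ} (huu : (u, u') ∈ P) (hl : lbk W U u')
    (hc : co W (2 * Nat.pair i (j + 1) + 1) u') (hk : k ∈ Pc f i) (hkm : k ≠ (f i).2.1) :
    ∃ q ∈ Dn M m x, (q, k1 u' i j k) ∈ GP S f M m x C W U P := by
  have hM := h.tp
  have huD := h.cen.sub (hPU huu).1
  have h1 := piso_co hP (n := 2 * Nat.pair i (j + 1) + 1) huu
  rw [← h1] at hc
  unfold LL at hc
  rw [co_ex_odd, Nat.unpair_pair] at hc
  simp only at hc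
  rw [lbl_iff hM huD] at hc
  have hr := nX_mem hc
  have hj := cX_nX hc
  set r := nX (Xt S f M m x C u i) j with hrd
  obtain ⟨t1, t2, t3, t4, t5⟩ := h.ths hr.1
  rw [xt_rp hM hr] at t1 t2 t3 t4 t5
  obtain ⟨q, hq⟩ := t4 k hk
  have hqu : q ≠ u := fun e => hkm ((piso_eq t3 hq t1).2 e)
  have hqc : q ∈ Cn M u r := by
    rcases (t2 hq).2 with h2 | h2
    · exact absurd h2 hqu
    · exact h2
  have hs := sd_cn hM huD hr.1 hqc
  have hrp : rp M u q = r := by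
    rw [rp_eq (cn_eq hM hqc), xt_rp hM hr]
  refine ⟨q, Or.inr hs.1, Or.inr ⟨u, u', i, j, k, q, huu, hl, rfl, hs, ?_, ?_, hkm⟩⟩
  · rw [hrp, hj]
  · rw [hrp]; exact hq

theorem lbk_ex (W : R2) (U : Set ℕ) {v : ℕ} (hv : v ∈ U) (hW : ∀ a ∈ U, ∀ b ∈ U, ∀ c ∈ U,
    eqv W a b → eqv W b c → eqv W a c) (hr : eqv W v v) : ∃ u, lbk W U u ∧ eqv W v u := by
  classical
  have hex : ∃ u, u ∈ U ∧ eqv W v u := ⟨v, hv, hr⟩
  refine ⟨Nat.find hex, ⟨(Nat.find_spec hex).1, fun w hw h => ?_⟩, (Nat.find_spec hex).2⟩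
  exact Nat.find_min' hex ⟨hw, hW _ hv _ (Nat.find_spec hex).1 _ hw (Nat.find_spec hex).2 h⟩

end

end Pool.Agent.Run7.h201.CTR
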