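import Pool.Agent.Run7.h201.CTR.Dec

set_option autoImplicit false

/-!
# Coherent trees: equivalences of labelled chains extend to the decoded structures
-/

namespace Pool.Agent.Run7.h201.CTR

open Set
open Pool.Agent.H899R2.VP (St Adj PIso BF IsoOn idOn inv comp zipSet mem_inv BF_iff zipSet_cons
  zipSet_nil_left labels idOn_mono)
open Pool.Agent.H533R2.VO (RS lift RIso Dich resBF resIso seq_rec)
open Pool.Agent.H566P (ar R2 lt ac co mk)
open Pool.Agent.Y560.TG (lt_mk ac_mk co_mk piso_iff ex lt_ex ac_ex co_ex_even co_ex_odd piso_ex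
  bf_trans0 bf_symm0 iso_trans0 iso_symm0 iso_refl0 Off riso_isoOn riso_iff piso_lt piso_co
  piso_eq msg meas_lt meas_ac meas_co)
open Pool.Agent.Run7.h201.CS (E E_iff At piso_E piso_pair lc Mod lift_meas lift_few zip1 zip2
  gCnt gIso g_code genf_code genf_cnt_iso genf_cnt_union genf_subset_iso genf_iso_iso R0 Lev
  lift_measurable E_ex)

variable {S : Set (R2 × Set ℕ)} {f : ℕ → R2 × ℕ × ℕ} {R M : R2} {m x : ℕ} {C : Set ℕ}
  {W : R2} {U : Set ℕ} {P : Set (ℕ × ℕ)}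

theorem gp_bf (h : GH S f R M m x C W U) (ξ : Ordinal.{0}) : ∀ P : Set (ℕ × ℕ), P ⊆ C ×ˢ U →
    BF (lift (LL S f M m x C)) (lift W) C U (Ordinal.omega0 * ξ) P →
    BF (lift M) (lift (Nw R f W)) (Dn M m x) (Yw f W U) ξ (GP S f M m x C W U P) := by
  induction ξ using WellFoundedLT.induction with
  | ind ξ ih =>
    intro P hPU hb
    have hM := h.tp
    rw [BF_iff]
    refine ⟨gp_piso h hb.piso hPU, fun ξ' hξ => ?_⟩
    have hlt2 : Ordinal.omega0 * ξ' + 1 < Ordinal.omega0 * ξ := by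
      have h1 : Ordinal.omega0 * ξ' + 1 < Ordinal.omega0 * ξ' + Ordinal.omega0 := by
        gcongr
        exact Ordinal.one_lt_omega0
      refine lt_of_lt_of_le h1 ?_
      rw [← Ordinal.mul_succ]
      gcongr
      exact Order.succ_le_of_lt hξ
    have hlt1 : Ordinal.omega0 * ξ' < Ordinal.omega0 * ξ' + 1 := lt_add_one _
    constructor
    · intro q hq
      by_cases hqC : q ∈ C
      · obtain ⟨v, hv, hb1⟩ := hb.forth (hlt1.trans hlt2) hqC
        have h2 := ih ξ' hξ _ (insert_subset ⟨hqC, hv⟩ hPU) hb1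
        refine ⟨k0 v, Or.inl ⟨v, hv, rfl⟩, h2.subset ?_⟩
        refine insert_subset (Or.inl ⟨q, v, mem_insert _ _, rfl⟩) (GP_mono (subset_insert _ _))
      · obtain ⟨u0, hu0, hs⟩ := sd_ex h hq hqC
        obtain ⟨v0, hv0, hb1⟩ := hb.forth hlt2 hu0
        obtain ⟨u', hl, he⟩ := lbk_ex W U hv0 h.eqt (h.eqr v0 hv0)
        obtain ⟨u, hu, hb2⟩ := hb1.back hlt1 hl.1
        have p0 : (u0, v0) ∈ insert (u, u') (insert (u0, v0) P) := Or.inr (Or.inl rfl)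
        have p1 : (u, u') ∈ insert (u, u') (insert (u0, v0) P) := Or.inl rfl
        have hPU2 : insert (u, u') (insert (u0, v0) P) ⊆ C ×ˢ U :=
          insert_subset ⟨hu, hl.1⟩ (insert_subset ⟨hu0, hv0⟩ hPU)
        have heu : eqv M u0 u := (E_eqv (E_LL.1 (piso_pair hb2.piso p0 p1))).2 he
        obtain ⟨i, hsi⟩ := hs u hu heu
        obtain ⟨n, hn, hg⟩ := gp_left h hb2.piso hPU2 p1 hl hsi
        refine ⟨n, hn, (ih ξ' hξ _ hPU2 hb2).subset ?_⟩
        exact insert_subset hg (GP_mono ((subset_insert _ _).trans (subset_insert _ _)))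
    · rintro n (⟨v, hv, rfl⟩ | ⟨u', i, j, k, rfl, hl, hc, hk, hkm⟩)
      · obtain ⟨c, hcC, hb1⟩ := hb.back (hlt1.trans hlt2) hv
        have h2 := ih ξ' hξ _ (insert_subset ⟨hcC, hv⟩ hPU) hb1
        refine ⟨c, h.cen.sub hcC, h2.subset ?_⟩
        refine insert_subset (Or.inl ⟨c, v, mem_insert _ _, rfl⟩) (GP_mono (subset_insert _ _))
      · obtain ⟨u, hu, hb1⟩ := hb.back (hlt1.trans hlt2) hl.1
        have hPU2 : insert (u, u') P ⊆ C ×ˢ U := insert_subset ⟨hu, hl.1⟩ hPU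
        obtain ⟨q, hq, hg⟩ := gp_right h hb1.piso hPU2 (mem_insert _ _) hl hc hk hkm
        refine ⟨q, hq, (ih ξ' hξ _ hPU2 hb1).subset ?_⟩
        exact insert_subset hg (GP_mono (subset_insert _ _))

theorem gp_iso (h : GH S f R M m x C W U)
    (hi : IsoOn (lift (LL S f M m x C)) (lift W) C U P) :
    IsoOn (lift M) (lift (Nw R f W)) (Dn M m x) (Yw f W U) (GP S f M m x C W U P) := by
  obtain ⟨q, h1, h2, h3, h4, h5⟩ := hi
  have hM := h.tp
  refine ⟨GP S f M m x C W U q, GP_mono h1, ?_, gp_piso h h3 h2, ?_, ?_⟩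
  · rintro _ (⟨c, v, hcv, rfl⟩ | ⟨u, u', i, j, k, r, huu, hl, rfl, hs, hj, hk, hkm⟩)
    · exact ⟨h.cen.sub (h2 hcv).1, Or.inl ⟨v, (h2 hcv).2, rfl⟩⟩
    · refine ⟨Or.inr hs.1, Or.inr ⟨u', i, j, k, rfl, hl, ?_, ((h.ths hs).2.1 hk).1, hkm⟩⟩
      have h6 := piso_co h3 (n := 2 * Nat.pair i (j + 1) + 1) huu
      rw [← h6]
      unfold LL
      rw [co_ex_odd, Nat.unpair_pair]
      simp only
      rw [lbl_iff hM (h.cen.sub (h2 huu).1)]
      intro hf
      rw [hj]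
      exact cX_lt hf (sd_rp hM (h.cen.sub (h2 huu).1) hs)
  · intro r hr
    by_cases hrC : r ∈ C
    · obtain ⟨v, hv⟩ := h4 r hrC
      exact ⟨k0 v, Or.inl ⟨r, v, hv, rfl⟩⟩
    · obtain ⟨u0, hu0, hs⟩ := sd_ex h hr hrC
      obtain ⟨v0, hv0⟩ := h4 u0 hu0
      obtain ⟨u', hl, he⟩ := lbk_ex W U (h2 hv0).2 h.eqt (h.eqr v0 (h2 hv0).2)
      obtain ⟨u, hu⟩ := h5 u' hl.1
      have heu : eqv M u0 u := (E_eqv (E_LL.1 (piso_pair h3 hv0 hu))).2 he
      obtain ⟨i, hsi⟩ := hs u (h2 hu).1 heu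
      obtain ⟨n, -, hg⟩ := gp_left h h3 h2 hu hl hsi
      exact ⟨n, hg⟩
  · rintro n (⟨v, hv, rfl⟩ | ⟨u', i, j, k, rfl, hl, hc, hk, hkm⟩)
    · obtain ⟨c, hc⟩ := h5 v hv
      exact ⟨c, Or.inl ⟨c, v, hc, rfl⟩⟩
    · obtain ⟨u, hu⟩ := h5 u' hl.1
      obtain ⟨r, -, hg⟩ := gp_right h h3 h2 hu hl hc hk hkm
      exact ⟨r, hg⟩

end Pool.Agent.Run7.h201.CTR
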