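import Pool.Agent.Run7.h201.CTR.Cls2

set_option autoImplicit false

/-!
# Coherent trees: two disjoint big subcones; the end of the proof
-/

namespace Pool.Agent.Run7.h201.CTR

open Set MeasureTheory
open Pool.Agent.H899R2.VP (St Adj PIso BF IsoOn idOn inv comp zipSet mem_inv BF_iff zipSet_cons
  zipSet_nil_left labels idOn_mono BF_of_total closed_rank)
open Pool.Agent.H533R2.VO (RS lift RIso Dich resBF resIso seq_rec cnt_countable)
open Pool.Agent.H533R2.VD (Rk Rk_iff Rk_mono Rk_rel)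
open Pool.Agent.H566P (ar R2 lt ac co mk)
open Pool.Agent.Y560.TG (lt_mk ac_mk co_mk piso_iff ex lt_ex ac_ex co_ex_even co_ex_odd piso_ex
  bf_trans0 bf_symm0 iso_trans0 iso_symm0 iso_refl0 Off riso_isoOn riso_iff piso_lt piso_co
  piso_eq msg meas_lt meas_ac meas_co)
open Pool.Agent.Run7.h201.CS (E E_iff At piso_E piso_pair lc Mod lift_meas lift_few zip1 zip2
  gCnt gIso g_code genf_code genf_cnt_iso genf_cnt_union genf_subset_iso genf_iso_iso R0 Lev
  lift_measurable E_ex off_E fill pul_iso riso_symm)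

variable {K : Set R2} {α : Ordinal.{0}} {S T : Set (R2 × Set ℕ)} {M : R2}

theorem big_anti (h : S ⊆ T) {u y : ℕ} (hb : big T M u y) : big S M u y := by
  obtain ⟨h1, u', h2, h3⟩ := hb
  exact ⟨h1, u', h2, fun h4 => h3 (h h4)⟩

theorem big_self (ht : TP M) {u q : ℕ} (h1 : lt M u q) (h2 : (M, Dn M u q) ∉ S) :
    big S M u q := ⟨h1, u, ht.er u, h2⟩

theorem big_dn (hS : Fam K S) (hM : M ∈ K) (ht : TP M) {u z q : ℕ} (huz : le M u z)
    (h : big S M z q) : big S M u q := by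
  obtain ⟨h1, z', h2, h3⟩ := h
  rcases huz with h4 | h4
  · have h5 : lt M u z' := ht.elr _ _ _ h4 h2
    have h6 : lt M z' q := ht.ell _ _ _ (ht.es _ _ h2) h1
    have h7 : lt M u q := ht.tr _ _ _ h4 h1
    refine big_self ht h7 fun h8 => h3 ?_
    exact hS.sub M hM u q z' q h8 (Or.inr ⟨z', h5, ht.lr _, Or.inl h6⟩) (self_cn ht h7) h6
  · exact ⟨ht.ell _ _ _ h4 h1, z', ht.et _ _ _ h4 h2, h3⟩

theorem sim (hK : G α K) (hS : Fam K S) : ∃ S' : Set (R2 × Set ℕ), Fam K S' ∧ S ⊆ S' ∧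
    ∀ M ∈ K, ∀ m x, big S' M m x → ∃ u y v z, big S M u y ∧ big S M v z ∧
      Cn M u y ⊆ Cn M m x ∧ Cn M v z ⊆ Cn M m x ∧ Disjoint (Cn M u y) (Cn M v z) := by
  obtain ⟨S', hS', hSS', hcls⟩ := cls hK hS
  refine ⟨S', hS', hSS', fun M hM m0 x hbig => ?_⟩
  obtain ⟨hlt0, m, he, hnot⟩ := hbig
  have ht := hK.tp M hM
  have hlt : lt M m x := ht.ell _ _ _ (ht.es _ _ he) hlt0
  rw [cn_eqv ht he]
  by_contra hcon
  have hsub : ∀ u ∈ Dn M m x, ∀ y ∈ Cn M m x, Cn M u y ⊆ Cn M m x := by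
    rintro u (hu | hu) y hy
    · rw [hu, cn_eq ht hy]
    · exact cn_sub ht hu
  have hno : ∀ u ∈ Dn M m x, ∀ y ∈ Cn M m x, ∀ v ∈ Dn M m x, ∀ z ∈ Cn M m x, big S M u y →
      big S M v z → ∃ w, w ∈ Cn M u y ∧ w ∈ Cn M v z := by
    intro u hu y hy v hv z hz h1 h2
    by_contra h3
    refine hcon ⟨u, y, v, z, h1, h2, hsub u hu y hy, hsub v hv z hz, ?_⟩
    exact Set.disjoint_left.2 fun w hw hw' => h3 ⟨w, hw, hw'⟩
  have hmD : m ∈ Dn M m x := mem_Dn_base
  have hxC : x ∈ Cn M m x := self_cn ht hlt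
  have hdnC : ∀ w z, z ∈ Dn M m x → lt M m w → le M w z → w ∈ Dn M m x := by
    rintro w z (hz | hz) hw hwz
    · rw [hz] at hwz
      exact absurd hwz (ht.lt_not_le hw)
    · exact Or.inr (cn_dn ht hz hw hwz)
  by_cases hA : ∃ y ∈ Dn M m x, ∀ u ∈ Dn M m x, ∀ q ∈ Cn M m x, big S M u q → y ∈ Cn M u q
  · obtain ⟨y, hy, hyb⟩ := hA
    have hyC : y ∈ Cf S false M m x y := ⟨hy, ht.lr y⟩
    refine hnot (hcls false M hM m x y hlt ?_ hyC)
    refine ⟨⟨hmD, dn_le ht hy⟩, Cf_sub, ?_, ?_, ?_, ?_⟩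
    · rintro z ⟨-, hz⟩ w hw hwz
      exact ⟨hw, ht.le_trans hwz hz⟩
    · rintro z ⟨-, hz⟩ w ⟨-, hw⟩
      exact ht.lin' hz hw
    · intro q hq
      obtain ⟨w, w1, w2, w3⟩ := ht.meet q y
      by_cases hmw : lt M m w
      · exact ⟨w, ⟨hdnC w q hq hmw w1, w2⟩, w1, fun c hc hcq => w3 c hcq hc.2⟩
      · refine ⟨m, ⟨hmD, dn_le ht hy⟩, dn_le ht hq, fun c hc hcq => ?_⟩
        have h1 : le M w m := by
          rcases ht.lt_or (w3 m (dn_le ht hq) (dn_le ht hy)) with h2 | h2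
          · exact absurd h2 hmw
          · exact h2
        exact ht.le_trans (w3 c hcq hc.2) h1
    · intro u hu q hq huq hn
      by_contra hb
      exact hn y (hyb u hu.1 q hq (big_self ht huq hb)) hyC
  · push Not at hA
    have hmC : m ∈ Cf S true M m x m :=
      ⟨hmD, x, hxC, big_self ht hlt fun h => hnot (hSS' h)⟩
    refine hnot (hcls true M hM m x m hlt ?_ hmC)
    have hch : ∀ z ∈ Cf S true M m x m, ∀ y ∈ Cf S true M m x m, le M z y ∨ le M y z := by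
      rintro z ⟨hz, q, hq, hzq⟩ y ⟨hy, q', hq', hyq⟩
      obtain ⟨w, h1, h2⟩ := hno z hz q hq y hy q' hq' hzq hyq
      exact ht.lin' (Or.inl (cn_lt ht h1)) (Or.inl (cn_lt ht h2))
    have hdn : ∀ z ∈ Cf S true M m x m, ∀ y ∈ Dn M m x, le M y z → y ∈ Cf S true M m x m := by
      rintro z ⟨hz, q, hq, hzq⟩ y hy hyz
      exact ⟨hy, q, hq, big_dn hS hM ht hyz hzq⟩
    refine ⟨hmC, Cf_sub, hdn, hch, ?_, ?_⟩
    · intro q hq
      obtain ⟨u2, hu2, q2, hq2, hb2, hn2⟩ := hA q hq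
      have hu2C : u2 ∈ Cf S true M m x m := ⟨hu2, q2, hq2, hb2⟩
      obtain ⟨w, w1, w2, w3⟩ := ht.meet q q2
      have hwu : le M w u2 := by
        rcases ht.lin' w2 (Or.inl hb2.1) with h1 | h1
        · exact h1
        · rcases ht.lt_or h1 with h2 | h2
          · exact absurd ⟨w, h2, w1, w2⟩ hn2
          · exact h2
      have key : ∀ c ∈ Cf S true M m x m, le M c q → le M c w := by
        intro c hc hcq
        have h0 : le M c u2 → le M c w := fun h1 => w3 c hcq (ht.le_trans h1 (Or.inl hb2.1))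
        rcases hch c hc u2 hu2C with h1 | h1
        · exact h0 h1
        · rcases ht.lt_or h1 with h2 | h2
          · exfalso
            obtain ⟨hcD, q', hq', hcq'⟩ := hc
            obtain ⟨w', h3, h4⟩ := hno c hcD q' hq' u2 hu2 q2 hq2 hcq' hb2
            apply hn2
            rw [← cn_eq ht h4]
            exact ⟨c, h2, hcq, Or.inl (cn_lt ht h3)⟩
          · exact h0 h2
      by_cases hmw : lt M m w
      · exact ⟨w, hdn u2 hu2C w (hdnC w q hq hmw w1) hwu, w1, key⟩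
      · refine ⟨m, hmC, dn_le ht hq, fun c hc hcq => ?_⟩
        have h1 : le M w m := by
          rcases ht.lt_or (w3 m (dn_le ht hq) (Or.inl (cn_lt ht hq2))) with h2 | h2
          · exact absurd h2 hmw
          · exact h2
        exact ht.le_trans (key c hc hcq) h1
    · intro u hu q hq huq hn
      by_contra hb
      have hbq := big_self ht huq hb
      obtain ⟨u2, hu2, q2, hq2, hb2, hn2⟩ := hA q (Or.inr hq)
      obtain ⟨w, h1, h2⟩ := hno u hu.1 q hq u2 hu2 q2 hq2 hbq hb2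
      have h3 : ¬ le M u2 u := by
        intro h3
        apply hn2
        rw [← cn_eq ht h2]
        obtain ⟨t, t1, t2, t3⟩ := h1
        exact ⟨t, ht.le_lt h3 t1, t3, t2⟩
      rcases ht.lin' (Or.inl (cn_lt ht h1)) (Or.inl (cn_lt ht h2)) with h4 | h4
      · rcases ht.lt_or h4 with h5 | h5
        · refine hn u2 ?_ ⟨hu2, q2, hq2, hb2⟩
          rw [← cn_eq ht h1]
          exact ⟨u2, h5, ht.lr _, Or.inl (cn_lt ht h2)⟩
        · exact h3 h5
      · exact h3 h4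

/-! ### CNT -/

theorem cnt (hK : G α K) (hS : Fam K S) :
    ∀ ξ : Ordinal.{0}, ξ < Ordinal.omega 1 → ∃ S' : Set (R2 × Set ℕ), Fam K S' ∧ S ⊆ S' ∧
      ∀ M ∈ K, ∀ p, ¬ Rk (Bc S M) (Sc M) ξ p → ¬ Bc S' M p := by
  intro ξ
  induction ξ using WellFoundedLT.induction with
  | ind ξ ih =>
    intro hξ
    have hc := cnt_countable hξ
    have ih' : ∀ i : Set.Iio ξ, ∃ S' : Set (R2 × Set ℕ), Fam K S' ∧ S ⊆ S' ∧
        ∀ M ∈ K, ∀ p, ¬ Rk (Bc S M) (Sc M) i.1 p → ¬ Bc S' M p :=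
      fun i => ih i.1 i.2 (lt_trans i.2 hξ)
    choose T hTf hTS hT using ih'
    have hsim : ∀ i : Set.Iio ξ, ∃ S' : Set (R2 × Set ℕ), Fam K S' ∧ T i ⊆ S' ∧
        ∀ M ∈ K, ∀ m x, big S' M m x → ∃ u y v z, big (T i) M u y ∧ big (T i) M v z ∧
          Cn M u y ⊆ Cn M m x ∧ Cn M v z ⊆ Cn M m x ∧ Disjoint (Cn M u y) (Cn M v z) :=
      fun i => sim hK (hTf i)
    choose T' hT'f hT'T hT' using hsim
    obtain ⟨S', hS'f, hS'⟩ := genu hK.tp (ι := Option (Set.Iio ξ))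
      (fun o => match o with
        | none => S
        | some i => T' i) (by
          intro o
          cases o with
          | none => exact hS
          | some i => exact hT'f i)
    refine ⟨S', hS'f, hS' none, ?_⟩
    intro M hM p hr hB
    have hBS : Bc S M p := big_anti (hS' none) hB
    rw [Rk_iff] at hr
    have h3 : ¬ ∀ o' : Ordinal.{0}, o' < ξ → ∃ q r, Sc M p q r ∧ Rk (Bc S M) (Sc M) o' q ∧
        Rk (Bc S M) (Sc M) o' r := fun h => hr ⟨hBS, h⟩
    push Not at h3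
    obtain ⟨o', ho', h4⟩ := h3
    have hB' : big (T' ⟨o', ho'⟩) M p.unpair.1 p.unpair.2 :=
      big_anti (hS' (some ⟨o', ho'⟩)) hB
    obtain ⟨u, y, v, z, b1, b2, s1, s2, s3⟩ := hT' ⟨o', ho'⟩ M hM _ _ hB'
    have e1 : Rk (Bc S M) (Sc M) o' (Nat.pair u y) := by
      by_contra h
      refine hT ⟨o', ho'⟩ M hM _ h ?_
      unfold Bc
      rw [Nat.unpair_pair]
      exact b1
    have e2 : Rk (Bc S M) (Sc M) o' (Nat.pair v z) := by
      by_contra h
      refine hT ⟨o', ho'⟩ M hM _ h ?_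
      unfold Bc
      rw [Nat.unpair_pair]
      exact b2
    refine h4 _ _ ?_ e1 e2
    unfold Sc Cc
    rw [Nat.unpair_pair, Nat.unpair_pair]
    exact ⟨b1.1, b2.1, s1, s2, s3⟩

/-! ### MAIN -/

theorem meas_Sc (p q r : ℕ) : MeasurableSet {M : R2 | Sc M p q r} := by
  have hC : ∀ p z : ℕ, Measurable fun M : R2 => z ∈ Cc M p := fun p z =>
    measurableSet_setOfPred.1 (meas_Cn z p.unpair.1 p.unpair.2)
  have h1 : {M : R2 | Sc M p q r} = {M : R2 | lt M q.unpair.1 q.unpair.2 ∧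
      lt M r.unpair.1 r.unpair.2 ∧ (∀ z, z ∈ Cc M q → z ∈ Cc M p) ∧
      (∀ z, z ∈ Cc M r → z ∈ Cc M p) ∧ ∀ z, z ∈ Cc M q → ¬ z ∈ Cc M r} := by
    ext M
    simp only [mem_ofPred_eq]
    unfold Sc
    rw [Set.disjoint_left]
    exact Iff.rfl
  rw [h1]
  refine measurableSet_setOfPred.2 ?_
  refine Measurable.and (measurableSet_setOfPred.1 (meas_lt _ _)) (Measurable.and
    (measurableSet_setOfPred.1 (meas_lt _ _)) (Measurable.and ?_ (Measurable.and ?_ ?_)))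
  · exact Measurable.forall fun z => (hC q z).imp (hC p z)
  · exact Measurable.forall fun z => (hC r z).imp (hC p z)
  · exact Measurable.forall fun z => (hC q z).imp (hC r z).not

/-- MAIN -/
theorem main (hK : G α K) : ∃ f : ℕ → R2, ∀ M ∈ K, ∃ n, RIso (f n) M := by
  obtain ⟨S, hS, hSs⟩ := base hK
  by_cases hall : ∀ ξ : Ordinal.{0}, ξ < Ordinal.omega 1 → ∃ M ∈ K, ∃ p,
      Rk (Bc S M) (Sc M) ξ p
  · exfalso
    obtain ⟨l, hl1, hl2, hl⟩ := lev hS
    obtain ⟨M, hM, P, hP1, hP2⟩ := bl3 K (Bc S) Sc hK.meas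
      (fun p => hK.meas.inter (meas_big hS hl hl1 _ _))
      (fun p q r => hK.meas.inter (meas_Sc p q r)) hall
    obtain ⟨a, x, j, hcb⟩ := comb (K := K) (α := α) (hK.tp M hM) (hSs M hM) hP1 hP2
    exact code hK hM hcb
  · push Not at hall
    obtain ⟨ξ, hξ, hno⟩ := hall
    obtain ⟨S', hS', -, hS'b⟩ := cnt hK hS ξ hξ
    have hun : ∀ M ∈ K, (M, (univ : Set ℕ)) ∈ S' := by
      intro M hM
      have ht := hK.tp M hM
      obtain ⟨r, h1, h2⟩ := hK.rt M hM
      have hr : r + 1 ≠ r := Nat.succ_ne_self r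
      have h3 : Dn M r (r + 1) = univ := by
        ext z
        simp only [mem_univ, iff_true]
        by_cases hz : z = r
        · exact Or.inl hz
        · obtain ⟨w, h4, h5, h6⟩ := h2 z (r + 1) hz hr
          exact Or.inr ⟨w, h4, h5, h6⟩
      have h4 := hS'b M hM (Nat.pair r (r + 1)) (hno M hM _)
      by_contra h5
      apply h4
      unfold Bc
      rw [Nat.unpair_pair]
      refine big_self ht (h1 _ hr) ?_
      show (M, Dn M r (r + 1)) ∉ S'
      rw [h3]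
      exact h5
    obtain ⟨f, hf⟩ := hS'.cnt
    refine g_code (C := ℕ) K (fun n M => IsoOn (lift (f n).1) (lift M) (f n).2 univ ∅)
      (fun M N => RIso M N) R0 (fun M hM => hf M univ (hun M hM)) (fun n M _ N _ h1 h2 => ?_)
    exact riso_isoOn.2 (iso_trans0 (iso_symm0 h1) h2)

/-- The dichotomy for coherent trees with pointed cuts. -/
theorem dich (B : Set R2) (hB : MeasurableSet B) (hinv : ∀ x y, RIso x y → x ∈ B → y ∈ B)
    (htp : ∀ M ∈ B, TP M) (hlaw : ∀ M ∈ B, ∀ N ∈ B, Law M N) (hpc : ∀ M ∈ B, PC M)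
    (hrt : ∀ M ∈ B, Root M) : Dich B := by
  by_cases hg : ∃ g : (ℕ → Bool) → R2, Continuous g ∧ (∀ c, g c ∈ B) ∧ ∀ c d : ℕ → Bool,
    RIso (g c) (g d) → c = d
  · exact Or.inr hg
  left
  obtain ⟨α, hα, hcl⟩ := closed_rank (lift_meas hB) (by
    rintro M ⟨hM1, hM2⟩ N hMN
    have hM : M = lift M.2 := Prod.ext hM1 rfl
    have hN1 : N.1 = fun _ _ => false := by
      funext x y
      obtain ⟨q, -, -, h3, -, h5⟩ := hMN
      obtain ⟨x', hx'⟩ := h5 x (mem_univ _)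
      obtain ⟨y', hy'⟩ := h5 y (mem_univ _)
      have := h3.2.1 _ hx' _ hy'
      rw [hM1] at this
      exact this.symm
    have hN : N = lift N.2 := Prod.ext hN1 rfl
    refine ⟨hN1, hinv M.2 N.2 (riso_isoOn.2 ?_) hM2⟩
    rw [← hM, ← hN]
    exact hMN)
  have hG : G (max α Ordinal.omega0) B := by
    refine ⟨hB, max_lt hα Ordinal.omega0_lt_omega_one, le_max_right _ _, ?_, hg, htp, hlaw, hpc,
      hrt⟩
    intro M hM N hMN
    exact (hcl (lift M) ⟨rfl, hM⟩ (lift N) (hMN.mono (le_max_left _ _))).2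
  exact main hG

end Pool.Agent.Run7.h201.CTR
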