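import Pool.Agent.Run7.h201.CTR.Tree

set_option autoImplicit false

/-!
# Coherent trees: families of pieces, Scott levels, measurability
-/

namespace Pool.Agent.Run7.h201.CTR

open Set
open Pool.Agent.H899R2.VP (St Adj PIso BF IsoOn idOn inv comp zipSet mem_inv BF_iff zipSet_cons
  zipSet_nil_left labels)
open Pool.Agent.H533R2.VO (RS lift RIso Dich resBF resIso)
open Pool.Agent.H566P (ar R2 lt ac co mk)
open Pool.Agent.Y560.TG (lt_mk ac_mk co_mk piso_iff ex lt_ex ac_ex co_ex_even co_ex_odd piso_ex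
  bf_trans0 bf_symm0 iso_trans0 iso_symm0 iso_refl0 Off riso_isoOn piso_lt piso_co piso_eq msg
  meas_lt meas_ac meas_co)
open Pool.Agent.Run7.h201.CS (E E_iff At piso_E piso_pair lc Mod lift_meas lift_few zip1 zip2
  gCnt gIso g_code genf_code genf_cnt_iso genf_cnt_union genf_subset_iso genf_iso_iso R0 Lev
  lift_measurable)

/-- A family of (isomorphism types of) pieces. -/
structure Fam (K : Set R2) (S : Set (R2 × Set ℕ)) : Prop where
  iso : ∀ M X N Y, (M, X) ∈ S → IsoOn (lift M) (lift N) X Y ∅ → (N, Y) ∈ S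
  cnt : gCnt S
  sub : ∀ M ∈ K, ∀ m x u y, (M, Dn M m x) ∈ S → u ∈ Dn M m x → y ∈ Cn M m x → lt M u y →
    (M, Dn M u y) ∈ S

/-- The standing hypotheses on the class `K`. -/
structure G (α : Ordinal.{0}) (K : Set R2) : Prop where
  meas : MeasurableSet K
  lt1 : α < Ordinal.omega 1
  om : Ordinal.omega0 ≤ α
  closed : ∀ M ∈ K, ∀ N : R2, BF (lift M) (lift N) univ univ α ∅ → N ∈ K
  few : ¬ ∃ c : (ℕ → Bool) → R2, Continuous c ∧ (∀ A, c A ∈ K) ∧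
    ∀ A A', RIso (c A) (c A') → A = A'
  tp : ∀ M ∈ K, TP M
  law : ∀ M ∈ K, ∀ N ∈ K, Law M N
  pc : ∀ M ∈ K, PC M
  rt : ∀ M ∈ K, Root M

theorem lab {α : Ordinal.{0}} {K : Set R2} (hK : G α K) {β : Ordinal.{0}}
    (hβ : β < Ordinal.omega 1) :
    ∃ c : R2 → List ℕ → ℕ, ∀ M ∈ K, ∀ N ∈ K, ∀ s t : List ℕ, s.length = t.length →
      c M s = c N t → BF (lift M) (lift N) univ univ β (zipSet s t) := by
  obtain ⟨c, hc⟩ := labels (lift_meas hK.meas) (lift_few hK.few) β hβ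
  refine ⟨fun M s => c (lift M) s, fun M hM N hN s t hl h => ?_⟩
  exact hc (lift M) ⟨rfl, hM⟩ (lift N) ⟨rfl, hN⟩ s t hl h

/-- the relative cone -/
def rel (M : R2) (X : Set ℕ) (m x : ℕ) : Set ℕ :=
  {z | z ∈ X ∧ (z = m ∨ ∃ w ∈ X, lt M m w ∧ le M w z ∧ le M w x)}

theorem rel_iso {M N : R2} (hM : TP M) {X : Set ℕ} {m x u y u1 y1 : ℕ}
    (hi : IsoOn (lift N) (lift M) X (Dn M m x) {(u1, u), (y1, y)}) (hu : u ∈ Dn M m x)
    (hy : y ∈ Cn M m x) (huy : lt M u y) :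
    IsoOn (lift N) (lift M) (rel N X u1 y1) (Dn M u y) {(u1, u), (y1, y)} := by
  obtain ⟨q, h1, h2, h3, h4, h5⟩ := hi
  have hu1 : (u1, u) ∈ q := h1 (Or.inl rfl)
  have hy1 : (y1, y) ∈ q := h1 (Or.inr rfl)
  have hsub := dn_sub hM hu hy huy
  have key : ∀ z z', (z, z') ∈ q → (z ∈ rel N X u1 y1 ↔ z' ∈ Dn M u y) := by
    intro z z' hz
    constructor
    · rintro ⟨h6, h7⟩
      rcases h7 with h7 | ⟨w, h7, h8, h9, h10⟩
      · rw [(piso_eq h3 hz hu1).1 h7]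
        exact mem_Dn_base
      · obtain ⟨w', hw⟩ := h4 w h7
        exact Or.inr ⟨w', (piso_lt h3 hu1 hw).1 h8, (piso_le h3 hw hz).1 h9,
          (piso_le h3 hw hy1).1 h10⟩
    · intro h6
      refine ⟨(h2 hz).1, ?_⟩
      rcases h6 with h6 | ⟨w', h6, h7, h8⟩
      · exact Or.inl ((piso_eq h3 hz hu1).2 h6)
      · have hw' : w' ∈ Dn M m x := hsub (Or.inr ⟨w', h6, hM.lr _, h8⟩)
        obtain ⟨w, hw⟩ := h5 w' hw'
        exact Or.inr ⟨w, (h2 hw).1, (piso_lt h3 hu1 hw).2 h6, (piso_le h3 hw hz).2 h7,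
          (piso_le h3 hw hy1).2 h8⟩
  have hyD : y ∈ Dn M u y := Or.inr (self_cn hM huy)
  refine ⟨{w | w ∈ q ∧ w.1 ∈ rel N X u1 y1}, ?_, ?_, h3.mono fun w hw => hw.1, ?_, ?_⟩
  · rintro w (rfl | rfl)
    · exact ⟨hu1, (key _ _ hu1).2 mem_Dn_base⟩
    · exact ⟨hy1, (key _ _ hy1).2 hyD⟩
  · rintro ⟨w, w'⟩ ⟨hw, hw'⟩
    exact ⟨hw', (key _ _ hw).1 hw'⟩
  · intro z hz
    obtain ⟨z', hz'⟩ := h4 z hz.1
    exact ⟨z', hz', hz⟩
  · intro z' hz'
    obtain ⟨z, hz⟩ := h5 z' (hsub hz')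
    exact ⟨z, hz, (key _ _ hz).2 hz'⟩

/-- Sub-pieces. -/
def gSub (K : Set R2) (S : Set (R2 × Set ℕ)) : Set (R2 × Set ℕ) :=
  {P | ∃ (M : R2) (m x u y : ℕ), P = (M, Dn M u y) ∧ M ∈ K ∧ (M, Dn M m x) ∈ S ∧
    u ∈ Dn M m x ∧ y ∈ Cn M m x ∧ lt M u y}

/-- The stages. -/
def gS (K : Set R2) (f : ℕ → R2 × Set ℕ) : ℕ → Set (R2 × Set ℕ)
  | 0 => gIso (range f)
  | k + 1 => gIso (gS K f k ∪ gSub K (gS K f k))

variable {K : Set R2}

theorem genf_cnt_sub (htp : ∀ M ∈ K, TP M) {S : Set (R2 × Set ℕ)} (h : gCnt S) :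
    gCnt (gSub K S) := by
  obtain ⟨g, hg⟩ := h
  refine genf_code (C := ℕ × ℕ × ℕ) (gSub K S) (fun c P =>
    IsoOn (lift (g c.1).1) (lift P.1) (rel (g c.1).1 (g c.1).2 c.2.1 c.2.2) P.2 ∅) ?_ ?_
  · rintro P ⟨M, m, x, u, y, rfl, hM, hS, h1, h2, h3⟩
    obtain ⟨n, q, hq0, hq1, hq2, hq3, hq4⟩ := hg M _ hS
    obtain ⟨u1, hu1⟩ := hq4 u h1
    obtain ⟨y1, hy1⟩ := hq4 y (Or.inr h2)
    refine ⟨(n, u1, y1), ?_⟩
    have hb : IsoOn (lift (g n).1) (lift M) (g n).2 (Dn M m x) {(u1, u), (y1, y)} :=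
      ⟨q, by rintro w (rfl | rfl) <;> assumption, hq1, hq2, hq3, hq4⟩
    exact (rel_iso (htp M hM) hb h1 h2 h3).mono (empty_subset _)
  · rintro c P - Q - h1 h2
    exact iso_trans0 (iso_symm0 h1) h2

theorem genf_cnt (htp : ∀ M ∈ K, TP M) (f : ℕ → R2 × Set ℕ) (k : ℕ) : gCnt (gS K f k) := by
  induction k with
  | zero =>
    refine genf_cnt_iso ⟨f, ?_⟩
    rintro M X ⟨n, hn⟩
    refine ⟨n, ?_⟩
    rw [hn]
    exact iso_refl0 _ _
  | succ k ih =>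
    exact genf_cnt_iso (genf_cnt_union ih (genf_cnt_sub htp ih))

theorem genf (htp : ∀ M ∈ K, TP M) (f : ℕ → R2 × Set ℕ) :
    ∃ S : Set (R2 × Set ℕ), Fam K S ∧ ∀ n, f n ∈ S := by
  refine ⟨⋃ k, gS K f k, ⟨?_, ?_, ?_⟩, fun n => ?_⟩
  · intro M X N Y hM hi
    obtain ⟨k, hk⟩ := mem_iUnion.1 hM
    refine mem_iUnion.2 ⟨k, ?_⟩
    cases k with
    | zero => exact genf_iso_iso _ hk hi
    | succ k => exact genf_iso_iso _ hk hi
  · refine genf_code (C := ℕ × ℕ) _ (fun c P =>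
      IsoOn (lift ((genf_cnt htp f c.1).choose c.2).1) (lift P.1)
        ((genf_cnt htp f c.1).choose c.2).2 P.2 ∅) ?_ ?_
    · intro P hP
      obtain ⟨k, hk⟩ := mem_iUnion.1 hP
      obtain ⟨n, hn⟩ := (genf_cnt htp f k).choose_spec P.1 P.2 hk
      exact ⟨(k, n), hn⟩
    · rintro c P - Q - h1 h2
      exact iso_trans0 (iso_symm0 h1) h2
  · intro M hM m x u y hS h1 h2 h3
    obtain ⟨k, hk⟩ := mem_iUnion.1 hS
    refine mem_iUnion.2 ⟨k + 1, genf_subset_iso _ (Or.inr ?_)⟩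
    exact ⟨M, m, x, u, y, rfl, hM, hk, h1, h2, h3⟩
  · exact mem_iUnion.2 ⟨0, genf_subset_iso _ (mem_range_self n)⟩

/-- GENU -/
theorem genu (htp : ∀ M ∈ K, TP M) {ι : Type*} [Countable ι]
    (F : ι → Set (R2 × Set ℕ)) (hF : ∀ i, Fam K (F i)) :
    ∃ S : Set (R2 × Set ℕ), Fam K S ∧ ∀ i, F i ⊆ S := by
  choose g hg using fun i => (hF i).cnt
  rcases isEmpty_or_nonempty ι with he | hne
  · obtain ⟨S, hS, -⟩ := genf htp (fun _ => (R0, ∅))
    exact ⟨S, hS, fun i => (he.false i).elim⟩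
  · obtain ⟨e, he⟩ := exists_surjective_nat (ι × ℕ)
    obtain ⟨S, hS, hf⟩ := genf htp (fun n => g (e n).1 (e n).2)
    refine ⟨S, hS, fun i => ?_⟩
    rintro ⟨M, X⟩ hMX
    obtain ⟨n, hn⟩ := hg i M X hMX
    obtain ⟨k, hk⟩ := he (i, n)
    have h1 : g i n ∈ S := by
      have := hf k
      rw [hk] at this
      exact this
    exact hS.iso _ _ M X h1 hn

/-- Scott levels for pieces -/
theorem lev {S : Set (R2 × Set ℕ)} (hS : Fam K S) :
    ∃ l : Ordinal.{0}, l < Ordinal.omega 1 ∧ Ordinal.omega0 ≤ l ∧ Lev S l := by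
  obtain ⟨f, hf⟩ := hS.cnt
  obtain ⟨S', hS', hf'⟩ := Pool.Agent.H533R2.VO.t_GENF ar (fun n => (lift (f n).1, (f n).2))
  obtain ⟨l, h1, h2, h3⟩ := Pool.Agent.H533R2.VO.t_LEV ar S' hS'
  refine ⟨l, h1, h2, fun M X N Y p hM hp hp' hb => h3 _ _ _ _ p ?_ hp hp' hb⟩
  obtain ⟨n, hn⟩ := hf M X hM
  exact hS'.iso _ _ _ _ (hf' n) hn

theorem meas_le (x y : ℕ) : MeasurableSet {M : R2 | le M x y} :=
  (meas_lt x y).union (meas_ac 0 x y)

theorem meas_Cn (z m x : ℕ) : MeasurableSet {M : R2 | z ∈ Cn M m x} := by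
  have : {M : R2 | z ∈ Cn M m x} = ⋃ w, ({M : R2 | lt M m w} ∩ ({M : R2 | le M w z} ∩
      {M : R2 | le M w x})) := by
    ext M
    simp only [Set.mem_iUnion]
    exact Iff.rfl
  rw [this]
  exact MeasurableSet.iUnion fun w => (meas_lt m w).inter ((meas_le w z).inter (meas_le w x))

theorem meas_Dn (z m x : ℕ) : MeasurableSet {M : R2 | z ∈ Dn M m x} := by
  have : {M : R2 | z ∈ Dn M m x} = {_M : R2 | z = m} ∪ {M : R2 | z ∈ Cn M m x} := rfl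
  rw [this]
  exact (MeasurableSet.const _).union (meas_Cn z m x)

theorem meas_mem {S : Set (R2 × Set ℕ)} {l : Ordinal.{0}} (hS : Fam K S) (hl : Lev S l)
    (hl1 : l < Ordinal.omega 1) (m x : ℕ) : MeasurableSet {M : R2 | (M, Dn M m x) ∈ S} := by
  obtain ⟨f, hf⟩ := hS.cnt
  have he : {M : R2 | (M, Dn M m x) ∈ S} = ⋃ n ∈ {n : ℕ | f n ∈ S},
      {M : R2 | BF (lift (f n).1) (lift M) (f n).2 (Dn M m x) l ∅} := by
    ext M
    simp only [Set.mem_iUnion]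
    constructor
    · intro hM
      obtain ⟨n, hn⟩ := hf M _ hM
      exact ⟨n, hS.iso _ _ _ _ hM (iso_symm0 hn), hn.bf l⟩
    · rintro ⟨n, hn, hb⟩
      have hn' : ((f n).1, (f n).2) ∈ S := hn
      have := hl _ _ _ _ ∅ hn' Set.finite_empty (empty_subset _) hb
      exact hS.iso _ _ _ _ hn' this
  rw [he]
  exact MeasurableSet.biUnion (Set.to_countable _)
    (fun n _ => msg ar (lift (f n).1) (f n).2 R2 lift (fun M => Dn M m x) lift_measurable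
      (fun z => meas_Dn z m x) l hl1 ∅)

/-- membership in the family is preserved by equivalences of rank `l` -/
theorem mem_bf {S : Set (R2 × Set ℕ)} {l : Ordinal.{0}} (hS : Fam K S) (hl : Lev S l)
    (hl2 : Ordinal.omega0 ≤ l) {M N : R2} {q : Set (ℕ × ℕ)} {x y x' y' : ℕ}
    (h : BF (lift M) (lift N) univ univ l q) (hx : (x, x') ∈ q) (hy : (y, y') ∈ q) :
    (M, Dn M x y) ∈ S ↔ (N, Dn N x' y') ∈ S := by
  have h2 := (resDn hl2 hx hy h).subset (empty_subset _)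
  constructor
  · intro hm
    exact hS.iso _ _ _ _ hm (hl _ _ _ _ ∅ hm Set.finite_empty (empty_subset _) h2)
  · intro hm
    exact hS.iso _ _ _ _ hm
      (hl _ _ _ _ ∅ hm Set.finite_empty (empty_subset _) (bf_symm0 h2))

/-- the cone is big: for some base in the block -/
def big (S : Set (R2 × Set ℕ)) (M : R2) (u y : ℕ) : Prop :=
  lt M u y ∧ ∃ u', eqv M u u' ∧ (M, Dn M u' y) ∉ S

theorem big_bf {S : Set (R2 × Set ℕ)} {l : Ordinal.{0}} (hS : Fam K S) (hl : Lev S l)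
    (hl2 : Ordinal.omega0 ≤ l) {M N : R2} {q : Set (ℕ × ℕ)} {x y x' y' : ℕ}
    (h : BF (lift M) (lift N) univ univ (l + 1) q) (hx : (x, x') ∈ q) (hy : (y, y') ∈ q) :
    big S M x y ↔ big S N x' y' := by
  unfold big
  rw [piso_lt h.piso hx hy]
  refine and_congr_right fun _ => ?_
  constructor
  · rintro ⟨u, h1, h2⟩
    obtain ⟨u', -, hb⟩ := h.forth (lt_add_one l) (mem_univ u)
    have hu : (u, u') ∈ insert (u, u') q := mem_insert _ _
    exact ⟨u', (E_eqv (piso_pair hb.piso (mem_insert_of_mem _ hx) hu)).1 h1,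
      fun h3 => h2 ((mem_bf hS hl hl2 hb hu (mem_insert_of_mem _ hy)).2 h3)⟩
  · rintro ⟨u', h1, h2⟩
    obtain ⟨u, -, hb⟩ := h.back (lt_add_one l) (mem_univ u')
    have hu : (u, u') ∈ insert (u, u') q := mem_insert _ _
    exact ⟨u, (E_eqv (piso_pair hb.piso (mem_insert_of_mem _ hx) hu)).2 h1,
      fun h3 => h2 ((mem_bf hS hl hl2 hb hu (mem_insert_of_mem _ hy)).1 h3)⟩

theorem meas_big {S : Set (R2 × Set ℕ)} {l : Ordinal.{0}} (hS : Fam K S) (hl : Lev S l)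
    (hl1 : l < Ordinal.omega 1) (m x : ℕ) : MeasurableSet {M : R2 | big S M m x} := by
  have : {M : R2 | big S M m x} = {M : R2 | lt M m x} ∩ ⋃ u, ({M : R2 | ac M 0 m u} ∩
      {M : R2 | (M, Dn M u x) ∈ S}ᶜ) := by
    ext M
    simp only [Set.mem_inter_iff, Set.mem_iUnion]
    exact Iff.rfl
  rw [this]
  exact (meas_lt m x).inter (MeasurableSet.iUnion fun u => (meas_ac 0 m u).inter
    (meas_mem hS hl hl1 u x).compl)

end Pool.Agent.Run7.h201.CTR
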