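import Pool.Agent.Run7.h201.CTR.Fin
import Pool.Agent.Run7.h201.CS.Enc3

set_option autoImplicit false

/-!
# Coherent trees: reductions; structures without a root
-/

namespace Pool.Agent.Run7.h201.CTR

open Set MeasureTheory
open Pool.Agent.H899R2.VP (St PIso IsoOn)
open Pool.Agent.H533R2.VO (RS lift RIso Dich)
open Pool.Agent.H566P (ar R2 lt ac co mk)
open Pool.Agent.Y560.TG (lt_mk ac_mk co_mk piso_iff riso_iff riso_isoOn R2_ext meas_lt meas_ac
  meas_co meas_into iso_trans0 iso_symm0 iso_refl0)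
open Pool.Agent.Run7.h201.CS (E E_iff)
open Pool.Agent.Run7.h201.CS.FC (riso_symm riso_trans m_lt m_ac m_co)

/-- a reduction -/
theorem red {B K : Set R2} {d : R2 → R2} (hB : MeasurableSet B) (hd : Measurable d)
    (hKi : ∀ x y, RIso x y → x ∈ K → y ∈ K) (hKB : ∀ W ∈ K, d W ∈ B)
    (h1 : ∀ W ∈ K, ∀ W' ∈ K, RIso W W' → RIso (d W) (d W'))
    (h2 : ∀ W ∈ K, ∀ W' ∈ K, RIso (d W) (d W') → RIso W W')
    (h3 : ∀ z ∈ B, ∃ W ∈ K, RIso (d W) z) (hD : Dich K) : Dich B := by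
  by_cases hP : ∃ c : (ℕ → Bool) → R2, Continuous c ∧ (∀ A, c A ∈ B) ∧
      ∀ A A', RIso (c A) (c A') → A = A'
  · exact Or.inr hP
  · rcases hD with ⟨f, hf⟩ | ⟨c, hc1, hc2, hc3⟩
    · left
      refine ⟨fun n => d (f n), fun z hz => ?_⟩
      obtain ⟨W, hW, hWz⟩ := h3 z hz
      obtain ⟨n, hn⟩ := hf W hW
      have hfn : f n ∈ K := hKi _ _ (riso_symm hn) hW
      exact ⟨n, riso_trans (h1 _ hfn _ hW hn) hWz⟩
    · exfalso
      refine Pool.Agent.Y117.TG.t_BP B hB hP (ℕ → Bool) ?_ (fun ω => d (c ω)) (fun _ => 0)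
        ?_ measurable_const ?_ ?_
      · exact Pool.Agent.H899R2.VP.not_countable_cantor
      · exact hd.comp hc1.measurable
      · exact fun ω => hKB _ (hc2 ω)
      · intro ω ω' h
        exact hc3 _ _ (h2 _ (hc2 ω) _ (hc2 ω') (riso_isoOn.2 (h.mono (empty_subset _))))

/-! ### Invariance -/

section inv

variable {W W' : R2} {σ : Equiv.Perm ℕ} (h1 : ∀ x y, lt W' (σ x) (σ y) ↔ lt W x y)
  (h2 : ∀ n x y, ac W' n (σ x) (σ y) ↔ ac W n x y)

include h1 h2

theorem E_s (x y : ℕ) : E W W' x y (σ x) (σ y) :=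
  E_iff.2 ⟨(h1 _ _).symm, (h1 _ _).symm, fun n => ⟨(h2 _ _ _).symm, (h2 _ _ _).symm⟩⟩

theorem le_s (x y : ℕ) : le W' (σ x) (σ y) ↔ le W x y := (E_le (E_s h1 h2 x y)).symm

theorem TP_s (h : TP W) : TP W' := by
  have hs : ∀ x, ∃ y, σ y = x := σ.surjective
  have e : ∀ x y, eqv W' (σ x) (σ y) ↔ eqv W x y := fun x y => (E_eqv (E_s h1 h2 x y)).symm
  refine ⟨fun x => ?_, fun x y z => ?_, fun x => ?_, fun x y => ?_, fun x y z => ?_,
    fun x y z => ?_, fun x y z => ?_, fun x y z => ?_, fun x y => ?_, fun n x y => ?_⟩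
  · obtain ⟨x, rfl⟩ := hs x
    rw [h1]; exact h.irr x
  · obtain ⟨x, rfl⟩ := hs x
    obtain ⟨y, rfl⟩ := hs y
    obtain ⟨z, rfl⟩ := hs z
    rw [h1, h1, h1]; exact h.tr x y z
  · obtain ⟨x, rfl⟩ := hs x
    rw [e]; exact h.er x
  · obtain ⟨x, rfl⟩ := hs x
    obtain ⟨y, rfl⟩ := hs y
    rw [e, e]; exact h.es x y
  · obtain ⟨x, rfl⟩ := hs x
    obtain ⟨y, rfl⟩ := hs y
    obtain ⟨z, rfl⟩ := hs z
    rw [e, e, e]; exact h.et x y z
  · obtain ⟨x, rfl⟩ := hs x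
    obtain ⟨y, rfl⟩ := hs y
    obtain ⟨z, rfl⟩ := hs z
    rw [e, h1, h1]; exact h.ell x y z
  · obtain ⟨x, rfl⟩ := hs x
    obtain ⟨y, rfl⟩ := hs y
    obtain ⟨z, rfl⟩ := hs z
    rw [e, h1, h1]; exact h.elr x y z
  · obtain ⟨x, rfl⟩ := hs x
    obtain ⟨y, rfl⟩ := hs y
    obtain ⟨z, rfl⟩ := hs z
    rw [e, h1, h1, h1, h1]; exact h.lin x y z
  · obtain ⟨x, rfl⟩ := hs x
    obtain ⟨y, rfl⟩ := hs y
    obtain ⟨w, w1, w2, w3⟩ := h.meet x y
    refine ⟨σ w, (le_s h1 h2 _ _).2 w1, (le_s h1 h2 _ _).2 w2, fun z => ?_⟩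
    obtain ⟨z, rfl⟩ := hs z
    rw [le_s h1 h2, le_s h1 h2, le_s h1 h2]
    exact w3 z
  · obtain ⟨x, rfl⟩ := hs x
    obtain ⟨y, rfl⟩ := hs y
    rw [h2, le_s h1 h2, le_s h1 h2]
    exact h.loc n x y

theorem Root_s (h : Root W) : Root W' := by
  obtain ⟨r, r1, r2⟩ := h
  refine ⟨σ r, fun z hz => ?_, fun z z' hz hz' => ?_⟩
  · obtain ⟨z, rfl⟩ := σ.surjective z
    exact (h1 _ _).2 (r1 z fun e => hz (by rw [e]))
  · obtain ⟨z, rfl⟩ := σ.surjective z
    obtain ⟨z', rfl⟩ := σ.surjective z'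
    obtain ⟨w, w1, w2, w3⟩ := r2 z z' (fun e => hz (by rw [e])) (fun e => hz' (by rw [e]))
    exact ⟨σ w, (h1 _ _).2 w1, (le_s h1 h2 _ _).2 w2, (le_s h1 h2 _ _).2 w3⟩

theorem PC_s (h : PC W) : PC W' := by
  intro C A hC1 hC2 hAC hcut hne hne'
  have hE : ∀ x y x' y', E W' W' (σ x) (σ y) (σ x') (σ y') ↔ E W W x y x' y' := by
    intro x y x' y'
    exact ⟨fun h => ((E_s h1 h2 x y).trans h).trans (E_s h1 h2 x' y').symm,
      fun h => ((E_s h1 h2 x y).symm.trans h).trans (E_s h1 h2 x' y')⟩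
  have hs : ∀ x, ∃ y, σ y = x := σ.surjective
  obtain ⟨⟨b, hb1, hb2⟩, a, ha1, ha2⟩ := h (σ ⁻¹' C) (σ ⁻¹' A)
    (fun x hx y hy => hC1 _ hx _ ((le_s h1 h2 _ _).2 hy))
    (fun x hx y hy => by
      have := hC2 _ hx _ hy
      rwa [le_s h1 h2, le_s h1 h2] at this)
    (fun x hx => hAC hx)
    (fun x hx y hy hy' => (h1 _ _).1 (hcut _ hx _ hy hy'))
    (by
      obtain ⟨x, hx⟩ := hne
      obtain ⟨x, rfl⟩ := hs x
      exact ⟨x, hx⟩)
    (by
      obtain ⟨x, hx⟩ := hne'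
      obtain ⟨x, rfl⟩ := hs x
      exact ⟨x, hx⟩)
  refine ⟨⟨σ b, hb1, fun z hz z' hz' he w hw => ?_⟩, σ a, ha1, fun w hw w' hw' he z hz => ?_⟩
  · obtain ⟨z, rfl⟩ := hs z
    obtain ⟨z', rfl⟩ := hs z'
    obtain ⟨w, rfl⟩ := hs w
    rw [hE] at he ⊢
    exact hb2 z hz z' hz' he w hw
  · obtain ⟨z, rfl⟩ := hs z
    obtain ⟨w', rfl⟩ := hs w'
    obtain ⟨w, rfl⟩ := hs w
    rw [hE] at he ⊢
    exact ha2 w hw w' hw' he z hz

end inv

theorem Law_s {W W' V V' : R2} {σ τ : Equiv.Perm ℕ}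
    (h1 : ∀ x y, lt W' (σ x) (σ y) ↔ lt W x y)
    (h2 : ∀ n x y, ac W' n (σ x) (σ y) ↔ ac W n x y)
    (k1 : ∀ x y, lt V' (τ x) (τ y) ↔ lt V x y)
    (k2 : ∀ n x y, ac V' n (τ x) (τ y) ↔ ac V n x y) (h : Law W V) : Law W' V' := by
  intro x c y x' c' y' g1 g2 g3 g4
  obtain ⟨x, rfl⟩ := σ.surjective x
  obtain ⟨c, rfl⟩ := σ.surjective c
  obtain ⟨y, rfl⟩ := σ.surjective y
  obtain ⟨x', rfl⟩ := τ.surjective x'
  obtain ⟨c', rfl⟩ := τ.surjective c'
  obtain ⟨y', rfl⟩ := τ.surjective y'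
  rw [le_s h1 h2] at g1 g2
  have e : ∀ x y x' y', E W' V' (σ x) (σ y) (τ x') (τ y') ↔ E W V x y x' y' := fun x y x' y' =>
    ⟨fun h => ((E_s h1 h2 x y).trans h).trans (E_s k1 k2 x' y').symm,
      fun h => ((E_s h1 h2 x y).symm.trans h).trans (E_s k1 k2 x' y')⟩
  rw [e] at g3 g4 ⊢
  exact h _ _ _ _ _ _ g1 g2 g3 g4

/-! ### Forests -/

/-- tree preorders with meets of pairs with a common lower bound -/
structure TF (M : R2) : Prop where
  irr : ∀ x, ¬ lt M x x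
  tr : ∀ x y z, lt M x y → lt M y z → lt M x z
  er : ∀ x, eqv M x x
  es : ∀ x y, eqv M x y → eqv M y x
  et : ∀ x y z, eqv M x y → eqv M y z → eqv M x z
  ell : ∀ x y z, eqv M x y → lt M y z → lt M x z
  elr : ∀ x y z, lt M x y → eqv M y z → lt M x z
  lin : ∀ x y z, lt M x z → lt M y z → lt M x y ∨ eqv M x y ∨ lt M y x
  meet : ∀ x y z, le M z x → le M z y → ∃ w, le M w x ∧ le M w y ∧
    ∀ z, le M z x → le M z y → le M z w
  loc : ∀ n x y, ac M n x y → le M x y ∨ le M y x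

def plt (r : ℕ → ℕ → Prop) : ℕ → ℕ → Prop
  | 0, 0 => False
  | 0, _ + 1 => True
  | _ + 1, 0 => False
  | 1, 1 => False
  | 1, _ + 2 => True
  | _ + 2, 1 => False
  | a + 2, b + 2 => r a b
def peq (r : ℕ → ℕ → Prop) : ℕ → ℕ → Prop
  | 0, 0 => True
  | 0, _ + 1 => False
  | _ + 1, 0 => False
  | 1, 1 => True
  | 1, _ + 2 => False
  | _ + 2, 1 => False
  | a + 2, b + 2 => r a b
def pmk : ℕ → ℕ → Prop
  | 0, _ => True
  | 1, 0 => False
  | 1, _ + 1 => True
  | _ + 2, _ => False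
def prr (r : ℕ → ℕ → Prop) : ℕ → ℕ → Prop
  | a + 2, b + 2 => r a b
  | _, _ => False

/-- two roots are added -/
noncomputable def Pl (M : R2) : R2 :=
  mk (plt (lt M)) (fun n => match n with
    | 0 => peq (ac M 0)
    | 1 => pmk
    | n + 2 => prr (ac M (n + 1)))
    (fun n x => match n, x with
    | 0, 0 => True
    | 0, 1 => True
    | 0, _ + 2 => False
    | _ + 1, 0 => False
    | _ + 1, 1 => False
    | n + 1, a + 2 => co M n a)

section pl

variable {M N : R2}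

theorem lt_Pl (x y : ℕ) : lt (Pl M) x y ↔ plt (lt M) x y := by rw [Pl, lt_mk]
theorem eqv_Pl (x y : ℕ) : eqv (Pl M) x y ↔ peq (ac M 0) x y := by rw [eqv, Pl, ac_mk]
theorem mk_Pl (x y : ℕ) : ac (Pl M) 1 x y ↔ pmk x y := by rw [Pl, ac_mk]
theorem ac_Pl (n x y : ℕ) : ac (Pl M) (n + 2) x y ↔ prr (ac M (n + 1)) x y := by rw [Pl, ac_mk]

theorem le_Pl2 (a b : ℕ) : le (Pl M) (a + 2) (b + 2) ↔ le M a b :=
  or_congr (lt_Pl _ _) (eqv_Pl _ _)
theorem le_Pl0 (y : ℕ) : le (Pl M) 0 y := by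
  rcases y with _ | y
  · exact Or.inr ((eqv_Pl _ _).2 trivial)
  · exact Or.inl ((lt_Pl _ _).2 trivial)
theorem le_Pl1 (y : ℕ) : le (Pl M) 1 (y + 1) := by
  rcases y with _ | y
  · exact Or.inr ((eqv_Pl _ _).2 trivial)
  · exact Or.inl ((lt_Pl _ _).2 trivial)
theorem nle_Pl10 : ¬ le (Pl M) 1 0 := by
  rintro (h | h)
  · exact (lt_Pl _ _).1 h
  · exact (eqv_Pl _ _).1 h
theorem nle_Pl20 (a : ℕ) : ¬ le (Pl M) (a + 2) 0 := by
  rintro (h | h)
  · exact (lt_Pl _ _).1 h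
  · exact (eqv_Pl _ _).1 h
theorem nle_Pl21 (a : ℕ) : ¬ le (Pl M) (a + 2) 1 := by
  rintro (h | h)
  · exact (lt_Pl _ _).1 h
  · exact (eqv_Pl _ _).1 h

theorem E_Pl2 {a b c d : ℕ} : E (Pl M) (Pl N) (a + 2) (b + 2) (c + 2) (d + 2) ↔
    E M N a b c d := by
  rw [E_iff, E_iff]
  simp only [lt_Pl]
  refine and_congr Iff.rfl (and_congr Iff.rfl ?_)
  constructor
  · intro h n
    rcases n with _ | n
    · have := h 0
      unfold Pl at this
      simp only [ac_mk] at this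
      exact this
    · have := h (n + 2)
      simp only [ac_Pl] at this
      exact this
  · intro h n
    rcases n with _ | _ | n
    · unfold Pl
      simp only [ac_mk]
      exact h 0
    · exact ⟨iff_of_false (fun h => (mk_Pl _ _).1 h) (fun h => (mk_Pl _ _).1 h),
        iff_of_false (fun h => (mk_Pl _ _).1 h) (fun h => (mk_Pl _ _).1 h)⟩
    · simp only [ac_Pl]
      exact h (n + 1)

theorem E_rt {x y x' y' : ℕ} (hx : x < 2) (hx' : x' < 2) (h : lt (Pl M) x y)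
    (h' : lt (Pl N) x' y') : E (Pl M) (Pl N) x y x' y' := by
  rw [lt_Pl] at h h'
  rw [E_iff]
  simp only [lt_Pl]
  have key : ∀ {M : R2} {x y : ℕ}, x < 2 → plt (lt M) x y → ¬ plt (lt M) y x ∧
      ∀ n, (ac (Pl M) n x y ↔ n = 1) ∧ (ac (Pl M) n y x ↔ False) := by
    intro M x y hx h
    rcases x with _ | _ | x
    · rcases y with _ | _ | y
      · exact absurd h id
      · refine ⟨id, fun n => ?_⟩
        rcases n with _ | _ | n
        · exact ⟨iff_of_false (fun h => (eqv_Pl _ _).1 h) (by simp),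
            iff_of_false (fun h => (eqv_Pl _ _).1 h) id⟩
        · exact ⟨iff_of_true ((mk_Pl _ _).2 trivial) rfl,
            iff_of_false (fun h => (mk_Pl _ _).1 h) id⟩
        · exact ⟨iff_of_false (fun h => (ac_Pl _ _ _).1 h) (by omega),
            iff_of_false (fun h => (ac_Pl _ _ _).1 h) id⟩
      · refine ⟨id, fun n => ?_⟩
        rcases n with _ | _ | n
        · exact ⟨iff_of_false (fun h => (eqv_Pl _ _).1 h) (by simp),
            iff_of_false (fun h => (eqv_Pl _ _).1 h) id⟩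
        · exact ⟨iff_of_true ((mk_Pl _ _).2 trivial) rfl,
            iff_of_false (fun h => (mk_Pl _ _).1 h) id⟩
        · exact ⟨iff_of_false (fun h => (ac_Pl _ _ _).1 h) (by omega),
            iff_of_false (fun h => (ac_Pl _ _ _).1 h) id⟩
    · rcases y with _ | _ | y
      · exact absurd h id
      · exact absurd h id
      · refine ⟨id, fun n => ?_⟩
        rcases n with _ | _ | n
        · exact ⟨iff_of_false (fun h => (eqv_Pl _ _).1 h) (by simp),
            iff_of_false (fun h => (eqv_Pl _ _).1 h) id⟩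
        · exact ⟨iff_of_true ((mk_Pl _ _).2 trivial) rfl,
            iff_of_false (fun h => (mk_Pl _ _).1 h) id⟩
        · exact ⟨iff_of_false (fun h => (ac_Pl _ _ _).1 h) (by omega),
            iff_of_false (fun h => (ac_Pl _ _ _).1 h) id⟩
    · omega
  obtain ⟨a1, a2⟩ := key (M := M) hx h
  obtain ⟨b1, b2⟩ := key (M := N) hx' h'
  exact ⟨iff_of_true h h', iff_of_false a1 b1, fun n =>
    ⟨(a2 n).1.trans (b2 n).1.symm, (a2 n).2.trans (b2 n).2.symm⟩⟩

theorem TP_Pl (h : TF M) : TP (Pl M) := by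
  refine ⟨?_, ?_, ?_, ?_, ?_, ?_, ?_, ?_, ?_, ?_⟩
  · intro x
    rw [lt_Pl]
    rcases x with _ | _ | x
    · exact id
    · exact id
    · exact h.irr x
  · intro x y z
    rw [lt_Pl, lt_Pl, lt_Pl]
    rcases x with _ | _ | x <;> rcases y with _ | _ | y <;> rcases z with _ | _ | z <;>
      simp only [plt, false_imp_iff, imp_true_iff, imp_false, not_true, not_false_eq_true,
        true_imp_iff, implies_true]
    exact h.tr x y z
  · intro x
    rw [eqv_Pl]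
    rcases x with _ | _ | x
    · exact trivial
    · exact trivial
    · exact h.er x
  · intro x y
    rw [eqv_Pl, eqv_Pl]
    rcases x with _ | _ | x <;> rcases y with _ | _ | y <;>
      simp only [peq, false_imp_iff, imp_true_iff, true_imp_iff, implies_true]
    exact h.es x y
  · intro x y z
    rw [eqv_Pl, eqv_Pl, eqv_Pl]
    rcases x with _ | _ | x <;> rcases y with _ | _ | y <;> rcases z with _ | _ | z <;>
      simp only [peq, false_imp_iff, imp_true_iff, true_imp_iff, implies_true]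
    exact h.et x y z
  · intro x y z
    rw [eqv_Pl, lt_Pl, lt_Pl]
    rcases x with _ | _ | x <;> rcases y with _ | _ | y <;> rcases z with _ | _ | z <;>
      simp only [plt, peq, false_imp_iff, imp_true_iff, true_imp_iff, implies_true]
    exact h.ell x y z
  · intro x y z
    rw [eqv_Pl, lt_Pl, lt_Pl]
    rcases x with _ | _ | x <;> rcases y with _ | _ | y <;> rcases z with _ | _ | z <;>
      simp only [plt, peq, false_imp_iff, imp_true_iff, true_imp_iff, implies_true]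
    exact h.elr x y z
  · intro x y z
    rw [eqv_Pl, lt_Pl, lt_Pl, lt_Pl, lt_Pl]
    rcases x with _ | _ | x <;> rcases y with _ | _ | y <;> rcases z with _ | _ | z <;>
      simp only [plt, peq, false_imp_iff, imp_true_iff, true_imp_iff, implies_true, true_or,
        or_true, or_false, false_or]
    exact h.lin x y z
  · intro x y
    rcases x with _ | _ | x
    · exact ⟨0, le_Pl0 _, le_Pl0 _, fun z hz _ => hz⟩
    · rcases y with _ | y
      · exact ⟨0, le_Pl0 _, le_Pl0 _, fun z _ hz => hz⟩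
      · exact ⟨1, le_Pl1 _, le_Pl1 _, fun z hz _ => hz⟩
    · rcases y with _ | _ | y
      · exact ⟨0, le_Pl0 _, le_Pl0 _, fun z _ hz => hz⟩
      · exact ⟨1, le_Pl1 _, le_Pl1 _, fun z _ hz => hz⟩
      · by_cases hz : ∃ z, le M z x ∧ le M z y
        · obtain ⟨z, hz1, hz2⟩ := hz
          obtain ⟨w, w1, w2, w3⟩ := h.meet x y z hz1 hz2
          refine ⟨w + 2, (le_Pl2 _ _).2 w1, (le_Pl2 _ _).2 w2, fun z h1 h2 => ?_⟩
          rcases z with _ | _ | z
          · exact le_Pl0 _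
          · exact le_Pl1 _
          · exact (le_Pl2 _ _).2 (w3 z ((le_Pl2 _ _).1 h1) ((le_Pl2 _ _).1 h2))
        · refine ⟨1, le_Pl1 _, le_Pl1 _, fun z h1 h2 => ?_⟩
          rcases z with _ | _ | z
          · exact le_Pl0 _
          · exact le_Pl1 _
          · exact absurd ⟨z, (le_Pl2 _ _).1 h1, (le_Pl2 _ _).1 h2⟩ hz
  · intro n x y hn
    rcases x with _ | _ | x
    · exact Or.inl (le_Pl0 _)
    · rcases y with _ | y
      · exact Or.inr (le_Pl0 _)
      · exact Or.inl (le_Pl1 _)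
    · rcases y with _ | _ | y
      · exact Or.inr (le_Pl0 _)
      · exact Or.inr (le_Pl1 _)
      · rw [le_Pl2, le_Pl2]
        rcases n with _ | _ | n
        · exact h.loc 0 x y ((eqv_Pl _ _).1 hn)
        · exact absurd ((mk_Pl _ _).1 hn) id
        · exact h.loc (n + 1) x y ((ac_Pl _ _ _).1 hn)

theorem Root_Pl : Root (Pl M) := by
  refine ⟨0, fun z hz => ?_, fun z z' hz hz' => ⟨1, ?_, ?_, ?_⟩⟩
  · obtain ⟨z, rfl⟩ := Nat.exists_eq_succ_of_ne_zero hz
    exact (lt_Pl _ _).2 trivial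
  · exact (lt_Pl _ _).2 trivial
  · obtain ⟨z, rfl⟩ := Nat.exists_eq_succ_of_ne_zero hz
    exact le_Pl1 _
  · obtain ⟨z, rfl⟩ := Nat.exists_eq_succ_of_ne_zero hz'
    exact le_Pl1 _

theorem mark_iff {x y : ℕ} (h : le (Pl M) x y) : ac (Pl M) 1 x y ↔ x < 2 := by
  rw [mk_Pl]
  rcases x with _ | _ | x
  · exact iff_of_true trivial (by omega)
  · rcases y with _ | y
    · exact absurd h nle_Pl10
    · exact iff_of_true trivial (by omega)
  · exact iff_of_false id (by omega)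

theorem Law_Pl (hM : TF M) (hN : TF N) (h : Law M N) : Law (Pl M) (Pl N) := by
  intro x c y x' c' y' h1 h2 h3 h4
  have h1' := (E_le h3).1 h1
  have h2' := (E_le h4).1 h2
  have hm : x < 2 ↔ x' < 2 := by
    rw [← mark_iff h1, ← mark_iff h1']
    exact h3.a 1
  by_cases hx : x < 2
  · have hx' := hm.1 hx
    rcases h1 with h1 | h1
    · have h5 := h3.l.1 h1
      exact E_rt hx hx' ((TP_Pl hM).lt_le h1 h2) ((TP_Pl hN).lt_le h5 h2')
    · have h5 := (E_eqv h3).1 h1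
      rw [eqv_Pl] at h1 h5
      have e1 : ∀ {r : ℕ → ℕ → Prop} {x c : ℕ}, x < 2 → peq r x c → x = c := by
        intro r x c hx h
        rcases x with _ | _ | x
        · rcases c with _ | c
          · rfl
          · exact absurd h id
        · rcases c with _ | _ | c
          · exact absurd h id
          · rfl
          · exact absurd h id
        · omega
      rw [e1 hx h1, e1 hx' h5]
      exact h4
  · have hx' : ¬ x' < 2 := fun h => hx (hm.2 h)
    have key : ∀ {M : R2} {a b : ℕ}, ¬ a < 2 → le (Pl M) a b → ¬ b < 2 := by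
      intro M a b ha h
      rcases a with _ | _ | a
      · omega
      · omega
      · rcases b with _ | _ | b
        · exact absurd h (nle_Pl20 a)
        · exact absurd h (nle_Pl21 a)
        · omega
    have hc := key hx h1
    have hc' := key hx' h1'
    have hy := key hc h2
    have hy' := key hc' h2'
    obtain ⟨x, rfl⟩ : ∃ a, x = a + 2 := ⟨x - 2, by omega⟩
    obtain ⟨x', rfl⟩ : ∃ a, x' = a + 2 := ⟨x' - 2, by omega⟩
    obtain ⟨c, rfl⟩ : ∃ a, c = a + 2 := ⟨c - 2, by omega⟩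
    obtain ⟨c', rfl⟩ : ∃ a, c' = a + 2 := ⟨c' - 2, by omega⟩
    obtain ⟨y, rfl⟩ : ∃ a, y = a + 2 := ⟨y - 2, by omega⟩
    obtain ⟨y', rfl⟩ : ∃ a, y' = a + 2 := ⟨y' - 2, by omega⟩
    rw [E_Pl2] at h3 h4 ⊢
    rw [le_Pl2] at h1 h2
    exact h _ _ _ _ _ _ h1 h2 h3 h4

theorem PC_Pl (hM : TF M) (h : PC M) : PC (Pl M) := by
  intro C A hC1 hC2 hAC hcut hne hne'
  have hP := TP_Pl hM
  by_cases hA : ∃ a, a + 2 ∈ A
  · obtain ⟨a0, ha0⟩ := hA
    have hup : ∀ y ∈ C, y ∉ A → ¬ y < 2 := by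
      intro y hy hyA hlt
      have h1 := hcut _ ha0 y hy hyA
      rcases y with _ | _ | y
      · exact nle_Pl20 _ (Or.inl h1)
      · exact nle_Pl21 _ (Or.inl h1)
      · omega
    have hlt2 : ∀ a b : ℕ, lt (Pl M) (a + 2) (b + 2) ↔ lt M a b := fun a b => lt_Pl _ _
    obtain ⟨⟨b, hb1, hb2⟩, a, ha1, ha2⟩ := h {a | a + 2 ∈ C} {a | a + 2 ∈ A}
      (fun x hx y hy => hC1 _ hx _ ((le_Pl2 _ _).2 hy))
      (fun x hx y hy => by
        have := hC2 _ hx _ hy
        rwa [le_Pl2, le_Pl2] at this)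
      (fun x hx => hAC hx)
      (fun x hx y hy hy' => (hlt2 _ _).1 (hcut _ hx _ hy hy'))
      ⟨a0, ha0⟩
      (by
        obtain ⟨y, hy⟩ := hne'
        have := hup y hy.1 hy.2
        obtain ⟨y, rfl⟩ : ∃ a, y = a + 2 := ⟨y - 2, by omega⟩
        exact ⟨y, hy⟩)
    refine ⟨⟨b + 2, hb1, fun z hz z' hz' he w hw => ?_⟩, a + 2, ha1,
      fun w hw w' hw' he z hz => ?_⟩
    · have hw2 := hup w hw.1 hw.2
      have l1 := hcut z hz w hw.1 hw.2
      have l2 := hcut z' hz' w hw.1 hw.2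
      have hm : z < 2 ↔ z' < 2 := by
        rw [← mark_iff (M := M) (Or.inl (hcut z hz _ hb1.1 hb1.2)),
          ← mark_iff (M := M) (Or.inl (hcut z' hz' _ hb1.1 hb1.2))]
        exact he.a 1
      by_cases h2 : z < 2
      · exact E_rt h2 (hm.1 h2) l1 l2
      · have h2' : ¬ z' < 2 := fun h => h2 (hm.2 h)
        obtain ⟨z, rfl⟩ : ∃ a, z = a + 2 := ⟨z - 2, by omega⟩
        obtain ⟨z', rfl⟩ : ∃ a, z' = a + 2 := ⟨z' - 2, by omega⟩
        obtain ⟨w, rfl⟩ : ∃ a, w = a + 2 := ⟨w - 2, by omega⟩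
        rw [E_Pl2] at he ⊢
        exact hb2 z hz z' hz' he w hw
    · have hw2 := hup w hw.1 hw.2
      have hw2' := hup w' hw'.1 hw'.2
      have l1 := hcut z hz w hw.1 hw.2
      have l2 := hcut z hz w' hw'.1 hw'.2
      by_cases h2 : z < 2
      · exact E_rt h2 h2 l1 l2
      · obtain ⟨z, rfl⟩ : ∃ a, z = a + 2 := ⟨z - 2, by omega⟩
        obtain ⟨w', rfl⟩ : ∃ a, w' = a + 2 := ⟨w' - 2, by omega⟩
        obtain ⟨w, rfl⟩ : ∃ a, w = a + 2 := ⟨w - 2, by omega⟩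
        rw [E_Pl2] at he ⊢
        exact ha2 w hw w' hw' he z hz
  · have hA2 : ∀ z ∈ A, z < 2 := by
      intro z hz
      by_contra h2
      exact hA ⟨z - 2, by rwa [show z - 2 + 2 = z by omega]⟩
    obtain ⟨b, hb⟩ := hne'
    obtain ⟨a, ha⟩ := hne
    refine ⟨⟨b, hb, fun z hz z' hz' _ w hw => ?_⟩, a, ha, fun w hw w' hw' _ z hz => ?_⟩
    · exact E_rt (hA2 z hz) (hA2 z' hz') (hcut z hz w hw.1 hw.2) (hcut z' hz' w hw.1 hw.2)
    · exact E_rt (hA2 z hz) (hA2 z hz) (hcut z hz w hw.1 hw.2) (hcut z hz w' hw'.1 hw'.2)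

end pl

end Pool.Agent.Run7.h201.CTR
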