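import Pool.Agent.Run7.h201.CTR.Red

set_option autoImplicit false

/-!
# Coherent trees: the theorem for structures without a root
-/

namespace Pool.Agent.Run7.h201.CTR

open Set MeasureTheory
open Pool.Agent.H899R2.VP (St PIso IsoOn)
open Pool.Agent.H533R2.VO (RS lift RIso Dich)
open Pool.Agent.H566P (ar R2 lt ac co mk)
open Pool.Agent.Y560.TG (lt_mk ac_mk co_mk piso_iff riso_iff riso_isoOn R2_ext meas_lt meas_ac
  meas_co meas_into iso_trans0 iso_symm0 iso_refl0)
open Pool.Agent.Run7.h201.CS (E E_iff)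
open Pool.Agent.Run7.h201.CS.FC (riso_symm riso_trans m_lt m_ac m_co)

/-- the shape of `Pl M` -/
structure Xx (W : R2) (a b : ℕ) : Prop where
  ne : a ≠ b
  c0 : ∀ x, co W 0 x ↔ x = a ∨ x = b
  l1 : ∀ x, lt W a x ↔ x ≠ a
  l2 : ∀ x, ¬ lt W x a
  l3 : ∀ x, lt W b x ↔ x ≠ a ∧ x ≠ b
  l4 : ∀ x, lt W x b ↔ x = a
  e1 : ∀ x, ac W 0 a x ↔ x = a
  e2 : ∀ x, ac W 0 x a ↔ x = a
  e3 : ∀ x, ac W 0 b x ↔ x = b
  e4 : ∀ x, ac W 0 x b ↔ x = b
  m1 : ∀ x y, ac W 1 x y ↔ x = a ∨ (x = b ∧ y ≠ a)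
  a1 : ∀ n x, ¬ ac W (n + 2) a x ∧ ¬ ac W (n + 2) x a ∧ ¬ ac W (n + 2) b x ∧
    ¬ ac W (n + 2) x b
  c1 : ∀ n, ¬ co W (n + 1) a ∧ ¬ co W (n + 1) b

/-- the index -/
def sh : ℕ → ℕ
  | 0 => 0
  | n + 1 => n + 2

/-- the elements which are not roots -/
noncomputable def nr (W : R2) (i : ℕ) : ℕ := Nat.nth (fun x => ¬ co W 0 x) i

/-- the structure without the roots -/
noncomputable def dd (W : R2) : R2 :=
  mk (fun i j => lt W (nr W i) (nr W j)) (fun n i j => ac W (sh n) (nr W i) (nr W j))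
    (fun n i => co W (n + 1) (nr W i))

theorem Xx_Pl (M : R2) : Xx (Pl M) 0 1 := by
  refine ⟨Nat.zero_ne_one, ?_, ?_, ?_, ?_, ?_, ?_, ?_, ?_, ?_, ?_, ?_, ?_⟩
  · intro x
    rw [Pl, co_mk]
    rcases x with _ | _ | x
    · exact iff_of_true trivial (by omega)
    · exact iff_of_true trivial (by omega)
    · exact iff_of_false id (by omega)
  · intro x
    rw [lt_Pl]
    rcases x with _ | _ | x
    · exact iff_of_false id (by omega)
    · exact iff_of_true trivial (by omega)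
    · exact iff_of_true trivial (by omega)
  · intro x
    rw [lt_Pl]
    rcases x with _ | _ | x <;> exact id
  · intro x
    rw [lt_Pl]
    rcases x with _ | _ | x
    · exact iff_of_false id (by omega)
    · exact iff_of_false id (by omega)
    · exact iff_of_true trivial (by omega)
  · intro x
    rw [lt_Pl]
    rcases x with _ | _ | x
    · exact iff_of_true trivial (by omega)
    · exact iff_of_false id (by omega)
    · exact iff_of_false id (by omega)
  · intro x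
    rw [← eqv, eqv_Pl]
    rcases x with _ | _ | x
    · exact iff_of_true trivial (by omega)
    · exact iff_of_false id (by omega)
    · exact iff_of_false id (by omega)
  · intro x
    rw [← eqv, eqv_Pl]
    rcases x with _ | _ | x
    · exact iff_of_true trivial (by omega)
    · exact iff_of_false id (by omega)
    · exact iff_of_false id (by omega)
  · intro x
    rw [← eqv, eqv_Pl]
    rcases x with _ | _ | x
    · exact iff_of_false id (by omega)
    · exact iff_of_true trivial (by omega)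
    · exact iff_of_false id (by omega)
  · intro x
    rw [← eqv, eqv_Pl]
    rcases x with _ | _ | x
    · exact iff_of_false id (by omega)
    · exact iff_of_true trivial (by omega)
    · exact iff_of_false id (by omega)
  · intro x y
    rw [mk_Pl]
    rcases x with _ | _ | x
    · exact iff_of_true trivial (by omega)
    · rcases y with _ | y
      · exact iff_of_false id (by omega)
      · exact iff_of_true trivial (by omega)
    · exact iff_of_false id (by omega)
  · intro n x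
    rw [ac_Pl, ac_Pl, ac_Pl, ac_Pl]
    rcases x with _ | _ | x <;> exact ⟨id, id, id, id⟩
  · intro n
    rw [Pl, co_mk, co_mk]
    exact ⟨id, id⟩

theorem sh_Pl {M : R2} (n x y : ℕ) : ac (Pl M) (sh n) (x + 2) (y + 2) ↔ ac M n x y := by
  rcases n with _ | n
  · show ac (Pl M) 0 (x + 2) (y + 2) ↔ _
    rw [← eqv, eqv_Pl]
    exact Iff.rfl
  · show ac (Pl M) (n + 2) (x + 2) (y + 2) ↔ _
    rw [ac_Pl]
    exact Iff.rfl

theorem coS_Pl {M : R2} (n x : ℕ) : co (Pl M) (n + 1) (x + 2) ↔ co M n x := by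
  rw [Pl, co_mk]

theorem Pl_inj {M N : R2} (h : RIso (Pl M) (Pl N)) : RIso M N := by
  obtain ⟨σ, h1, h2, h3⟩ := riso_iff.1 h
  have hr : ∀ x, σ x < 2 ↔ x < 2 := by
    intro x
    have h4 := h3 0 x
    rw [(Xx_Pl M).c0, (Xx_Pl N).c0] at h4
    omega
  have e1 : ∀ i, σ (i + 2) - 2 + 2 = σ (i + 2) := fun i => by
    have := hr (i + 2)
    omega
  have e2 : ∀ i, σ.symm (i + 2) - 2 + 2 = σ.symm (i + 2) := fun i => by
    have := hr (σ.symm (i + 2))
    rw [Equiv.apply_symm_apply] at this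
    omega
  refine riso_iff.2 ⟨⟨fun i => σ (i + 2) - 2, fun i => σ.symm (i + 2) - 2, fun i => ?_,
    fun i => ?_⟩, fun x y => ?_, fun n x y => ?_, fun n x => ?_⟩
  · show σ.symm (σ (i + 2) - 2 + 2) - 2 = i
    rw [e1, Equiv.symm_apply_apply]
    omega
  · show σ (σ.symm (i + 2) - 2 + 2) - 2 = i
    rw [e2, Equiv.apply_symm_apply]
    omega
  · show lt N (σ (x + 2) - 2) (σ (y + 2) - 2) ↔ _
    have h4 := h1 (x + 2) (y + 2)
    rw [← e1 x, ← e1 y, lt_Pl, lt_Pl] at h4
    exact h4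
  · show ac N n (σ (x + 2) - 2) (σ (y + 2) - 2) ↔ _
    have h4 := h2 (sh n) (x + 2) (y + 2)
    rw [← e1 x, ← e1 y, sh_Pl, sh_Pl] at h4
    exact h4
  · show co N n (σ (x + 2) - 2) ↔ _
    have h4 := h3 (n + 1) (x + 2)
    rw [← e1 x, coS_Pl, coS_Pl] at h4
    exact h4

/-- a bijection gives an isomorphism -/
theorem Xx_riso {M W : R2} {a b : ℕ} (hX : Xx W a b) (e : ℕ → ℕ) (he : Function.Injective e)
    (hr : ∀ x, (∃ i, e i = x) ↔ x ≠ a ∧ x ≠ b)
    (k1 : ∀ i j, lt W (e i) (e j) ↔ lt M i j)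
    (k2 : ∀ n i j, ac W (sh n) (e i) (e j) ↔ ac M n i j)
    (k3 : ∀ n i, co W (n + 1) (e i) ↔ co M n i) : RIso (Pl M) W := by
  set τ : ℕ → ℕ := fun x => match x with
    | 0 => a
    | 1 => b
    | i + 2 => e i with hτ
  have t0 : τ 0 = a := rfl
  have t1 : τ 1 = b := rfl
  have t2 : ∀ i, τ (i + 2) = e i := fun i => rfl
  have hne : ∀ i, e i ≠ a ∧ e i ≠ b := fun i => (hr _).1 ⟨i, rfl⟩
  have hinj : Function.Injective τ := by
    intro x y h
    rcases x with _ | _ | x <;> rcases y with _ | _ | y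
    · rfl
    · exact absurd h hX.ne
    · exact absurd h.symm (hne y).1
    · exact absurd h.symm hX.ne
    · rfl
    · exact absurd h.symm (hne y).2
    · exact absurd h (hne x).1
    · exact absurd h (hne x).2
    · have := he (h : e x = e y)
      rw [this]
  have hsur : Function.Surjective τ := by
    intro x
    by_cases hxa : x = a
    · exact ⟨0, hxa.symm⟩
    · by_cases hxb : x = b
      · exact ⟨1, hxb.symm⟩
      · obtain ⟨i, hi⟩ := (hr x).2 ⟨hxa, hxb⟩
        exact ⟨i + 2, hi⟩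
  refine riso_iff.2 ⟨Equiv.ofBijective τ ⟨hinj, hsur⟩, fun x y => ?_, fun n x y => ?_,
    fun n x => ?_⟩
  · show lt W (τ x) (τ y) ↔ _
    rcases x with _ | _ | x <;> rcases y with _ | _ | y
    · exact iff_of_false (hX.l2 _) ((Xx_Pl M).l2 _)
    · exact (hX.l1 _).trans (iff_of_true hX.ne.symm ((Xx_Pl M).l1 1 |>.2 (by simp)))
    · exact iff_of_true ((hX.l1 _).2 (hne y).1) ((Xx_Pl M).l1 _ |>.2 (by simp))
    · exact iff_of_false (hX.l2 _) ((Xx_Pl M).l2 _)
    · exact iff_of_false (fun h => ((hX.l3 _).1 h).2 rfl) (fun h => ((Xx_Pl M).l3 1 |>.1 h).2 rfl)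
    · exact iff_of_true ((hX.l3 _).2 (hne y)) ((Xx_Pl M).l3 _ |>.2 ⟨by simp, by simp⟩)
    · exact iff_of_false (hX.l2 _) ((Xx_Pl M).l2 _)
    · exact iff_of_false (fun h => (hne x).1 ((hX.l4 _).1 h))
        (fun h => by
          have := (Xx_Pl M).l4 _ |>.1 h
          omega)
    · exact (k1 x y).trans (lt_Pl (M := M) (x + 2) (y + 2)).symm
  · show ac W n (τ x) (τ y) ↔ _
    rcases n with _ | _ | n
    · rcases x with _ | _ | x <;> rcases y with _ | _ | y
      · exact iff_of_true ((hX.e1 _).2 rfl) ((Xx_Pl M).e1 _ |>.2 rfl)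
      · exact iff_of_false (fun h => hX.ne ((hX.e1 _).1 h).symm)
          (fun h => by
            have := (Xx_Pl M).e1 _ |>.1 h
            omega)
      · exact iff_of_false (fun h => (hne y).1 ((hX.e1 _).1 h))
          (fun h => by
            have := (Xx_Pl M).e1 _ |>.1 h
            omega)
      · exact iff_of_false (fun h => hX.ne ((hX.e2 _).1 h).symm)
          (fun h => by
            have := (Xx_Pl M).e2 _ |>.1 h
            omega)
      · exact iff_of_true ((hX.e3 _).2 rfl) ((Xx_Pl M).e3 _ |>.2 rfl)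
      · exact iff_of_false (fun h => (hne y).2 ((hX.e3 _).1 h))
          (fun h => by
            have := (Xx_Pl M).e3 _ |>.1 h
            omega)
      · exact iff_of_false (fun h => (hne x).1 ((hX.e2 _).1 h))
          (fun h => by
            have := (Xx_Pl M).e2 _ |>.1 h
            omega)
      · exact iff_of_false (fun h => (hne x).2 ((hX.e4 _).1 h))
          (fun h => by
            have := (Xx_Pl M).e4 _ |>.1 h
            omega)
      · exact (k2 0 x y).trans (sh_Pl 0 x y).symm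
    · show ac W 1 (τ x) (τ y) ↔ ac (Pl M) 1 x y
      rw [hX.m1, (Xx_Pl M).m1]
      rcases x with _ | _ | x
      · exact iff_of_true (Or.inl rfl) (Or.inl rfl)
      · rcases y with _ | _ | y
        · exact iff_of_false (fun h => by
            rcases h with h | h
            · exact hX.ne h.symm
            · exact h.2 rfl) (by omega)
        · exact iff_of_true (Or.inr ⟨rfl, hX.ne.symm⟩) (by omega)
        · exact iff_of_true (Or.inr ⟨rfl, (hne y).1⟩) (by omega)
      · refine iff_of_false (fun h => ?_) (by omega)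
        rcases h with h | h
        · exact (hne x).1 h
        · exact (hne x).2 h.1
    · have a1 := fun x => hX.a1 n x
      have a2 := fun x => (Xx_Pl M).a1 n x
      rcases x with _ | _ | x
      · exact iff_of_false (a1 _).1 (a2 _).1
      · exact iff_of_false (a1 _).2.2.1 (a2 _).2.2.1
      · rcases y with _ | _ | y
        · exact iff_of_false (a1 _).2.1 (a2 _).2.1
        · exact iff_of_false (a1 _).2.2.2 (a2 _).2.2.2
        · exact (k2 (n + 1) x y).trans (sh_Pl (n + 1) x y).symm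
  · show co W n (τ x) ↔ _
    rcases n with _ | n
    · rw [hX.c0, (Xx_Pl M).c0]
      rcases x with _ | _ | x
      · exact iff_of_true (Or.inl rfl) (Or.inl rfl)
      · exact iff_of_true (Or.inr rfl) (Or.inr rfl)
      · refine iff_of_false (fun h => ?_) (by omega)
        rcases h with h | h
        · exact (hne x).1 h
        · exact (hne x).2 h
    · rcases x with _ | _ | x
      · exact iff_of_false (hX.c1 n).1 ((Xx_Pl M).c1 n).1
      · exact iff_of_false (hX.c1 n).2 ((Xx_Pl M).c1 n).2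
      · exact (k3 n x).trans (coS_Pl n x).symm

theorem Xx_inf {W : R2} {a b : ℕ} (hX : Xx W a b) : (Set.ofPred fun x => ¬ co W 0 x).Infinite := by
  intro hf
  refine Set.infinite_univ (α := ℕ) ((hf.union ((finite_singleton a).insert b)).subset ?_)
  intro x _
  by_cases h : co W 0 x
  · rcases (hX.c0 x).1 h with h1 | h1
    · exact Or.inr (Or.inr h1)
    · exact Or.inr (Or.inl h1)
  · exact Or.inl h

theorem Xx_dd {W : R2} {a b : ℕ} (hX : Xx W a b) : RIso (Pl (dd W)) W := by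
  classical
  have hinf := Xx_inf hX
  refine Xx_riso hX (nr W) (Nat.nth_injective hinf) (fun x => ?_) (fun i j => ?_)
    (fun n i j => ?_) (fun n i => ?_)
  · constructor
    · rintro ⟨i, rfl⟩
      have h1 : ¬ co W 0 (nr W i) := Nat.nth_mem_of_infinite hinf i
      rw [hX.c0, not_or] at h1
      exact h1
    · rintro ⟨h1, h2⟩
      have h3 : ¬ co W 0 x := by
        rw [hX.c0]
        rintro (h | h)
        · exact h1 h
        · exact h2 h
      exact ⟨Nat.count (fun x => ¬ co W 0 x) x, Nat.nth_count h3⟩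
  · rw [dd, lt_mk]
  · rw [dd, ac_mk]
  · rw [dd, co_mk]

theorem Pl_map {M N : R2} (h : RIso M N) : RIso (Pl M) (Pl N) := by
  obtain ⟨σ, h1, h2, h3⟩ := riso_iff.1 h
  refine Xx_riso (Xx_Pl N) (fun i => σ i + 2) (fun i j hij => ?_) (fun x => ?_) (fun i j => ?_)
    (fun n i j => ?_) (fun n i => ?_)
  · exact σ.injective (by simpa using hij)
  · constructor
    · rintro ⟨i, rfl⟩
      omega
    · intro hx
      refine ⟨σ.symm (x - 2), ?_⟩
      show σ (σ.symm (x - 2)) + 2 = x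
      rw [Equiv.apply_symm_apply]
      omega
  · rw [lt_Pl]
    exact h1 i j
  · rw [sh_Pl]
    exact h2 n i j
  · rw [coS_Pl]
    exact h3 n i

theorem Xx_s {W W' : R2} {σ : Equiv.Perm ℕ} (h1 : ∀ x y, lt W' (σ x) (σ y) ↔ lt W x y)
    (h2 : ∀ n x y, ac W' n (σ x) (σ y) ↔ ac W n x y) (h3 : ∀ n x, co W' n (σ x) ↔ co W n x)
    {a b : ℕ} (h : Xx W a b) : Xx W' (σ a) (σ b) := by
  have hs : ∀ x, ∃ y, σ y = x := σ.surjective
  have hi : ∀ x y, σ x = σ y ↔ x = y := fun x y => σ.injective.eq_iff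
  refine ⟨fun e => h.ne (σ.injective e), ?_, ?_, ?_, ?_, ?_, ?_, ?_, ?_, ?_, ?_, ?_, ?_⟩
  · intro x; obtain ⟨x, rfl⟩ := hs x; rw [h3, hi, hi]; exact h.c0 x
  · intro x; obtain ⟨x, rfl⟩ := hs x; rw [h1, Ne, hi]; exact h.l1 x
  · intro x; obtain ⟨x, rfl⟩ := hs x; rw [h1]; exact h.l2 x
  · intro x; obtain ⟨x, rfl⟩ := hs x; rw [h1, Ne, Ne, hi, hi]; exact h.l3 x
  · intro x; obtain ⟨x, rfl⟩ := hs x; rw [h1, hi]; exact h.l4 x
  · intro x; obtain ⟨x, rfl⟩ := hs x; rw [h2, hi]; exact h.e1 x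
  · intro x; obtain ⟨x, rfl⟩ := hs x; rw [h2, hi]; exact h.e2 x
  · intro x; obtain ⟨x, rfl⟩ := hs x; rw [h2, hi]; exact h.e3 x
  · intro x; obtain ⟨x, rfl⟩ := hs x; rw [h2, hi]; exact h.e4 x
  · intro x y
    obtain ⟨x, rfl⟩ := hs x
    obtain ⟨y, rfl⟩ := hs y
    rw [h2, hi, hi, Ne, hi]; exact h.m1 x y
  · intro n x; obtain ⟨x, rfl⟩ := hs x; rw [h2, h2, h2, h2]; exact h.a1 n x
  · intro n; rw [h3, h3]; exact h.c1 n

theorem meas_Xx : MeasurableSet {W : R2 | ∃ a b, Xx W a b} := by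
  have e : {W : R2 | ∃ a b, Xx W a b} = {W : R2 | ∃ a b, a ≠ b ∧
      (∀ x, co W 0 x ↔ x = a ∨ x = b) ∧ (∀ x, lt W a x ↔ x ≠ a) ∧ (∀ x, ¬ lt W x a) ∧
      (∀ x, lt W b x ↔ x ≠ a ∧ x ≠ b) ∧ (∀ x, lt W x b ↔ x = a) ∧
      (∀ x, ac W 0 a x ↔ x = a) ∧ (∀ x, ac W 0 x a ↔ x = a) ∧ (∀ x, ac W 0 b x ↔ x = b) ∧
      (∀ x, ac W 0 x b ↔ x = b) ∧ (∀ x y, ac W 1 x y ↔ x = a ∨ (x = b ∧ y ≠ a)) ∧
      (∀ n x, ¬ ac W (n + 2) a x ∧ ¬ ac W (n + 2) x a ∧ ¬ ac W (n + 2) b x ∧
        ¬ ac W (n + 2) x b) ∧ (∀ n, ¬ co W (n + 1) a ∧ ¬ co W (n + 1) b)} := by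
    ext W
    refine exists_congr fun a => exists_congr fun b => ⟨fun h => ?_, fun h => ?_⟩
    · exact ⟨h.ne, h.c0, h.l1, h.l2, h.l3, h.l4, h.e1, h.e2, h.e3, h.e4, h.m1, h.a1, h.c1⟩
    · obtain ⟨a1, a2, a3, a4, a5, a6, a7, a8, a9, a10, a11, a12, a13⟩ := h
      exact ⟨a1, a2, a3, a4, a5, a6, a7, a8, a9, a10, a11, a12, a13⟩
  rw [e]
  refine measurableSet_setOfPred.2 (Measurable.exists fun a => Measurable.exists fun b => ?_)
  refine measurable_const.and ?_
  refine (Measurable.forall fun x => (m_co _ _).iff measurable_const).and ?_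
  refine (Measurable.forall fun x => (m_lt _ _).iff measurable_const).and ?_
  refine (Measurable.forall fun x => (m_lt _ _).not).and ?_
  refine (Measurable.forall fun x => (m_lt _ _).iff measurable_const).and ?_
  refine (Measurable.forall fun x => (m_lt _ _).iff measurable_const).and ?_
  refine (Measurable.forall fun x => (m_ac _ _ _).iff measurable_const).and ?_
  refine (Measurable.forall fun x => (m_ac _ _ _).iff measurable_const).and ?_
  refine (Measurable.forall fun x => (m_ac _ _ _).iff measurable_const).and ?_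
  refine (Measurable.forall fun x => (m_ac _ _ _).iff measurable_const).and ?_
  refine (Measurable.forall fun x => Measurable.forall fun y =>
    (m_ac _ _ _).iff measurable_const).and ?_
  refine (Measurable.forall fun n => Measurable.forall fun x => (m_ac _ _ _).not.and
    ((m_ac _ _ _).not.and ((m_ac _ _ _).not.and (m_ac _ _ _).not))).and ?_
  exact Measurable.forall fun n => (m_co _ _).not.and (m_co _ _).not

theorem meas_dd : Measurable dd := by
  have hn : ∀ n y, Measurable fun W : R2 => nr W n = y :=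
    fun n y => Pool.Agent.Y560.TG.PL.meas_nth (fun W : R2 => fun x => ¬ co W 0 x)
      (fun x => (m_co _ _).not) n y
  refine meas_into ?_ ?_ ?_
  · intro i j
    have e : {W : R2 | lt (dd W) i j} = {W : R2 | ∃ a b, nr W i = a ∧
        nr W j = b ∧ lt W a b} := by
      ext W
      simp only [mem_ofPred_eq, dd, lt_mk]
      exact ⟨fun h => ⟨_, _, rfl, rfl, h⟩, fun ⟨a, b, h1, h2, h3⟩ => by rwa [h1, h2]⟩
    rw [e]
    exact measurableSet_setOfPred.2 (Measurable.exists fun a => Measurable.exists fun b =>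
      (hn _ _).and ((hn _ _).and (m_lt _ _)))
  · intro k i j
    have e : {W : R2 | ac (dd W) k i j} = {W : R2 | ∃ a b, nr W i = a ∧
        nr W j = b ∧ ac W (sh k) a b} := by
      ext W
      simp only [mem_ofPred_eq, dd, ac_mk]
      exact ⟨fun h => ⟨_, _, rfl, rfl, h⟩, fun ⟨a, b, h1, h2, h3⟩ => by rwa [h1, h2]⟩
    rw [e]
    exact measurableSet_setOfPred.2 (Measurable.exists fun a => Measurable.exists fun b =>
      (hn _ _).and ((hn _ _).and (m_ac _ _ _)))
  · intro k i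
    have e : {W : R2 | co (dd W) k i} = {W : R2 | ∃ a, nr W i = a ∧ co W (k + 1) a} := by
      ext W
      simp only [mem_ofPred_eq, dd, co_mk]
      exact ⟨fun h => ⟨_, rfl, h⟩, fun ⟨a, h1, h3⟩ => by rwa [h1]⟩
    rw [e]
    exact measurableSet_setOfPred.2 (Measurable.exists fun a => (hn _ _).and (m_co _ _))

/-- **Theorem.** The dichotomy for coherent forests with pointed cuts. -/
theorem dich2 (B : Set R2) (hB : MeasurableSet B) (hinv : ∀ x y, RIso x y → x ∈ B → y ∈ B)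
    (htf : ∀ M ∈ B, TF M) (hlaw : ∀ M ∈ B, ∀ N ∈ B, Law M N) (hpc : ∀ M ∈ B, PC M) :
    Dich B := by
  set K : Set R2 := {W : R2 | ∃ a b, Xx W a b} ∩ dd ⁻¹' B with hK
  have hzz : ∀ W W' : R2, (∃ a b, Xx W a b) → (∃ a b, Xx W' a b) → RIso W W' →
      RIso (dd W) (dd W') := by
    rintro W W' ⟨a, b, h⟩ ⟨a', b', h'⟩ hi
    exact Pl_inj (riso_trans (riso_trans (Xx_dd h) hi) (riso_symm (Xx_dd h')))
  have hKi : ∀ x y, RIso x y → x ∈ K → y ∈ K := by
    rintro W W' hi ⟨hW, hz⟩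
    have hW' : ∃ a b, Xx W' a b := by
      obtain ⟨a, b, h⟩ := hW
      obtain ⟨σ, k1, k2, k3⟩ := riso_iff.1 hi
      exact ⟨_, _, Xx_s k1 k2 k3 h⟩
    exact ⟨hW', hinv _ _ (hzz W W' hW hW' hi) hz⟩
  refine red (K := K) hB meas_dd hKi (fun W hW => hW.2) (fun W hW W' hW' h =>
    hzz _ _ hW.1 hW'.1 h) ?_ ?_ ?_
  · rintro W ⟨⟨a, b, h⟩, -⟩ W' ⟨⟨a', b', h'⟩, -⟩ hi
    exact riso_trans (riso_trans (riso_symm (Xx_dd h)) (Pl_map hi)) (Xx_dd h')
  · intro z hz
    have h1 : RIso (dd (Pl z)) z := Pl_inj (Xx_dd (Xx_Pl z))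
    exact ⟨Pl z, ⟨⟨0, 1, Xx_Pl z⟩, hinv _ _ (riso_symm h1) hz⟩, h1⟩
  · refine dich K (meas_Xx.inter (meas_dd hB)) hKi ?_ ?_ ?_ ?_
    · rintro W ⟨⟨a, b, h⟩, hz⟩
      obtain ⟨σ, k1, k2, k3⟩ := riso_iff.1 (Xx_dd h)
      exact TP_s k1 k2 (TP_Pl (htf _ hz))
    · rintro W ⟨⟨a, b, h⟩, hz⟩ W' ⟨⟨a', b', h'⟩, hz'⟩
      obtain ⟨σ, k1, k2, k3⟩ := riso_iff.1 (Xx_dd h)
      obtain ⟨τ, l1, l2, l3⟩ := riso_iff.1 (Xx_dd h')
      exact Law_s k1 k2 l1 l2 (Law_Pl (htf _ hz) (htf _ hz') (hlaw _ hz _ hz'))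
    · rintro W ⟨⟨a, b, h⟩, hz⟩
      obtain ⟨σ, k1, k2, k3⟩ := riso_iff.1 (Xx_dd h)
      exact PC_s k1 k2 (PC_Pl (htf _ hz) (hpc _ hz))
    · rintro W ⟨⟨a, b, h⟩, hz⟩
      obtain ⟨σ, k1, k2, k3⟩ := riso_iff.1 (Xx_dd h)
      exact Root_s k1 k2 Root_Pl

end Pool.Agent.Run7.h201.CTR
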