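import Pool.Agent.Run7.h201.CTR.Dec2

set_option autoImplicit false

/-!
# No perfect family of non isomorphic structures if the approximations are countable
-/

namespace Pool.Agent.Run7.h201.CTR

open Set
open Pool.Agent.H899R2.VP (St Adj PIso BF IsoOn idOn inv comp zipSet mem_inv BF_iff zipSet_cons
  zipSet_nil_left labels idOn_mono bounding not_countable_cantor)
open Pool.Agent.H533R2.VO (RS lift RIso Dich resBF resIso seq_rec)
open Pool.Agent.H566P (ar R2 lt ac co mk)
open Pool.Agent.Y560.TG (riso_isoOn)

theorem few_sc {L : Set R2} (hsc : ∀ β : Ordinal.{0}, β < Ordinal.omega 1 → ∃ c : R2 → ℕ,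
    ∀ W ∈ L, ∀ W' ∈ L, c W = c W' → BF (lift W) (lift W') univ univ β ∅)
    (g : (ℕ → Bool) → R2) (hgc : Continuous g) (hg : ∀ c, g c ∈ L)
    (h : ∀ c d, RIso (g c) (g d) → c = d) : False := by
  classical
  set C : ℕ × Bool → (ℕ → ℕ) → (ℕ → Bool) := fun κ z =>
    Function.update (fun j => z (2 * j) == 0) κ.1 κ.2 with hC
  set D : ℕ × Bool → (ℕ → ℕ) → (ℕ → Bool) := fun κ z =>
    Function.update (fun j => z (2 * j + 1) == 0) κ.1 (!κ.2) with hD
  have hCc : ∀ κ, Continuous (C κ) := by
    intro κ
    refine Continuous.update ?_ κ.1 continuous_const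
    exact continuous_pi fun j => (continuous_of_discreteTopology (f := fun n : ℕ => n == 0)).comp
      (continuous_apply (2 * j))
  have hDc : ∀ κ, Continuous (D κ) := by
    intro κ
    refine Continuous.update ?_ κ.1 continuous_const
    exact continuous_pi fun j => (continuous_of_discreteTopology (f := fun n : ℕ => n == 0)).comp
      (continuous_apply (2 * j + 1))
  have hlc : Continuous (lift : R2 → St ar) := continuous_const.prodMk continuous_id
  have hb : ∀ κ : ℕ × Bool, ∃ β : Ordinal.{0}, β < Ordinal.omega 1 ∧
      ∀ z, ¬ BF (lift (g (C κ z))) (lift (g (D κ z))) univ univ β ∅ := by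
    intro κ
    by_contra hcon
    push Not at hcon
    obtain ⟨z, hz⟩ := bounding (fun z => (lift (g (C κ z)), lift (g (D κ z))))
      ((hlc.comp (hgc.comp (hCc κ))).prodMk (hlc.comp (hgc.comp (hDc κ)))) ∅ hcon
    have := congrFun (h _ _ (riso_isoOn.2 hz)) κ.1
    simp only [hC, hD, Function.update_self] at this
    cases hκ : κ.2 <;> simp [hκ] at this
  choose b hb1 hb2 using hb
  have hs : iSup b < Ordinal.omega 1 := Ordinal.iSup_lt_omega_one hb1
  obtain ⟨c, hc⟩ := hsc (iSup b) hs
  have hinj : Function.Injective fun e : ℕ → Bool => c (g e) := by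
    intro e e' hee
    by_contra hne
    obtain ⟨i, hi⟩ := Function.ne_iff.1 hne
    have hBF2 := hc (g e) (hg e) (g e') (hg e') hee
    set z : ℕ → ℕ := fun j => if j % 2 = 0 then (if e (j / 2) = true then 0 else 1)
      else (if e' (j / 2) = true then 0 else 1) with hz
    have h1 : C (i, e i) z = e := by
      funext j
      by_cases hj : j = i
      · subst hj; simp [hC]
      · simp only [hC, Function.update_of_ne hj, hz]
        have e1 : 2 * j % 2 = 0 := by omega
        have e2 : 2 * j / 2 = j := by omega
        rw [if_pos e1, e2]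
        cases e j <;> simp
    have h2 : D (i, e i) z = e' := by
      funext j
      by_cases hj : j = i
      · subst hj
        simp only [hD, Function.update_self]
        cases he : e j <;> cases he' : e' j <;> simp_all
      · simp only [hD, Function.update_of_ne hj, hz]
        have e1 : ¬ (2 * j + 1) % 2 = 0 := by omega
        have e2 : (2 * j + 1) / 2 = j := by omega
        rw [if_neg e1, e2]
        cases e' j <;> simp
    refine hb2 (i, e i) z ?_
    rw [h1, h2]
    exact hBF2.mono (Ordinal.le_iSup b _)
  exact not_countable_cantor hinj.countable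

end Pool.Agent.Run7.h201.CTR
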