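import Pool.Agent.Run7.h201.CS.Sem2
import Pool.Agent.Run7.h201.CTR.Red2

set_option autoImplicit false

/-!
# Additive colourings of linear orders in semigroups, on arbitrary sets

The lemmas are those of `CS/Sem.lean` for arbitrary types instead of `ℕ`; they are applied to chains
of trees.
-/

namespace Pool.Agent.Run7.h201.CTR.SEM

open Set MeasureTheory
open Pool.Agent.Run7.h201.CS.SEM (JLe StA Canc Ok Ok.toOp Canc.toOp StA.toOp JLe.rfl' JLe.trans)

variable {α : Type}

/-- strict linear order -/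
structure Lin (r : α → α → Prop) : Prop where
  irr : ∀ a, ¬ r a a
  tr : ∀ a b c, r a b → r b c → r a c
  tot : ∀ a b, a ≠ b → r a b ∨ r b a

theorem Lin.le_lt {r : α → α → Prop} (h : Lin r) {a b c : α} (h1 : ¬ r b a) (h2 : r b c) :
    r a c := by
  by_cases e : a = b
  · rwa [e]
  · rcases h.tot a b e with h3 | h3
    · exact h.tr _ _ _ h3 h2
    · exact absurd h3 h1

theorem Lin.lt_le {r : α → α → Prop} (h : Lin r) {a b c : α} (h1 : r a b) (h2 : ¬ r c b) :
    r a c := by
  by_cases e : b = c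
  · rwa [← e]
  · rcases h.tot b c e with h3 | h3
    · exact h.tr _ _ _ h1 h3
    · exact absurd h3 h2

theorem Lin.rev {r : α → α → Prop} (h : Lin r) : Lin (fun a b => r b a) :=
  ⟨h.irr, fun a b c h1 h2 => h.tr c b a h2 h1, fun a b hne => (h.tot a b hne).symm⟩

/-- additive colouring -/
def Add {S : Type} [Semigroup S] (r : α → α → Prop) (c : α → α → S) : Prop :=
  ∀ a b d, r a b → r b d → c a d = c a b * c b d

/-- `b` decides the colours over the cut `A` -/
def Pt {S : Type} (_r : α → α → Prop) (c : α → α → S) (A : Set α) (b : α) : Prop :=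
  b ∉ A ∧ ∀ x ∈ A, ∀ x' ∈ A, c x b = c x' b → ∀ y, y ∉ A → c x y = c x' y

section pt

variable {S : Type} [Semigroup S] {r : α → α → Prop} {c : α → α → S} {A : Set α}

/-- deciding points are closed downwards -/
theorem Pt.down (hr : Lin r) (hc : Add r c) (hA : ∀ x ∈ A, ∀ y, y ∉ A → r x y) {b b' : α}
    (hb : Pt r c A b) (hb' : b' ∉ A) (hbb : ¬ r b b') : Pt r c A b' := by
  refine ⟨hb', fun x hx x' hx' h y hy => ?_⟩
  by_cases e : b' = b
  · rw [e] at h
    exact hb.2 x hx x' hx' h y hy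
  · rcases hr.tot b' b e with h1 | h1
    · refine hb.2 x hx x' hx' ?_ y hy
      rw [hc x b' b (hA x hx b' hb') h1, hc x' b' b (hA x' hx' b' hb') h1, h]
    · exact absurd h1 hbb

/-- cancellative colourings -/
theorem pt_canc (hr : Lin r) (hc : Add r c) (hS : Canc S) (hA : ∀ x ∈ A, ∀ y, y ∉ A → r x y)
    {b : α} (hb : b ∉ A) : Pt r c A b := by
  refine ⟨hb, fun x hx x' hx' h y hy => ?_⟩
  by_cases e : y = b
  · rw [e]; exact h
  · rcases hr.tot y b e with h1 | h1
    · rw [hc x y b (hA x hx y hy) h1, hc x' y b (hA x' hx' y hy) h1] at h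
      exact hS.2 _ _ _ h
    · rw [hc x b y (hA x hx b hb) h1, hc x' b y (hA x' hx' b hb) h1, h]

/-- finite colourings -/
theorem pt_fin [Finite S] (hr : Lin r) (hc : Add r c) (hA : ∀ x ∈ A, ∀ y, y ∉ A → r x y)
    (hne : ∃ b, b ∉ A) : ∃ b, Pt r c A b := by
  classical
  obtain ⟨b0, hb0⟩ := hne
  have hfin : ∀ b, ((fun x => c x b) '' A).Finite := fun b => Set.toFinite _
  -- a point with the greatest number of colours
  obtain ⟨n, ⟨b, hb, hn⟩, hmax⟩ : ∃ n, (∃ b, b ∉ A ∧ ((fun x => c x b) '' A).ncard = n) ∧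
      ∀ b', b' ∉ A → ((fun x => c x b') '' A).ncard ≤ n := by
    have hbd : ∀ b', ((fun x => c x b') '' A).ncard ≤ Nat.card S := by
      intro b'
      rw [← Set.ncard_univ]
      exact Set.ncard_le_ncard (subset_univ _) (Set.toFinite _)
    set s : Set ℕ := {n | ∃ b, b ∉ A ∧ ((fun x => c x b) '' A).ncard = n} with hs
    have hne : s.Nonempty := ⟨_, b0, hb0, rfl⟩
    have hsb : BddAbove s := ⟨Nat.card S, by
      rintro _ ⟨b, -, rfl⟩
      exact hbd b⟩
    refine ⟨sSup s, Nat.sSup_mem hne hsb, fun b' hb' => le_csSup hsb ⟨b', hb', rfl⟩⟩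
  refine ⟨b, hb, fun x hx x' hx' h y hy => ?_⟩
  by_cases e : y = b
  · rw [e]; exact h
  · rcases hr.tot y b e with h1 | h1
    · -- injectivity of the multiplication by `c y b`
      have him : (fun s => s * c y b) '' ((fun x => c x y) '' A) = (fun x => c x b) '' A := by
        rw [image_image]
        refine image_congr fun x hx => ?_
        exact (hc x y b (hA x hx y hy) h1).symm
      have hcard : ((fun x => c x y) '' A).ncard ≤
          ((fun s => s * c y b) '' ((fun x => c x y) '' A)).ncard := by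
        rw [him, hn]
        exact hmax y hy
      have hinj := Set.injOn_of_ncard_image_eq
        (le_antisymm (Set.ncard_image_le (hfin y)) hcard) (hfin y)
      refine hinj ⟨x, hx, rfl⟩ ⟨x', hx', rfl⟩ ?_
      show c x y * c y b = c x' y * c y b
      rw [← hc x y b (hA x hx y hy) h1, ← hc x' y b (hA x' hx' y hy) h1, h]
    · rw [hc x b y (hA x hx b hb) h1, hc x' b y (hA x' hx' b hb) h1, h]

/-- stable colourings with ascending chain condition -/
theorem pt_sta (hr : Lin r) (hc : Add r c) (hS : StA S) (hA : ∀ x ∈ A, ∀ y, y ∉ A → r x y)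
    (hne : A.Nonempty) (hne' : ∃ b, b ∉ A) : ∃ b, Pt r c A b := by
  classical
  -- a pair with a maximal ideal
  have hJ : ∀ x x' y y', x ∈ A → x' ∈ A → y ∉ A → y' ∉ A → ¬ r x' x → ¬ r y y' →
      JLe (c x y) (c x' y') := by
    intro x x' y y' hx hx' hy hy' h1 h2
    have a1 : JLe (c x y) (c x' y) := by
      by_cases e : x = x'
      · rw [e]; exact JLe.rfl' _
      · rcases hr.tot x x' e with h3 | h3
        · exact Or.inr (Or.inl ⟨c x x', hc x x' y h3 (hA x' hx' y hy)⟩)
        · exact absurd h3 h1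
    have a2 : JLe (c x' y) (c x' y') := by
      by_cases e : y' = y
      · rw [e]; exact JLe.rfl' _
      · rcases hr.tot y' y e with h3 | h3
        · exact Or.inr (Or.inr (Or.inl ⟨c y' y, hc x' y' y (hA x' hx' y' hy') h3⟩))
        · exact absurd h3 h2
    exact a1.trans a2
  obtain ⟨x0, y0, hx0, hy0, hmax⟩ : ∃ x0 y0, x0 ∈ A ∧ y0 ∉ A ∧ ∀ x y, x ∈ A → y ∉ A →
      ¬ r x x0 → ¬ r y0 y → JLe (c x y) (c x0 y0) := by
    by_contra hcon
    push Not at hcon
    choose f g hf hg hfr hgr hfg using hcon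
    obtain ⟨x1, hx1⟩ := hne
    obtain ⟨y1, hy1⟩ := hne'
    let P : Type := {p : α × α // p.1 ∈ A ∧ p.2 ∉ A}
    let nx : P → P := fun p => ⟨(f p.1.1 p.1.2 p.2.1 p.2.2, g p.1.1 p.1.2 p.2.1 p.2.2),
      hf _ _ _ _, hg _ _ _ _⟩
    obtain ⟨s, hs0, hss⟩ : ∃ s : ℕ → P, s 0 = ⟨(x1, y1), hx1, hy1⟩ ∧ ∀ n, s (n + 1) = nx (s n) :=
      ⟨fun n => Nat.rec ⟨(x1, y1), hx1, hy1⟩ (fun _ p => nx p) n, rfl, fun _ => rfl⟩
    obtain ⟨n, hn⟩ := hS.acc (fun n => c (s n).1.1 (s n).1.2) (by
      intro n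
      show JLe (c (s n).1.1 (s n).1.2) (c (s (n + 1)).1.1 (s (n + 1)).1.2)
      rw [hss]
      exact hJ _ _ _ _ (s n).2.1 (hf _ _ _ _) (s n).2.2 (hg _ _ _ _) (hfr _ _ _ _)
        (hgr _ _ _ _))
    have hn' : JLe (c (s (n + 1)).1.1 (s (n + 1)).1.2) (c (s n).1.1 (s n).1.2) := hn
    rw [hss] at hn'
    exact hfg _ _ _ _ hn'
  refine ⟨y0, hy0, fun x hx x' hx' h y hy => ?_⟩
  by_cases e : y = y0
  · rw [e]; exact h
  · rcases hr.tot y y0 e with h1 | h1
    · -- an element of `A` above `x`, `x'`, `x0`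
      obtain ⟨m, hm, m1, m2, m3⟩ : ∃ m ∈ A, ¬ r m x ∧ ¬ r m x' ∧ ¬ r m x0 := by
        have hmx : ∀ a ∈ A, ∀ b ∈ A, ∃ m ∈ A, ¬ r m a ∧ ¬ r m b := by
          intro a ha b hb
          by_cases h2 : r a b
          · exact ⟨b, hb, fun h3 => hr.irr a (hr.tr _ _ _ h2 h3), hr.irr b⟩
          · exact ⟨a, ha, hr.irr a, h2⟩
        obtain ⟨m, hm, k1, k2⟩ := hmx x hx x' hx'
        obtain ⟨m', hm', k3, k4⟩ := hmx m hm x0 hx0
        exact ⟨m', hm', fun h2 => k1 (hr.le_lt k3 h2), fun h2 => k2 (hr.le_lt k3 h2), k4⟩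
      have hJm : JLe (c m y) (c m y * c y y0) := by
        rw [← hc m y y0 (hA m hm y hy) h1]
        exact (hmax m y hm hy m3 (fun h2 => hr.irr y (hr.tr _ _ _ h1 h2))).trans
          (hJ _ _ _ _ hx0 hm hy0 hy0 m3 (hr.irr y0))
      have hst := hS.right _ _ hJm
      rw [← hc m y y0 (hA m hm y hy) h1] at hst
      rcases hst with hst | ⟨u, hu⟩
      · have key : ∀ w ∈ A, ¬ r m w → c w y = c w y0 := by
          intro w hw hmw
          by_cases e : w = m
          · rw [e]; exact hst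
          · rcases hr.tot w m e with h3 | h3
            · rw [hc w m y h3 (hA m hm y hy), hc w m y0 h3 (hA m hm y0 hy0), hst]
            · exact absurd h3 hmw
        rw [key x hx m1, key x' hx' m2, h]
      · have key : ∀ w ∈ A, ¬ r m w → c w y = c w y0 * u := by
          intro w hw hmw
          by_cases e : w = m
          · rw [e]; exact hu
          · rcases hr.tot w m e with h3 | h3
            · rw [hc w m y h3 (hA m hm y hy), hc w m y0 h3 (hA m hm y0 hy0), hu, mul_assoc]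
            · exact absurd h3 hmw
        rw [key x hx m1, key x' hx' m2, h]
    · rw [hc x y0 y (hA x hx y0 hy0) h1, hc x' y0 y (hA x' hx' y0 hy0) h1, h]

end pt


/-! ### Duality -/

section dual

variable {S : Type} [Semigroup S]

open MulOpposite

theorem Add.toOp {r : α → α → Prop} {c : α → α → S} (h : Add r c) :
    Add (fun a b => r b a) (fun a b => MulOpposite.op (c b a)) := by
  intro a b d h1 h2
  show MulOpposite.op (c d a) = MulOpposite.op (c b a) * MulOpposite.op (c d b)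
  rw [← op_mul, h d b a h2 h1]

end dual

theorem pt_ok {S : Type} [Semigroup S] {r : α → α → Prop} {c : α → α → S} {A : Set α}
    (hr : Lin r) (hc : Add r c) (hS : Ok S) (hA : ∀ x ∈ A, ∀ y, y ∉ A → r x y)
    (hne : A.Nonempty) (hne' : ∃ b, b ∉ A) : ∃ b, Pt r c A b := by
  rcases hS with h | h | h
  · exact pt_fin hr hc hA hne'
  · obtain ⟨b, hb⟩ := hne'
    exact ⟨b, pt_canc hr hc h hA hb⟩
  · exact pt_sta hr hc h hA hne hne'

/-- one point for all colourings -/
theorem pt_all {M : ℕ → Type} [∀ j, Semigroup (M j)] {r : α → α → Prop} {c : ∀ j, α → α → M j}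
    {A : Set α} (hr : Lin r) (hc : ∀ j, Add r (c j)) (n : ℕ) (hS : ∀ j, j < n → Ok (M j))
    (hS' : ∀ j, n ≤ j → Canc (M j)) (hA : ∀ x ∈ A, ∀ y, y ∉ A → r x y)
    (hne : A.Nonempty) (hne' : ∃ b, b ∉ A) : ∃ b, ∀ j, Pt r (c j) A b := by
  obtain ⟨b, hbA, hb⟩ : ∃ b, b ∉ A ∧ ∀ j < n, Pt r (c j) A b := by
    clear hS'
    induction n with
    | zero =>
      obtain ⟨b, hb⟩ := hne'
      exact ⟨b, hb, fun j hj => absurd hj (Nat.not_lt_zero j)⟩
    | succ n ih =>
      obtain ⟨b, hbA, hb⟩ := ih fun j hj => hS j (by omega)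
      obtain ⟨b', hb'⟩ := pt_ok hr (hc n) (hS n (Nat.lt_succ_self n)) hA hne hne'
      by_cases h : r b b'
      · refine ⟨b, hbA, fun j hj => ?_⟩
        rcases Nat.lt_succ_iff_lt_or_eq.1 hj with h1 | rfl
        · exact hb j h1
        · exact hb'.down hr (hc _) hA hbA (fun h2 => hr.irr _ (hr.tr _ _ _ h h2))
      · refine ⟨b', hb'.1, fun j hj => ?_⟩
        rcases Nat.lt_succ_iff_lt_or_eq.1 hj with h1 | rfl
        · exact (hb j h1).down hr (hc _) hA hb'.1 h
        · exact hb'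
  refine ⟨b, fun j => ?_⟩
  rcases lt_or_ge j n with h | h
  · exact hb j h
  · exact pt_canc hr (hc j) (hS' j h) hA hbA


end Pool.Agent.Run7.h201.CTR.SEM
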