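import Pool.Agent.Run7.h201.CTR.SemT

set_option autoImplicit false

/-!
# Additive colourings of trees
-/

namespace Pool.Agent.Run7.h201.CTR.SEM

open Set MeasureTheory
open Pool.Agent.H533R2.VO (RS lift RIso Dich)
open Pool.Agent.H566P (ar R2 lt ac co mk)
open Pool.Agent.Y560.TG (lt_mk ac_mk co_mk riso_iff R2_ext meas_into meas_lt meas_ac meas_co
  cont_into)
open Pool.Agent.Run7.h201.CS (E E_iff E.l E.g E.a)
open Pool.Agent.Run7.h201.CS.FC (m_lt m_ac m_co)
open Pool.Agent.Run7.h201.CS.SEM (JLe StA Canc Ok Ok.toOp Canc.toOp StA.toOp XS IsIsoX)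
open Pool.Agent.Run7.h201.CTR Pool.Agent.Run7.h201.CTR.Coh

/-- strict tree orders with meets -/
structure TrM (r : ℕ → ℕ → Prop) : Prop where
  irr : ∀ a, ¬ r a a
  tr : ∀ a b c, r a b → r b c → r a c
  lin : ∀ a b c, r a c → r b c → r a b ∨ a = b ∨ r b a
  meet : ∀ a b c, (c = a ∨ r c a) → (c = b ∨ r c b) → ∃ d, (d = a ∨ r d a) ∧ (d = b ∨ r d b) ∧
    ∀ e, (e = a ∨ r e a) → (e = b ∨ r e b) → (e = d ∨ r e d)

section cls

variable {M : ℕ → Type} [∀ j, Semigroup (M j)] (e : ℕ → Option (Σ j, M j))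

/-- `z` describes a tree with additive colourings -/
structure VT (z : R2) (c : ∀ j, ℕ → ℕ → M j) : Prop where
  t : TrM (lt z)
  eq : ∀ a b, eqv z a b ↔ a = b
  add : ∀ j, Add (lt z) (c j)
  ac : ∀ k a b, ac z (k + 1) a b ↔ ∃ j s, e k = some ⟨j, s⟩ ∧ lt z a b ∧ c j a b = s

variable {e}

theorem VT.le {z : R2} {c : ∀ j, ℕ → ℕ → M j} (h : VT e z c) {a b : ℕ} :
    le z a b ↔ a = b ∨ lt z a b := by
  unfold CTR.le
  rw [h.eq, or_comm]

theorem VT.tf {z : R2} {c : ∀ j, ℕ → ℕ → M j} (h : VT e z c) : TF z := by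
  refine ⟨h.t.irr, h.t.tr, fun x => (h.eq x x).2 rfl, fun x y => ?_, fun x y w => ?_,
    fun x y w => ?_, fun x y w => ?_, fun x y w => ?_, fun x y w => ?_, fun n x y => ?_⟩
  · rw [h.eq, h.eq]; exact Eq.symm
  · rw [h.eq, h.eq, h.eq]; exact Eq.trans
  · rw [h.eq]; rintro rfl; exact id
  · rw [h.eq]; rintro h1 rfl; exact h1
  · rw [h.eq]; exact h.t.lin x y w
  · intro h1 h2
    obtain ⟨d, d1, d2, d3⟩ := h.t.meet x y w (h.le.1 h1) (h.le.1 h2)
    exact ⟨d, h.le.2 d1, h.le.2 d2, fun v v1 v2 => h.le.2 (d3 v (h.le.1 v1) (h.le.1 v2))⟩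
  · intro h1
    rcases n with _ | n
    · exact Or.inl (Or.inr h1)
    · obtain ⟨j, s, -, h2, -⟩ := (h.ac n x y).1 h1
      exact Or.inl (Or.inl h2)

theorem VT.e_lt (he : Function.Surjective e) {z z' : R2} {c c' : ∀ j, ℕ → ℕ → M j}
    (h : VT e z c) (h' : VT e z' c') {x y x' y' : ℕ} (hxy : lt z x y) :
    E z z' x y x' y' ↔ lt z' x' y' ∧ ∀ j, c j x y = c' j x' y' := by
  constructor
  · intro hE
    have h1 := hE.l.1 hxy
    refine ⟨h1, fun j => ?_⟩
    obtain ⟨k, hk⟩ := he (some ⟨j, c j x y⟩)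
    have h2 := (hE.a (k + 1)).1 ((h.ac k x y).2 ⟨j, _, hk, hxy, rfl⟩)
    obtain ⟨j', s, h3, h4, h5⟩ := (h'.ac k x' y').1 h2
    rw [hk] at h3
    have h6 := Option.some.inj h3
    cases h6
    exact h5.symm
  · rintro ⟨h1, h2⟩
    rw [E_iff]
    have n1 : ¬ lt z y x := fun h3 => h.t.irr _ (h.t.tr _ _ _ hxy h3)
    have n2 : ¬ lt z' y' x' := fun h3 => h'.t.irr _ (h'.t.tr _ _ _ h1 h3)
    have m1 : x ≠ y := fun h3 => h.t.irr x (by rw [← h3] at hxy; exact hxy)
    have m2 : x' ≠ y' := fun h3 => h'.t.irr x' (by rw [← h3] at h1; exact h1)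
    refine ⟨iff_of_true hxy h1, iff_of_false n1 n2, fun k => ?_⟩
    rcases k with _ | k
    · have e1 := h.eq x y
      have e2 := h.eq y x
      have e3 := h'.eq x' y'
      have e4 := h'.eq y' x'
      unfold eqv at e1 e2 e3 e4
      rw [e1, e2, e3, e4]
      exact ⟨iff_of_false m1 m2, iff_of_false m1.symm m2.symm⟩
    · refine ⟨?_, ?_⟩
      · rw [h.ac, h'.ac]
        constructor
        · rintro ⟨j, s, h3, h4, h5⟩
          exact ⟨j, s, h3, h1, by rw [← h2, h5]⟩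
        · rintro ⟨j, s, h3, h4, h5⟩
          exact ⟨j, s, h3, hxy, by rw [h2, h5]⟩
      · rw [h.ac, h'.ac]
        refine iff_of_false ?_ ?_
        · rintro ⟨j, s, h3, h4, h5⟩
          exact n1 h4
        · rintro ⟨j, s, h3, h4, h5⟩
          exact n2 h4

theorem VT.law (he : Function.Surjective e) {z z' : R2} {c c' : ∀ j, ℕ → ℕ → M j}
    (h : VT e z c) (h' : VT e z' c') : Law z z' := by
  intro x m y x' m' y' hxm hmy h1 h2
  rcases h.le.1 hxm with e1 | e1
  · subst e1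
    obtain rfl := (h'.eq _ _).1 ((E_eqv h1).1 ((h.eq _ _).2 rfl))
    exact h2
  · rcases h.le.1 hmy with e2 | e2
    · subst e2
      obtain rfl := (h'.eq _ _).1 ((E_eqv h2).1 ((h.eq _ _).2 rfl))
      exact h1
    · obtain ⟨a1, a2⟩ := (VT.e_lt he h h' e1).1 h1
      obtain ⟨b1, b2⟩ := (VT.e_lt he h h' e2).1 h2
      refine (VT.e_lt he h h' (h.t.tr _ _ _ e1 e2)).2 ⟨h'.t.tr _ _ _ a1 b1, fun j => ?_⟩
      rw [h.add j _ _ _ e1 e2, h'.add j _ _ _ a1 b1, a2, b2]

theorem VT.pc (he : Function.Surjective e) {z : R2} {c : ∀ j, ℕ → ℕ → M j} (h : VT e z c)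
    (n : ℕ) (hS : ∀ j, j < n → Ok (M j)) (hS' : ∀ j, n ≤ j → Canc (M j)) : PC z := by
  intro C A hC1 hC2 hAC hcut hne hne'
  let r : C → C → Prop := fun a b => lt z a.1 b.1
  let cc : ∀ j, C → C → M j := fun j a b => c j a.1 b.1
  let A' : Set C := {a | a.1 ∈ A}
  have hr : Lin r := by
    refine ⟨fun a => h.t.irr _, fun a b c => h.t.tr _ _ _, fun a b hab => ?_⟩
    have hab' : a.1 ≠ b.1 := fun h => hab (Subtype.ext h)
    rcases hC2 a.1 a.2 b.1 b.2 with h1 | h1
    · rcases h.le.1 h1 with h2 | h2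
      · exact absurd h2 hab'
      · exact Or.inl h2
    · rcases h.le.1 h1 with h2 | h2
      · exact absurd h2.symm hab'
      · exact Or.inr h2
  have hc : ∀ j, Add r (cc j) := fun j a b d h1 h2 => h.add j _ _ _ h1 h2
  have hA : ∀ x ∈ A', ∀ y, y ∉ A' → r x y := fun x hx y hy => hcut x.1 hx y.1 y.2 hy
  refine ⟨?_, ?_⟩
  · obtain ⟨b, hb⟩ := pt_all hr hc n hS hS' hA (by
      obtain ⟨a, ha⟩ := hne
      exact ⟨⟨a, hAC ha⟩, ha⟩) (by
      obtain ⟨a, ha⟩ := hne'
      exact ⟨⟨a, ha.1⟩, ha.2⟩)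
    have hbA : b.1 ∉ A := (hb 0).1
    refine ⟨b.1, ⟨b.2, hbA⟩, fun x hx x' hx' hE y hy => ?_⟩
    have h1 := ((VT.e_lt he h h (hcut x hx b.1 b.2 hbA)).1 hE).2
    exact (VT.e_lt he h h (hcut x hx y hy.1 hy.2)).2 ⟨hcut x' hx' y hy.1 hy.2,
      fun j => (hb j).2 ⟨x, hAC hx⟩ hx ⟨x', hAC hx'⟩ hx' (h1 j) ⟨y, hy.1⟩ hy.2⟩
  · obtain ⟨a, ha⟩ := pt_all (M := fun j => (M j)ᵐᵒᵖ)
      (c := fun j a b => MulOpposite.op (cc j b a))
      (A := A'ᶜ) hr.rev (fun j => (hc j).toOp) n (fun j hj => (hS j hj).toOp)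
      (fun j hj => (hS' j hj).toOp) (by
        intro x hx y hy
        exact hA y (by simpa using hy) x hx) (by
        obtain ⟨y, hy⟩ := hne'
        exact ⟨⟨y, hy.1⟩, hy.2⟩) (by
        obtain ⟨x, hx⟩ := hne
        exact ⟨⟨x, hAC hx⟩, fun h1 => h1 hx⟩)
    have haA : a.1 ∈ A := not_not.1 (ha 0).1
    refine ⟨a.1, haA, fun y hy y' hy' hE x hx => ?_⟩
    have h1 := ((VT.e_lt he h h (hcut a.1 haA y hy.1 hy.2)).1 hE).2
    refine (VT.e_lt he h h (hcut x hx y hy.1 hy.2)).2 ⟨hcut x hx y' hy'.1 hy'.2, fun j => ?_⟩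
    have h2 := (ha j).2 ⟨y, hy.1⟩ hy.2 ⟨y', hy'.1⟩ hy'.2 (congrArg MulOpposite.op (h1 j))
      ⟨x, hAC hx⟩ (fun h3 => h3 hx)
    exact MulOpposite.op_injective h2

end cls

variable {M : ℕ → Type}

variable (e : ℕ → Option (Σ j, M j)) (ix : (Σ j, M j) → ℕ)

/-- coding -/
noncomputable def f2 (x : XS M) : R2 :=
  mk (fun a b => x.1 a b = true)
    (fun k a b => match k with
      | 0 => a = b
      | k + 1 => ∃ j s, e k = some ⟨j, s⟩ ∧ x.2.1 j s a b = true)
    (fun k a => x.2.2 k a = true)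

open Classical in
/-- decoding -/
noncomputable def d2 (z : R2) : XS M :=
  (fun a b => decide (lt z a b), fun j s a b => decide (ac z (ix ⟨j, s⟩ + 1) a b),
    fun k a => decide (co z k a))

variable {e ix}

theorem lt_f2 {x : XS M} {a b : ℕ} : lt (f2 e x) a b ↔ x.1 a b = true := by rw [f2, lt_mk]
theorem eqv_f2 {x : XS M} {a b : ℕ} : eqv (f2 e x) a b ↔ a = b := by rw [eqv, f2, ac_mk]
theorem ac_f2 {x : XS M} {k a b : ℕ} : ac (f2 e x) (k + 1) a b ↔
    ∃ j s, e k = some ⟨j, s⟩ ∧ x.2.1 j s a b = true := by rw [f2, ac_mk]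
theorem co_f2 {x : XS M} {k a : ℕ} : co (f2 e x) k a ↔ x.2.2 k a = true := by rw [f2, co_mk]

theorem d2_f2 (hix : ∀ p, e (ix p) = some p) (x : XS M) : d2 ix (f2 e x) = x := by
  classical
  refine Prod.ext ?_ (Prod.ext ?_ ?_)
  · funext a b
    show decide (lt (f2 e x) a b) = _
    rw [Bool.eq_iff_iff, decide_eq_true_iff, lt_f2]
  · funext j s a b
    show decide (ac (f2 e x) (ix ⟨j, s⟩ + 1) a b) = _
    rw [Bool.eq_iff_iff, decide_eq_true_iff, ac_f2, hix]
    constructor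
    · rintro ⟨j', s', h1, h2⟩
      have h3 := Option.some.inj h1
      cases h3
      exact h2
    · exact fun h => ⟨j, s, rfl, h⟩
  · funext k a
    show decide (co (f2 e x) k a) = _
    rw [Bool.eq_iff_iff, decide_eq_true_iff, co_f2]

theorem f2_d2_iff {z : R2} : f2 e (d2 ix z) = z ↔ (∀ a b, eqv z a b ↔ a = b) ∧
    ∀ k a b, ac z (k + 1) a b ↔ ∃ j s, e k = some ⟨j, s⟩ ∧ ac z (ix ⟨j, s⟩ + 1) a b := by
  classical
  have e1 : ∀ j s a b, (d2 (M := M) ix z).2.1 j s a b = true ↔ ac z (ix ⟨j, s⟩ + 1) a b :=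
    fun j s a b => decide_eq_true_iff
  constructor
  · intro h
    constructor
    · intro a b
      conv_lhs => rw [← h]
      exact eqv_f2
    · intro k a b
      conv_lhs => rw [← h]
      rw [ac_f2]
      simp only [e1]
  · rintro ⟨h, h'⟩
    refine R2_ext ?_ ?_ ?_
    · intro a b
      rw [lt_f2]
      exact decide_eq_true_iff
    · intro k a b
      rcases k with _ | k
      · show eqv _ a b ↔ eqv z a b
        rw [eqv_f2, h]
      · rw [ac_f2, h']
        simp only [e1]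
    · intro k a
      rw [co_f2]
      exact decide_eq_true_iff

theorem cont_d2 : Continuous (d2 ix : R2 → XS M) := by
  classical
  refine Continuous.prodMk ?_ (Continuous.prodMk ?_ ?_)
  · exact continuous_pi fun a => continuous_pi fun b => cont_lt a b
  · exact continuous_pi fun j => continuous_pi fun s => continuous_pi fun a =>
      continuous_pi fun b => cont_ac _ a b
  · exact continuous_pi fun k => continuous_pi fun a => cont_co k a

theorem meas_d2 : Measurable (d2 ix : R2 → XS M) := by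
  classical
  refine Measurable.prodMk ?_ (Measurable.prodMk ?_ ?_)
  · exact measurable_pi_lambda _ fun a => measurable_pi_lambda _ fun b =>
      meas_dec (m_lt a b)
  · exact measurable_pi_lambda _ fun j => measurable_pi_lambda _ fun s =>
      measurable_pi_lambda _ fun a => measurable_pi_lambda _ fun b => meas_dec (m_ac _ a b)
  · exact measurable_pi_lambda _ fun k => measurable_pi_lambda _ fun a => meas_dec (m_co k a)

/-- The dichotomy for additive colourings of trees. -/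
theorem colT [∀ j, Semigroup (M j)] [∀ j, Countable (M j)] (n : ℕ)
    (hS : ∀ j, j < n → Ok (M j)) (hS' : ∀ j, n ≤ j → Canc (M j))
    (B : Set (XS M)) (hB : MeasurableSet B) (hinv : ∀ x ∈ B, ∀ y σ, IsIsoX σ x y → y ∈ B)
    (htr : ∀ x ∈ B, TrM (fun a b => x.1 a b = true))
    (hadd : ∀ x ∈ B, ∀ j, ∃ c : ℕ → ℕ → M j, Add (fun a b => x.1 a b = true) c ∧
      ∀ s a b, x.2.1 j s a b = true ↔ x.1 a b = true ∧ c a b = s) :
    (∃ f : ℕ → XS M, ∀ x ∈ B, ∃ n σ, IsIsoX σ (f n) x) ∨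
    ∃ c : (ℕ → Bool) → XS M, Continuous c ∧ (∀ s, c s ∈ B) ∧
      ∀ s t, (∃ σ, IsIsoX σ (c s) (c t)) → s = t := by
  classical
  have hne : Nonempty (Option (Σ j, M j)) := ⟨none⟩
  obtain ⟨e, he⟩ : ∃ e : ℕ → Option (Σ j, M j), Function.Surjective e :=
    exists_surjective_nat _
  choose ix hix using fun p : Σ j, M j => he (some p)
  refine trans IsIsoX (f2 e) (d2 ix) (d2_f2 hix) cont_d2 meas_d2 ?_ ?_ ?_ ?_ B hB hinv ?_
  · have e1 : {z : R2 | f2 e (d2 ix z) = z} = {z : R2 | (∀ a b, eqv z a b ↔ a = b) ∧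
        ∀ k a b, ac z (k + 1) a b ↔ ∃ j s, e k = some ⟨j, s⟩ ∧ ac z (ix ⟨j, s⟩ + 1) a b} := by
      ext z
      exact f2_d2_iff
    rw [e1]
    exact measurableSet_setOfPred.2 ((Measurable.forall fun a => Measurable.forall fun b =>
      (m_ac _ _ _).iff measurable_const).and (Measurable.forall fun k =>
        Measurable.forall fun a => Measurable.forall fun b => (m_ac _ _ _).iff
          (Measurable.exists fun j => Measurable.exists fun s =>
            measurable_const.and (m_ac _ _ _))))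
  · intro z z' h h1
    obtain ⟨σ, k1, k2, k3⟩ := riso_iff.1 h
    rw [f2_d2_iff] at h1 ⊢
    refine ⟨fun a b => ?_, fun k a b => ?_⟩
    · obtain ⟨a, rfl⟩ := σ.surjective a
      obtain ⟨b, rfl⟩ := σ.surjective b
      have e : eqv z' (σ a) (σ b) ↔ eqv z a b := k2 0 a b
      rw [e, h1.1]
      exact σ.injective.eq_iff.symm
    · obtain ⟨a, rfl⟩ := σ.surjective a
      obtain ⟨b, rfl⟩ := σ.surjective b
      rw [k2]
      simp only [k2]
      exact h1.2 k a b
  · intro z z' σ k1 k2 k3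
    refine ⟨fun a b => ?_, fun j s a b => ?_, fun k a => ?_⟩
    · exact decide_eq_decide.2 (k1 a b)
    · exact decide_eq_decide.2 (k2 _ a b)
    · exact decide_eq_decide.2 (k3 k a)
  · intro x y σ h
    refine riso_iff.2 ⟨σ, ?_, ?_, ?_⟩
    · intro a b
      rw [lt_f2, lt_f2, h.1]
    · intro k a b
      rcases k with _ | k
      · show eqv _ _ _ ↔ eqv _ _ _
        rw [eqv_f2, eqv_f2]
        exact σ.injective.eq_iff
      · rw [ac_f2, ac_f2]
        simp only [h.2.1]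
    · intro k a
      rw [co_f2, co_f2, h.2.2]
  · intro B' hB' hinv' hBB
    have hVT : ∀ z ∈ B', ∃ c : ∀ j, ℕ → ℕ → M j, VT e z c := by
      intro z hz
      obtain ⟨x, hx, rfl⟩ := hBB z hz
      choose c hc1 hc2 using hadd x hx
      have hl : ∀ a b, lt (f2 e x) a b ↔ x.1 a b = true := fun a b => lt_f2
      have ht := htr x hx
      refine ⟨c, ?_, fun a b => eqv_f2, ?_, ?_⟩
      · simp only [← hl] at ht
        exact ht
      · intro j
        have := hc1 j
        simp only [← hl] at this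
        exact this
      · intro k a b
        rw [ac_f2]
        simp only [hc2, hl]
    refine dich2 B' hB' hinv' ?_ ?_ ?_
    · intro z hz
      obtain ⟨c, hc⟩ := hVT z hz
      exact hc.tf
    · intro z hz z' hz'
      obtain ⟨c, hc⟩ := hVT z hz
      obtain ⟨c', hc'⟩ := hVT z' hz'
      exact hc.law he hc'
    · intro z hz
      obtain ⟨c, hc⟩ := hVT z hz
      exact hc.pc he n hS hS'

end Pool.Agent.Run7.h201.CTR.SEM
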