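import Pool.Agent.Run7.h201.CTR.SemA
import Pool.Agent.Run7.h201.CTR.Coh

set_option autoImplicit false

/-!
# Coherent trees and additive colourings of trees, in terms of plain structures
-/

namespace Pool.Agent.Run7.h201.CTR.SEM

open Set MeasureTheory
open Pool.Agent.H533R2.VO (RS lift RIso Dich)
open Pool.Agent.H566P (ar R2 lt ac co mk)
open Pool.Agent.Y560.TG (lt_mk ac_mk co_mk riso_iff R2_ext meas_into meas_lt meas_ac meas_co
  cont_into)
open Pool.Agent.Run7.h201.CS (E E_iff E.l E.g E.a)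
open Pool.Agent.Run7.h201.CS.FC (m_lt m_ac m_co)
open Pool.Agent.Run7.h201.CTR Pool.Agent.Run7.h201.CTR.Coh

/-- Transfer of the dichotomy. -/
theorem trans {X : Type} [TopologicalSpace X] [MeasurableSpace X]
    (I : Equiv.Perm ℕ → X → X → Prop) (ff : X → R2) (dd : R2 → X) (hdf : ∀ x, dd (ff x) = x)
    (hc : Continuous dd) (hm : Measurable dd) (hfix : MeasurableSet {z | ff (dd z) = z})
    (hfi : ∀ z z', RIso z z' → ff (dd z) = z → ff (dd z') = z')
    (hdi : ∀ (z z' : R2) (σ : Equiv.Perm ℕ), (∀ x y, lt z' (σ x) (σ y) ↔ lt z x y) →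
      (∀ n x y, ac z' n (σ x) (σ y) ↔ ac z n x y) → (∀ n x, co z' n (σ x) ↔ co z n x) →
      I σ (dd z) (dd z'))
    (hif : ∀ x y σ, I σ x y → RIso (ff x) (ff y))
    (B : Set X) (hB : MeasurableSet B) (hinv : ∀ x ∈ B, ∀ y σ, I σ x y → y ∈ B)
    (hD : ∀ B' : Set R2, MeasurableSet B' → (∀ x y, RIso x y → x ∈ B' → y ∈ B') →
      (∀ z ∈ B', ∃ x ∈ B, ff x = z) → Dich B') :
    (∃ f : ℕ → X, ∀ x ∈ B, ∃ n σ, I σ (f n) x) ∨
    ∃ c : (ℕ → Bool) → X, Continuous c ∧ (∀ s, c s ∈ B) ∧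
      ∀ s t, (∃ σ, I σ (c s) (c t)) → s = t := by
  rcases hD {z | dd z ∈ B ∧ ff (dd z) = z} ((hm hB).inter hfix) (by
    rintro z z' h ⟨h1, h2⟩
    refine ⟨?_, hfi z z' h h2⟩
    obtain ⟨σ, k1, k2, k3⟩ := riso_iff.1 h
    exact hinv _ h1 _ σ (hdi _ _ _ k1 k2 k3)) (by
    rintro z ⟨h1, h2⟩
    exact ⟨_, h1, h2⟩) with ⟨f, hf⟩ | ⟨c, hc1, hc2, hc3⟩
  · left
    refine ⟨fun n => dd (f n), fun x hx => ?_⟩
    obtain ⟨m, hm⟩ := hf (ff x) ⟨by rw [hdf]; exact hx, by rw [hdf]⟩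
    obtain ⟨σ, k1, k2, k3⟩ := riso_iff.1 hm
    refine ⟨m, σ, ?_⟩
    have := hdi _ _ _ k1 k2 k3
    rwa [hdf] at this
  · right
    refine ⟨fun s => dd (c s), hc.comp hc1, fun s => (hc2 s).1, fun s t h => ?_⟩
    obtain ⟨σ, h⟩ := h
    apply hc3
    have h1 := hif _ _ _ h
    rwa [(hc2 s).2, (hc2 t).2] at h1

/-! ### Coherent tree preorders -/

open Pool.Agent.Run7.h201.CS.STR (SS IsIso)

/-- coding -/
noncomputable def f1 (x : SS) : R2 :=
  mk (fun a b => x.1 a b = true ∧ ¬ x.1 b a = true)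
    (fun k a b => match k with
      | 0 => x.1 a b = true ∧ x.1 b a = true
      | k + 1 => x.2.1 k a b = true)
    (fun k a => x.2.2 k a = true)

open Classical in
/-- decoding -/
noncomputable def d1 (z : R2) : SS :=
  (fun a b => decide (lt z a b ∨ ac z 0 a b), fun k a b => decide (ac z (k + 1) a b),
    fun k a => decide (co z k a))

theorem lt_f1 {x : SS} {a b : ℕ} : lt (f1 x) a b ↔ x.1 a b = true ∧ ¬ x.1 b a = true := by
  rw [f1, lt_mk]
theorem eqv_f1 {x : SS} {a b : ℕ} : eqv (f1 x) a b ↔ x.1 a b = true ∧ x.1 b a = true := by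
  rw [eqv, f1, ac_mk]
theorem ac_f1 {x : SS} {k a b : ℕ} : ac (f1 x) (k + 1) a b ↔ x.2.1 k a b = true := by
  rw [f1, ac_mk]
theorem co_f1 {x : SS} {k a : ℕ} : co (f1 x) k a ↔ x.2.2 k a = true := by
  rw [f1, co_mk]
theorem le_f1 {x : SS} {a b : ℕ} : le (f1 x) a b ↔ x.1 a b = true := by
  rw [le, lt_f1, eqv_f1]
  constructor
  · rintro (h | h)
    · exact h.1
    · exact h.1
  · intro h
    by_cases h' : x.1 b a = true
    · exact Or.inr ⟨h, h'⟩
    · exact Or.inl ⟨h, h'⟩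

theorem d1_f1 (x : SS) : d1 (f1 x) = x := by
  classical
  refine Prod.ext ?_ (Prod.ext ?_ ?_)
  · funext a b
    show decide (lt (f1 x) a b ∨ ac (f1 x) 0 a b) = _
    rw [Bool.eq_iff_iff, decide_eq_true_iff]
    exact le_f1
  · funext k a b
    show decide (ac (f1 x) (k + 1) a b) = _
    rw [Bool.eq_iff_iff, decide_eq_true_iff, ac_f1]
  · funext k a
    show decide (co (f1 x) k a) = _
    rw [Bool.eq_iff_iff, decide_eq_true_iff, co_f1]

theorem f1_d1_iff {z : R2} : f1 (d1 z) = z ↔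
    ∀ a b, (lt z a b ↔ le z a b ∧ ¬ le z b a) ∧ (eqv z a b ↔ le z a b ∧ le z b a) := by
  classical
  have e : ∀ a b, (d1 z).1 a b = true ↔ le z a b := fun a b => decide_eq_true_iff
  constructor
  · intro h a b
    have h1 : lt (f1 (d1 z)) a b ↔ lt z a b := by rw [h]
    have h2 : eqv (f1 (d1 z)) a b ↔ eqv z a b := by rw [h]
    rw [lt_f1, e, e] at h1
    rw [eqv_f1, e, e] at h2
    exact ⟨h1.symm, h2.symm⟩
  · intro h
    refine R2_ext ?_ ?_ ?_
    · intro a b
      rw [lt_f1, e, e]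
      exact (h a b).1.symm
    · intro k a b
      rcases k with _ | k
      · show eqv (f1 (d1 z)) a b ↔ eqv z a b
        rw [eqv_f1, e, e]
        exact (h a b).2.symm
      · rw [ac_f1]
        exact decide_eq_true_iff
    · intro k a
      rw [co_f1]
      exact decide_eq_true_iff

theorem cont_dec {X : Type} [TopologicalSpace X] {p q : X → Prop} [DecidablePred p]
    [DecidablePred q] [DecidablePred fun x => p x ∨ q x] (hp : Continuous fun x => decide (p x))
    (hq : Continuous fun x => decide (q x)) : Continuous fun x => decide (p x ∨ q x) := by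
  have e : (fun x => decide (p x ∨ q x)) = fun x => (decide (p x) || decide (q x)) := by
    funext x
    rw [Bool.eq_iff_iff, decide_eq_true_iff, Bool.or_eq_true, decide_eq_true_iff,
      decide_eq_true_iff]
  rw [e]
  exact (continuous_of_discreteTopology (f := fun P : Bool × Bool => P.1 || P.2)).comp
    (hp.prodMk hq)

open Classical in
theorem cont_lt (a b : ℕ) : Continuous fun z : R2 => decide (lt z a b) := by
  have key : ∀ (i : ℕ) (v : Fin (ar i) → ℕ), Continuous fun z : R2 => z i v :=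
    fun i v => (continuous_apply v).comp (continuous_apply i)
  have e : (fun z : R2 => decide (lt z a b)) = fun z : R2 =>
      z 0 (Pool.Agent.H566P.v2 0 a b) := by
    funext z
    rw [Bool.eq_iff_iff, decide_eq_true_iff]
    exact Iff.rfl
  rw [e]
  exact key _ _

open Classical in
theorem cont_ac (k a b : ℕ) : Continuous fun z : R2 => decide (ac z k a b) := by
  have key : ∀ (i : ℕ) (v : Fin (ar i) → ℕ), Continuous fun z : R2 => z i v :=
    fun i v => (continuous_apply v).comp (continuous_apply i)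
  have e : (fun z : R2 => decide (ac z k a b)) = fun z : R2 =>
      z (2 * k + 1) (Pool.Agent.H566P.v2 (2 * k + 1) a b) := by
    funext z
    rw [Bool.eq_iff_iff, decide_eq_true_iff]
    exact Iff.rfl
  rw [e]
  exact key _ _

open Classical in
theorem cont_co (k a : ℕ) : Continuous fun z : R2 => decide (co z k a) := by
  have key : ∀ (i : ℕ) (v : Fin (ar i) → ℕ), Continuous fun z : R2 => z i v :=
    fun i v => (continuous_apply v).comp (continuous_apply i)
  have e : (fun z : R2 => decide (co z k a)) = fun z : R2 =>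
      z (2 * k + 2) (Pool.Agent.H566P.v2 (2 * k + 2) a a) := by
    funext z
    rw [Bool.eq_iff_iff, decide_eq_true_iff]
    exact Iff.rfl
  rw [e]
  exact key _ _

theorem meas_dec {p : R2 → Prop} [DecidablePred p] (hp : Measurable p) :
    Measurable fun z => decide (p z) := by
  refine measurable_to_bool ?_
  have e : (fun z : R2 => decide (p z)) ⁻¹' {true} = {z | p z} := by
    ext z
    exact decide_eq_true_iff
  rw [e]
  exact measurableSet_setOfPred.2 hp

theorem cont_d1 : Continuous d1 := by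
  classical
  refine Continuous.prodMk ?_ (Continuous.prodMk ?_ ?_)
  · exact continuous_pi fun a => continuous_pi fun b => cont_dec (cont_lt a b) (cont_ac 0 a b)
  · exact continuous_pi fun k => continuous_pi fun a => continuous_pi fun b => cont_ac _ a b
  · exact continuous_pi fun k => continuous_pi fun a => cont_co k a

theorem meas_d1 : Measurable d1 := by
  classical
  refine Measurable.prodMk ?_ (Measurable.prodMk ?_ ?_)
  · exact measurable_pi_lambda _ fun a => measurable_pi_lambda _ fun b =>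
      meas_dec ((m_lt a b).or (m_ac 0 a b))
  · exact measurable_pi_lambda _ fun k => measurable_pi_lambda _ fun a =>
      measurable_pi_lambda _ fun b => meas_dec (m_ac _ a b)
  · exact measurable_pi_lambda _ fun k => measurable_pi_lambda _ fun a => meas_dec (m_co k a)

/-- the pairs have the same type -/
def Same (x y : SS) (a b c d : ℕ) : Prop :=
  x.1 a b = y.1 c d ∧ x.1 b a = y.1 d c ∧
    ∀ k, x.2.1 k a b = y.2.1 k c d ∧ x.2.1 k b a = y.2.1 k d c

theorem same_iff {x y : SS} {a b c d : ℕ} : Same x y a b c d ↔ E (f1 x) (f1 y) a b c d := by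
  unfold Same
  have e : ∀ p q : Bool, p = q ↔ (p = true ↔ q = true) := by decide
  rw [e (x.1 a b), e (x.1 b a)]
  have e' : (∀ k, x.2.1 k a b = y.2.1 k c d ∧ x.2.1 k b a = y.2.1 k d c) ↔
      ∀ k, (x.2.1 k a b = true ↔ y.2.1 k c d = true) ∧
        (x.2.1 k b a = true ↔ y.2.1 k d c = true) :=
    forall_congr' fun k => and_congr (e _ _) (e _ _)
  rw [e']
  constructor
  · rintro ⟨h1, h2, h3⟩
    refine E_iff.2 ⟨?_, ?_, fun n => ?_⟩
    · rw [lt_f1, lt_f1, h1, h2]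
    · rw [lt_f1, lt_f1, h1, h2]
    · rcases n with _ | n
      · refine ⟨?_, ?_⟩
        · show eqv (f1 x) a b ↔ eqv (f1 y) c d
          rw [eqv_f1, eqv_f1, h1, h2]
        · show eqv (f1 x) b a ↔ eqv (f1 y) d c
          rw [eqv_f1, eqv_f1, h1, h2]
      · refine ⟨?_, ?_⟩
        · rw [ac_f1, ac_f1]; exact (h3 n).1
        · rw [ac_f1, ac_f1]; exact (h3 n).2
  · intro h
    have h1 := E_le h
    have h2 := E_ge h
    rw [le_f1, le_f1] at h1 h2
    refine ⟨h1, h2, fun k => ?_⟩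
    have h3 := h.a (k + 1)
    have h4 := h.swap.a (k + 1)
    rw [ac_f1, ac_f1] at h3 h4
    exact ⟨h3, h4⟩

/-- tree preorders with meets -/
structure TPre (x : SS) : Prop where
  refl : ∀ a, x.1 a a = true
  trans : ∀ a b c, x.1 a b = true → x.1 b c = true → x.1 a c = true
  tree : ∀ a b c, x.1 a c = true → x.1 b c = true → x.1 a b = true ∨ x.1 b a = true
  meet : ∀ a b c, x.1 c a = true → x.1 c b = true → ∃ d, x.1 d a = true ∧ x.1 d b = true ∧
    ∀ e, x.1 e a = true → x.1 e b = true → x.1 e d = true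

theorem TPre.tn {x : SS} (h : TPre x) : TN (f1 x) := by
  refine ⟨?_, ?_, ?_, ?_, ?_, ?_, ?_, ?_, ?_⟩
  · intro a
    rw [lt_f1]
    exact fun h1 => h1.2 h1.1
  · intro a b c
    rw [lt_f1, lt_f1, lt_f1]
    rintro ⟨h1, h2⟩ ⟨h3, h4⟩
    exact ⟨h.trans _ _ _ h1 h3, fun h5 => h2 (h.trans _ _ _ h3 h5)⟩
  · intro a
    rw [eqv_f1]
    exact ⟨h.refl a, h.refl a⟩
  · intro a b
    rw [eqv_f1, eqv_f1]
    exact fun h1 => ⟨h1.2, h1.1⟩
  · intro a b c
    rw [eqv_f1, eqv_f1, eqv_f1]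
    rintro ⟨h1, h2⟩ ⟨h3, h4⟩
    exact ⟨h.trans _ _ _ h1 h3, h.trans _ _ _ h4 h2⟩
  · intro a b c
    rw [eqv_f1, lt_f1, lt_f1]
    rintro ⟨h1, h2⟩ ⟨h3, h4⟩
    exact ⟨h.trans _ _ _ h1 h3, fun h5 => h4 (h.trans _ _ _ h5 h1)⟩
  · intro a b c
    rw [eqv_f1, lt_f1, lt_f1]
    rintro ⟨h1, h2⟩ ⟨h3, h4⟩
    exact ⟨h.trans _ _ _ h1 h3, fun h5 => h2 (h.trans _ _ _ h3 h5)⟩
  · intro a b c
    rw [lt_f1, lt_f1, lt_f1, eqv_f1, lt_f1]
    rintro ⟨h1, h2⟩ ⟨h3, h4⟩
    by_cases h5 : x.1 a b = true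
    · by_cases h6 : x.1 b a = true
      · exact Or.inr (Or.inl ⟨h5, h6⟩)
      · exact Or.inl ⟨h5, h6⟩
    · rcases h.tree a b c h1 h3 with h6 | h6
      · exact absurd h6 h5
      · exact Or.inr (Or.inr ⟨h6, h5⟩)
  · intro a b c
    rw [le_f1, le_f1]
    intro h1 h2
    obtain ⟨d, d1, d2, d3⟩ := h.meet a b c h1 h2
    refine ⟨d, le_f1.2 d1, le_f1.2 d2, fun e => ?_⟩
    rw [le_f1, le_f1, le_f1]
    exact d3 e

/-- `d` is a greatest lower bound -/
def Glb (x : SS) (a b d : ℕ) : Prop := x.1 d a = true ∧ x.1 d b = true ∧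
  ∀ e, x.1 e a = true → x.1 e b = true → x.1 e d = true

theorem glb_iff {x : SS} {a b d : ℕ} : IsM (f1 x) a b d ↔ Glb x a b d := by
  unfold IsM Glb
  simp only [le_f1]

theorem cohT (B : Set SS) (hB : MeasurableSet B) (hinv : ∀ x ∈ B, ∀ y σ, IsIso σ x y → y ∈ B)
    (htp : ∀ x ∈ B, TPre x)
    (hlaw : ∀ x ∈ B, ∀ y ∈ B, ∀ a b c a' b' c', x.1 a b = true → x.1 b c = true →
      Same x y a b a' b' → Same x y b c b' c' → Same x y a c a' c')
    (hlm : ∀ x ∈ B, ∀ y ∈ B, ∀ a b c a' b' c', Glb x a c b → Glb y a' c' b' →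
      Same x y a b a' b' → Same x y b c b' c' → Same x y a c a' c')
    (hln : ∀ x ∈ B, ∀ y ∈ B, ∀ a c a' c', (¬ ∃ d, x.1 d a = true ∧ x.1 d c = true) →
      (¬ ∃ d, y.1 d a' = true ∧ y.1 d c' = true) →
      Same x y a a a' a' → Same x y c c c' c' → Same x y a c a' c')
    (hpc : ∀ x ∈ B, ∀ C A : Set ℕ, (∀ a ∈ C, ∀ b, x.1 b a = true → b ∈ C) →
      (∀ a ∈ C, ∀ b ∈ C, x.1 a b = true ∨ x.1 b a = true) → A ⊆ C →
      (∀ a ∈ A, ∀ b ∈ C, b ∉ A → x.1 b a = false) → A.Nonempty → (C \ A).Nonempty →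
      (∃ b ∈ C \ A, ∀ a ∈ A, ∀ a' ∈ A, Same x x a b a' b → ∀ c ∈ C \ A, Same x x a c a' c) ∧
      ∃ a ∈ A, ∀ b ∈ C \ A, ∀ b' ∈ C \ A, Same x x a b a b' → ∀ c ∈ A, Same x x c b c b') :
    (∃ f : ℕ → SS, ∀ x ∈ B, ∃ n σ, IsIso σ (f n) x) ∨
    ∃ c : (ℕ → Bool) → SS, Continuous c ∧ (∀ s, c s ∈ B) ∧
      ∀ s t, (∃ σ, IsIso σ (c s) (c t)) → s = t := by
  classical
  refine trans IsIso f1 d1 d1_f1 cont_d1 meas_d1 ?_ ?_ ?_ ?_ B hB hinv ?_
  · have e1 : {z : R2 | f1 (d1 z) = z} = {z : R2 |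
        ∀ a b, (lt z a b ↔ le z a b ∧ ¬ le z b a) ∧ (eqv z a b ↔ le z a b ∧ le z b a)} := by
      ext z
      exact f1_d1_iff
    rw [e1]
    have hle : ∀ a b, Measurable fun z : R2 => le z a b := fun a b =>
      (m_lt a b).or (m_ac 0 a b)
    exact measurableSet_setOfPred.2 (Measurable.forall fun a => Measurable.forall fun b =>
      ((m_lt _ _).iff ((hle _ _).and (hle _ _).not)).and ((m_ac _ _ _).iff
        ((hle _ _).and (hle _ _))))
  · intro z z' h h1
    obtain ⟨σ, k1, k2, k3⟩ := riso_iff.1 h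
    rw [f1_d1_iff] at h1 ⊢
    intro a b
    obtain ⟨a, rfl⟩ := σ.surjective a
    obtain ⟨b, rfl⟩ := σ.surjective b
    have e : eqv z' (σ a) (σ b) ↔ eqv z a b := k2 0 a b
    rw [k1, e, le_s k1 k2, le_s k1 k2]
    exact h1 a b
  · intro z z' σ k1 k2 k3
    refine ⟨fun a b => ?_, fun k a b => ?_, fun k a => ?_⟩
    · exact decide_eq_decide.2 (or_congr (k1 a b) (k2 0 a b))
    · exact decide_eq_decide.2 (k2 _ a b)
    · exact decide_eq_decide.2 (k3 k a)
  · intro x y σ h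
    refine riso_iff.2 ⟨σ, ?_, ?_, ?_⟩
    · intro a b
      rw [lt_f1, lt_f1, h.1, h.1]
    · intro k a b
      rcases k with _ | k
      · show eqv _ _ _ ↔ eqv _ _ _
        rw [eqv_f1, eqv_f1, h.1, h.1]
      · rw [ac_f1, ac_f1, h.2.1]
    · intro k a
      rw [co_f1, co_f1, h.2.2]
  · intro B' hB' hinv' hBB
    refine dich3 B' hB' hinv' ?_ ?_ ?_ ?_ ?_
    · intro z hz
      obtain ⟨x, hx, rfl⟩ := hBB z hz
      exact (htp x hx).tn
    · intro z hz z' hz' a b c a' b' c'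
      obtain ⟨x, hx, rfl⟩ := hBB z hz
      obtain ⟨y, hy, rfl⟩ := hBB z' hz'
      rw [le_f1, le_f1, ← same_iff, ← same_iff, ← same_iff]
      exact hlaw x hx y hy a b c a' b' c'
    · intro z hz z' hz' a b c a' b' c'
      obtain ⟨x, hx, rfl⟩ := hBB z hz
      obtain ⟨y, hy, rfl⟩ := hBB z' hz'
      rw [glb_iff, glb_iff, ← same_iff, ← same_iff, ← same_iff]
      exact hlm x hx y hy a b c a' b' c'
    · intro z hz z' hz' a c a' c'
      obtain ⟨x, hx, rfl⟩ := hBB z hz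
      obtain ⟨y, hy, rfl⟩ := hBB z' hz'
      simp only [le_f1]
      rw [← same_iff, ← same_iff, ← same_iff]
      exact hln x hx y hy a c a' c'
    · intro z hz C A
      obtain ⟨x, hx, rfl⟩ := hBB z hz
      intro h1 h2 h3 h4 h5 h6
      simp only [le_f1] at h1 h2
      simp only [← same_iff]
      refine hpc x hx C A h1 h2 h3 (fun a ha b hb hb' => ?_) h5 h6
      have h7 := (lt_f1.1 (h4 a ha b hb hb')).2
      simpa using h7

end Pool.Agent.Run7.h201.CTR.SEM
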