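import Pool.Agent.Run7.h201.CTR.SemC
import Pool.Agent.N649.WL.Code
import Pool.Agent.N649.WL.Wr

set_option autoImplicit false

/-!
# Additive colourings of trees with labels in a Borel space with an analytic equivalence relation
-/

namespace Pool.Agent.Run7.h201.CTR.SEM

open Set MeasureTheory
open Pool.Agent.Run7.h201.CS.SEM (JLe StA Canc Ok XS IsIsoX)
open Pool.Agent.N649.WL (Dc LE)

variable {M : ℕ → Type}

/-- trees with colourings -/
abbrev YC (M : ℕ → Type) : Type := (ℕ → ℕ → Bool) × (∀ j, M j → ℕ → ℕ → Bool)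

/-- isomorphisms -/
def IsoC (σ : Equiv.Perm ℕ) (x y : YC M) : Prop :=
  (∀ a b, y.1 (σ a) (σ b) = x.1 a b) ∧ ∀ j s a b, y.2 j s (σ a) (σ b) = x.2 j s a b

/-- additive colourings of trees -/
def AC [∀ j, Semigroup (M j)] (x : YC M) : Prop :=
  TrM (fun a b => x.1 a b = true) ∧ ∀ j, ∃ c : ℕ → ℕ → M j, Add (fun a b => x.1 a b = true) c ∧
    ∀ s a b, x.2 j s a b = true ↔ x.1 a b = true ∧ c a b = s

/-- the code of a structure with colours -/
def codC (p : YC M × (ℕ → ℕ)) : XS M := (p.1.1, p.1.2, fun j m => decide (p.2 m = j))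

theorem codC_inj : Function.Injective (codC (M := M)) := by
  rintro p q h
  have h1 : p.1.1 = q.1.1 := congrArg (fun x : XS M => x.1) h
  have h2 : p.1.2 = q.1.2 := congrArg (fun x : XS M => x.2.1) h
  have h4 : p.2 = q.2 := by
    funext m
    have h5 : (codC p).2.2 (q.2 m) m = (codC q).2.2 (q.2 m) m := by rw [h]
    have h6 : decide (p.2 m = q.2 m) = decide (q.2 m = q.2 m) := h5
    simpa using h6
  exact Prod.ext (Prod.ext h1 h2) h4

theorem codC_cont : Continuous (codC (M := M)) := by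
  refine (continuous_fst.comp continuous_fst).prodMk
    ((continuous_snd.comp continuous_fst).prodMk
      (continuous_pi fun j => continuous_pi fun m => ?_))
  exact (continuous_of_discreteTopology (f := fun k : ℕ => decide (k = j))).comp
      ((continuous_apply m).comp continuous_snd)

theorem codC_iso (σ : Equiv.Perm ℕ) (p q : YC M × (ℕ → ℕ)) :
    IsIsoX σ (codC p) (codC q) ↔ IsoC σ p.1 q.1 ∧ ∀ n, p.2 n = q.2 (σ n) := by
  constructor
  · rintro ⟨h1, h2, h3⟩
    refine ⟨⟨h1, h2⟩, fun n => ?_⟩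
    have h4 : decide (q.2 (σ n) = p.2 n) = decide (p.2 n = p.2 n) := h3 (p.2 n) n
    simp only [decide_true, decide_eq_true_eq] at h4
    exact h4.symm
  · rintro ⟨⟨h1, h2⟩, h4⟩
    refine ⟨h1, h2, fun j m => ?_⟩
    show decide (q.2 (σ m) = j) = decide (p.2 m = j)
    rw [h4]

theorem isoX_symm {σ : Equiv.Perm ℕ} {x y : XS M} (h : IsIsoX σ x y) : IsIsoX σ.symm y x := by
  refine ⟨fun m n => ?_, fun j s m n => ?_, fun j m => ?_⟩
  · rw [← h.1, Equiv.apply_symm_apply, Equiv.apply_symm_apply]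
  · rw [← h.2.1, Equiv.apply_symm_apply, Equiv.apply_symm_apply]
  · rw [← h.2.2, Equiv.apply_symm_apply]

theorem isoX_trans {σ τ : Equiv.Perm ℕ} {x y z : XS M} (h : IsIsoX σ x y)
    (h' : IsIsoX τ y z) : IsIsoX (σ.trans τ) x z := by
  refine ⟨fun m n => ?_, fun j s m n => ?_, fun j m => ?_⟩
  · rw [← h.1, ← h'.1]; rfl
  · rw [← h.2.1, ← h'.2.1]; rfl
  · rw [← h.2.2, ← h'.2.2]; rfl

section spaces

variable [∀ j, Countable (M j)]

theorem bsA : BorelSpace (∀ j, M j → ℕ → ℕ → Bool) := by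
  have h0 : BorelSpace (ℕ → Bool) := inferInstance
  have h1 : BorelSpace (ℕ → ℕ → Bool) := inferInstance
  have h2 : ∀ j, BorelSpace (M j → ℕ → ℕ → Bool) := fun j => Pi.borelSpace
  have h3 : ∀ j, SecondCountableTopology (M j → ℕ → ℕ → Bool) := fun j => inferInstance
  exact Pi.borelSpace

theorem scA : SecondCountableTopology (∀ j, M j → ℕ → ℕ → Bool) := by
  have h3 : ∀ j, SecondCountableTopology (M j → ℕ → ℕ → Bool) := fun j => inferInstance
  infer_instance

theorem bsY : BorelSpace (YC M) := by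
  have := bsA (M := M)
  have := scA (M := M)
  exact Prod.borelSpace

theorem scY : SecondCountableTopology (YC M) := by
  have := scA (M := M)
  infer_instance

theorem cmA : TopologicalSpace.IsCompletelyMetrizableSpace (∀ j, M j → ℕ → ℕ → Bool) := by
  have h2 : TopologicalSpace.IsCompletelyMetrizableSpace (ℕ → ℕ → Bool) := inferInstance
  have h3 : ∀ j, TopologicalSpace.IsCompletelyMetrizableSpace (M j → ℕ → ℕ → Bool) :=
    fun j => inferInstance
  infer_instance

theorem plY : PolishSpace (YC M) := by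
  have h := scY (M := M)
  have h' := cmA (M := M)
  have h4 : TopologicalSpace.IsCompletelyMetrizableSpace (YC M) := inferInstance
  exact {}

theorem plX : PolishSpace (XS M) := by
  have h := scA (M := M)
  have h' := cmA (M := M)
  have h4 : TopologicalSpace.IsCompletelyMetrizableSpace (XS M) := inferInstance
  exact {}

theorem bsX : BorelSpace (XS M) := by
  have := bsA (M := M)
  have := scA (M := M)
  have h2 : BorelSpace ((∀ j, M j → ℕ → ℕ → Bool) × (ℕ → ℕ → Bool)) := Prod.borelSpace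
  exact Prod.borelSpace

theorem bsYN : BorelSpace (YC M × (ℕ → ℕ)) := by
  have := bsY (M := M)
  have := scY (M := M)
  exact Prod.borelSpace

theorem plYN : PolishSpace (YC M × (ℕ → ℕ)) := by
  have h := scY (M := M)
  have h' := cmA (M := M)
  have h4 : TopologicalSpace.IsCompletelyMetrizableSpace (YC M × (ℕ → ℕ)) := inferInstance
  exact {}

end spaces

theorem dc_col [∀ j, Semigroup (M j)] [∀ j, Countable (M j)] (n : ℕ)
    (hS : ∀ j, j < n → Ok (M j)) (hS' : ∀ j, n ≤ j → Canc (M j))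
    {C : Set (YC M × (ℕ → ℕ))} (hC : MeasurableSet C) (hCV : ∀ p ∈ C, AC p.1)
    (hinv : ∀ p ∈ C, ∀ q, LE IsoC (· = ·) p q → q ∈ C) : Dc (LE IsoC (· = ·)) C := by
  have i1 := bsX (M := M)
  have i2 := bsYN (M := M)
  have i3 := plYN (M := M)
  have i4 := plX (M := M)
  refine Pool.Agent.N649.WL.dc_code codC_cont codC_inj
    (R' := fun x y => ∃ σ, IsIsoX σ x y) (fun p q => ?_) ?_ ?_ ?_ hC hinv fun h1 h2 => ?_
  · constructor
    · rintro ⟨σ, h⟩
      exact ⟨σ, (codC_iso σ p q).1 h⟩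
    · rintro ⟨σ, h⟩
      exact ⟨σ, (codC_iso σ p q).2 h⟩
  · rintro p y ⟨σ, h⟩
    refine ⟨((y.1, y.2.1), fun m => p.2 (σ.symm m)), ?_⟩
    refine Prod.ext rfl (Prod.ext rfl (funext fun j => funext fun m => ?_))
    show decide (p.2 (σ.symm m) = j) = y.2.2 j m
    have h3 := h.2.2 j (σ.symm m)
    rw [Equiv.apply_symm_apply] at h3
    rw [h3]
    rfl
  · rintro x y ⟨σ, h⟩
    exact ⟨_, isoX_symm h⟩
  · rintro x y z ⟨σ, h⟩ ⟨τ, h'⟩
    exact ⟨_, isoX_trans h h'⟩
  · rcases colT n hS hS' (codC '' C) h1 (fun x hx y σ h => h2 x hx y ⟨σ, h⟩) (by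
      rintro _ ⟨p, hp, rfl⟩
      exact (hCV p hp).1) (by
      rintro _ ⟨p, hp, rfl⟩
      exact (hCV p hp).2) with ⟨f, hf⟩ | ⟨g, g1, g2, g3⟩
    · exact Or.inl ⟨f, hf⟩
    · exact Or.inr ⟨g, g1.measurable, g2, g3⟩

/-- The theorem for labels. -/
theorem labelled [∀ j, Semigroup (M j)] [∀ j, Countable (M j)] (n : ℕ)
    (hS : ∀ j, j < n → Ok (M j)) (hS' : ∀ j, n ≤ j → Canc (M j))
    {X : Type} [TopologicalSpace X] [PolishSpace X] [MeasurableSpace X] [BorelSpace X]
    {E : X → X → Prop} (hE : Equivalence E) (hEa : AnalyticSet {q : X × X | E q.1 q.2})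
    (Z : Set X) (hX : ∀ C : Set X, MeasurableSet C → C ⊆ Z →
      (∀ x ∈ C, ∀ x', E x x' → x' ∈ C) → Dc E C)
    {A : Set (YC M × (ℕ → X))} (hA : MeasurableSet A) (hAS : ∀ p ∈ A, AC p.1)
    (hZ : ∀ p ∈ A, ∀ n, p.2 n ∈ Z)
    (hinv : ∀ p ∈ A, ∀ q, LE IsoC E p q → q ∈ A) : Dc (LE IsoC E) A := by
  have i1 := bsY (M := M)
  have i2 := plY (M := M)
  rcases A.eq_empty_or_nonempty with hAe | ⟨a0, ha0⟩
  · left
    exact ⟨∅, empty_subset _, countable_empty, fun x hx => by rw [hAe] at hx; exact hx.elim⟩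
  exact Pool.Agent.N649.WL.main IsoC (fun y => ⟨fun m n => rfl, fun j s m n => rfl⟩) hE hEa Z hX
    {q | AC q.1} (fun C h1 h2 h3 => dc_col n hS hS' h1 h2 h3) (a0.2 0) hA hZ
    (fun p hp _ _ _ => hAS p hp) hinv

end Pool.Agent.Run7.h201.CTR.SEM
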