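import Pool.Agent.Run7.h201.CTR.Gen

set_option autoImplicit false

/-!
# Coherent trees: filling cones which are not small; the base family
-/

namespace Pool.Agent.Run7.h201.CTR

open Set
open Pool.Agent.H899R2.VP (St Adj PIso BF IsoOn idOn inv comp zipSet mem_inv BF_iff zipSet_cons
  zipSet_nil_left labels idOn_mono)
open Pool.Agent.H533R2.VO (RS lift RIso Dich resBF resIso)
open Pool.Agent.H566P (ar R2 lt ac co mk)
open Pool.Agent.Y560.TG (lt_mk ac_mk co_mk piso_iff ex lt_ex ac_ex co_ex_even co_ex_odd piso_ex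
  bf_trans0 bf_symm0 iso_trans0 iso_symm0 iso_refl0 Off riso_isoOn piso_lt piso_co piso_eq msg
  meas_lt meas_ac meas_co)
open Pool.Agent.Run7.h201.CS (E E_iff At piso_E piso_pair lc Mod lift_meas lift_few zip1 zip2
  gCnt gIso g_code genf_code genf_cnt_iso genf_cnt_union genf_subset_iso genf_iso_iso R0 Lev
  lift_measurable fill iso_add)

/-- `[x, y]` is small: its variations of rank `α` (in `K`) have only countably many isomorphism
types. -/
def Small (K : Set R2) (α : Ordinal.{0}) (M : R2) (m x : ℕ) : Prop :=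
  ∃ f : ℕ → R2 × Set ℕ, ∀ N ∈ K, ∀ m' x', BF (lift M) (lift N) univ univ α {(m, m'), (x, x')} →
    ∃ n, IsoOn (lift (f n).1) (lift N) (f n).2 (Dn N m' x') ∅

/-- adding the base point -/
theorem iso_base {N V : R2} {O O' : Set ℕ} {m m' : ℕ}
    (h : IsoOn (lift (lc N fun _ => m')) (lift (lc V fun _ => m)) O O' ∅) (h1 : m' ∉ O)
    (h2 : m ∉ O') (hp : PIso (lift N) (lift V) {(m', m)}) :
    IsoOn (lift N) (lift V) (insert m' O) (insert m O') {(m', m)} := by
  have h3 := iso_add (fun _ => h1) (fun _ => h2) (hp.mono (by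
    rintro u ⟨i, rfl⟩
    rfl)) h
  have e1 : ∀ (O : Set ℕ) (m : ℕ), O ∪ range (fun _ : ℕ => m) = insert m O := by
    intro O m
    ext z
    simp only [mem_union, mem_range, exists_const, mem_insert_iff]
    constructor
    · rintro (h | h)
      · exact Or.inr h
      · exact Or.inl h.symm
    · rintro (h | h)
      · exact Or.inr h.symm
      · exact Or.inl h
  rw [e1, e1] at h3
  exact h3.mono (by rintro u rfl; exact ⟨0, rfl⟩)

theorem off_mem {M V : R2} {O : Set ℕ} {q : Set (ℕ × ℕ)} (hp : PIso (lift M) (lift V) q)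
    (hq : idOn Oᶜ ⊆ q) {u0 u : ℕ} (hu : (u0, u) ∈ q) : u0 ∈ O ↔ u ∈ O := by
  by_cases h1 : u0 ∈ O
  · by_cases h2 : u ∈ O
    · exact iff_of_true h1 h2
    · exfalso
      have h3 : (u, u) ∈ q := hq ⟨rfl, h2⟩
      have h4 := (piso_eq hp hu h3).2 rfl
      rw [h4] at h1
      exact h2 h1
  · by_cases h2 : u ∈ O
    · exfalso
      have h3 : (u0, u0) ∈ q := hq ⟨rfl, h1⟩
      have h4 := (piso_eq hp hu h3).1 rfl
      rw [h4] at h2
      exact h1 h2
    · exact iff_of_false h1 h2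

/-- the cone does not change -/
theorem cone_fill {M V : R2} {m x : ℕ} {o : Ordinal.{0}} (hM : TP M)
    (ho : Ordinal.omega0 ≤ o)
    (hb : BF (lift M) (lift V) univ univ o (idOn (Cn M m x)ᶜ)) {z : ℕ} (hz : z ∈ Cn M m x) :
    Cn V m z = Cn M m x := by
  have hm : (m, m) ∈ idOn (Cn M m x)ᶜ := ⟨rfl, base_nCn hM⟩
  have h1 : (1 : Ordinal.{0}) + 1 + 1 ≤ o := by
    refine le_trans ?_ ho
    have : ((3 : ℕ) : Ordinal.{0}) ≤ Ordinal.omega0 := (Ordinal.natCast_lt_omega0 3).le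
    refine le_trans (le_of_eq ?_) this
    norm_num
  obtain ⟨z0, -, hb1⟩ := (hb.mono h1).back (lt_add_one _) (mem_univ z)
  have hz1 : (z0, z) ∈ insert (z0, z) (idOn (Cn M m x)ᶜ) := mem_insert _ _
  have hz0 := (off_mem hb1.piso (subset_insert _ _) hz1).2 hz
  ext u
  obtain ⟨u0, -, hb2⟩ := hb1.back (lt_add_one _) (mem_univ u)
  have hu := off_mem hb2.piso ((subset_insert _ _).trans (subset_insert _ _)) (mem_insert _ _)
  rw [← hu, ← cn_bf hb2 zero_lt_one (mem_insert_of_mem _ (mem_insert_of_mem _ hm))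
    (mem_insert_of_mem _ hz1) (mem_insert _ _), cn_eq hM hz0]

variable {α : Ordinal.{0}} {K : Set R2} {M : R2}

theorem fillS (hK : G α K) (hM : M ∈ K) {m x : ℕ} (hns : ¬ Small K α M m x)
    (hmx : lt M m x) (F : Set (R2 × Set ℕ)) (hF : F.Countable) :
    ∃ T : R2, Off (Cn M m x) M T ∧
      BF (lift (lc M fun _ => m)) (lift (lc T fun _ => m)) (Cn M m x) (Cn M m x) α ∅ ∧
      T ∈ K ∧ (∀ z ∈ Cn M m x, Cn T m z = Cn M m x) ∧
      ∀ P ∈ F, ¬ IsoOn (lift P.1) (lift T) P.2 (Dn M m x) ∅ := by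
  obtain ⟨f, hf⟩ := (hF.insert (M, (∅ : Set ℕ))).exists_eq_range (insert_nonempty _ _)
  have hex : ∃ N ∈ K, ∃ m' x', BF (lift M) (lift N) univ univ α {(m, m'), (x, x')} ∧
      ∀ n, ¬ IsoOn (lift (f n).1) (lift N) (f n).2 (Dn N m' x') ∅ := by
    by_contra hcon
    apply hns
    refine ⟨f, fun N hN m' x' hb => ?_⟩
    by_contra hno
    exact hcon ⟨N, hN, m', x', hb, fun n hn => hno ⟨n, hn⟩⟩
  obtain ⟨N, hN, m', x', hbf, hno⟩ := hex
  have hMt := hK.tp M hM
  have hNt := hK.tp N hN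
  have hpm : (m, m') ∈ ({(m, m'), (x, x')} : Set (ℕ × ℕ)) := Or.inl rfl
  have hpx : (x, x') ∈ ({(m, m'), (x, x')} : Set (ℕ × ℕ)) := Or.inr rfl
  have hb2 := (bf_lab (b := fun _ => m) (b' := fun _ => m') (fun _ => hpm)
    (resCn hK.om hpm hpx hbf)).subset (empty_subset _)
  obtain ⟨V, hoff, hiso, hbV, hbfV⟩ := fill (mod_cn hMt (hK.law M hM M hM)) hK.om hb2
  have hVK : V ∈ K := hK.closed M hM V (hbfV.subset (empty_subset _))
  have hcn := fun z hz => cone_fill (z := z) hMt hK.om hbfV hz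
  have hp : PIso (lift N) (lift V) {(m', m)} := by
    refine (hbf.piso.symm.comp hbfV.piso).mono ?_
    rintro u rfl
    exact ⟨m, hpm, rfl, base_nCn hMt⟩
  have h1 := iso_base hiso (base_nCn hNt) (base_nCn hMt) hp
  refine ⟨V, hoff, hbV, hVK, hcn, ?_⟩
  intro P hP hPI
  have hPr : P ∈ range f := by
    rw [← hf]
    exact Or.inr hP
  obtain ⟨n, rfl⟩ := hPr
  exact hno n (iso_trans0 hPI (iso_symm0 (h1.mono (empty_subset _))))

/-- BASE -/
theorem base (hK : G α K) : ∃ S : Set (R2 × Set ℕ), Fam K S ∧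
    ∀ M ∈ K, ∀ m x, lt M m x → (M, Dn M m x) ∉ S → ¬ Small K α M m x := by
  obtain ⟨c, hc⟩ := lab hK hK.lt1
  classical
  have hg : ∀ κ : ℕ, ∃ g : ℕ → R2 × Set ℕ, ∀ M ∈ K, ∀ m x, c M [m, x] = κ →
      Small K α M m x → ∃ n, IsoOn (lift (g n).1) (lift M) (g n).2 (Dn M m x) ∅ := by
    intro κ
    by_cases h : ∃ M ∈ K, ∃ m x, c M [m, x] = κ ∧ Small K α M m x
    · obtain ⟨M, hM, m, x, hκ, g, hg⟩ := h
      refine ⟨g, fun N hN m' x' hκ' _ => ?_⟩
      have hbf := hc M hM N hN [m, x] [m', x'] rfl (by rw [hκ, hκ'])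
      rw [zip2] at hbf
      exact hg N hN m' x' hbf
    · exact ⟨fun _ => (R0, ∅), fun M hM m x hκ hs => absurd ⟨M, hM, m, x, hκ, hs⟩ h⟩
  choose g hg using hg
  obtain ⟨S, hS, hSf⟩ := genf hK.tp (fun n => g n.unpair.1 n.unpair.2)
  have hSg : ∀ κ n, g κ n ∈ S := by
    intro κ n
    have := hSf (Nat.pair κ n)
    simpa using this
  refine ⟨S, hS, ?_⟩
  intro M hM m x _ hnot hsm
  obtain ⟨n, hn⟩ := hg (c M [m, x]) M hM m x rfl hsm
  exact hnot (hS.iso _ _ _ _ (hSg _ n) hn)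

end Pool.Agent.Run7.h201.CTR
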