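import Pool.Agent.Run7.h201.CTR.T1a

set_option autoImplicit false

/-!
# Finite cut types in trees: trees and their coded structures
-/

namespace Pool.Agent.Run7.h201.CTR.T1

open Set MeasureTheory
open Pool.Agent.H899R2.VP (St PIso IsoOn isoOn_of_system)
open Pool.Agent.H533R2.VO (RS lift RIso Dich)
open Pool.Agent.H566P (ar R2 lt ac co mk)
open Pool.Agent.Y560.TG (lt_mk ac_mk co_mk piso_iff riso_iff riso_isoOn R2_ext meas_lt meas_ac
  meas_co meas_into)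
open Pool.Agent.Run7.h201.CS (E E_iff)
open Pool.Agent.Run7.h201.CTR

/-- strict tree orders -/
structure STO (z : R2) : Prop where
  irr : ∀ x, ¬ lt z x x
  tr : ∀ x y w, lt z x y → lt z y w → lt z x w
  lin : ∀ x y w, lt z x w → lt z y w → lt z x y ∨ x = y ∨ lt z y x

/-- downward closed chains -/
def dnc (z : R2) (A : Set ℕ) : Prop :=
  (∀ x ∈ A, ∀ y, lt z y x → y ∈ A) ∧ ∀ x ∈ A, ∀ y ∈ A, x = y ∨ lt z x y ∨ lt z y x

/-- the elements above all elements of `A` -/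
def Nz (z : R2) (A : Set ℕ) : Set ℕ := {y | ∀ c ∈ A, lt z c y}

/-- the same relations to the elements outside `Nz` -/
def evz (z : R2) (A : Set ℕ) (t t' : ℕ) : Prop :=
  ∀ y, y ∉ Nz z A → ∀ k, (ac z k t y ↔ ac z k t' y) ∧ (ac z k y t ↔ ac z k y t')

/-- finitely many types above every downward closed chain -/
def FIz (z : R2) : Prop := ∀ A : Set ℕ, dnc z A →
  ∃ F : Set ℕ, F.Finite ∧ F ⊆ Nz z A ∧ ∀ x ∈ Nz z A, ∃ f ∈ F, evz z A x f

/-- incomparable elements -/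
def inc (z : R2) (x y : ℕ) : Prop := x ≠ y ∧ ¬ lt z x y ∧ ¬ lt z y x

/-- the common predecessors -/
def com (z : R2) (x y : ℕ) : Set ℕ := {c | lt z c x ∧ lt z c y}

/-- the relations between elements in different cones depend on the types only -/
def SLz (z : R2) : Prop := ∀ x y x' y', inc z x y → inc z x' y' → com z x y = com z x' y' →
  evz z (com z x y) x x' → evz z (com z x y) y y' → ∀ k, ac z k x y ↔ ac z k x' y'

/-- `z` is the quotient of the real part of `W` -/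
structure Q (W z : R2) (π : ℕ → ℕ) : Prop where
  surj : ∀ u, ∃ x, RE W x ∧ π x = u
  hlt : ∀ x y, RE W x → RE W y → (lt W x y ↔ lt z (π x) (π y))
  heq : ∀ x y, RE W x → RE W y → (eqv W x y ↔ π x = π y)
  hr : ∀ k x y, RE W x → RE W y → (RR W k x y ↔ ac z k (π x) (π y))
  hP : ∀ k x, RE W x → (P W k x ↔ co z k (π x))

section Qs

variable {W W' z z' : R2} {π π' : ℕ → ℕ}

/-- the chain of `z` given by a chain of `W` -/
def Ch (W : R2) (π : ℕ → ℕ) (A : Set ℕ) : Set ℕ := {u | ∃ x ∈ A, ∃ c, RE W c ∧ le W c x ∧ π c = u}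

theorem Q.hle (h : Q W z π) {x y : ℕ} (hx : RE W x) (hy : RE W y) :
    le W x y ↔ (lt z (π x) (π y) ∨ π x = π y) := or_congr (h.hlt x y hx hy) (h.heq x y hx hy)

/-- real elements below `x` but not below `y` -/
theorem Ax.below (hW : Ax W) {x y : ℕ} (h : ¬ le W x y) :
    ∃ c, RE W c ∧ le W c x ∧ ¬ le W c y := by
  obtain ⟨w, w1, w2, w3⟩ := hW.tp.meet x y
  have h1 : lt W w x := by
    rcases hW.tp.lt_or w1 with h1 | h1
    · exact h1
    · exact absurd (hW.tp.le_trans h1 w2) h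
  obtain ⟨c, c1, c2, c3⟩ := hW.sep w x h1
  exact ⟨c, c1, c3, fun h2 => hW.tp.lt_not_le c2 (w3 c c3 h2)⟩

theorem Q.dnc (hW : Ax W) (h : Q W z π) {A : Set ℕ}
    (hA : ∀ x ∈ A, ∀ y ∈ A, le W x y ∨ le W y x) : dnc z (Ch W π A) := by
  constructor
  · rintro _ ⟨x, hx, c, hc, hcx, rfl⟩ v hv
    obtain ⟨d, hd, rfl⟩ := h.surj v
    exact ⟨x, hx, d, hd, Or.inl (hW.tp.lt_le ((h.hlt d c hd hc).2 hv) hcx), rfl⟩
  · rintro _ ⟨x, hx, c, hc, hcx, rfl⟩ _ ⟨y, hy, d, hd, hdy, rfl⟩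
    have key : le W c d ∨ le W d c := by
      rcases hA x hx y hy with h1 | h1
      · exact hW.tp.lin' (hW.tp.le_trans hcx h1) hdy
      · exact hW.tp.lin' hcx (hW.tp.le_trans hdy h1)
    rcases key with h1 | h1
    · rcases (h.hle hc hd).1 h1 with h2 | h2
      · exact Or.inr (Or.inl h2)
      · exact Or.inl h2
    · rcases (h.hle hd hc).1 h1 with h2 | h2
      · exact Or.inr (Or.inr h2)
      · exact Or.inl h2.symm

theorem Q.nz (hW : Ax W) (h : Q W z π) {A : Set ℕ} {t : ℕ} (ht : RE W t) :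
    π t ∈ Nz z (Ch W π A) ↔ t ∈ NA W A := by
  constructor
  · intro h1
    refine ⟨ht, fun x hx => ?_⟩
    have h2 : ∀ c, RE W c → le W c x → lt W c t := fun c hc hcx =>
      (h.hlt c t hc ht).2 (h1 (π c) ⟨x, hx, c, hc, hcx, rfl⟩)
    have h3 : ¬ le W t x := fun h3 => hW.tp.irr t (h2 t ht h3)
    by_cases h4 : le W x t
    · exact hW.tp.lt_of h4 h3
    · obtain ⟨c, c1, c2, c3⟩ := hW.below h4
      exact absurd (Or.inl (h2 c c1 c2)) c3
  · rintro ⟨-, h1⟩ _ ⟨x, hx, c, hc, hcx, rfl⟩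
    exact (h.hlt c t hc ht).1 (hW.tp.le_lt hcx (h1 x hx))

theorem Q.ea (hW : Ax W) (h : Q W z π) {A : Set ℕ} {t t' : ℕ} (ht : RE W t) (ht' : RE W t') :
    eA W A t t' ↔ evz z (Ch W π A) (π t) (π t') := by
  constructor
  · intro h1 y hy k
    obtain ⟨y, hyR, rfl⟩ := h.surj y
    have h2 := h1 y hyR (fun h3 => hy ((h.nz hW hyR).2 h3)) k
    rw [h.hr k t y ht hyR, h.hr k t' y ht' hyR, h.hr k y t hyR ht, h.hr k y t' hyR ht'] at h2
    exact h2
  · intro h1 y hyR hy k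
    rw [h.hr k t y ht hyR, h.hr k t' y ht' hyR, h.hr k y t hyR ht, h.hr k y t' hyR ht']
    exact h1 (π y) (fun h2 => hy ((h.nz hW hyR).1 h2)) k

theorem ev_ea {x t t' : ℕ} : ev W x t t' ↔ eA W {x} t t' := by
  unfold ev eA NA
  refine forall_congr' fun y => forall_congr' fun hy => ?_
  have : ¬ lt W x y ↔ y ∉ {t | RE W t ∧ ∀ x_1 ∈ ({x} : Set ℕ), lt W x_1 t} := by
    simp [hy]
  rw [this]

theorem Q.fi (hW : Ax W) (h : Q W z π) (hf : FIz z) : FI W := by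
  intro A hA
  obtain ⟨F, hF1, hF2, hF3⟩ := hf (Ch W π A) (h.dnc hW hA)
  choose s hs1 hs2 using h.surj
  refine ⟨s '' F, hF1.image _, ?_, ?_⟩
  · rintro _ ⟨f, hf, rfl⟩
    rw [← h.nz hW (hs1 f), hs2]
    exact hF2 hf
  · intro x hx
    obtain ⟨f, hf, hxf⟩ := hF3 (π x) ((h.nz hW hx.1).2 hx)
    refine ⟨s f, ⟨f, hf, rfl⟩, ?_⟩
    rw [h.ea hW hx.1 (hs1 f), hs2]
    exact hxf

theorem Q.left (h : Q W' z π) (hi : RIso W W')
    (hRR : ∀ σ : Equiv.Perm ℕ, (∀ x y, lt W' (σ x) (σ y) ↔ lt W x y) →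
      (∀ n x y, ac W' n (σ x) (σ y) ↔ ac W n x y) → (∀ n x, co W' n (σ x) ↔ co W n x) →
      ∀ k x y, RR W k x y ↔ RR W' k (σ x) (σ y)) : ∃ π', Q W z π' := by
  obtain ⟨σ, h1, h2, h3⟩ := riso_iff.1 hi
  have hR : ∀ x, RE W x ↔ RE W' (σ x) := fun x => (h3 _ x).symm
  refine ⟨fun x => π (σ x), fun u => ?_, fun x y hx hy => ?_, fun x y hx hy => ?_,
    fun k x y hx hy => ?_, fun k x hx => ?_⟩
  · obtain ⟨x, hx1, hx2⟩ := h.surj u
    refine ⟨σ.symm x, ?_, ?_⟩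
    · rw [hR, Equiv.apply_symm_apply]; exact hx1
    · rw [Equiv.apply_symm_apply]; exact hx2
  · exact (h1 x y).symm.trans (h.hlt _ _ ((hR x).1 hx) ((hR y).1 hy))
  · exact (h2 0 x y).symm.trans (h.heq _ _ ((hR x).1 hx) ((hR y).1 hy))
  · exact (hRR σ h1 h2 h3 k x y).trans (h.hr k _ _ ((hR x).1 hx) ((hR y).1 hy))
  · exact (h3 _ x).symm.trans (h.hP k _ ((hR x).1 hx))

theorem Q.right (h : Q W z π) (hi : RIso z z') : ∃ π', Q W z' π' := by
  obtain ⟨σ, h1, h2, h3⟩ := riso_iff.1 hi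
  refine ⟨fun x => σ (π x), fun u => ?_, fun x y hx hy => ?_, fun x y hx hy => ?_,
    fun k x y hx hy => ?_, fun k x hx => ?_⟩
  · obtain ⟨x, hx1, hx2⟩ := h.surj (σ.symm u)
    exact ⟨x, hx1, by rw [hx2, Equiv.apply_symm_apply]⟩
  · exact (h.hlt x y hx hy).trans (h1 _ _).symm
  · exact (h.heq x y hx hy).trans (σ.injective.eq_iff).symm
  · exact (h.hr k x y hx hy).trans (h2 _ _ _).symm
  · exact (h.hP k x hx).trans (h3 _ _).symm

theorem Q.uniq (h : Q W z π) (h' : Q W z' π') : RIso z z' := by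
  have e1 : ∀ x y, RE W x → RE W y → (π x = π y ↔ π' x = π' y) := fun x y hx hy =>
    (h.heq x y hx hy).symm.trans (h'.heq x y hx hy)
  choose s hs1 hs2 using h.surj
  choose s' hs1' hs2' using h'.surj
  have k1 : ∀ x, RE W x → π' (s (π x)) = π' x := fun x hx =>
    (e1 _ _ (hs1 _) hx).1 (hs2 _)
  have k2 : ∀ x, RE W x → π (s' (π' x)) = π x := fun x hx =>
    (e1 _ _ (hs1' _) hx).2 (hs2' _)
  refine riso_iff.2 ⟨⟨fun u => π' (s u), fun v => π (s' v), fun u => ?_, fun v => ?_⟩, ?_, ?_, ?_⟩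
  · show π (s' (π' (s u))) = u
    rw [k2 _ (hs1 u), hs2]
  · show π' (s (π (s' v))) = v
    rw [k1 _ (hs1' v), hs2']
  · intro u v
    obtain ⟨x, hx, rfl⟩ := h.surj u
    obtain ⟨y, hy, rfl⟩ := h.surj v
    show lt z' (π' (s (π x))) (π' (s (π y))) ↔ _
    rw [k1 x hx, k1 y hy, ← h.hlt x y hx hy, ← h'.hlt x y hx hy]
  · intro k u v
    obtain ⟨x, hx, rfl⟩ := h.surj u
    obtain ⟨y, hy, rfl⟩ := h.surj v
    show ac z' k (π' (s (π x))) (π' (s (π y))) ↔ _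
    rw [k1 x hx, k1 y hy, ← h.hr k x y hx hy, ← h'.hr k x y hx hy]
  · intro k u
    obtain ⟨x, hx, rfl⟩ := h.surj u
    show co z' k (π' (s (π x))) ↔ _
    rw [k1 x hx, ← h.hP k x hx, ← h'.hP k x hx]

/-- the same real elements below -/
def Cl (W W' : R2) (π π' : ℕ → ℕ) (x x' : ℕ) : Prop :=
  ∀ c c', RE W c → RE W' c' → π c = π' c' → (le W c x ↔ le W' c' x')

/-- corresponding elements -/
def C (W W' : R2) (π π' : ℕ → ℕ) (x x' : ℕ) : Prop :=
  Cl W W' π π' x x' ∧ (∀ k, len W k x ↔ len W' k x') ∧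
    ∀ j t t', RE W t → RE W' t' → π t = π' t' → (q W j x t ↔ q W' j x' t')

theorem Cl.symm {x x' : ℕ} (h : Cl W W' π π' x x') : Cl W' W π' π x' x :=
  fun c c' hc hc' he => (h c' c hc' hc he.symm).symm

theorem C.symm {x x' : ℕ} (h : C W W' π π' x x') : C W' W π' π x' x :=
  ⟨h.1.symm, fun k => (h.2.1 k).symm, fun j t t' ht ht' h1 => (h.2.2 j t' t ht' ht h1.symm).symm⟩

section two

variable (hW : Ax W) (hW' : Ax W') (h : Q W z π) (h' : Q W' z π')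

include hW hW' h h'

theorem cl_le1 {x x' y y' : ℕ} (hx : Cl W W' π π' x x') (hy : Cl W W' π π' y y')
    (hle : le W x y) : le W' x' y' := by
  by_contra hcon
  obtain ⟨c', c1, c2, c3⟩ := hW'.below hcon
  obtain ⟨c, hc, hcc⟩ := h.surj (π' c')
  exact c3 ((hy c c' hc c1 hcc).1 (hW.tp.le_trans ((hx c c' hc c1 hcc).2 c2) hle))

omit hW hW' h h' in
theorem cl_le (hW : Ax W) (hW' : Ax W') (h : Q W z π) (h' : Q W' z π') {x x' y y' : ℕ}
    (hx : Cl W W' π π' x x') (hy : Cl W W' π π' y y') : le W x y ↔ le W' x' y' :=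
  ⟨cl_le1 hW hW' h h' hx hy, cl_le1 hW' hW h' h hx.symm hy.symm⟩

theorem cl_lt {x x' y y' : ℕ} (hx : Cl W W' π π' x x') (hy : Cl W W' π π' y y') :
    lt W x y ↔ lt W' x' y' := by
  have e1 := cl_le hW hW' h h' hx hy
  have e2 := cl_le hW hW' h h' hy hx
  constructor
  · intro h1
    exact hW'.tp.lt_of (e1.1 (Or.inl h1)) fun h2 => hW.tp.lt_not_le h1 (e2.2 h2)
  · intro h1
    exact hW.tp.lt_of (e1.2 (Or.inl h1)) fun h2 => hW'.tp.lt_not_le h1 (e2.1 h2)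

theorem cl_eqv {x x' y y' : ℕ} (hx : Cl W W' π π' x x') (hy : Cl W W' π π' y y') :
    eqv W x y ↔ eqv W' x' y' := by
  have e1 := cl_le hW hW' h h' hx hy
  have e2 := cl_le hW hW' h h' hy hx
  constructor
  · intro h1
    exact hW'.tp.antisymm (e1.1 (Or.inr h1)) (e2.1 (Or.inr (hW.tp.es _ _ h1)))
  · intro h1
    exact hW.tp.antisymm (e1.2 (Or.inr h1)) (e2.2 (Or.inr (hW'.tp.es _ _ h1)))

theorem cl_re {c c' : ℕ} (hc : RE W c) (hc' : RE W' c') (he : π c = π' c') :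
    Cl W W' π π' c c' := by
  intro d d' hd hd' hdd
  rw [h.hle hd hc, h'.hle hd' hc', hdd, he]

theorem re1 {x x' : ℕ} (hx : Cl W W' π π' x x') (hxR : RE W x) :
    RE W' x' ∧ π x = π' x' := by
  obtain ⟨c', hc', hcc⟩ := h'.surj (π x)
  have h1 := cl_re hW hW' h h' hxR hc' hcc.symm
  have h2 := (cl_eqv hW hW' h h' h1 hx).1 (hW.tp.er x)
  have h3 := hW'.reb _ _ h2 hc'
  exact ⟨h3, by rw [← hcc]; exact (h'.heq _ _ hc' h3).1 h2⟩

omit hW hW' h h' in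
theorem re2 (hW : Ax W) (hW' : Ax W') (h : Q W z π) (h' : Q W' z π') {x x' : ℕ}
    (hx : Cl W W' π π' x x') : RE W x ↔ RE W' x' :=
  ⟨fun h1 => (re1 hW hW' h h' hx h1).1, fun h1 => (re1 hW' hW h' h hx.symm h1).1⟩

theorem mt1 {a a' b b' x x' : ℕ} (ha : Cl W W' π π' a a') (hb : Cl W W' π π' b b')
    (hx : Cl W W' π π' x x') (hm : mt W a b x) : mt W' a' b' x' := by
  refine ⟨(cl_lt hW hW' h h' hx ha).1 hm.1, (cl_lt hW hW' h h' hx hb).1 hm.2.1,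
    fun v' h1 h2 => ?_⟩
  by_contra hcon
  obtain ⟨c', c1, c2, c3⟩ := hW'.below hcon
  obtain ⟨c, hc, hcc⟩ := h.surj (π' c')
  have g1 := (ha c c' hc c1 hcc).2 (hW'.tp.le_trans c2 h1)
  have g2 := (hb c c' hc c1 hcc).2 (hW'.tp.le_trans c2 h2)
  exact c3 ((hx c c' hc c1 hcc).1 (hm.2.2 c g1 g2))

omit hW hW' h h' in
theorem RR_r {k a b : ℕ} (hW : Ax W) (hr : RR W k a b) (hc : le W a b ∨ le W b a) : r W k a b :=
  (RR_cmp hW.tp hc k).1 hr

theorem r1 {k x x' y y' : ℕ} (hx : Cl W W' π π' x x') (hy : Cl W W' π π' y y')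
    (hr : r W k x y) : r W' k x' y' := by
  obtain ⟨rx, ry⟩ := hW.rd _ _ _ hr
  obtain ⟨rx', ex⟩ := re1 hW hW' h h' hx rx
  obtain ⟨ry', ey⟩ := re1 hW hW' h h' hy ry
  have h1 := (h.hr k x y rx ry).1 (Or.inl hr)
  rw [ex, ey] at h1
  have h2 := (h'.hr k x' y' rx' ry').2 h1
  refine RR_r hW' h2 ?_
  rcases hW.tp.loc _ _ _ hr with h3 | h3
  · exact Or.inl ((cl_le hW hW' h h' hx hy).1 h3)
  · exact Or.inr ((cl_le hW hW' h h' hy hx).1 h3)

theorem q1 {j x x' t t' : ℕ} (hx : C W W' π π' x x') (ht : Cl W W' π π' t t')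
    (hq : q W j x t) : q W' j x' t' := by
  have rt := (hW.qd _ _ _ hq).1
  obtain ⟨rt', et⟩ := re1 hW hW' h h' ht rt
  exact (hx.2.2 j t t' rt rt' et).1 hq

theorem ex1 {F F' : ℕ → Prop} (hF : ∀ t, F t → RE W t)
    (hFF : ∀ t t', RE W t → RE W' t' → π t = π' t' → F t → F' t') :
    (∃ t, F t) → ∃ t, F' t := by
  rintro ⟨t, ht⟩
  obtain ⟨t', ht', he⟩ := h'.surj (π t)
  exact ⟨t', hFF t t' (hF t ht) ht' he.symm ht⟩

theorem pp1 {i j k x x' : ℕ} (hx : C W W' π π' x x') (hp : pp W i j k x) :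
    pp W' i j k x' := by
  obtain ⟨a, b, m1, qa, qb⟩ := hW.pph _ _ _ _ hp
  have ra := (hW.qd _ _ _ qa).1
  have rb := (hW.qd _ _ _ qb).1
  obtain ⟨a', ra', ea⟩ := h'.surj (π a)
  obtain ⟨b', rb', eb⟩ := h'.surj (π b)
  have ca := cl_re hW hW' h h' ra ra' ea.symm
  have cb := cl_re hW hW' h h' rb rb' eb.symm
  have h1 := (h.hr k a b ra rb).1 (Or.inr ⟨x, i, j, m1, qa, qb, hp⟩)
  rw [← ea, ← eb] at h1
  have m1' := mt1 hW hW' h h' ca cb hx.1 m1
  rcases (h'.hr k a' b' ra' rb').2 h1 with h2 | ⟨x1, i1, j1, m2, qa1, qb1, hp1⟩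
  · exact absurd (hW'.tp.loc _ _ _ h2) (mt_not hW'.tp m1')
  · exact (hW'.ppc i1 j1 k x1 i j x' a' b' (mt_uniq hW'.tp m2 m1') m2 qa1 qb1
      (q1 hW hW' h h' hx ca qa) (q1 hW hW' h h' hx cb qb)).1 hp1

end two

theorem ext1 (hW : Ax W) (hW' : Ax W') (h : Q W z π) (h' : Q W' z π') (x : ℕ)
    (av : List ℕ) : ∃ x', x' ∉ av ∧ C W W' π π' x x' := by
  obtain ⟨a, b, ra, rb, xa, xb, xm⟩ := hW.nd x
  obtain ⟨a', ra', ea⟩ := h'.surj (π a)
  obtain ⟨b', rb', eb⟩ := h'.surj (π b)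
  have ca := cl_re hW hW' h h' ra ra' ea.symm
  have cb := cl_re hW hW' h h' rb rb' eb.symm
  obtain ⟨x0, x0a, x0b, x0m⟩ := hW'.tp.meet a' b'
  have cx0 : Cl W W' π π' x x0 := by
    intro c c' hc hc' he
    constructor
    · intro g
      exact x0m c' ((ca c c' hc hc' he).1 (hW.tp.le_trans g xa))
        ((cb c c' hc hc' he).1 (hW.tp.le_trans g xb))
    · intro g
      exact xm c ((ca c c' hc hc' he).2 (hW'.tp.le_trans g x0a))
        ((cb c c' hc hc' he).2 (hW'.tp.le_trans g x0b))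
  obtain ⟨n, hn⟩ := hW.ln x
  have hn' : len W n x := (hn n).2 rfl
  have ht : ∀ j : ℕ, ∃ t t' : ℕ, RE W t ∧ RE W' t' ∧ π t = π' t' ∧ (j < n → q W j x t) := by
    intro j
    by_cases hj : j < n
    · obtain ⟨t, ht⟩ := hW.qf n j x hn' hj
      obtain ⟨t', rt', ht'⟩ := h'.surj (π t)
      exact ⟨t, t', (hW.qd _ _ _ ht).1, rt', ht'.symm, fun _ => ht⟩
    · exact ⟨a, a', ra, ra', ea.symm, fun h => absurd h hj⟩
  choose τ τ' hτR hτR' hτ hτq using ht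
  have hch : ∀ y y', Cl W W' π π' y y' → Ch W π {y} = Ch W' π' {y'} := by
    intro y y' hy
    ext u
    constructor
    · rintro ⟨_, rfl, c, hc, hcx, rfl⟩
      obtain ⟨c', hc', he⟩ := h'.surj (π c)
      exact ⟨_, rfl, c', hc', (hy c c' hc hc' he.symm).1 hcx, he⟩
    · rintro ⟨_, rfl, c', hc', hcx, rfl⟩
      obtain ⟨c, hc, he⟩ := h.surj (π' c')
      exact ⟨_, rfl, c, hc, (hy c c' hc hc' he).2 hcx, he⟩
  have hev : ∀ s s' t t' y y', RE W s → RE W' s' → RE W t → RE W' t' → π s = π' s' →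
      π t = π' t' → Cl W W' π π' y y' → (ev W y s t ↔ ev W' y' s' t') := by
    intro s s' t t' y y' rs rs' rt rt' e1 e2 e3
    rw [ev_ea, ev_ea, h.ea hW rs rt, h'.ea hW' rs' rt', e1, e2, hch y y' e3]
  have hlt : ∀ t t', RE W t → RE W' t' → π t = π' t' → (lt W x t ↔ lt W' x0 t') :=
    fun t t' rt rt' e => cl_lt hW hW' h h' cx0 (cl_re hW hW' h h' rt rt' e)
  obtain ⟨x', hx1, hx2, hx4, hx5⟩ := hW'.rich x0 ((List.range n).map τ') av
    (by
      intro t ht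
      obtain ⟨j, hj, rfl⟩ := List.mem_map.1 ht
      exact ⟨hτR' j, (hlt _ _ (hτR j) (hτR' j) (hτ j)).1
        (hW.qd _ _ _ (hτq j (List.mem_range.1 hj))).2.1⟩)
    (by
      intro s' rs' hs'
      obtain ⟨s, rs, hs⟩ := h.surj (π' s')
      obtain ⟨j, hj⟩ := hW.qe x s rs ((hlt _ _ rs rs' hs).2 hs')
      obtain ⟨-, -, k, hk, hjk⟩ := hW.qd _ _ _ hj
      rw [(hn k).1 hk] at hjk
      exact ⟨τ' j, List.mem_map.2 ⟨j, List.mem_range.2 hjk, rfl⟩,
        (hev _ _ _ _ _ _ rs rs' (hτR j) (hτR' j) hs (hτ j) cx0).1 (qq hW hj (hτq j hjk))⟩)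
  rw [List.length_map, List.length_range] at hx4
  obtain ⟨n', hn2⟩ := hW'.ln x'
  have hnn : n = n' := (hn2 n).1 hx4
  subst hnn
  have cx : Cl W W' π π' x x' := by
    intro c c' hc hc' he
    rw [cx0 c c' hc hc' he]
    exact ⟨fun g => hW'.tp.le_trans g (Or.inr hx2),
      fun g => hW'.tp.le_trans g (Or.inr (hW'.tp.es _ _ hx2))⟩
  have hlt' : ∀ t t', RE W t → RE W' t' → π t = π' t' → (lt W x t ↔ lt W' x' t') :=
    fun t t' rt rt' e => cl_lt hW hW' h h' cx (cl_re hW hW' h h' rt rt' e)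
  refine ⟨x', hx1, cx, fun k => (hn k).trans (hn2 k).symm, fun j t t' rt rt' htt => ?_⟩
  have hqj : j < n → q W' j x' (τ' j) := fun hj => hx5 j (τ' j) (by
    rw [List.getElem?_map, List.getElem?_range hj]
    rfl)
  constructor
  · intro h1
    obtain ⟨-, hl, k, hk, hjk⟩ := hW.qd _ _ _ h1
    rw [(hn k).1 hk] at hjk
    exact (hW'.qg j x' (τ' j) t' (hqj hjk) rt' ((hlt' _ _ rt rt' htt).1 hl)).2
      ((hev _ _ _ _ _ _ (hτR j) (hτR' j) rt rt' (hτ j) htt cx).1 (qq hW (hτq j hjk) h1))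
  · intro h1
    obtain ⟨-, hl, k, hk, hjk⟩ := hW'.qd _ _ _ h1
    rw [(hn2 k).1 hk] at hjk
    exact (hW.qg j x (τ j) t (hτq j hjk) rt ((hlt' _ _ rt rt' htt).2 hl)).2
      ((hev _ _ _ _ _ _ (hτR j) (hτR' j) rt rt' (hτ j) htt cx).2 (qq hW' (hqj hjk) h1))

/-- one direction of the facts on corresponding elements -/
theorem C.ac1 (hW : Ax W) (hW' : Ax W') (h : Q W z π) (h' : Q W' z π') {x x' y y' : ℕ}
    (hx : C W W' π π' x x') (hy : C W W' π π' y y') (n : ℕ) (hn : ac W n x y) :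
    ac W' n x' y' := by
  obtain ⟨a, ha⟩ : ∃ a, n = 0 ∨ n = 5 * a + 1 ∨ n = 5 * a + 2 ∨ n = 5 * a + 3 ∨
      n = 5 * a + 4 ∨ n = 5 * a + 5 := ⟨(n - 1) / 5, by omega⟩
  rcases ha with rfl | rfl | rfl | rfl | rfl | rfl
  · exact (cl_eqv hW hW' h h' hx.1 hy.1).1 hn
  · exact r1 hW hW' h h' hx.1 hy.1 hn
  · exact q1 hW hW' h h' hx hy.1 hn
  · have e : ∀ V x y, ac V (5 * a + 3) x y ↔ m V a.unpair.1 a.unpair.2 x y := by
      intro V x y
      unfold m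
      rw [Nat.pair_unpair]
    rw [e, hW.mh] at hn
    rw [e, hW'.mh]
    refine ⟨(cl_le hW hW' h h' hx.1 hy.1).1 hn.1, ex1 hW hW' h h'
      (fun t ht => (hW.qd _ _ _ ht.1).1) (fun t t' rt rt' he ht => ?_) hn.2⟩
    have ct := cl_re hW hW' h h' rt rt' he
    exact ⟨q1 hW hW' h h' hx ct ht.1, q1 hW hW' h h' hy ct ht.2⟩
  · have e : ∀ V x y, ac V (5 * a + 4) x y ↔ T1.p V a.unpair.1 a.unpair.2 x y := by
      intro V x y
      unfold T1.p
      rw [Nat.pair_unpair]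
    rw [e, hW.ph] at hn
    rw [e, hW'.ph]
    refine ⟨(cl_le hW hW' h h' hx.1 hy.1).1 hn.1, ex1 hW hW' h h'
      (fun t ht => (hW.qd _ _ _ ht.1).1) (fun t t' rt rt' he ht => ?_) hn.2⟩
    have ct := cl_re hW hW' h h' rt rt' he
    exact ⟨q1 hW hW' h h' hy ct ht.1, r1 hW hW' h h' hx.1 ct ht.2⟩
  · have e : ∀ V x y, ac V (5 * a + 5) x y ↔ p' V a.unpair.1 a.unpair.2 x y := by
      intro V x y
      unfold p'
      rw [Nat.pair_unpair]
    rw [e, hW.ph'] at hn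
    rw [e, hW'.ph']
    refine ⟨(cl_le hW hW' h h' hx.1 hy.1).1 hn.1, ex1 hW hW' h h'
      (fun t ht => (hW.qd _ _ _ ht.1).1) (fun t t' rt rt' he ht => ?_) hn.2⟩
    have ct := cl_re hW hW' h h' rt rt' he
    exact ⟨q1 hW hW' h h' hy ct ht.1, r1 hW hW' h h' ct hx.1 ht.2⟩

theorem C.co1 (hW : Ax W) (hW' : Ax W') (h : Q W z π) (h' : Q W' z π') {x x' : ℕ}
    (hx : C W W' π π' x x') (n : ℕ) (hn : co W n x) : co W' n x' := by
  obtain ⟨a, ha⟩ : ∃ a, n = 0 ∨ n = 3 * a + 1 ∨ n = 3 * a + 2 ∨ n = 3 * a + 3 :=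
    ⟨(n - 1) / 3, by omega⟩
  rcases ha with rfl | rfl | rfl | rfl
  · exact (re1 hW hW' h h' hx.1 hn).1
  · have rx := hW.pd a x hn
    obtain ⟨rx', ex⟩ := re1 hW hW' h h' hx.1 rx
    have h1 := (h.hP a x rx).1 hn
    rw [ex] at h1
    exact (h'.hP a x' rx').2 h1
  · exact (hx.2.1 a).1 hn
  · have e : ∀ V x, co V (3 * a + 3) x ↔
        pp V a.unpair.1 a.unpair.2.unpair.1 a.unpair.2.unpair.2 x := by
      intro V x
      unfold pp
      rw [Nat.pair_unpair, Nat.pair_unpair]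
    rw [e] at hn ⊢
    exact pp1 hW hW' h h' hx hn

theorem C.piso (hW : Ax W) (hW' : Ax W') (h : Q W z π) (h' : Q W' z π')
    {p : Set (ℕ × ℕ)} (hp : ∀ u ∈ p, ∀ v ∈ p, (u.1 = v.1 ↔ u.2 = v.2))
    (hC : ∀ u ∈ p, C W W' π π' u.1 u.2) : PIso (lift W) (lift W') p := by
  refine piso_iff.2 ⟨hp, fun u hu v hv => cl_lt hW hW' h h' (hC u hu).1 (hC v hv).1, ?_, ?_⟩
  · intro n u hu v hv
    exact ⟨C.ac1 hW hW' h h' (hC u hu) (hC v hv) n,
      C.ac1 hW' hW h' h (hC u hu).symm (hC v hv).symm n⟩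
  · intro n u hu
    exact ⟨C.co1 hW hW' h h' (hC u hu) n, C.co1 hW' hW h' h (hC u hu).symm n⟩

theorem Q.iso (hW : Ax W) (hW' : Ax W') (h : Q W z π) (h' : Q W' z π') :
    RIso W W' := by
  refine riso_isoOn.2 (isoOn_of_system
    {p : Set (ℕ × ℕ) | p.Finite ∧ (∀ u ∈ p, ∀ v ∈ p, (u.1 = v.1 ↔ u.2 = v.2)) ∧
      ∀ u ∈ p, C W W' π π' u.1 u.2} ?_ ?_ ?_ ?_)
  · exact ⟨finite_empty, fun u hu => absurd hu (notMem_empty _),
      fun u hu => absurd hu (notMem_empty _)⟩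
  · rintro p ⟨-, h1, h2⟩
    exact ⟨C.piso hW hW' h h' h1 h2, fun u _ => ⟨trivial, trivial⟩⟩
  · rintro p ⟨hf, h1, h2⟩ x -
    by_cases hx : ∃ u ∈ p, u.1 = x
    · obtain ⟨u, hu, rfl⟩ := hx
      exact ⟨p, ⟨hf, h1, h2⟩, Subset.rfl, u.2, hu⟩
    · obtain ⟨x', hx1, hx2⟩ := ext1 hW hW' h h' x (hf.toFinset.image Prod.snd).toList
      have hx3 : ∀ u ∈ p, u.2 ≠ x' := by
        intro u hu he
        apply hx1
        rw [Finset.mem_toList, Finset.mem_image]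
        exact ⟨u, hf.mem_toFinset.2 hu, he⟩
      refine ⟨insert (x, x') p, ⟨hf.insert _, ?_, ?_⟩, subset_insert _ _, x', mem_insert _ _⟩
      · rintro u (rfl | hu) v (rfl | hv)
        · exact ⟨fun _ => rfl, fun _ => rfl⟩
        · exact iff_of_false (fun he => hx ⟨v, hv, he.symm⟩) (fun he => hx3 v hv he.symm)
        · exact iff_of_false (fun he => hx ⟨u, hu, he⟩) (fun he => hx3 u hu he)
        · exact h1 u hu v hv
      · rintro u (rfl | hu)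
        · exact hx2
        · exact h2 u hu
  · rintro p ⟨hf, h1, h2⟩ x -
    by_cases hx : ∃ u ∈ p, u.2 = x
    · obtain ⟨u, hu, rfl⟩ := hx
      exact ⟨p, ⟨hf, h1, h2⟩, Subset.rfl, u.1, hu⟩
    · obtain ⟨x', hx1, hx2⟩ := ext1 hW' hW h' h x (hf.toFinset.image Prod.fst).toList
      have hx3 : ∀ u ∈ p, u.1 ≠ x' := by
        intro u hu he
        apply hx1
        rw [Finset.mem_toList, Finset.mem_image]
        exact ⟨u, hf.mem_toFinset.2 hu, he⟩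
      refine ⟨insert (x', x) p, ⟨hf.insert _, ?_, ?_⟩, subset_insert _ _, x', mem_insert _ _⟩
      · rintro u (rfl | hu) v (rfl | hv)
        · exact ⟨fun _ => rfl, fun _ => rfl⟩
        · exact iff_of_false (fun he => hx3 v hv he.symm) (fun he => hx ⟨v, hv, he.symm⟩)
        · exact iff_of_false (fun he => hx3 u hu he) (fun he => hx ⟨u, hu, he⟩)
        · exact h1 u hu v hv
      · rintro u (rfl | hu)
        · exact hx2.symm
        · exact h2 u hu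

end Qs

end Pool.Agent.Run7.h201.CTR.T1
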