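import Pool.Agent.Run7.h201.CTR.T1b

set_option autoImplicit false

/-!
# Finite cut types in trees: invariance, decoding, measurability
-/

namespace Pool.Agent.Run7.h201.CTR.T1

open Set MeasureTheory
open Pool.Agent.H899R2.VP (St PIso IsoOn isoOn_of_system)
open Pool.Agent.H533R2.VO (RS lift RIso Dich)
open Pool.Agent.H566P (ar R2 lt ac co mk)
open Pool.Agent.Y560.TG (lt_mk ac_mk co_mk piso_iff riso_iff riso_isoOn R2_ext meas_lt meas_ac
  meas_co meas_into)
open Pool.Agent.Run7.h201.CS (E E_iff)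
open Pool.Agent.Run7.h201.CS.FC (riso_symm riso_trans m_lt m_ac m_co)
open Pool.Agent.Run7.h201.CTR

/-! ### Invariance -/

section inv

variable {W W' : R2} {σ : Equiv.Perm ℕ} (h1 : ∀ x y, lt W' (σ x) (σ y) ↔ lt W x y)
  (h2 : ∀ n x y, ac W' n (σ x) (σ y) ↔ ac W n x y) (h3 : ∀ n x, co W' n (σ x) ↔ co W n x)

include h1 h2

theorem mt_s (a b x : ℕ) : mt W' (σ a) (σ b) (σ x) ↔ mt W a b x := by
  unfold mt
  rw [h1, h1]
  refine and_congr_right fun _ => and_congr_right fun _ => ?_
  constructor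
  · intro g z
    have := g (σ z)
    rwa [le_s h1 h2, le_s h1 h2, le_s h1 h2] at this
  · intro g z
    obtain ⟨z, rfl⟩ := σ.surjective z
    rw [le_s h1 h2, le_s h1 h2, le_s h1 h2]
    exact g z

include h3

theorem RR_s (k a b : ℕ) : RR W' k (σ a) (σ b) ↔ RR W k a b := by
  unfold RR
  refine or_congr (h2 _ _ _) ?_
  constructor
  · rintro ⟨x, i, j, g1, g2, g3, g4⟩
    obtain ⟨x, rfl⟩ := σ.surjective x
    exact ⟨x, i, j, (mt_s h1 h2 _ _ _).1 g1, (h2 _ _ _).1 g2, (h2 _ _ _).1 g3, (h3 _ _).1 g4⟩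
  · rintro ⟨x, i, j, g1, g2, g3, g4⟩
    exact ⟨σ x, i, j, (mt_s h1 h2 _ _ _).2 g1, (h2 _ _ _).2 g2, (h2 _ _ _).2 g3, (h3 _ _).2 g4⟩

theorem ev_s (v t t' : ℕ) : ev W' (σ v) (σ t) (σ t') ↔ ev W v t t' := by
  unfold ev
  constructor
  · intro g y hy hy' k
    have := g (σ y) ((h3 _ _).2 hy) (fun h => hy' ((h1 _ _).1 h)) k
    rwa [RR_s h1 h2 h3, RR_s h1 h2 h3, RR_s h1 h2 h3, RR_s h1 h2 h3] at this
  · intro g y hy hy' k
    obtain ⟨y, rfl⟩ := σ.surjective y
    rw [RR_s h1 h2 h3, RR_s h1 h2 h3, RR_s h1 h2 h3, RR_s h1 h2 h3]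
    exact g y ((h3 _ _).1 hy) (fun h => hy' ((h1 _ _).2 h)) k

end inv

theorem Ax.iso {W W' : R2} (hi : RIso W W') (h : Ax W') : Ax W := by
  obtain ⟨σ, h1, h2, h3⟩ := riso_iff.1 hi
  have el : ∀ x y, lt W x y ↔ lt W' (σ x) (σ y) := fun x y => (h1 x y).symm
  have ee : ∀ x y, eqv W x y ↔ eqv W' (σ x) (σ y) := fun x y => (h2 _ x y).symm
  have ele : ∀ x y, le W x y ↔ le W' (σ x) (σ y) := fun x y => (le_s h1 h2 x y).symm
  have er : ∀ k x y, r W k x y ↔ r W' k (σ x) (σ y) := fun k x y => (h2 _ x y).symm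
  have eq : ∀ k x y, q W k x y ↔ q W' k (σ x) (σ y) := fun k x y => (h2 _ x y).symm
  have em : ∀ i k x y, m W i k x y ↔ m W' i k (σ x) (σ y) := fun i k x y => (h2 _ x y).symm
  have ep : ∀ i k x y, p W i k x y ↔ p W' i k (σ x) (σ y) := fun i k x y => (h2 _ x y).symm
  have ep' : ∀ i k x y, p' W i k x y ↔ p' W' i k (σ x) (σ y) := fun i k x y => (h2 _ x y).symm
  have eR : ∀ x, RE W x ↔ RE W' (σ x) := fun x => (h3 _ x).symm
  have eP : ∀ k x, P W k x ↔ P W' k (σ x) := fun k x => (h3 _ x).symm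
  have en : ∀ k x, len W k x ↔ len W' k (σ x) := fun k x => (h3 _ x).symm
  have epp : ∀ i j k x, pp W i j k x ↔ pp W' i j k (σ x) := fun i j k x => (h3 _ x).symm
  have emt : ∀ a b x, mt W a b x ↔ mt W' (σ a) (σ b) (σ x) := fun a b x =>
    (mt_s h1 h2 a b x).symm
  have eev : ∀ x t t', ev W x t t' ↔ ev W' (σ x) (σ t) (σ t') := fun x t t' =>
    (ev_s h1 h2 h3 x t t').symm
  have hex : ∀ F : ℕ → Prop, (∃ t, F t) ↔ ∃ t, F (σ t) := by
    intro F
    exact ⟨fun ⟨t, ht⟩ => ⟨σ.symm t, by rwa [Equiv.apply_symm_apply]⟩, fun ⟨t, ht⟩ => ⟨_, ht⟩⟩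
  constructor
  · have k1 : ∀ x y, lt W (σ.symm x) (σ.symm y) ↔ lt W' x y := by
      intro x y; rw [el, Equiv.apply_symm_apply, Equiv.apply_symm_apply]
    have k2 : ∀ n x y, ac W n (σ.symm x) (σ.symm y) ↔ ac W' n x y := by
      intro n x y; rw [← h2, Equiv.apply_symm_apply, Equiv.apply_symm_apply]
    exact TP_s k1 k2 h.tp
  · intro l
    obtain ⟨x, hx0, hx⟩ := h.inf (l.map σ)
    refine ⟨σ.symm x, ?_, fun y hy => ?_⟩
    · rw [eR, Equiv.apply_symm_apply]; exact hx0
    · rw [ee, Equiv.apply_symm_apply]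
      exact hx _ (List.mem_map.2 ⟨y, hy, rfl⟩)
  · intro x
    obtain ⟨a, b, g1, g2, g3, g4, g5⟩ := h.nd (σ x)
    obtain ⟨a, rfl⟩ := σ.surjective a
    obtain ⟨b, rfl⟩ := σ.surjective b
    refine ⟨a, b, (eR _).2 g1, (eR _).2 g2, (ele _ _).2 g3, (ele _ _).2 g4, fun z k1 k2 => ?_⟩
    rw [ele] at k1 k2 ⊢
    exact g5 _ k1 k2
  · intro x y hxy
    obtain ⟨c, g1, g2, g3⟩ := h.sep _ _ ((el _ _).1 hxy)
    obtain ⟨c, rfl⟩ := σ.surjective c
    exact ⟨c, (eR _).2 g1, (el _ _).2 g2, (ele _ _).2 g3⟩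
  · intro x x'
    rw [ee, eR, eR]
    exact h.reb _ _
  · intro k x y
    rw [er, eR, eR]
    exact h.rd _ _ _
  · intro x x'
    rw [ee, eR]
    intro g1 g2 y k
    rw [er, er, er, er, eP, eP]
    exact h.rc _ _ g1 g2 _ k
  · intro k x
    rw [eP, eR]
    exact h.pd _ _
  · intro j x t t'
    rw [ee, eq, eq]
    exact h.qc _ _ _ _
  · intro x
    simp only [en]
    exact h.ln _
  · intro j x t
    simp only [eq, el, en, eR]
    exact h.qd _ _ _
  · intro x t
    simp only [eq, el, eR]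
    exact h.qe _ _
  · intro k j x
    simp only [eq, en]
    intro g1 g2
    exact (hex _).1 (h.qf k j _ g1 g2)
  · intro j x t t'
    simp only [eq, el, eev, eR]
    exact h.qg _ _ _ _
  · intro i j x y
    simp only [em, eq, ele]
    rw [h.mh]
    exact and_congr_right fun _ => hex _
  · intro j k x y
    simp only [ep, eq, ele, er]
    rw [h.ph]
    exact and_congr_right fun _ => hex _
  · intro j k x y
    simp only [ep', eq, ele, er]
    rw [h.ph']
    exact and_congr_right fun _ => hex _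
  · intro i j k x
    rw [epp]
    intro g
    obtain ⟨a, b, g1, g2, g3⟩ := h.pph _ _ _ _ g
    obtain ⟨a, rfl⟩ := σ.surjective a
    obtain ⟨b, rfl⟩ := σ.surjective b
    exact ⟨a, b, (emt _ _ _).2 g1, (eq _ _ _).2 g2, (eq _ _ _).2 g3⟩
  · intro i j k x i' j' x' a b
    rw [ee, emt, eq, eq, eq, eq, epp, epp]
    exact h.ppc _ _ _ _ _ _ _ _ _
  · intro x ts av
    simp only [el, ee, eev, en, eq, eR]
    intro g1 g2
    obtain ⟨x', k1, k2, k4, k5⟩ := h.rich (σ x) (ts.map σ) (av.map σ)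
      (by
        intro t ht
        obtain ⟨t, ht', rfl⟩ := List.mem_map.1 ht
        exact g1 t ht')
      (by
        intro s hs hs'
        obtain ⟨s, rfl⟩ := σ.surjective s
        obtain ⟨t, ht, hst⟩ := g2 s hs hs'
        exact ⟨σ t, List.mem_map.2 ⟨t, ht, rfl⟩, hst⟩)
    obtain ⟨x', rfl⟩ := σ.surjective x'
    refine ⟨x', ?_, k2, ?_, ?_⟩
    · intro hx
      exact k1 (List.mem_map.2 ⟨_, hx, rfl⟩)
    · rw [← List.length_map (f := σ)]; exact k4
    · intro j t hj
      exact k5 j (σ t) (by rw [List.getElem?_map, hj]; rfl)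

theorem Q.left' {W W' z : R2} {π : ℕ → ℕ} (h : Q W' z π) (hi : RIso W W') :
    ∃ π', Q W z π' :=
  h.left hi fun _ h1 h2 h3 k x y => (RR_s h1 h2 h3 k x y).symm

/-! ### Decoding -/

/-- the least elements of the real blocks -/
def Lb (W : R2) (x : ℕ) : Prop := RE W x ∧ ∀ y, y < x → ¬ eqv W x y

/-- the quotient of the real part -/
noncomputable def zd (W : R2) : R2 :=
  mk (fun i j => lt W (Nat.nth (Lb W) i) (Nat.nth (Lb W) j))
    (fun k i j => RR W k (Nat.nth (Lb W) i) (Nat.nth (Lb W) j))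
    (fun k i => P W k (Nat.nth (Lb W) i))

theorem lb_ex {W : R2} (h : Ax W) {x : ℕ} (hx : RE W x) : ∃ y, Lb W y ∧ eqv W x y := by
  classical
  have hex : ∃ y, eqv W x y := ⟨x, h.tp.er x⟩
  have h1 := Nat.find_spec hex
  refine ⟨Nat.find hex, ⟨h.reb _ _ h1 hx, fun y hy hc => ?_⟩, h1⟩
  exact Nat.find_min hex hy (h.tp.et _ _ _ h1 hc)

theorem lb_inf {W : R2} (h : Ax W) : (Set.ofPred (Lb W)).Infinite := by
  intro hf
  obtain ⟨x, hx0, hx⟩ := h.inf hf.toFinset.toList
  obtain ⟨y, hy1, hy2⟩ := lb_ex h hx0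
  exact hx y (Finset.mem_toList.2 (hf.mem_toFinset.2 hy1)) hy2

theorem lb_uniq {W : R2} (h : Ax W) {x y : ℕ} (hx : Lb W x) (hy : Lb W y) (h1 : eqv W x y) :
    x = y := by
  rcases lt_trichotomy x y with h3 | h3 | h3
  · exact absurd (h.tp.es _ _ h1) (hy.2 x h3)
  · exact h3
  · exact absurd h1 (hx.2 y h3)

theorem RR_eqv {W : R2} (h : Ax W) {k x y x' y' : ℕ} (hx : eqv W x x') (hy : eqv W y y')
    (hr : RR W k x y) : RR W k x' y' := by
  rcases hr with hr | ⟨w, i, j, ⟨g1, g2, g3⟩, g4, g5, g6⟩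
  · left
    exact ((r_blk h (x := y') hx k).2).1 (((r_blk h (x := x) hy k).1).1 hr)
  · refine Or.inr ⟨w, i, j, ⟨h.tp.elr _ _ _ g1 hx, h.tp.elr _ _ _ g2 hy, fun z k1 k2 => ?_⟩,
      h.qc _ _ _ _ hx g4, h.qc _ _ _ _ hy g5, g6⟩
    exact g3 z (h.tp.le_trans k1 (Or.inr (h.tp.es _ _ hx)))
      (h.tp.le_trans k2 (Or.inr (h.tp.es _ _ hy)))

theorem zd_Q {W : R2} (h : Ax W) : STO (zd W) ∧ ∃ π, Q W (zd W) π := by
  classical
  have hinf := lb_inf h
  have hL : ∀ n, Lb W (Nat.nth (Lb W) n) := fun n => Nat.nth_mem_of_infinite hinf n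
  refine ⟨⟨?_, ?_, ?_⟩, ?_⟩
  · intro x
    rw [zd, lt_mk]
    exact h.tp.irr _
  · intro x y w
    rw [zd, lt_mk, lt_mk, lt_mk]
    exact h.tp.tr _ _ _
  · intro x y w
    rw [zd, lt_mk, lt_mk, lt_mk, lt_mk]
    intro g1 g2
    rcases h.tp.lin _ _ _ g1 g2 with g3 | g3 | g3
    · exact Or.inl g3
    · exact Or.inr (Or.inl (Nat.nth_injective hinf (lb_uniq h (hL _) (hL _) g3)))
    · exact Or.inr (Or.inr g3)
  · have hc : ∀ x, ∃ y, RE W x → Lb W y ∧ eqv W x y := by
      intro x
      by_cases hx : RE W x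
      · obtain ⟨y, hy⟩ := lb_ex h hx
        exact ⟨y, fun _ => hy⟩
      · exact ⟨0, fun g => absurd g hx⟩
    choose e he using hc
    have hn : ∀ x, RE W x → Nat.nth (Lb W) (Nat.count (Lb W) (e x)) = e x :=
      fun x hx => Nat.nth_count (he x hx).1
    have hes : ∀ x, RE W x → eqv W (e x) x := fun x hx => h.tp.es _ _ (he x hx).2
    refine ⟨fun x => Nat.count (Lb W) (e x), ?_, ?_, ?_, ?_, ?_⟩
    · intro n
      refine ⟨Nat.nth (Lb W) n, (hL n).1, ?_⟩
      show Nat.count (Lb W) (e (Nat.nth (Lb W) n)) = n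
      have h1 := he _ (hL n).1
      rw [← lb_uniq h (hL n) h1.1 h1.2]
      exact Nat.count_nth_of_infinite hinf n
    · intro x y hx hy
      rw [zd, lt_mk, hn x hx, hn y hy]
      constructor
      · exact fun h1 => h.tp.elr _ _ _ (h.tp.ell _ _ _ (hes x hx) h1) (he y hy).2
      · exact fun h1 => h.tp.elr _ _ _ (h.tp.ell _ _ _ (he x hx).2 h1) (hes y hy)
    · intro x y hx hy
      constructor
      · intro h1
        have h2 := lb_uniq h (he x hx).1 (he y hy).1
          (h.tp.et _ _ _ (hes x hx) (h.tp.et _ _ _ h1 (he y hy).2))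
        show Nat.count (Lb W) (e x) = Nat.count (Lb W) (e y)
        rw [h2]
      · intro h1
        have h2 : e x = e y := by
          rw [← hn x hx, ← hn y hy]
          exact congrArg _ h1
        have h3 := (he x hx).2
        rw [h2] at h3
        exact h.tp.et _ _ _ h3 (hes y hy)
    · intro k x y hx hy
      rw [zd, ac_mk, hn x hx, hn y hy]
      exact ⟨RR_eqv h (he x hx).2 (he y hy).2, RR_eqv h (hes x hx) (hes y hy)⟩
    · intro k x hx
      rw [zd, co_mk, hn x hx]
      exact (h.rc x (e x) (he x hx).2 hx 0 k).2.2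

/-! ### Measurability -/

theorem m_eqv (x y : ℕ) : Measurable fun W : R2 => eqv W x y := m_ac 0 x y
theorem m_le (x y : ℕ) : Measurable fun W : R2 => le W x y := (m_lt _ _).or (m_ac _ _ _)
theorem m_RE (x : ℕ) : Measurable fun W : R2 => RE W x := m_co 0 x
theorem m_mt (a b x : ℕ) : Measurable fun W : R2 => mt W a b x := by
  unfold mt
  exact (m_lt _ _).and ((m_lt _ _).and (Measurable.forall fun z =>
    (m_le _ _).imp ((m_le _ _).imp (m_le _ _))))
theorem m_RR (k a b : ℕ) : Measurable fun W : R2 => RR W k a b := by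
  unfold RR
  exact (m_ac _ _ _).or (Measurable.exists fun x => Measurable.exists fun i =>
    Measurable.exists fun j => (m_mt _ _ _).and ((m_ac _ _ _).and ((m_ac _ _ _).and (m_co _ _))))
theorem m_ev (v t t' : ℕ) : Measurable fun W : R2 => ev W v t t' := by
  unfold ev
  refine Measurable.forall fun y => (m_RE _).imp ((m_lt _ _).not.imp
    (Measurable.forall fun k => ?_))
  exact ((m_RR _ _ _).iff (m_RR _ _ _)).and ((m_RR _ _ _).iff (m_RR _ _ _))
theorem m_Lb (x : ℕ) : Measurable fun W : R2 => Lb W x := by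
  unfold Lb
  exact (m_RE _).and (Measurable.forall fun y => measurable_const.imp (m_eqv _ _).not)

theorem meas_zd : Measurable zd := by
  have hn : ∀ n y, Measurable fun W : R2 => Nat.nth (Lb W) n = y :=
    fun n y => Pool.Agent.Y560.TG.PL.meas_nth (fun W : R2 => Lb W) m_Lb n y
  refine meas_into ?_ ?_ ?_
  · intro i j
    have e : {W : R2 | lt (zd W) i j} = {W : R2 | ∃ a b, Nat.nth (Lb W) i = a ∧
        Nat.nth (Lb W) j = b ∧ lt W a b} := by
      ext W
      simp only [mem_ofPred_eq, zd, lt_mk]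
      exact ⟨fun h => ⟨_, _, rfl, rfl, h⟩, fun ⟨a, b, h1, h2, h3⟩ => by rwa [h1, h2]⟩
    rw [e]
    exact measurableSet_setOfPred.2 (Measurable.exists fun a => Measurable.exists fun b =>
      (hn _ _).and ((hn _ _).and (m_lt _ _)))
  · intro k i j
    have e : {W : R2 | ac (zd W) k i j} = {W : R2 | ∃ a b, Nat.nth (Lb W) i = a ∧
        Nat.nth (Lb W) j = b ∧ RR W k a b} := by
      ext W
      simp only [mem_ofPred_eq, zd, ac_mk]
      exact ⟨fun h => ⟨_, _, rfl, rfl, h⟩, fun ⟨a, b, h1, h2, h3⟩ => by rwa [h1, h2]⟩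
    rw [e]
    exact measurableSet_setOfPred.2 (Measurable.exists fun a => Measurable.exists fun b =>
      (hn _ _).and ((hn _ _).and (m_RR _ _ _)))
  · intro k i
    have e : {W : R2 | co (zd W) k i} = {W : R2 | ∃ a, Nat.nth (Lb W) i = a ∧ P W k a} := by
      ext W
      simp only [mem_ofPred_eq, zd, co_mk]
      exact ⟨fun h => ⟨_, rfl, h⟩, fun ⟨a, h1, h3⟩ => by rwa [h1]⟩
    rw [e]
    exact measurableSet_setOfPred.2 (Measurable.exists fun a => (hn _ _).and (m_co _ _))

theorem m_TP : Measurable fun W : R2 => TP W := by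
  have e : (fun W : R2 => TP W) = fun W : R2 =>
    (∀ x, ¬ lt W x x) ∧
    (∀ x y z, lt W x y → lt W y z → lt W x z) ∧
    (∀ x, eqv W x x) ∧
    (∀ x y, eqv W x y → eqv W y x) ∧
    (∀ x y z, eqv W x y → eqv W y z → eqv W x z) ∧
    (∀ x y z, eqv W x y → lt W y z → lt W x z) ∧
    (∀ x y z, lt W x y → eqv W y z → lt W x z) ∧
    (∀ x y z, lt W x z → lt W y z → lt W x y ∨ eqv W x y ∨ lt W y x) ∧
    (∀ x y, ∃ w, le W w x ∧ le W w y ∧ ∀ z, le W z x → le W z y → le W z w) ∧
    (∀ n x y, ac W n x y → le W x y ∨ le W y x) := by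
    funext W
    refine propext ⟨fun h => ⟨h.irr, h.tr, h.er, h.es, h.et, h.ell, h.elr, h.lin, h.meet, h.loc⟩,
      ?_⟩
    rintro ⟨a1, a2, a3, a4, a5, a6, a7, a8, a9, a10⟩
    exact ⟨a1, a2, a3, a4, a5, a6, a7, a8, a9, a10⟩
  rw [e]
  refine (Measurable.forall fun x => (m_lt _ _).not).and ?_
  refine (Measurable.forall fun x => Measurable.forall fun y => Measurable.forall fun z =>
    (m_lt _ _).imp ((m_lt _ _).imp (m_lt _ _))).and ?_
  refine (Measurable.forall fun x => (m_eqv _ _)).and ?_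
  refine (Measurable.forall fun x => Measurable.forall fun y =>
    (m_eqv _ _).imp (m_eqv _ _)).and ?_
  refine (Measurable.forall fun x => Measurable.forall fun y => Measurable.forall fun z =>
    (m_eqv _ _).imp ((m_eqv _ _).imp (m_eqv _ _))).and ?_
  refine (Measurable.forall fun x => Measurable.forall fun y => Measurable.forall fun z =>
    (m_eqv _ _).imp ((m_lt _ _).imp (m_lt _ _))).and ?_
  refine (Measurable.forall fun x => Measurable.forall fun y => Measurable.forall fun z =>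
    (m_lt _ _).imp ((m_eqv _ _).imp (m_lt _ _))).and ?_
  refine (Measurable.forall fun x => Measurable.forall fun y => Measurable.forall fun z =>
    (m_lt _ _).imp ((m_lt _ _).imp ((m_lt _ _).or ((m_eqv _ _).or (m_lt _ _))))).and ?_
  refine (Measurable.forall fun x => Measurable.forall fun y => Measurable.exists fun w =>
    (m_le _ _).and ((m_le _ _).and (Measurable.forall fun z =>
      (m_le _ _).imp ((m_le _ _).imp (m_le _ _))))).and ?_
  exact Measurable.forall fun n => Measurable.forall fun x => Measurable.forall fun y =>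
    (m_ac _ _ _).imp ((m_le _ _).or (m_le _ _))

theorem meas_Ax : MeasurableSet {W : R2 | Ax W} := by
  have e : ∀ W : R2, Ax W ↔
    TP W ∧
    (∀ l : List ℕ, ∃ x, RE W x ∧ ∀ y, y ∈ l → ¬ eqv W x y) ∧
    (∀ x, ∃ a b, RE W a ∧ RE W b ∧ le W x a ∧ le W x b ∧
      ∀ z, le W z a → le W z b → le W z x) ∧
    (∀ x y, lt W x y → ∃ c, RE W c ∧ lt W x c ∧ le W c y) ∧
    (∀ x x', eqv W x x' → RE W x → RE W x') ∧
    (∀ k x y, r W k x y → RE W x ∧ RE W y) ∧
    (∀ x x', eqv W x x' → RE W x → ∀ y k, (r W k x y ↔ r W k x' y) ∧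
      (r W k y x ↔ r W k y x') ∧ (P W k x ↔ P W k x')) ∧
    (∀ k x, P W k x → RE W x) ∧
    (∀ j x t t', eqv W t t' → q W j x t → q W j x t') ∧
    (∀ x, ∃ k, ∀ k', len W k' x ↔ k' = k) ∧
    (∀ j x t, q W j x t → RE W t ∧ lt W x t ∧ ∃ k, len W k x ∧ j < k) ∧
    (∀ x t, RE W t → lt W x t → ∃ j, q W j x t) ∧
    (∀ k j x, len W k x → j < k → ∃ t, q W j x t) ∧
    (∀ j x t t', q W j x t → RE W t' → lt W x t' → (q W j x t' ↔ ev W x t t')) ∧
    (∀ i j x y, m W i j x y ↔ le W x y ∧ ∃ t, q W i x t ∧ q W j y t) ∧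
    (∀ j k x y, p W j k x y ↔ le W x y ∧ ∃ t, q W j y t ∧ r W k x t) ∧
    (∀ j k x y, p' W j k x y ↔ le W x y ∧ ∃ t, q W j y t ∧ r W k t x) ∧
    (∀ i j k x, pp W i j k x → ∃ a b, mt W a b x ∧ q W i x a ∧ q W j x b) ∧
    (∀ i j k x i' j' x' a b, eqv W x x' → mt W a b x → q W i x a → q W j x b →
      q W i' x' a → q W j' x' b → (pp W i j k x ↔ pp W i' j' k x')) ∧
    (∀ (x : ℕ) (ts av : List ℕ), (∀ t, t ∈ ts → RE W t ∧ lt W x t) →
      (∀ s, RE W s → lt W x s → ∃ t, t ∈ ts ∧ ev W x s t) →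
      ∃ x', x' ∉ av ∧ eqv W x x' ∧ len W ts.length x' ∧
        ∀ (j t : ℕ), ts[j]? = some t → q W j x' t) := by
    intro W
    constructor
    · intro h
      exact ⟨h.tp, h.inf, h.nd, h.sep, h.reb, h.rd, h.rc, h.pd, h.qc, h.ln, h.qd, h.qe, h.qf,
        h.qg, h.mh, h.ph, h.ph', h.pph, h.ppc, h.rich⟩
    · rintro ⟨a1, a2, a3, a4, a5, a6, a7, a8, a9, a10, a11, a12, a13, a14, a15, a16, a17, a18,
        a19, a20⟩
      exact ⟨a1, a2, a3, a4, a5, a6, a7, a8, a9, a10, a11, a12, a13, a14, a15, a16, a17, a18,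
        a19, a20⟩
  rw [show {W : R2 | Ax W} = {W : R2 | _} from Set.ext fun W => e W]
  refine measurableSet_setOfPred.2 ?_
  refine m_TP.and ?_
  refine (Measurable.forall fun l => Measurable.exists fun x => (m_RE _).and
    (Measurable.forall fun y => measurable_const.imp (m_eqv _ _).not)).and ?_
  refine (Measurable.forall fun x => Measurable.exists fun a => Measurable.exists fun b =>
    (m_RE _).and ((m_RE _).and ((m_le _ _).and ((m_le _ _).and (Measurable.forall fun z =>
      (m_le _ _).imp ((m_le _ _).imp (m_le _ _))))))).and ?_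
  refine (Measurable.forall fun x => Measurable.forall fun y => (m_lt _ _).imp
    (Measurable.exists fun c => (m_RE _).and ((m_lt _ _).and (m_le _ _)))).and ?_
  refine (Measurable.forall fun x => Measurable.forall fun y => (m_eqv _ _).imp
    ((m_RE _).imp (m_RE _))).and ?_
  refine (Measurable.forall fun k => Measurable.forall fun x => Measurable.forall fun y =>
    (m_ac _ _ _).imp ((m_RE _).and (m_RE _))).and ?_
  refine (Measurable.forall fun x => Measurable.forall fun x' => (m_eqv _ _).imp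
    ((m_RE _).imp (Measurable.forall fun y => Measurable.forall fun k =>
      ((m_ac _ _ _).iff (m_ac _ _ _)).and (((m_ac _ _ _).iff (m_ac _ _ _)).and
        ((m_co _ _).iff (m_co _ _)))))).and ?_
  refine (Measurable.forall fun k => Measurable.forall fun x => (m_co _ _).imp (m_RE _)).and ?_
  refine (Measurable.forall fun j => Measurable.forall fun x => Measurable.forall fun t =>
    Measurable.forall fun t' => (m_eqv _ _).imp ((m_ac _ _ _).imp (m_ac _ _ _))).and ?_
  refine (Measurable.forall fun x => Measurable.exists fun k => Measurable.forall fun k' =>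
    (m_co _ _).iff measurable_const).and ?_
  refine (Measurable.forall fun j => Measurable.forall fun t => Measurable.forall fun x =>
    (m_ac _ _ _).imp ((m_RE _).and ((m_lt _ _).and (Measurable.exists fun k =>
      (m_co _ _).and measurable_const)))).and ?_
  refine (Measurable.forall fun t => Measurable.forall fun x => (m_RE _).imp ((m_lt _ _).imp
    (Measurable.exists fun j => m_ac _ _ _))).and ?_
  refine (Measurable.forall fun k => Measurable.forall fun j => Measurable.forall fun x =>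
    (m_co _ _).imp (measurable_const.imp (Measurable.exists fun t => m_ac _ _ _))).and ?_
  refine (Measurable.forall fun j => Measurable.forall fun t => Measurable.forall fun t' =>
    Measurable.forall fun x => (m_ac _ _ _).imp ((m_RE _).imp ((m_lt _ _).imp
      ((m_ac _ _ _).iff (m_ev _ _ _))))).and ?_
  refine (Measurable.forall fun i => Measurable.forall fun j => Measurable.forall fun x =>
    Measurable.forall fun y => (m_ac _ _ _).iff ((m_le _ _).and (Measurable.exists fun t =>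
      (m_ac _ _ _).and (m_ac _ _ _)))).and ?_
  refine (Measurable.forall fun i => Measurable.forall fun j => Measurable.forall fun x =>
    Measurable.forall fun y => (m_ac _ _ _).iff ((m_le _ _).and (Measurable.exists fun t =>
      (m_ac _ _ _).and (m_ac _ _ _)))).and ?_
  refine (Measurable.forall fun i => Measurable.forall fun j => Measurable.forall fun x =>
    Measurable.forall fun y => (m_ac _ _ _).iff ((m_le _ _).and (Measurable.exists fun t =>
      (m_ac _ _ _).and (m_ac _ _ _)))).and ?_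
  refine (Measurable.forall fun i => Measurable.forall fun j => Measurable.forall fun k =>
    Measurable.forall fun x => (m_co _ _).imp (Measurable.exists fun a =>
      Measurable.exists fun b => (m_mt _ _ _).and ((m_ac _ _ _).and (m_ac _ _ _)))).and ?_
  refine (Measurable.forall fun i => Measurable.forall fun j => Measurable.forall fun k =>
    Measurable.forall fun x => Measurable.forall fun i' => Measurable.forall fun j' =>
    Measurable.forall fun x' => Measurable.forall fun a => Measurable.forall fun b =>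
      (m_eqv _ _).imp ((m_mt _ _ _).imp ((m_ac _ _ _).imp ((m_ac _ _ _).imp
        ((m_ac _ _ _).imp ((m_ac _ _ _).imp ((m_co _ _).iff (m_co _ _)))))))).and ?_
  refine Measurable.forall fun x => Measurable.forall fun ts => Measurable.forall fun av =>
    (Measurable.forall fun t => measurable_const.imp ((m_RE _).and (m_lt _ _))).imp
    ((Measurable.forall fun s => (m_RE _).imp ((m_lt _ _).imp (Measurable.exists fun t =>
      measurable_const.and (m_ev _ _ _)))).imp (Measurable.exists fun x' =>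
        measurable_const.and ((m_eqv _ _).and ((m_co _ _).and (Measurable.forall fun j =>
          Measurable.forall fun t => measurable_const.imp (m_ac _ _ _))))))

end Pool.Agent.Run7.h201.CTR.T1
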