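import Pool.Agent.Run7.h201.CTR.T1c

set_option autoImplicit false

/-!
# Finite cut types in trees: coding and the theorem
-/

namespace Pool.Agent.Run7.h201.CTR.T1

open Set MeasureTheory
open Pool.Agent.H899R2.VP (St PIso IsoOn isoOn_of_system)
open Pool.Agent.H533R2.VO (RS lift RIso Dich)
open Pool.Agent.H566P (ar R2 lt ac co mk)
open Pool.Agent.Y560.TG (lt_mk ac_mk co_mk piso_iff riso_iff riso_isoOn R2_ext meas_lt meas_ac
  meas_co meas_into)
open Pool.Agent.Run7.h201.CS (E E_iff)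
open Pool.Agent.Run7.h201.CS.FC (riso_symm riso_trans m_lt m_ac m_co)
open Pool.Agent.Run7.h201.CTR

section code

variable (z : R2)

/-- the elements below or equal -/
def dn (a : ℕ) : Set ℕ := {c | c = a ∨ lt z c a}

/-- the first element -/
def pa (n : ℕ) : ℕ := n.unpair.1.unpair.1
/-- the second element -/
def pb (n : ℕ) : ℕ := n.unpair.1.unpair.2

/-- the chain of the node -/
def Ln (n : ℕ) : Set ℕ := dn z (pa n) ∩ dn z (pb n)

/-- the words which may be attached to `A` -/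
def Val (A : Set ℕ) (ts : List ℕ) : Prop :=
  (∀ t ∈ ts, t ∈ Nz z A) ∧ ∀ s ∈ Nz z A, ∃ t ∈ ts, evz z A s t

open Classical in
/-- some word -/
noncomputable def dw (A : Set ℕ) : List ℕ := if h : ∃ ts, Val z A ts then h.choose else []

open Classical in
/-- the word -/
noncomputable def wd (n : ℕ) : List ℕ :=
  if Val z (Ln z n) ((Encodable.decode (α := List ℕ) n.unpair.2.unpair.1).getD []) then
    (Encodable.decode (α := List ℕ) n.unpair.2.unpair.1).getD [] else dw z (Ln z n)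

/-- the node is the element `a` -/
def rl (n a : ℕ) : Prop := Ln z n = dn z a

/-- the element `b` is in the class `j` of the node `n` -/
def cl (j n b : ℕ) : Prop :=
  b ∈ Nz z (Ln z n) ∧ ∃ t, (wd z n)[j]? = some t ∧ evz z (Ln z n) b t

/-- classes -/
def cq (j n t : ℕ) : Prop := ∃ b, rl z t b ∧ cl z j n b

/-- relations -/
def cr (k x y : ℕ) : Prop :=
  ∃ a b, rl z x a ∧ rl z y b ∧ (Ln z x ⊆ Ln z y ∨ Ln z y ⊆ Ln z x) ∧ ac z k a b

/-- The coded structure. -/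
noncomputable def Co : R2 :=
  mk (fun x y => Ln z x ⊂ Ln z y)
    (fun n x y => (n = 0 ∧ Ln z x = Ln z y) ∨ (n % 5 = 1 ∧ cr z (n / 5) x y) ∨
      (n % 5 = 2 ∧ cq z (n / 5) x y) ∨
      (n % 5 = 3 ∧ Ln z x ⊆ Ln z y ∧ ∃ t, cq z (n / 5).unpair.1 x t ∧
        cq z (n / 5).unpair.2 y t) ∨
      (n % 5 = 4 ∧ Ln z x ⊆ Ln z y ∧ ∃ t, cq z (n / 5).unpair.1 y t ∧
        cr z (n / 5).unpair.2 x t) ∨
      (n ≠ 0 ∧ n % 5 = 0 ∧ Ln z x ⊆ Ln z y ∧ ∃ t, cq z (n / 5 - 1).unpair.1 y t ∧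
        cr z (n / 5 - 1).unpair.2 t x))
    (fun n x => (n = 0 ∧ ∃ a, rl z x a) ∨
      (n % 3 = 1 ∧ ∃ a, rl z x a ∧ co z (n / 3) a) ∨
      (n % 3 = 2 ∧ (wd z x).length = n / 3) ∨
      (n ≠ 0 ∧ n % 3 = 0 ∧ ∃ a b, inc z a b ∧ com z a b = Ln z x ∧
        cl z (n / 3 - 1).unpair.1 x a ∧ cl z (n / 3 - 1).unpair.2.unpair.1 x b ∧
        ac z (n / 3 - 1).unpair.2.unpair.2 a b))

variable {z}

theorem lt_Co {x y : ℕ} : lt (Co z) x y ↔ Ln z x ⊂ Ln z y := by rw [Co, lt_mk]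
theorem eqv_Co {x y : ℕ} : eqv (Co z) x y ↔ Ln z x = Ln z y := by
  rw [eqv, Co, ac_mk]
  simp
theorem le_Co {x y : ℕ} : le (Co z) x y ↔ Ln z x ⊆ Ln z y := by
  rw [le, lt_Co, eqv_Co]
  constructor
  · rintro (h | h)
    · exact h.subset
    · exact h.subset
  · intro h
    rcases h.eq_or_ssubset with h | h
    · exact Or.inr h
    · exact Or.inl h
theorem r_Co {k x y : ℕ} : r (Co z) k x y ↔ cr z k x y := by
  rw [r, Co, ac_mk, show (5 * k + 1) % 5 = 1 by omega, show (5 * k + 1) / 5 = k by omega]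
  simp
theorem q_Co {k x y : ℕ} : q (Co z) k x y ↔ cq z k x y := by
  rw [q, Co, ac_mk, show (5 * k + 2) % 5 = 2 by omega, show (5 * k + 2) / 5 = k by omega]
  simp
theorem m_Co {i k x y : ℕ} : m (Co z) i k x y ↔ Ln z x ⊆ Ln z y ∧
    ∃ t, cq z i x t ∧ cq z k y t := by
  rw [m, Co, ac_mk, show (5 * Nat.pair i k + 3) % 5 = 3 by omega,
    show (5 * Nat.pair i k + 3) / 5 = Nat.pair i k by omega, Nat.unpair_pair]
  simp
theorem p_Co {i k x y : ℕ} : p (Co z) i k x y ↔ Ln z x ⊆ Ln z y ∧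
    ∃ t, cq z i y t ∧ cr z k x t := by
  rw [p, Co, ac_mk, show (5 * Nat.pair i k + 4) % 5 = 4 by omega,
    show (5 * Nat.pair i k + 4) / 5 = Nat.pair i k by omega, Nat.unpair_pair]
  simp
theorem p'_Co {i k x y : ℕ} : p' (Co z) i k x y ↔ Ln z x ⊆ Ln z y ∧
    ∃ t, cq z i y t ∧ cr z k t x := by
  rw [p', Co, ac_mk, show (5 * Nat.pair i k + 5) % 5 = 0 by omega,
    show (5 * Nat.pair i k + 5) / 5 - 1 = Nat.pair i k by omega, Nat.unpair_pair]
  simp
theorem RE_Co {x : ℕ} : RE (Co z) x ↔ ∃ a, rl z x a := by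
  rw [RE, Co, co_mk]
  simp
theorem P_Co {k x : ℕ} : P (Co z) k x ↔ ∃ a, rl z x a ∧ co z k a := by
  rw [P, Co, co_mk, show (3 * k + 1) % 3 = 1 by omega, show (3 * k + 1) / 3 = k by omega]
  simp
theorem len_Co {k x : ℕ} : len (Co z) k x ↔ (wd z x).length = k := by
  rw [len, Co, co_mk, show (3 * k + 2) % 3 = 2 by omega, show (3 * k + 2) / 3 = k by omega]
  simp
theorem pp_Co {i j k x : ℕ} : pp (Co z) i j k x ↔ ∃ a b, inc z a b ∧ com z a b = Ln z x ∧
    cl z i x a ∧ cl z j x b ∧ ac z k a b := by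
  rw [pp, Co, co_mk, show (3 * Nat.pair i (Nat.pair j k) + 3) % 3 = 0 by omega,
    show (3 * Nat.pair i (Nat.pair j k) + 3) / 3 - 1 = Nat.pair i (Nat.pair j k) by omega,
    Nat.unpair_pair]
  simp only [Nat.unpair_pair]
  simp

theorem evz_refl {A : Set ℕ} {t : ℕ} : evz z A t t := fun _ _ _ => ⟨Iff.rfl, Iff.rfl⟩
theorem evz_symm {A : Set ℕ} {t t' : ℕ} (h : evz z A t t') : evz z A t' t :=
  fun y hy k => ⟨(h y hy k).1.symm, (h y hy k).2.symm⟩
theorem evz_trans {A : Set ℕ} {t t' t'' : ℕ} (h : evz z A t t') (h' : evz z A t' t'') :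
    evz z A t t'' :=
  fun y hy k => ⟨(h y hy k).1.trans (h' y hy k).1, (h y hy k).2.trans (h' y hy k).2⟩

theorem self_dn {a : ℕ} : a ∈ dn z a := Or.inl rfl

section sto

variable (hz : STO z)

include hz

theorem dn_dnc (a : ℕ) : dnc z (dn z a) := by
  constructor
  · rintro x (rfl | hx) y hy
    · exact Or.inr hy
    · exact Or.inr (hz.tr _ _ _ hy hx)
  · rintro x (rfl | hx) y (rfl | hy)
    · exact Or.inl rfl
    · exact Or.inr (Or.inr hy)
    · exact Or.inr (Or.inl hx)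
    · rcases hz.lin _ _ _ hx hy with h | h | h
      · exact Or.inr (Or.inl h)
      · exact Or.inl h
      · exact Or.inr (Or.inr h)

theorem Ln_dnc (n : ℕ) : dnc z (Ln z n) := by
  have h1 := dn_dnc hz (pa n)
  have h2 := dn_dnc hz (pb n)
  exact ⟨fun x hx y hy => ⟨h1.1 x hx.1 y hy, h2.1 x hx.2 y hy⟩,
    fun x hx y hy => h1.2 x hx.1 y hy.1⟩

omit hz in
/-- downward closed subsets of a chain are comparable -/
theorem cmp {A B C : Set ℕ} (hA : dnc z A) (hB : dnc z B) (hC : dnc z C) (hAC : A ⊆ C)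
    (hBC : B ⊆ C) : A ⊆ B ∨ B ⊆ A := by
  by_contra hcon
  rw [not_or, Set.not_subset, Set.not_subset] at hcon
  obtain ⟨⟨a, ha, ha'⟩, b, hb, hb'⟩ := hcon
  rcases hC.2 a (hAC ha) b (hBC hb) with h | h | h
  · rw [h] at ha'; exact ha' hb
  · exact ha' (hB.1 b hb a h)
  · exact hb' (hA.1 a ha b h)

theorem dn_sub {a b : ℕ} : dn z a ⊆ dn z b ↔ a = b ∨ lt z a b := by
  constructor
  · exact fun h => h self_dn
  · rintro (rfl | h)
    · exact Subset.rfl
    · rintro c (rfl | hc)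
      · exact Or.inr h
      · exact Or.inr (hz.tr _ _ _ hc h)

theorem dn_inj {a b : ℕ} (h : dn z a = dn z b) : a = b := by
  rcases (dn_sub hz).1 h.subset with h1 | h1
  · exact h1
  · rcases (dn_sub hz).1 h.symm.subset with h2 | h2
    · exact h2.symm
    · exact absurd (hz.tr _ _ _ h1 h2) (hz.irr _)

theorem dn_ssub {a b : ℕ} : dn z a ⊂ dn z b ↔ lt z a b := by
  rw [Set.ssubset_iff_subset_ne, dn_sub hz]
  constructor
  · rintro ⟨h1 | h1, h2⟩
    · exact absurd (by rw [h1]) h2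
    · exact h1
  · intro h
    refine ⟨Or.inr h, fun h2 => ?_⟩
    rw [dn_inj hz h2] at h
    exact hz.irr _ h

omit hz in
theorem Ln_pair (a b c : ℕ) : Ln z (Nat.pair (Nat.pair a b) c) = dn z a ∩ dn z b := by
  unfold Ln pa pb
  rw [Nat.unpair_pair, Nat.unpair_pair]

omit hz in
theorem rl_pair (a c : ℕ) : rl z (Nat.pair (Nat.pair a a) c) a := by
  unfold rl
  rw [Ln_pair, inter_self]

theorem rl_uniq {x a b : ℕ} (h : rl z x a) (h' : rl z x b) : a = b :=
  dn_inj hz (h.symm.trans h')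

/-- the elements above the node -/
theorem nz_iff {x t b : ℕ} (ht : rl z t b) : b ∈ Nz z (Ln z x) ↔ Ln z x ⊂ Ln z t := by
  unfold rl at ht
  rw [ht]
  constructor
  · intro h
    refine ⟨fun c hc => Or.inr (h c hc), fun h2 => ?_⟩
    exact hz.irr _ (h b (h2 self_dn))
  · intro h c hc
    rcases h.1 hc with h1 | h1
    · exfalso
      refine h.2 ?_
      rw [← h1]
      rintro d (rfl | hd)
      · exact hc
      · exact (Ln_dnc hz x).1 c hc d hd
    · exact h1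

theorem com_inc {a b : ℕ} (h : inc z a b) : com z a b = dn z a ∩ dn z b := by
  ext c
  constructor
  · rintro ⟨h1, h2⟩
    exact ⟨Or.inr h1, Or.inr h2⟩
  · rintro ⟨h1 | h1, h2 | h2⟩
    · exact absurd (h1.symm.trans h2) h.1
    · rw [h1] at h2
      exact absurd h2 h.2.1
    · rw [h2] at h1
      exact absurd h1 h.2.2
    · exact ⟨h1, h2⟩

theorem tp_Co : TP (Co z) := by
  refine ⟨?_, ?_, ?_, ?_, ?_, ?_, ?_, ?_, ?_, ?_⟩
  · intro x
    rw [lt_Co]
    exact fun h => h.ne rfl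
  · intro x y w
    rw [lt_Co, lt_Co, lt_Co]
    exact fun h1 h2 => h1.trans h2
  · intro x
    rw [eqv_Co]
  · intro x y
    rw [eqv_Co, eqv_Co]
    exact fun h => h.symm
  · intro x y w
    rw [eqv_Co, eqv_Co, eqv_Co]
    exact fun h1 h2 => h1.trans h2
  · intro x y w
    rw [eqv_Co, lt_Co, lt_Co]
    intro h1 h2
    rw [h1]; exact h2
  · intro x y w
    rw [eqv_Co, lt_Co, lt_Co]
    intro h1 h2
    rw [← h2]; exact h1
  · intro x y w
    rw [lt_Co, lt_Co, lt_Co, eqv_Co, lt_Co]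
    intro h1 h2
    rcases cmp (Ln_dnc hz x) (Ln_dnc hz y) (Ln_dnc hz w) h1.1 h2.1 with h | h
    · rcases h.eq_or_ssubset with h | h
      · exact Or.inr (Or.inl h)
      · exact Or.inl h
    · rcases h.eq_or_ssubset with h | h
      · exact Or.inr (Or.inl h.symm)
      · exact Or.inr (Or.inr h)
  · intro x y
    -- an intersection of four chains is an intersection of two chains
    have key : ∃ a b, dn z a ∩ dn z b = Ln z x ∩ Ln z y := by
      have c1 : ∀ u v w, dn z u ∩ dn z v ⊆ dn z u ∩ dn z w ∨ dn z u ∩ dn z w ⊆ dn z u ∩ dn z v := by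
        intro u v w
        have hh : ∀ v, dnc z (dn z u ∩ dn z v) := fun v =>
          ⟨fun x hx y hy => ⟨(dn_dnc hz u).1 x hx.1 y hy, (dn_dnc hz v).1 x hx.2 y hy⟩,
            fun x hx y hy => (dn_dnc hz u).2 x hx.1 y hy.1⟩
        exact cmp (hh v) (hh w) (dn_dnc hz u) inter_subset_left inter_subset_left
      have c2 : ∀ u v w, ∃ s, dn z u ∩ dn z s = dn z u ∩ dn z v ∩ dn z w := by
        intro u v w
        rcases c1 u v w with h | h
        · refine ⟨v, ?_⟩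
          exact Subset.antisymm (fun c hc => ⟨hc, (h hc).2⟩) inter_subset_left
        · refine ⟨w, ?_⟩
          exact Subset.antisymm (fun c hc => ⟨h hc, hc.2⟩) (fun c hc => ⟨hc.1.1, hc.2⟩)
      obtain ⟨s, hs⟩ := c2 (pa x) (pb x) (pa y)
      obtain ⟨s', hs'⟩ := c2 (pa x) s (pb y)
      refine ⟨pa x, s', ?_⟩
      rw [hs', hs]
      unfold Ln
      rw [inter_assoc (dn z (pa x) ∩ dn z (pb x))]
    obtain ⟨a, b, hab⟩ := key
    refine ⟨Nat.pair (Nat.pair a b) 0, ?_, ?_, ?_⟩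
    · rw [le_Co, Ln_pair, hab]; exact inter_subset_left
    · rw [le_Co, Ln_pair, hab]; exact inter_subset_right
    · intro w
      rw [le_Co, le_Co, le_Co, Ln_pair, hab]
      exact subset_inter
  · intro n x y
    rw [le_Co, le_Co, Co, ac_mk]
    have e : ∀ j x y, cq z j x y → Ln z x ⊆ Ln z y := by
      rintro j x y ⟨b, h1, h2, -⟩
      exact ((nz_iff hz h1).1 h2).1
    rintro (⟨-, h⟩ | ⟨-, -, -, -, -, h, -⟩ | ⟨-, h⟩ | ⟨-, h, -⟩ | ⟨-, h, -⟩ | ⟨-, -, h, -⟩)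
    · exact Or.inl h.subset
    · exact h
    · exact Or.inl (e _ _ _ h)
    · exact Or.inl h
    · exact Or.inl h
    · exact Or.inl h

theorem mt_Co {s t x a b : ℕ} (hs : rl z s a) (ht : rl z t b) :
    mt (Co z) s t x ↔ inc z a b ∧ com z a b = Ln z x := by
  unfold mt
  rw [lt_Co, lt_Co]
  have hs' := hs
  have ht' := ht
  unfold rl at hs' ht'
  constructor
  · rintro ⟨h1, h2, h3⟩
    have h4 := h3 (Nat.pair (Nat.pair a b) 0)
    rw [le_Co, le_Co, le_Co, Ln_pair, hs', ht'] at h4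
    have h5 := h4 inter_subset_left inter_subset_right
    rw [hs'] at h1
    rw [ht'] at h2
    have h6 : Ln z x = dn z a ∩ dn z b := Subset.antisymm (subset_inter h1.1 h2.1) h5
    have h7 : inc z a b := by
      refine ⟨fun he => ?_, fun hl => ?_, fun hl => ?_⟩
      · rw [he, inter_self] at h6
        exact h2.ne h6
      · have := (dn_ssub hz).2 hl
        rw [inter_eq_self_of_subset_left this.1] at h6
        exact h1.ne h6
      · have := (dn_ssub hz).2 hl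
        rw [inter_eq_self_of_subset_right this.1] at h6
        exact h2.ne h6
    exact ⟨h7, by rw [com_inc hz h7, h6]⟩
  · rintro ⟨h1, h2⟩
    rw [← h2, com_inc hz h1, hs', ht']
    refine ⟨⟨inter_subset_left, fun h => ?_⟩, ⟨inter_subset_right, fun h => ?_⟩, ?_⟩
    · rcases (h self_dn).2 with h3 | h3
      · exact h1.1 h3
      · exact h1.2.1 h3
    · rcases (h self_dn).1 with h3 | h3
      · exact h1.1 h3.symm
      · exact h1.2.2 h3
    · intro w
      rw [le_Co, le_Co, le_Co, ← h2, com_inc hz h1, hs', ht']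
      exact subset_inter

theorem val_dw (hf : FIz z) {A : Set ℕ} (hA : dnc z A) : Val z A (dw z A) := by
  have hex : ∃ ts, Val z A ts := by
    obtain ⟨F, hF1, hF2, hF3⟩ := hf A hA
    refine ⟨hF1.toFinset.toList, ?_, ?_⟩
    · intro t ht
      exact hF2 (hF1.mem_toFinset.1 (Finset.mem_toList.1 ht))
    · intro s hs
      obtain ⟨f, hf, hsf⟩ := hF3 s hs
      exact ⟨f, Finset.mem_toList.2 (hF1.mem_toFinset.2 hf), hsf⟩
  rw [dw, dif_pos hex]
  exact hex.choose_spec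

theorem val_wd (hf : FIz z) (n : ℕ) : Val z (Ln z n) (wd z n) := by
  unfold wd
  split
  · assumption
  · exact val_dw hz hf (Ln_dnc hz n)

omit hz in
theorem cl_nz {j x b : ℕ} (h : cl z j x b) : b ∈ Nz z (Ln z x) := h.1

omit hz in
theorem cl_ev {j x b b' : ℕ} (h : cl z j x b) (h' : cl z j x b') : evz z (Ln z x) b b' := by
  obtain ⟨-, t, h1, h2⟩ := h
  obtain ⟨-, t', h3, h4⟩ := h'
  rw [h1] at h3
  obtain rfl := Option.some.inj h3
  exact evz_trans h2 (evz_symm h4)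

theorem cl_ex (hf : FIz z) {x b : ℕ} (h : b ∈ Nz z (Ln z x)) : ∃ j, cl z j x b := by
  obtain ⟨t0, h2, h3⟩ := (val_wd hz hf x).2 _ h
  obtain ⟨j, hj, hj'⟩ := List.getElem_of_mem h2
  refine ⟨j, h, t0, ?_, h3⟩
  rw [List.getElem?_eq_some_iff]
  exact ⟨hj, hj'⟩

theorem cq_iff {j x t b : ℕ} (ht : rl z t b) : cq z j x t ↔ cl z j x b := by
  constructor
  · rintro ⟨b', h1, h2⟩
    rwa [rl_uniq hz ht h1]
  · exact fun h => ⟨b, ht, h⟩

theorem cr_iff {k x y a b : ℕ} (hx : rl z x a) (hy : rl z y b) :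
    cr z k x y ↔ (Ln z x ⊆ Ln z y ∨ Ln z y ⊆ Ln z x) ∧ ac z k a b := by
  constructor
  · rintro ⟨a', b', h1, h2, h3, h4⟩
    rw [rl_uniq hz hx h1, rl_uniq hz hy h2]
    exact ⟨h3, h4⟩
  · exact fun h => ⟨a, b, hx, hy, h.1, h.2⟩

variable (hf : FIz z) (hs : SLz z)

include hf hs

theorem RR_Co {k x y a b : ℕ} (hx : rl z x a) (hy : rl z y b) :
    RR (Co z) k x y ↔ ac z k a b := by
  by_cases hc : Ln z x ⊆ Ln z y ∨ Ln z y ⊆ Ln z x
  · rw [RR_cmp (tp_Co hz) (by rw [le_Co, le_Co]; exact hc), r_Co, cr_iff hz hx hy]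
    exact and_iff_right hc
  · have hinc : inc z a b := by
      unfold rl at hx hy
      rw [hx, hy, dn_sub hz, dn_sub hz, not_or, not_or, not_or] at hc
      exact ⟨hc.1.1, hc.1.2, hc.2.2⟩
    constructor
    · rintro (h | ⟨w, i, j, h1, h2, h3, h4⟩)
      · rw [r_Co, cr_iff hz hx hy] at h
        exact h.2
      · rw [mt_Co hz hx hy] at h1
        rw [q_Co, cq_iff hz hx] at h2
        rw [q_Co, cq_iff hz hy] at h3
        obtain ⟨a', b', g1, g2, g3, g4, g5⟩ := pp_Co.1 h4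
        refine (hs a' b' a b g1 h1.1 (g2.trans h1.2.symm) ?_ ?_ k).1 g5
        · rw [g2]; exact cl_ev g3 h2
        · rw [g2]; exact cl_ev g4 h3
    · intro h
      right
      have e : Ln z (Nat.pair (Nat.pair a b) 0) = com z a b := by
        rw [Ln_pair, com_inc hz hinc]
      obtain ⟨i, hi⟩ := cl_ex hz hf (x := Nat.pair (Nat.pair a b) 0) (b := a)
        (by rw [e]; exact fun c hc => hc.1)
      obtain ⟨j, hj⟩ := cl_ex hz hf (x := Nat.pair (Nat.pair a b) 0) (b := b)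
        (by rw [e]; exact fun c hc => hc.2)
      exact ⟨Nat.pair (Nat.pair a b) 0, i, j, (mt_Co hz hx hy).2 ⟨hinc, e.symm⟩,
        q_Co.2 ((cq_iff hz hx).2 hi), q_Co.2 ((cq_iff hz hy).2 hj),
        pp_Co.2 ⟨a, b, hinc, e.symm, hi, hj, h⟩⟩

theorem ev_Co {x s t a b : ℕ} (h1 : rl z s a) (h2 : rl z t b) :
    ev (Co z) x s t ↔ evz z (Ln z x) a b := by
  constructor
  · intro h y hy k
    have hyr := rl_pair (z := z) y 0
    have := h (Nat.pair (Nat.pair y y) 0) (RE_Co.2 ⟨y, hyr⟩) (fun g => hy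
      ((nz_iff hz hyr).2 (lt_Co.1 g))) k
    rwa [RR_Co hz hf hs h1 hyr, RR_Co hz hf hs h2 hyr, RR_Co hz hf hs hyr h1,
      RR_Co hz hf hs hyr h2] at this
  · intro h y hy hy' k
    obtain ⟨c, hc⟩ := RE_Co.1 hy
    rw [RR_Co hz hf hs h1 hc, RR_Co hz hf hs h2 hc, RR_Co hz hf hs hc h1,
      RR_Co hz hf hs hc h2]
    exact h c (fun g => hy' (lt_Co.2 ((nz_iff hz hc).1 g))) k

open Classical in
/-- the element of a real node -/
noncomputable def pj (z : R2) (x : ℕ) : ℕ := if h : ∃ a, rl z x a then h.choose else 0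

omit hz hf hs in
theorem pj_rl {x : ℕ} (h : ∃ a, rl z x a) : rl z x (pj z x) := by
  rw [pj, dif_pos h]
  exact h.choose_spec

theorem Q_Co : Q (Co z) z (pj z) := by
  refine ⟨fun u => ?_, fun x y hx hy => ?_, fun x y hx hy => ?_, fun k x y hx hy => ?_,
    fun k x hx => ?_⟩
  · have h1 := rl_pair (z := z) u 0
    exact ⟨Nat.pair (Nat.pair u u) 0, RE_Co.2 ⟨u, h1⟩, rl_uniq hz (pj_rl ⟨u, h1⟩) h1⟩
  · have h1 := pj_rl (RE_Co.1 hx)
    have h2 := pj_rl (RE_Co.1 hy)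
    have h1' := h1
    have h2' := h2
    unfold rl at h1' h2'
    rw [lt_Co, h1', h2', dn_ssub hz]
  · have h1 := pj_rl (RE_Co.1 hx)
    have h2 := pj_rl (RE_Co.1 hy)
    have h1' := h1
    have h2' := h2
    unfold rl at h1' h2'
    rw [eqv_Co, h1', h2']
    exact ⟨fun h => dn_inj hz h, fun h => by rw [h]⟩
  · exact RR_Co hz hf hs (pj_rl (RE_Co.1 hx)) (pj_rl (RE_Co.1 hy))
  · have h1 := pj_rl (RE_Co.1 hx)
    rw [P_Co]
    constructor
    · rintro ⟨a, h2, h3⟩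
      rwa [rl_uniq hz h1 h2]
    · exact fun h => ⟨_, h1, h⟩

theorem ax_Co : Ax (Co z) := by
  have hln : ∀ {x x' : ℕ}, eqv (Co z) x x' → Ln z x = Ln z x' := fun h => eqv_Co.1 h
  constructor
  · exact tp_Co hz
  · intro l
    have hfin : (⋃ y ∈ l.toFinset, {a | rl z y a}).Finite := by
      refine Set.Finite.biUnion (Finset.finite_toSet _) fun y _ => ?_
      exact Set.Subsingleton.finite fun a ha b hb => rl_uniq hz ha hb
    obtain ⟨u, hu⟩ := hfin.infinite_compl.nonempty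
    refine ⟨Nat.pair (Nat.pair u u) 0, RE_Co.2 ⟨u, rl_pair _ _⟩, fun y hy he => hu ?_⟩
    refine mem_iUnion₂.2 ⟨y, List.mem_toFinset.2 hy, ?_⟩
    have h1 := rl_pair (z := z) u 0
    show rl z y u
    unfold rl at h1 ⊢
    rw [← hln he, h1]
  · intro x
    refine ⟨Nat.pair (Nat.pair (pa x) (pa x)) 0, Nat.pair (Nat.pair (pb x) (pb x)) 0,
      RE_Co.2 ⟨_, rl_pair _ _⟩, RE_Co.2 ⟨_, rl_pair _ _⟩, ?_, ?_, fun w => ?_⟩
    · rw [le_Co, Ln_pair, inter_self]; exact inter_subset_left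
    · rw [le_Co, Ln_pair, inter_self]; exact inter_subset_right
    · rw [le_Co, le_Co, le_Co, Ln_pair, Ln_pair, inter_self, inter_self]
      exact subset_inter
  · intro x y h
    rw [lt_Co] at h
    obtain ⟨c, hc, hc'⟩ := exists_of_ssubset h
    have hcr := rl_pair (z := z) c 0
    have hcr' := hcr
    unfold rl at hcr'
    refine ⟨Nat.pair (Nat.pair c c) 0, RE_Co.2 ⟨c, hcr⟩, ?_, ?_⟩
    · rw [lt_Co, ← nz_iff hz hcr]
      intro d hd
      rcases (Ln_dnc hz y).2 d (h.1 hd) c hc with h1 | h1 | h1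
      · rw [h1] at hd; exact absurd hd hc'
      · exact h1
      · exact absurd ((Ln_dnc hz x).1 d hd c h1) hc'
    · rw [le_Co, hcr']
      rintro d (rfl | hd)
      · exact hc
      · exact (Ln_dnc hz y).1 c hc d hd
  · intro x x' h
    rw [RE_Co, RE_Co]
    unfold rl
    rw [hln h]
    exact id
  · intro k x y
    rw [r_Co, RE_Co, RE_Co]
    rintro ⟨a, b, h1, h2, -⟩
    exact ⟨⟨a, h1⟩, ⟨b, h2⟩⟩
  · intro x x' h _ y k
    rw [r_Co, r_Co, r_Co, r_Co, P_Co, P_Co]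
    unfold cr rl
    rw [hln h]
    exact ⟨Iff.rfl, Iff.rfl, Iff.rfl⟩
  · intro k x
    rw [P_Co, RE_Co]
    rintro ⟨a, h1, -⟩
    exact ⟨a, h1⟩
  · intro j x t t' h
    rw [q_Co, q_Co]
    unfold cq rl
    rw [hln h]
    exact id
  · intro x
    refine ⟨(wd z x).length, fun k' => ?_⟩
    rw [len_Co]
    exact eq_comm
  · intro j x t
    rw [q_Co, lt_Co, RE_Co]
    rintro ⟨b, h1, h2, t0, h3, h4⟩
    exact ⟨⟨b, h1⟩, (nz_iff hz h1).1 h2, (wd z x).length, len_Co.2 rfl,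
      (List.getElem?_eq_some_iff.1 h3).1⟩
  · intro x t ht h
    obtain ⟨b, hb⟩ := RE_Co.1 ht
    obtain ⟨j, hj⟩ := cl_ex hz hf ((nz_iff hz hb).2 (lt_Co.1 h))
    exact ⟨j, q_Co.2 ⟨b, hb, hj⟩⟩
  · intro k j x
    rw [len_Co]
    rintro rfl hj
    refine ⟨Nat.pair (Nat.pair ((wd z x)[j]) ((wd z x)[j])) 0, q_Co.2 ⟨(wd z x)[j],
      rl_pair _ _, (val_wd hz hf x).1 _ (List.getElem_mem _), (wd z x)[j], ?_, evz_refl⟩⟩
    exact List.getElem?_eq_getElem _
  · intro j x t t' h ht' hl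
    rw [q_Co] at h
    obtain ⟨b, hb, hc⟩ := h
    obtain ⟨b', hb'⟩ := RE_Co.1 ht'
    rw [q_Co, cq_iff hz hb', ev_Co hz hf hs hb hb']
    constructor
    · exact fun h1 => cl_ev hc h1
    · intro h1
      obtain ⟨-, t0, h2, h3⟩ := hc
      exact ⟨(nz_iff hz hb').2 (lt_Co.1 hl), t0, h2, evz_trans (evz_symm h1) h3⟩
  · intro i j x y
    rw [m_Co, le_Co]
    simp only [q_Co]
  · intro j k x y
    rw [p_Co, le_Co]
    simp only [q_Co, r_Co]
  · intro j k x y
    rw [p'_Co, le_Co]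
    simp only [q_Co, r_Co]
  · intro i j k x
    rw [pp_Co]
    rintro ⟨a, b, h1, h2, h3, h4, -⟩
    have ha := rl_pair (z := z) a 0
    have hb := rl_pair (z := z) b 0
    exact ⟨_, _, (mt_Co hz ha hb).2 ⟨h1, h2⟩, q_Co.2 ⟨a, ha, h3⟩, q_Co.2 ⟨b, hb, h4⟩⟩
  · intro i j k x i' j' x' s t he hm h1 h2 h3 h4
    rw [q_Co] at h1 h2 h3 h4
    obtain ⟨a, ha, ha1⟩ := h1
    obtain ⟨b, hb, hb1⟩ := h2
    rw [cq_iff hz ha] at h3
    rw [cq_iff hz hb] at h4
    obtain ⟨m1, m2⟩ := (mt_Co hz ha hb).1 hm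
    have key : ∀ {i j x : ℕ}, com z a b = Ln z x → cl z i x a → cl z j x b →
        (pp (Co z) i j k x ↔ ac z k a b) := by
      intro i j x g1 g2 g3
      rw [pp_Co]
      constructor
      · rintro ⟨a', b', g4, g5, g6, g7, g8⟩
        refine (hs a' b' a b g4 m1 (g5.trans g1.symm) ?_ ?_ k).1 g8
        · rw [g5]; exact cl_ev g6 g2
        · rw [g5]; exact cl_ev g7 g3
      · exact fun g => ⟨a, b, m1, g1, g2, g3, g⟩
    rw [key m2 ha1 hb1, key (m2.trans (hln he)) h3 h4]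
  · intro x ts av h1 h2
    have hpr : ∀ t ∈ ts, rl z t (pj z t) := fun t ht => pj_rl (RE_Co.1 (h1 t ht).1)
    have hval : Val z (Ln z x) (ts.map (pj z)) := by
      constructor
      · intro t ht
        obtain ⟨t, ht', rfl⟩ := List.mem_map.1 ht
        exact (nz_iff hz (hpr t ht')).2 (lt_Co.1 (h1 t ht').2)
      · intro s hss
        have hsr := rl_pair (z := z) s 0
        obtain ⟨t, ht, hst⟩ := h2 (Nat.pair (Nat.pair s s) 0) (RE_Co.2 ⟨s, hsr⟩)
          (lt_Co.2 ((nz_iff hz hsr).1 hss))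
        refine ⟨pj z t, List.mem_map.2 ⟨t, ht, rfl⟩, ?_⟩
        rwa [ev_Co hz hf hs hsr (hpr t ht)] at hst
    have hinj : Function.Injective fun d : ℕ =>
        Nat.pair (Nat.pair (pa x) (pb x))
          (Nat.pair (Encodable.encode (ts.map (pj z))) d) := by
      intro d d' h
      have h' := congrArg (fun n => (Nat.unpair n).2) h
      simp only [Nat.unpair_pair] at h'
      have h'' := congrArg (fun n => (Nat.unpair n).2) h'
      simpa only [Nat.unpair_pair] using h''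
    obtain ⟨d, hd⟩ : ∃ d : ℕ, Nat.pair (Nat.pair (pa x) (pb x))
        (Nat.pair (Encodable.encode (ts.map (pj z))) d) ∉ av := by
      by_contra hcon
      push Not at hcon
      exact Set.infinite_range_of_injective hinj (av.toFinset.finite_toSet.subset (by
        rintro _ ⟨d, rfl⟩
        exact List.mem_toFinset.2 (hcon d)))
    set x' := Nat.pair (Nat.pair (pa x) (pb x))
        (Nat.pair (Encodable.encode (ts.map (pj z))) d) with hx'
    have hL : Ln z x' = Ln z x := by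
      rw [hx', Ln_pair]
      rfl
    have hwd : wd z x' = ts.map (pj z) := by
      have hdec : (Encodable.decode (α := List ℕ) x'.unpair.2.unpair.1).getD [] =
          ts.map (pj z) := by
        rw [hx', Nat.unpair_pair, Nat.unpair_pair, Encodable.encodek, Option.getD_some]
      unfold wd
      rw [hdec, hL, if_pos hval]
    refine ⟨x', hd, eqv_Co.2 hL.symm, ?_, ?_⟩
    · rw [len_Co, hwd, List.length_map]
    · intro j t hj
      have ht := List.mem_of_getElem? hj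
      rw [q_Co, cq_iff hz (hpr t ht)]
      refine ⟨?_, pj z t, ?_, evz_refl⟩
      · rw [hL]
        exact (nz_iff hz (hpr t ht)).2 (lt_Co.1 (h1 t ht).2)
      · rw [hwd, List.getElem?_map, hj]
        rfl

end sto

end code

/-- **Theorem.** Vaught's conjecture for classes of trees with finitely many types over every
downward closed chain in which the relations between different cones depend on the types only. -/
theorem t1t (B : Set R2) (hB : MeasurableSet B) (hinv : ∀ x y, RIso x y → x ∈ B → y ∈ B)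
    (hsto : ∀ z ∈ B, STO z) (hfi : ∀ z ∈ B, FIz z) (hsl : ∀ z ∈ B, SLz z) : Dich B := by
  have hzz : ∀ W W' : R2, Ax W → Ax W' → RIso W W' → RIso (zd W) (zd W') := by
    intro W W' hW hW' hi
    obtain ⟨-, π, h2⟩ := zd_Q hW
    obtain ⟨-, π', h4⟩ := zd_Q hW'
    obtain ⟨π'', h5⟩ := h4.left' hi
    exact h2.uniq h5
  have hKi : ∀ x y, RIso x y → x ∈ {W : R2 | Ax W} ∩ zd ⁻¹' B → y ∈ {W : R2 | Ax W} ∩ zd ⁻¹' B := by
    rintro W W' hi ⟨hW, hz⟩
    have hW' : Ax W' := Ax.iso (riso_symm hi) hW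
    exact ⟨hW', hinv _ _ (hzz W W' hW hW' hi) hz⟩
  have hco : ∀ z ∈ B, Ax (Co z) ∧ RIso (zd (Co z)) z := by
    intro z hz
    have hax := ax_Co (hsto z hz) (hfi z hz) (hsl z hz)
    obtain ⟨-, π, h2⟩ := zd_Q hax
    exact ⟨hax, h2.uniq (Q_Co (hsto z hz) (hfi z hz) (hsl z hz))⟩
  refine red (K := {W : R2 | Ax W} ∩ zd ⁻¹' B) (d := zd) hB meas_zd hKi (fun W hW => hW.2)
    (fun W hW W' hW' hi => hzz W W' hW.1 hW'.1 hi) ?_ ?_ ?_
  · rintro W ⟨hW, -⟩ W' ⟨hW', -⟩ hi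
    obtain ⟨-, π, h2⟩ := zd_Q hW
    obtain ⟨-, π', h4⟩ := zd_Q hW'
    obtain ⟨π'', h5⟩ := h2.right hi
    exact Q.iso hW hW' h5 h4
  · intro z hz
    obtain ⟨h1, h2⟩ := hco z hz
    exact ⟨Co z, ⟨h1, hinv _ _ (riso_symm h2) hz⟩, h2⟩
  · refine dich2 _ (meas_Ax.inter (meas_zd hB)) hKi ?_ ?_ ?_
    · rintro W ⟨hW, -⟩
      exact ⟨hW.tp.irr, hW.tp.tr, hW.tp.er, hW.tp.es, hW.tp.et, hW.tp.ell, hW.tp.elr,
        hW.tp.lin, fun x y _ _ _ => hW.tp.meet x y, hW.tp.loc⟩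
    · exact fun W hW W' hW' => law hW.1 hW'.1
    · rintro W ⟨hW, hz⟩
      obtain ⟨-, π, h2⟩ := zd_Q hW
      exact pcut hW (h2.fi hW (hfi _ hz))

end Pool.Agent.Run7.h201.CTR.T1
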