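import Mathlib

set_option autoImplicit false

/-!
# Canonical classes of elements of a union of cones

`N` is a set of elements which is partitioned into cones by `cn`, `R` are relations. If there is a
finite labelling of `N` such that the relations between elements of different cones depend on the
labels only, then there is a canonical one.
-/

namespace Pool.Agent.Run7.h201.CTR.WD

section defs

variable {α : Type} (N : α → Prop) (cn : α → α → Prop) (R : ℕ → α → α → Prop)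

/-- the same relations to `y` -/
def sm (t t' y : α) : Prop := ∀ k, (R k t y ↔ R k t' y) ∧ (R k y t ↔ R k y t')

/-- the same relations to all elements outside `N` and to all elements of almost all cones -/
def wk (t t' : α) : Prop :=
  (∀ y, ¬ N y → sm R t t' y) ∧ ∃ l : List α, ∀ y, N y → (∀ u, u ∈ l → ¬ cn u y) → sm R t t' y

/-- the class of `t` meets finitely many cones only -/
def rare (t : α) : Prop := ∃ l : List α, ∀ y, N y → wk N cn R t y → ∃ u, u ∈ l ∧ cn u y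

/-- the cone of `t` is special -/
def spe (t : α) : Prop :=
  (∃ u, N u ∧ cn t u ∧ rare N cn R u) ∨
    ∃ p p' y, N p ∧ N p' ∧ wk N cn R p p' ∧ N y ∧ cn t y ∧ ¬ cn p y ∧ ¬ cn p' y ∧ ¬ sm R p p' y

/-- the canonical equivalence relation -/
def EV (t t' : α) : Prop :=
  (spe N cn R t ∨ spe N cn R t' → cn t t') ∧
    ∀ y, (N y → ¬ cn t y ∧ ¬ cn t' y) → sm R t t' y

end defs

section basic

variable {α : Type} {N : α → Prop} {cn : α → α → Prop} {R : ℕ → α → α → Prop}

theorem sm_refl {t y : α} : sm R t t y := fun _ => ⟨Iff.rfl, Iff.rfl⟩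
theorem sm_symm {t t' y : α} (h : sm R t t' y) : sm R t' t y :=
  fun k => ⟨(h k).1.symm, (h k).2.symm⟩
theorem sm_trans {t t' t'' y : α} (h : sm R t t' y) (h' : sm R t' t'' y) : sm R t t'' y :=
  fun k => ⟨(h k).1.trans (h' k).1, (h k).2.trans (h' k).2⟩

theorem wk_refl {t : α} : wk N cn R t t := ⟨fun _ _ => sm_refl, [], fun _ _ _ => sm_refl⟩
theorem wk_symm {t t' : α} (h : wk N cn R t t') : wk N cn R t' t := by
  obtain ⟨h1, l, h2⟩ := h
  exact ⟨fun y hy => sm_symm (h1 y hy), l, fun y hy hy' => sm_symm (h2 y hy hy')⟩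
theorem wk_trans {t t' t'' : α} (h : wk N cn R t t') (h' : wk N cn R t' t'') :
    wk N cn R t t'' := by
  obtain ⟨h1, l, h2⟩ := h
  obtain ⟨h3, l', h4⟩ := h'
  refine ⟨fun y hy => sm_trans (h1 y hy) (h3 y hy), l ++ l', fun y hy hy' => ?_⟩
  exact sm_trans (h2 y hy fun u hu => hy' u (List.mem_append_left _ hu))
    (h4 y hy fun u hu => hy' u (List.mem_append_right _ hu))

/-- `cn` is an equivalence relation on `N` -/
structure CE (N : α → Prop) (cn : α → α → Prop) : Prop where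
  refl : ∀ t, N t → cn t t
  symm : ∀ t t', cn t t' → cn t' t
  trans : ∀ t t' t'', cn t t' → cn t' t'' → cn t t''
  mem : ∀ t t', cn t t' → N t → N t'

theorem spe_cn (hc : CE N cn) {t t' : α} (h : cn t t') (hs : spe N cn R t) : spe N cn R t' := by
  rcases hs with ⟨u, h0, h1, h2⟩ | ⟨p, p', y, h1, h2, h3, h4, h5, h6, h7, h8⟩
  · exact Or.inl ⟨u, h0, hc.trans _ _ _ (hc.symm _ _ h) h1, h2⟩
  · exact Or.inr ⟨p, p', y, h1, h2, h3, h4, hc.trans _ _ _ (hc.symm _ _ h) h5, h6, h7, h8⟩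

theorem rare_wk {t t' : α} (h : wk N cn R t t') (hs : rare N cn R t) : rare N cn R t' := by
  obtain ⟨l, hl⟩ := hs
  exact ⟨l, fun y hy hy' => hl y hy (wk_trans h hy')⟩

theorem EV_symm (hc : CE N cn) {t t' : α} (h : EV N cn R t t') : EV N cn R t' t :=
  ⟨fun h1 => hc.symm _ _ (h.1 h1.symm), fun y hy => sm_symm (h.2 y fun h2 => (hy h2).symm)⟩
theorem EV_refl (hc : CE N cn) {t : α} (ht : N t) : EV N cn R t t :=
  ⟨fun _ => hc.refl t ht, fun _ _ => sm_refl⟩

theorem EV_wk {t t' : α} (h : EV N cn R t t') : wk N cn R t t' := by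
  refine ⟨fun y hy => h.2 y fun h1 => absurd h1 hy, [t, t'], fun y _ hy => h.2 y fun _ => ?_⟩
  exact ⟨hy t (by simp), hy t' (by simp)⟩

/-- elements of non-special cones -/
theorem EV_of_wk {t t' : α} (ht : N t) (ht' : N t') (hs : ¬ spe N cn R t)
    (hs' : ¬ spe N cn R t') (hw : wk N cn R t t')
    (hsp : ∀ y, N y → spe N cn R y → ¬ cn t y → ¬ cn t' y → sm R t t' y) (hc : CE N cn) :
    EV N cn R t t' := by
  refine ⟨fun h => ?_, fun y hy => ?_⟩
  · rcases h with h | h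
    · exact absurd h hs
    · exact absurd h hs'
  · by_cases hN : N y
    · obtain ⟨h1, h2⟩ := hy hN
      by_cases hy' : spe N cn R y
      · exact hsp y hN hy' h1 h2
      · by_contra hcon
        exact hy' (Or.inr ⟨t, t', y, ht, ht', hw, hN, hc.refl y hN, h1, h2, hcon⟩)
    · exact hw.1 y hN

theorem EV_trans (hc : CE N cn) {t t' t'' : α} (ht : N t)
    (ht'' : N t'') (h1 : EV N cn R t t') (h2 : EV N cn R t' t'') : EV N cn R t t'' := by
  have hsp : (spe N cn R t ∨ spe N cn R t' ∨ spe N cn R t'') → cn t t' ∧ cn t' t'' := by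
    intro hs
    have s1 : spe N cn R t → spe N cn R t' := fun hs => spe_cn hc (h1.1 (Or.inl hs)) hs
    have s2 : spe N cn R t'' → spe N cn R t' := fun hs =>
      spe_cn hc (hc.symm _ _ (h2.1 (Or.inr hs))) hs
    have s3 : spe N cn R t' := by
      rcases hs with hs | hs | hs
      · exact s1 hs
      · exact hs
      · exact s2 hs
    exact ⟨h1.1 (Or.inr s3), h2.1 (Or.inl s3)⟩
  by_cases hs : spe N cn R t ∨ spe N cn R t' ∨ spe N cn R t''
  · obtain ⟨c1, c2⟩ := hsp hs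
    refine ⟨fun _ => hc.trans _ _ _ c1 c2, fun y hy => ?_⟩
    have hy' : N y → ¬ cn t' y := fun hN h3 => (hy hN).1 (hc.trans _ _ _ c1 h3)
    exact sm_trans (h1.2 y fun hN => ⟨(hy hN).1, hy' hN⟩)
      (h2.2 y fun hN => ⟨hy' hN, (hy hN).2⟩)
  · push Not at hs
    obtain ⟨s1, s2, s3⟩ := hs
    refine EV_of_wk ht ht'' s1 s3 (wk_trans (EV_wk h1) (EV_wk h2)) (fun y hN hys h3 h4 => ?_) hc
    have h5 : ¬ cn t' y := fun h6 => s2 (spe_cn hc (hc.symm _ _ h6) hys)
    exact sm_trans (h1.2 y fun _ => ⟨h3, h5⟩) (h2.2 y fun _ => ⟨h5, h4⟩)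

end basic

section lab

variable {α : Type} {N : α → Prop} {cn : α → α → Prop} {R : ℕ → α → α → Prop}

/-- a finite labelling -/
structure Lab (N : α → Prop) (cn : α → α → Prop) (R : ℕ → α → α → Prop) (n : ℕ)
    (l : α → Fin n) : Prop where
  out : ∀ s s', N s → N s' → l s = l s' → ∀ y, ¬ N y → sm R s s' y
  det : ∀ s s' u u', N s → N s' → N u → N u' → ¬ cn s s' → ¬ cn u u' → l s = l u → l s' = l u' →
    ∀ k, R k s s' ↔ R k u u'

variable {n : ℕ} {l : α → Fin n}

/-- the same label: the same relations to elements of other cones -/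
theorem Lab.sm (h : Lab N cn R n l) (hc : CE N cn) {s s' y : α} (hs : N s) (hs' : N s')
    (hy : N y) (h1 : ¬ cn s y) (h2 : ¬ cn s' y) (he : l s = l s') : WD.sm R s s' y := fun k =>
  ⟨h.det s y s' y hs hy hs' hy h1 h2 he rfl k,
    h.det y s y s' hy hs hy hs' (fun h3 => h1 (hc.symm _ _ h3)) (fun h3 => h2 (hc.symm _ _ h3))
      rfl he k⟩

theorem Lab.wk (h : Lab N cn R n l) (hc : CE N cn) {s s' : α} (hs : N s) (hs' : N s')
    (he : l s = l s') : WD.wk N cn R s s' := by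
  refine ⟨h.out s s' hs hs' he, [s, s'], fun y hy hy' => ?_⟩
  exact h.sm hc hs hs' hy (hy' s (by simp)) (hy' s' (by simp)) he

/-- a label which occurs in infinitely many cones -/
def com (N : α → Prop) (cn : α → α → Prop) (l : α → Fin n) (i : Fin n) : Prop :=
  ∀ L : List α, ∃ y, N y ∧ l y = i ∧ ∀ u ∈ L, ¬ cn u y

/-- weakly equivalent elements have the same relations to elements with common labels -/
theorem Lab.wk_com (h : Lab N cn R n l) (hc : CE N cn) {p p' y : α} (hp : N p) (hp' : N p')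
    (hw : WD.wk N cn R p p') (hy : N y) (hcom : com N cn l (l y)) (h1 : ¬ cn p y)
    (h2 : ¬ cn p' y) : WD.sm R p p' y := by
  obtain ⟨-, L, hL⟩ := hw
  obtain ⟨w, hw1, hw2, hw3⟩ := hcom ([p, p'] ++ L)
  have a1 : ¬ cn p w := hw3 p (by simp)
  have a2 : ¬ cn p' w := hw3 p' (by simp)
  have a3 := hL w hw1 fun u hu => hw3 u (List.mem_append_right _ hu)
  intro k
  constructor
  · rw [h.det p y p w hp hy hp hw1 h1 a1 rfl hw2.symm k,
      h.det p' y p' w hp' hy hp' hw1 h2 a2 rfl hw2.symm k]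
    exact (a3 k).1
  · have b1 : ¬ cn y p := fun h3 => h1 (hc.symm _ _ h3)
    have b2 : ¬ cn y p' := fun h3 => h2 (hc.symm _ _ h3)
    have b3 : ¬ cn w p := fun h3 => a1 (hc.symm _ _ h3)
    have b4 : ¬ cn w p' := fun h3 => a2 (hc.symm _ _ h3)
    rw [h.det y p w p hy hp hw1 hp b1 b3 hw2.symm rfl k,
      h.det y p' w p' hy hp' hw1 hp' b2 b4 hw2.symm rfl k]
    exact (a3 k).2

/-- the cones which contain rare labels -/
theorem Lab.fin (_h : Lab N cn R n l) : ∃ L : List α, ∀ y, N y → ¬ com N cn l (l y) →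
    ∃ u ∈ L, cn u y := by
  classical
  have hch : ∀ i : Fin n, ∃ L : List α, ¬ com N cn l i → ∀ y, N y → l y = i → ∃ u ∈ L, cn u y := by
    intro i
    by_cases hi : com N cn l i
    · exact ⟨[], fun h => absurd hi h⟩
    · have hi' := hi
      unfold com at hi'
      push Not at hi'
      obtain ⟨L, hL⟩ := hi'
      exact ⟨L, fun _ => hL⟩
  choose L hL using hch
  refine ⟨(List.finRange n).flatMap L, fun y hy hy' => ?_⟩
  obtain ⟨u, hu, hu'⟩ := hL (l y) hy' y hy rfl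
  exact ⟨u, List.mem_flatMap.2 ⟨l y, List.mem_finRange _, hu⟩, hu'⟩

/-- a rare element has a rare label -/
theorem Lab.rare_lab (h : Lab N cn R n l) (hc : CE N cn) {t : α} (ht : N t)
    (hr : rare N cn R t) : ¬ com N cn l (l t) := by
  obtain ⟨L, hL⟩ := hr
  intro hcom
  obtain ⟨y, hy1, hy2, hy3⟩ := hcom L
  obtain ⟨u, hu, hu'⟩ := hL y hy1 (h.wk hc ht hy1 hy2.symm)
  exact hy3 u hu hu'

/-- finitely many special cones -/
theorem Lab.spe_fin (h : Lab N cn R n l) (hc : CE N cn) : ∃ L : List α, (∀ u ∈ L, N u) ∧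
    ∀ y, N y → spe N cn R y → ∃ u ∈ L, cn u y := by
  classical
  obtain ⟨L, hL⟩ := h.fin
  refine ⟨L.filter (fun u => decide (N u)), fun u hu => by simpa using (List.mem_filter.1 hu).2,
    fun y hy hs => ?_⟩
  have key : ∀ u, N u → cn y u → ¬ com N cn l (l u) →
      ∃ v ∈ L.filter (fun u => decide (N u)), cn v y := by
    intro u hu hyu hcu
    obtain ⟨v, hv, hvu⟩ := hL u hu hcu
    have hvN : N v := hc.mem u v (hc.symm _ _ hvu) hu
    exact ⟨v, List.mem_filter.2 ⟨hv, by simpa using hvN⟩,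
      hc.trans _ _ _ hvu (hc.symm _ _ hyu)⟩
  rcases hs with ⟨u, h0, h1, h2⟩ | ⟨p, p', w, h1, h2, h3, h4, h5, h6, h7, h8⟩
  · exact key u h0 h1 (h.rare_lab hc h0 h2)
  · exact key w h4 h5 fun h9 => h8 (h.wk_com hc h1 h2 h3 h4 h9 h6 h7)

/-- weakly equivalent elements in a third non-special cone -/
theorem third (hc : CE N cn) {t : α} (ht : N t) (hs : ¬ spe N cn R t)
    (h : Lab N cn R n l) (L : List α) : ∃ v, N v ∧ ¬ spe N cn R v ∧ WD.wk N cn R t v ∧
    ∀ u ∈ L, ¬ cn u v := by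
  obtain ⟨L', -, hL'⟩ := h.spe_fin hc
  have hr : ¬ rare N cn R t := fun hr => hs (Or.inl ⟨t, ht, hc.refl t ht, hr⟩)
  unfold rare at hr
  push Not at hr
  obtain ⟨y, hy1, hy2, hy3⟩ := hr (L ++ L')
  refine ⟨y, hy1, fun hs' => ?_, hy2, fun u hu => hy3 u (List.mem_append_left _ hu)⟩
  obtain ⟨u, hu, hu'⟩ := hL' y hy1 hs'
  exact hy3 u (List.mem_append_right _ hu) hu'

/-- one step -/
theorem step (hc : CE N cn) {s u y : α} (hs : N s) (hu : N u)
    (hw : WD.wk N cn R s u) (hy : N y) (hys : ¬ spe N cn R y) (h1 : ¬ cn s y) (h2 : ¬ cn u y) :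
    WD.sm R s u y := by
  by_contra hcon
  exact hys (Or.inr ⟨s, u, y, hs, hu, hw, hy, hc.refl y hy, h1, h2, hcon⟩)

/-- Determinacy. -/
theorem EV_det (hc : CE N cn) (h : Lab N cn R n l) {s s' u u' : α} (hs : N s) (hs' : N s')
    (hu : N u) (hu' : N u') (h1 : ¬ cn s s') (h2 : ¬ cn u u') (e1 : EV N cn R s u)
    (e2 : EV N cn R s' u') (k : ℕ) : R k s s' ↔ R k u u' := by
  have ns : ∀ {a b : α}, ¬ cn a b → ¬ cn b a := fun h3 h4 => h3 (hc.symm _ _ h4)
  by_cases c1 : cn u s'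
  · by_cases c2 : cn s u'
    · -- the swapped case
      have n1 : ¬ spe N cn R s := by
        intro h3
        have h4 := e1.1 (Or.inl h3)
        exact h1 (hc.trans _ _ _ h4 c1)
      have n2 : ¬ spe N cn R u := by
        intro h3
        have h4 := e1.1 (Or.inr h3)
        exact h1 (hc.trans _ _ _ h4 c1)
      have n3 : ¬ spe N cn R s' := fun h3 => n2 (spe_cn hc (hc.symm _ _ c1) h3)
      have n4 : ¬ spe N cn R u' := fun h3 => n1 (spe_cn hc (hc.symm _ _ c2) h3)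
      obtain ⟨v, v1, v2, v3, v4⟩ := third hc hs n1 h [s, s', u, u']
      have a1 : ¬ cn s v := v4 s (by simp)
      have a2 : ¬ cn s' v := v4 s' (by simp)
      have a3 : ¬ cn u v := v4 u (by simp)
      have a4 : ¬ cn u' v := v4 u' (by simp)
      have b1 := step hc hs v1 v3 hs' n3 h1 (ns a2)
      have b2 := step hc hs' hu' (EV_wk e2) v1 v2 a2 a4
      have b3 := step hc v1 hu (wk_trans (wk_symm v3) (EV_wk e1)) hu' n4 (ns a4) h2
      exact ((b1 k).1.trans (b2 k).2).trans (b3 k).1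
    · -- through `(s, u')`
      have b1 : WD.sm R s' u' s := e2.2 s fun _ => ⟨ns h1, ns c2⟩
      have b2 : WD.sm R s u u' := e1.2 u' fun _ => ⟨c2, h2⟩
      exact (b1 k).2.trans (b2 k).1
  · -- through `(u, s')`
    have b1 : WD.sm R s u s' := e1.2 s' fun _ => ⟨h1, c1⟩
    have b2 : WD.sm R s' u' u := e2.2 u fun _ => ⟨ns c1, ns h2⟩
    exact (b1 k).1.trans (b2 k).2

/-- Finitely many classes. -/
theorem EV_fin (hc : CE N cn) (h : Lab N cn R n l) :
    ∃ F : List α, (∀ f ∈ F, N f) ∧ ∀ x, N x → ∃ f ∈ F, EV N cn R x f := by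
  classical
  obtain ⟨L, hLN, hL⟩ := h.spe_fin hc
  -- representatives of labels in each special cone and in the union of the others
  have hrep : ∀ (Q : α → Prop), ∃ F : List α, (∀ f ∈ F, N f ∧ Q f) ∧
      ∀ x, N x → Q x → ∃ f ∈ F, l x = l f := by
    intro Q
    have hch : ∀ i : Fin n, ∃ F : List α, (∀ f ∈ F, N f ∧ Q f) ∧
        ∀ x, N x → Q x → l x = i → ∃ f ∈ F, l x = l f := by
      intro i
      by_cases hi : ∃ x, N x ∧ Q x ∧ l x = i
      · obtain ⟨x, h1, h2, h3⟩ := hi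
        refine ⟨[x], fun f hf => ?_, fun y _ _ h4 => ⟨x, by simp, by rw [h3, h4]⟩⟩
        rw [List.mem_singleton] at hf
        rw [hf]
        exact ⟨h1, h2⟩
      · refine ⟨[], fun f hf => absurd hf (by simp), fun y h1 h2 h3 => ?_⟩
        exact absurd ⟨y, h1, h2, h3⟩ hi
    choose F hF1 hF2 using hch
    refine ⟨(List.finRange n).flatMap F, fun f hf => ?_, fun x h1 h2 => ?_⟩
    · obtain ⟨i, -, hi⟩ := List.mem_flatMap.1 hf
      exact hF1 i f hi
    · obtain ⟨f, hf, hf'⟩ := hF2 (l x) x h1 h2 rfl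
      exact ⟨f, List.mem_flatMap.2 ⟨l x, List.mem_finRange _, hf⟩, hf'⟩
  choose F hF1 hF2 using hrep
  refine ⟨F (fun x => ¬ spe N cn R x) ++ L.flatMap (fun u => F (fun x => cn u x)),
    fun f hf => ?_, fun x hx => ?_⟩
  · rcases List.mem_append.1 hf with h1 | h1
    · exact (hF1 _ f h1).1
    · obtain ⟨u, -, h2⟩ := List.mem_flatMap.1 h1
      exact (hF1 _ f h2).1
  · by_cases hs : spe N cn R x
    · obtain ⟨u, hu, hux⟩ := hL x hx hs
      obtain ⟨f, hf, hlf⟩ := hF2 (fun x => cn u x) x hx hux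
      obtain ⟨hfN, hfu⟩ := hF1 _ f hf
      have hxf : cn x f := hc.trans _ _ _ (hc.symm _ _ hux) hfu
      refine ⟨f, List.mem_append_right _ (List.mem_flatMap.2 ⟨u, hu, hf⟩), fun _ => hxf,
        fun y hy => ?_⟩
      by_cases hN : N y
      · exact h.sm hc hx hfN hN (hy hN).1 (hy hN).2 hlf
      · exact h.out x f hx hfN hlf y hN
    · obtain ⟨f, hf, hlf⟩ := hF2 (fun x => ¬ spe N cn R x) x hx hs
      obtain ⟨hfN, hfu⟩ := hF1 _ f hf
      refine ⟨f, List.mem_append_left _ hf, fun h1 => ?_, fun y hy => ?_⟩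
      · rcases h1 with h1 | h1
        · exact absurd h1 hs
        · exact absurd h1 hfu
      · by_cases hN : N y
        · exact h.sm hc hx hfN hN (hy hN).1 (hy hN).2 hlf
        · exact h.out x f hx hfN hlf y hN

end lab

/-! ### Transfer along surjections -/

section transfer

variable {α β : Type} {N : α → Prop} {cn : α → α → Prop} {R : ℕ → α → α → Prop}
  {N' : β → Prop} {cn' : β → β → Prop} {R' : ℕ → β → β → Prop} {π : α → β} {D : α → Prop}

/-- `π` is a surjection of the domain `D` which preserves everything; nothing happens outside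
`D` -/
structure Tr (N : α → Prop) (cn : α → α → Prop) (R : ℕ → α → α → Prop)
    (N' : β → Prop) (cn' : β → β → Prop) (R' : ℕ → β → β → Prop) (π : α → β)
    (D : α → Prop) : Prop where
  sur : ∀ b, ∃ x, D x ∧ π x = b
  n : ∀ x, D x → (N x ↔ N' (π x))
  n0 : ∀ x, N x → D x
  c : ∀ x y, D x → D y → (cn x y ↔ cn' (π x) (π y))
  c0 : ∀ x y, cn x y → D x ∧ D y
  r : ∀ k x y, D x → D y → (R k x y ↔ R' k (π x) (π y))
  r0 : ∀ k x y, R k x y → D x ∧ D y

theorem Tr.sm (h : Tr N cn R N' cn' R' π D) {t t' y : α} (ht : D t) (ht' : D t') (hy : D y) :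
    sm R t t' y ↔ WD.sm R' (π t) (π t') (π y) := by
  refine forall_congr' fun k => ?_
  rw [h.r k t y ht hy, h.r k t' y ht' hy, h.r k y t hy ht, h.r k y t' hy ht']

theorem Tr.sm0 (h : Tr N cn R N' cn' R' π D) {t t' y : α} (hy : ¬ D y) : WD.sm R t t' y :=
  fun k => ⟨iff_of_false (fun h1 => hy (h.r0 _ _ _ h1).2) (fun h1 => hy (h.r0 _ _ _ h1).2),
    iff_of_false (fun h1 => hy (h.r0 _ _ _ h1).1) (fun h1 => hy (h.r0 _ _ _ h1).1)⟩

theorem Tr.all (h : Tr N cn R N' cn' R' π D) {F : α → Prop} {F' : β → Prop}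
    (h1 : ∀ y, D y → (F y ↔ F' (π y))) (h0 : ∀ y, ¬ D y → F y) : (∀ y, F y) ↔ ∀ y, F' y := by
  constructor
  · intro h2 y
    obtain ⟨x, hx, rfl⟩ := h.sur y
    exact (h1 x hx).1 (h2 x)
  · intro h2 y
    by_cases hy : D y
    · exact (h1 y hy).2 (h2 _)
    · exact h0 y hy

theorem Tr.ex (h : Tr N cn R N' cn' R' π D) {F : α → Prop} {F' : β → Prop}
    (h1 : ∀ y, D y → (F y ↔ F' (π y))) (h0 : ∀ y, F y → D y) : (∃ y, F y) ↔ ∃ y, F' y := by
  constructor
  · rintro ⟨y, hy⟩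
    exact ⟨_, (h1 y (h0 y hy)).1 hy⟩
  · rintro ⟨y, hy⟩
    obtain ⟨x, hx, rfl⟩ := h.sur y
    exact ⟨x, (h1 x hx).2 hy⟩

/-- lists of representatives of cones -/
theorem Tr.li (h : Tr N cn R N' cn' R' π D) {F : (α → Prop) → Prop} {F' : (β → Prop) → Prop}
    (h1 : ∀ (c : α → Prop) (c' : β → Prop), (∀ y, D y → (c y ↔ c' (π y))) →
      (F c ↔ F' c')) :
    (∃ l : List α, F fun y => ∃ u, u ∈ l ∧ cn u y) ↔
      ∃ l : List β, F' fun y => ∃ u, u ∈ l ∧ cn' u y := by
  classical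
  constructor
  · rintro ⟨l, hl⟩
    refine ⟨(l.filter fun u => decide (D u)).map π, (h1 _ _ fun y hy => ?_).1 hl⟩
    constructor
    · rintro ⟨u, hu, huy⟩
      have hD := (h.c0 _ _ huy).1
      exact ⟨π u, List.mem_map.2 ⟨u, List.mem_filter.2 ⟨hu, by simpa using hD⟩, rfl⟩,
        (h.c u y hD hy).1 huy⟩
    · rintro ⟨u', hu', huy⟩
      obtain ⟨u, hu, rfl⟩ := List.mem_map.1 hu'
      obtain ⟨hu1, hu2⟩ := List.mem_filter.1 hu
      have hD : D u := by simpa using hu2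
      exact ⟨u, hu1, (h.c u y hD hy).2 huy⟩
  · rintro ⟨l, hl⟩
    choose s hs1 hs2 using h.sur
    refine ⟨l.map s, (h1 _ _ fun y hy => ?_).2 hl⟩
    constructor
    · rintro ⟨u', hu', huy⟩
      obtain ⟨u, hu, rfl⟩ := List.mem_map.1 hu'
      refine ⟨u, hu, ?_⟩
      have := (h.c _ y (hs1 u) hy).1 huy
      rwa [hs2] at this
    · rintro ⟨u, hu, huy⟩
      refine ⟨s u, List.mem_map.2 ⟨u, hu, rfl⟩, (h.c _ y (hs1 u) hy).2 ?_⟩
      rwa [hs2]

theorem wk_iff (t t' : α) : wk N cn R t t' ↔ (∀ y, ¬ N y → WD.sm R t t' y) ∧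
    ∃ l : List α, (fun c : α → Prop => ∀ y, N y → ¬ c y → WD.sm R t t' y)
      fun y => ∃ u, u ∈ l ∧ cn u y := by
  unfold wk
  refine and_congr_right fun _ => exists_congr fun l => forall_congr' fun y => ?_
  refine imp_congr_right fun _ => imp_congr_left ?_
  push Not
  exact Iff.rfl

theorem Tr.wk (h : Tr N cn R N' cn' R' π D) {t t' : α} (ht : D t) (ht' : D t') :
    WD.wk N cn R t t' ↔ WD.wk N' cn' R' (π t) (π t') := by
  rw [wk_iff, wk_iff]
  refine and_congr (h.all (fun y hy => ?_) fun y hy _ => h.sm0 hy) ?_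
  · rw [h.n y hy, h.sm ht ht' hy]
  · refine h.li (F := fun c => ∀ y, N y → ¬ c y → WD.sm R t t' y)
      (F' := fun c => ∀ y, N' y → ¬ c y → WD.sm R' (π t) (π t') y) fun c c' hc => ?_
    refine h.all (fun y hy => ?_) fun y hy _ _ => h.sm0 hy
    rw [h.n y hy, h.sm ht ht' hy, hc y hy]

theorem Tr.rare (h : Tr N cn R N' cn' R' π D) {t : α} (ht : D t) :
    WD.rare N cn R t ↔ WD.rare N' cn' R' (π t) := by
  refine h.li (F := fun c => ∀ y, N y → WD.wk N cn R t y → c y)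
    (F' := fun c => ∀ y, N' y → WD.wk N' cn' R' (π t) y → c y) fun c c' hc => ?_
  refine h.all (fun y hy => ?_) fun y hy hN => absurd (h.n0 y hN) hy
  rw [h.n y hy, h.wk ht hy, hc y hy]

theorem Tr.spe (h : Tr N cn R N' cn' R' π D) {t : α} (ht : D t) :
    WD.spe N cn R t ↔ WD.spe N' cn' R' (π t) := by
  unfold WD.spe
  refine or_congr ?_ ?_
  · refine h.ex (fun u hu => ?_) fun u hu => h.n0 _ hu.1
    rw [h.n u hu, h.c t u ht hu, h.rare hu]
  · refine h.ex (fun p hp => ?_) fun p ⟨p', y, hp, _⟩ => h.n0 _ hp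
    refine h.ex (fun p' hp' => ?_) fun p' ⟨y, hp, hp', _⟩ => h.n0 _ hp'
    refine h.ex (fun y hy => ?_) fun y hy => h.n0 _ hy.2.2.2.1
    rw [h.n p hp, h.n p' hp', h.wk hp hp', h.n y hy, h.c t y ht hy, h.c p y hp hy,
      h.c p' y hp' hy, h.sm hp hp' hy]

theorem Tr.EV (h : Tr N cn R N' cn' R' π D) {t t' : α} (ht : D t) (ht' : D t') :
    WD.EV N cn R t t' ↔ WD.EV N' cn' R' (π t) (π t') := by
  unfold WD.EV
  refine and_congr ?_ (h.all (fun y hy => ?_) fun y hy _ => h.sm0 hy)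
  · rw [h.spe ht, h.spe ht', h.c t t' ht ht']
  · rw [h.n y hy, h.c t y ht hy, h.c t' y ht' hy, h.sm ht ht' hy]

end transfer

end Pool.Agent.Run7.h201.CTR.WD
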