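import Pool.Agent.Run7.h201.CTR.T1a
import Pool.Agent.Run7.h201.CTR.Wid

set_option autoImplicit false

/-!
# Finite width along trees: the coded structures satisfy the law and have pointed cuts
-/

namespace Pool.Agent.Run7.h201.CTR.T3

open Set
open Pool.Agent.H566P (ar R2 lt ac co mk)
open Pool.Agent.Run7.h201.CS (E E_iff)
open Pool.Agent.Run7.h201.CTR
open Pool.Agent.Run7.h201.CTR.T1 (r q m p p' RE P len pp mt RR E6 eqv_iff ge_iff mt_symm mt_not
  mt_uniq RR_cmp chain_max chain_min)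

/-- the real elements above the chain -/
def NN (W : R2) (A : Set ℕ) (t : ℕ) : Prop := RE W t ∧ ∀ x, x ∈ A → lt W x t

/-- the same cone above the chain -/
def cA (W : R2) (A : Set ℕ) (t t' : ℕ) : Prop :=
  RE W t ∧ RE W t' ∧ ∃ w, NN W A w ∧ le W w t ∧ le W w t'

/-- the canonical equivalence of elements above the chain -/
def evA (W : R2) (A : Set ℕ) (t t' : ℕ) : Prop := WD.EV (NN W A) (cA W A) (RR W) t t'

/-- the same, for the elements above `v` -/
def ev (W : R2) (v t t' : ℕ) : Prop := evA W {v} t t'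

/-- the same relations to the elements which are not above `v` -/
def e0 (W : R2) (v t t' : ℕ) : Prop :=
  ∀ y, RE W y → ¬ lt W v y → ∀ k, (RR W k t y ↔ RR W k t' y) ∧ (RR W k y t ↔ RR W k y t')

theorem e0_symm {W : R2} {v t t' : ℕ} (h : e0 W v t t') : e0 W v t' t :=
  fun y hy hy' k => ⟨(h y hy hy' k).1.symm, (h y hy hy' k).2.symm⟩
theorem e0_trans {W : R2} {v t t' t'' : ℕ} (h : e0 W v t t') (h' : e0 W v t' t'') :
    e0 W v t t'' :=
  fun y hy hy' k => ⟨(h y hy hy' k).1.trans (h' y hy hy' k).1,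
    (h y hy hy' k).2.trans (h' y hy hy' k).2⟩

theorem NN_one {W : R2} {v t : ℕ} : NN W {v} t ↔ RE W t ∧ lt W v t := by
  unfold NN
  simp

/-- The axioms of the coded structures. -/
structure Ax (W : R2) : Prop where
  tp : TP W
  inf : ∀ l : List ℕ, ∃ x, RE W x ∧ ∀ y ∈ l, ¬ eqv W x y
  nd : ∀ x, ∃ a b, RE W a ∧ RE W b ∧ le W x a ∧ le W x b ∧
    ∀ z, le W z a → le W z b → le W z x
  sep : ∀ x y, lt W x y → ∃ c, RE W c ∧ lt W x c ∧ le W c y
  reb : ∀ x x', eqv W x x' → RE W x → RE W x'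
  rd : ∀ k x y, r W k x y → RE W x ∧ RE W y
  rc : ∀ x x', eqv W x x' → RE W x → ∀ y k, (r W k x y ↔ r W k x' y) ∧
    (r W k y x ↔ r W k y x') ∧ (P W k x ↔ P W k x')
  pd : ∀ k x, P W k x → RE W x
  qc : ∀ j x t t', eqv W t t' → q W j x t → q W j x t'
  ln : ∀ x, ∃ k, ∀ k', len W k' x ↔ k' = k
  qd : ∀ j x t, q W j x t → RE W t ∧ lt W x t ∧ ∃ k, len W k x ∧ j < k
  qe : ∀ x t, RE W t → lt W x t → ∃ j, q W j x t
  qf : ∀ k j x, len W k x → j < k → ∃ t, q W j x t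
  qg : ∀ j x t t', q W j x t → RE W t' → lt W x t' → (q W j x t' ↔ ev W x t t')
  mh : ∀ i j x y, m W i j x y ↔ le W x y ∧ ∃ t, q W i x t ∧ q W j y t
  ph : ∀ j k x y, p W j k x y ↔ le W x y ∧ ∃ t, q W j y t ∧ r W k x t
  ph' : ∀ j k x y, p' W j k x y ↔ le W x y ∧ ∃ t, q W j y t ∧ r W k t x
  pph : ∀ i j k x, pp W i j k x → ∃ a b, mt W a b x ∧ q W i x a ∧ q W j x b
  ppc : ∀ i j k x i' j' x' a b, eqv W x x' → mt W a b x → q W i x a → q W j x b →
    q W i' x' a → q W j' x' b → (pp W i j k x ↔ pp W i' j' k x')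
  rich : ∀ (x : ℕ) (ts av : List ℕ), (∀ t ∈ ts, RE W t ∧ lt W x t) →
    (∀ s, RE W s → lt W x s → ∃ t ∈ ts, ev W x s t) →
    ∃ x', x' ∉ av ∧ eqv W x x' ∧ len W ts.length x' ∧
      ∀ (j t : ℕ), ts[j]? = some t → q W j x' t

/-- Types of pairs of coded structures, for pairs in order. -/
theorem E6le {W W' : R2} (h : Ax W) (h' : Ax W') {x y x' y' : ℕ} (hxy : le W x y)
    (hxy' : le W' x' y')
    (hl : lt W x y ↔ lt W' x' y')
    (hr : ∀ k, r W k x y ↔ r W' k x' y') (hr' : ∀ k, r W k y x ↔ r W' k y' x')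
    (hq : ∀ j, q W j x y ↔ q W' j x' y')
    (hm : ∀ i j, m W i j x y ↔ m W' i j x' y')
    (hp : ∀ i k, p W i k x y ↔ p W' i k x' y')
    (hp' : ∀ i k, p' W i k x y ↔ p' W' i k x' y')
    (ho : ¬ lt W x y → (∀ i k, p W i k y x ↔ p W' i k y' x') ∧
      ∀ i k, p' W i k y x ↔ p' W' i k y' x') : E W W' x y x' y' := by
  have hn : ¬ lt W y x := fun h1 => h.tp.lt_not_le h1 hxy
  have hn' : ¬ lt W' y' x' := fun h1 => h'.tp.lt_not_le h1 hxy'
  have he : eqv W x y ↔ eqv W' x' y' := by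
    rw [eqv_iff h.tp hxy, eqv_iff h'.tp hxy', hl]
  have hg : le W y x ↔ le W' y' x' := by
    rw [ge_iff h.tp hxy, ge_iff h'.tp hxy', hl]
  refine E6.2 ⟨hl, iff_of_false hn hn', he, ?_, hr, hr', hq, fun j => iff_of_false
    (fun h1 => hn (h.qd _ _ _ h1).2.1) (fun h1 => hn' (h'.qd _ _ _ h1).2.1), hm,
    fun i j => ?_, hp, fun i k => ?_, hp', fun i k => ?_⟩
  · exact ⟨fun h1 => h'.tp.es _ _ (he.1 (h.tp.es _ _ h1)),
      fun h1 => h.tp.es _ _ (he.2 (h'.tp.es _ _ h1))⟩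
  · have e1 := hm j i
    rw [h.mh, h'.mh] at e1
    rw [h.mh, h'.mh]
    simp only [hxy, hxy', true_and] at e1
    refine and_congr hg ?_
    constructor
    · rintro ⟨t, h1, h2⟩
      obtain ⟨t', h3, h4⟩ := e1.1 ⟨t, h2, h1⟩
      exact ⟨t', h4, h3⟩
    · rintro ⟨t, h1, h2⟩
      obtain ⟨t', h3, h4⟩ := e1.2 ⟨t, h2, h1⟩
      exact ⟨t', h4, h3⟩
  · by_cases hlt : lt W x y
    · refine iff_of_false ?_ ?_
      · rw [h.ph]; exact fun h1 => h.tp.lt_not_le hlt h1.1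
      · rw [h'.ph]; exact fun h1 => h'.tp.lt_not_le (hl.1 hlt) h1.1
    · exact (ho hlt).1 i k
  · by_cases hlt : lt W x y
    · refine iff_of_false ?_ ?_
      · rw [h.ph']; exact fun h1 => h.tp.lt_not_le hlt h1.1
      · rw [h'.ph']; exact fun h1 => h'.tp.lt_not_le (hl.1 hlt) h1.1
    · exact (ho hlt).2 i k

section one

variable {W : R2} (h : Ax W) {x c y : ℕ}

include h

theorem ce (A : Set ℕ) : WD.CE (NN W A) (cA W A) where
  refl t ht := ⟨ht.1, ht.1, t, ht, h.tp.lr t, h.tp.lr t⟩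
  symm := fun t t' ⟨h1, h2, w, h3, h4, h5⟩ => ⟨h2, h1, w, h3, h5, h4⟩
  trans := by
    rintro t t' t'' ⟨h1, h2, w, h3, h4, h5⟩ ⟨-, h6, w', h7, h8, h9⟩
    rcases h.tp.lin' h5 h8 with h10 | h10
    · exact ⟨h1, h6, w, h3, h4, h.tp.le_trans h10 h9⟩
    · exact ⟨h1, h6, w', h7, h.tp.le_trans h10 h4, h9⟩
  mem := by
    rintro t t' ⟨h1, h2, w, h3, h4, h5⟩ -
    exact ⟨h2, fun x hx => h.tp.lt_le (h3.2 x hx) h5⟩

/-- nothing happens outside the real elements -/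
theorem RR_re {k a b : ℕ} (hr : RR W k a b) : RE W a ∧ RE W b := by
  rcases hr with hr | ⟨x, i, j, h1, h2, h3, h4⟩
  · exact h.rd _ _ _ hr
  · exact ⟨(h.qd _ _ _ h2).1, (h.qd _ _ _ h3).1⟩

theorem sm0 {t t' y : ℕ} (hy : ¬ RE W y) : WD.sm (RR W) t t' y := fun _ =>
  ⟨iff_of_false (fun h1 => hy (RR_re h h1).2) (fun h1 => hy (RR_re h h1).2),
    iff_of_false (fun h1 => hy (RR_re h h1).1) (fun h1 => hy (RR_re h h1).1)⟩

omit h in
theorem ev_e0 {t t' : ℕ} (he : ev W c t t') : e0 W c t t' := fun y _ hy' k =>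
  he.2 y (fun h1 => absurd (NN_one.1 h1).2 hy') k

/-- from a chain to an element with a greater element in the chain -/
theorem evA_lo {A : Set ℕ} {t t' v : ℕ} (hcx : lt W c v) (hv : v ∈ A) (ht : NN W A t)
    (ht' : NN W A t') (he : ∀ y, RE W y → ¬ NN W A y → WD.sm (RR W) t t' y) : ev W c t t' := by
  obtain ⟨w, w1, w2, w3⟩ := h.sep _ _ hcx
  have hw : NN W {c} w := NN_one.2 ⟨w1, w2⟩
  have c1 : ∀ {s}, NN W A s → le W w s := fun hs => h.tp.le_trans w3 (Or.inl (hs.2 v hv))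
  refine ⟨fun _ => ⟨ht.1, ht'.1, w, hw, c1 ht, c1 ht'⟩, fun y hy => ?_⟩
  by_cases hR : RE W y
  · refine he y hR fun hN => ?_
    have h1 : NN W {c} y := NN_one.2 ⟨hR, h.tp.lt_le w2 (c1 hN)⟩
    exact (hy h1).1 ⟨ht.1, hR, w, hw, c1 ht, c1 hN⟩
  · exact sm0 h hR

/-- the same for a greatest element -/
theorem evA_top {A : Set ℕ} {t t' : ℕ} (hc : c ∈ A) (hA : ∀ x ∈ A, le W x c) :
    evA W A t t' ↔ ev W c t t' := by
  have e1 : NN W A = NN W {c} := by
    funext s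
    refine propext ⟨fun hs => NN_one.2 ⟨hs.1, hs.2 c hc⟩, fun hs => ?_⟩
    have hs' := NN_one.1 hs
    exact ⟨hs'.1, fun x hx => h.tp.le_lt (hA x hx) hs'.2⟩
  have e2 : cA W A = cA W {c} := by
    funext s s'
    unfold cA
    rw [e1]
  unfold ev evA
  rw [e1, e2]

theorem ev_dn {t t' : ℕ} (hxc : le W x c) (ht : RE W t) (htc : lt W c t) (ht' : RE W t')
    (htc' : lt W c t') (he : ev W c t t') : ev W x t t' := by
  rcases hxc with hxc | hxc
  · refine evA_lo h hxc (mem_singleton c) (NN_one.2 ⟨ht, htc⟩) (NN_one.2 ⟨ht', htc'⟩)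
      fun y _ hy => he.2 y fun h1 => absurd h1 hy
  · have e : ∀ s, NN W {c} s ↔ NN W {x} s := by
      intro s
      rw [NN_one, NN_one]
      exact and_congr_right fun _ => ⟨fun h1 => h.tp.ell _ _ _ hxc h1,
        fun h1 => h.tp.ell _ _ _ (h.tp.es _ _ hxc) h1⟩
    have e1 : NN W {c} = NN W {x} := funext fun s => propext (e s)
    have e2 : cA W {c} = cA W {x} := by
      funext s s'
      unfold cA
      rw [e1]
    unfold ev evA at he ⊢
    rwa [e1, e2] at he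

theorem qq {j s t : ℕ} (h1 : q W j c s) (h2 : q W j c t) : ev W c s t :=
  (h.qg j c s t h1 (h.qd _ _ _ h2).1 (h.qd _ _ _ h2).2.1).1 h2

theorem r_blk (hcy : eqv W c y) (k : ℕ) : (r W k x c ↔ r W k x y) ∧ (r W k c x ↔ r W k y x) := by
  by_cases hc : RE W c
  · have := h.rc c y hcy hc x k
    exact ⟨this.2.1, this.1⟩
  · have hy : ¬ RE W y := fun h1 => hc (h.reb _ _ (h.tp.es _ _ hcy) h1)
    exact ⟨iff_of_false (fun h1 => hc (h.rd _ _ _ h1).2) (fun h1 => hy (h.rd _ _ _ h1).2),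
      iff_of_false (fun h1 => hc (h.rd _ _ _ h1).1) (fun h1 => hy (h.rd _ _ _ h1).1)⟩

/-- equivalent elements above `c` have the same relations to elements below `c` -/
theorem r_ev {s t : ℕ} (hxc : le W x c) (hs : lt W c s) (ht : lt W c t) (he : e0 W c s t)
    (k : ℕ) : (r W k x s ↔ r W k x t) ∧ (r W k s x ↔ r W k t x) := by
  by_cases hx : RE W x
  · have h1 := he x hx (fun h1 => h.tp.lt_not_le h1 hxc) k
    have hxs : le W x s := Or.inl (h.tp.le_lt hxc hs)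
    have hxt : le W x t := Or.inl (h.tp.le_lt hxc ht)
    rw [RR_cmp h.tp (Or.inr hxs), RR_cmp h.tp (Or.inr hxt), RR_cmp h.tp (Or.inl hxs),
      RR_cmp h.tp (Or.inl hxt)] at h1
    exact ⟨h1.2, h1.1⟩
  · exact ⟨iff_of_false (fun h1 => hx (h.rd _ _ _ h1).1) (fun h1 => hx (h.rd _ _ _ h1).1),
      iff_of_false (fun h1 => hx (h.rd _ _ _ h1).2) (fun h1 => hx (h.rd _ _ _ h1).2)⟩

/-- `r` by composition -/
theorem r_comp (hxc : le W x c) {j : ℕ} (hj : q W j c y) (k : ℕ) :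
    (r W k x y ↔ p W j k x c) ∧ (r W k y x ↔ p' W j k x c) := by
  rw [h.ph, h.ph']
  have hy := (h.qd _ _ _ hj).2.1
  refine ⟨⟨fun h1 => ⟨hxc, y, hj, h1⟩, ?_⟩, ⟨fun h1 => ⟨hxc, y, hj, h1⟩, ?_⟩⟩
  · rintro ⟨-, t, h1, h2⟩
    exact (r_ev h hxc (h.qd _ _ _ h1).2.1 hy (ev_e0 (qq h h1 hj)) k).1.1 h2
  · rintro ⟨-, t, h1, h2⟩
    exact (r_ev h hxc (h.qd _ _ _ h1).2.1 hy (ev_e0 (qq h h1 hj)) k).2.1 h2

/-- `q` by composition -/
theorem q_comp (hxc : le W x c) {i : ℕ} (hi : q W i c y) (j : ℕ) :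
    q W j x y ↔ m W j i x c := by
  rw [h.mh]
  refine ⟨fun h1 => ⟨hxc, y, h1, hi⟩, ?_⟩
  rintro ⟨-, t, h1, h2⟩
  have h4 := h.qd _ _ _ hi
  have h5 := h.qd _ _ _ h2
  have h3 := ev_dn h hxc h5.1 h5.2.1 h4.1 h4.2.1 (qq h h2 hi)
  exact (h.qg j x t y h1 h4.1 (h.tp.le_lt hxc h4.2.1)).2 h3

/-- `m` by composition -/
theorem m_comp (hxc : le W x c) (hcy : le W c y) (i j : ℕ) :
    m W i j x y ↔ ∃ k, m W i k x c ∧ m W k j c y := by
  constructor
  · intro h1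
    obtain ⟨-, t, h2, h3⟩ := (h.mh _ _ _ _).1 h1
    have h4 := h.qd _ _ _ h3
    obtain ⟨k, hk⟩ := h.qe c t h4.1 (h.tp.le_lt hcy h4.2.1)
    exact ⟨k, (h.mh _ _ _ _).2 ⟨hxc, t, h2, hk⟩, (h.mh _ _ _ _).2 ⟨hcy, t, hk, h3⟩⟩
  · rintro ⟨k, h1, h2⟩
    obtain ⟨-, t, h3, h4⟩ := (h.mh _ _ _ _).1 h2
    exact (h.mh _ _ _ _).2 ⟨h.tp.le_trans hxc hcy, t, (q_comp h hxc h3 i).2 h1, h4⟩

/-- `p` by composition -/
theorem p_comp (hxc : le W x c) (hcy : le W c y) (j k : ℕ) :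
    (p W j k x y ↔ ∃ i, p W i k x c ∧ m W i j c y) ∧
    (p' W j k x y ↔ ∃ i, p' W i k x c ∧ m W i j c y) := by
  refine ⟨⟨fun h1 => ?_, ?_⟩, ⟨fun h1 => ?_, ?_⟩⟩
  · obtain ⟨-, t, h2, h3⟩ := (h.ph _ _ _ _).1 h1
    have h4 := h.qd _ _ _ h2
    obtain ⟨i, hi⟩ := h.qe c t h4.1 (h.tp.le_lt hcy h4.2.1)
    exact ⟨i, (h.ph _ _ _ _).2 ⟨hxc, t, hi, h3⟩, (h.mh _ _ _ _).2 ⟨hcy, t, hi, h2⟩⟩
  · rintro ⟨i, h1, h2⟩
    obtain ⟨-, t, h3, h4⟩ := (h.mh _ _ _ _).1 h2
    exact (h.ph _ _ _ _).2 ⟨h.tp.le_trans hxc hcy, t, h4, (r_comp h hxc h3 k).1.2 h1⟩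
  · obtain ⟨-, t, h2, h3⟩ := (h.ph' _ _ _ _).1 h1
    have h4 := h.qd _ _ _ h2
    obtain ⟨i, hi⟩ := h.qe c t h4.1 (h.tp.le_lt hcy h4.2.1)
    exact ⟨i, (h.ph' _ _ _ _).2 ⟨hxc, t, hi, h3⟩, (h.mh _ _ _ _).2 ⟨hcy, t, hi, h2⟩⟩
  · rintro ⟨i, h1, h2⟩
    obtain ⟨-, t, h3, h4⟩ := (h.mh _ _ _ _).1 h2
    exact (h.ph' _ _ _ _).2 ⟨h.tp.le_trans hxc hcy, t, h4, (r_comp h hxc h3 k).2.2 h1⟩

/-- the converse direction of `p` inside a block -/
theorem p_back (hxc : eqv W x c) (hcy : eqv W c y) (j k : ℕ) :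
    (p W j k y x ↔ p W j k c x) ∧ (p' W j k y x ↔ p' W j k c x) := by
  rw [h.ph, h.ph, h.ph', h.ph']
  have h1 : le W y x := Or.inr (h.tp.es _ _ (h.tp.et _ _ _ hxc hcy))
  have h2 : le W c x := Or.inr (h.tp.es _ _ hxc)
  simp only [h1, h2, true_and]
  exact ⟨exists_congr fun t => and_congr_right fun _ => ((r_blk h (x := t) hcy k).2).symm,
    exists_congr fun t => and_congr_right fun _ => ((r_blk h (x := t) hcy k).1).symm⟩

theorem re_iff (hcy : lt W c y) : RE W y ↔ ∃ j, q W j c y :=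
  ⟨fun h1 => h.qe c y h1 hcy, fun ⟨_, hj⟩ => (h.qd _ _ _ hj).1⟩

end one

/-- The law. -/
theorem law {W W' : R2} (h : Ax W) (h' : Ax W') : Law W W' := by
  intro x c y x' c' y' hxc hcy h1 h2
  have hxc' : le W' x' c' := (E_le h1).1 hxc
  have hcy' : le W' c' y' := (E_le h2).1 hcy
  have hxy := h.tp.le_trans hxc hcy
  have hxy' := h'.tp.le_trans hxc' hcy'
  have h1' := h1
  have h2' := h2
  rw [E6] at h1' h2'
  obtain ⟨a1, a2, a0, a0', a3, a4, a5, a6, a7, a8, a9, a10, a11, a12⟩ := h1'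
  obtain ⟨b1, b2, b0, b0', b3, b4, b5, b6, b7, b8, b9, b10, b11, b12⟩ := h2'
  have key : ∀ {V : R2} (hV : Ax V) {x c y : ℕ}, le V x c → le V c y →
      (lt V x y ↔ lt V x c ∨ lt V c y) := by
    intro V hV x c y g1 g2
    constructor
    · intro g3
      by_contra hcon
      rw [not_or] at hcon
      have e1 := (eqv_iff hV.tp g1).2 hcon.1
      have e2 := (eqv_iff hV.tp g2).2 hcon.2
      exact hV.tp.lt_eqv g3 (hV.tp.et _ _ _ e1 e2)
    · rintro (g3 | g3)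
      · exact hV.tp.lt_le g3 g2
      · exact hV.tp.le_lt g1 g3
  have hl : lt W x y ↔ lt W' x' y' := by
    rw [key h hxc hcy, key h' hxc' hcy', a1, b1]
  have hre : lt W c y → (RE W y ↔ RE W' y') := by
    intro g
    rw [re_iff h g, re_iff h' (b1.1 g)]
    exact exists_congr b5
  have hrr : ∀ k, (r W k x y ↔ r W' k x' y') ∧ (r W k y x ↔ r W' k y' x') := by
    intro k
    by_cases hc : lt W c y
    · by_cases hy : RE W y
      · obtain ⟨j, hj⟩ := h.qe c y hy hc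
        have hj' := (b5 j).1 hj
        rw [(r_comp h hxc hj k).1, (r_comp h hxc hj k).2, (r_comp h' hxc' hj' k).1,
          (r_comp h' hxc' hj' k).2]
        exact ⟨a9 j k, a11 j k⟩
      · have hy' : ¬ RE W' y' := fun g => hy ((hre hc).2 g)
        exact ⟨iff_of_false (fun g => hy (h.rd _ _ _ g).2) (fun g => hy' (h'.rd _ _ _ g).2),
          iff_of_false (fun g => hy (h.rd _ _ _ g).1) (fun g => hy' (h'.rd _ _ _ g).1)⟩
    · have e1 := r_blk h (x := x) ((eqv_iff h.tp hcy).2 hc) k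
      have e2 := r_blk h' (x := x') ((eqv_iff h'.tp hcy').2 fun g => hc (b1.2 g)) k
      rw [← e1.1, ← e1.2, ← e2.1, ← e2.2]
      exact ⟨a3 k, a4 k⟩
  refine E6le h h' hxy hxy' hl (fun k => (hrr k).1) (fun k => (hrr k).2) ?_ ?_ ?_ ?_ ?_
  · intro j
    by_cases hc : lt W c y
    · by_cases hy : RE W y
      · obtain ⟨i, hi⟩ := h.qe c y hy hc
        have hi' := (b5 i).1 hi
        rw [q_comp h hxc hi j, q_comp h' hxc' hi' j]
        exact a7 j i
      · have hy' : ¬ RE W' y' := fun g => hy ((hre hc).2 g)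
        exact iff_of_false (fun g => hy (h.qd _ _ _ g).1) (fun g => hy' (h'.qd _ _ _ g).1)
    · have e1 := (eqv_iff h.tp hcy).2 hc
      have e2 := (eqv_iff h'.tp hcy').2 fun g => hc (b1.2 g)
      constructor
      · exact fun g => h'.qc _ _ _ _ e2 ((a5 j).1 (h.qc _ _ _ _ (h.tp.es _ _ e1) g))
      · exact fun g => h.qc _ _ _ _ e1 ((a5 j).2 (h'.qc _ _ _ _ (h'.tp.es _ _ e2) g))
  · intro i j
    rw [m_comp h hxc hcy, m_comp h' hxc' hcy']
    exact exists_congr fun k => and_congr (a7 i k) (b7 k j)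
  · intro i k
    rw [(p_comp h hxc hcy i k).1, (p_comp h' hxc' hcy' i k).1]
    exact exists_congr fun j => and_congr (a9 j k) (b7 j i)
  · intro i k
    rw [(p_comp h hxc hcy i k).2, (p_comp h' hxc' hcy' i k).2]
    exact exists_congr fun j => and_congr (a11 j k) (b7 j i)
  · intro hn
    have hn' : ¬ lt W' x' y' := fun g => hn (hl.2 g)
    have g1 := not_or.1 (fun g => hn ((key h hxc hcy).2 g))
    have g2 := not_or.1 (fun g => hn' ((key h' hxc' hcy').2 g))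
    have e1 := (eqv_iff h.tp hxc).2 g1.1
    have e2 := (eqv_iff h.tp hcy).2 g1.2
    have e3 := (eqv_iff h'.tp hxc').2 g2.1
    have e4 := (eqv_iff h'.tp hcy').2 g2.2
    refine ⟨fun i k => ?_, fun i k => ?_⟩
    · rw [(p_back h e1 e2 i k).1, (p_back h' e3 e4 i k).1]
      exact a10 i k
    · rw [(p_back h e1 e2 i k).2, (p_back h' e3 e4 i k).2]
      exact a12 i k

/-- the same relations to the elements which are not above the chain -/
def eA (W : R2) (A : Set ℕ) (t t' : ℕ) : Prop :=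
  ∀ y, RE W y → ¬ NN W A y → ∀ k, (RR W k t y ↔ RR W k t' y) ∧ (RR W k y t ↔ RR W k y t')

theorem eA_symm {W : R2} {A : Set ℕ} {t t' : ℕ} (h : eA W A t t') : eA W A t' t :=
  fun y hy hy' k => ⟨(h y hy hy' k).1.symm, (h y hy hy' k).2.symm⟩
theorem eA_trans {W : R2} {A : Set ℕ} {t t' t'' : ℕ} (h : eA W A t t') (h' : eA W A t' t'') :
    eA W A t t'' :=
  fun y hy hy' k => ⟨(h y hy hy' k).1.trans (h' y hy hy' k).1,
    (h y hy hy' k).2.trans (h' y hy hy' k).2⟩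

theorem eA_e0 {W : R2} {A : Set ℕ} {x s s' : ℕ} (hx : x ∈ A) (h : eA W A s s') :
    e0 W x s s' := fun y hy hy' k => h y hy (fun h1 => hy' (h1.2 x hx)) k

theorem evA_eA {W : R2} {A : Set ℕ} {s s' : ℕ} (h : evA W A s s') : eA W A s s' :=
  fun y _ hy' k => h.2 y (fun h1 => absurd h1 hy') k

/-- finitely many classes above every chain -/
def FI (W : R2) : Prop := ∀ A : Set ℕ, (∀ x ∈ A, ∀ y ∈ A, le W x y ∨ le W y x) →
  ∃ F : Set ℕ, F.Finite ∧ (∀ f ∈ F, NN W A f) ∧ ∀ x, NN W A x → ∃ f ∈ F, evA W A x f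

/-- a point of the chain which decides the types above the chain -/
theorem cut_lo {W : R2} (hW : TP W) (hF : FI W) {A : Set ℕ}
    (hA : ∀ x ∈ A, ∀ y ∈ A, le W x y ∨ le W y x) (hne : A.Nonempty) :
    ∃ a ∈ A, ∀ s, NN W A s → ∀ s', NN W A s' → e0 W a s s' → eA W A s s' := by
  obtain ⟨F, hF1, hF2, hF3⟩ := hF A hA
  obtain ⟨x0, hx0⟩ := hne
  have hwit : ∀ f f' : ℕ, ∃ x, x ∈ A ∧ (e0 W x f f' → eA W A f f') := by
    intro f f'
    by_cases h : eA W A f f'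
    · exact ⟨x0, hx0, fun _ => h⟩
    · simp only [eA, not_forall] at h
      obtain ⟨y, hy, hyN, k, hk⟩ := h
      have h1 : ∃ x ∈ A, ¬ lt W x y := by
        by_contra hcon
        push Not at hcon
        exact hyN ⟨hy, hcon⟩
      obtain ⟨x, hx, hxy⟩ := h1
      exact ⟨x, hx, fun h2 => absurd (h2 y hy hxy k) hk⟩
  choose wt hwt1 hwt2 using hwit
  set T : Set ℕ := insert x0 ((fun P : ℕ × ℕ => wt P.1 P.2) '' (F ×ˢ F)) with hT
  have hTf : T.Finite := ((hF1.prod hF1).image _).insert _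
  have hTA : ∀ x ∈ T, x ∈ A := by
    rintro x (hx | ⟨⟨f, f'⟩, -, hx⟩)
    · rw [hx]; exact hx0
    · rw [← hx]; exact hwt1 f f'
  obtain ⟨a, ha, ha'⟩ := chain_max hW hTf ⟨x0, mem_insert _ _⟩
    fun x hx y hy => hA x (hTA x hx) y (hTA y hy)
  refine ⟨a, hTA a ha, fun s hs s' hs' hss => ?_⟩
  obtain ⟨f, hf, hsf⟩ := hF3 s hs
  obtain ⟨f', hf', hsf'⟩ := hF3 s' hs'
  have hff : eA W A f f' := by
    refine hwt2 f f' ?_
    have h1 := eA_e0 (hwt1 f f') (evA_eA hsf)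
    have h2 := eA_e0 (hwt1 f f') (evA_eA hsf')
    have h3 : e0 W (wt f f') s s' := fun z hz hz' k => hss z hz (fun h4 =>
      hz' (hW.le_lt (ha' _ (mem_insert_of_mem _ ⟨(f, f'), ⟨hf, hf'⟩, rfl⟩)) h4)) k
    exact e0_trans (e0_symm h1) (e0_trans h3 h2)
  exact eA_trans (evA_eA hsf) (eA_trans hff (eA_symm (evA_eA hsf')))

/-- a point above the cut such that all types are realised above it -/
theorem cut_hi {W : R2} (hW' : Ax W) (hF : FI W) {C A : Set ℕ}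
    (hC : ∀ x ∈ C, ∀ y ∈ C, le W x y ∨ le W y x) (hAC : A ⊆ C)
    (hcut : ∀ x ∈ A, ∀ y ∈ C, y ∉ A → lt W x y) (hne : (C \ A).Nonempty) :
    ∃ b ∈ C \ A, (∀ w ∈ C \ A, le W b w) ∨ ∀ w ∈ C \ A, ∀ t, RE W t → le W w t →
      ∃ t', RE W t' ∧ lt W b t' ∧ evA W A t t' := by
  have hW := hW'.tp
  have hce := ce hW' A
  obtain ⟨F, hF1, hF2, hF3⟩ := hF A fun x hx y hy => hC x (hAC hx) y (hAC hy)
  obtain ⟨w0, hw0⟩ := hne
  have hwit : ∀ f : ℕ, ∃ w t, w ∈ C \ A ∧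
      ((∃ w ∈ C \ A, ∃ t, RE W t ∧ le W w t ∧ evA W A t f) → RE W t ∧ le W w t ∧ evA W A t f) := by
    intro f
    by_cases h : ∃ w ∈ C \ A, ∃ t, RE W t ∧ le W w t ∧ evA W A t f
    · obtain ⟨w, hw, t, ht⟩ := h
      exact ⟨w, t, hw, fun _ => ht⟩
    · exact ⟨w0, 0, hw0, fun h1 => absurd h1 h⟩
  choose wt tt hwt1 hwt2 using hwit
  set T : Set ℕ := insert w0 (wt '' F) with hT
  have hTf : T.Finite := (hF1.image _).insert _
  have hTC : ∀ x ∈ T, x ∈ C \ A := by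
    rintro x (hx | ⟨f, -, hx⟩)
    · rw [hx]; exact hw0
    · rw [← hx]; exact hwt1 f
  obtain ⟨b0, hb0, hb0'⟩ := chain_min hW hTf ⟨w0, mem_insert _ _⟩
    fun x hx y hy => hC x (hTC x hx).1 y (hTC y hy).1
  by_cases h : ∀ w ∈ C \ A, le W b0 w
  · exact ⟨b0, hTC b0 hb0, Or.inl h⟩
  · push Not at h
    obtain ⟨b, hb, hbb⟩ := h
    have hlt : lt W b b0 := by
      rcases hC b hb.1 b0 (hTC b0 hb0).1 with h1 | h1
      · exact hW.lt_of h1 hbb
      · exact absurd h1 hbb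
    refine ⟨b, hb, Or.inr fun w hw t ht hwt => ?_⟩
    have htN : NN W A t := ⟨ht, fun x hx => hW.lt_le (hcut x hx w hw.1 hw.2) hwt⟩
    obtain ⟨f, hf, htf⟩ := hF3 t htN
    obtain ⟨k1, k2, k3⟩ := hwt2 f ⟨w, hw, t, ht, hwt, htf⟩
    have k4 : NN W A (tt f) := ⟨k1, fun x hx => hW.lt_le
      (hcut x hx _ (hwt1 f).1 (hwt1 f).2) k2⟩
    exact ⟨tt f, k1, hW.lt_le hlt (hW.le_trans (hb0' _ (mem_insert_of_mem _ ⟨f, hf, rfl⟩)) k2),
      WD.EV_trans hce htN k4 htf (WD.EV_symm hce k3)⟩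

/-- Cuts are pointed. -/
theorem pcut {W : R2} (h : Ax W) (hF : FI W) : PC W := by
  intro C A hC1 hC2 hAC hcut hne hne'
  have hW := h.tp
  have hLaw := law h h
  have hchA : ∀ x ∈ A, ∀ y ∈ A, le W x y ∨ le W y x := fun x hx y hy =>
    hC2 x (hAC hx) y (hAC hy)
  have hNA : ∀ w ∈ C \ A, ∀ t, RE W t → le W w t → NN W A t := fun w hw t ht hwt =>
    ⟨ht, fun x hx => hW.lt_le (hcut x hx w hw.1 hw.2) hwt⟩
  -- relations to elements of the chain
  have hrA : ∀ z ∈ A, ∀ s, NN W A s → ∀ t, NN W A t → eA W A s t → ∀ k,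
      (r W k z s ↔ r W k z t) ∧ (r W k s z ↔ r W k t z) := fun z hz s hs t ht he k =>
    r_ev h (hW.lr z) (hs.2 z hz) (ht.2 z hz) (eA_e0 hz he) k
  have hqe : ∀ z ∈ A, ∀ s, NN W A s → ∀ t, NN W A t → ev W z s t → ∀ j,
      (q W j z s ↔ q W j z t) := by
    intro z hz s hs t ht he j
    constructor
    · exact fun h1 => (h.qg j z s t h1 ht.1 (ht.2 z hz)).2 he
    · exact fun h1 => (h.qg j z t s h1 hs.1 (hs.2 z hz)).2 (WD.EV_symm (ce h {z}) he)
  have hqA : ∀ z ∈ A, (∃ v ∈ A, lt W z v) → ∀ s, NN W A s → ∀ t, NN W A t → eA W A s t →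
      ∀ j, (q W j z s ↔ q W j z t) := by
    rintro z hz ⟨v, hv, hzv⟩ s hs t ht he j
    exact hqe z hz s hs t ht (evA_lo h hzv hv hs ht fun y hy hy' => he y hy hy') j
  have hqB : ∀ z ∈ A, ∀ s, NN W A s → ∀ t, NN W A t → evA W A s t →
      ∀ j, (q W j z s ↔ q W j z t) := by
    intro z hz s hs t ht he j
    by_cases hv : ∃ v ∈ A, lt W z v
    · exact hqA z hz hv s hs t ht (evA_eA he) j
    · refine hqe z hz s hs t ht ((evA_top h hz fun x hx => ?_).1 he) j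
      rcases hchA x hx z hz with h1 | h1
      · exact h1
      · rcases hW.lt_or h1 with h2 | h2
        · exact absurd ⟨x, hx, h2⟩ hv
        · exact h2
  constructor
  · obtain ⟨b, hb, hb'⟩ := cut_hi h hF hC2 hAC hcut hne'
    refine ⟨b, hb, fun z hz z' hz' hE w hw => ?_⟩
    have lzb : lt W z b := hcut z hz b hb.1 hb.2
    have lzb' : lt W z' b := hcut z' hz' b hb.1 hb.2
    have lzw : lt W z w := hcut z hz w hw.1 hw.2
    have lzw' : lt W z' w := hcut z' hz' w hw.1 hw.2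
    rcases hb' with hb' | hb'
    · exact hLaw z b w z' b w (Or.inl lzb) (hb' w hw) hE E.rfl
    obtain ⟨-, -, -, -, -, -, -, -, e7, -, e9, -, e11, -⟩ := E6.1 hE
    -- the relations to the elements above the cut
    have key : ∀ t, RE W t → le W w t → (∀ k, (r W k z t ↔ r W k z' t) ∧
        (r W k t z ↔ r W k t z')) ∧ ∀ j, (q W j z t ↔ q W j z' t) := by
      intro t ht hwt
      have htN := hNA w hw t ht hwt
      obtain ⟨t', h1, h2, h3⟩ := hb' w hw t ht hwt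
      have htN' := hNA b hb t' h1 (Or.inl h2)
      obtain ⟨j, hj⟩ := h.qe b t' h1 h2
      refine ⟨fun k => ?_, fun i => ?_⟩
      · rw [(hrA z hz t htN t' htN' (evA_eA h3) k).1, (hrA z hz t htN t' htN' (evA_eA h3) k).2,
          (hrA z' hz' t htN t' htN' (evA_eA h3) k).1,
          (hrA z' hz' t htN t' htN' (evA_eA h3) k).2,
          (r_comp h (Or.inl lzb) hj k).1, (r_comp h (Or.inl lzb) hj k).2,
          (r_comp h (Or.inl lzb') hj k).1, (r_comp h (Or.inl lzb') hj k).2]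
        exact ⟨e9 j k, e11 j k⟩
      · rw [hqB z hz t htN t' htN' h3 i, hqB z' hz' t htN t' htN' h3 i,
          q_comp h (Or.inl lzb) hj i, q_comp h (Or.inl lzb') hj i]
        exact e7 i j
    have hcl : ∀ j t, q W j w t → RE W t ∧ le W w t := fun j t h1 =>
      ⟨(h.qd _ _ _ h1).1, Or.inl (h.qd _ _ _ h1).2.1⟩
    have hrw : ∀ k, (r W k z w ↔ r W k z' w) ∧ (r W k w z ↔ r W k w z') := by
      intro k
      by_cases hwR : RE W w
      · exact (key w hwR (hW.lr w)).1 k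
      · exact ⟨iff_of_false (fun g => hwR (h.rd _ _ _ g).2) (fun g => hwR (h.rd _ _ _ g).2),
          iff_of_false (fun g => hwR (h.rd _ _ _ g).1) (fun g => hwR (h.rd _ _ _ g).1)⟩
    refine E6le h h (Or.inl lzw) (Or.inl lzw') (iff_of_true lzw lzw')
      (fun k => (hrw k).1) (fun k => (hrw k).2) ?_ ?_ ?_ ?_ (fun h1 => absurd lzw h1)
    · intro j
      by_cases hwR : RE W w
      · exact (key w hwR (hW.lr w)).2 j
      · exact iff_of_false (fun g => hwR (h.qd _ _ _ g).1) (fun g => hwR (h.qd _ _ _ g).1)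
    · intro i j
      rw [h.mh, h.mh]
      simp only [show le W z w from Or.inl lzw, show le W z' w from Or.inl lzw', true_and]
      exact exists_congr fun t => and_congr_left fun h1 =>
        (key t (hcl j t h1).1 (hcl j t h1).2).2 i
    · intro j k
      rw [h.ph, h.ph]
      simp only [show le W z w from Or.inl lzw, show le W z' w from Or.inl lzw', true_and]
      exact exists_congr fun t => and_congr_right fun h1 =>
        ((key t (hcl j t h1).1 (hcl j t h1).2).1 k).1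
    · intro j k
      rw [h.ph', h.ph']
      simp only [show le W z w from Or.inl lzw, show le W z' w from Or.inl lzw', true_and]
      exact exists_congr fun t => and_congr_right fun h1 =>
        ((key t (hcl j t h1).1 (hcl j t h1).2).1 k).2
  · by_cases hmax : ∃ v ∈ A, ∀ x ∈ A, le W x v
    · obtain ⟨v, hv, hv'⟩ := hmax
      refine ⟨v, hv, fun w hw w' hw' hE z hz => ?_⟩
      exact hLaw z v w z v w' (hv' z hz) (Or.inl (hcut v hv w hw.1 hw.2)) E.rfl hE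
    have hlt : ∀ z ∈ A, ∃ v ∈ A, lt W z v := by
      intro z hz
      by_contra hcon
      push Not at hcon
      refine hmax ⟨z, hz, fun x hx => ?_⟩
      rcases hchA x hx z hz with h1 | h1
      · exact h1
      · rcases hW.lt_or h1 with h2 | h2
        · exact absurd h2 (hcon x hx)
        · exact h2
    obtain ⟨a, ha, ha'⟩ := cut_lo hW hF hchA hne
    refine ⟨a, ha, fun w hw w' hw' hE z hz => ?_⟩
    have law' := hcut a ha w hw.1 hw.2
    have law'' := hcut a ha w' hw'.1 hw'.2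
    have lzw : lt W z w := hcut z hz w hw.1 hw.2
    have lzw' : lt W z w' := hcut z hz w' hw'.1 hw'.2
    rcases hchA z hz a ha with hza | hza
    · exact hLaw z a w z a w' hza (Or.inl law') E.rfl hE
    obtain ⟨-, -, -, -, -, -, e5, -, e7, -, -, -, -, -⟩ := E6.1 hE
    have hRE : RE W w ↔ RE W w' := by
      rw [re_iff h law', re_iff h law'']
      exact exists_congr e5
    -- the elements themselves
    have hww : RE W w → RE W w' → eA W A w w' := by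
      intro h1 h2
      obtain ⟨j, hj⟩ := h.qe a w h1 law'
      exact ha' w (hNA w hw w h1 (hW.lr _)) w' (hNA w' hw' w' h2 (hW.lr _))
        (ev_e0 (qq h hj ((e5 j).1 hj)))
    -- the classes
    have hcl : ∀ w ∈ C \ A, ∀ w' ∈ C \ A, (∀ i j, m W i j a w ↔ m W i j a w') →
        ∀ j t, q W j w t → ∃ t', q W j w' t' ∧ NN W A t ∧ NN W A t' ∧ eA W A t t' := by
      intro w hw w' hw' e7 j t ht
      have g1 := h.qd _ _ _ ht
      have law' := hcut a ha w hw.1 hw.2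
      obtain ⟨k, hk⟩ := h.qe a t g1.1 (hW.tr _ _ _ law' g1.2.1)
      obtain ⟨-, t', h1, h2⟩ := (h.mh _ _ _ _).1 ((e7 k j).1 ((h.mh _ _ _ _).2
        ⟨Or.inl law', t, hk, ht⟩))
      have g2 := h.qd _ _ _ h2
      have n1 := hNA w hw t g1.1 (Or.inl g1.2.1)
      have n2 := hNA w' hw' t' g2.1 (Or.inl g2.2.1)
      exact ⟨t', h2, n1, n2, ha' t n1 t' n2 (ev_e0 (qq h hk h1))⟩
    have c1 := hcl w hw w' hw' e7
    have c2 := hcl w' hw' w hw (fun i j => (e7 i j).symm)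
    have hrw : ∀ k, (r W k z w ↔ r W k z w') ∧ (r W k w z ↔ r W k w' z) := by
      intro k
      by_cases hwR : RE W w
      · have hwR' := hRE.1 hwR
        exact hrA z hz w (hNA w hw w hwR (hW.lr _)) w' (hNA w' hw' w' hwR' (hW.lr _))
          (hww hwR hwR') k
      · have hwR' : ¬ RE W w' := fun g => hwR (hRE.2 g)
        exact ⟨iff_of_false (fun g => hwR (h.rd _ _ _ g).2) (fun g => hwR' (h.rd _ _ _ g).2),
          iff_of_false (fun g => hwR (h.rd _ _ _ g).1) (fun g => hwR' (h.rd _ _ _ g).1)⟩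
    refine E6le h h (Or.inl lzw) (Or.inl lzw') (iff_of_true lzw lzw')
      (fun k => (hrw k).1) (fun k => (hrw k).2) ?_ ?_ ?_ ?_ (fun h1 => absurd lzw h1)
    · intro j
      by_cases hwR : RE W w
      · have hwR' := hRE.1 hwR
        exact hqA z hz (hlt z hz) w (hNA w hw w hwR (hW.lr _)) w' (hNA w' hw' w' hwR' (hW.lr _))
          (hww hwR hwR') j
      · have hwR' : ¬ RE W w' := fun g => hwR (hRE.2 g)
        exact iff_of_false (fun g => hwR (h.qd _ _ _ g).1) (fun g => hwR' (h.qd _ _ _ g).1)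
    · intro i j
      rw [h.mh, h.mh]
      simp only [show le W z w from Or.inl lzw, show le W z w' from Or.inl lzw', true_and]
      constructor
      · rintro ⟨t, h1, h2⟩
        obtain ⟨t', g1, g2, g3, g4⟩ := c1 j t h2
        exact ⟨t', (hqA z hz (hlt z hz) t g2 t' g3 g4 i).1 h1, g1⟩
      · rintro ⟨t, h1, h2⟩
        obtain ⟨t', g1, g2, g3, g4⟩ := c2 j t h2
        exact ⟨t', (hqA z hz (hlt z hz) t g2 t' g3 g4 i).1 h1, g1⟩
    · intro j k
      rw [h.ph, h.ph]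
      simp only [show le W z w from Or.inl lzw, show le W z w' from Or.inl lzw', true_and]
      constructor
      · rintro ⟨t, h1, h2⟩
        obtain ⟨t', g1, g2, g3, g4⟩ := c1 j t h1
        exact ⟨t', g1, (hrA z hz t g2 t' g3 g4 k).1.1 h2⟩
      · rintro ⟨t, h1, h2⟩
        obtain ⟨t', g1, g2, g3, g4⟩ := c2 j t h1
        exact ⟨t', g1, (hrA z hz t g2 t' g3 g4 k).1.1 h2⟩
    · intro j k
      rw [h.ph', h.ph']
      simp only [show le W z w from Or.inl lzw, show le W z w' from Or.inl lzw', true_and]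
      constructor
      · rintro ⟨t, h1, h2⟩
        obtain ⟨t', g1, g2, g3, g4⟩ := c1 j t h1
        exact ⟨t', g1, (hrA z hz t g2 t' g3 g4 k).2.1 h2⟩
      · rintro ⟨t, h1, h2⟩
        obtain ⟨t', g1, g2, g3, g4⟩ := c2 j t h1
        exact ⟨t', g1, (hrA z hz t g2 t' g3 g4 k).2.1 h2⟩

end Pool.Agent.Run7.h201.CTR.T3
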