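import Pool.Agent.Run7.h201.CTR.T3b
import Pool.Agent.Run7.h201.CTR.T1c

set_option autoImplicit false

/-!
# Finite width along trees: invariance, decoding, measurability
-/

namespace Pool.Agent.Run7.h201.CTR.T3

open Set MeasureTheory
open Pool.Agent.H899R2.VP (St PIso IsoOn isoOn_of_system)
open Pool.Agent.H533R2.VO (RS lift RIso Dich)
open Pool.Agent.H566P (ar R2 lt ac co mk)
open Pool.Agent.Y560.TG (lt_mk ac_mk co_mk piso_iff riso_iff riso_isoOn R2_ext meas_lt meas_ac
  meas_co meas_into)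
open Pool.Agent.Run7.h201.CS (E E_iff)
open Pool.Agent.Run7.h201.CS.FC (riso_symm riso_trans m_lt m_ac m_co)
open Pool.Agent.Run7.h201.CTR
open Pool.Agent.Run7.h201.CTR.T1 (r q m p p' RE P len pp mt RR E6 eqv_iff ge_iff mt_symm mt_not
  mt_uniq RR_cmp chain_max chain_min STO dnc Nz inc com Q Ch Cl C mt_s RR_s Lb zd m_eqv m_le m_RE
  m_mt m_RR m_Lb meas_zd m_TP)

/-! ### Invariance -/

section inv

variable {W W' : R2} {σ : Equiv.Perm ℕ} (h1 : ∀ x y, lt W' (σ x) (σ y) ↔ lt W x y)
  (h2 : ∀ n x y, ac W' n (σ x) (σ y) ↔ ac W n x y) (h3 : ∀ n x, co W' n (σ x) ↔ co W n x)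

include h1 h2 h3

theorem NN_s (v t : ℕ) : NN W {v} t ↔ NN W' {σ v} (σ t) := by
  rw [NN_one, NN_one, h1]
  exact and_congr (h3 _ _).symm Iff.rfl

theorem cA_s (v t t' : ℕ) : cA W {v} t t' ↔ cA W' {σ v} (σ t) (σ t') := by
  unfold cA
  refine and_congr (h3 _ _).symm (and_congr (h3 _ _).symm ?_)
  constructor
  · rintro ⟨w, g1, g2, g3⟩
    exact ⟨σ w, (NN_s h1 h2 h3 _ _).1 g1, (le_s h1 h2 _ _).2 g2, (le_s h1 h2 _ _).2 g3⟩
  · rintro ⟨w, g1, g2, g3⟩
    obtain ⟨w, rfl⟩ := σ.surjective w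
    exact ⟨w, (NN_s h1 h2 h3 _ _).2 g1, (le_s h1 h2 _ _).1 g2, (le_s h1 h2 _ _).1 g3⟩

theorem ev_s (v t t' : ℕ) : ev W' (σ v) (σ t) (σ t') ↔ ev W v t t' := by
  have h : WD.Tr (NN W {v}) (cA W {v}) (RR W) (NN W' {σ v}) (cA W' {σ v}) (RR W') σ
      (fun _ => True) := by
    refine ⟨fun b => ?_, fun x _ => NN_s h1 h2 h3 v x, fun _ _ => trivial,
      fun x y _ _ => cA_s h1 h2 h3 v x y, fun _ _ _ => ⟨trivial, trivial⟩,
      fun k x y _ _ => (RR_s h1 h2 h3 k x y).symm, fun _ _ _ _ => ⟨trivial, trivial⟩⟩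
    obtain ⟨x, rfl⟩ := σ.surjective b
    exact ⟨x, trivial, rfl⟩
  exact (h.EV trivial trivial).symm

end inv

theorem Ax.iso {W W' : R2} (hi : RIso W W') (h : Ax W') : Ax W := by
  obtain ⟨σ, h1, h2, h3⟩ := riso_iff.1 hi
  have el : ∀ x y, lt W x y ↔ lt W' (σ x) (σ y) := fun x y => (h1 x y).symm
  have ee : ∀ x y, eqv W x y ↔ eqv W' (σ x) (σ y) := fun x y => (h2 _ x y).symm
  have ele : ∀ x y, le W x y ↔ le W' (σ x) (σ y) := fun x y => (le_s h1 h2 x y).symm
  have er : ∀ k x y, r W k x y ↔ r W' k (σ x) (σ y) := fun k x y => (h2 _ x y).symm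
  have eq : ∀ k x y, q W k x y ↔ q W' k (σ x) (σ y) := fun k x y => (h2 _ x y).symm
  have em : ∀ i k x y, m W i k x y ↔ m W' i k (σ x) (σ y) := fun i k x y => (h2 _ x y).symm
  have ep : ∀ i k x y, p W i k x y ↔ p W' i k (σ x) (σ y) := fun i k x y => (h2 _ x y).symm
  have ep' : ∀ i k x y, p' W i k x y ↔ p' W' i k (σ x) (σ y) := fun i k x y => (h2 _ x y).symm
  have eR : ∀ x, RE W x ↔ RE W' (σ x) := fun x => (h3 _ x).symm
  have eP : ∀ k x, P W k x ↔ P W' k (σ x) := fun k x => (h3 _ x).symm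
  have en : ∀ k x, len W k x ↔ len W' k (σ x) := fun k x => (h3 _ x).symm
  have epp : ∀ i j k x, pp W i j k x ↔ pp W' i j k (σ x) := fun i j k x => (h3 _ x).symm
  have emt : ∀ a b x, mt W a b x ↔ mt W' (σ a) (σ b) (σ x) := fun a b x =>
    (mt_s h1 h2 a b x).symm
  have eev : ∀ x t t', ev W x t t' ↔ ev W' (σ x) (σ t) (σ t') := fun x t t' =>
    (ev_s h1 h2 h3 x t t').symm
  have hex : ∀ F : ℕ → Prop, (∃ t, F t) ↔ ∃ t, F (σ t) := by
    intro F
    exact ⟨fun ⟨t, ht⟩ => ⟨σ.symm t, by rwa [Equiv.apply_symm_apply]⟩, fun ⟨t, ht⟩ => ⟨_, ht⟩⟩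
  constructor
  · have k1 : ∀ x y, lt W (σ.symm x) (σ.symm y) ↔ lt W' x y := by
      intro x y; rw [el, Equiv.apply_symm_apply, Equiv.apply_symm_apply]
    have k2 : ∀ n x y, ac W n (σ.symm x) (σ.symm y) ↔ ac W' n x y := by
      intro n x y; rw [← h2, Equiv.apply_symm_apply, Equiv.apply_symm_apply]
    exact TP_s k1 k2 h.tp
  · intro l
    obtain ⟨x, hx0, hx⟩ := h.inf (l.map σ)
    refine ⟨σ.symm x, ?_, fun y hy => ?_⟩
    · rw [eR, Equiv.apply_symm_apply]; exact hx0
    · rw [ee, Equiv.apply_symm_apply]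
      exact hx _ (List.mem_map.2 ⟨y, hy, rfl⟩)
  · intro x
    obtain ⟨a, b, g1, g2, g3, g4, g5⟩ := h.nd (σ x)
    obtain ⟨a, rfl⟩ := σ.surjective a
    obtain ⟨b, rfl⟩ := σ.surjective b
    refine ⟨a, b, (eR _).2 g1, (eR _).2 g2, (ele _ _).2 g3, (ele _ _).2 g4, fun z k1 k2 => ?_⟩
    rw [ele] at k1 k2 ⊢
    exact g5 _ k1 k2
  · intro x y hxy
    obtain ⟨c, g1, g2, g3⟩ := h.sep _ _ ((el _ _).1 hxy)
    obtain ⟨c, rfl⟩ := σ.surjective c
    exact ⟨c, (eR _).2 g1, (el _ _).2 g2, (ele _ _).2 g3⟩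
  · intro x x'
    rw [ee, eR, eR]
    exact h.reb _ _
  · intro k x y
    rw [er, eR, eR]
    exact h.rd _ _ _
  · intro x x'
    rw [ee, eR]
    intro g1 g2 y k
    rw [er, er, er, er, eP, eP]
    exact h.rc _ _ g1 g2 _ k
  · intro k x
    rw [eP, eR]
    exact h.pd _ _
  · intro j x t t'
    rw [ee, eq, eq]
    exact h.qc _ _ _ _
  · intro x
    simp only [en]
    exact h.ln _
  · intro j x t
    simp only [eq, el, en, eR]
    exact h.qd _ _ _
  · intro x t
    simp only [eq, el, eR]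
    exact h.qe _ _
  · intro k j x
    simp only [eq, en]
    intro g1 g2
    exact (hex _).1 (h.qf k j _ g1 g2)
  · intro j x t t'
    simp only [eq, el, eev, eR]
    exact h.qg _ _ _ _
  · intro i j x y
    simp only [em, eq, ele]
    rw [h.mh]
    exact and_congr_right fun _ => hex _
  · intro j k x y
    simp only [ep, eq, ele, er]
    rw [h.ph]
    exact and_congr_right fun _ => hex _
  · intro j k x y
    simp only [ep', eq, ele, er]
    rw [h.ph']
    exact and_congr_right fun _ => hex _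
  · intro i j k x
    rw [epp]
    intro g
    obtain ⟨a, b, g1, g2, g3⟩ := h.pph _ _ _ _ g
    obtain ⟨a, rfl⟩ := σ.surjective a
    obtain ⟨b, rfl⟩ := σ.surjective b
    exact ⟨a, b, (emt _ _ _).2 g1, (eq _ _ _).2 g2, (eq _ _ _).2 g3⟩
  · intro i j k x i' j' x' a b
    rw [ee, emt, eq, eq, eq, eq, epp, epp]
    exact h.ppc _ _ _ _ _ _ _ _ _
  · intro x ts av
    simp only [el, ee, eev, en, eq, eR]
    intro g1 g2
    obtain ⟨x', k1, k2, k4, k5⟩ := h.rich (σ x) (ts.map σ) (av.map σ)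
      (by
        intro t ht
        obtain ⟨t, ht', rfl⟩ := List.mem_map.1 ht
        exact g1 t ht')
      (by
        intro s hs hs'
        obtain ⟨s, rfl⟩ := σ.surjective s
        obtain ⟨t, ht, hst⟩ := g2 s hs hs'
        exact ⟨σ t, List.mem_map.2 ⟨t, ht, rfl⟩, hst⟩)
    obtain ⟨x', rfl⟩ := σ.surjective x'
    refine ⟨x', ?_, k2, ?_, ?_⟩
    · intro hx
      exact k1 (List.mem_map.2 ⟨_, hx, rfl⟩)
    · rw [← List.length_map (f := σ)]; exact k4
    · intro j t hj
      exact k5 j (σ t) (by rw [List.getElem?_map, hj]; rfl)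

theorem Q_left {W W' z : R2} {π : ℕ → ℕ} (h : Q W' z π) (hi : RIso W W') :
    ∃ π', Q W z π' :=
  h.left hi fun _ h1 h2 h3 k x y => (RR_s h1 h2 h3 k x y).symm

/-! ### Decoding -/

theorem lb_ex {W : R2} (h : Ax W) {x : ℕ} (hx : RE W x) : ∃ y, Lb W y ∧ eqv W x y := by
  classical
  have hex : ∃ y, eqv W x y := ⟨x, h.tp.er x⟩
  have h1 := Nat.find_spec hex
  refine ⟨Nat.find hex, ⟨h.reb _ _ h1 hx, fun y hy hc => ?_⟩, h1⟩
  exact Nat.find_min hex hy (h.tp.et _ _ _ h1 hc)

theorem lb_inf {W : R2} (h : Ax W) : (Set.ofPred (Lb W)).Infinite := by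
  intro hf
  obtain ⟨x, hx0, hx⟩ := h.inf hf.toFinset.toList
  obtain ⟨y, hy1, hy2⟩ := lb_ex h hx0
  exact hx y (Finset.mem_toList.2 (hf.mem_toFinset.2 hy1)) hy2

theorem lb_uniq {W : R2} (h : Ax W) {x y : ℕ} (hx : Lb W x) (hy : Lb W y) (h1 : eqv W x y) :
    x = y := by
  rcases lt_trichotomy x y with h3 | h3 | h3
  · exact absurd (h.tp.es _ _ h1) (hy.2 x h3)
  · exact h3
  · exact absurd h1 (hx.2 y h3)

theorem RR_eqv {W : R2} (h : Ax W) {k x y x' y' : ℕ} (hx : eqv W x x') (hy : eqv W y y')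
    (hr : RR W k x y) : RR W k x' y' := by
  rcases hr with hr | ⟨w, i, j, ⟨g1, g2, g3⟩, g4, g5, g6⟩
  · left
    exact ((r_blk h (x := y') hx k).2).1 (((r_blk h (x := x) hy k).1).1 hr)
  · refine Or.inr ⟨w, i, j, ⟨h.tp.elr _ _ _ g1 hx, h.tp.elr _ _ _ g2 hy, fun z k1 k2 => ?_⟩,
      h.qc _ _ _ _ hx g4, h.qc _ _ _ _ hy g5, g6⟩
    exact g3 z (h.tp.le_trans k1 (Or.inr (h.tp.es _ _ hx)))
      (h.tp.le_trans k2 (Or.inr (h.tp.es _ _ hy)))

theorem zd_Q {W : R2} (h : Ax W) : STO (zd W) ∧ ∃ π, Q W (zd W) π := by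
  classical
  have hinf := lb_inf h
  have hL : ∀ n, Lb W (Nat.nth (Lb W) n) := fun n => Nat.nth_mem_of_infinite hinf n
  refine ⟨⟨?_, ?_, ?_⟩, ?_⟩
  · intro x
    rw [zd, lt_mk]
    exact h.tp.irr _
  · intro x y w
    rw [zd, lt_mk, lt_mk, lt_mk]
    exact h.tp.tr _ _ _
  · intro x y w
    rw [zd, lt_mk, lt_mk, lt_mk, lt_mk]
    intro g1 g2
    rcases h.tp.lin _ _ _ g1 g2 with g3 | g3 | g3
    · exact Or.inl g3
    · exact Or.inr (Or.inl (Nat.nth_injective hinf (lb_uniq h (hL _) (hL _) g3)))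
    · exact Or.inr (Or.inr g3)
  · have hc : ∀ x, ∃ y, RE W x → Lb W y ∧ eqv W x y := by
      intro x
      by_cases hx : RE W x
      · obtain ⟨y, hy⟩ := lb_ex h hx
        exact ⟨y, fun _ => hy⟩
      · exact ⟨0, fun g => absurd g hx⟩
    choose e he using hc
    have hn : ∀ x, RE W x → Nat.nth (Lb W) (Nat.count (Lb W) (e x)) = e x :=
      fun x hx => Nat.nth_count (he x hx).1
    have hes : ∀ x, RE W x → eqv W (e x) x := fun x hx => h.tp.es _ _ (he x hx).2
    refine ⟨fun x => Nat.count (Lb W) (e x), ?_, ?_, ?_, ?_, ?_⟩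
    · intro n
      refine ⟨Nat.nth (Lb W) n, (hL n).1, ?_⟩
      show Nat.count (Lb W) (e (Nat.nth (Lb W) n)) = n
      have h1 := he _ (hL n).1
      rw [← lb_uniq h (hL n) h1.1 h1.2]
      exact Nat.count_nth_of_infinite hinf n
    · intro x y hx hy
      rw [zd, lt_mk, hn x hx, hn y hy]
      constructor
      · exact fun h1 => h.tp.elr _ _ _ (h.tp.ell _ _ _ (hes x hx) h1) (he y hy).2
      · exact fun h1 => h.tp.elr _ _ _ (h.tp.ell _ _ _ (he x hx).2 h1) (hes y hy)
    · intro x y hx hy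
      constructor
      · intro h1
        have h2 := lb_uniq h (he x hx).1 (he y hy).1
          (h.tp.et _ _ _ (hes x hx) (h.tp.et _ _ _ h1 (he y hy).2))
        show Nat.count (Lb W) (e x) = Nat.count (Lb W) (e y)
        rw [h2]
      · intro h1
        have h2 : e x = e y := by
          rw [← hn x hx, ← hn y hy]
          exact congrArg _ h1
        have h3 := (he x hx).2
        rw [h2] at h3
        exact h.tp.et _ _ _ h3 (hes y hy)
    · intro k x y hx hy
      rw [zd, ac_mk, hn x hx, hn y hy]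
      exact ⟨RR_eqv h (he x hx).2 (he y hy).2, RR_eqv h (hes x hx) (hes y hy)⟩
    · intro k x hx
      rw [zd, co_mk, hn x hx]
      exact (h.rc x (e x) (he x hx).2 hx 0 k).2.2

/-! ### Measurability -/

theorem m_NN (v t : ℕ) : Measurable fun W : R2 => NN W {v} t := by
  unfold NN
  exact (m_RE _).and (Measurable.forall fun x => measurable_const.imp (m_lt _ _))
theorem m_cA (v t t' : ℕ) : Measurable fun W : R2 => cA W {v} t t' := by
  unfold cA
  exact (m_RE _).and ((m_RE _).and (Measurable.exists fun w => (m_NN _ _).and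
    ((m_le _ _).and (m_le _ _))))
theorem m_sm (t t' y : ℕ) : Measurable fun W : R2 => WD.sm (RR W) t t' y := by
  unfold WD.sm
  exact Measurable.forall fun k => ((m_RR _ _ _).iff (m_RR _ _ _)).and
    ((m_RR _ _ _).iff (m_RR _ _ _))
theorem m_wk (v t t' : ℕ) : Measurable fun W : R2 => WD.wk (NN W {v}) (cA W {v}) (RR W) t t' := by
  unfold WD.wk
  exact (Measurable.forall fun y => (m_NN _ _).not.imp (m_sm _ _ _)).and
    (Measurable.exists fun l => Measurable.forall fun y => (m_NN _ _).imp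
      ((Measurable.forall fun u => measurable_const.imp (m_cA _ _ _).not).imp (m_sm _ _ _)))
theorem m_rare (v t : ℕ) : Measurable fun W : R2 => WD.rare (NN W {v}) (cA W {v}) (RR W) t := by
  unfold WD.rare
  exact Measurable.exists fun l => Measurable.forall fun y => (m_NN _ _).imp ((m_wk _ _ _).imp
    (Measurable.exists fun u => measurable_const.and (m_cA _ _ _)))
theorem m_spe (v t : ℕ) : Measurable fun W : R2 => WD.spe (NN W {v}) (cA W {v}) (RR W) t := by
  unfold WD.spe
  exact (Measurable.exists fun u => (m_NN _ _).and ((m_cA _ _ _).and (m_rare _ _))).or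
    (Measurable.exists fun p => Measurable.exists fun p' => Measurable.exists fun y =>
      (m_NN _ _).and ((m_NN _ _).and ((m_wk _ _ _).and ((m_NN _ _).and ((m_cA _ _ _).and
        ((m_cA _ _ _).not.and ((m_cA _ _ _).not.and (m_sm _ _ _).not)))))))
theorem m_ev (v t t' : ℕ) : Measurable fun W : R2 => ev W v t t' := by
  unfold ev evA WD.EV
  exact (((m_spe _ _).or (m_spe _ _)).imp (m_cA _ _ _)).and (Measurable.forall fun y =>
    ((m_NN _ _).imp ((m_cA _ _ _).not.and (m_cA _ _ _).not)).imp (m_sm _ _ _))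

theorem meas_Ax : MeasurableSet {W : R2 | Ax W} := by
  have e : ∀ W : R2, Ax W ↔
    TP W ∧
    (∀ l : List ℕ, ∃ x, RE W x ∧ ∀ y, y ∈ l → ¬ eqv W x y) ∧
    (∀ x, ∃ a b, RE W a ∧ RE W b ∧ le W x a ∧ le W x b ∧
      ∀ z, le W z a → le W z b → le W z x) ∧
    (∀ x y, lt W x y → ∃ c, RE W c ∧ lt W x c ∧ le W c y) ∧
    (∀ x x', eqv W x x' → RE W x → RE W x') ∧
    (∀ k x y, r W k x y → RE W x ∧ RE W y) ∧
    (∀ x x', eqv W x x' → RE W x → ∀ y k, (r W k x y ↔ r W k x' y) ∧
      (r W k y x ↔ r W k y x') ∧ (P W k x ↔ P W k x')) ∧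
    (∀ k x, P W k x → RE W x) ∧
    (∀ j x t t', eqv W t t' → q W j x t → q W j x t') ∧
    (∀ x, ∃ k, ∀ k', len W k' x ↔ k' = k) ∧
    (∀ j x t, q W j x t → RE W t ∧ lt W x t ∧ ∃ k, len W k x ∧ j < k) ∧
    (∀ x t, RE W t → lt W x t → ∃ j, q W j x t) ∧
    (∀ k j x, len W k x → j < k → ∃ t, q W j x t) ∧
    (∀ j x t t', q W j x t → RE W t' → lt W x t' → (q W j x t' ↔ ev W x t t')) ∧
    (∀ i j x y, m W i j x y ↔ le W x y ∧ ∃ t, q W i x t ∧ q W j y t) ∧
    (∀ j k x y, p W j k x y ↔ le W x y ∧ ∃ t, q W j y t ∧ r W k x t) ∧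
    (∀ j k x y, p' W j k x y ↔ le W x y ∧ ∃ t, q W j y t ∧ r W k t x) ∧
    (∀ i j k x, pp W i j k x → ∃ a b, mt W a b x ∧ q W i x a ∧ q W j x b) ∧
    (∀ i j k x i' j' x' a b, eqv W x x' → mt W a b x → q W i x a → q W j x b →
      q W i' x' a → q W j' x' b → (pp W i j k x ↔ pp W i' j' k x')) ∧
    (∀ (x : ℕ) (ts av : List ℕ), (∀ t, t ∈ ts → RE W t ∧ lt W x t) →
      (∀ s, RE W s → lt W x s → ∃ t, t ∈ ts ∧ ev W x s t) →
      ∃ x', x' ∉ av ∧ eqv W x x' ∧ len W ts.length x' ∧
        ∀ (j t : ℕ), ts[j]? = some t → q W j x' t) := by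
    intro W
    constructor
    · intro h
      exact ⟨h.tp, h.inf, h.nd, h.sep, h.reb, h.rd, h.rc, h.pd, h.qc, h.ln, h.qd, h.qe, h.qf,
        h.qg, h.mh, h.ph, h.ph', h.pph, h.ppc, h.rich⟩
    · rintro ⟨a1, a2, a3, a4, a5, a6, a7, a8, a9, a10, a11, a12, a13, a14, a15, a16, a17, a18,
        a19, a20⟩
      exact ⟨a1, a2, a3, a4, a5, a6, a7, a8, a9, a10, a11, a12, a13, a14, a15, a16, a17, a18,
        a19, a20⟩
  rw [show {W : R2 | Ax W} = {W : R2 | _} from Set.ext fun W => e W]
  refine measurableSet_setOfPred.2 ?_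
  refine m_TP.and ?_
  refine (Measurable.forall fun l => Measurable.exists fun x => (m_RE _).and
    (Measurable.forall fun y => measurable_const.imp (m_eqv _ _).not)).and ?_
  refine (Measurable.forall fun x => Measurable.exists fun a => Measurable.exists fun b =>
    (m_RE _).and ((m_RE _).and ((m_le _ _).and ((m_le _ _).and (Measurable.forall fun z =>
      (m_le _ _).imp ((m_le _ _).imp (m_le _ _))))))).and ?_
  refine (Measurable.forall fun x => Measurable.forall fun y => (m_lt _ _).imp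
    (Measurable.exists fun c => (m_RE _).and ((m_lt _ _).and (m_le _ _)))).and ?_
  refine (Measurable.forall fun x => Measurable.forall fun y => (m_eqv _ _).imp
    ((m_RE _).imp (m_RE _))).and ?_
  refine (Measurable.forall fun k => Measurable.forall fun x => Measurable.forall fun y =>
    (m_ac _ _ _).imp ((m_RE _).and (m_RE _))).and ?_
  refine (Measurable.forall fun x => Measurable.forall fun x' => (m_eqv _ _).imp
    ((m_RE _).imp (Measurable.forall fun y => Measurable.forall fun k =>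
      ((m_ac _ _ _).iff (m_ac _ _ _)).and (((m_ac _ _ _).iff (m_ac _ _ _)).and
        ((m_co _ _).iff (m_co _ _)))))).and ?_
  refine (Measurable.forall fun k => Measurable.forall fun x => (m_co _ _).imp (m_RE _)).and ?_
  refine (Measurable.forall fun j => Measurable.forall fun x => Measurable.forall fun t =>
    Measurable.forall fun t' => (m_eqv _ _).imp ((m_ac _ _ _).imp (m_ac _ _ _))).and ?_
  refine (Measurable.forall fun x => Measurable.exists fun k => Measurable.forall fun k' =>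
    (m_co _ _).iff measurable_const).and ?_
  refine (Measurable.forall fun j => Measurable.forall fun t => Measurable.forall fun x =>
    (m_ac _ _ _).imp ((m_RE _).and ((m_lt _ _).and (Measurable.exists fun k =>
      (m_co _ _).and measurable_const)))).and ?_
  refine (Measurable.forall fun t => Measurable.forall fun x => (m_RE _).imp ((m_lt _ _).imp
    (Measurable.exists fun j => m_ac _ _ _))).and ?_
  refine (Measurable.forall fun k => Measurable.forall fun j => Measurable.forall fun x =>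
    (m_co _ _).imp (measurable_const.imp (Measurable.exists fun t => m_ac _ _ _))).and ?_
  refine (Measurable.forall fun j => Measurable.forall fun t => Measurable.forall fun t' =>
    Measurable.forall fun x => (m_ac _ _ _).imp ((m_RE _).imp ((m_lt _ _).imp
      ((m_ac _ _ _).iff (m_ev _ _ _))))).and ?_
  refine (Measurable.forall fun i => Measurable.forall fun j => Measurable.forall fun x =>
    Measurable.forall fun y => (m_ac _ _ _).iff ((m_le _ _).and (Measurable.exists fun t =>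
      (m_ac _ _ _).and (m_ac _ _ _)))).and ?_
  refine (Measurable.forall fun i => Measurable.forall fun j => Measurable.forall fun x =>
    Measurable.forall fun y => (m_ac _ _ _).iff ((m_le _ _).and (Measurable.exists fun t =>
      (m_ac _ _ _).and (m_ac _ _ _)))).and ?_
  refine (Measurable.forall fun i => Measurable.forall fun j => Measurable.forall fun x =>
    Measurable.forall fun y => (m_ac _ _ _).iff ((m_le _ _).and (Measurable.exists fun t =>
      (m_ac _ _ _).and (m_ac _ _ _)))).and ?_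
  refine (Measurable.forall fun i => Measurable.forall fun j => Measurable.forall fun k =>
    Measurable.forall fun x => (m_co _ _).imp (Measurable.exists fun a =>
      Measurable.exists fun b => (m_mt _ _ _).and ((m_ac _ _ _).and (m_ac _ _ _)))).and ?_
  refine (Measurable.forall fun i => Measurable.forall fun j => Measurable.forall fun k =>
    Measurable.forall fun x => Measurable.forall fun i' => Measurable.forall fun j' =>
    Measurable.forall fun x' => Measurable.forall fun a => Measurable.forall fun b =>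
      (m_eqv _ _).imp ((m_mt _ _ _).imp ((m_ac _ _ _).imp ((m_ac _ _ _).imp
        ((m_ac _ _ _).imp ((m_ac _ _ _).imp ((m_co _ _).iff (m_co _ _)))))))).and ?_
  refine Measurable.forall fun x => Measurable.forall fun ts => Measurable.forall fun av =>
    (Measurable.forall fun t => measurable_const.imp ((m_RE _).and (m_lt _ _))).imp
    ((Measurable.forall fun s => (m_RE _).imp ((m_lt _ _).imp (Measurable.exists fun t =>
      measurable_const.and (m_ev _ _ _)))).imp (Measurable.exists fun x' =>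
        measurable_const.and ((m_eqv _ _).and ((m_co _ _).and (Measurable.forall fun j =>
          Measurable.forall fun t => measurable_const.imp (m_ac _ _ _))))))

end Pool.Agent.Run7.h201.CTR.T3
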