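import Pool.Agent.Run7.h201.CTR.Sc

set_option autoImplicit false

/-!
# Coherent trees: transfer of centres; extending equivalences of a cone
-/

namespace Pool.Agent.Run7.h201.CTR

open Set
open Pool.Agent.H899R2.VP (St Adj PIso BF IsoOn idOn inv comp zipSet mem_inv BF_iff zipSet_cons
  zipSet_nil_left labels idOn_mono)
open Pool.Agent.H533R2.VO (RS lift RIso Dich resBF resIso seq_rec)
open Pool.Agent.H566P (ar R2 lt ac co mk)
open Pool.Agent.Y560.TG (lt_mk ac_mk co_mk piso_iff ex lt_ex ac_ex co_ex_even co_ex_odd piso_ex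
  bf_trans0 bf_symm0 iso_trans0 iso_symm0 iso_refl0 Off riso_isoOn riso_iff piso_lt piso_co
  piso_eq msg meas_lt meas_ac meas_co)
open Pool.Agent.Run7.h201.CS (E E_iff At piso_E piso_pair lc Mod lift_meas lift_few zip1 zip2
  gCnt gIso g_code genf_code genf_cnt_iso genf_cnt_union genf_subset_iso genf_iso_iso R0 Lev
  lift_measurable E_ex off_E fill)

section

variable {K : Set R2} {S : Set (R2 × Set ℕ)} {f : ℕ → R2 × ℕ × ℕ} {l : Ordinal.{0}} {M N : R2}
  {b : Bool} {q : Set (ℕ × ℕ)} {m x y m' x' y' z z' u u' r r' : ℕ} {C : Set ℕ}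

theorem Cf_sub : Cf S b M m x y ⊆ Dn M m x := by
  cases b
  · exact fun z hz => hz.1
  · exact fun z hz => hz.1

theorem Cf_cn (h : Cn M m x = Cn M m x') : Cf S b M m x y = Cf S b M m x' y := by
  cases b <;> · unfold Cf Dn; rw [h]

theorem Cen_cn (h : Cn M m x = Cn M m x') (hc : Cen S M m x C) : Cen S M m x' C := by
  obtain ⟨h1, h2, h3, h4, h5, h6⟩ := hc
  rw [dn_eq h] at h2 h3 h5
  rw [h] at h6
  exact ⟨h1, h2, h3, h4, h5, h6⟩

theorem lbl_cn (h : Cn M m x = Cn M m x') {i n : ℕ} :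
    lbl S f M m x C u i n ↔ lbl S f M m x' C u i n := by
  unfold lbl Sd
  rw [h]

theorem LL_cn (h : Cn M m x = Cn M m x') : LL S f M m x C = LL S f M m x' C := by
  unfold LL lbl Sd
  rw [h]

theorem Cen_bf (hS : Fam K S) (hl : Lev S l) (hl2 : Ordinal.omega0 ≤ l)
    (h : BF (lift M) (lift N) univ univ (l + 1 + 1 + 1 + 1 + 1) q) (hm : (m, m') ∈ q)
    (hx : (x, x') ∈ q) (hy : (y, y') ∈ q) (hc : Cen S M m x (Cf S b M m x y)) :
    Cen S N m' x' (Cf S b N m' x' y') := by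
  have e0 : l + 1 + 1 ≤ l + 1 + 1 + 1 := (lt_add_one _).le
  have e1 : l + 1 + 1 ≤ l + 1 + 1 + 1 + 1 := e0.trans (lt_add_one _).le
  have e2 : l + 1 + 1 ≤ l + 1 + 1 + 1 + 1 + 1 := e1.trans (lt_add_one _).le
  have e3 : l ≤ l + 1 + 1 := ((lt_add_one l).trans (lt_add_one _)).le
  have h0 : ∀ o : Ordinal.{0}, (0 : Ordinal.{0}) < o + 1 := fun o =>
    lt_of_le_of_lt zero_le (lt_add_one _)
  have cf : ∀ {p : Set (ℕ × ℕ)} {z z'}, q ⊆ p → BF (lift M) (lift N) univ univ (l + 1 + 1) p →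
      (z, z') ∈ p → (z ∈ Cf S b M m x y ↔ z' ∈ Cf S b N m' x' y') := fun hp hb hz =>
    Cf_bf hS hl hl2 hb (hp hm) (hp hx) (hp hy) hz
  have i1 : ∀ {a c : ℕ × ℕ} {p : Set (ℕ × ℕ)}, p ⊆ insert a (insert c p) := fun {a c p} =>
    (subset_insert c p).trans (subset_insert a _)
  have i2 : ∀ {a c d : ℕ × ℕ} {p : Set (ℕ × ℕ)}, p ⊆ insert a (insert c (insert d p)) :=
    fun {a c d p} => (subset_insert d p).trans i1
  refine ⟨(cf Subset.rfl (h.mono e2) hm).1 hc.ms, Cf_sub, ?_, ?_, ?_, ?_⟩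
  · intro z' hz' w' hw' hle
    obtain ⟨z, -, b1⟩ := h.back (lt_add_one _) (mem_univ z')
    obtain ⟨w, -, b2⟩ := b1.back (lt_add_one _) (mem_univ w')
    have pz : (z, z') ∈ insert (w, w') (insert (z, z') q) := Or.inr (Or.inl rfl)
    have pw : (w, w') ∈ insert (w, w') (insert (z, z') q) := Or.inl rfl
    have c1 := (cf i1 (b2.mono e0) pz).2 hz'
    have c2 := (dn_bf b2 (h0 _) (i1 hm) (i1 hx) pw).2 hw'
    exact (cf i1 (b2.mono e0) pw).1 (hc.dn z c1 w c2 ((piso_le b2.piso pw pz).2 hle))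
  · intro z' hz' w' hw'
    obtain ⟨z, -, b1⟩ := h.back (lt_add_one _) (mem_univ z')
    obtain ⟨w, -, b2⟩ := b1.back (lt_add_one _) (mem_univ w')
    have pz : (z, z') ∈ insert (w, w') (insert (z, z') q) := Or.inr (Or.inl rfl)
    have pw : (w, w') ∈ insert (w, w') (insert (z, z') q) := Or.inl rfl
    rcases hc.ch z ((cf i1 (b2.mono e0) pz).2 hz') w ((cf i1 (b2.mono e0) pw).2 hw') with h1 | h1
    · exact Or.inl ((piso_le b2.piso pz pw).1 h1)
    · exact Or.inr ((piso_le b2.piso pw pz).1 h1)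
  · intro r' hr'
    obtain ⟨r, -, b1⟩ := h.back (lt_add_one _) (mem_univ r')
    have pr : (r, r') ∈ insert (r, r') q := Or.inl rfl
    obtain ⟨c, hcC, h1, h2⟩ := hc.bs r ((dn_bf b1 (h0 _) (Or.inr hm) (Or.inr hx) pr).2 hr')
    obtain ⟨c', -, b2⟩ := b1.forth (lt_add_one _) (mem_univ c)
    have pc : (c, c') ∈ insert (c, c') (insert (r, r') q) := Or.inl rfl
    refine ⟨c', (cf i1 (b2.mono e0) pc).1 hcC, (piso_le b2.piso pc (Or.inr pr)).1 h1,
      fun d' hd' hle => ?_⟩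
    obtain ⟨d, -, b3⟩ := b2.back (lt_add_one _) (mem_univ d')
    have pd : (d, d') ∈ insert (d, d') (insert (c, c') (insert (r, r') q)) := Or.inl rfl
    refine (piso_le b3.piso pd (Or.inr pc)).1 (h2 d ((cf i2 b3 pd).2 hd') ?_)
    exact (piso_le b3.piso pd (Or.inr (Or.inr pr))).2 hle
  · intro u' hu' r' hr' hur hno
    obtain ⟨u, -, b1⟩ := h.back (lt_add_one _) (mem_univ u')
    obtain ⟨r, -, b2⟩ := b1.back (lt_add_one _) (mem_univ r')
    have pu : (u, u') ∈ insert (r, r') (insert (u, u') q) := Or.inr (Or.inl rfl)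
    have pr : (r, r') ∈ insert (r, r') (insert (u, u') q) := Or.inl rfl
    have c1 := (cf i1 (b2.mono e0) pu).2 hu'
    have c2 := (cn_bf b2 (h0 _) (i1 hm) (i1 hx) pr).2 hr'
    refine (mem_bf hS hl hl2 (b2.mono (e3.trans e0)) pu pr).1
      (hc.th u c1 r c2 ((piso_lt b2.piso pu pr).2 hur) fun z hz hzC => ?_)
    obtain ⟨z', -, b3⟩ := b2.forth (lt_add_one _) (mem_univ z)
    have pz : (z, z') ∈ insert (z, z') (insert (r, r') (insert (u, u') q)) := Or.inl rfl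
    exact hno z' ((cn_bf b3 (h0 _) (Or.inr pu) (Or.inr pr) pz).1 hz) ((cf i2 b3 pz).1 hzC)

end

/-- extending an equivalence of a cone by the identity outside -/
theorem extd {R V : R2} {O : Set ℕ} {m : ℕ} (hMod : Mod O (fun _ => m) R) (hoff : Off O R V)
    (o : Ordinal.{0}) : ∀ p : Set (ℕ × ℕ), (m, m) ∈ p → p ⊆ insert m O ×ˢ insert m O →
    BF (lift R) (lift V) (insert m O) (insert m O) o p →
    BF (lift R) (lift V) univ univ o (idOn Oᶜ ∪ p) := by
  induction o using WellFoundedLT.induction with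
  | ind o ih =>
    intro p hm hp hb
    have hmO : m ∉ O := hMod.1 0
    have hE := piso_E.1 hb.piso
    have key : ∀ u ∈ p, (u.1 ∈ O ↔ u.2 ∈ O) ∧ (u.1 ∉ O → u.1 = m ∧ u.2 = m) := by
      rintro ⟨u, u'⟩ hu
      have h1 := hE.1 _ hu _ hm
      simp only at h1
      obtain ⟨h2, h3⟩ := hp hu
      constructor
      · constructor
        · intro h4
          rcases h3 with h3 | h3
          · exact absurd (h1.2 h3 ▸ h4) hmO
          · exact h3
        · intro h4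
          rcases h2 with h2 | h2
          · exact absurd (h1.1 h2 ▸ h4) hmO
          · exact h2
      · intro h4
        rcases h2 with h2 | h2
        · exact ⟨h2, h1.1 h2⟩
        · exact absurd h2 h4
    have mixE : ∀ a, a ∉ O → ∀ u ∈ p, E R V a u.1 a u.2 := by
      rintro a ha ⟨u, u'⟩ hu
      simp only
      by_cases hO : u ∈ O
      · have hO' : u' ∈ O := (key _ hu).1.1 hO
        have h1 : E R V m u m u' := hE.2.1 _ hm _ hu
        have h2 : E R R m u m u' := h1.trans (off_E hoff fun h => hmO h.1)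
        exact (hMod.2 u hO u' hO' (fun _ => h2) a ha).trans (off_E hoff fun h => ha h.1).symm
      · obtain ⟨h1, h2⟩ := (key _ hu).2 hO
        simp only at h1 h2
        rw [h1, h2]
        exact (off_E hoff fun h => ha h.1).symm
    have mixEq : ∀ a, a ∉ O → ∀ u ∈ p, (a = u.1 ↔ a = u.2) := by
      rintro a ha ⟨u, u'⟩ hu
      simp only
      by_cases hO : u ∈ O
      · have hO' : u' ∈ O := (key _ hu).1.1 hO
        exact iff_of_false (fun e => ha (e ▸ hO)) (fun e => ha (e ▸ hO'))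
      · obtain ⟨h1, h2⟩ := (key _ hu).2 hO
        simp only at h1 h2
        rw [h1, h2]
    rw [BF_iff]
    refine ⟨?_, fun o' ho' => ⟨fun x _ => ?_, fun y _ => ?_⟩⟩
    · rw [piso_E]
      refine ⟨?_, ?_, ?_⟩
      · rintro ⟨u, u'⟩ (⟨h1, h2⟩ | hu) ⟨v, v'⟩ (⟨h3, h4⟩ | hv)
        · simp only at h1 h3 ⊢
          rw [h1, h3]
        · simp only at h1 h2
          subst h1
          exact mixEq u h2 _ hv
        · simp only at h3 h4
          subst h3
          have := mixEq v h4 _ hu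
          simp only at this ⊢
          exact ⟨fun e => (this.1 e.symm).symm, fun e => (this.2 e.symm).symm⟩
        · exact hE.1 _ hu _ hv
      · rintro ⟨u, u'⟩ (⟨h1, h2⟩ | hu) ⟨v, v'⟩ (⟨h3, h4⟩ | hv)
        · simp only at h1 h2 h3 h4 ⊢
          subst h1 h3
          exact (off_E hoff fun h => h2 h.1).symm
        · simp only at h1 h2
          subst h1
          exact mixE u h2 _ hv
        · simp only at h3 h4
          subst h3
          exact (mixE v h4 _ hu).swap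
        · exact hE.2.1 _ hu _ hv
      · rintro n ⟨u, u'⟩ (⟨h1, h2⟩ | hu)
        · simp only at h1 h2 ⊢
          subst h1
          exact (hoff.2.2 n u h2).symm
        · exact hE.2.2 n _ hu
    · by_cases hx : x ∈ O
      · obtain ⟨y, hy, h1⟩ := hb.forth ho' (mem_insert_of_mem m hx)
        refine ⟨y, mem_univ _, (ih o' ho' _ (Or.inr hm)
          (insert_subset ⟨mem_insert_of_mem m hx, hy⟩ hp) h1).subset ?_⟩
        rintro w (hw | hw | hw)
        · exact Or.inr (Or.inl hw)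
        · exact Or.inl hw
        · exact Or.inr (Or.inr hw)
      · refine ⟨x, mem_univ _, (ih o' ho' _ hm hp (hb.mono ho'.le)).subset ?_⟩
        exact insert_subset (Or.inl ⟨rfl, hx⟩) Subset.rfl
    · by_cases hy : y ∈ O
      · obtain ⟨x, hx, h1⟩ := hb.back ho' (mem_insert_of_mem m hy)
        refine ⟨x, mem_univ _, (ih o' ho' _ (Or.inr hm)
          (insert_subset ⟨hx, mem_insert_of_mem m hy⟩ hp) h1).subset ?_⟩
        rintro w (hw | hw | hw)
        · exact Or.inr (Or.inl hw)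
        · exact Or.inl hw
        · exact Or.inr (Or.inr hw)
      · refine ⟨y, mem_univ _, (ih o' ho' _ hm hp (hb.mono ho'.le)).subset ?_⟩
        exact insert_subset (Or.inl ⟨rfl, hy⟩) Subset.rfl

/-! ### the hypotheses of the decoding lemma -/

section

variable {K : Set R2} {α : Ordinal.{0}} {S : Set (R2 × Set ℕ)} {f : ℕ → R2 × ℕ × ℕ} {R M : R2}
  {C C' : Set ℕ} {m x m' x' : ℕ} {W : R2} {U : Set ℕ}

/-- The witnesses. -/
def Wit (f : ℕ → R2 × ℕ × ℕ) (R W : R2) (U : Set ℕ) : Prop :=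
  (∀ u ∈ U, eqv W u u) ∧ (∀ u ∈ U, ∀ v ∈ U, eqv W u v → eqv W v u) ∧
  (∀ a ∈ U, ∀ b ∈ U, ∀ c ∈ U, eqv W a b → eqv W b c → eqv W a c) ∧
  ∀ v ∈ U, ∀ u ∈ U, le W v u → ∀ i j, co W (2 * Nat.pair i (j + 1) + 1) u →
    ∃ x c, E W R v u x c ∧ ∀ k ∈ Pc f i, k ≠ (f i).2.1 → ∃ y, E (f i).1 R (f i).2.1 k c y

theorem wit_of (hR : TP R) (hcov : ∀ u q, lt R u q → (R, Dn R u q) ∈ S → ∃ i, ty f i R u q)
    (hb : BF (lift (LL S f R m x C)) (lift W) C U (0 + 1 + 1 + 1) ∅) : Wit f R W U := by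
  have l3 : (0 : Ordinal.{0}) + 1 + 1 < 0 + 1 + 1 + 1 := lt_add_one _
  have l2 : (0 : Ordinal.{0}) + 1 < 0 + 1 + 1 := lt_add_one _
  have l1 : (0 : Ordinal.{0}) < 0 + 1 := lt_add_one _
  refine ⟨fun u hu => ?_, fun u hu v hv h => ?_, fun a ha b hb' c hc h1 h2 => ?_,
    fun v hv u hu hle i j hc => ?_⟩
  · obtain ⟨u0, -, b1⟩ := hb.back l3 hu
    have p1 : (u0, u) ∈ insert (u0, u) (∅ : Set (ℕ × ℕ)) := Or.inl rfl
    exact (E_eqv (E_LL.1 (piso_pair b1.piso p1 p1))).1 (hR.er u0)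
  · obtain ⟨u0, -, b1⟩ := hb.back l3 hu
    obtain ⟨v0, -, b2⟩ := b1.back l2 hv
    have p1 : (u0, u) ∈ insert (v0, v) (insert (u0, u) (∅ : Set (ℕ × ℕ))) := Or.inr (Or.inl rfl)
    have p2 : (v0, v) ∈ insert (v0, v) (insert (u0, u) (∅ : Set (ℕ × ℕ))) := Or.inl rfl
    exact (E_eqv (E_LL.1 (piso_pair b2.piso p2 p1))).1
      (hR.es _ _ ((E_eqv (E_LL.1 (piso_pair b2.piso p1 p2))).2 h))
  · obtain ⟨a0, -, b1⟩ := hb.back l3 ha
    obtain ⟨b0, -, b2⟩ := b1.back l2 hb'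
    obtain ⟨c0, -, b3⟩ := b2.back l1 hc
    have p1 : (a0, a) ∈ insert (c0, c) (insert (b0, b) (insert (a0, a) (∅ : Set (ℕ × ℕ)))) :=
      Or.inr (Or.inr (Or.inl rfl))
    have p2 : (b0, b) ∈ insert (c0, c) (insert (b0, b) (insert (a0, a) (∅ : Set (ℕ × ℕ)))) :=
      Or.inr (Or.inl rfl)
    have p3 : (c0, c) ∈ insert (c0, c) (insert (b0, b) (insert (a0, a) (∅ : Set (ℕ × ℕ)))) :=
      Or.inl rfl
    exact (E_eqv (E_LL.1 (piso_pair b3.piso p1 p3))).1
      (hR.et _ _ _ ((E_eqv (E_LL.1 (piso_pair b3.piso p1 p2))).2 h1)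
        ((E_eqv (E_LL.1 (piso_pair b3.piso p2 p3))).2 h2))
  · obtain ⟨u0, -, b1⟩ := hb.back l3 hu
    obtain ⟨v0, -, b2⟩ := b1.back l2 hv
    have p1 : (u0, u) ∈ insert (v0, v) (insert (u0, u) (∅ : Set (ℕ × ℕ))) := Or.inr (Or.inl rfl)
    have p2 : (v0, v) ∈ insert (v0, v) (insert (u0, u) (∅ : Set (ℕ × ℕ))) := Or.inl rfl
    refine ⟨v0, u0, (E_LL.1 (piso_pair b2.piso p2 p1)).symm, fun k hk hkm => ?_⟩
    have h1 := piso_co b2.piso (n := 2 * Nat.pair i (j + 1) + 1) p1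
    rw [← h1] at hc
    unfold LL at hc
    rw [co_ex_odd, Nat.unpair_pair] at hc
    obtain ⟨g, g1, -⟩ := hc
    have hs := g1 0 (Nat.succ_pos j)
    obtain ⟨t1, -, t3, t4, -⟩ := th_spec (hcov u0 (g 0) hs.2.1 hs.2.2.2.1) hs.2.2.2.2
    obtain ⟨y, hy⟩ := t4 k hk
    exact ⟨y, piso_pair t3 t1 hy⟩

theorem gh_of (hw : Wit f R W U) (hM : TP M) (hL : Law R M) (hc : Cen S M m x C)
    (hcov : ∀ u q, lt M u q → (M, Dn M u q) ∈ S → ∃ i, ty f i M u q) :
    GH S f R M m x C W U :=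
  ⟨hM, hL, hc, hcov, hw.1, hw.2.1, hw.2.2.1, hw.2.2.2⟩

end

end Pool.Agent.Run7.h201.CTR
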