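import Pool.Agent.Run7.h201.CS.Fin

set_option autoImplicit false

/-!
# Coherent trees: tree preorders, cones, the law
-/

namespace Pool.Agent.Run7.h201.CTR

open Set
open Pool.Agent.H899R2.VP (St Adj PIso BF IsoOn idOn inv comp zipSet mem_inv BF_iff)
open Pool.Agent.H533R2.VO (RS lift RIso Dich resBF resIso)
open Pool.Agent.H566P (ar R2 lt ac co mk)
open Pool.Agent.Y560.TG (lt_mk ac_mk co_mk piso_iff ex lt_ex ac_ex co_ex_even co_ex_odd piso_ex
  bf_trans0 bf_symm0 iso_trans0 iso_symm0 iso_refl0 Off riso_isoOn piso_lt piso_co piso_eq)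
open Pool.Agent.Run7.h201.CS (E E_iff At piso_E piso_pair lc Mod)

/-- the same block -/
def eqv (M : R2) (x y : ℕ) : Prop := ac M 0 x y

/-- below or in the same block -/
def le (M : R2) (x y : ℕ) : Prop := lt M x y ∨ eqv M x y

/-- tree preorders with meets -/
structure TP (M : R2) : Prop where
  irr : ∀ x, ¬ lt M x x
  tr : ∀ x y z, lt M x y → lt M y z → lt M x z
  er : ∀ x, eqv M x x
  es : ∀ x y, eqv M x y → eqv M y x
  et : ∀ x y z, eqv M x y → eqv M y z → eqv M x z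
  ell : ∀ x y z, eqv M x y → lt M y z → lt M x z
  elr : ∀ x y z, lt M x y → eqv M y z → lt M x z
  lin : ∀ x y z, lt M x z → lt M y z → lt M x y ∨ eqv M x y ∨ lt M y x
  meet : ∀ x y, ∃ w, le M w x ∧ le M w y ∧ ∀ z, le M z x → le M z y → le M z w
  loc : ∀ n x y, ac M n x y → le M x y ∨ le M y x

section

variable {M N : R2} {x y z m w u : ℕ}

theorem TP.asymm (h : TP M) (h1 : lt M x y) : ¬ lt M y x := fun h2 => h.irr x (h.tr x y x h1 h2)
theorem TP.lr (h : TP M) (x : ℕ) : le M x x := Or.inr (h.er x)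
theorem TP.lt_le (h : TP M) (h1 : lt M x y) (h2 : le M y z) : lt M x z := by
  rcases h2 with h2 | h2
  · exact h.tr _ _ _ h1 h2
  · exact h.elr _ _ _ h1 h2
theorem TP.le_lt (h : TP M) (h1 : le M x y) (h2 : lt M y z) : lt M x z := by
  rcases h1 with h1 | h1
  · exact h.tr _ _ _ h1 h2
  · exact h.ell _ _ _ h1 h2
theorem TP.le_trans (h : TP M) (h1 : le M x y) (h2 : le M y z) : le M x z := by
  rcases h1 with h1 | h1
  · exact Or.inl (h.lt_le h1 h2)
  · rcases h2 with h2 | h2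
    · exact Or.inl (h.ell _ _ _ h1 h2)
    · exact Or.inr (h.et _ _ _ h1 h2)
theorem TP.lt_eqv (h : TP M) (h1 : lt M x y) : ¬ eqv M x y := fun h2 =>
  h.irr x (h.elr _ _ _ h1 (h.es _ _ h2))
theorem TP.lt_not_le (h : TP M) (h1 : lt M x y) : ¬ le M y x := fun h2 =>
  h.irr x (h.lt_le h1 h2)
theorem TP.antisymm (h : TP M) (h1 : le M x y) (h2 : le M y x) : eqv M x y := by
  rcases h1 with h1 | h1
  · exact absurd h2 (h.lt_not_le h1)
  · exact h1
theorem TP.lin' (h : TP M) (h1 : le M x z) (h2 : le M y z) : le M x y ∨ le M y x := by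
  rcases h1 with h1 | h1
  · rcases h2 with h2 | h2
    · rcases h.lin _ _ _ h1 h2 with h3 | h3 | h3
      · exact Or.inl (Or.inl h3)
      · exact Or.inl (Or.inr h3)
      · exact Or.inr (Or.inl h3)
    · exact Or.inl (Or.inl (h.elr _ _ _ h1 (h.es _ _ h2)))
  · exact Or.inr (h.le_trans h2 (Or.inr (h.es _ _ h1)))
theorem TP.lt_or (h : TP M) (h1 : le M x y) : lt M x y ∨ le M y x := by
  rcases h1 with h1 | h1
  · exact Or.inl h1
  · exact Or.inr (Or.inr (h.es _ _ h1))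
/-- `lt` from `le` and not `le` back -/
theorem TP.lt_of (h : TP M) (h1 : le M x y) (h2 : ¬ le M y x) : lt M x y := by
  rcases h.lt_or h1 with h3 | h3
  · exact h3
  · exact absurd h3 h2

/-- The cone of `x` above `m`. -/
def Cn (M : R2) (m x : ℕ) : Set ℕ := {z | ∃ w, lt M m w ∧ le M w z ∧ le M w x}

/-- The cone together with the base point. -/
def Dn (M : R2) (m x : ℕ) : Set ℕ := insert m (Cn M m x)

theorem mem_Cn : z ∈ Cn M m x ↔ ∃ w, lt M m w ∧ le M w z ∧ le M w x := Iff.rfl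

theorem cn_lt (h : TP M) (h1 : z ∈ Cn M m x) : lt M m z := by
  obtain ⟨w, h2, h3, -⟩ := h1
  exact h.lt_le h2 h3
theorem cn_ltr (h : TP M) (h1 : z ∈ Cn M m x) : lt M m x := by
  obtain ⟨w, h2, -, h3⟩ := h1
  exact h.lt_le h2 h3
theorem self_cn (h : TP M) (h1 : lt M m x) : x ∈ Cn M m x := ⟨x, h1, h.lr x, h.lr x⟩
theorem cn_symm (h1 : z ∈ Cn M m x) : x ∈ Cn M m z := by
  obtain ⟨w, h2, h3, h4⟩ := h1
  exact ⟨w, h2, h4, h3⟩
theorem cn_up (h : TP M) (h1 : z ∈ Cn M m x) (h2 : le M z y) : y ∈ Cn M m x := by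
  obtain ⟨w, h3, h4, h5⟩ := h1
  exact ⟨w, h3, h.le_trans h4 h2, h5⟩
theorem cn_dn (h : TP M) (h1 : z ∈ Cn M m x) (h2 : lt M m y) (h3 : le M y z) :
    y ∈ Cn M m x := by
  obtain ⟨w, h4, h5, h6⟩ := h1
  rcases h.lin' h3 h5 with h7 | h7
  · exact ⟨y, h2, h.lr y, h.le_trans h7 h6⟩
  · exact ⟨w, h4, h7, h6⟩
theorem cn_tr (h : TP M) (h1 : z ∈ Cn M m x) (h2 : y ∈ Cn M m z) : y ∈ Cn M m x := by
  obtain ⟨w, h3, h4, h5⟩ := h2
  exact cn_up h (cn_dn h h1 h3 h5) h4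
theorem cn_eq (h : TP M) (h1 : z ∈ Cn M m x) : Cn M m z = Cn M m x :=
  Subset.antisymm (fun _ h2 => cn_tr h h1 h2) (fun _ h2 => cn_tr h (cn_symm h1) h2)
theorem cn_eqv (h : TP M) (h1 : eqv M m u) : Cn M m x = Cn M u x := by
  ext z
  constructor
  · rintro ⟨w, h2, h3⟩
    exact ⟨w, h.ell _ _ _ (h.es _ _ h1) h2, h3⟩
  · rintro ⟨w, h2, h3⟩
    exact ⟨w, h.ell _ _ _ h1 h2, h3⟩
theorem cn_sub (h : TP M) (h1 : u ∈ Cn M m x) : Cn M u y ⊆ Cn M m x := fun _ h2 =>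
  cn_up h h1 (Or.inl (cn_lt h h2))
theorem cn_sub' (h : TP M) (h1 : le M m u) : Cn M u x ⊆ Cn M m x := by
  rintro z ⟨w, h2, h3⟩
  exact ⟨w, h.le_lt h1 h2, h3⟩
/-- cones with a common element -/
theorem cn_nest (h : TP M) (h1 : z ∈ Cn M m x) (h2 : z ∈ Cn M u y) (h3 : le M m u) :
    Cn M u y ⊆ Cn M m x := by
  rw [← cn_eq h h1, ← cn_eq h h2]
  exact cn_sub' h h3
theorem cn_cmp (h : TP M) (h1 : z ∈ Cn M m x) (h2 : z ∈ Cn M u y) :
    Cn M u y ⊆ Cn M m x ∨ Cn M m x ⊆ Cn M u y := by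
  rcases h.lin' (Or.inl (cn_lt h h1)) (Or.inl (cn_lt h h2)) with h3 | h3
  · exact Or.inl (cn_nest h h1 h2 h3)
  · exact Or.inr (cn_nest h h2 h1 h3)

theorem base_nCn (h : TP M) : m ∉ Cn M m x := fun h1 => h.irr m (cn_lt h h1)
theorem mem_Dn_base : m ∈ Dn M m x := mem_insert _ _
theorem cn_dn_sub : Cn M m x ⊆ Dn M m x := subset_insert _ _
theorem dn_le (h : TP M) (h1 : z ∈ Dn M m x) : le M m z := by
  rcases h1 with h1 | h1
  · rw [h1]; exact h.lr m
  · exact Or.inl (cn_lt h h1)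
theorem dn_sub (h : TP M) (h1 : u ∈ Dn M m x) (h2 : y ∈ Cn M m x) (h3 : lt M u y) :
    Dn M u y ⊆ Dn M m x := by
  rintro z (hz | hz)
  · rw [hz]; exact h1
  · rcases h1 with h1 | h1
    · rw [h1, cn_eq h h2] at hz
      exact Or.inr hz
    · exact Or.inr (cn_sub h h1 hz)
/-- an element of the cone is not below an element outside -/
theorem cn_out (h : TP M) (h1 : z ∈ Cn M m x) (h2 : u ∉ Cn M m x) : ¬ le M z u := fun h3 =>
  h2 (cn_up h h1 h3)
theorem cn_out' (h : TP M) (h1 : z ∈ Cn M m x) (h2 : u ∉ Cn M m x) (h3 : le M u z) :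
    le M u m := by
  by_contra h4
  rcases h.lin' h3 (Or.inl (cn_lt h h1)) with h5 | h5
  · exact h4 h5
  · exact h2 (cn_dn h h1 (h.lt_of h5 h4) h3)

end

/-! ### Types of pairs -/

section

variable {M N : R2} {x y x' y' : ℕ}

theorem E_eqv (h : E M N x y x' y') : eqv M x y ↔ eqv N x' y' := h.a 0
theorem E_le (h : E M N x y x' y') : le M x y ↔ le N x' y' := or_congr h.l (E_eqv h)
theorem E_ge (h : E M N x y x' y') : le M y x ↔ le N y' x' := E_le h.swap

theorem E_inc (hM : TP M) (hN : TP N) (h1 : ¬ le M x y) (h2 : ¬ le M y x) (h3 : ¬ le N x' y')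
    (h4 : ¬ le N y' x') : E M N x y x' y' := by
  rw [E_iff]
  refine ⟨iff_of_false (fun h => h1 (Or.inl h)) (fun h => h3 (Or.inl h)),
    iff_of_false (fun h => h2 (Or.inl h)) (fun h => h4 (Or.inl h)), fun n => ⟨?_, ?_⟩⟩
  · refine iff_of_false (fun h => ?_) (fun h => ?_)
    · rcases hM.loc _ _ _ h with h | h
      · exact h1 h
      · exact h2 h
    · rcases hN.loc _ _ _ h with h | h
      · exact h3 h
      · exact h4 h
  · refine iff_of_false (fun h => ?_) (fun h => ?_)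
    · rcases hM.loc _ _ _ h with h | h
      · exact h2 h
      · exact h1 h
    · rcases hN.loc _ _ _ h with h | h
      · exact h4 h
      · exact h3 h

end

/-- The types of comparable pairs compose. -/
def Law (M N : R2) : Prop := ∀ x c y x' c' y', le M x c → le M c y →
  E M N x c x' c' → E M N c y c' y' → E M N x y x' y'

/-- Every cut of a chain is pointed on both sides. -/
def PC (M : R2) : Prop := ∀ C A : Set ℕ, (∀ x ∈ C, ∀ y, le M y x → y ∈ C) →
  (∀ x ∈ C, ∀ y ∈ C, le M x y ∨ le M y x) → A ⊆ C → (∀ x ∈ A, ∀ y ∈ C, y ∉ A → lt M x y) →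
  A.Nonempty → (C \ A).Nonempty →
  (∃ b ∈ C \ A, ∀ z ∈ A, ∀ z' ∈ A, E M M z b z' b → ∀ w ∈ C \ A, E M M z w z' w) ∧
  (∃ a ∈ A, ∀ w ∈ C \ A, ∀ w' ∈ C \ A, E M M a w a w' → ∀ z ∈ A, E M M z w z w')

/-- there is a root below a single cone -/
def Root (M : R2) : Prop := ∃ r, (∀ z, z ≠ r → lt M r z) ∧
  ∀ z z', z ≠ r → z' ≠ r → ∃ w, lt M r w ∧ le M w z ∧ le M w z'

section

variable {M N : R2} {m x : ℕ}

theorem mod_cn (hM : TP M) (hL : Law M M) : Mod (Cn M m x) (fun _ => m) M := by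
  refine ⟨fun _ => base_nCn hM, fun z hz z' hz' h w hw => ?_⟩
  by_cases h1 : le M w m
  · exact hL w m z w m z' h1 (Or.inl (cn_lt hM hz)) E.rfl (h 0)
  · exact E_inc hM hM (fun h2 => h1 (cn_out' hM hz hw h2)) (cn_out hM hz hw)
      (fun h2 => h1 (cn_out' hM hz' hw h2)) (cn_out hM hz' hw)

end

/-! ### Transfer of cones -/

section

variable {M N : R2} {X Y : Set ℕ} {p q : Set (ℕ × ℕ)} {o : Ordinal.{0}}
  {m m' x x' z z' : ℕ}

theorem piso_le (h : PIso (lift M) (lift N) q) (hx : (x, x') ∈ q) (hz : (z, z') ∈ q) :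
    le M x z ↔ le N x' z' := E_le (piso_pair h hx hz)

theorem cn_bf (hb : BF (lift M) (lift N) univ univ o q) (ho : 0 < o) (hm : (m, m') ∈ q)
    (hx : (x, x') ∈ q) (hz : (z, z') ∈ q) : z ∈ Cn M m x ↔ z' ∈ Cn N m' x' := by
  constructor
  · rintro ⟨w, h1, h2, h3⟩
    obtain ⟨w', -, h4⟩ := hb.forth ho (mem_univ w)
    have hw : (w, w') ∈ insert (w, w') q := mem_insert _ _
    exact ⟨w', (piso_lt h4.piso (mem_insert_of_mem _ hm) hw).1 h1,
      (piso_le h4.piso hw (mem_insert_of_mem _ hz)).1 h2,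
      (piso_le h4.piso hw (mem_insert_of_mem _ hx)).1 h3⟩
  · rintro ⟨w', h1, h2, h3⟩
    obtain ⟨w, -, h4⟩ := hb.back ho (mem_univ w')
    have hw : (w, w') ∈ insert (w, w') q := mem_insert _ _
    exact ⟨w, (piso_lt h4.piso (mem_insert_of_mem _ hm) hw).2 h1,
      (piso_le h4.piso hw (mem_insert_of_mem _ hz)).2 h2,
      (piso_le h4.piso hw (mem_insert_of_mem _ hx)).2 h3⟩

theorem dn_bf (hb : BF (lift M) (lift N) univ univ o q) (ho : 0 < o) (hm : (m, m') ∈ q)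
    (hx : (x, x') ∈ q) (hz : (z, z') ∈ q) : z ∈ Dn M m x ↔ z' ∈ Dn N m' x' := by
  unfold Dn
  rw [mem_insert_iff, mem_insert_iff, cn_bf hb ho hm hx hz, piso_eq hb.piso hz hm]

/-- restriction to a definable set -/
theorem resU {X Y : Set ℕ} {l : Ordinal.{0}}
    (H : ∀ q, p ⊆ q → BF (lift M) (lift N) univ univ l q → ∀ u ∈ q, (u.1 ∈ X ↔ u.2 ∈ Y))
    (hb : BF (lift M) (lift N) univ univ (l + o) p) : BF (lift M) (lift N) X Y o p := by
  have h1 := Pool.Agent.Y275.TG.t_EXT M N M N univ univ X Y p p l (subset_univ _)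
    (subset_univ _) (fun q hq hb => ⟨hb.piso.mono (union_subset (fun u hu => hu.1) hq),
      H q hq hb⟩) o hb
  exact h1.subset subset_union_right

theorem resDn (ho : Ordinal.omega0 ≤ o) (hm : (m, m') ∈ p) (hx : (x, x') ∈ p)
    (hb : BF (lift M) (lift N) univ univ o p) :
    BF (lift M) (lift N) (Dn M m x) (Dn N m' x') o p := by
  refine resU (l := 1) (fun q hq hb u hu => dn_bf hb zero_lt_one (hq hm) (hq hx) hu) ?_
  rwa [Ordinal.one_add_of_omega0_le ho]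

theorem resCn (ho : Ordinal.omega0 ≤ o) (hm : (m, m') ∈ p) (hx : (x, x') ∈ p)
    (hb : BF (lift M) (lift N) univ univ o p) :
    BF (lift M) (lift N) (Cn M m x) (Cn N m' x') o p := by
  refine resU (l := 1) (fun q hq hb u hu => cn_bf hb zero_lt_one (hq hm) (hq hx) hu) ?_
  rwa [Ordinal.one_add_of_omega0_le ho]

/-- labels only -/
theorem bf_lab {b b' : ℕ → ℕ} (hbb : ∀ i, (b i, b' i) ∈ p)
    (h : BF (lift M) (lift N) X Y o p) : BF (lift (lc M b)) (lift (lc N b')) X Y o p := by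
  induction o using WellFoundedLT.induction generalizing p with
  | ind o ih =>
    rw [BF_iff]
    refine ⟨Pool.Agent.Run7.h201.CS.piso_lc.2 ⟨h.piso, fun u hu i =>
      piso_pair h.piso (hbb i) (show (u.1, u.2) ∈ p from hu)⟩, fun o' ho' =>
        ⟨fun x hx => ?_, fun y hy => ?_⟩⟩
    · obtain ⟨y, hy, hb⟩ := h.forth ho' hx
      exact ⟨y, hy, ih o' ho' (fun i => mem_insert_of_mem _ (hbb i)) hb⟩
    · obtain ⟨x, hx, hb⟩ := h.back ho' hy
      exact ⟨x, hx, ih o' ho' (fun i => mem_insert_of_mem _ (hbb i)) hb⟩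

end

end Pool.Agent.Run7.h201.CTR
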